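import Pool.Agent.Lib.MP_29e17e_pr.Defs
import Pool.Agent.Lib.MP_29e17e_pr.V.Df

set_option autoImplicit false

namespace Pool.Agent.PERC29

/-- The probability that the centre of the box of side `2 N + 1` is joined to the boundary of the box. -/
noncomputable def armProb (d N : ℕ) (p : ℝ) : ℝ :=
  prob (boxG d (2 * N + 1)) p (fun ω => ∃ x y : Fin d → Fin (2 * N + 1), (∀ i, (x i : ℕ) = N) ∧
    (openGraph (boxG d (2 * N + 1)) ω).Reachable x y ∧ ∃ i, (y i : ℕ) = 0 ∨ (y i : ℕ) = 2 * N)

/-- The percolation probability of `ℤ^d`: the probability that the origin is joined to the boundary of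
every box around it. -/
noncomputable def theta (d : ℕ) (p : ℝ) : ℝ := ⨅ N : ℕ, armProb d N p

end Pool.Agent.PERC29
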