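import Pool.Agent.Lib.MP_29e17e_pr.Y.Ln

set_option autoImplicit false
set_option linter.unusedSectionVars false

/-! Assembly: the giant component has size `θ n^d`, and large finite clusters are rare. -/

open Finset

namespace Pool.Agent.PERC29.AE

open scoped Classical in
/-- The law of large numbers with the percolation probability of `ℤ^d`, and the tail of the cluster size: there are few vertices in large clusters
off the giant. -/
theorem lln_th (d : ℕ) (hd : 9 ≤ d) (C c0 cp s0 η : ℝ) (hC : 1 ≤ C) (hc0 : 0 < c0) (hcp : 0 < cp)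
    (hcp1 : cp ≤ 1) (hs0 : 0 < s0) (hη : 0 < η) (hη1 : η ≤ 1) :
    ∃ A1 A ε0 : ℝ, 1 ≤ A1 ∧ 0 < A ∧ 0 < ε0 ∧ ∀ [∀ l, Fintype (boxG d l).edgeSet] (n : ℕ) [NeZero n]
      [Fintype (torG d n).edgeSet] (p ε : ℝ),
      cp ≤ p → cp ≤ 1 - p → 0 < ε → ε ≤ ε0 → A ≤ ε * (n : ℝ) ^ 2 → (∀ l : ℕ, Hyp d C c0 p l) →
      HypT d C p s0 →
      Ex (p + ε) (fun ω =>
        if η * ε * (n : ℝ) ^ d < |mxc (gends (torG d n)) ω - (n : ℝ) ^ d * th d (p + ε)|
        then (1 : ℝ) else 0) ≤ η ∧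
      |fT d n (p + ε) (A1 / ε ^ 2) - th d (p + ε)| ≤ η * ε := by
  have hC0 : 0 < C := by linarith
  set η' : ℝ := η / 2 / (4 * (1 + 3 * C)) with hη'
  have hη'0 : 0 < η' := by positivity
  have hη'2 : η' ≤ η / 2 := by
    rw [hη', div_le_iff₀ (by positivity)]
    nlinarith
  obtain ⟨A1, A, ε1, hA1, hA, hε1, hL⟩ := lln_ex d hd C c0 cp s0 η' hC hc0 hcp hcp1 hs0 hη'0
    (by linarith)
  obtain ⟨B, ε2, hB, hε2, hcmp⟩ := tor_cmp d C cp A1 (η / 2) s0 hC0.le hcp hA1 (by positivity) hs0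
  obtain ⟨D, ε3, hD, hε3, hup⟩ := th_up d (by omega) C cp A1 (η / 2) s0 hC0.le hcp hA1
    (by positivity) hs0
  refine ⟨A1, max A (max B D), min (min ε1 cp) (min ε2 ε3), hA1, lt_of_lt_of_le hA (le_max_left _ _),
    lt_min (lt_min hε1 hcp) (lt_min hε2 hε3), ?_⟩
  intro _ n _ _ p ε hp hp1 hε hεle hAn hHb hHT
  have a1 : A ≤ ε * (n : ℝ) ^ 2 := (le_max_left _ _).trans hAn
  have a2 : B ≤ ε * (n : ℝ) ^ 2 := (le_max_left _ _).trans ((le_max_right _ _).trans hAn)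
  have a3 : D ≤ ε * (n : ℝ) ^ 2 := (le_max_right _ _).trans ((le_max_right _ _).trans hAn)
  have e1 : ε ≤ ε1 := hεle.trans ((min_le_left _ _).trans (min_le_left _ _))
  have e4 : ε ≤ cp := hεle.trans ((min_le_left _ _).trans (min_le_right _ _))
  have e2 : ε ≤ ε2 := hεle.trans ((min_le_right _ _).trans (min_le_left _ _))
  have e3 : ε ≤ ε3 := hεle.trans ((min_le_right _ _).trans (min_le_right _ _))
  have h0p : 0 ≤ p := hcp.le.trans hp
  have hq0 : 0 ≤ p + ε := by linarith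
  have hLL := hL n p ε hp hp1 hε e1 a1 ⟨hHb, hHT⟩
  have hlow := (hcmp n p ε hp hp1 hε e2 a2 hHT).1
  have hhigh := hup A ε1 _ hL n p ε hp hp1 hε e3 e1 a3 a1 hHT ⟨hHb, hHT⟩
  have habs : |fT d n (p + ε) (A1 / ε ^ 2) - th d (p + ε)| ≤ η / 2 * ε := by
    rw [abs_le]
    constructor <;> linarith
  have hnd : 0 ≤ (n : ℝ) ^ d := by positivity
  refine ⟨?_, habs.trans ?_⟩
  · have hq1 : p + ε ≤ 1 := by linarith
    refine (Ex_mono hq0 hq1 fun ω => ?_).trans (hLL.trans (by linarith))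
    by_cases hc : η * ε * (n : ℝ) ^ d < |mxc (gends (torG d n)) ω - (n : ℝ) ^ d * th d (p + ε)|
    · rw [if_pos hc, if_pos]
      have t1 : |mxc (gends (torG d n)) ω - (n : ℝ) ^ d * th d (p + ε)| ≤
          |mxc (gends (torG d n)) ω - (n : ℝ) ^ d * fT d n (p + ε) (A1 / ε ^ 2)| +
          |(n : ℝ) ^ d * fT d n (p + ε) (A1 / ε ^ 2) - (n : ℝ) ^ d * th d (p + ε)| :=
        abs_sub_le _ _ _
      have t2 : |(n : ℝ) ^ d * fT d n (p + ε) (A1 / ε ^ 2) - (n : ℝ) ^ d * th d (p + ε)| ≤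
          (n : ℝ) ^ d * (η / 2 * ε) := by
        rw [← mul_sub, abs_mul, abs_of_nonneg hnd]
        exact mul_le_mul_of_nonneg_left habs hnd
      have t3 : η' * ε * (n : ℝ) ^ d ≤ η / 2 * ε * (n : ℝ) ^ d := by gcongr
      have t4 : (n : ℝ) ^ d * (η / 2 * ε) = η / 2 * ε * (n : ℝ) ^ d := by ring
      have t5 : η * ε * (n : ℝ) ^ d = η / 2 * ε * (n : ℝ) ^ d + η / 2 * ε * (n : ℝ) ^ d := by ring
      linarith
    · rw [if_neg hc]
      split_ifs <;> norm_num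
  · have : 0 < η * ε := by positivity
    linarith

open scoped Classical in
/-- A box in a torus. -/
lemma box_fT {d l n : ℕ} [NeZero n] [Fintype (boxG d l).edgeSet] [Fintype (torG d n).edgeSet] (hl : l < n)
    {p N : ℝ} (h0 : 0 ≤ p) (h1 : p ≤ 1) (x : Fin d → Fin l) :
    Ex p (fun ω => if N ≤ cz (gends (boxG d l)) ω x then (1 : ℝ) else 0) ≤ fT d n p N := by
  obtain ⟨φ, -⟩ := box_tor (d := d) (l := l) (n := n) (fun _ => 0) (fun i => by omega) hl
  have e2 : fT d n p N = Ex p (fun ω : (torG d n).edgeSet → Bool =>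
      if N ≤ cz (gends (torG d n)) ω (φ x) then (1 : ℝ) else 0) := by
    unfold fT
    exact (tor_trans p (fun t => if N ≤ t then (1 : ℝ) else 0) (φ x)).symm
  rw [e2, ← Ex_pul φ p (fun ω => if N ≤ cz (gends (boxG d l)) ω x then (1 : ℝ) else 0)]
  refine Ex_mono h0 h1 fun ω => ?_
  have hle : cz (gends (boxG d l)) (pul φ ω) x ≤ cz (gends (torG d n)) ω (φ x) := by
    unfold cz
    have h3 : (cu (gends (boxG d l)) (pul φ ω) x).card ≤ (cu (gends (torG d n)) ω (φ x)).card := by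
      apply Finset.card_le_card_of_injOn φ
      · intro y hy
        exact cu_map (emb_of φ) hy
      · exact φ.injective.injOn
    exact_mod_cast h3
  by_cases hc : N ≤ cz (gends (boxG d l)) (pul φ ω) x
  · rw [if_pos hc, if_pos (hc.trans hle)]
  · rw [if_neg hc]
    split_ifs <;> norm_num

open scoped Classical in
/-- Large finite clusters are rare: in every box the probability that a cluster has at least `A1/ε²` points is at most `θ + η ε`. -/
theorem ui_ex (d : ℕ) (hd : 9 ≤ d) (C c0 cp s0 η : ℝ) (hC : 1 ≤ C) (hc0 : 0 < c0) (hcp : 0 < cp)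
    (hcp1 : cp ≤ 1) (hs0 : 0 < s0) (hη : 0 < η) (hη1 : η ≤ 1) :
    ∃ A1 ε0 : ℝ, 1 ≤ A1 ∧ 0 < ε0 ∧ ∀ [∀ l, Fintype (boxG d l).edgeSet] (p ε : ℝ),
      cp ≤ p → cp ≤ 1 - p → 0 < ε → ε ≤ ε0 → (∀ l : ℕ, Hyp d C c0 p l) → HypT d C p s0 →
      ∀ (l : ℕ) (x : Fin d → Fin l),
        Ex (p + ε) (fun ω => if A1 / ε ^ 2 ≤ cz (gends (boxG d l)) ω x then (1 : ℝ) else 0) ≤
          th d (p + ε) + η * ε := by
  obtain ⟨A1, A, ε0, hA1, hA, hε0, hL⟩ := lln_th d hd C c0 cp s0 η hC hc0 hcp hcp1 hs0 hη hη1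
  refine ⟨A1, min ε0 cp, hA1, lt_min hε0 hcp, ?_⟩
  intro _ p ε hp hp1 hε hεle hHb hHT l x
  obtain ⟨k, hk⟩ := exists_nat_ge (A / ε)
  set n : ℕ := max (l + 1) (k + 1) with hn
  have hn1 : l + 1 ≤ n := le_max_left _ _
  have hn2 : k + 1 ≤ n := le_max_right _ _
  have : NeZero n := ⟨by omega⟩
  have : Fintype (torG d n).edgeSet := Fintype.ofFinite _
  have hAn : A ≤ ε * (n : ℝ) ^ 2 := by
    rw [div_le_iff₀ hε] at hk
    have h2 : (k : ℝ) ≤ (n : ℝ) := by exact_mod_cast (by omega : k ≤ n)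
    have h3 : (1 : ℝ) ≤ n := by exact_mod_cast (by omega : 1 ≤ n)
    have h4 : (n : ℝ) ≤ (n : ℝ) ^ 2 := by nlinarith
    nlinarith
  have h := (hL n p ε hp hp1 hε (hεle.trans (min_le_left _ _)) hAn hHb hHT).2
  have hεc : ε ≤ cp := hεle.trans (min_le_right _ _)
  refine (box_fT (by omega : l < n) (by linarith) (by linarith) x).trans ?_
  have := (abs_le.1 h).2
  linarith

end Pool.Agent.PERC29.AE
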