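import Pool.Agent.Lib.MP_29e17e_pr.V.Fi
import Pool.Agent.Lib.MP_29e17e_pr.Y.Dt
import Pool.Agent.Lib.MP_29e17e_pr.Y.Lx

set_option autoImplicit false
set_option linter.unusedSectionVars false

/-! The size and the uniqueness of the giant component of the torus, in terms of `θ`. -/

open Finset

namespace Pool.Agent.PERC29.AE

lemma arm_eq {d N : ℕ} [Fintype (boxG d (2 * N + 1)).edgeSet] (p : ℝ) : armProb d N p = aM d N p := by
  classical
  unfold armProb aM prob
  rw [expect_eq]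
  apply Ex_congr
  intro ω
  have hiff : (∃ x y : Fin d → Fin (2 * N + 1), (∀ i, (x i : ℕ) = N) ∧
      (openGraph (boxG d (2 * N + 1)) ω).Reachable x y ∧ ∃ i, (y i : ℕ) = 0 ∨ (y i : ℕ) = 2 * N) ↔
      arm d N ω := by
    unfold arm
    rw [Finset.not_disjoint_iff]
    constructor
    · rintro ⟨x, y, hx, hxy, i, hi⟩
      have hxc : x = ctr d N := by
        funext i
        exact Fin.ext (hx i)
      subst hxc
      refine ⟨y, ?_, ?_⟩
      · rw [mem_cu, rch_iff]; exact hxy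
      · unfold bdy
        rw [Finset.mem_filter]
        exact ⟨Finset.mem_univ _, i, by omega⟩
    · rintro ⟨y, hy, hb⟩
      rw [mem_cu, rch_iff] at hy
      unfold bdy at hb
      rw [Finset.mem_filter] at hb
      obtain ⟨-, i, hi⟩ := hb
      exact ⟨ctr d N, y, fun _ => rfl, hy, i, by omega⟩
  by_cases h : arm d N ω
  · rw [if_pos h, if_pos (hiff.2 h)]
  · rw [if_neg h, if_neg (fun h2 => h (hiff.1 h2))]

lemma theta_eq {d : ℕ} [∀ l, Fintype (boxG d l).edgeSet] (p : ℝ) : theta d p = th d p := by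
  unfold theta th
  congr 1
  funext N
  exact arm_eq p

/-- The size of the largest cluster is `θ n^d` up to `η ε n^d`, and there is only one cluster with `η ε n^d` vertices. -/
theorem giant_theta (d : ℕ) (C c₀ p₁ s₀ η : ℝ) (hd : 9 ≤ d) (hc₀ : 0 < c₀) (hp₁ : 0 < p₁) (hs₀ : 0 < s₀)
    (hη : 0 < η) :
    ∃ A ε₀ : ℝ, 0 < ε₀ ∧ ∀ p : ℝ, p₁ ≤ p → p ≤ 1 - p₁ →
      (∀ (l : ℕ) (x y : Fin d → Fin l), tau (boxG d l) p x y ≤ C / (1 + (nd x y : ℝ)) ^ (d - 2)) →
      (∀ (l : ℕ) (x : Fin d → Fin l) (k : ℕ), 1 ≤ k →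
        prob (boxG d l) p (fun ω => k ≤ clusterSize (boxG d l) ω x) ≤ C / Real.sqrt k) →
      (∀ (l : ℕ) (x y : Fin d → Fin l), bul x → bul y →
        c₀ / (l : ℝ) ^ (d - 2) ≤ tau (boxG d l) p x y) →
      (∀ N : ℕ, 1 ≤ N → armProb d N p ≤ C / (N : ℝ) ^ 2) →
      (∀ (n : ℕ) [NeZero n] (x : Fin d → ZMod n) (r : ℝ) (k : ℕ), p ≤ r → r ≤ p + s₀ → 1 ≤ k →
        prob (torG d n) r (fun ω => k ≤ clusterSize (torG d n) ω x) ≤
          C * (1 / Real.sqrt k + (r - p))) →
      ∀ (n : ℕ) [NeZero n] (ε : ℝ), 0 < ε → ε ≤ ε₀ → A ≤ ε * (n : ℝ) ^ 2 →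
        prob (torG d n) (p + ε) (fun ω => η * ε * (n : ℝ) ^ d <
          |(maxCluster (torG d n) ω : ℝ) - theta d (p + ε) * (n : ℝ) ^ d|) ≤ η ∧
        prob (torG d n) (p + ε) (fun ω => ∃ x y, ¬ (openGraph (torG d n) ω).Reachable x y ∧
          η * ε * (n : ℝ) ^ d ≤ (clusterSize (torG d n) ω x : ℝ) ∧
          η * ε * (n : ℝ) ^ d ≤ (clusterSize (torG d n) ω y : ℝ)) ≤ η := by
  classical
  have hC1 : 1 ≤ max C 1 := le_max_right _ _
  have hCC : C ≤ max C 1 := le_max_left _ _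
  have hη' : 0 < min η 1 := lt_min hη one_pos
  have hη1 : min η 1 ≤ 1 := min_le_right _ _
  have hηη : min η 1 ≤ η := min_le_left _ _
  have hcp : 0 < min p₁ 1 := lt_min hp₁ one_pos
  have hcp1 : min p₁ 1 ≤ 1 := min_le_right _ _
  obtain ⟨A1, A, e1, hA1, hA, he1, hL⟩ := lln_th d hd (max C 1) c₀ (min p₁ 1) s₀ (min η 1) hC1 hc₀ hcp hcp1
    hs₀ hη' hη1
  obtain ⟨B, c, e2, hB, hc, he2, hU2⟩ := uniq_ex d hd (max C 1) c₀ (min p₁ 1) (min η 1) hC1 hc₀ hcp hcp1
    hη' hη1
  refine ⟨max A B, min (min e1 e2) (min s₀ (min p₁ 1)), lt_min (lt_min he1 he2) (lt_min hs₀ hcp), ?_⟩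
  intro p hp hp1 hU hT hLo hB1 hTT n _ ε hε hεle hAn
  have a1 : A ≤ ε * (n : ℝ) ^ 2 := (le_max_left _ _).trans hAn
  have a2 : B ≤ ε * (n : ℝ) ^ 2 := (le_max_right _ _).trans hAn
  have ee1 : ε ≤ e1 := hεle.trans ((min_le_left _ _).trans (min_le_left _ _))
  have ee2 : ε ≤ e2 := hεle.trans ((min_le_left _ _).trans (min_le_right _ _))
  have ee3 : ε ≤ s₀ := hεle.trans ((min_le_right _ _).trans (min_le_left _ _))
  have ee4 : ε ≤ min p₁ 1 := hεle.trans ((min_le_right _ _).trans (min_le_right _ _))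
  have hpp : min p₁ 1 ≤ p := (min_le_left _ _).trans hp
  have hpp1 : min p₁ 1 ≤ 1 - p := by have := min_le_left p₁ 1; linarith
  have hp0 : 0 ≤ p := hcp.le.trans hpp
  have hq0 : 0 ≤ p + ε := by linarith
  have hq1 : p + ε ≤ 1 := by linarith
  have hH : ∀ l : ℕ, Hyp d (max C 1) c₀ p l := fun l => hyp_of l
    (fun x y => (hU l x y).trans (div_le_div_of_nonneg_right hCC (by positivity)))
    (fun x k hk => (hT l x k hk).trans (div_le_div_of_nonneg_right hCC (Real.sqrt_nonneg _)))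
    (fun x y hx hy => hLo l x y hx hy)
  have hHT : HypT d (max C 1) p s₀ := by
    constructor
    · intro M hM
      have h := hB1 M hM
      rw [arm_eq] at h
      exact h.trans (div_le_div_of_nonneg_right hCC (by positivity))
    · intro n' _ i2 x r hr hr2 k hk
      have h := hTT n' x r k hr hr2 hk
      rw [tail_eq] at h
      have h2 : C * (1 / Real.sqrt (k : ℝ) + (r - p)) ≤ max C 1 * (1 / Real.sqrt (k : ℝ) + (r - p)) := by
        apply mul_le_mul_of_nonneg_right hCC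
        have : 0 ≤ 1 / Real.sqrt (k : ℝ) := by positivity
        linarith
      refine le_trans (le_of_eq ?_) (h.trans h2)
      congr 1
  have hT0 : ∀ x, ∀ k : ℕ, 1 ≤ k → Ex p (fun ω => if (k : ℝ) ≤ cz (gends (torG d n)) ω x
        then (1 : ℝ) else 0) ≤ max C 1 / Real.sqrt k := by
    intro x k hk
    have h := hHT.2 n x p le_rfl (by linarith) k hk
    have e : max C 1 * (1 / Real.sqrt k + (p - p)) = max C 1 / Real.sqrt k := by ring
    rw [e] at h
    exact h
  have hT1 : ∀ x, ∀ k : ℕ, 1 ≤ k → Ex (p + ε) (fun ω => if (k : ℝ) ≤ cz (gends (torG d n)) ω x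
        then (1 : ℝ) else 0) ≤ max C 1 * (1 / Real.sqrt k + ε) := by
    intro x k hk
    have h := hHT.2 n x (p + ε) (by linarith) (by linarith) k hk
    have e : max C 1 * (1 / Real.sqrt k + (p + ε - p)) = max C 1 * (1 / Real.sqrt k + ε) := by ring
    rw [e] at h
    exact h
  have harm : ∀ m : ℕ, 1 ≤ m → ∀ x ∈ bT d m (fun _ => false),
        Ex p (fun ω : (boxG d (8 * m)).edgeSet → Bool =>
          if ¬ Disjoint (cu (gends (boxG d (8 * m))) ω x) (bdy d (8 * m)) then (1 : ℝ) else 0) ≤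
          max C 1 / (m : ℝ) ^ 2 := by
    intro m hm x hx
    refine (arm_box hm hp0 (by linarith) x hx).trans ((hHT.1 (3 * m) (by omega)).trans ?_)
    have hm0 : (0 : ℝ) < m := by exact_mod_cast hm
    push_cast
    refine div_le_div_of_nonneg_left (by linarith) (by positivity) ?_
    have : (0 : ℝ) ≤ (m : ℝ) ^ 2 := by positivity
    nlinarith
  have hnd : 0 ≤ ε * (n : ℝ) ^ d := by positivity
  constructor
  · have h := (hL n p ε hpp hpp1 hε ee1 a1 hH hHT).1
    refine le_trans ?_ (h.trans hηη)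
    unfold prob
    rw [expect_eq]
    refine Ex_mono hq0 hq1 fun ω => ?_
    by_cases hx : η * ε * (n : ℝ) ^ d < |(maxCluster (torG d n) ω : ℝ) - theta d (p + ε) * (n : ℝ) ^ d|
    · have hx' : min η 1 * ε * (n : ℝ) ^ d <
          |mxc (gends (torG d n)) ω - (n : ℝ) ^ d * th d (p + ε)| := by
        rw [maxCluster_eq, theta_eq, mul_comm (th d (p + ε))] at hx
        refine lt_of_le_of_lt ?_ hx
        have := mul_le_mul_of_nonneg_right hηη hnd
        calc min η 1 * ε * (n : ℝ) ^ d = min η 1 * (ε * (n : ℝ) ^ d) := by ring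
          _ ≤ η * (ε * (n : ℝ) ^ d) := this
          _ = _ := by ring
      rw [if_pos hx, if_pos hx']
    · rw [if_neg hx]
      split_ifs <;> norm_num
  · have h := hU2 n p ε hpp hpp1 hε ee2 a2 hH harm hT0 hT1
    have h2 : 0 ≤ Ex (p + ε) (fun ω => if ∀ x, cz (gends (torG d n)) ω x < c * ε * (n : ℝ) ^ d
        then (1 : ℝ) else 0) := Ex_nonneg hq0 hq1 fun ω => by split_ifs <;> norm_num
    refine le_trans ?_ ((by linarith : Ex (p + ε) (fun ω => if ∃ x x', min η 1 * ε * (n : ℝ) ^ d ≤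
        cz (gends (torG d n)) ω x ∧ min η 1 * ε * (n : ℝ) ^ d ≤ cz (gends (torG d n)) ω x' ∧
        x' ∉ cu (gends (torG d n)) ω x then (1 : ℝ) else 0) ≤ min η 1).trans hηη)
    unfold prob
    rw [expect_eq]
    refine Ex_mono hq0 hq1 fun ω => ?_
    by_cases hx : ∃ x y, ¬ (openGraph (torG d n) ω).Reachable x y ∧
          η * ε * (n : ℝ) ^ d ≤ (clusterSize (torG d n) ω x : ℝ) ∧
          η * ε * (n : ℝ) ^ d ≤ (clusterSize (torG d n) ω y : ℝ)
    · have hx' : ∃ x x', min η 1 * ε * (n : ℝ) ^ d ≤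
        cz (gends (torG d n)) ω x ∧ min η 1 * ε * (n : ℝ) ^ d ≤ cz (gends (torG d n)) ω x' ∧
        x' ∉ cu (gends (torG d n)) ω x := by
        obtain ⟨x, y, b1, b2, b3⟩ := hx
        have e : min η 1 * ε * (n : ℝ) ^ d ≤ η * ε * (n : ℝ) ^ d := by
          have := mul_le_mul_of_nonneg_right hηη hnd
          calc min η 1 * ε * (n : ℝ) ^ d = min η 1 * (ε * (n : ℝ) ^ d) := by ring
            _ ≤ η * (ε * (n : ℝ) ^ d) := this
            _ = _ := by ring
        rw [cz_eq] at b2 b3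
        refine ⟨x, y, e.trans b2, e.trans b3, fun h => b1 ?_⟩
        rw [mem_cu, rch_iff] at h
        exact h
      rw [if_pos hx, if_pos hx']
    · rw [if_neg hx]
      split_ifs <;> norm_num

end Pool.Agent.PERC29.AE
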