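import Pool.Agent.Lib.MP_29e17e_pr.V.Nc

set_option autoImplicit false
set_option linter.unusedSectionVars false

/-! Rows 29w-N1 .. 29w-N5: common near contacts for all disjoint pairs of families (Lemma 1' of the page
29e17e_unique_helper62.md). The proofs are those of V/Nc.lean (rows 29v-N2 .. N8, finished files 29v_N2.lean ..) with a pair of
disjoint subfamilies instead of a subfamily and its complement. -/

open Finset

namespace Pool.Agent.PERC29.AE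

variable {V : Type*} [Fintype V] [DecidableEq V] {E : Type*} [Fintype E] [DecidableEq E]
  {ends : E → Sym2 V}

open scoped Classical in
/-- The large clusters with at least `h` near contacts to both families. -/
noncomputable def DN (ends : E → Sym2 V) (ω : E → Bool) (sh : V → V) (W : Finset V) (k2 h : ℝ)
    (𝒮 𝒯 : Finset (Finset V)) : Finset (Finset V) :=
  (GC ends ω k2).filter (fun D => h ≤ Xc sh ((W ∩ Un 𝒮) \ D) D ∧ h ≤ Xc sh ((W ∩ Un 𝒯) \ D) D)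

/-- The bad event: two disjoint families with large volumes and fewer than `k` common neighbours. -/
def BadN2 (ends : E → Sym2 V) (ω : E → Bool) (sh : V → V) (W : Finset V) (k2 A2 β h : ℝ) (k : ℕ) : Prop :=
  ∃ 𝒮 ∈ (GC ends ω k2).powerset, ∃ 𝒯 ∈ (GC ends ω k2).powerset, Disjoint 𝒮 𝒯 ∧
    β ≤ vol ends ω W A2 (Un 𝒮) ∧ β ≤ vol ends ω W A2 (Un 𝒯) ∧
    (DN ends ω sh W k2 h 𝒮 𝒯).card < k

open scoped Classical in
/-- Row N1. The successes of a run are distinct clusters. Induction on the list, for all `R`. Step: if `y ∈ R` then `cr ω R y = ∅`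
is not a success and `R ∪ ∅ = R`. If `y ∉ R` then `cr ω R y = cu ω y =: D` (`cr_full`), nonempty; `R ∪ D` is again `Ful` (`Ful_step`); the
sets of `𝒟` disjoint from `R ∪ D` are disjoint from `R` and different from `D`; if `GD D` then `D ∈ 𝒟` is disjoint from `R`
(`Ful`, `cu_symm`). -/
lemma ns_dist {ω : E → Bool} (GD : Finset V → Prop) (𝒟 : Finset (Finset V)) (hG0 : ¬ GD ∅)
    (L : List V) (R : Finset V) (hR : Ful ends ω R)
    (hG : ∀ y, y ∉ R → GD (cu ends ω y) → cu ends ω y ∈ 𝒟) :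
    ns ends GD ω R L ≤ (𝒟.filter (fun D => Disjoint D R)).card := by
  induction L generalizing R with
  | nil => simp only [ns]; exact Nat.zero_le _
  | cons y L ih =>
    have hR' : Ful ends ω (R ∪ cr ends ω R y) := Ful_step hR y
    have h1 := ih (R ∪ cr ends ω R y) hR' (fun z hz => hG z (fun h => hz (mem_union_left _ h)))
    have hsub : (𝒟.filter (fun D => Disjoint D (R ∪ cr ends ω R y))) ⊆
        (𝒟.filter (fun D => Disjoint D R)) := by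
      intro D hD
      rw [mem_filter] at hD ⊢
      exact ⟨hD.1, hD.2.mono_right subset_union_left⟩
    have hns : ns ends GD ω R (y :: L) =
        (if GD (cr ends ω R y) then 1 else 0) + ns ends GD ω (R ∪ cr ends ω R y) L := rfl
    rw [hns]
    by_cases hg : GD (cr ends ω R y)
    · have hyR : y ∉ R := by
        intro hy
        apply hG0
        have : cr ends ω R y = ∅ := by
          unfold cr
          rw [if_pos hy]
        rw [this] at hg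
        exact hg
      have hD : cr ends ω R y = cu ends ω y := by
        rw [cr_full hR y, if_neg hyR]
      have hmem : cr ends ω R y ∈ 𝒟 := by
        rw [hD]
        exact hG y hyR (hD ▸ hg)
      have hdis : Disjoint (cr ends ω R y) R := by
        rw [disjoint_left]
        intro z hz
        exact cr_not_mem hz
      have hself : y ∈ cr ends ω R y := cr_self hyR
      have hnot : cr ends ω R y ∉ (𝒟.filter (fun D => Disjoint D (R ∪ cr ends ω R y))) := by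
        intro h
        have h2 := (mem_filter.mp h).2
        rw [disjoint_left] at h2
        exact h2 hself (mem_union_right _ hself)
      have hins : insert (cr ends ω R y) (𝒟.filter (fun D => Disjoint D (R ∪ cr ends ω R y))) ⊆
          (𝒟.filter (fun D => Disjoint D R)) := by
        intro D hDm
        rcases mem_insert.mp hDm with h | h
        · rw [h, mem_filter]
          exact ⟨hmem, hdis⟩
        · exact hsub h
      have hc := card_le_card hins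
      rw [card_insert_of_notMem hnot] at hc
      rw [if_pos hg]
      omega
    · rw [if_neg hg, zero_add]
      exact h1.trans (card_le_card hsub)

open scoped Classical in
/-- Row N2. If there are fewer than `k` common neighbours then no run has `k` successes: `ns_dist` with `R = Un (MC ends ω b)`
(`Ful_MC`), `𝒟 = DN ends ω sh W k2 h 𝒮 𝒯`. A cluster `D = cu ω y`, `y ∉ R`, with `GDp` has `k2 ≤ |D|`, so it is in `GC ω k2`; it is disjoint from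
`R`, and `Pm W b 𝒮 ⊆ R` (marked clusters), so `Pm W b 𝒮 ⊆ (W ∩ Un 𝒮) \ D` and `Xc` is monotone in the first set. -/
lemma lab_ns2 {k2 h H : ℝ} (hk : 0 < k2) (hh : 0 < h) (ω : E → Bool) (b : V → Bool) (sh : V → V)
    (W : Finset V) (𝒮 𝒯 : Finset (Finset V)) (h𝒮 : 𝒮 ⊆ GC ends ω k2) (h𝒯 : 𝒯 ⊆ GC ends ω k2) (k : ℕ)
    (hk2 : (DN ends ω sh W k2 h 𝒮 𝒯).card < k) (L : List V) :
    ns ends (GDp sh (Pm W b 𝒮) (Pm W b 𝒯) (W ∩ Un (MC ends ω b)) k2 h H) ω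
      (Un (MC ends ω b)) L < k := by
  classical
  have hPm : ∀ 𝒰 : Finset (Finset V), 𝒰 ⊆ GC ends ω k2 → ∀ y : V, y ∉ Un (MC ends ω b) →
      Pm W b 𝒰 ⊆ (W ∩ Un 𝒰) \ cu ends ω y := by
    intro 𝒰 h𝒰 y hy x hx
    unfold Pm at hx
    rw [Finset.mem_inter] at hx
    obtain ⟨hxW, hxU⟩ := hx
    unfold Un at hxU
    rw [Finset.mem_biUnion] at hxU
    obtain ⟨A, hA, hxA⟩ := hxU
    rw [Finset.mem_filter] at hA
    obtain ⟨hA𝒰, hhit⟩ := hA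
    have hxA' : x ∈ A := hxA
    obtain ⟨⟨z, hz⟩, _⟩ := mem_GC.1 (h𝒰 hA𝒰)
    have hAMC : A ∈ MC ends ω b := by
      rw [← hz] at hhit ⊢
      exact cu_mem_MC.2 hhit
    have hxR : x ∈ Un (MC ends ω b) := by
      unfold Un
      rw [Finset.mem_biUnion]
      exact ⟨A, hAMC, hxA⟩
    rw [Finset.mem_sdiff, Finset.mem_inter]
    refine ⟨⟨hxW, ?_⟩, ?_⟩
    · unfold Un
      rw [Finset.mem_biUnion]
      exact ⟨A, hA𝒰, hxA⟩
    · intro hxy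
      exact hy (Ful_MC ω b x hxR (cu_symm.1 hxy))
  have hXc : ∀ P P' D : Finset V, P ⊆ P' → Xc sh P D ≤ Xc sh P' D := by
    intro P P' D hP
    unfold Xc
    exact_mod_cast Finset.card_le_card (Finset.filter_subset_filter _ hP)
  have hmain := ns_dist (ends := ends) (ω := ω)
    (GDp sh (Pm W b 𝒮) (Pm W b 𝒯) (W ∩ Un (MC ends ω b)) k2 h H) (DN ends ω sh W k2 h 𝒮 𝒯)
    (by
      intro h0
      have h1 := h0.1
      rw [Finset.card_empty, Nat.cast_zero] at h1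
      linarith)
    L (Un (MC ends ω b)) (Ful_MC ω b)
    (by
      intro y hy hD
      unfold DN
      rw [Finset.mem_filter]
      refine ⟨mem_GC.2 ⟨⟨y, rfl⟩, hD.1⟩, ?_, ?_⟩
      · exact le_trans hD.2.1 (hXc _ _ _ (hPm 𝒮 h𝒮 y hy))
      · exact le_trans hD.2.2.1 (hXc _ _ _ (hPm 𝒯 h𝒯 y hy)))
  exact lt_of_le_of_lt (le_trans hmain (Finset.card_filter_le _ _)) hk2

open scoped Classical in
/-- The number of pairs of disjoint labellings for which the run is fine and has fewer than `k` successes. -/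
noncomputable def FF2 (ends : E → Sym2 V) (p : ℝ) (sh : V → V) (W : Finset V) (k2 h H b1 s0 : ℝ) (n1 k : ℕ)
    (𝒞 : Finset (Finset V)) (ω : E → Bool) (L : List V) : ℝ :=
  ∑ 𝒬 ∈ (𝒞.filter (fun A => k2 ≤ (A.card : ℝ))).powerset,
    ∑ 𝒬' ∈ (𝒞.filter (fun A => k2 ≤ (A.card : ℝ))).powerset,
    if (Disjoint 𝒬 𝒬' ∧ b1 ≤ ((W ∩ Un 𝒬).card : ℝ) ∧ b1 ≤ ((W ∩ Un 𝒬').card : ℝ) ∧
        ZZ ends p sh W 𝒞 h ≤ s0 / 10 ∧ TH ends p sh W 𝒞 ≤ H * (s0 / 10) ∧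
        (𝒞.filter (fun A => k2 ≤ (A.card : ℝ))).card ≤ n1) ∧
      aok ends (OKp ends p sh W k2 s0 𝒞) ω (Un 𝒞) L ∧
      ns ends (GDp sh (W ∩ Un 𝒬) (W ∩ Un 𝒬') (W ∩ Un 𝒞) k2 h H) ω (Un 𝒞) L < k
    then (1 : ℝ) else 0

open scoped Classical in
/-- `FF2` depends on the edges off the union only -/
private lemma Y3_dep (p : ℝ) (sh : V → V) (W : Finset V) (k2 h H b1 s0 : ℝ) (n1 k : ℕ)
    (𝒞 : Finset (Finset V)) (L : List V) {ω ω' : E → Bool} (hω : Off ends (Un 𝒞) ω ω') :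
    FF2 ends p sh W k2 h H b1 s0 n1 k 𝒞 ω L = FF2 ends p sh W k2 h H b1 s0 n1 k 𝒞 ω' L := by
  unfold FF2
  refine Finset.sum_congr rfl (fun 𝒬 _ => Finset.sum_congr rfl (fun 𝒬' _ => ?_))
  have k1 := aok_dep (OKp ends p sh W k2 s0 𝒞) L (Un 𝒞) hω
  rw [ns_dep _ L (Un 𝒞) hω]
  exact if_congr (and_congr Iff.rfl (and_congr k1 Iff.rfl)) rfl rfl

/-- the union of a family -/
private lemma Y3_mem_Un {𝒞 : Finset (Finset V)} {x : V} : x ∈ Un 𝒞 ↔ ∃ A ∈ 𝒞, x ∈ A := by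
  unfold Un
  rw [Finset.mem_biUnion]
  rfl

open scoped Classical in
/-- the bound for a fixed family -/
private lemma Y3_fix [Nonempty V] {p c1 b1 s0 k2 h H : ℝ} (h0 : 0 ≤ p) (h1 : p ≤ 1) (hk : 0 < k2) (hh : 0 ≤ h)
    (hH : 0 < H) (hc1 : 0 ≤ c1) (hb1 : 0 ≤ b1) (hs00 : 0 ≤ s0) (hs0 : s0 ≤ c1 * b1 ^ 2)
    (hth : k2 * s0 / (2 * H ^ 2 * Fintype.card V) ≤ 1) (sh : V → V) (W : Finset V)
    (hτ : ∀ u ∈ W, ∀ v ∈ W, c1 ≤ ta ends p (sh u) (sh v)) (n1 k J : ℕ) (𝒞 : Finset (Finset V)) :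
    al J (fun L : List V => Ex p (fun ω => FF2 ends p sh W k2 h H b1 s0 n1 k 𝒞 ω L)) ≤
      2 ^ (2 * n1 + k) * (1 - k2 * s0 / (4 * H ^ 2 * Fintype.card V)) ^ J := by
  have hV : (0 : ℝ) < (Fintype.card V : ℝ) := by exact_mod_cast Fintype.card_pos
  obtain ⟨th, hthd⟩ : ∃ th : ℝ, th = k2 * s0 / (2 * H ^ 2 * Fintype.card V) := ⟨_, rfl⟩
  have hth0 : 0 ≤ th := by
    rw [hthd]
    positivity
  have hth1 : th ≤ 1 := by
    rw [hthd]
    exact hth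
  have hth2 : 1 - k2 * s0 / (4 * H ^ 2 * Fintype.card V) = 1 - th / 2 := by
    rw [hthd]
    have h4 : (4 : ℝ) * H ^ 2 * Fintype.card V = (2 * H ^ 2 * Fintype.card V) * 2 := by ring
    rw [h4, ← div_div]
  have hthV : th * Fintype.card V = k2 * s0 / (2 * H ^ 2) := by
    rw [hthd]
    field_simp
  have hb0 : 0 ≤ 1 - th / 2 := by linarith
  have hB0 : (0 : ℝ) ≤ 2 ^ k * (1 - th / 2) ^ J := by positivity
  rw [hth2]
  obtain ⟨𝒟, h𝒟⟩ : ∃ 𝒟 : Finset (Finset V), 𝒟 = 𝒞.filter (fun A => k2 ≤ (A.card : ℝ)) := ⟨_, rfl⟩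
  have hsub𝒟 : 𝒟 ⊆ 𝒞 := by
    rw [h𝒟]
    exact Finset.filter_subset _ _
  have hterm : ∀ 𝒬 ∈ 𝒟.powerset, ∀ 𝒬' ∈ 𝒟.powerset, al J (fun L : List V => Ex p (fun ω =>
      if (Disjoint 𝒬 𝒬' ∧ b1 ≤ ((W ∩ Un 𝒬).card : ℝ) ∧
        b1 ≤ ((W ∩ Un 𝒬').card : ℝ) ∧
        ZZ ends p sh W 𝒞 h ≤ s0 / 10 ∧ TH ends p sh W 𝒞 ≤ H * (s0 / 10) ∧
        𝒟.card ≤ n1) ∧
      aok ends (OKp ends p sh W k2 s0 𝒞) ω (Un 𝒞) L ∧
      ns ends (GDp sh (W ∩ Un 𝒬) (W ∩ Un 𝒬') (W ∩ Un 𝒞)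
        k2 h H) ω (Un 𝒞) L < k
      then (1 : ℝ) else 0)) ≤ if 𝒟.card ≤ n1 then 2 ^ k * (1 - th / 2) ^ J else 0 := by
    intro 𝒬 h𝒬 𝒬' h𝒬'
    rw [Finset.mem_powerset] at h𝒬 h𝒬'
    by_cases hc : Disjoint 𝒬 𝒬' ∧ b1 ≤ ((W ∩ Un 𝒬).card : ℝ) ∧
        b1 ≤ ((W ∩ Un 𝒬').card : ℝ) ∧
        ZZ ends p sh W 𝒞 h ≤ s0 / 10 ∧ TH ends p sh W 𝒞 ≤ H * (s0 / 10) ∧
        𝒟.card ≤ n1
    · rw [if_pos hc.2.2.2.2.2]
      refine (al_mono J _ _ (fun L _ => Ex_mono h0 h1 (fun ω => ?_))).trans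
        (chern (ends := ends) h0 h1 hth1 (GDp sh (W ∩ Un 𝒬) (W ∩ Un 𝒬') (W ∩ Un 𝒞) k2 h H)
          (OKp ends p sh W k2 s0 𝒞) (fun R hR => ?_) k J (Un 𝒞))
      · by_cases hx : aok ends (OKp ends p sh W k2 s0 𝒞) ω (Un 𝒞) L ∧
          ns ends (GDp sh (W ∩ Un 𝒬) (W ∩ Un 𝒬') (W ∩ Un 𝒞) k2 h H) ω (Un 𝒞) L < k
        · rw [if_pos hx]
          split_ifs <;> norm_num
        · rw [if_neg hx, if_neg (fun hy => hx hy.2)]
      · rw [hthV]
        refine lem2 h0 h1 hk hh hH hc1 hb1 sh W (W ∩ Un 𝒬) (W ∩ Un 𝒬') 𝒞 ?_ ?_ ?_ hτ hc.2.1 hc.2.2.1 hs0 R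
          hR.1 hR.2 hc.2.2.2.1 hc.2.2.2.2.1
        · intro u hu
          rw [Finset.mem_inter, Y3_mem_Un] at hu ⊢
          obtain ⟨hu1, A, hA, huA⟩ := hu
          exact ⟨hu1, A, hsub𝒟 (h𝒬 hA), huA⟩
        · intro u hu
          rw [Finset.mem_inter, Y3_mem_Un] at hu ⊢
          obtain ⟨hu1, A, hA, huA⟩ := hu
          exact ⟨hu1, A, hsub𝒟 (h𝒬' hA), huA⟩
        · intro u hu v hv
          rw [Finset.mem_inter, Y3_mem_Un] at hu hv
          obtain ⟨hu1, A, hA, huA⟩ := hu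
          obtain ⟨hv1, A', hA', hvA'⟩ := hv
          unfold Pi2
          rw [Finset.mem_filter]
          refine ⟨Finset.mem_univ _, hu1, hv1, A, hsub𝒟 (h𝒬 hA), A', hsub𝒟 (h𝒬' hA'), ?_, huA, hvA'⟩
          intro hAA
          rw [← hAA] at hA'
          exact (Finset.disjoint_left.mp hc.1) hA hA'
    · have hz : al J (fun L : List V => Ex p (fun ω =>
          if (Disjoint 𝒬 𝒬' ∧ b1 ≤ ((W ∩ Un 𝒬).card : ℝ) ∧
            b1 ≤ ((W ∩ Un 𝒬').card : ℝ) ∧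
            ZZ ends p sh W 𝒞 h ≤ s0 / 10 ∧ TH ends p sh W 𝒞 ≤ H * (s0 / 10) ∧
            𝒟.card ≤ n1) ∧
          aok ends (OKp ends p sh W k2 s0 𝒞) ω (Un 𝒞) L ∧
          ns ends (GDp sh (W ∩ Un 𝒬) (W ∩ Un 𝒬') (W ∩ Un 𝒞)
            k2 h H) ω (Un 𝒞) L < k
          then (1 : ℝ) else 0)) ≤ al J (fun _ : List V => (0 : ℝ)) := by
        refine al_mono J _ _ (fun L _ => le_of_eq (Ex_zero_of (fun ω => ?_)))
        rw [if_neg (fun hy => hc hy.1)]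
      rw [al_const] at hz
      refine hz.trans ?_
      split_ifs
      · exact hB0
      · exact le_refl _
  have e1 : (fun L : List V => Ex p (fun ω => FF2 ends p sh W k2 h H b1 s0 n1 k 𝒞 ω L)) =
      fun L : List V => ∑ 𝒬 ∈ 𝒟.powerset, ∑ 𝒬' ∈ 𝒟.powerset, Ex p (fun ω =>
      if (Disjoint 𝒬 𝒬' ∧ b1 ≤ ((W ∩ Un 𝒬).card : ℝ) ∧
        b1 ≤ ((W ∩ Un 𝒬').card : ℝ) ∧
        ZZ ends p sh W 𝒞 h ≤ s0 / 10 ∧ TH ends p sh W 𝒞 ≤ H * (s0 / 10) ∧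
        𝒟.card ≤ n1) ∧
      aok ends (OKp ends p sh W k2 s0 𝒞) ω (Un 𝒞) L ∧
      ns ends (GDp sh (W ∩ Un 𝒬) (W ∩ Un 𝒬') (W ∩ Un 𝒞)
        k2 h H) ω (Un 𝒞) L < k
      then (1 : ℝ) else 0) := by
    funext L
    have e2 : ∀ 𝒬 ∈ 𝒟.powerset, ∑ 𝒬' ∈ 𝒟.powerset, Ex p (fun ω =>
      if (Disjoint 𝒬 𝒬' ∧ b1 ≤ ((W ∩ Un 𝒬).card : ℝ) ∧
        b1 ≤ ((W ∩ Un 𝒬').card : ℝ) ∧
        ZZ ends p sh W 𝒞 h ≤ s0 / 10 ∧ TH ends p sh W 𝒞 ≤ H * (s0 / 10) ∧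
        𝒟.card ≤ n1) ∧
      aok ends (OKp ends p sh W k2 s0 𝒞) ω (Un 𝒞) L ∧
      ns ends (GDp sh (W ∩ Un 𝒬) (W ∩ Un 𝒬') (W ∩ Un 𝒞)
        k2 h H) ω (Un 𝒞) L < k
      then (1 : ℝ) else 0) = Ex p (fun ω => ∑ 𝒬' ∈ 𝒟.powerset,
      if (Disjoint 𝒬 𝒬' ∧ b1 ≤ ((W ∩ Un 𝒬).card : ℝ) ∧
        b1 ≤ ((W ∩ Un 𝒬').card : ℝ) ∧
        ZZ ends p sh W 𝒞 h ≤ s0 / 10 ∧ TH ends p sh W 𝒞 ≤ H * (s0 / 10) ∧
        𝒟.card ≤ n1) ∧
      aok ends (OKp ends p sh W k2 s0 𝒞) ω (Un 𝒞) L ∧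
      ns ends (GDp sh (W ∩ Un 𝒬) (W ∩ Un 𝒬') (W ∩ Un 𝒞)
        k2 h H) ω (Un 𝒞) L < k
      then (1 : ℝ) else 0) := by
      intro 𝒬 _
      rw [Ex_sum]
    rw [Finset.sum_congr rfl e2, ← Ex_sum, h𝒟]
    rfl
  have hsum2 : ∀ 𝒬 ∈ 𝒟.powerset, al J (fun L : List V => ∑ 𝒬' ∈ 𝒟.powerset, Ex p (fun ω =>
      if (Disjoint 𝒬 𝒬' ∧ b1 ≤ ((W ∩ Un 𝒬).card : ℝ) ∧
        b1 ≤ ((W ∩ Un 𝒬').card : ℝ) ∧
        ZZ ends p sh W 𝒞 h ≤ s0 / 10 ∧ TH ends p sh W 𝒞 ≤ H * (s0 / 10) ∧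
        𝒟.card ≤ n1) ∧
      aok ends (OKp ends p sh W k2 s0 𝒞) ω (Un 𝒞) L ∧
      ns ends (GDp sh (W ∩ Un 𝒬) (W ∩ Un 𝒬') (W ∩ Un 𝒞)
        k2 h H) ω (Un 𝒞) L < k
      then (1 : ℝ) else 0)) ≤ 2 ^ 𝒟.card * (if 𝒟.card ≤ n1 then 2 ^ k * (1 - th / 2) ^ J else 0) := by
    intro 𝒬 h𝒬
    rw [al_sum]
    refine (Finset.sum_le_sum (hterm 𝒬 h𝒬)).trans ?_
    rw [Finset.sum_const, Finset.card_powerset, nsmul_eq_mul]
    push_cast
    exact le_refl _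
  rw [e1, al_sum]
  refine (Finset.sum_le_sum hsum2).trans ?_
  rw [Finset.sum_const, Finset.card_powerset, nsmul_eq_mul]
  push_cast
  split_ifs with hn
  · have h5 : (2 : ℝ) ^ 𝒟.card ≤ 2 ^ n1 := pow_le_pow_right₀ (by norm_num) hn
    have h6 : (0 : ℝ) ≤ 2 ^ 𝒟.card := by positivity
    calc (2 : ℝ) ^ 𝒟.card * (2 ^ 𝒟.card * (2 ^ k * (1 - th / 2) ^ J)) ≤
          2 ^ n1 * (2 ^ n1 * (2 ^ k * (1 - th / 2) ^ J)) :=
          mul_le_mul h5 (mul_le_mul_of_nonneg_right h5 hB0) (mul_nonneg h6 hB0) (by positivity)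
      _ = 2 ^ (2 * n1 + k) * (1 - th / 2) ^ J := by rw [pow_add, two_mul, pow_add]; ring
  · rw [mul_zero, mul_zero]
    positivity

/-- Row N3. As `FF_mean` (file 29v_N4.lean): for fixed `b` replace the configuration of the run by an independent `ω'`
(`explore_MC`), `lem2` with `P = W ∩ Un 𝒬`, `Q = W ∩ Un 𝒬'` (the families are disjoint subfamilies of `𝒞`, so the pairs of `P × Q` are in
`Pi2 W 𝒞`), `chern`; there are at most `2^n1 * 2^n1` pairs. -/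
lemma FF2_mean [Nonempty V] {p c1 b1 s0 k2 h H : ℝ} (h0 : 0 ≤ p) (h1 : p ≤ 1) (hk : 0 < k2) (hh : 0 ≤ h)
    (hH : 0 < H) (hc1 : 0 ≤ c1) (hb1 : 0 ≤ b1) (hs00 : 0 ≤ s0) (hs0 : s0 ≤ c1 * b1 ^ 2)
    (hth : k2 * s0 / (2 * H ^ 2 * Fintype.card V) ≤ 1) (sh : V → V) (W : Finset V)
    (hτ : ∀ u ∈ W, ∀ v ∈ W, c1 ≤ ta ends p (sh u) (sh v)) (n1 k J : ℕ) (b : V → Bool) :
    al J (fun L : List V => Ex p (fun ω => FF2 ends p sh W k2 h H b1 s0 n1 k (MC ends ω b) ω L)) ≤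
      2 ^ (2 * n1 + k) * (1 - k2 * s0 / (4 * H ^ 2 * Fintype.card V)) ^ J := by
  have e1 : ∀ L : List V, Ex p (fun ω => FF2 ends p sh W k2 h H b1 s0 n1 k (MC ends ω b) ω L) =
      Ex p (fun ω => Ex p (fun ω' => FF2 ends p sh W k2 h H b1 s0 n1 k (MC ends ω b) ω' L)) := by
    intro L
    exact explore_MC p b (fun 𝒞 ω => FF2 ends p sh W k2 h H b1 s0 n1 k 𝒞 ω L)
      (fun 𝒞 ω ω' hω => Y3_dep p sh W k2 h H b1 s0 n1 k 𝒞 L hω)
  have e2 : al J (fun L : List V => Ex p (fun ω => FF2 ends p sh W k2 h H b1 s0 n1 k (MC ends ω b) ω L)) =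
      Ex p (fun ω => al J (fun L : List V => Ex p (fun ω' => FF2 ends p sh W k2 h H b1 s0 n1 k (MC ends ω b) ω' L))) := by
    rw [al_Ex]
    congr 1
    funext L
    exact e1 L
  rw [e2]
  refine (Ex_mono h0 h1 (fun ω => Y3_fix h0 h1 hk hh hH hc1 hb1 hs00 hs0 hth sh W hτ n1 k J (MC ends ω b))).trans ?_
  rw [Ex_const]

open scoped Classical in
/-- Row N4. Pointwise (as 29v_N5.lean): `𝒬 = 𝒮.filter (hit b)`, `𝒬' = 𝒯.filter (hit b)` are disjoint elements of the powerset (first part of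
`lab_fam`), `Pm W b 𝒮 = W ∩ Un 𝒬`; `aok_of`, `lab_ns2`. -/
lemma nc2_pt {p b1 s0 k2 h H : ℝ} (h0 : 0 ≤ p) (h1 : p ≤ 1) (hk : 0 < k2) (hh : 0 < h)
    (sh : V → V) (W : Finset V) (n1 k : ℕ) (ω : E → Bool) (b : V → Bool) (L : List V)
    (𝒮 𝒯 : Finset (Finset V)) (h𝒮 : 𝒮 ⊆ GC ends ω k2) (h𝒯 : 𝒯 ⊆ GC ends ω k2) (hd : Disjoint 𝒮 𝒯)
    (hk2 : (DN ends ω sh W k2 h 𝒮 𝒯).card < k) :
    (1 : ℝ) ≤ (if ((Pm W b 𝒮).card : ℝ) < b1 then 1 else 0) +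
      (if ((Pm W b 𝒯).card : ℝ) < b1 then 1 else 0) +
      (if s0 / 10 < ZZ ends p sh W (MC ends ω b) h then 1 else 0) +
      (if H * (s0 / 10) < TH ends p sh W (MC ends ω b) then 1 else 0) +
      (if (n1 : ℝ) < (((MC ends ω b).filter (fun A => k2 ≤ (A.card : ℝ))).card : ℝ) then 1 else 0) +
      (if s0 / 10 < GG ends p sh W (MC ends ω b) (rn ends ω (Un (MC ends ω b)) L) then 1 else 0) +
      (if exM ends (MM ends p sh W (MC ends ω b) k2) (s0 / 10) ω (Un (MC ends ω b)) L then 1 else 0) +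
      FF2 ends p sh W k2 h H b1 s0 n1 k (MC ends ω b) ω L := by
  have hterm : ∀ P : Prop, ∀ _ : Decidable P, (0 : ℝ) ≤ (if P then (1 : ℝ) else 0) := by
    intro P _
    split_ifs <;> norm_num
  have hFF0 : 0 ≤ FF2 ends p sh W k2 h H b1 s0 n1 k (MC ends ω b) ω L := by
    unfold FF2
    exact Finset.sum_nonneg (fun _ _ => Finset.sum_nonneg (fun _ _ => hterm _ _))
  have hite : ∀ P : Prop, (0 : ℝ) ≤ (if P then (1 : ℝ) else 0) := by
    intro P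
    split_ifs <;> norm_num
  have e1 := hite (((Pm W b 𝒮).card : ℝ) < b1)
  have e2 := hite (((Pm W b 𝒯).card : ℝ) < b1)
  have e3 := hite (s0 / 10 < ZZ ends p sh W (MC ends ω b) h)
  have e4 := hite (H * (s0 / 10) < TH ends p sh W (MC ends ω b))
  have e5 := hite ((n1 : ℝ) < (((MC ends ω b).filter (fun A => k2 ≤ (A.card : ℝ))).card : ℝ))
  have e6 := hite (s0 / 10 < GG ends p sh W (MC ends ω b) (rn ends ω (Un (MC ends ω b)) L))
  have e7 := hite (exM ends (MM ends p sh W (MC ends ω b) k2) (s0 / 10) ω (Un (MC ends ω b)) L)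
  by_cases c1 : ((Pm W b 𝒮).card : ℝ) < b1
  · rw [if_pos c1]; linarith
  by_cases c2 : ((Pm W b 𝒯).card : ℝ) < b1
  · rw [if_pos c2]; linarith
  by_cases c3 : s0 / 10 < ZZ ends p sh W (MC ends ω b) h
  · rw [if_pos c3]; linarith
  by_cases c4 : H * (s0 / 10) < TH ends p sh W (MC ends ω b)
  · rw [if_pos c4]; linarith
  by_cases c5 : (n1 : ℝ) < (((MC ends ω b).filter (fun A => k2 ≤ (A.card : ℝ))).card : ℝ)
  · rw [if_pos c5]; linarith
  by_cases c6 : s0 / 10 < GG ends p sh W (MC ends ω b) (rn ends ω (Un (MC ends ω b)) L)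
  · rw [if_pos c6]; linarith
  by_cases c7 : exM ends (MM ends p sh W (MC ends ω b) k2) (s0 / 10) ω (Un (MC ends ω b)) L
  · rw [if_pos c7]; linarith
  have hlf := (lab_fam (ends := ends) (k2 := k2) ω b 𝒮 h𝒮).1
  have hlf' := (lab_fam (ends := ends) (k2 := k2) ω b 𝒯 h𝒯).1
  have hdis : Disjoint (𝒮.filter (fun A => hit b A)) (𝒯.filter (fun A => hit b A)) :=
    Finset.disjoint_filter_filter hd
  have hns := lab_ns2 (ends := ends) (H := H) hk hh ω b sh W 𝒮 𝒯 h𝒮 h𝒯 k hk2 L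
  have haok := aok_of (ends := ends) (s0 := s0) (k2 := k2) h0 h1 sh W (MC ends ω b) ω L
    (Un (MC ends ω b)) (not_lt.mp c6) c7
  have hone : (1 : ℝ) ≤ FF2 ends p sh W k2 h H b1 s0 n1 k (MC ends ω b) ω L := by
    unfold FF2
    refine le_trans ?_ (Finset.single_le_sum
      (fun _ _ => Finset.sum_nonneg (fun _ _ => hterm _ _)) hlf)
    refine le_trans ?_ (Finset.single_le_sum (fun _ _ => hterm _ _) hlf')
    rw [if_pos]
    refine ⟨⟨hdis, not_lt.mp c1, not_lt.mp c2, not_lt.mp c3, not_lt.mp c4, ?_⟩, haok, hns⟩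
    have := not_lt.mp c5
    exact_mod_cast this
  linarith

private lemma N5_ind {lam f : ℝ} (hl : 0 < lam) (hf : 0 ≤ f) :
    (if lam < f then (1 : ℝ) else 0) ≤ f / lam := by
  split_ifs with h
  · rw [le_div_iff₀ hl, one_mul]
    exact h.le
  · exact div_nonneg hf hl.le

/-- The average over the starts, the configuration and the marks. -/
private noncomputable def N5_A (p g : ℝ) (J : ℕ) (F : (E → Bool) → (V → Bool) → List V → ℝ) : ℝ :=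
  al J (fun L => Ex p (fun ω => Ex g (fun b => F ω b L)))

private lemma N5_mono {p g : ℝ} (h0 : 0 ≤ p) (h1 : p ≤ 1) (hg0 : 0 ≤ g) (hg1 : g ≤ 1) (J : ℕ)
    (F G : (E → Bool) → (V → Bool) → List V → ℝ) (h : ∀ ω b L, F ω b L ≤ G ω b L) :
    N5_A p g J F ≤ N5_A p g J G :=
  al_mono J _ _ fun L _ => Ex_mono h0 h1 fun ω => Ex_mono hg0 hg1 fun b => h ω b L

private lemma N5_add (p g : ℝ) (J : ℕ) (F G : (E → Bool) → (V → Bool) → List V → ℝ) :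
    N5_A p g J (fun ω b L => F ω b L + G ω b L) = N5_A p g J F + N5_A p g J G := by
  unfold N5_A
  rw [← al_add]
  congr 1
  funext L
  rw [← Ex_add]
  congr 1
  funext ω
  rw [Ex_add]

private lemma N5_mul (p g : ℝ) (J : ℕ) (c : ℝ) (F : (E → Bool) → (V → Bool) → List V → ℝ) :
    N5_A p g J (fun ω b L => c * F ω b L) = c * N5_A p g J F := by
  unfold N5_A
  rw [← al_mul]
  congr 1
  funext L
  rw [← Ex_mul_left]
  congr 1
  funext ω
  rw [Ex_mul_left]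

private lemma N5_noL [Nonempty V] (p g : ℝ) (J : ℕ) (F : (E → Bool) → (V → Bool) → ℝ) :
    N5_A p g J (fun ω b _ => F ω b) = Ex p (fun ω => Ex g (fun b => F ω b)) := by
  unfold N5_A
  rw [al_const]

private lemma N5_swap (p g : ℝ) (J : ℕ) (F : (E → Bool) → (V → Bool) → List V → ℝ) :
    N5_A p g J F = Ex g (fun b => al J (fun L => Ex p (fun ω => F ω b L))) := by
  unfold N5_A
  rw [al_Ex]
  congr 1
  funext L
  rw [Ex_swap]

/-- Markov for a term with a known mean. -/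
private lemma N5_mkv {p g : ℝ} (h0 : 0 ≤ p) (h1 : p ≤ 1) (hg0 : 0 ≤ g) (hg1 : g ≤ 1) (J : ℕ)
    (F : (E → Bool) → (V → Bool) → List V → ℝ) (hF : ∀ ω b L, 0 ≤ F ω b L) {lam m : ℝ} (hl : 0 < lam)
    (hm : N5_A p g J F ≤ m) :
    N5_A p g J (fun ω b L => if lam < F ω b L then (1 : ℝ) else 0) ≤ m / lam := by
  have h2 : N5_A p g J (fun ω b L => if lam < F ω b L then (1 : ℝ) else 0) ≤
      N5_A p g J (fun ω b L => lam⁻¹ * F ω b L) := by
    refine N5_mono h0 h1 hg0 hg1 J _ _ fun ω b L => ?_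
    have := N5_ind hl (hF ω b L)
    rwa [div_eq_inv_mul] at this
  rw [N5_mul] at h2
  refine h2.trans ?_
  rw [div_eq_inv_mul]
  exact mul_le_mul_of_nonneg_left hm (inv_nonneg.2 hl.le)

private lemma N5_FF {p : ℝ} (sh : V → V) (W : Finset V) (k2 h H b1 s0 : ℝ) (n1 k : ℕ)
    (𝒞 : Finset (Finset V)) (ω : E → Bool) (L : List V) :
    0 ≤ FF2 ends p sh W k2 h H b1 s0 n1 k 𝒞 ω L := by
  unfold FF2
  refine Finset.sum_nonneg fun 𝒬 _ => Finset.sum_nonneg fun 𝒬' _ => ?_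
  split_ifs
  · exact zero_le_one
  · exact le_rfl

open scoped Classical in
/-- Row N5. As `nc_sum` (file 29v_N8.lean) with `nc2_pt`, `FF2_mean`; the two families are choices depending on `ω`. -/
theorem nc2_sum [Nonempty V] {p g X C δ Qs c1 b1 s0 k2 h H A2 β : ℝ} (h0 : 0 ≤ p) (h1 : p ≤ 1)
    (hg0 : 0 < g) (hg1 : g ≤ 1) (hC : 0 ≤ C) (hX0 : 0 < X) (hk : 1 ≤ k2) (hh : 0 < h)
    (hhX : 1 ≤ h / (g * X)) (hH : 0 < H) (hc1 : 0 ≤ c1) (hA : 0 ≤ A2) (hgA : g * A2 ≤ 1)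
    (hb1 : 0 < b1) (hb : b1 ≤ β * (g * A2) / 4) (hs00 : 0 < s0) (hs0 : s0 ≤ c1 * b1 ^ 2)
    (hth : k2 * s0 / (2 * H ^ 2 * Fintype.card V) ≤ 1)
    (hX : ∀ x, Ex p (fun ω => cz ends ω x) ≤ X)
    (hT : ∀ x, ∀ k : ℕ, 1 ≤ k → Ex p (fun ω => if (k : ℝ) ≤ cz ends ω x then (1 : ℝ) else 0) ≤
      C / Real.sqrt k)
    (hQ : ∀ x, sqd ends p x ≤ Qs) (sh : V → V) (W : Finset V) (hW : Set.InjOn sh W)
    (hδ : ∀ x, ∑ u ∈ W, ∑ w, ta ends p x u * (ta ends p x w * ta ends p (sh u) w) ≤ δ)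
    (hτ : ∀ u ∈ W, ∀ v ∈ W, c1 ≤ ta ends p (sh u) (sh v)) (n1 k J : ℕ) (hn1 : 1 ≤ n1) :
    Ex p (fun ω => if BadN2 ends ω sh W k2 A2 β h k then (1 : ℝ) else 0) ≤
      2 * (g * (Fintype.card V * X ^ 3) / b1 ^ 2) +
      Fintype.card V * (g ^ 2 * X ^ 2 * (3 * C * Real.sqrt (h / (g * X)))) / (s0 / 10) +
      Fintype.card V * (g ^ 3 * X ^ 6 + 2 * g ^ 2 * X ^ 3 * Qs) / (H * (s0 / 10)) +
      Fintype.card V * (g * C / Real.sqrt k2) / n1 +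
      Fintype.card V * (g ^ 2 * (g + J / Fintype.card V) * X ^ 5 + 2 * g ^ 2 * X ^ 3 * δ) / (s0 / 10) +
      Fintype.card V * (g ^ 2 * X ^ 2 * (3 * C * Real.sqrt k2)) / (s0 / 10) +
      2 ^ (2 * n1 + k) * (1 - k2 * s0 / (4 * H ^ 2 * Fintype.card V)) ^ J := by
  have hg0' : 0 ≤ g := hg0.le
  have hk0 : 0 < k2 := lt_of_lt_of_le one_pos hk
  have hs10 : 0 < s0 / 10 := by positivity
  have hch : ∀ ω : E → Bool, ∃ q : Finset (Finset V) × Finset (Finset V),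
      BadN2 ends ω sh W k2 A2 β h k →
      q.1 ⊆ GC ends ω k2 ∧ q.2 ⊆ GC ends ω k2 ∧ Disjoint q.1 q.2 ∧
      β ≤ vol ends ω W A2 (Un q.1) ∧ β ≤ vol ends ω W A2 (Un q.2) ∧
      (DN ends ω sh W k2 h q.1 q.2).card < k := by
    intro ω
    by_cases hB : BadN2 ends ω sh W k2 A2 β h k
    · obtain ⟨𝒮, h2, 𝒯, h3, h4, h5, h6, h7⟩ := hB
      exact ⟨(𝒮, 𝒯), fun _ => ⟨Finset.mem_powerset.1 h2, Finset.mem_powerset.1 h3, h4, h5, h6, h7⟩⟩
    · exact ⟨(∅, ∅), fun h6 => absurd h6 hB⟩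
  choose Q0 hS using hch
  obtain ⟨S, hSd⟩ : ∃ S : (E → Bool) → Finset (Finset V), S = fun ω => (Q0 ω).1 := ⟨_, rfl⟩
  obtain ⟨S', hSd'⟩ : ∃ S : (E → Bool) → Finset (Finset V), S = fun ω => (Q0 ω).2 := ⟨_, rfl⟩
  replace hS : ∀ ω, BadN2 ends ω sh W k2 A2 β h k →
      S ω ⊆ GC ends ω k2 ∧ S' ω ⊆ GC ends ω k2 ∧ Disjoint (S ω) (S' ω) ∧
      β ≤ vol ends ω W A2 (Un (S ω)) ∧ β ≤ vol ends ω W A2 (Un (S' ω)) ∧
      (DN ends ω sh W k2 h (S ω) (S' ω)).card < k := by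
    intro ω hB
    rw [hSd, hSd']
    exact hS ω hB
  obtain ⟨T1, hT1⟩ : ∃ T : (E → Bool) → (V → Bool) → ℝ, T = fun ω b =>
      if S ω ⊆ GC ends ω k2 ∧ β ≤ vol ends ω W A2 (Un (S ω)) ∧
      ((Pm W b (S ω)).card : ℝ) < b1 then (1 : ℝ) else 0 := ⟨_, rfl⟩
  obtain ⟨T2, hT2⟩ : ∃ T : (E → Bool) → (V → Bool) → ℝ, T = fun ω b =>
      if S' ω ⊆ GC ends ω k2 ∧ β ≤ vol ends ω W A2 (Un (S' ω)) ∧
      ((Pm W b (S' ω)).card : ℝ) < b1 then (1 : ℝ) else 0 := ⟨_, rfl⟩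
  obtain ⟨T3, hT3⟩ : ∃ T : (E → Bool) → (V → Bool) → ℝ, T = fun ω b =>
      if s0 / 10 < ZZ ends p sh W (MC ends ω b) h then (1 : ℝ) else 0 := ⟨_, rfl⟩
  obtain ⟨T4, hT4⟩ : ∃ T : (E → Bool) → (V → Bool) → ℝ, T = fun ω b =>
      if H * (s0 / 10) < TH ends p sh W (MC ends ω b) then (1 : ℝ) else 0 := ⟨_, rfl⟩
  obtain ⟨T5, hT5⟩ : ∃ T : (E → Bool) → (V → Bool) → ℝ, T = fun ω b =>
      if (n1 : ℝ) < (((MC ends ω b).filter (fun A => k2 ≤ (A.card : ℝ))).card : ℝ)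
      then (1 : ℝ) else 0 := ⟨_, rfl⟩
  obtain ⟨T6, hT6⟩ : ∃ T : (E → Bool) → (V → Bool) → List V → ℝ, T = fun ω b L =>
      if s0 / 10 < GG ends p sh W (MC ends ω b) (rn ends ω (Un (MC ends ω b)) L)
      then (1 : ℝ) else 0 := ⟨_, rfl⟩
  obtain ⟨T7, hT7⟩ : ∃ T : (E → Bool) → (V → Bool) → List V → ℝ, T = fun ω b L =>
      if exM ends (MM ends p sh W (MC ends ω b) k2) (s0 / 10) ω (Un (MC ends ω b)) L
      then (1 : ℝ) else 0 := ⟨_, rfl⟩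
  obtain ⟨T8, hT8⟩ : ∃ T : (E → Bool) → (V → Bool) → List V → ℝ, T = fun ω b L =>
      FF2 ends p sh W k2 h H b1 s0 n1 k (MC ends ω b) ω L := ⟨_, rfl⟩
  -- the pointwise inequality
  have key : ∀ (ω : E → Bool) (b : V → Bool) (L : List V),
      (if BadN2 ends ω sh W k2 A2 β h k then (1 : ℝ) else 0) ≤
        T1 ω b + T2 ω b + T3 ω b + T4 ω b + T5 ω b + T6 ω b L + T7 ω b L + T8 ω b L := by
    intro ω b L
    have n1' : 0 ≤ T1 ω b := by rw [hT1]; dsimp only; split_ifs <;> norm_num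
    have n2' : 0 ≤ T2 ω b := by rw [hT2]; dsimp only; split_ifs <;> norm_num
    have n3' : 0 ≤ T3 ω b := by rw [hT3]; dsimp only; split_ifs <;> norm_num
    have n4' : 0 ≤ T4 ω b := by rw [hT4]; dsimp only; split_ifs <;> norm_num
    have n5' : 0 ≤ T5 ω b := by rw [hT5]; dsimp only; split_ifs <;> norm_num
    have n6' : 0 ≤ T6 ω b L := by rw [hT6]; dsimp only; split_ifs <;> norm_num
    have n7' : 0 ≤ T7 ω b L := by rw [hT7]; dsimp only; split_ifs <;> norm_num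
    have n8' : 0 ≤ T8 ω b L := by rw [hT8]; exact N5_FF sh W k2 h H b1 s0 n1 k _ ω L
    by_cases hB : BadN2 ends ω sh W k2 A2 β h k
    · obtain ⟨h2, h2', hdis, h3, h4, h5⟩ := hS ω hB
      have h6 := nc2_pt (ends := ends) (b1 := b1) (s0 := s0) (H := H) h0 h1 hk0 hh sh W
        n1 k ω b L (S ω) (S' ω) h2 h2' hdis h5
      rw [if_pos hB]
      refine h6.trans ?_
      have e1 : (if ((Pm W b (S ω)).card : ℝ) < b1 then (1 : ℝ) else 0) ≤ T1 ω b := by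
        rw [hT1]
        dsimp only
        split_ifs with c1 c2 c2
        · exact le_rfl
        · exact absurd ⟨h2, h3, c1⟩ c2
        · norm_num
        · exact le_rfl
      have e2 : (if ((Pm W b (S' ω)).card : ℝ) < b1 then (1 : ℝ) else 0) ≤ T2 ω b := by
        rw [hT2]
        dsimp only
        split_ifs with c1 c2 c2
        · exact le_rfl
        · exact absurd ⟨h2', h4, c1⟩ c2
        · norm_num
        · exact le_rfl
      rw [hT3, hT4, hT5, hT6, hT7, hT8]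
      dsimp only
      gcongr
    · rw [if_neg hB]
      positivity
  -- the eight means
  have m1 : N5_A p g J (fun ω b _ => T1 ω b) ≤ g * (Fintype.card V * X ^ 3) / b1 ^ 2 := by
    rw [N5_noL, hT1]
    exact t_mark h0 h1 hg0' hg1 hA hgA hb1 hb hX W S
  have m2 : N5_A p g J (fun ω b _ => T2 ω b) ≤ g * (Fintype.card V * X ^ 3) / b1 ^ 2 := by
    rw [N5_noL, hT2]
    exact t_mark h0 h1 hg0' hg1 hA hgA hb1 hb hX W S'
  have m3 : N5_A p g J (fun ω b _ => T3 ω b) ≤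
      Fintype.card V * (g ^ 2 * X ^ 2 * (3 * C * Real.sqrt (h / (g * X)))) / (s0 / 10) := by
    rw [hT3]
    refine N5_mkv h0 h1 hg0' hg1 J (fun ω b _ => ZZ ends p sh W (MC ends ω b) h)
      (fun ω b _ => ZZ_nonneg h0 h1 hh.le sh W _) hs10 ?_
    rw [N5_noL]
    exact xZ h0 h1 hg0 hg1 hC hX0 hhX hX hT sh W hW
  have m4 : N5_A p g J (fun ω b _ => T4 ω b) ≤
      Fintype.card V * (g ^ 3 * X ^ 6 + 2 * g ^ 2 * X ^ 3 * Qs) / (H * (s0 / 10)) := by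
    rw [hT4]
    refine N5_mkv h0 h1 hg0' hg1 J (fun ω b _ => TH ends p sh W (MC ends ω b))
      (fun ω b _ => TH_nonneg h0 h1 sh W _) (mul_pos hH hs10) ?_
    rw [N5_noL]
    exact xT h0 h1 hg0' hg1 hX hQ sh W hW
  have m5 : N5_A p g J (fun ω b _ => T5 ω b) ≤
      Fintype.card V * (g * C / Real.sqrt k2) / n1 := by
    rw [hT5]
    have hn : (0 : ℝ) < (n1 : ℝ) := by exact_mod_cast hn1
    have h5 : N5_A p g J (fun ω b _ => (((MC ends ω b).filter (fun A => k2 ≤ (A.card : ℝ))).card : ℝ)) ≤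
        Fintype.card V * (g * C / Real.sqrt k2) := by
      rw [N5_noL]
      exact xN h0 h1 hg0' hg1 hC hk hT
    exact N5_mkv h0 h1 hg0' hg1 J _ (fun ω b L => Nat.cast_nonneg _) hn h5
  have m6 : N5_A p g J T6 ≤
      Fintype.card V * (g ^ 2 * (g + J / Fintype.card V) * X ^ 5 + 2 * g ^ 2 * X ^ 3 * δ) / (s0 / 10) := by
    rw [hT6]
    refine N5_mkv h0 h1 hg0' hg1 J
      (fun ω b L => GG ends p sh W (MC ends ω b) (rn ends ω (Un (MC ends ω b)) L))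
      (fun ω b L => GG_nonneg h0 h1 sh W _ _) hs10 ?_
    exact xG h0 h1 hg0' hg1 hX sh W hW hδ J
  have m7 : N5_A p g J T7 ≤
      Fintype.card V * (g ^ 2 * X ^ 2 * (3 * C * Real.sqrt k2)) / (s0 / 10) := by
    rw [hT7]
    exact t_exM h0 h1 hg0' hg1 hC hk hs00 hX hT sh W hW J
  have m8 : N5_A p g J T8 ≤
      2 ^ (2 * n1 + k) * (1 - k2 * s0 / (4 * H ^ 2 * Fintype.card V)) ^ J := by
    rw [N5_swap, hT8]
    have h3 : ∀ b : V → Bool, al J (fun L : List V => Ex p (fun ω =>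
        FF2 ends p sh W k2 h H b1 s0 n1 k (MC ends ω b) ω L)) ≤
        2 ^ (2 * n1 + k) * (1 - k2 * s0 / (4 * H ^ 2 * Fintype.card V)) ^ J := fun b =>
      FF2_mean (ends := ends) h0 h1 hk0 hh.le hH hc1 hb1.le hs00.le hs0 hth sh W hτ n1 k J b
    refine (Ex_mono hg0' hg1 h3).trans (le_of_eq ?_)
    rw [Ex_const]
  -- the sum
  have hL : Ex p (fun ω => if BadN2 ends ω sh W k2 A2 β h k then (1 : ℝ) else 0) =
      N5_A (V := V) p g J (fun ω _ _ => if BadN2 ends ω sh W k2 A2 β h k then (1 : ℝ) else 0) := by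
    rw [N5_noL]
    congr 1
    funext ω
    rw [Ex_const]
  rw [hL]
  refine (N5_mono h0 h1 hg0' hg1 J _ (fun ω b L =>
    T1 ω b + T2 ω b + T3 ω b + T4 ω b + T5 ω b + T6 ω b L + T7 ω b L + T8 ω b L) key).trans ?_
  rw [N5_add p g J (fun ω b L => T1 ω b + T2 ω b + T3 ω b + T4 ω b + T5 ω b + T6 ω b L + T7 ω b L) T8,
    N5_add p g J (fun ω b L => T1 ω b + T2 ω b + T3 ω b + T4 ω b + T5 ω b + T6 ω b L) T7,
    N5_add p g J (fun ω b _ => T1 ω b + T2 ω b + T3 ω b + T4 ω b + T5 ω b) T6,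
    N5_add p g J (fun ω b _ => T1 ω b + T2 ω b + T3 ω b + T4 ω b) (fun ω b _ => T5 ω b),
    N5_add p g J (fun ω b _ => T1 ω b + T2 ω b + T3 ω b) (fun ω b _ => T4 ω b),
    N5_add p g J (fun ω b _ => T1 ω b + T2 ω b) (fun ω b _ => T3 ω b),
    N5_add p g J (fun ω b _ => T1 ω b) (fun ω b _ => T2 ω b)]
  linarith

end Pool.Agent.PERC29.AE
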