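import Pool.Agent.Lib.MP_29e17e_pr.U.Su
import Pool.Agent.Lib.MP_29e17e_pr.Y.N2

set_option autoImplicit false
set_option linter.unusedSectionVars false

/-! Rows 29w-C1, 29w-C2: contacts for all disjoint pairs of families (Lemma 2' of the page). -/

open Finset

namespace Pool.Agent.PERC29.AE

variable {V : Type*} [Fintype V] [DecidableEq V] {E : Type*} [Fintype E] [DecidableEq E]
  {ends : E → Sym2 V}

open scoped Classical in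
/-- The large clusters outside both families with at least `κ` edges to both. -/
noncomputable def DE (ends : E → Sym2 V) (ω : E → Bool) (k2 : ℝ) (κ : ℕ)
    (𝒮 𝒯 : Finset (Finset V)) : Finset (Finset V) :=
  (GC ends ω k2).filter (fun D => D ∉ 𝒮 ∧ D ∉ 𝒯 ∧ κ ≤ eb ends D (Un 𝒮) ∧ κ ≤ eb ends D (Un 𝒯))

/-- Two disjoint families with large volumes, at most `kk` edges between them and fewer than `2 j` common neighbours. -/
def BadE2 (ends : E → Sym2 V) (ω : E → Bool) (W : Finset V) (k2 A2 β : ℝ) (kk κ j : ℕ) : Prop :=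
  ∃ 𝒮 ∈ (GC ends ω k2).powerset, ∃ 𝒯 ∈ (GC ends ω k2).powerset, Disjoint 𝒮 𝒯 ∧
    β ≤ vol ends ω W A2 (Un 𝒮) ∧ β ≤ vol ends ω W A2 (Un 𝒯) ∧ eb ends (Un 𝒮) (Un 𝒯) ≤ kk ∧
    (DE ends ω k2 κ 𝒮 𝒯).card < 2 * j

/-- The event of `surgery_all`. -/
def Sgy (ends : E → Sym2 V) (ω : E → Bool) (π : V → ℕ → V) (r L M' kk n0 : ℕ) : Prop :=
  ∃ a b : Finset V, a.card ≤ n0 ∧ b.card ≤ n0 ∧ Disjoint (UC ends ω a) (UC ends ω b) ∧
    L * M' ≤ (Finset.univ.filter (fun x => π x 0 ∈ UC ends ω a ∧ π x r ∈ UC ends ω b)).card ∧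
    eb ends (UC ends ω a) (UC ends ω b) ≤ kk

/-- A set of representatives of a family of large clusters. -/
lemma C1_rep {k2 : ℝ} (ω : E → Bool) (𝒜 : Finset (Finset V)) (h𝒜 : 𝒜 ⊆ GC ends ω k2) :
    ∃ a : Finset V, a.card ≤ 𝒜.card ∧ UC ends ω a = Un 𝒜 := by
  classical
  have hex : ∀ A : {A // A ∈ 𝒜}, ∃ x, cu ends ω x = A.1 := fun A => (mem_GC.1 (h𝒜 A.2)).1
  choose f hf using hex
  refine ⟨𝒜.attach.image f, ?_, ?_⟩
  · calc (𝒜.attach.image f).card ≤ 𝒜.attach.card := Finset.card_image_le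
      _ = 𝒜.card := Finset.card_attach
  · ext z
    unfold UC Un
    rw [Finset.mem_biUnion, Finset.mem_biUnion]
    constructor
    · rintro ⟨x, hx, hz⟩
      rw [Finset.mem_image] at hx
      obtain ⟨A, -, rfl⟩ := hx
      exact ⟨A.1, A.2, by rw [hf A] at hz; exact hz⟩
    · rintro ⟨A, hA, hz⟩
      refine ⟨f ⟨A, hA⟩, Finset.mem_image_of_mem f (Finset.mem_attach _ _), ?_⟩
      rw [hf ⟨A, hA⟩]
      exact hz

lemma C1_disj {k2 : ℝ} (ω : E → Bool) (𝒜 ℬ : Finset (Finset V)) (h𝒜 : 𝒜 ⊆ GC ends ω k2)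
    (hℬ : ℬ ⊆ GC ends ω k2) (hd : Disjoint 𝒜 ℬ) : Disjoint (Un 𝒜) (Un ℬ) := by
  rw [Finset.disjoint_left]
  intro z hz1 hz2
  unfold Un at hz1 hz2
  rw [Finset.mem_biUnion] at hz1 hz2
  obtain ⟨A, hA, hzA⟩ := hz1
  obtain ⟨B, hB, hzB⟩ := hz2
  have hne : A ≠ B := by
    rintro rfl
    exact Finset.disjoint_left.1 hd hA hB
  exact Finset.disjoint_left.1 (GC_disj (h𝒜 hA) (hℬ hB) hne) hzA hzB

open scoped Classical in
/-- Row C1. Families with many near contacts have many contacts. Choose a point in every cluster of `𝒜`, of `ℬ`: sets `a`, `b` with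
`UC a = Un 𝒜`, `UC b = Un ℬ`, at most `n0` elements (`|GC| ≤ n0`); the points `u ∈ W ∩ Un 𝒜` with `sh u ∈ Un ℬ` are in the filter of `Sgy`
(`π u 0 = u`, `π u r = sh u`). -/
lemma eb_of_near {k2 : ℝ} (ω : E → Bool) (sh : V → V) (W : Finset V) (π : V → ℕ → V) (r L M' kk n0 : ℕ)
    (hπ0 : ∀ u ∈ W, π u 0 = u) (hπr : ∀ u ∈ W, π u r = sh u) (hn0 : (GC ends ω k2).card ≤ n0)
    (hS : ¬ Sgy ends ω π r L M' kk n0) (𝒜 ℬ : Finset (Finset V)) (h𝒜 : 𝒜 ⊆ GC ends ω k2)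
    (hℬ : ℬ ⊆ GC ends ω k2) (hd : Disjoint 𝒜 ℬ)
    (hn : L * M' ≤ ((W ∩ Un 𝒜).filter (fun u => sh u ∈ Un ℬ)).card) :
    kk < eb ends (Un 𝒜) (Un ℬ) := by
  by_contra hcon
  push Not at hcon
  apply hS
  obtain ⟨a, ha1, ha2⟩ := C1_rep ω 𝒜 h𝒜
  obtain ⟨b, hb1, hb2⟩ := C1_rep ω ℬ hℬ
  refine ⟨a, b, (ha1.trans (Finset.card_le_card h𝒜)).trans hn0,
    (hb1.trans (Finset.card_le_card hℬ)).trans hn0, ?_, ?_, ?_⟩
  · rw [ha2, hb2]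
    exact C1_disj ω 𝒜 ℬ h𝒜 hℬ hd
  · refine hn.trans (Finset.card_le_card ?_)
    intro u hu
    rw [Finset.mem_filter, Finset.mem_inter] at hu
    obtain ⟨⟨huW, huA⟩, huB⟩ := hu
    rw [Finset.mem_filter]
    refine ⟨Finset.mem_univ u, ?_, ?_⟩
    · rw [hπ0 u huW, ha2]
      exact huA
    · rw [hπr u huW, hb2]
      exact huB
  · rw [ha2, hb2]
    exact hcon

private lemma C2_cl {k2 : ℝ} (ω : E → Bool) {A : Finset V} (hA : A ∈ GC ends ω k2) {z : V}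
    (hz : z ∈ A) : cu ends ω z = A := by
  classical
  unfold GC at hA
  obtain ⟨x, _, hx⟩ := Finset.mem_image.1 (Finset.mem_filter.1 hA).1
  rw [← hx] at hz ⊢
  exact cu_eq hz

private lemma C2_eb_symm (A B : Finset V) : eb ends A B = eb ends B A := by
  classical
  unfold eb
  congr 1
  ext e
  simp only [Finset.mem_filter, Finset.mem_univ, true_and]
  constructor
  · rintro ⟨x, hx, y, hy, h⟩
    exact ⟨y, hy, x, hx, by rw [h, Sym2.eq_swap]⟩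
  · rintro ⟨x, hx, y, hy, h⟩
    exact ⟨y, hy, x, hx, by rw [h, Sym2.eq_swap]⟩

private lemma C2_eb_mono {A A' B B' : Finset V} (hA : A ⊆ A') (hB : B ⊆ B') :
    eb ends A B ≤ eb ends A' B' := by
  classical
  unfold eb
  refine Finset.card_le_card ?_
  intro e he
  obtain ⟨_, x, hx, y, hy, h⟩ := Finset.mem_filter.1 he
  exact Finset.mem_filter.2 ⟨Finset.mem_univ _, x, hA hx, y, hB hy, h⟩

private lemma C2_eb_union (𝒟 : Finset (Finset V)) (B : Finset V) :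
    eb ends (Un 𝒟) B ≤ ∑ D ∈ 𝒟, eb ends D B := by
  classical
  unfold eb
  refine le_trans (Finset.card_le_card ?_) Finset.card_biUnion_le
  intro e he
  obtain ⟨_, x, hx, y, hy, h⟩ := Finset.mem_filter.1 he
  unfold Un at hx
  obtain ⟨D, hD, hxD⟩ := Finset.mem_biUnion.1 hx
  exact Finset.mem_biUnion.2 ⟨D, hD, Finset.mem_filter.2 ⟨Finset.mem_univ _, x, hxD, y, hy, h⟩⟩

private lemma C2_Un_mono {𝒜 ℬ : Finset (Finset V)} (h : 𝒜 ⊆ ℬ) : Un 𝒜 ⊆ Un ℬ := by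
  intro x hx
  unfold Un at hx ⊢
  obtain ⟨D, hD, hxD⟩ := Finset.mem_biUnion.1 hx
  exact Finset.mem_biUnion.2 ⟨D, h hD, hxD⟩

private lemma C2_near {k2 h : ℝ} (ω : E → Bool) (sh : V → V) (W : Finset V) (L M' j : ℕ)
    (hh : 0 < h) (hhj : (L : ℝ) * M' ≤ h * j) (𝒜 𝒟 : Finset (Finset V)) (h𝒟 : 𝒟 ⊆ GC ends ω k2)
    (hX : ∀ D ∈ 𝒟, h ≤ Xc sh ((W ∩ Un 𝒜) \ D) D) (hc : j ≤ 𝒟.card) :
    L * M' ≤ ((W ∩ Un 𝒜).filter (fun u => sh u ∈ Un 𝒟)).card := by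
  classical
  have h1 : ∑ D ∈ 𝒟, (((W ∩ Un 𝒜) \ D).filter (fun u => sh u ∈ D)).card ≤
      ((W ∩ Un 𝒜).filter (fun u => sh u ∈ Un 𝒟)).card := by
    rw [← Finset.card_biUnion]
    · refine Finset.card_le_card ?_
      intro u hu
      obtain ⟨D, hD, huD⟩ := Finset.mem_biUnion.1 hu
      obtain ⟨h2, h3⟩ := Finset.mem_filter.1 huD
      refine Finset.mem_filter.2 ⟨(Finset.mem_sdiff.1 h2).1, ?_⟩
      unfold Un
      exact Finset.mem_biUnion.2 ⟨D, hD, h3⟩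
    · intro D hD D' hD' hne
      change Disjoint _ _
      rw [Finset.disjoint_left]
      intro u hu hu'
      have e1 := C2_cl ω (h𝒟 hD) (Finset.mem_filter.1 hu).2
      have e2 := C2_cl ω (h𝒟 hD') (Finset.mem_filter.1 hu').2
      exact hne (by rw [← e1, ← e2])
  have h2 : h * j ≤ ∑ D ∈ 𝒟, ((((W ∩ Un 𝒜) \ D).filter (fun u => sh u ∈ D)).card : ℝ) := by
    have h3 : h * j ≤ h * (𝒟.card : ℝ) :=
      mul_le_mul_of_nonneg_left (by exact_mod_cast hc) hh.le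
    have h4 : h * (𝒟.card : ℝ) = ∑ _D ∈ 𝒟, h := by
      rw [Finset.sum_const, nsmul_eq_mul, mul_comm]
    rw [h4] at h3
    exact h3.trans (Finset.sum_le_sum fun D hD => hX D hD)
  have h5 : (L : ℝ) * M' ≤ (((W ∩ Un 𝒜).filter (fun u => sh u ∈ Un 𝒟)).card : ℝ) := by
    refine hhj.trans (h2.trans ?_)
    exact_mod_cast h1
  exact_mod_cast h5

private lemma C2_few {k2 : ℝ} (ω : E → Bool) (kk n0 κ : ℕ) (𝒮 𝒟 : Finset (Finset V))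
    (h𝒟 : 𝒟 ⊆ GC ends ω k2) (hn0 : (GC ends ω k2).card ≤ n0) (hκ : κ * n0 ≤ kk)
    (hD : ∀ D ∈ 𝒟, eb ends D (Un 𝒮) < κ) : eb ends (Un 𝒮) (Un 𝒟) ≤ kk := by
  rw [C2_eb_symm]
  refine (C2_eb_union 𝒟 (Un 𝒮)).trans ?_
  have h1 : ∑ D ∈ 𝒟, eb ends D (Un 𝒮) ≤ ∑ _D ∈ 𝒟, κ :=
    Finset.sum_le_sum fun D hD' => (hD D hD').le
  rw [Finset.sum_const, smul_eq_mul] at h1
  refine h1.trans ?_
  have h2 : 𝒟.card ≤ n0 := (Finset.card_le_card h𝒟).trans hn0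
  calc 𝒟.card * κ ≤ n0 * κ := Nat.mul_le_mul_right κ h2
    _ = κ * n0 := Nat.mul_comm _ _
    _ ≤ kk := hκ

open scoped Classical in
/-- Row C2. Pointwise. Let `𝒟 = DN ..`, `12 j ≤ |𝒟|` (not `BadN2`). One of the three parts `𝒟 ∩ 𝒮`, `𝒟 ∩ 𝒯`, the rest, has at least `4 j`
elements. (1) `𝒟1 = 𝒟 ∩ 𝒮`: `∑ D ∈ 𝒟1, Xc sh ((W ∩ Un 𝒯) \ D) D ≥ 4 j h ≥ L M'`, the sets `D` are disjoint, so `eb_of_near` for `𝒜 = 𝒯`,
`ℬ = 𝒟1` gives `kk < eb (Un 𝒯) (Un 𝒟1) ≤ eb (Un 𝒯) (Un 𝒮)`: contradiction (`eb` is symmetric). (2) the same for `𝒯`. (3) the rest `𝒟3` (disjoint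
from `𝒮`, `𝒯`): let `𝒟' = {D ∈ 𝒟3 | eb D (Un 𝒮) < κ}`. If `j ≤ |𝒟'|` then `eb_of_near` (`𝒜 = 𝒮`, `ℬ = 𝒟'`; `j h ≥ L M'`) gives
`kk < eb (Un 𝒮) (Un 𝒟') ≤ ∑ D ∈ 𝒟', eb D (Un 𝒮) ≤ n0 κ ≤ kk`. So `|𝒟'| < j`; the same for `𝒯`; the others, at least `2 j`, are in `DE`. -/
lemma badE2_pt {k2 A2 β h : ℝ} (hh : 0 < h) (ω : E → Bool) (sh : V → V) (W : Finset V) (π : V → ℕ → V)
    (r L M' kk n0 κ j : ℕ) (hπ0 : ∀ u ∈ W, π u 0 = u) (hπr : ∀ u ∈ W, π u r = sh u) (hj : 1 ≤ j)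
    (hn0 : (GC ends ω k2).card ≤ n0) (hκ : κ * n0 ≤ kk) (hhj : (L : ℝ) * M' ≤ h * j)
    (hS : ¬ Sgy ends ω π r L M' kk n0) (hN : ¬ BadN2 ends ω sh W k2 A2 β h (12 * j)) :
    ¬ BadE2 ends ω W k2 A2 β kk κ j := by
  rintro ⟨𝒮, h𝒮, 𝒯, h𝒯, hd, hv1, hv2, heb, hDE⟩
  have h𝒮' := Finset.mem_powerset.1 h𝒮
  have h𝒯' := Finset.mem_powerset.1 h𝒯
  have hDN : 12 * j ≤ (DN ends ω sh W k2 h 𝒮 𝒯).card := by
    by_contra hlt
    exact hN ⟨𝒮, h𝒮, 𝒯, h𝒯, hd, hv1, hv2, not_le.1 hlt⟩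
  obtain ⟨𝒟, h𝒟def⟩ : ∃ 𝒟, 𝒟 = DN ends ω sh W k2 h 𝒮 𝒯 := ⟨_, rfl⟩
  rw [← h𝒟def] at hDN
  have h𝒟 : 𝒟 ⊆ GC ends ω k2 := by
    rw [h𝒟def]
    unfold DN
    exact Finset.filter_subset _ _
  have hX : ∀ D ∈ 𝒟, h ≤ Xc sh ((W ∩ Un 𝒮) \ D) D ∧ h ≤ Xc sh ((W ∩ Un 𝒯) \ D) D := by
    intro D hD
    rw [h𝒟def] at hD
    unfold DN at hD
    exact (Finset.mem_filter.1 hD).2
  have key : ∀ 𝒜 𝒟' : Finset (Finset V), 𝒜 ⊆ GC ends ω k2 → 𝒟' ⊆ GC ends ω k2 → Disjoint 𝒜 𝒟' →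
      (∀ D ∈ 𝒟', h ≤ Xc sh ((W ∩ Un 𝒜) \ D) D) → eb ends (Un 𝒜) (Un 𝒟') ≤ kk → 𝒟'.card < j := by
    intro 𝒜 𝒟' hA hD' hdis hx hle
    by_contra hc
    have h1 := eb_of_near ω sh W π r L M' kk n0 hπ0 hπr hn0 hS 𝒜 𝒟' hA hD' hdis
      (C2_near ω sh W L M' j hh hhj 𝒜 𝒟' hD' hx (not_lt.1 hc))
    exact absurd hle (not_le.2 h1)
  have c1 : (𝒟.filter (fun D => D ∈ 𝒮)).card < j := by
    refine key 𝒯 _ h𝒯' ((Finset.filter_subset _ _).trans h𝒟) ?_ ?_ ?_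
    · rw [Finset.disjoint_left]
      intro D hD hD'
      exact Finset.disjoint_left.1 hd (Finset.mem_filter.1 hD').2 hD
    · intro D hD
      exact (hX D (Finset.mem_filter.1 hD).1).2
    · rw [C2_eb_symm]
      refine (C2_eb_mono (C2_Un_mono ?_) (Finset.Subset.refl _)).trans heb
      intro D hD
      exact (Finset.mem_filter.1 hD).2
  have c2 : (𝒟.filter (fun D => D ∈ 𝒯)).card < j := by
    refine key 𝒮 _ h𝒮' ((Finset.filter_subset _ _).trans h𝒟) ?_ ?_ ?_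
    · rw [Finset.disjoint_left]
      intro D hD hD'
      exact Finset.disjoint_left.1 hd hD (Finset.mem_filter.1 hD').2
    · intro D hD
      exact (hX D (Finset.mem_filter.1 hD).1).1
    · refine (C2_eb_mono (Finset.Subset.refl _) (C2_Un_mono ?_)).trans heb
      intro D hD
      exact (Finset.mem_filter.1 hD).2
  have c3 : (𝒟.filter (fun D => (D ∉ 𝒮 ∧ D ∉ 𝒯) ∧ eb ends D (Un 𝒮) < κ)).card < j := by
    refine key 𝒮 _ h𝒮' ((Finset.filter_subset _ _).trans h𝒟) ?_ ?_ ?_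
    · rw [Finset.disjoint_left]
      intro D hD hD'
      exact (Finset.mem_filter.1 hD').2.1.1 hD
    · intro D hD
      exact (hX D (Finset.mem_filter.1 hD).1).1
    · exact C2_few ω kk n0 κ 𝒮 _ ((Finset.filter_subset _ _).trans h𝒟) hn0 hκ
        (fun D hD => (Finset.mem_filter.1 hD).2.2)
  have c4 : (𝒟.filter (fun D => (D ∉ 𝒮 ∧ D ∉ 𝒯) ∧ eb ends D (Un 𝒯) < κ)).card < j := by
    refine key 𝒯 _ h𝒯' ((Finset.filter_subset _ _).trans h𝒟) ?_ ?_ ?_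
    · rw [Finset.disjoint_left]
      intro D hD hD'
      exact (Finset.mem_filter.1 hD').2.1.2 hD
    · intro D hD
      exact (hX D (Finset.mem_filter.1 hD).1).2
    · exact C2_few ω kk n0 κ 𝒯 _ ((Finset.filter_subset _ _).trans h𝒟) hn0 hκ
        (fun D hD => (Finset.mem_filter.1 hD).2.2)
  have hcov : 𝒟 ⊆ (((𝒟.filter (fun D => D ∈ 𝒮)) ∪ (𝒟.filter (fun D => D ∈ 𝒯))) ∪
      ((𝒟.filter (fun D => (D ∉ 𝒮 ∧ D ∉ 𝒯) ∧ eb ends D (Un 𝒮) < κ)) ∪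
        (𝒟.filter (fun D => (D ∉ 𝒮 ∧ D ∉ 𝒯) ∧ eb ends D (Un 𝒯) < κ)))) ∪
      DE ends ω k2 κ 𝒮 𝒯 := by
    intro D hD
    by_cases d1 : D ∈ 𝒮
    · exact Finset.mem_union_left _ (Finset.mem_union_left _ (Finset.mem_union_left _
        (Finset.mem_filter.2 ⟨hD, d1⟩)))
    by_cases d2 : D ∈ 𝒯
    · exact Finset.mem_union_left _ (Finset.mem_union_left _ (Finset.mem_union_right _
        (Finset.mem_filter.2 ⟨hD, d2⟩)))
    by_cases d3 : eb ends D (Un 𝒮) < κ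
    · exact Finset.mem_union_left _ (Finset.mem_union_right _ (Finset.mem_union_left _
        (Finset.mem_filter.2 ⟨hD, ⟨d1, d2⟩, d3⟩)))
    by_cases d4 : eb ends D (Un 𝒯) < κ
    · exact Finset.mem_union_left _ (Finset.mem_union_right _ (Finset.mem_union_right _
        (Finset.mem_filter.2 ⟨hD, ⟨d1, d2⟩, d4⟩)))
    · refine Finset.mem_union_right _ ?_
      unfold DE
      exact Finset.mem_filter.2 ⟨h𝒟 hD, d1, d2, not_lt.1 d3, not_lt.1 d4⟩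
  have t0 := Finset.card_le_card hcov
  have t1 := Finset.card_union_le (((𝒟.filter (fun D => D ∈ 𝒮)) ∪ (𝒟.filter (fun D => D ∈ 𝒯))) ∪
      ((𝒟.filter (fun D => (D ∉ 𝒮 ∧ D ∉ 𝒯) ∧ eb ends D (Un 𝒮) < κ)) ∪
        (𝒟.filter (fun D => (D ∉ 𝒮 ∧ D ∉ 𝒯) ∧ eb ends D (Un 𝒯) < κ))))
      (DE ends ω k2 κ 𝒮 𝒯)
  have t2 := Finset.card_union_le ((𝒟.filter (fun D => D ∈ 𝒮)) ∪ (𝒟.filter (fun D => D ∈ 𝒯)))
      ((𝒟.filter (fun D => (D ∉ 𝒮 ∧ D ∉ 𝒯) ∧ eb ends D (Un 𝒮) < κ)) ∪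
        (𝒟.filter (fun D => (D ∉ 𝒮 ∧ D ∉ 𝒯) ∧ eb ends D (Un 𝒯) < κ)))
  have t3 := Finset.card_union_le (𝒟.filter (fun D => D ∈ 𝒮)) (𝒟.filter (fun D => D ∈ 𝒯))
  have t4 := Finset.card_union_le
      (𝒟.filter (fun D => (D ∉ 𝒮 ∧ D ∉ 𝒯) ∧ eb ends D (Un 𝒮) < κ))
      (𝒟.filter (fun D => (D ∉ 𝒮 ∧ D ∉ 𝒯) ∧ eb ends D (Un 𝒯) < κ))
  omega

open scoped Classical in
/-- Row C2 (second half). Expectation of the pointwise statement. -/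
lemma cut_edges2 {p k2 A2 β h : ℝ} (h0 : 0 ≤ p) (h1 : p ≤ 1) (hh : 0 < h) (sh : V → V) (W : Finset V)
    (π : V → ℕ → V) (r L M' kk n0 κ j : ℕ) (hπ0 : ∀ u ∈ W, π u 0 = u) (hπr : ∀ u ∈ W, π u r = sh u)
    (hj : 1 ≤ j) (hκ : κ * n0 ≤ kk) (hhj : (L : ℝ) * M' ≤ h * j) :
    Ex p (fun ω => if BadE2 ends ω W k2 A2 β kk κ j then (1 : ℝ) else 0) ≤
      Ex p (fun ω => if BadN2 ends ω sh W k2 A2 β h (12 * j) then (1 : ℝ) else 0) +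
      Ex p (fun ω => if n0 < (GC ends ω k2).card then (1 : ℝ) else 0) +
      Ex p (fun ω => if Sgy ends ω π r L M' kk n0 then (1 : ℝ) else 0) := by
  rw [← Ex_add, ← Ex_add]
  refine Ex_mono h0 h1 fun ω => ?_
  have e1 : (0 : ℝ) ≤ (if BadN2 ends ω sh W k2 A2 β h (12 * j) then (1 : ℝ) else 0) := by
    split_ifs <;> norm_num
  have e2 : (0 : ℝ) ≤ (if n0 < (GC ends ω k2).card then (1 : ℝ) else 0) := by
    split_ifs <;> norm_num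
  have e3 : (0 : ℝ) ≤ (if Sgy ends ω π r L M' kk n0 then (1 : ℝ) else 0) := by
    split_ifs <;> norm_num
  by_cases hE : BadE2 ends ω W k2 A2 β kk κ j
  · rw [if_pos hE]
    by_cases hN : BadN2 ends ω sh W k2 A2 β h (12 * j)
    · rw [if_pos hN]
      linarith
    · by_cases hG : n0 < (GC ends ω k2).card
      · rw [if_pos hG]
        linarith
      · by_cases hS : Sgy ends ω π r L M' kk n0
        · rw [if_pos hS]
          linarith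
        · exact absurd hE (badE2_pt hh ω sh W π r L M' kk n0 κ j hπ0 hπr hj (not_lt.1 hG) hκ hhj
            hS hN)
  · rw [if_neg hE]
    linarith

end Pool.Agent.PERC29.AE
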