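import Pool.Agent.Lib.MP_29e17e_pr.V.Co

set_option autoImplicit false
set_option linter.unusedSectionVars false

/-! Rows 29w-T1 .. 29w-T4: the two-hop connection (Section 4 of the page). -/

open Finset

namespace Pool.Agent.PERC29.AE

variable {V : Type*} [Fintype V] [DecidableEq V] {E : Type*} [Fintype E] [DecidableEq E]
  {ends : E → Sym2 V}

open scoped Classical in
lemma T1_opn (η : E → Bool) (D Γ : Finset V) : Opn ends η D Γ ↔
    ¬ ∀ e ∈ Finset.univ.filter (fun e => ∃ x ∈ D, ∃ y ∈ Γ, ends e = s(x, y)), η e = false := by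
  unfold Opn
  constructor
  · rintro ⟨e, he, hx⟩ h
    have h1 := h e (Finset.mem_filter.2 ⟨Finset.mem_univ _, hx⟩)
    rw [he] at h1
    exact absurd h1 (by simp)
  · intro h
    push Not at h
    obtain ⟨e, he, h1⟩ := h
    exact ⟨e, by simpa using h1, (Finset.mem_filter.1 he).2⟩

open scoped Classical in
lemma T1_one (s : ℝ) (D Γ : Finset V) :
    Ex s (fun η => if Opn ends η D Γ then (1 / 2 : ℝ) else 1) =
      1 - (1 - (1 - s) ^ (eb ends D Γ)) / 2 := by
  have h1 : ∀ η : E → Bool, (if Opn ends η D Γ then (1 / 2 : ℝ) else 1) = 1 / 2 + 1 / 2 *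
      (if ∀ e ∈ Finset.univ.filter (fun e => ∃ x ∈ D, ∃ y ∈ Γ, ends e = s(x, y)), η e = false
        then (1 : ℝ) else 0) := by
    intro η
    by_cases h : Opn ends η D Γ
    · rw [if_pos h, if_neg ((T1_opn η D Γ).1 h)]
      norm_num
    · rw [if_neg h, if_pos (not_not.1 (fun h2 => h ((T1_opn η D Γ).2 h2)))]
      norm_num
  rw [Ex_congr h1, Ex_add, Ex_const, Ex_mul_left, Ex_closed]
  unfold eb
  ring

open scoped Classical in
lemma T1_prod (s : ℝ) (Γ : Finset V) (𝒟 : Finset (Finset V)) :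
    (∀ D ∈ 𝒟, Disjoint D Γ) → (∀ D ∈ 𝒟, ∀ D' ∈ 𝒟, D ≠ D' → Disjoint D D') →
    Ex s (fun η => (1 / 2 : ℝ) ^ (𝒟.filter (fun D => Opn ends η D Γ)).card) =
      ∏ D ∈ 𝒟, (1 - (1 - (1 - s) ^ (eb ends D Γ)) / 2) := by
  refine Finset.induction_on 𝒟 ?_ ?_
  · intro _ _
    simp only [Finset.filter_empty, Finset.card_empty, pow_zero, Finset.prod_empty]
    exact Ex_const s 1
  · intro D0 𝒟' hD0 ih hΓ hd
    rw [Finset.prod_insert hD0, ← ih (fun D hD => hΓ D (Finset.mem_insert_of_mem hD))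
      (fun D hD D' hD' => hd D (Finset.mem_insert_of_mem hD) D' (Finset.mem_insert_of_mem hD')),
      ← T1_one (ends := ends) s D0 Γ]
    have h1 : ∀ η : E → Bool, (1 / 2 : ℝ) ^ ((insert D0 𝒟').filter (fun D => Opn ends η D Γ)).card =
        (if Opn ends η D0 Γ then (1 / 2 : ℝ) else 1) *
          (1 / 2 : ℝ) ^ (𝒟'.filter (fun D => Opn ends η D Γ)).card := by
      intro η
      rw [Finset.filter_insert]
      by_cases h : Opn ends η D0 Γ
      · rw [if_pos h, if_pos h, Finset.card_insert_of_notMem (by simp [hD0]), pow_succ]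
        ring
      · rw [if_neg h, if_neg h, one_mul]
    rw [Ex_congr h1]
    refine Ex_indep s {e : E | ∃ x ∈ D0, ∃ y ∈ Γ, ends e = s(x, y)} _ _ ?_ ?_
    · intro ω ω' h
      have h2 : Opn ends ω D0 Γ ↔ Opn ends ω' D0 Γ := by
        unfold Opn
        constructor
        · rintro ⟨e, he, hx⟩
          exact ⟨e, by rw [← h e hx]; exact he, hx⟩
        · rintro ⟨e, he, hx⟩
          exact ⟨e, by rw [h e hx]; exact he, hx⟩
      simp only [h2]
    · intro ω ω' h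
      have h2 : 𝒟'.filter (fun D => Opn ends ω D Γ) = 𝒟'.filter (fun D => Opn ends ω' D Γ) := by
        refine Finset.filter_congr fun D hD => ?_
        have hne : D ≠ D0 := fun h3 => hD0 (h3 ▸ hD)
        have hdis := hd D (Finset.mem_insert_of_mem hD) D0 (Finset.mem_insert_self _ _) hne
        have hG := hΓ D (Finset.mem_insert_of_mem hD)
        have hkey : ∀ e : E, (∃ x ∈ D, ∃ y ∈ Γ, ends e = s(x, y)) →
            e ∉ {e : E | ∃ x ∈ D0, ∃ y ∈ Γ, ends e = s(x, y)} := by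
          rintro e ⟨x, hx, y, hy, he⟩ ⟨x', hx', y', hy', he'⟩
          rw [he] at he'
          rcases Sym2.eq_iff.1 he' with ⟨h3, h4⟩ | ⟨h3, h4⟩
          · exact Finset.disjoint_left.1 hdis hx (h3 ▸ hx')
          · exact Finset.disjoint_left.1 hG hx (h3 ▸ hy')
        unfold Opn
        constructor
        · rintro ⟨e, he, hx⟩
          exact ⟨e, by rw [← h e (hkey e hx)]; exact he, hx⟩
        · rintro ⟨e, he, hx⟩
          exact ⟨e, by rw [h e (hkey e hx)]; exact he, hx⟩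
      simp only [h2]

open scoped Classical in
/-- Row T1. The sets of `𝒟` are pairwise disjoint and disjoint from `Γ`, with at least `κ` edges to `Γ`. The sets of edges between `D` and
`Γ` (`D ∈ 𝒟`) are pairwise disjoint. Proof: first `Ex s ((1/2) ^ #{D ∈ 𝒟 | Opn D Γ}) = ∏ D ∈ 𝒟, Ex s (if Opn D Γ then 1/2 else 1)` (induction on
`𝒟`, `Ex_indep` with the set of the edges between the new `D` and `Γ`), every factor is
`1 - (1 - (1-s)^(eb D Γ))/2 ≤ 1 - (1 - (1-s)^κ)/2` (`Ex_closed`), and at most `1` (use `n ≤ |𝒟|`); then `1[# < j] ≤ 2^j (1/2)^#`. -/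
lemma bino {s : ℝ} (hs0 : 0 ≤ s) (hs1 : s ≤ 1) (Γ : Finset V) (𝒟 : Finset (Finset V))
    (hΓ : ∀ D ∈ 𝒟, Disjoint D Γ) (hd : ∀ D ∈ 𝒟, ∀ D' ∈ 𝒟, D ≠ D' → Disjoint D D') (κ n j : ℕ)
    (hκ : ∀ D ∈ 𝒟, κ ≤ eb ends D Γ) (hn : n ≤ 𝒟.card) :
    Ex s (fun η => if (𝒟.filter (fun D => Opn ends η D Γ)).card < j then (1 : ℝ) else 0) ≤
      2 ^ j * (1 - (1 - (1 - s) ^ κ) / 2) ^ n := by
  classical
  have hq0 : 0 ≤ 1 - s := by linarith
  have hq1 : 1 - s ≤ 1 := by linarith
  have h1 : Ex s (fun η => if (𝒟.filter (fun D => Opn ends η D Γ)).card < j then (1 : ℝ) else 0) ≤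
      Ex s (fun η => 2 ^ j * (1 / 2 : ℝ) ^ (𝒟.filter (fun D => Opn ends η D Γ)).card) := by
    refine Ex_mono hs0 hs1 fun η => ?_
    set m := (𝒟.filter (fun D => Opn ends η D Γ)).card with hm
    by_cases h : m < j
    · rw [if_pos h]
      have h2 : (2 : ℝ) ^ j = 2 ^ (j - m) * 2 ^ m := by
        rw [← pow_add]
        congr 1
        omega
      rw [h2, mul_assoc, ← mul_pow]
      norm_num
      exact one_le_pow₀ (by norm_num)
    · rw [if_neg h]
      positivity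
  refine le_trans h1 ?_
  rw [Ex_mul_left]
  refine mul_le_mul_of_nonneg_left ?_ (by positivity)
  rw [T1_prod s Γ 𝒟 hΓ hd]
  have hp0 : 0 ≤ (1 - s) ^ κ := pow_nonneg hq0 _
  have hp1 : (1 - s) ^ κ ≤ 1 := pow_le_one₀ hq0 hq1
  calc ∏ D ∈ 𝒟, (1 - (1 - (1 - s) ^ (eb ends D Γ)) / 2) ≤
      ∏ _D ∈ 𝒟, (1 - (1 - (1 - s) ^ κ) / 2) := by
        refine Finset.prod_le_prod (fun D _ => ?_) (fun D hD => ?_)
        · have h3 : 0 ≤ (1 - s) ^ (eb ends D Γ) := pow_nonneg hq0 _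
          linarith
        · have h3 : (1 - s) ^ (eb ends D Γ) ≤ (1 - s) ^ κ :=
            pow_le_pow_of_le_one hq0 hq1 (hκ D hD)
          linarith
    _ = (1 - (1 - (1 - s) ^ κ) / 2) ^ 𝒟.card := by rw [Finset.prod_const]
    _ ≤ (1 - (1 - (1 - s) ^ κ) / 2) ^ n := by
        refine pow_le_pow_of_le_one ?_ ?_ hn
        · linarith
        · linarith

open scoped Classical in
/-- Row T2. Exploration of the cluster of `x` in `orc ω η` (over `η`, `ω` is fixed). `𝒟 S` is a family which may depend on the value `S` of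
the cluster. Proof: sum over the values `S`; the event `cu (orc ω η) x = S` depends on `η` at the edges with an endpoint in `S`
(`cl_eq_dep`), the event `#{D ∈ 𝒟 S | Opn η D Γ} < j` on the edges between the `D ∈ 𝒟 S` and `Γ`, which have no endpoint in `S`
(if `Disjoint Γ S`; otherwise the indicator is zero): `Ex_indep` and `bino`. -/
lemma two_hop {s h' : ℝ} (hs0 : 0 ≤ s) (hs1 : s ≤ 1) (ω : E → Bool) (x : V) (Γ : Finset V)
    (𝒟 : Finset V → Finset (Finset V)) (κ n j : ℕ) (hS : ∀ S, ∀ D ∈ 𝒟 S, Disjoint D S)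
    (hΓ : ∀ S, ∀ D ∈ 𝒟 S, Disjoint D Γ) (hd : ∀ S, ∀ D ∈ 𝒟 S, ∀ D' ∈ 𝒟 S, D ≠ D' → Disjoint D D')
    (hκ : ∀ S, ∀ D ∈ 𝒟 S, κ ≤ eb ends D Γ) :
    Ex s (fun η => if Disjoint Γ (cu ends (orc ω η) x) ∧ h' ≤ cz ends (orc ω η) x ∧
      n ≤ (𝒟 (cu ends (orc ω η) x)).card ∧
      ((𝒟 (cu ends (orc ω η) x)).filter (fun D => Opn ends η D Γ)).card < j then (1 : ℝ) else 0) ≤
      2 ^ j * (1 - (1 - (1 - s) ^ κ) / 2) ^ n *
        Ex s (fun η => if h' ≤ cz ends (orc ω η) x then (1 : ℝ) else 0) := by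
  have hb : 0 ≤ (2 : ℝ) ^ j * (1 - (1 - (1 - s) ^ κ) / 2) ^ n := by
    have h1 : 0 ≤ (1 - s) ^ κ := pow_nonneg (by linarith) _
    have h2 : 0 ≤ 1 - (1 - (1 - s) ^ κ) / 2 := by linarith
    positivity
  set b : ℝ := 2 ^ j * (1 - (1 - (1 - s) ^ κ) / 2) ^ n with hbdef
  have hL : ∀ η : E → Bool, (if Disjoint Γ (cu ends (orc ω η) x) ∧ h' ≤ cz ends (orc ω η) x ∧
      n ≤ (𝒟 (cu ends (orc ω η) x)).card ∧
      ((𝒟 (cu ends (orc ω η) x)).filter (fun D => Opn ends η D Γ)).card < j then (1 : ℝ) else 0) =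
      ∑ S : Finset V, (if cu ends (orc ω η) x = S then (1 : ℝ) else 0) *
        (if Disjoint Γ S ∧ h' ≤ (S.card : ℝ) ∧ n ≤ (𝒟 S).card ∧
          ((𝒟 S).filter (fun D => Opn ends η D Γ)).card < j then (1 : ℝ) else 0) := by
    intro η
    rw [Finset.sum_eq_single (cu ends (orc ω η) x)]
    · rw [if_pos rfl, one_mul]
      rfl
    · intro A _ hA
      rw [if_neg (Ne.symm hA), zero_mul]
    · intro hh
      exact absurd (Finset.mem_univ _) hh
  have hR : ∀ η : E → Bool, (if h' ≤ cz ends (orc ω η) x then (1 : ℝ) else 0) =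
      ∑ S : Finset V, (if h' ≤ (S.card : ℝ) then (1 : ℝ) else 0) *
        (if cu ends (orc ω η) x = S then (1 : ℝ) else 0) := by
    intro η
    rw [Finset.sum_eq_single (cu ends (orc ω η) x)]
    · rw [if_pos rfl, mul_one]
      rfl
    · intro A _ hA
      rw [if_neg (Ne.symm hA), mul_zero]
    · intro hh
      exact absurd (Finset.mem_univ _) hh
  rw [Ex_congr hL, Ex_sum, Ex_congr hR, Ex_sum, Finset.mul_sum]
  refine Finset.sum_le_sum fun S _ => ?_
  have hI : 0 ≤ Ex s (fun η => if cu ends (orc ω η) x = S then (1 : ℝ) else 0) :=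
    Ex_nonneg hs0 hs1 fun η => by split_ifs <;> norm_num
  rw [Ex_mul_left]
  by_cases hc : Disjoint Γ S ∧ h' ≤ (S.card : ℝ) ∧ n ≤ (𝒟 S).card
  · obtain ⟨c1, c2, c3⟩ := hc
    have e1 : ∀ η : E → Bool, (if cu ends (orc ω η) x = S then (1 : ℝ) else 0) *
        (if Disjoint Γ S ∧ h' ≤ (S.card : ℝ) ∧ n ≤ (𝒟 S).card ∧
          ((𝒟 S).filter (fun D => Opn ends η D Γ)).card < j then (1 : ℝ) else 0) =
        (if cu ends (orc ω η) x = S then (1 : ℝ) else 0) *
        (if ((𝒟 S).filter (fun D => Opn ends η D Γ)).card < j then (1 : ℝ) else 0) := by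
      intro η
      congr 1
      exact if_congr ⟨fun h => h.2.2.2, fun h => ⟨c1, c2, c3, h⟩⟩ rfl rfl
    set D0 : Set E := {e | ∃ a b, ends e = s(a, b) ∧ a ∈ S} with hD0
    rw [Ex_congr e1, Ex_indep s D0]
    · rw [if_pos c2, one_mul, mul_comm]
      exact mul_le_mul_of_nonneg_right
        (bino hs0 hs1 Γ (𝒟 S) (hΓ S) (hd S) κ n j (hκ S) c3) hI
    · intro η η' hh
      have key : ∀ η η' : E → Bool, (∀ e ∈ D0, η e = η' e) → cu ends (orc ω η) x = S →
          cu ends (orc ω η') x = S := by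
        intro η η' hh hA
        refine cl_eq_dep (fun e' a b h2 _ _ h5 => ?_) hA
        unfold orc
        rw [hh e' ⟨a, b, h2, h5⟩]
      by_cases hc : cu ends (orc ω η) x = S
      · rw [if_pos hc, if_pos (key η η' hh hc)]
      · rw [if_neg hc, if_neg]
        intro hc'
        exact hc (key η' η (fun e he => (hh e he).symm) hc')
    · intro η η' hh
      have key : ∀ η η' : E → Bool, (∀ e ∉ D0, η e = η' e) → ∀ D ∈ 𝒟 S, Opn ends η D Γ →
          Opn ends η' D Γ := by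
        rintro η η' hh D hD ⟨e, he, u, hu, v, hv, huv⟩
        refine ⟨e, ?_, u, hu, v, hv, huv⟩
        rw [← hh e, he]
        rintro ⟨a, b, h5, h8⟩
        rw [huv] at h5
        rcases Sym2.eq_iff.1 h5 with ⟨rfl, rfl⟩ | ⟨rfl, rfl⟩
        · exact Finset.disjoint_left.1 (hS S D hD) hu h8
        · exact Finset.disjoint_left.1 c1 hv h8
      have : (𝒟 S).filter (fun D => Opn ends η D Γ) =
          (𝒟 S).filter (fun D => Opn ends η' D Γ) := by
        apply Finset.filter_congr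
        intro D hD
        exact ⟨key η η' hh D hD, key η' η (fun e he => (hh e he).symm) D hD⟩
      rw [this]
  · have e1 : ∀ η : E → Bool, (if cu ends (orc ω η) x = S then (1 : ℝ) else 0) *
        (if Disjoint Γ S ∧ h' ≤ (S.card : ℝ) ∧ n ≤ (𝒟 S).card ∧
          ((𝒟 S).filter (fun D => Opn ends η D Γ)).card < j then (1 : ℝ) else 0) = 0 := by
      intro η
      have hn : ¬ (Disjoint Γ S ∧ h' ≤ (S.card : ℝ) ∧ n ≤ (𝒟 S).card ∧
          ((𝒟 S).filter (fun D => Opn ends η D Γ)).card < j) :=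
        fun h => hc ⟨h.1, h.2.1, h.2.2.1⟩
      rw [if_neg hn, mul_zero]
    rw [Ex_zero_of e1]
    refine mul_nonneg hb (mul_nonneg (by split_ifs <;> norm_num) hI)

open scoped Classical in
/-- Row T3. Many disjoint sets inside `Γ` with many edges to `K`: the sets of edges between `D` and `K` are pairwise disjoint. -/
lemma eb_join (K Γ : Finset V) (𝒥 : Finset (Finset V)) (κ : ℕ) (hK : ∀ D ∈ 𝒥, Disjoint D K)
    (hΓ : ∀ D ∈ 𝒥, D ⊆ Γ) (hd : ∀ D ∈ 𝒥, ∀ D' ∈ 𝒥, D ≠ D' → Disjoint D D')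
    (hκ : ∀ D ∈ 𝒥, κ ≤ eb ends D K) : 𝒥.card * κ ≤ eb ends Γ K := by
  have hdis : ∀ D ∈ 𝒥, ∀ D' ∈ 𝒥, D ≠ D' →
      Disjoint (Finset.univ.filter (fun e => ∃ x ∈ D, ∃ y ∈ K, ends e = s(x, y)))
        (Finset.univ.filter (fun e => ∃ x ∈ D', ∃ y ∈ K, ends e = s(x, y))) := by
    intro D hD D' hD' hne
    rw [Finset.disjoint_left]
    intro e he he'
    obtain ⟨-, x, hx, y, hy, hxy⟩ := Finset.mem_filter.1 he
    obtain ⟨-, x', hx', y', hy', hxy'⟩ := Finset.mem_filter.1 he'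
    rw [hxy] at hxy'
    rcases Sym2.eq_iff.1 hxy' with ⟨h1, -⟩ | ⟨h1, -⟩
    · subst h1
      exact Finset.disjoint_left.1 (hd D hD D' hD' hne) hx hx'
    · subst h1
      exact Finset.disjoint_left.1 (hK D hD) hx hy'
  have h1 : 𝒥.card * κ ≤ ∑ D ∈ 𝒥, eb ends D K := by
    have := Finset.sum_le_sum hκ
    simpa [Finset.sum_const, smul_eq_mul] using this
  have h2 : ∑ D ∈ 𝒥, eb ends D K =
      (𝒥.biUnion (fun D => Finset.univ.filter (fun e => ∃ x ∈ D, ∃ y ∈ K, ends e = s(x, y)))).card := by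
    rw [Finset.card_biUnion hdis]
    rfl
  rw [h2] at h1
  refine h1.trans ?_
  unfold eb
  apply Finset.card_le_card
  intro e he
  obtain ⟨D, hD, he⟩ := Finset.mem_biUnion.1 he
  obtain ⟨-, x, hx, y, hy, hxy⟩ := Finset.mem_filter.1 he
  exact Finset.mem_filter.2 ⟨Finset.mem_univ _, x, hΓ D hD hx, y, hy, hxy⟩

/-- Row T3 (second half). A set `D` inside one cluster of `ω`, joined by an edge open in `η` to the `ω`-cluster of `y`, is inside the
cluster of `y` in `orc ω η` (`cu_mono`, `orc_left`, `orc_right`). -/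
lemma joined {ω η : E → Bool} {y : V} {D : Finset V} (hD : ∃ v, D ⊆ cu ends ω v)
    (h : Opn ends η D (cu ends ω y)) : D ⊆ cu ends (orc ω η) y := by
  obtain ⟨v, hv⟩ := hD
  obtain ⟨e, he, x, hx, z, hz, hxz⟩ := h
  intro d hd
  have h1 : Rch ends (orc ω η) Set.univ y z :=
    Rch.mono (orc_left ω η) (Set.Subset.refl _) (mem_cu.1 hz)
  have h2 : Rch ends (orc ω η) Set.univ x z :=
    Relation.ReflTransGen.single ⟨trivial, trivial, e, orc_right ω η e he, hxz⟩
  have h3 : Rch ends (orc ω η) Set.univ v x :=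
    Rch.mono (orc_left ω η) (Set.Subset.refl _) (mem_cu.1 (hv hx))
  have h4 : Rch ends (orc ω η) Set.univ v d :=
    Rch.mono (orc_left ω η) (Set.Subset.refl _) (mem_cu.1 (hv hd))
  exact mem_cu.2 (h1.trans (h2.symm.trans (h3.symm.trans h4)))

end Pool.Agent.PERC29.AE
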