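import Pool.Agent.Lib.MP_29e17e_pr.U.Sp
import Pool.Agent.Lib.MP_29e17e_pr.Y.C2
import Pool.Agent.Lib.MP_29e17e_pr.Y.Tw

set_option autoImplicit false
set_option linter.unusedSectionVars false

/-! Rows 29w-B1 .. 29w-B5: boxes in a large graph, and the second cluster (Section 4 of the page). The box graph `(Vb, Eb, endb)` is
embedded by `φ` (vertices) and `ψ` (edges). -/

open Finset

namespace Pool.Agent.PERC29.AE

variable {V : Type*} [Fintype V] [DecidableEq V] {E : Type*} [Fintype E] [DecidableEq E]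
  {ends : E → Sym2 V}
  {Vb : Type*} [Fintype Vb] [DecidableEq Vb] {Eb : Type*} [Fintype Eb] [DecidableEq Eb]
  {endb : Eb → Sym2 Vb}

/-- The box graph is embedded in the large graph. -/
structure Emb (ends : E → Sym2 V) (endb : Eb → Sym2 Vb) (φ : Vb → V) (ψ : Eb → E) : Prop where
  inj : Function.Injective φ
  injE : Function.Injective ψ
  map : ∀ e, ends (ψ e) = Sym2.map φ (endb e)

/-- The configuration in the box. -/
def pl (ψ : Eb → E) (ω : E → Bool) : Eb → Bool := fun e => ω (ψ e)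

/-- The part of `U` in the box. -/
def pre (φ : Vb → V) (U : Finset V) : Finset Vb := Finset.univ.filter (fun v => φ v ∈ U)

/-- Row B1. (1) An open path in the box is an open path in the graph. (2) So the part of a union of clusters is a union of clusters.
(3) `ψ` maps the edges between `A` and `B` injectively to edges between the images. -/
lemma cu_map {φ : Vb → V} {ψ : Eb → E} (h : Emb ends endb φ ψ) {ω : E → Bool} {x y : Vb}
    (hy : y ∈ cu endb (pl ψ ω) x) : φ y ∈ cu ends ω (φ x) := by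
  rw [mem_cu] at hy ⊢
  induction hy with
  | refl => exact Rch.refl _
  | tail _ hbc ih =>
    obtain ⟨_, _, e, h3, h4⟩ := hbc
    refine Relation.ReflTransGen.tail ih ⟨Set.mem_univ _, Set.mem_univ _, ψ e, h3, ?_⟩
    rw [h.map, h4, Sym2.map_mk]

lemma Ful_pre {φ : Vb → V} {ψ : Eb → E} (h : Emb ends endb φ ψ) {ω : E → Bool} {U : Finset V}
    (hU : Ful ends ω U) : Ful endb (pl ψ ω) (pre φ U) := by
  intro x hx y hy
  have hx' : φ x ∈ U := by simpa [pre] using hx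
  have h1 : φ y ∈ U := hU (φ x) hx' (cu_map h hy)
  simpa [pre] using h1

lemma eb_map {φ : Vb → V} {ψ : Eb → E} (h : Emb ends endb φ ψ) (A B : Finset Vb) :
    eb endb A B ≤ eb ends (A.image φ) (B.image φ) := by
  classical
  unfold eb
  refine Finset.card_le_card_of_injOn ψ ?_ (fun _ _ _ _ h' => h.injE h')
  intro e he
  have he' := (Finset.mem_filter.1 (Finset.mem_coe.1 he)).2
  obtain ⟨x, hx, y, hy, hxy⟩ := he'
  refine Finset.mem_coe.2 (Finset.mem_filter.2 ⟨Finset.mem_univ _, φ x,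
    Finset.mem_image_of_mem φ hx, φ y, Finset.mem_image_of_mem φ hy, ?_⟩)
  rw [h.map, hxy, Sym2.map_mk]

open scoped Classical in
/-- Row B2. If the cluster of `v` in the box does not meet the boundary `Bd` and all edges at the other vertices are edges of the box then
the cluster of `φ v` in the large graph is the image of the cluster of `v` (induction along a path from `φ v`: every vertex is
`φ u` with `u` in the cluster of `v`, so `u ∉ Bd` and the next edge is in the box). So the sizes agree (`inj`). -/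
lemma cz_loc {φ : Vb → V} {ψ : Eb → E} (h : Emb ends endb φ ψ) (Bd : Finset Vb)
    (hloc : ∀ e u, u ∉ Bd → φ u ∈ ends e → ∃ e', ψ e' = e) (ω : E → Bool) (v : Vb)
    (hv : Disjoint (cu endb (pl ψ ω) v) Bd) : cz ends ω (φ v) = cz endb (pl ψ ω) v := by
  have key : ∀ w, Rch ends ω Set.univ (φ v) w → ∃ u, φ u = w ∧ u ∈ cu endb (pl ψ ω) v := by
    intro w hw
    induction hw with
    | refl => exact ⟨v, rfl, self_mem_cu _ v⟩
    | tail _ hbc ih =>
      rename_i b c _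
      obtain ⟨u, hu, hu2⟩ := ih
      obtain ⟨-, -, e, he, hends⟩ := hbc
      have huB : u ∉ Bd := fun hB => (Finset.disjoint_left.1 hv) hu2 hB
      obtain ⟨e', he'⟩ := hloc e u huB (by rw [hends, hu]; exact Sym2.mem_mk_left b c)
      have hm := h.map e'
      rw [he', hends] at hm
      induction hq : endb e' using Sym2.ind with
      | _ r s =>
        rw [hq, Sym2.map_mk] at hm
        have hω : pl ψ ω e' = true := by
          unfold pl
          rw [he']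
          exact he
        have hst : ∀ q, endb e' = s(u, q) → q ∈ cu endb (pl ψ ω) v := by
          intro q hq'
          rw [mem_cu] at hu2 ⊢
          exact Relation.ReflTransGen.tail hu2 ⟨Set.mem_univ _, Set.mem_univ _, e', hω, hq'⟩
        rcases Sym2.eq_iff.1 hm with ⟨h1, h2⟩ | ⟨h1, h2⟩
        · have h3 : u = r := h.inj (hu.trans h1)
          exact ⟨s, h2.symm, hst s (by rw [hq, h3])⟩
        · have h3 : u = s := h.inj (hu.trans h1)
          exact ⟨r, h2.symm, hst r (by rw [hq, h3, Sym2.eq_swap])⟩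
  have himg : cu ends ω (φ v) = (cu endb (pl ψ ω) v).image φ := by
    ext w
    rw [Finset.mem_image]
    constructor
    · intro hw
      obtain ⟨u, h1, h2⟩ := key w (mem_cu.1 hw)
      exact ⟨u, h2, h1⟩
    · rintro ⟨u, h1, rfl⟩
      exact cu_map h h1
  unfold cz
  rw [himg, Finset.card_image_of_injective _ h.inj]

open scoped Classical in
/-- Row B3. One good box. Let `𝒮`, `𝒯` be the clusters of `GC endb (pl ψ ω) k2` inside `pre φ K`, `pre φ Γ` (disjoint families; every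
cluster of the box is inside or disjoint, `Ful_pre`). The volume of `Un 𝒮` is that of `pre φ K` (`k2 ≤ A2`). `¬ BadE2`: either
`kk < eb (Un 𝒮) (Un 𝒯) ≤ eb K Γ` (`eb_map`, `eb_mono`), or `𝒟 = (DE ..).image (image φ)` has `2 j` members: the `D ∈ DE` are not in `𝒮`, so
disjoint from `pre φ K`; different clusters are disjoint; `D.image φ ⊆ cu ends ω (φ v)` for `v ∈ D` (`cu_map`). -/
lemma box_pt {φ : Vb → V} {ψ : Eb → E} (h : Emb ends endb φ ψ) {k2 A2 β : ℝ} {kk κ j : ℕ} (hk2 : 0 < k2)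
    (hkA : k2 ≤ A2) (ω : E → Bool) (W : Finset Vb) (hB : ¬ BadE2 endb (pl ψ ω) W k2 A2 β kk κ j)
    (K Γ : Finset V) (hK : Ful ends ω K) (hΓ : Ful ends ω Γ) (hKΓ : Disjoint K Γ)
    (vK : β ≤ vol endb (pl ψ ω) W A2 (pre φ K)) (vΓ : β ≤ vol endb (pl ψ ω) W A2 (pre φ Γ)) :
    kk < eb ends K Γ ∨ ∃ 𝒟 : Finset (Finset V), 2 * j ≤ 𝒟.card ∧
      (∀ D ∈ 𝒟, Disjoint D K ∧ Disjoint D Γ ∧ κ ≤ eb ends D K ∧ κ ≤ eb ends D Γ ∧
        ∃ v, D ⊆ cu ends ω v) ∧ ∀ D ∈ 𝒟, ∀ D' ∈ 𝒟, D ≠ D' → Disjoint D D' := by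
  set ω' := pl ψ ω with hω'
  have hcu : ∀ A ∈ GC endb ω' k2, ∀ x ∈ A, A = cu endb ω' x := by
    intro A hA x hx
    obtain ⟨⟨y, rfl⟩, -⟩ := mem_GC.1 hA
    exact (cu_eq hx).symm
  set S1 := (GC endb ω' k2).filter (fun A => A ⊆ pre φ K) with hS1
  set T1 := (GC endb ω' k2).filter (fun A => A ⊆ pre φ Γ) with hT1
  have hUn : ∀ (U : Finset V), ∀ x ∈ Un ((GC endb ω' k2).filter (fun A => A ⊆ pre φ U)), φ x ∈ U := by
    intro U x hx
    unfold Un at hx
    obtain ⟨A, hA, hxA⟩ := Finset.mem_biUnion.1 hx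
    have h1 := (Finset.mem_filter.1 hA).2 hxA
    exact (Finset.mem_filter.1 h1).2
  have hvol : ∀ (U : Finset V), Ful ends ω U → vol endb ω' W A2 (pre φ U) ≤
      vol endb ω' W A2 (Un ((GC endb ω' k2).filter (fun A => A ⊆ pre φ U))) := by
    intro U hU
    unfold vol
    have h1 : W.filter (fun x => x ∈ pre φ U ∧ A2 ≤ cz endb ω' x) ⊆
        W.filter (fun x => x ∈ Un ((GC endb ω' k2).filter (fun A => A ⊆ pre φ U)) ∧
          A2 ≤ cz endb ω' x) := by
      intro x hx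
      obtain ⟨h1, h2, h3⟩ := Finset.mem_filter.1 hx
      refine Finset.mem_filter.2 ⟨h1, ?_, h3⟩
      unfold Un
      refine Finset.mem_biUnion.2 ⟨cu endb ω' x, ?_, self_mem_cu ω' x⟩
      exact Finset.mem_filter.2 ⟨mem_GC.2 ⟨⟨x, rfl⟩, hkA.trans h3⟩, Ful_pre h hU x h2⟩
    exact_mod_cast Finset.card_le_card h1
  have hST : Disjoint S1 T1 := by
    rw [Finset.disjoint_left]
    intro A hA hA'
    obtain ⟨h1, h2⟩ := Finset.mem_filter.1 hA
    obtain ⟨-, h3⟩ := Finset.mem_filter.1 hA'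
    obtain ⟨x, hx⟩ := GC_nonempty h1
    exact Finset.disjoint_left.1 hKΓ (Finset.mem_filter.1 (h2 hx)).2 (Finset.mem_filter.1 (h3 hx)).2
  have hor : kk < eb endb (Un S1) (Un T1) ∨ 2 * j ≤ (DE endb ω' k2 κ S1 T1).card := by
    by_contra hcon
    rw [not_or, not_lt, not_le] at hcon
    exact hB ⟨S1, Finset.mem_powerset.2 (Finset.filter_subset _ _), T1,
      Finset.mem_powerset.2 (Finset.filter_subset _ _), hST, vK.trans (hvol K hK),
      vΓ.trans (hvol Γ hΓ), hcon.1, hcon.2⟩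
  have hSK : (Un S1).image φ ⊆ K := by
    intro y hy
    obtain ⟨x, hx, rfl⟩ := Finset.mem_image.1 hy
    exact hUn K x hx
  have hTG : (Un T1).image φ ⊆ Γ := by
    intro y hy
    obtain ⟨x, hx, rfl⟩ := Finset.mem_image.1 hy
    exact hUn Γ x hx
  rcases hor with h1 | h1
  · left
    exact lt_of_lt_of_le h1 ((eb_map h _ _).trans (eb_mono hSK hTG))
  · right
    refine ⟨(DE endb ω' k2 κ S1 T1).image (fun D => D.image φ), ?_, ?_, ?_⟩
    · rw [Finset.card_image_of_injective _ (Finset.image_injective h.inj)]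
      exact h1
    · intro D' hD'
      obtain ⟨D, hD, rfl⟩ := Finset.mem_image.1 hD'
      unfold DE at hD
      obtain ⟨hG, hnS, hnT, hκS, hκT⟩ := Finset.mem_filter.1 hD
      have hdis : ∀ (U : Finset V), Ful ends ω U →
          D ∉ (GC endb ω' k2).filter (fun A => A ⊆ pre φ U) → Disjoint (D.image φ) U := by
        intro U hU hn
        rw [Finset.disjoint_left]
        intro y hy hyU
        obtain ⟨x, hx, rfl⟩ := Finset.mem_image.1 hy
        apply hn
        refine Finset.mem_filter.2 ⟨hG, ?_⟩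
        rw [hcu D hG x hx]
        exact Ful_pre h hU x (Finset.mem_filter.2 ⟨Finset.mem_univ _, hyU⟩)
      refine ⟨hdis K hK hnS, hdis Γ hΓ hnT, ?_, ?_, ?_⟩
      · exact hκS.trans ((eb_map h _ _).trans (eb_mono (Finset.Subset.refl _) hSK))
      · exact hκT.trans ((eb_map h _ _).trans (eb_mono (Finset.Subset.refl _) hTG))
      · obtain ⟨⟨x0, hx0⟩, -⟩ := mem_GC.1 hG
        refine ⟨φ x0, ?_⟩
        intro y hy
        obtain ⟨x, hx, rfl⟩ := Finset.mem_image.1 hy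
        rw [← hx0] at hx
        exact cu_map h hx
    · intro D1 hD1 D2 hD2 hne
      obtain ⟨A1, hA1, rfl⟩ := Finset.mem_image.1 hD1
      obtain ⟨A2', hA2, rfl⟩ := Finset.mem_image.1 hD2
      unfold DE at hA1 hA2
      have hG1 := (Finset.mem_filter.1 hA1).1
      have hG2 := (Finset.mem_filter.1 hA2).1
      have hne' : A1 ≠ A2' := fun h0 => hne (by rw [h0])
      exact (Finset.disjoint_image h.inj).2 (GC_disj hG1 hG2 hne')

/-- A box where `¬ BadE2` and both sets have a large volume. -/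
def Shb {ι : Type*} (𝒵 : Finset ι) (φ : ι → Vb → V) (ψ : ι → Eb → E) (endb : Eb → Sym2 Vb)
    (W : Finset Vb) (k2 A2 β : ℝ) (kk κ j : ℕ) (ω : E → Bool) (Γ K : Finset V) : Prop :=
  ∃ z ∈ 𝒵, ¬ BadE2 endb (pl (ψ z) ω) W k2 A2 β kk κ j ∧
    β ≤ vol endb (pl (ψ z) ω) W A2 (pre (φ z) Γ) ∧ β ≤ vol endb (pl (ψ z) ω) W A2 (pre (φ z) K)

open scoped Classical in
/-- Row B4. `Γ1 = cu ω1 y0`, `ω1 = orc ω η1`, `Γ = cu (orc ω1 η2) y0`, `K = cu β x`, `β = orc (orc ω1 η2) η3`; `x ∉ cu β y0` so `K` is disjoint from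
`Γ ⊇ Γ1`. Let `k = min (kk + 1) (j1 κ)` (`j1` is arbitrary). By `box_pt` (for `K`, `Γ1`, both `Ful` for `ω`) either `k ≤ eb K Γ`, or there is a family `𝒟` as in
`box_pt`; choose `𝒟 S` for every value `S` of the cluster of `x` for which the hypotheses of `box_pt` hold with `K := S`, `Γ := Γ1` and the first
alternative fails (otherwise `𝒟 S = ∅`); it depends on `ω`, `η1`, `S` only. If at least `j1` sets `D ∈ 𝒟 K` have `Opn η2 D Γ1` then these are in
`Γ` (`joined`) and `j1 κ ≤ eb Γ K` (`eb_join`). So the indicator is at most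
(A) `1[k ≤ eb Γ K, t ≤ |K|, η3 closed at the edges between Γ and K]` (`cl (orc (orc ω1 η2) η3) Γᶜ x = K` since `K` is disjoint from `Γ`; `K`, `Γ` are
not joined in `β`), bounded by `sprinkle_cut` over `η3`, plus
(B) `1[Disjoint Γ1 K, t ≤ |K|, 2 j ≤ |𝒟 K|, #{D ∈ 𝒟 K | Opn η2 D Γ1} < j1]`, bounded by `two_hop` over `η2` (exchange the expectations, `β = orc (orc ω1 η3) η2`). -/
lemma uniq_x {s2 s3 : ℝ} (h20 : 0 ≤ s2) (h21 : s2 ≤ 1) (h30 : 0 ≤ s3) (h31 : s3 ≤ 1) {ι : Type*}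
    (𝒵 : Finset ι) (φ : ι → Vb → V) (ψ : ι → Eb → E) (hem : ∀ z ∈ 𝒵, Emb ends endb (φ z) (ψ z))
    {k2 A2 β t : ℝ} {kk κ j j1 : ℕ} (hk2 : 0 < k2) (hkA : k2 ≤ A2) (W : Finset Vb)
    (ω η1 : E → Bool) (y0 x : V) :
    Ex s2 (fun η2 => Ex s3 (fun η3 => if x ∉ cu ends (orc (orc (orc ω η1) η2) η3) y0 ∧
      t ≤ cz ends (orc (orc (orc ω η1) η2) η3) x ∧
      Shb 𝒵 φ ψ endb W k2 A2 β kk κ j ω (cu ends (orc ω η1) y0)
        (cu ends (orc (orc (orc ω η1) η2) η3) x) then (1 : ℝ) else 0)) ≤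
      ((1 - s3) ^ (min (kk + 1) (j1 * κ)) + 2 ^ j1 * (1 - (1 - (1 - s2) ^ κ) / 2) ^ (2 * j)) *
        Ex s2 (fun η2 => Ex s3 (fun η3 => if t ≤ cz ends (orc (orc (orc ω η1) η2) η3) x
          then (1 : ℝ) else 0)) := by
  set ω1 := orc ω η1 with hω1
  set Γ1 := cu ends ω1 y0 with hΓ1
  set k : ℕ := min (kk + 1) (j1 * κ) with hk
  set q : ℝ := 2 ^ j1 * (1 - (1 - (1 - s2) ^ κ) / 2) ^ (2 * j) with hq
  -- the condition on the value of the cluster
  let P : Finset V → Prop := fun S => Ful ends ω S ∧ Disjoint S Γ1 ∧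
    Shb 𝒵 φ ψ endb W k2 A2 β kk κ j ω Γ1 S ∧ ¬ kk < eb ends S Γ1
  have hG1 : Ful ends ω Γ1 := by
    intro v hv
    have h1 : cu ends ω v ⊆ cu ends ω1 v := cu_mono (orc_left ω η1)
    rw [cu_eq hv] at h1
    exact h1
  have hex : ∀ S, P S → ∃ 𝒟 : Finset (Finset V), 2 * j ≤ 𝒟.card ∧
      (∀ D ∈ 𝒟, Disjoint D S ∧ Disjoint D Γ1 ∧ κ ≤ eb ends D S ∧ κ ≤ eb ends D Γ1 ∧
        ∃ v, D ⊆ cu ends ω v) ∧ ∀ D ∈ 𝒟, ∀ D' ∈ 𝒟, D ≠ D' → Disjoint D D' := by
    intro S hS
    obtain ⟨h1, h2, ⟨z, hz, h3, h4, h5⟩, h6⟩ := hS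
    rcases box_pt (hem z hz) hk2 hkA ω W h3 S Γ1 h1 hG1 h2 h5 h4 with h7 | h7
    · exact absurd h7 h6
    · exact h7
  let 𝒟 : Finset V → Finset (Finset V) := fun S => if h : P S then (hex S h).choose else ∅
  have hDpos : ∀ S (h : P S), 𝒟 S = (hex S h).choose := fun S h => dif_pos h
  have hDneg : ∀ S, ¬ P S → 𝒟 S = ∅ := fun S h => dif_neg h
  have hDall : ∀ S, ∀ D ∈ 𝒟 S, Disjoint D S ∧ Disjoint D Γ1 ∧ κ ≤ eb ends D S ∧
      κ ≤ eb ends D Γ1 ∧ ∃ v, D ⊆ cu ends ω v := by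
    intro S D hD
    by_cases h : P S
    · rw [hDpos S h] at hD
      exact (hex S h).choose_spec.2.1 D hD
    · rw [hDneg S h] at hD
      exact absurd hD (Finset.notMem_empty D)
  have hDdis : ∀ S, ∀ D ∈ 𝒟 S, ∀ D' ∈ 𝒟 S, D ≠ D' → Disjoint D D' := by
    intro S D hD D' hD'
    by_cases h : P S
    · rw [hDpos S h] at hD hD'
      exact (hex S h).choose_spec.2.2 D hD D' hD'
    · rw [hDneg S h] at hD
      exact absurd hD (Finset.notMem_empty D)
  have horc : ∀ η2 η3 : E → Bool, orc (orc ω1 η3) η2 = orc (orc ω1 η2) η3 := by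
    intro η2 η3
    funext e
    simp only [orc]
    rw [Bool.or_assoc, Bool.or_assoc, Bool.or_comm (η3 e) (η2 e)]
  -- the two events
  let fA : (E → Bool) → (E → Bool) → ℝ := fun η2 η3 =>
    if t ≤ ((cl ends (orc (orc ω1 η2) η3) ((cu ends (orc ω1 η2) y0 : Set V)ᶜ) x).card : ℝ) ∧
        k ≤ eb ends (cu ends (orc ω1 η2) y0)
          (cl ends (orc (orc ω1 η2) η3) ((cu ends (orc ω1 η2) y0 : Set V)ᶜ) x) ∧
        (∀ e, (∃ u ∈ cu ends (orc ω1 η2) y0,
          ∃ v ∈ cl ends (orc (orc ω1 η2) η3) ((cu ends (orc ω1 η2) y0 : Set V)ᶜ) x,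
            ends e = s(u, v)) → η3 e = false) then (1 : ℝ) else 0
  let fB : (E → Bool) → (E → Bool) → ℝ := fun η2 η3 =>
    if Disjoint Γ1 (cu ends (orc (orc ω1 η3) η2) x) ∧ t ≤ cz ends (orc (orc ω1 η3) η2) x ∧
      2 * j ≤ (𝒟 (cu ends (orc (orc ω1 η3) η2) x)).card ∧
      ((𝒟 (cu ends (orc (orc ω1 η3) η2) x)).filter (fun D => Opn ends η2 D Γ1)).card < j1
      then (1 : ℝ) else 0
  have hpt : ∀ η2 η3 : E → Bool, (if x ∉ cu ends (orc (orc ω1 η2) η3) y0 ∧
      t ≤ cz ends (orc (orc ω1 η2) η3) x ∧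
      Shb 𝒵 φ ψ endb W k2 A2 β kk κ j ω Γ1 (cu ends (orc (orc ω1 η2) η3) x)
        then (1 : ℝ) else 0) ≤ fA η2 η3 + fB η2 η3 := by
    intro η2 η3
    have hA0 : 0 ≤ fA η2 η3 := by
      simp only [fA]; split_ifs <;> norm_num
    have hB0 : 0 ≤ fB η2 η3 := by
      simp only [fB]; split_ifs <;> norm_num
    split_ifs with hc
    swap
    · exact add_nonneg hA0 hB0
    obtain ⟨hx, ht, hSh⟩ := hc
    set bt := orc (orc ω1 η2) η3 with hbt
    set Γ := cu ends (orc ω1 η2) y0 with hΓ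
    have hΓb : Γ ⊆ cu ends bt y0 := cu_mono (orc_left (orc ω1 η2) η3)
    have hΓ1Γ : Γ1 ⊆ Γ := cu_mono (orc_left ω1 η2)
    have hdisb : Disjoint (cu ends bt y0) (cu ends bt x) := cu_disj hx
    have hdisΓ : Disjoint Γ (cu ends bt x) := Disjoint.mono_left hΓb hdisb
    have hdisΓ1 : Disjoint Γ1 (cu ends bt x) := Disjoint.mono_left hΓ1Γ hdisΓ
    have hcl : cl ends bt ((Γ : Set V)ᶜ) x = cu ends bt x := by
      have hsub : ∀ z, Rch ends bt Set.univ x z → z ∉ Γ := by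
        intro z hz hzΓ
        exact Finset.disjoint_left.1 hdisΓ hzΓ (mem_cu.2 hz)
      apply Finset.Subset.antisymm
      · exact cl_mono (fun _ h => h) (Set.subset_univ _)
      · intro z hz
        rw [mem_cu] at hz
        rw [mem_cl]
        induction hz with
        | refl => exact Rch.refl x
        | @tail c d hxc hcd ih =>
          have hxd : Rch ends bt Set.univ x d := Relation.ReflTransGen.tail hxc hcd
          obtain ⟨-, -, e, h3, h4⟩ := hcd
          exact Relation.ReflTransGen.tail ih ⟨hsub c hxc, hsub d hxd, e, h3, h4⟩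
    have hA1 : k ≤ eb ends Γ (cu ends bt x) → fA η2 η3 = 1 := by
      intro hkle
      simp only [fA]
      rw [if_pos]
      rw [← hbt, ← hΓ, hcl]
      refine ⟨ht, hkle, ?_⟩
      rintro e ⟨u, hu, v, hv, he⟩
      by_contra hw
      rw [Bool.not_eq_false] at hw
      apply hx
      have h3 : bt e = true := orc_right (orc ω1 η2) η3 e hw
      have h4 : u ∈ cu ends bt y0 := hΓb hu
      rw [mem_cu] at h4 hv ⊢
      have h5 : Rch ends bt Set.univ u v :=
        Relation.ReflTransGen.single ⟨Set.mem_univ _, Set.mem_univ _, e, h3, he⟩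
      exact (h4.trans h5).trans hv.symm
    by_cases hkk : kk < eb ends (cu ends bt x) Γ1
    · have h1 : k ≤ eb ends Γ (cu ends bt x) := by
        have h2 : eb ends (cu ends bt x) Γ1 ≤ eb ends Γ (cu ends bt x) := by
          rw [eb_symm Γ (cu ends bt x)]
          exact eb_mono (Finset.Subset.refl _) hΓ1Γ
        exact (min_le_left _ _).trans (hkk.trans_le h2)
      rw [hA1 h1]
      linarith
    · have hPx : P (cu ends bt x) := by
        refine ⟨?_, hdisΓ1.symm, hSh, hkk⟩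
        intro v hv
        have h1 : cu ends ω v ⊆ cu ends bt v :=
          cu_mono (fun e he => orc_left (orc ω1 η2) η3 e (orc_left ω1 η2 e (orc_left ω η1 e he)))
        rw [cu_eq hv] at h1
        exact h1
      have hcard : 2 * j ≤ (𝒟 (cu ends bt x)).card := by
        rw [hDpos _ hPx]
        exact (hex _ hPx).choose_spec.1
      by_cases hlt : ((𝒟 (cu ends bt x)).filter (fun D => Opn ends η2 D Γ1)).card < j1
      · have h1 : fB η2 η3 = 1 := by
          simp only [fB]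
          rw [horc η2 η3, ← hbt]
          rw [if_pos ⟨hdisΓ1, ht, hcard, hlt⟩]
        rw [h1]
        linarith
      · rw [not_lt] at hlt
        have h1 : ((𝒟 (cu ends bt x)).filter (fun D => Opn ends η2 D Γ1)).card * κ ≤
            eb ends Γ (cu ends bt x) := by
          apply eb_join
          · intro D hD
            exact (hDall _ D (Finset.mem_filter.1 hD).1).1
          · intro D hD
            obtain ⟨hD1, hD2⟩ := Finset.mem_filter.1 hD
            obtain ⟨v, hv⟩ := (hDall _ D hD1).2.2.2.2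
            exact joined ⟨v, hv.trans (cu_mono (orc_left ω η1))⟩ hD2
          · intro D hD D' hD'
            exact hDdis _ D (Finset.mem_filter.1 hD).1 D' (Finset.mem_filter.1 hD').1
          · intro D hD
            exact (hDall _ D (Finset.mem_filter.1 hD).1).2.2.1
        have h2 : k ≤ eb ends Γ (cu ends bt x) :=
          (min_le_right _ _).trans ((Nat.mul_le_mul_right κ hlt).trans h1)
        rw [hA1 h2]
        linarith
  have hA : Ex s2 (fun η2 => Ex s3 (fun η3 => fA η2 η3)) ≤ (1 - s3) ^ k *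
      Ex s2 (fun η2 => Ex s3 (fun η3 => if t ≤ cz ends (orc (orc ω1 η2) η3) x
        then (1 : ℝ) else 0)) := by
    rw [← Ex_mul_left]
    apply Ex_mono h20 h21
    intro η2
    refine (sprinkle_cut h30 h31 (orc ω1 η2) (cu ends (orc ω1 η2) y0) k t x).trans ?_
    apply mul_le_mul_of_nonneg_left _ (pow_nonneg (by linarith) _)
    apply Ex_mono h30 h31
    intro η3
    split_ifs with h2 h3 h3
    · exact le_rfl
    · exfalso
      apply h3
      refine h2.trans ?_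
      unfold cz
      exact_mod_cast Finset.card_le_card (cl_mono (fun _ h => h) (Set.subset_univ _))
    · exact zero_le_one
    · exact le_rfl
  have hB : Ex s2 (fun η2 => Ex s3 (fun η3 => fB η2 η3)) ≤ q *
      Ex s2 (fun η2 => Ex s3 (fun η3 => if t ≤ cz ends (orc (orc ω1 η2) η3) x
        then (1 : ℝ) else 0)) := by
    rw [Ex_swap s2 s3 (fun η2 η3 => fB η2 η3), Ex_swap s2 s3 (fun η2 η3 =>
      if t ≤ cz ends (orc (orc ω1 η2) η3) x then (1 : ℝ) else 0), ← Ex_mul_left]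
    apply Ex_mono h30 h31
    intro η3
    refine (two_hop h20 h21 (orc ω1 η3) x Γ1 𝒟 κ (2 * j) j1 (fun S D hD => (hDall S D hD).1)
      (fun S D hD => (hDall S D hD).2.1) hDdis (fun S D hD => (hDall S D hD).2.2.2.1)).trans ?_
    apply le_of_eq
    rw [hq]
    congr 1
    apply Ex_congr
    intro η2
    rw [horc η2 η3]
  have hmain := Ex_mono h20 h21 (fun η2 => Ex_mono h30 h31 (fun η3 => hpt η2 η3))
  refine hmain.trans ?_
  have hsplit : Ex s2 (fun η2 => Ex s3 (fun η3 => fA η2 η3 + fB η2 η3)) =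
      Ex s2 (fun η2 => Ex s3 (fun η3 => fA η2 η3)) + Ex s2 (fun η2 => Ex s3 (fun η3 => fB η2 η3)) := by
    rw [← Ex_add]
    apply Ex_congr
    intro η2
    rw [Ex_add]
  rw [hsplit, add_mul]
  exact add_le_add hA hB

private lemma B5_orc (p s1 s2 s3 : ℝ) (f : (E → Bool) → ℝ) :
    Ex (1 - (1 - p) * (1 - s1) * (1 - s2) * (1 - s3)) f =
      Ex p (fun ω => Ex s1 (fun η1 => Ex s2 (fun η2 => Ex s3 (fun η3 =>
        f (orc (orc (orc ω η1) η2) η3))))) := by
  have e1 : 1 - (1 - p) * (1 - s1) * (1 - s2) * (1 - s3) =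
      1 - (1 - (1 - (1 - (1 - (1 - p) * (1 - s1))) * (1 - s2))) * (1 - s3) := by ring
  rw [e1, Ex_orc, Ex_orc, Ex_orc]

private lemma B5_sum4 (p s1 s2 s3 c : ℝ)
    (g : V → (E → Bool) → (E → Bool) → (E → Bool) → (E → Bool) → ℝ) :
    Ex p (fun ω => Ex s1 (fun η1 => Ex s2 (fun η2 => Ex s3 (fun η3 =>
      c * ∑ x, g x ω η1 η2 η3)))) =
      c * ∑ x, Ex p (fun ω => Ex s1 (fun η1 => Ex s2 (fun η2 => Ex s3 (fun η3 =>
        g x ω η1 η2 η3)))) := by
  have e1 : ∀ ω η1 η2, Ex s3 (fun η3 => c * ∑ x, g x ω η1 η2 η3) =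
      c * ∑ x, Ex s3 (fun η3 => g x ω η1 η2 η3) := by
    intro ω η1 η2
    rw [Ex_mul_left s3 c (fun η3 => ∑ x, g x ω η1 η2 η3),
      Ex_sum Finset.univ s3 (fun x η3 => g x ω η1 η2 η3)]
  have e2 : ∀ ω η1, Ex s2 (fun η2 => Ex s3 (fun η3 => c * ∑ x, g x ω η1 η2 η3)) =
      c * ∑ x, Ex s2 (fun η2 => Ex s3 (fun η3 => g x ω η1 η2 η3)) := by
    intro ω η1
    rw [Ex_congr (fun η2 => e1 ω η1 η2),
      Ex_mul_left s2 c (fun η2 => ∑ x, Ex s3 (fun η3 => g x ω η1 η2 η3)),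
      Ex_sum Finset.univ s2 (fun x η2 => Ex s3 (fun η3 => g x ω η1 η2 η3))]
  have e3 : ∀ ω, Ex s1 (fun η1 => Ex s2 (fun η2 => Ex s3 (fun η3 =>
      c * ∑ x, g x ω η1 η2 η3))) =
      c * ∑ x, Ex s1 (fun η1 => Ex s2 (fun η2 => Ex s3 (fun η3 => g x ω η1 η2 η3))) := by
    intro ω
    rw [Ex_congr (fun η1 => e2 ω η1),
      Ex_mul_left s1 c (fun η1 => ∑ x, Ex s2 (fun η2 => Ex s3 (fun η3 => g x ω η1 η2 η3))),
      Ex_sum Finset.univ s1 (fun x η1 => Ex s2 (fun η2 => Ex s3 (fun η3 => g x ω η1 η2 η3)))]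
  rw [Ex_congr (fun ω => e3 ω),
    Ex_mul_left p c (fun ω => ∑ x, Ex s1 (fun η1 => Ex s2 (fun η2 => Ex s3 (fun η3 =>
      g x ω η1 η2 η3)))),
    Ex_sum Finset.univ p (fun x ω => Ex s1 (fun η1 => Ex s2 (fun η2 => Ex s3 (fun η3 =>
      g x ω η1 η2 η3))))]

private lemma B5_pt {ω : E → Bool} {t : ℝ} (ht : 0 < t) (P : V → Prop) [DecidablePred P]
    (hP : ∀ x x', x' ∈ cu ends ω x → P x → P x') (hc : ∀ x, P x → t ≤ cz ends ω x)
    (hE : ∃ x, P x) : (1 : ℝ) ≤ 1 / t * ∑ x, (if P x then (1 : ℝ) else 0) := by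
  obtain ⟨x, hx⟩ := hE
  have h1 : t ≤ ∑ x, (if P x then (1 : ℝ) else 0) := by
    rw [Finset.sum_boole]
    refine (hc x hx).trans ?_
    unfold cz
    have : (cu ends ω x).card ≤ (Finset.univ.filter P).card := by
      apply Finset.card_le_card
      intro x' hx'
      exact Finset.mem_filter.2 ⟨Finset.mem_univ _, hP x x' hx' hx⟩
    exact_mod_cast this
  calc (1 : ℝ) = 1 / t * t := by field_simp
    _ ≤ 1 / t * ∑ x, (if P x then (1 : ℝ) else 0) :=
      mul_le_mul_of_nonneg_left h1 (by positivity)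

open scoped Classical in
/-- Row B5. If such an `x` exists then all points `x'` of its cluster (at least `t` points) have the same property (`cu β x' = cu β x`), so the
indicator is at most `(1/t) ∑ x, ..`; then `uniq_x`, and `Ex_orc` three times. -/
theorem uniq_all {p s1 s2 s3 : ℝ} (h0 : 0 ≤ p) (h1 : p ≤ 1) (h10 : 0 ≤ s1) (h11 : s1 ≤ 1) (h20 : 0 ≤ s2)
    (h21 : s2 ≤ 1) (h30 : 0 ≤ s3) (h31 : s3 ≤ 1) {ι : Type*}
    (𝒵 : Finset ι) (φ : ι → Vb → V) (ψ : ι → Eb → E) (hem : ∀ z ∈ 𝒵, Emb ends endb (φ z) (ψ z))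
    {k2 A2 β t : ℝ} {kk κ j j1 : ℕ} (hk2 : 0 < k2) (hkA : k2 ≤ A2) (ht : 0 < t) (W : Finset Vb)
    (y0 : (E → Bool) → (E → Bool) → V) :
    Ex p (fun ω => Ex s1 (fun η1 => Ex s2 (fun η2 => Ex s3 (fun η3 =>
      if ∃ x, x ∉ cu ends (orc (orc (orc ω η1) η2) η3) (y0 ω η1) ∧
        t ≤ cz ends (orc (orc (orc ω η1) η2) η3) x ∧
        Shb 𝒵 φ ψ endb W k2 A2 β kk κ j ω (cu ends (orc ω η1) (y0 ω η1))
          (cu ends (orc (orc (orc ω η1) η2) η3) x) then (1 : ℝ) else 0)))) ≤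
      1 / t * (((1 - s3) ^ (min (kk + 1) (j1 * κ)) +
        2 ^ j1 * (1 - (1 - (1 - s2) ^ κ) / 2) ^ (2 * j)) *
        ∑ x, Ex (1 - (1 - p) * (1 - s1) * (1 - s2) * (1 - s3)) (fun ω =>
          if t ≤ cz ends ω x then (1 : ℝ) else 0)) := by
  have hstep1 : Ex p (fun ω => Ex s1 (fun η1 => Ex s2 (fun η2 => Ex s3 (fun η3 =>
      if ∃ x, x ∉ cu ends (orc (orc (orc ω η1) η2) η3) (y0 ω η1) ∧
        t ≤ cz ends (orc (orc (orc ω η1) η2) η3) x ∧
        Shb 𝒵 φ ψ endb W k2 A2 β kk κ j ω (cu ends (orc ω η1) (y0 ω η1))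
          (cu ends (orc (orc (orc ω η1) η2) η3) x) then (1 : ℝ) else 0)))) ≤
      Ex p (fun ω => Ex s1 (fun η1 => Ex s2 (fun η2 => Ex s3 (fun η3 =>
        1 / t * ∑ x, (if x ∉ cu ends (orc (orc (orc ω η1) η2) η3) (y0 ω η1) ∧
        t ≤ cz ends (orc (orc (orc ω η1) η2) η3) x ∧
        Shb 𝒵 φ ψ endb W k2 A2 β kk κ j ω (cu ends (orc ω η1) (y0 ω η1))
          (cu ends (orc (orc (orc ω η1) η2) η3) x) then (1 : ℝ) else 0))))) := by
    refine Ex_mono h0 h1 fun ω => Ex_mono h10 h11 fun η1 => Ex_mono h20 h21 fun η2 =>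
      Ex_mono h30 h31 fun η3 => ?_
    split_ifs with hE
    · refine B5_pt (ends := ends) (ω := orc (orc (orc ω η1) η2) η3) ht
        (fun x => x ∉ cu ends (orc (orc (orc ω η1) η2) η3) (y0 ω η1) ∧
        t ≤ cz ends (orc (orc (orc ω η1) η2) η3) x ∧
        Shb 𝒵 φ ψ endb W k2 A2 β kk κ j ω (cu ends (orc ω η1) (y0 ω η1))
          (cu ends (orc (orc (orc ω η1) η2) η3) x)) ?_ (fun x hx => hx.2.1) hE
      rintro x x' hx' ⟨hx1, hx2, hx3⟩
      have hcu := cu_eq hx'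
      refine ⟨fun hmem => hx1 ?_, ?_, ?_⟩
      · have h2 := cu_eq hmem
        rw [← h2, hcu]
        exact self_mem_cu _ _
      · unfold cz
        rw [hcu]
        exact hx2
      · rw [hcu]
        exact hx3
    · refine mul_nonneg (by positivity) (Finset.sum_nonneg fun x _ => ?_)
      split_ifs <;> norm_num
  refine hstep1.trans ?_
  rw [B5_sum4 p s1 s2 s3 (1 / t) (fun x ω η1 η2 η3 =>
    if x ∉ cu ends (orc (orc (orc ω η1) η2) η3) (y0 ω η1) ∧
        t ≤ cz ends (orc (orc (orc ω η1) η2) η3) x ∧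
        Shb 𝒵 φ ψ endb W k2 A2 β kk κ j ω (cu ends (orc ω η1) (y0 ω η1))
          (cu ends (orc (orc (orc ω η1) η2) η3) x) then (1 : ℝ) else 0)]
  refine mul_le_mul_of_nonneg_left ?_ (by positivity)
  rw [Finset.mul_sum]
  refine Finset.sum_le_sum fun x _ => ?_
  rw [B5_orc p s1 s2 s3 (fun ω => if t ≤ cz ends ω x then (1 : ℝ) else 0),
    ← Ex_mul_left p]
  refine Ex_mono h0 h1 fun ω => ?_
  rw [← Ex_mul_left s1]
  refine Ex_mono h10 h11 fun η1 => ?_
  exact uniq_x h20 h21 h30 h31 𝒵 φ ψ hem hk2 hkA W ω η1 (y0 ω η1) x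

end Pool.Agent.PERC29.AE
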