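import Pool.Agent.Lib.MP_29e17e_pr.V.Bx
import Pool.Agent.Lib.MP_29e17e_pr.Y.Bx

set_option autoImplicit false
set_option linter.unusedSectionVars false

/-! Rows 29w-O1 .. 29w-O6: boxes in the torus, for the second cluster. -/

open Finset

namespace Pool.Agent.PERC29.AE

section gen

variable {V : Type*} [Fintype V] [DecidableEq V] {E : Type*} [Fintype E] [DecidableEq E]
  {ends : E → Sym2 V}

/-- Row O1. A box stays good if more edges are opened in the second configuration (`Lam` depends on `ω` only; `cl_mono`). -/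
lemma goodB_mono {ω η η' : E → Bool} (hη : ∀ e, η e = true → η' e = true) (Q : Set V) {ι : Type}
    (T : ι → Finset V) (A2 b : ℝ) (h : GoodB ends ω η Q T A2 b) : GoodB ends ω η' Q T A2 b := by
  obtain ⟨y, hyQ, hy⟩ := h
  refine ⟨y, hyQ, fun c => ⟨(hy c).1, le_trans ?_ (hy c).2⟩⟩
  have horc : ∀ e, orc ω η e = true → orc ω η' e = true := by
    intro e he
    unfold orc at he ⊢
    rcases Bool.or_eq_true_iff.1 he with h1 | h1
    · simp [h1]
    · simp [hη e h1]
  have hsub : cl ends (orc ω η) Q y ⊆ cl ends (orc ω η') Q y := cl_mono horc (Set.Subset.refl _)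
  have hcard : ((open scoped Classical in (Lam ends ω (T c) A2).filter
        (fun x => x ∉ cl ends (orc ω η') Q y))).card ≤
      ((open scoped Classical in (Lam ends ω (T c) A2).filter
        (fun x => x ∉ cl ends (orc ω η) Q y))).card := by
    apply Finset.card_le_card
    intro x hx
    rw [Finset.mem_filter] at hx ⊢
    exact ⟨hx.1, fun hx' => hx.2 (hsub hx')⟩
  exact_mod_cast hcard

/-- Row O1 (second half). So the probability of a bad box decreases with the density of the second configuration: for `s0 ≤ s1 < 1` write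
`s1 = 1 - (1 - s0)(1 - s')` with `s' = (s1 - s0)/(1 - s0)` (`Ex_orc`), `goodB_mono` with `orc_left`; if `s0 = 1` then `s1 = 1`. -/
lemma good_anti {p s0 s1 : ℝ} (h0 : 0 ≤ p) (h1 : p ≤ 1) (hs0 : 0 ≤ s0) (hs : s0 ≤ s1) (hs1 : s1 ≤ 1)
    (Q : Set V) {ι : Type} (T : ι → Finset V) (A2 b : ℝ) :
    P2 p s1 (fun ω η => ¬ GoodB ends ω η Q T A2 b) ≤ P2 p s0 (fun ω η => ¬ GoodB ends ω η Q T A2 b) := by
  classical
  rcases eq_or_lt_of_le (hs.trans hs1) with h | h
  · have hs1' : s1 = s0 := le_antisymm (h ▸ hs1) hs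
    rw [hs1']
  · unfold P2
    apply Ex_mono h0 h1
    intro ω
    set s' : ℝ := (s1 - s0) / (1 - s0) with hs'
    have hpos : 0 < 1 - s0 := by linarith
    have hs'0 : 0 ≤ s' := div_nonneg (by linarith) hpos.le
    have hs'1 : s' ≤ 1 := by
      rw [hs', div_le_one hpos]
      linarith
    have heq : s1 = 1 - (1 - s0) * (1 - s') := by
      rw [hs']
      field_simp
      ring
    rw [heq, Ex_orc]
    apply Ex_mono hs0 h.le
    intro η
    refine (Ex_mono hs'0 hs'1 ?_).trans_eq (Ex_const s' _)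
    intro η'
    by_cases hg : GoodB ends ω η Q T A2 b
    · have hg' : GoodB ends ω (orc η η') Q T A2 b := goodB_mono (orc_left η η') Q T A2 b hg
      simp [hg, hg']
    · by_cases hg' : GoodB ends ω (orc η η') Q T A2 b <;> simp [hg, hg']

/-- Row O2. In a good box (whole box `Q = univ`) the volume of the component of the main vertex is large: the points of `Lam ends ω T A2'` (cluster
inside `T ⊆ W` with at least `A2' ≥ A2` points, so `A2 ≤ cz ω`; `cl_mono`), at least `4 b`, of which at most `b` are outside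
`cl (orc ω η) univ y = cu (orc ω η) y`. -/
lemma vol_good {ω η : E → Bool} {ι : Type} (T : ι → Finset V) (W : Finset V) (A2 A2' b : ℝ) (hA : A2 ≤ A2')
    (c : ι) (hTW : T c ⊆ W) (y : V)
    (hy : ∀ c, 4 * b ≤ ((Lam ends ω (T c) A2').card : ℝ) ∧
      ((open scoped Classical in (Lam ends ω (T c) A2').filter
        (fun x => x ∉ cl ends (orc ω η) Set.univ y)).card : ℝ) ≤ b) :
    3 * b ≤ vol ends ω W A2 (cu ends (orc ω η) y) := by
  classical
  obtain ⟨h1, h2⟩ := hy c
  have h3 : ((Lam ends ω (T c) A2').card : ℝ) =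
      (((Lam ends ω (T c) A2').filter (fun x => x ∈ cl ends (orc ω η) Set.univ y)).card : ℝ) +
      (((Lam ends ω (T c) A2').filter (fun x => x ∉ cl ends (orc ω η) Set.univ y)).card : ℝ) := by
    rw [← Nat.cast_add, Finset.card_filter_add_card_filter_not]
  have h4 : (((Lam ends ω (T c) A2').filter (fun x => x ∈ cl ends (orc ω η) Set.univ y)).card : ℝ) ≤
      vol ends ω W A2 (cu ends (orc ω η) y) := by
    unfold vol
    rw [Nat.cast_le]
    apply Finset.card_le_card
    intro x hx
    rw [Finset.mem_filter] at hx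
    obtain ⟨hx1, hx2⟩ := hx
    unfold Lam at hx1
    rw [Finset.mem_filter] at hx1
    rw [Finset.mem_filter]
    refine ⟨hTW hx1.1, hx2, hA.trans (hx1.2.trans ?_)⟩
    unfold cz
    rw [Nat.cast_le]
    exact Finset.card_le_card (cl_mono (fun e he => he) (Set.subset_univ _))
  have h5 : (((Lam ends ω (T c) A2').filter (fun x => x ∉ cl ends (orc ω η) Set.univ y)).card : ℝ) ≤ b := by
    exact h2
  linarith

end gen

section emb

variable {V V' : Type} [Fintype V] [DecidableEq V] [Fintype V'] [DecidableEq V']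
  {G : SimpleGraph V} {G' : SimpleGraph V'} [Fintype G.edgeSet] [Fintype G'.edgeSet]

/-- Row O3. An induced embedding of graphs is an embedding in the sense of `Emb` (`gends G = Subtype.val`, `mapEdgeSet`). -/
lemma emb_of (φ : G ↪g G') : Emb (gends G') (gends G) φ (fun e => φ.mapEdgeSet e) := by
  refine ⟨φ.injective, φ.mapEdgeSet.injective, fun e => ?_⟩
  obtain ⟨e, he⟩ := e
  rfl

/-- Row O3 (second half). The volume of the component of `φ y` in the large graph is at least that of the component of `y` in the box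
(`cu_map`: a point of the component of `y` in the box for `orc (pul ω) (pul η) = pul (orc ω η)` is mapped to the component of `φ y`). -/
lemma vol_emb (φ : G ↪g G') (ω η : G'.edgeSet → Bool) (W : Finset V) (A2 : ℝ) (y : V) :
    vol (gends G) (pul φ ω) W A2 (cu (gends G) (orc (pul φ ω) (pul φ η)) y) ≤
      vol (gends G) (pul φ ω) W A2 (pre φ (cu (gends G') (orc ω η) (φ y))) := by
  classical
  have h := emb_of (G := G) (G' := G') φ
  have e1 : orc (pul φ ω) (pul φ η) = pl (fun e => φ.mapEdgeSet e) (orc ω η) := rfl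
  rw [e1]
  unfold vol
  refine Nat.cast_le.2 (Finset.card_le_card fun x hx => ?_)
  rw [Finset.mem_filter] at hx ⊢
  refine ⟨hx.1, ?_, hx.2.2⟩
  unfold pre
  rw [Finset.mem_filter]
  exact ⟨Finset.mem_univ _, cu_map h hx.2.1⟩

end emb

section box

/-- The inner boundary of a box. -/
def bdy (d l : ℕ) : Finset (Fin d → Fin l) :=
  Finset.univ.filter (fun x => ∃ i, (x i : ℕ) = 0 ∨ (x i : ℕ) + 1 = l)

/-- Row O4. All edges of the torus at a vertex of the box outside the inner boundary are edges of the box: the other end is `φ u ± 1` in one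
coordinate, so it is `φ u'` with `u'` a neighbour of `u` in the box; `φ.map_rel_iff`, `φ.mapEdgeSet`. -/
lemma tor_loc {d l n : ℕ} [NeZero n] [Fintype (boxG d l).edgeSet] [Fintype (torG d n).edgeSet]
    (z : Fin d → ℕ) (hl : l < n) (φ : boxG d l ↪g torG d n)
    (hφ : ∀ x i, φ x i = ((z i + (x i : ℕ) : ℕ) : ZMod n)) (e : (torG d n).edgeSet)
    (u : Fin d → Fin l) (hu : u ∉ bdy d l) (he : φ u ∈ gends (torG d n) e) :
    ∃ e', (fun e => φ.mapEdgeSet e) e' = e := by
  obtain ⟨e0, he0⟩ := e
  have he1 : φ u ∈ e0 := he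
  obtain ⟨w, rfl⟩ := Sym2.mem_iff_exists.1 he1
  have hadj : (torG d n).Adj (φ u) w := (SimpleGraph.mem_edgeSet _).1 he0
  have hb : ∀ i, (u i : ℕ) ≠ 0 ∧ (u i : ℕ) + 1 ≠ l := by
    intro i
    constructor
    · intro h
      exact hu (Finset.mem_filter.2 ⟨Finset.mem_univ _, i, Or.inl h⟩)
    · intro h
      exact hu (Finset.mem_filter.2 ⟨Finset.mem_univ _, i, Or.inr h⟩)
  have key : ∃ u' : Fin d → Fin l, φ u' = w := by
    obtain ⟨hne, i, hi⟩ := hadj
    have hi0 := (hb i).1
    have hi1 := (hb i).2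
    have hi2 := (u i).isLt
    rcases hi with hi | hi
    · refine ⟨Function.update u i ⟨(u i : ℕ) + 1, by omega⟩, ?_⟩
      funext j
      rw [hφ, hi]
      by_cases hj : j = i
      · subst hj
        rw [Function.update_self, Pi.add_apply, Pi.single_eq_same, hφ]
        push_cast
        ring
      · rw [Function.update_of_ne hj, Pi.add_apply, Pi.single_eq_of_ne hj, hφ, add_zero]
    · refine ⟨Function.update u i ⟨(u i : ℕ) - 1, by omega⟩, ?_⟩
      funext j
      have hj2 := congrFun hi j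
      rw [hφ, Pi.add_apply] at hj2
      rw [hφ]
      by_cases hj : j = i
      · subst hj
        rw [Pi.single_eq_same] at hj2
        rw [Function.update_self]
        have h3 : z j + (u j : ℕ) = z j + ((u j : ℕ) - 1) + 1 := by omega
        rw [h3] at hj2
        push_cast at hj2 ⊢
        exact add_right_cancel hj2
      · rw [Pi.single_eq_of_ne hj, add_zero] at hj2
        rw [Function.update_of_ne hj]
        exact hj2
  obtain ⟨u', rfl⟩ := key
  have hbox : (boxG d l).Adj u u' := φ.map_rel_iff.1 hadj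
  refine ⟨⟨s(u, u'), (SimpleGraph.mem_edgeSet _).2 hbox⟩, ?_⟩
  apply Subtype.ext
  rfl

private lemma O5_iv {N lo hi : ℕ} (h : hi ≤ N) :
    (Finset.univ.filter (fun k : Fin N => lo ≤ (k : ℕ) ∧ (k : ℕ) < hi)).card = hi - lo := by
  rw [← Nat.card_Ico, ← Finset.card_map Fin.valEmbedding]
  congr 1
  ext k
  simp only [Finset.mem_map, Finset.mem_filter, Finset.mem_univ, true_and, Fin.valEmbedding_apply,
    Finset.mem_Ico]
  constructor
  · rintro ⟨a, ha, rfl⟩
    exact ha
  · intro hk
    exact ⟨⟨k, by omega⟩, hk, rfl⟩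

open scoped Classical in
/-- Row O5. The cube `T = bT d m (fun _ => false)` has `m^d` points (product of intervals `[3m, 4m)`), and the cubes of the sites `z ∈ [0, L)^d`
are disjoint (`tor_cube`), so all but `n^d - (m L)^d` points of the torus are in them. -/
lemma bT_card {d m : ℕ} (c : Fin d → Bool) : (bT d m c).card = m ^ d := by
  have h : bT d m c = Fintype.piFinset (fun i : Fin d => Finset.univ.filter (fun k : Fin (8 * m) =>
      m * (if c i = true then 4 else 3) ≤ (k : ℕ) ∧ (k : ℕ) < m * (if c i = true then 5 else 4))) := by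
    ext x
    simp [bT, Fintype.mem_piFinset]
  rw [h, Fintype.card_piFinset]
  rw [Finset.prod_congr rfl (g := fun _ => m)]
  · simp
  · intro i _
    rw [O5_iv]
    · by_cases hc : c i = true
      · simp only [hc, if_true]
        omega
      · simp only [hc]
        simp only [Bool.false_eq_true, if_false]
        omega
    · by_cases hc : c i = true
      · simp only [hc, if_true]
        omega
      · simp only [hc]
        simp only [Bool.false_eq_true, if_false]
        omega

open scoped Classical in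
lemma slab_card {d m n L : ℕ} [NeZero n] (φ : (Fin d → ℕ) → (boxG d (8 * m) ↪g torG d n))
    (hL : m * L + 7 * m ≤ n)
    (hφ : ∀ z, (∀ i, z i < L) → ∀ x i, φ z x i = ((m * z i + (x i : ℕ) : ℕ) : ZMod n)) :
    (((Finset.univ : Finset (Fin d → ZMod n)) \
      (Fintype.piFinset (fun _ : Fin d => Finset.range L)).biUnion
        (fun z => (bT d m (fun _ => false)).map (φ z).toEmbedding)).card : ℝ) =
      (n : ℝ) ^ d - ((m : ℝ) * L) ^ d := by
  classical
  have hz : ∀ z ∈ Fintype.piFinset (fun _ : Fin d => Finset.range L), ∀ i, z i < L := by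
    intro z hz i
    exact Finset.mem_range.1 (Fintype.mem_piFinset.1 hz i)
  have hz8 : ∀ z ∈ Fintype.piFinset (fun _ : Fin d => Finset.range L), ∀ i, m * z i + 8 * m ≤ n := by
    intro z hz' i
    have h1 : z i + 1 ≤ L := hz z hz' i
    have h2 := Nat.mul_le_mul_left m h1
    rw [Nat.mul_add] at h2
    omega
  have hcard : ((Fintype.piFinset (fun _ : Fin d => Finset.range L)).biUnion
      (fun z => (bT d m (fun _ => false)).map (φ z).toEmbedding)).card = (m * L) ^ d := by
    rw [Finset.card_biUnion]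
    · simp only [Finset.card_map, bT_card, Finset.sum_const, Fintype.card_piFinset, Finset.card_range,
        Finset.prod_const, Finset.card_univ, Fintype.card_fin, smul_eq_mul]
      rw [mul_pow, mul_comm]
    · intro z h1 z' h2 hne
      exact tor_cube z z' (hz8 z h1) (hz8 z' h2) (φ z) (φ z') (hφ z (hz z h1)) (hφ z' (hz z' h2)) hne
  have huniv : Fintype.card (Fin d → ZMod n) = n ^ d := by
    rw [Fintype.card_fun, ZMod.card, Fintype.card_fin]
  have hle : (m * L) ^ d ≤ n ^ d := by
    rw [← hcard, ← huniv]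
    exact Finset.card_le_univ _
  have h3 : ((Finset.univ : Finset (Fin d → ZMod n)) \
      (Fintype.piFinset (fun _ : Fin d => Finset.range L)).biUnion
        (fun z => (bT d m (fun _ => false)).map (φ z).toEmbedding)).card = n ^ d - (m * L) ^ d := by
    rw [← Finset.compl_eq_univ_sdiff, Finset.card_compl, hcard, huniv]
  rw [h3, Nat.cast_sub hle]
  push_cast
  ring

/-- Row O5 (second half). The degree of the torus: `∑ y, nb x y ≤ 2 d` (`nb_eq`; the neighbours of `x` are `x ± e_i`). -/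
lemma tor_deg {d n : ℕ} [NeZero n] [Fintype (torG d n).edgeSet] (x : Fin d → ZMod n) :
    ∑ y, nb (gends (torG d n)) x y ≤ 2 * d := by
  classical
  have h1 : ∑ y, nb (gends (torG d n)) x y =
      ((Finset.univ.filter (fun y => (torG d n).Adj x y)).card : ℝ) := by
    rw [Finset.card_filter, Nat.cast_sum]
    refine Finset.sum_congr rfl fun y _ => ?_
    rw [nb_eq]
    split_ifs <;> simp
  rw [h1]
  have h2 : Finset.univ.filter (fun y => (torG d n).Adj x y) ⊆
      (Finset.univ : Finset (Fin d × Bool)).image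
        (fun q => if q.2 = true then x + Pi.single q.1 1 else x - Pi.single q.1 1) := by
    intro y hy
    obtain ⟨-, i, hi⟩ := (Finset.mem_filter.1 hy).2
    rw [Finset.mem_image]
    rcases hi with hi | hi
    · exact ⟨(i, true), Finset.mem_univ _, by simp [hi]⟩
    · refine ⟨(i, false), Finset.mem_univ _, ?_⟩
      simp only [Bool.false_eq_true, if_false]
      rw [hi]
      simp
  have h3 : (Finset.univ.filter (fun y => (torG d n).Adj x y)).card ≤ 2 * d := by
    refine (Finset.card_le_card h2).trans (Finset.card_image_le.trans ?_)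
    rw [Finset.card_univ, Fintype.card_prod, Fintype.card_fin, Fintype.card_bool]
    omega
  exact_mod_cast h3

/-- Row O6. The choice of the number of top blocks: for `R0 ≥ 1` and `X ≥ R0` there are `k`, `R` with `R0 ≤ R < 40 R0` (so `R^d ≤ (40 R0)^d`),
`R * 40^k ≤ X` and `X (1 - 1/R0) - 1 ≤ R 40^k`: `k` maximal with `R0 * 40^k ≤ X`, `R = X / 40^k` (quotient). -/
lemma top_choice (R0 X : ℕ) (hR0 : 1 ≤ R0) (hX : R0 ≤ X) :
    ∃ k R : ℕ, R0 ≤ R ∧ R < 40 * R0 ∧ R * 40 ^ k ≤ X ∧ (X : ℝ) * (1 - 1 / R0) ≤ (R : ℝ) * 40 ^ k := by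
  have hex : ∃ k, R0 * 40 ^ k ≤ X ∧ X < R0 * 40 ^ (k + 1) := by
    have hb : ∃ j, X < R0 * 40 ^ j := by
      refine ⟨X, ?_⟩
      have h1 : X < 40 ^ X := Nat.lt_pow_self (by norm_num)
      calc X < 40 ^ X := h1
        _ = 1 * 40 ^ X := (one_mul _).symm
        _ ≤ R0 * 40 ^ X := Nat.mul_le_mul_right _ hR0
    classical
    have hj := Nat.find_spec hb
    have h0 : Nat.find hb ≠ 0 := by
      intro h
      rw [h, pow_zero, mul_one] at hj
      omega
    obtain ⟨k, hk⟩ := Nat.exists_eq_succ_of_ne_zero h0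
    refine ⟨k, ?_, ?_⟩
    · have h2 := Nat.find_min hb (m := k) (by omega)
      exact not_lt.1 h2
    · rw [hk] at hj
      exact hj
  obtain ⟨k, hk1, hk2⟩ := hex
  have hp : 0 < 40 ^ k := by positivity
  refine ⟨k, X / 40 ^ k, ?_, ?_, ?_, ?_⟩
  · rw [Nat.le_div_iff_mul_le hp]
    exact hk1
  · rw [Nat.div_lt_iff_lt_mul hp]
    calc X < R0 * 40 ^ (k + 1) := hk2
      _ = 40 * R0 * 40 ^ k := by ring
  · exact Nat.div_mul_le_self _ _
  · have h3 : X < (X / 40 ^ k) * 40 ^ k + 40 ^ k := by
      have := Nat.lt_div_mul_add (a := X) hp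
      exact this
    have h4 : (X : ℝ) < ((X / 40 ^ k : ℕ) : ℝ) * 40 ^ k + 40 ^ k := by
      exact_mod_cast h3
    have hR : (0 : ℝ) < R0 := by exact_mod_cast (by omega : 0 < R0)
    have h5 : (40 : ℝ) ^ k ≤ X / R0 := by
      rw [le_div_iff₀ hR]
      have : ((R0 * 40 ^ k : ℕ) : ℝ) ≤ X := by exact_mod_cast hk1
      push_cast at this
      linarith
    have h6 : (X : ℝ) * (1 - 1 / R0) = X - X / R0 := by
      field_simp
    rw [h6]
    linarith

/-- Row O6 (second half). Bernoulli: `1 - (1 - x)^d ≤ d x`, so with `X + 8 = n / m` (quotient), `L = R * 40^k ≥ X (1 - 1/R0)`: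
`n^d - (m L)^d ≤ d (9 m / n + 1/R0) n^d` (`m L ≥ m X (1 - 1/R0) ≥ (n - 9 m)(1 - 1/R0) ≥ n (1 - 9m/n - 1/R0)`). -/
lemma slab_small {d m n X : ℕ} (hm : 1 ≤ m) (hn : 9 * m ≤ n) (hX : X + 8 = n / m) (R0 : ℕ) (hR0 : 1 ≤ R0) {L : ℝ}
    (hL : (X : ℝ) * (1 - 1 / R0) ≤ L) (hL2 : L ≤ X) :
    (n : ℝ) ^ d - ((m : ℝ) * L) ^ d ≤ d * (9 * m / n + 1 / R0) * (n : ℝ) ^ d := by
  have hmR : (1 : ℝ) ≤ m := by exact_mod_cast hm
  have hnR : (9 : ℝ) * m ≤ n := by exact_mod_cast hn
  have hn0 : (0 : ℝ) < n := by linarith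
  have hR : (1 : ℝ) ≤ R0 := by exact_mod_cast hR0
  have hR1 : 1 / (R0 : ℝ) ≤ 1 := by
    rw [div_le_one (by linarith)]
    exact hR
  have hR2 : 0 ≤ 1 / (R0 : ℝ) := by positivity
  have hX0 : (0 : ℝ) ≤ X := Nat.cast_nonneg _
  have hmX : (n : ℝ) - 9 * m ≤ m * X := by
    have h1 : n < (n / m) * m + m := Nat.lt_div_mul_add (a := n) (by omega)
    rw [← hX] at h1
    have h2 : (n : ℝ) < ((X : ℝ) + 8) * m + m := by exact_mod_cast h1
    linarith
  have hL0 : 0 ≤ L := le_trans (mul_nonneg hX0 (by linarith)) hL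
  have hmL : (n : ℝ) - 9 * m - n / R0 ≤ m * L := by
    have h3 : (m : ℝ) * (X * (1 - 1 / R0)) ≤ m * L := mul_le_mul_of_nonneg_left hL (by linarith)
    have h4 : ((n : ℝ) - 9 * m) * (1 - 1 / R0) ≤ m * X * (1 - 1 / R0) :=
      mul_le_mul_of_nonneg_right hmX (by linarith)
    have h5 : ((n : ℝ) - 9 * m) * (1 - 1 / R0) = n - 9 * m - n / R0 + 9 * m * (1 / R0) := by ring
    have h6 : 0 ≤ 9 * (m : ℝ) * (1 / R0) := by positivity
    have h7 : (m : ℝ) * (X * (1 - 1 / R0)) = m * X * (1 - 1 / R0) := by ring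
    linarith
  have hy : (m : ℝ) * L = n * (m * L / n) := by
    field_simp
  have hy1 : 1 - (9 * (m : ℝ) / n + 1 / R0) ≤ m * L / n := by
    rw [le_div_iff₀ hn0]
    have h8 : (1 - (9 * (m : ℝ) / n + 1 / R0)) * n = n - 9 * m - n / R0 := by
      field_simp
      ring
    rw [h8]
    exact hmL
  have hy0 : 0 ≤ (m : ℝ) * L / n := by positivity
  have hber := one_add_mul_le_pow (a := (m : ℝ) * L / n - 1) (by linarith) d
  have h9 : 1 + ((m : ℝ) * L / n - 1) = m * L / n := by ring
  rw [h9] at hber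
  have hd0 : (0 : ℝ) ≤ d := Nat.cast_nonneg _
  have h10 : (d : ℝ) * (1 - (m : ℝ) * L / n) ≤ d * (9 * (m : ℝ) / n + 1 / R0) :=
    mul_le_mul_of_nonneg_left (by linarith) hd0
  have h11 : 1 - ((m : ℝ) * L / n) ^ d ≤ d * (9 * (m : ℝ) / n + 1 / R0) := by linarith
  have hnd : (0 : ℝ) ≤ (n : ℝ) ^ d := by positivity
  calc (n : ℝ) ^ d - ((m : ℝ) * L) ^ d = (n : ℝ) ^ d * (1 - ((m : ℝ) * L / n) ^ d) := by
        rw [hy, mul_pow]
        field_simp
    _ ≤ (n : ℝ) ^ d * (d * (9 * (m : ℝ) / n + 1 / R0)) := mul_le_mul_of_nonneg_left h11 hnd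
    _ = _ := by ring

end box

end Pool.Agent.PERC29.AE
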