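import Pool.Agent.Lib.MP_29e17e_pr.Y.Cm
import Pool.Agent.Lib.MP_29e17e_pr.Y.To

set_option autoImplicit false
set_option linter.unusedSectionVars false

/-! Rows 29y-G1 .. 29y-G6: arms, boxes and tori (page 29y_helper62.md, Section 2). -/

open Finset

namespace Pool.Agent.PERC29.AE

section gen

variable {V : Type*} [Fintype V] [DecidableEq V] {E : Type*} [Fintype E] [DecidableEq E]
  {ends : E → Sym2 V}
  {Vb : Type*} [Fintype Vb] [DecidableEq Vb] {Eb : Type*} [Fintype Eb] [DecidableEq Eb]
  {endb : Eb → Sym2 Vb}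

/-- Row G1. If the cluster of `v` in the box does not meet the boundary then the cluster of `φ v` is its image (this is in the proof of
`cz_loc`, finished file 29w_B2.lean). -/
lemma cu_loc {φ : Vb → V} {ψ : Eb → E} (h : Emb ends endb φ ψ) (Bd : Finset Vb)
    (hloc : ∀ e u, u ∉ Bd → φ u ∈ ends e → ∃ e', ψ e' = e) (ω : E → Bool) (v : Vb)
    (hv : Disjoint (cu endb (pl ψ ω) v) Bd) :
    cu ends ω (φ v) = (cu endb (pl ψ ω) v).image φ := by
  have key : ∀ w, Rch ends ω Set.univ (φ v) w → ∃ u, φ u = w ∧ u ∈ cu endb (pl ψ ω) v := by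
    intro w hw
    induction hw with
    | refl => exact ⟨v, rfl, self_mem_cu _ v⟩
    | tail _ hbc ih =>
      rename_i b c _
      obtain ⟨u, hu, hu2⟩ := ih
      obtain ⟨-, -, e, he, hends⟩ := hbc
      have huB : u ∉ Bd := fun hB => (Finset.disjoint_left.1 hv) hu2 hB
      obtain ⟨e', he'⟩ := hloc e u huB (by rw [hends, hu]; exact Sym2.mem_mk_left b c)
      have hm := h.map e'
      rw [he', hends] at hm
      induction hq : endb e' using Sym2.ind with
      | _ r s =>
        rw [hq, Sym2.map_mk] at hm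
        have hω : pl ψ ω e' = true := by
          unfold pl
          rw [he']
          exact he
        have hst : ∀ q, endb e' = s(u, q) → q ∈ cu endb (pl ψ ω) v := by
          intro q hq'
          rw [mem_cu] at hu2 ⊢
          exact Relation.ReflTransGen.tail hu2 ⟨Set.mem_univ _, Set.mem_univ _, e', hω, hq'⟩
        rcases Sym2.eq_iff.1 hm with ⟨h1, h2⟩ | ⟨h1, h2⟩
        · have h3 : u = r := h.inj (hu.trans h1)
          exact ⟨s, h2.symm, hst s (by rw [hq, h3])⟩
        · have h3 : u = s := h.inj (hu.trans h1)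
          exact ⟨r, h2.symm, hst r (by rw [hq, h3, Sym2.eq_swap])⟩
  ext w
  rw [Finset.mem_image]
  constructor
  · intro hw
    obtain ⟨u, h1, h2⟩ := key w (mem_cu.1 hw)
    exact ⟨u, h2, h1⟩
  · rintro ⟨u, h1, rfl⟩
    exact cu_map h h1

open scoped Classical in
/-- Row G1 (second half). The event that the cluster of `v` in the box meets `Bd` and the cluster of `φ v` is small depends only on the edges with an
endpoint in the cluster of `φ v`: `cu ends ω (φ v)` does (`cl_eq_dep` with `S = univ`), and the cluster of `v` in the box is mapped into it (`cu_map`), so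
`cu endb (pl ψ ω) v` does not change either (`cl_eq_dep`; an edge `e` of the box with an endpoint `u` in it has `φ u ∈ ends (ψ e)`). -/
lemma arm_local {φ : Vb → V} {ψ : Eb → E} (h : Emb ends endb φ ψ) (Bd : Finset Vb) (N : ℝ) (v : Vb) :
    Lcx ends (φ v) (fun ω => if ¬ Disjoint (cu endb (pl ψ ω) v) Bd ∧ cz ends ω (φ v) < N
      then (1 : ℝ) else 0) := by
  intro ω ω' hω
  have h1 : cu ends ω' (φ v) = cu ends ω (φ v) := by
    have h2 : cl ends ω' Set.univ (φ v) = cu ends ω (φ v) := by
      refine cl_eq_dep (ω := ω) ?_ rfl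
      intro e a b he _ _ ha
      refine hω e ?_
      unfold tch
      rw [Finset.mem_filter]
      exact ⟨Finset.mem_univ _, a, ha, by rw [he]; exact Sym2.mem_mk_left a b⟩
    exact h2
  have h3 : cu endb (pl ψ ω') v = cu endb (pl ψ ω) v := by
    have h4 : cl endb (pl ψ ω') Set.univ v = cu endb (pl ψ ω) v := by
      refine cl_eq_dep (ω := pl ψ ω) ?_ rfl
      intro e a b he _ _ ha
      refine hω (ψ e) ?_
      unfold tch
      rw [Finset.mem_filter]
      exact ⟨Finset.mem_univ _, φ a, cu_map h ha, by rw [h.map e, he, Sym2.map_mk]; exact Sym2.mem_mk_left _ _⟩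
    exact h4
  have h5 : cz ends ω' (φ v) = cz ends ω (φ v) := by
    unfold cz
    rw [h1]
  simp only [h3, h5]

/-- Row G2. `mxc ≤ K + #{x | K < |C(x)|}`: if the largest cluster has more than `K` points then all of them are counted. -/
lemma mxc_le (K : ℝ) (hK : 0 ≤ K) (ω : E → Bool) :
    mxc ends ω ≤ K + ∑ x, (open scoped Classical in if K < cz ends ω x then (1 : ℝ) else 0) := by
  classical
  have hs : ∀ x, 0 ≤ (if K < cz ends ω x then (1 : ℝ) else 0) := by
    intro x
    split_ifs <;> norm_num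
  have hsum : 0 ≤ ∑ x, (if K < cz ends ω x then (1 : ℝ) else 0) :=
    Finset.sum_nonneg fun x _ => hs x
  by_cases h : mxc ends ω ≤ K
  · refine h.trans (le_add_of_nonneg_right ?_)
    refine hsum.trans (le_of_eq (Finset.sum_congr rfl fun x _ => ?_))
    congr 1
  · rw [not_le] at h
    have hne : (Finset.univ : Finset V).Nonempty := by
      by_contra h0
      rw [Finset.not_nonempty_iff_eq_empty] at h0
      have h1 : mxc ends ω = 0 := by
        unfold mxc
        rw [h0, Finset.sup_empty]
        simp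
      rw [h1] at h
      linarith
    obtain ⟨x0, -, hx0⟩ := Finset.exists_mem_eq_sup (Finset.univ : Finset V) hne
      (fun x => (cu ends ω x).card)
    have hm : mxc ends ω = ((cu ends ω x0).card : ℝ) := by
      unfold mxc
      rw [hx0]
    have h1 : ∀ y ∈ cu ends ω x0, (if K < cz ends ω y then (1 : ℝ) else 0) = 1 := by
      intro y hy
      rw [if_pos]
      unfold cz
      rw [cu_eq hy, ← hm]
      exact h
    have h2 : ((cu ends ω x0).card : ℝ) = ∑ y ∈ cu ends ω x0,
        (if K < cz ends ω y then (1 : ℝ) else 0) := by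
      rw [Finset.sum_congr rfl h1]
      simp
    have h3 : ∑ y ∈ cu ends ω x0, (if K < cz ends ω y then (1 : ℝ) else 0) ≤
        ∑ y, (if K < cz ends ω y then (1 : ℝ) else 0) :=
      Finset.sum_le_sum_of_subset_of_nonneg (Finset.subset_univ _) fun y _ _ => hs y
    rw [hm, h2]
    refine (h3.trans (le_add_of_nonneg_left hK)).trans (le_of_eq ?_)
    congr 1

end gen

section box

/-- The centre of the box of side `2 M + 1`. -/
def ctr (d M : ℕ) : Fin d → Fin (2 * M + 1) := fun _ => ⟨M, by omega⟩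

/-- The centre is joined to the boundary in the box of side `2 M + 1`. -/
def arm (d M : ℕ) (ω : (boxG d (2 * M + 1)).edgeSet → Bool)
    [Fintype (boxG d (2 * M + 1)).edgeSet] : Prop :=
  ¬ Disjoint (cu (gends (boxG d (2 * M + 1))) ω (ctr d M)) (bdy d (2 * M + 1))

open scoped Classical in
/-- The one-arm probability. -/
noncomputable def aM (d M : ℕ) [Fintype (boxG d (2 * M + 1)).edgeSet] (p : ℝ) : ℝ :=
  Ex p (fun ω : (boxG d (2 * M + 1)).edgeSet → Bool => if arm d M ω then (1 : ℝ) else 0)

open scoped Classical in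
/-- The probability that the centre is joined to the boundary or has a large cluster. -/
noncomputable def piM (d M : ℕ) [Fintype (boxG d (2 * M + 1)).edgeSet] (p N : ℝ) : ℝ :=
  Ex p (fun ω : (boxG d (2 * M + 1)).edgeSet → Bool =>
    if arm d M ω ∨ N ≤ cz (gends (boxG d (2 * M + 1))) ω (ctr d M) then (1 : ℝ) else 0)

open scoped Classical in
/-- The tail of the cluster size on the torus. -/
noncomputable def fT (d n : ℕ) [NeZero n] [Fintype (torG d n).edgeSet] (p N : ℝ) : ℝ :=
  Ex p (fun ω => if N ≤ cz (gends (torG d n)) ω 0 then (1 : ℝ) else 0)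

/-- Row G3. A box in a box: all edges at a vertex off the inner boundary are edges of the small box (compare `tor_loc`, finished file 29w_O4.lean). -/
lemma box_loc {d l n : ℕ} [Fintype (boxG d l).edgeSet] [Fintype (boxG d n).edgeSet] (z : Fin d → ℕ)
    (φ : boxG d l ↪g boxG d n) (hφ : ∀ x i, ((φ x i : Fin n) : ℕ) = z i + (x i : ℕ))
    (e : (boxG d n).edgeSet) (u : Fin d → Fin l) (hu : u ∉ bdy d l)
    (he : φ u ∈ gends (boxG d n) e) : ∃ e', (fun e => φ.mapEdgeSet e) e' = e := by
  obtain ⟨e0, he0⟩ := e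
  have he1 : φ u ∈ e0 := he
  obtain ⟨w, rfl⟩ := Sym2.mem_iff_exists.1 he1
  have hadj : (boxG d n).Adj (φ u) w := (SimpleGraph.mem_edgeSet _).1 he0
  have hb : ∀ i, (u i : ℕ) ≠ 0 ∧ (u i : ℕ) + 1 ≠ l := by
    intro i
    constructor
    · intro h
      exact hu (Finset.mem_filter.2 ⟨Finset.mem_univ _, i, Or.inl h⟩)
    · intro h
      exact hu (Finset.mem_filter.2 ⟨Finset.mem_univ _, i, Or.inr h⟩)
  have key : ∃ u' : Fin d → Fin l, φ u' = w := by
    obtain ⟨i, hi, hj⟩ := hadj
    have hi0 := (hb i).1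
    have hi1 := (hb i).2
    have hi2 := (u i).isLt
    have hi3 := hφ u i
    rcases hi with hi | hi
    · refine ⟨Function.update u i ⟨(u i : ℕ) + 1, by omega⟩, ?_⟩
      funext j
      apply Fin.ext
      rw [hφ]
      by_cases hji : j = i
      · subst hji
        rw [Function.update_self]
        simp only
        omega
      · rw [Function.update_of_ne hji, ← hj j hji, hφ]
    · refine ⟨Function.update u i ⟨(u i : ℕ) - 1, by omega⟩, ?_⟩
      funext j
      apply Fin.ext
      rw [hφ]
      by_cases hji : j = i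
      · subst hji
        rw [Function.update_self]
        simp only
        omega
      · rw [Function.update_of_ne hji, ← hj j hji, hφ]
  obtain ⟨u', rfl⟩ := key
  have hbox : (boxG d l).Adj u u' := φ.map_rel_iff.1 hadj
  refine ⟨⟨s(u, u'), (SimpleGraph.mem_edgeSet _).2 hbox⟩, ?_⟩
  apply Subtype.ext
  rfl

open scoped Classical in
/-- Row G3 (second half). The one-arm event for a vertex `x` of the cube `[3m, 4m)^d` of the box of side `8 m`: embed the box of side `2 (3m) + 1` at
`z i = x i - 3 m` (`box_box`; the centre is mapped to `x`). If the centre is not joined to the boundary of the small box then (`cu_loc`, `box_loc`, `emb_of`) the cluster of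
`x` consists of images of interior points, which are interior points of the large box. `Ex_pul`. -/
lemma arm_box {d m : ℕ} (hm : 1 ≤ m) [Fintype (boxG d (8 * m)).edgeSet]
    [Fintype (boxG d (2 * (3 * m) + 1)).edgeSet] {p : ℝ} (h0 : 0 ≤ p) (h1 : p ≤ 1)
    (x : Fin d → Fin (8 * m)) (hx : x ∈ bT d m (fun _ => false)) :
    Ex p (fun ω : (boxG d (8 * m)).edgeSet → Bool =>
      if ¬ Disjoint (cu (gends (boxG d (8 * m))) ω x) (bdy d (8 * m)) then (1 : ℝ) else 0) ≤
      aM d (3 * m) p := by
  have hx3 : ∀ i, 3 * m ≤ (x i : ℕ) ∧ (x i : ℕ) < 4 * m := by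
    intro i
    have h := (Finset.mem_filter.1 hx).2 i
    simp only [Bool.false_eq_true, if_false] at h
    constructor
    · linarith [h.1]
    · linarith [h.2]
  obtain ⟨φ, hφ⟩ := box_box (d := d) (l := 2 * (3 * m) + 1) (n := 8 * m)
    (fun i => (x i : ℕ) - 3 * m) (by
      intro i
      have := hx3 i
      omega)
  have hctr : φ (ctr d (3 * m)) = x := by
    funext i
    apply Fin.ext
    rw [hφ]
    have := hx3 i
    simp only [ctr]
    omega
  unfold aM
  rw [← Ex_pul φ]
  apply Ex_mono h0 h1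
  intro ω
  by_cases ha : arm d (3 * m) (pul φ ω)
  · rw [if_pos ha]
    split_ifs <;> norm_num
  · rw [if_neg ha]
    have hd : Disjoint (cu (gends (boxG d (2 * (3 * m) + 1)))
        (pl (fun e => φ.mapEdgeSet e) ω) (ctr d (3 * m))) (bdy d (2 * (3 * m) + 1)) := by
      unfold arm at ha
      exact not_not.1 ha
    have hcu := cu_loc (emb_of φ) (bdy d (2 * (3 * m) + 1))
      (fun e u hu he => box_loc (fun i => (x i : ℕ) - 3 * m) φ hφ e u hu he) ω (ctr d (3 * m)) hd
    rw [hctr] at hcu
    have hdis : Disjoint (cu (gends (boxG d (8 * m))) ω x) (bdy d (8 * m)) := by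
      rw [hcu, Finset.disjoint_left]
      intro w hw hwb
      obtain ⟨y, hy, rfl⟩ := Finset.mem_image.1 hw
      have hyb : y ∉ bdy d (2 * (3 * m) + 1) := Finset.disjoint_left.1 hd hy
      obtain ⟨i, hi⟩ := (Finset.mem_filter.1 hwb).2
      apply hyb
      refine Finset.mem_filter.2 ⟨Finset.mem_univ _, i, ?_⟩
      have h3 := hφ y i
      have h4 := hx3 i
      have h5 := (y i).isLt
      omega
    rw [if_neg (not_not.2 hdis)]

/-- Row G4. Translation invariance of the torus: the automorphism `y ↦ y + x`, `Ex_cz_map` (Bridge.lean). -/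
lemma tor_trans {d n : ℕ} [NeZero n] [Fintype (torG d n).edgeSet] (p : ℝ) (F : ℝ → ℝ)
    (x : Fin d → ZMod n) :
    Ex p (fun ω => F (cz (gends (torG d n)) ω x)) = Ex p (fun ω => F (cz (gends (torG d n)) ω 0)) := by
  have hG : ∀ a b : Fin d → ZMod n, (torG d n).Adj (a + x) (b + x) ↔ (torG d n).Adj a b := by
    intro a b
    have h1 : ∀ (u v : Fin d → ZMod n) (i : Fin d),
        (v + x = u + x + Pi.single i 1 ↔ v = u + Pi.single i 1) := by
      intro u v i
      rw [add_right_comm, add_left_inj]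
    simp only [torG, ne_eq, add_left_inj, h1]
  have h := Ex_cz_map (torG d n) (⟨Equiv.addRight x, fun {a b} => hG a b⟩ : torG d n ≃g torG d n) p F 0
  have h0 : (⟨Equiv.addRight x, fun {a b} => hG a b⟩ : torG d n ≃g torG d n) 0 = x := by
    change (0 : Fin d → ZMod n) + x = x
    rw [zero_add]
  rw [h0] at h
  exact h

open scoped Classical in
/-- Row G5. `φ` embeds the box of side `2 M + 1` in the torus (`box_tor` with `z = 0`). `{arm} ⊆ {N ≤ |C|} ∪ {arm, |C| < N}`, `Ex_pul`, `tor_trans`. -/
lemma arm_le {d n M : ℕ} [NeZero n] [Fintype (torG d n).edgeSet] [Fintype (boxG d (2 * M + 1)).edgeSet]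
    {p N : ℝ} (h0 : 0 ≤ p) (h1 : p ≤ 1) (φ : boxG d (2 * M + 1) ↪g torG d n) :
    aM d M p ≤ fT d n p N + Ex p (fun ω : (torG d n).edgeSet → Bool =>
      if arm d M (pul φ ω) ∧ cz (gends (torG d n)) ω (φ (ctr d M)) < N then (1 : ℝ) else 0) := by
  have e1 : aM d M p = Ex p (fun ω : (torG d n).edgeSet → Bool =>
      if arm d M (pul φ ω) then (1 : ℝ) else 0) := by
    unfold aM
    exact (Ex_pul φ p (fun ω => if arm d M ω then (1 : ℝ) else 0)).symm
  have e2 : fT d n p N = Ex p (fun ω : (torG d n).edgeSet → Bool =>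
      if N ≤ cz (gends (torG d n)) ω (φ (ctr d M)) then (1 : ℝ) else 0) := by
    unfold fT
    exact (tor_trans p (fun t => if N ≤ t then (1 : ℝ) else 0) (φ (ctr d M))).symm
  rw [e1, e2, ← Ex_add]
  refine Ex_mono h0 h1 fun ω => ?_
  by_cases ha : arm d M (pul φ ω)
  · by_cases hb : N ≤ cz (gends (torG d n)) ω (φ (ctr d M))
    · rw [if_pos ha, if_pos hb, if_neg (fun h => absurd h.2 (not_lt.mpr hb))]
      norm_num
    · rw [if_pos ha, if_neg hb, if_pos ⟨ha, not_le.mp hb⟩]
      norm_num
  · rw [if_neg ha]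
    have h3 : (0 : ℝ) ≤ if N ≤ cz (gends (torG d n)) ω (φ (ctr d M)) then (1 : ℝ) else 0 := by
      split_ifs <;> norm_num
    have h4 : (0 : ℝ) ≤ if arm d M (pul φ ω) ∧ cz (gends (torG d n)) ω (φ (ctr d M)) < N
        then (1 : ℝ) else 0 := by
      split_ifs <;> norm_num
    exact add_nonneg h3 h4

open scoped Classical in
/-- Row G5 (second half). The same with `piM`: if the centre is not joined to the boundary the cluster in the torus is the image (`cz_loc`, `tor_loc`). -/
lemma piM_le {d n M : ℕ} [NeZero n] [Fintype (torG d n).edgeSet] [Fintype (boxG d (2 * M + 1)).edgeSet]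
    (hn : 2 * M + 1 < n) {p N : ℝ} (h0 : 0 ≤ p) (h1 : p ≤ 1) (φ : boxG d (2 * M + 1) ↪g torG d n)
    (hφ : ∀ x i, φ x i = (((x i : ℕ) : ℕ) : ZMod n)) :
    piM d M p N ≤ fT d n p N + Ex p (fun ω : (torG d n).edgeSet → Bool =>
      if arm d M (pul φ ω) ∧ cz (gends (torG d n)) ω (φ (ctr d M)) < N then (1 : ℝ) else 0) := by
  have e1 : piM d M p N = Ex p (fun ω : (torG d n).edgeSet → Bool =>
      if arm d M (pul φ ω) ∨ N ≤ cz (gends (boxG d (2 * M + 1))) (pul φ ω) (ctr d M)
        then (1 : ℝ) else 0) := by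
    unfold piM
    exact (Ex_pul φ p (fun ω => if arm d M ω ∨ N ≤ cz (gends (boxG d (2 * M + 1))) ω (ctr d M)
      then (1 : ℝ) else 0)).symm
  have e2 : fT d n p N = Ex p (fun ω : (torG d n).edgeSet → Bool =>
      if N ≤ cz (gends (torG d n)) ω (φ (ctr d M)) then (1 : ℝ) else 0) := by
    unfold fT
    exact (tor_trans p (fun t => if N ≤ t then (1 : ℝ) else 0) (φ (ctr d M))).symm
  rw [e1, e2, ← Ex_add]
  refine Ex_mono h0 h1 fun ω => ?_
  by_cases hb : N ≤ cz (gends (torG d n)) ω (φ (ctr d M))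
  · rw [if_pos hb, if_neg (fun h : _ ∧ _ => absurd h.2 (not_lt.mpr hb))]
    have : (if arm d M (pul φ ω) ∨ N ≤ cz (gends (boxG d (2 * M + 1))) (pul φ ω) (ctr d M)
        then (1 : ℝ) else 0) ≤ 1 := by
      split_ifs <;> norm_num
    linarith
  · by_cases ha : arm d M (pul φ ω)
    · rw [if_pos (Or.inl ha), if_neg hb, if_pos ⟨ha, not_le.mp hb⟩]
      norm_num
    · have hc : cz (gends (torG d n)) ω (φ (ctr d M)) =
          cz (gends (boxG d (2 * M + 1))) (pl (fun e => φ.mapEdgeSet e) ω) (ctr d M) := by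
        refine cz_loc (emb_of φ) (bdy d (2 * M + 1)) ?_ ω (ctr d M) (not_not.mp ha)
        intro e u hu he
        exact tor_loc (fun _ => 0) hn φ (fun x i => by rw [hφ x i]; simp) e u hu he
      have hd : ¬ (arm d M (pul φ ω) ∨
          N ≤ cz (gends (boxG d (2 * M + 1))) (pul φ ω) (ctr d M)) := by
        rintro (h | h)
        · exact ha h
        · exact hb (hc ▸ h)
      rw [if_neg hd, if_neg hb, if_neg (fun h => ha h.1)]
      norm_num

open scoped Classical in
private lemma G6_pt {d n M : ℕ} [NeZero n] [Fintype (torG d n).edgeSet] [Fintype (boxG d (2 * M + 1)).edgeSet]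
    (hn : 2 * M + 1 < n) (φ : boxG d (2 * M + 1) ↪g torG d n)
    (hφ : ∀ x i, φ x i = ((0 + (x i : ℕ) : ℕ) : ZMod n)) (ω : (torG d n).edgeSet → Bool)
    (h : ¬ arm d M (pul φ ω)) :
    cz (gends (torG d n)) ω (φ (ctr d M)) = cz (gends (boxG d (2 * M + 1))) (pul φ ω) (ctr d M) := by
  have h' : Disjoint (cu (gends (boxG d (2 * M + 1))) (pl (fun e => φ.mapEdgeSet e) ω) (ctr d M))
      (bdy d (2 * M + 1)) := by
    by_contra hc
    exact h hc
  exact cz_loc (emb_of φ) (bdy d (2 * M + 1))
    (fun e u hu he => tor_loc (fun _ => 0) hn φ hφ e u hu he) ω (ctr d M) h'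

private lemma G6_emb {d n M : ℕ} [NeZero n] (hn : 2 * M + 1 < n) :
    ∃ φ : boxG d (2 * M + 1) ↪g torG d n, ∀ x i, φ x i = ((0 + (x i : ℕ) : ℕ) : ZMod n) :=
  box_tor (fun _ => 0) (fun _ => by omega) hn

/-- Row G6. If the centre is not joined to the boundary the cluster in the torus is the image of the cluster in the box (`cz_loc`, `tor_loc`); `tor_trans`. -/
lemma fT_le {d n M : ℕ} [NeZero n] [Fintype (torG d n).edgeSet] [Fintype (boxG d (2 * M + 1)).edgeSet]
    (hn : 2 * M + 1 < n) {p : ℝ} (h0 : 0 ≤ p) (h1 : p ≤ 1) (N : ℝ) : fT d n p N ≤ piM d M p N := by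
  classical
  obtain ⟨φ, hφ⟩ := G6_emb (d := d) hn
  unfold fT piM
  have h2 := tor_trans (d := d) (n := n) p (fun t => if N ≤ t then (1 : ℝ) else 0) (φ (ctr d M))
  rw [← Ex_pul φ p]
  refine le_trans (le_of_eq h2.symm) ?_
  apply Ex_mono h0 h1
  intro ω
  show (if N ≤ cz (gends (torG d n)) ω (φ (ctr d M)) then (1 : ℝ) else 0) ≤ _
  by_cases ha : arm d M (pul φ ω)
  · rw [if_pos (Or.inl ha)]
    split_ifs <;> norm_num
  · rw [G6_pt hn φ hφ ω ha]
    by_cases hb : N ≤ cz (gends (boxG d (2 * M + 1))) (pul φ ω) (ctr d M)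
    · rw [if_pos hb, if_pos (Or.inr hb)]
    · rw [if_neg hb]
      split_ifs <;> norm_num

/-- Row G6 (second half). The mean of the largest cluster: `mxc_le` with `K = (2M+1)^d`, `Ex_sum`, `tor_trans`; if `|C(x)| > (2M+1)^d` then the centre of the
box around `x` is joined to the boundary (otherwise the cluster is the image of a subset of the box). -/
lemma mxc_mean {d n M : ℕ} [NeZero n] [Fintype (torG d n).edgeSet] [Fintype (boxG d (2 * M + 1)).edgeSet]
    (hn : 2 * M + 1 < n) {p : ℝ} (h0 : 0 ≤ p) (h1 : p ≤ 1) :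
    Ex p (mxc (gends (torG d n))) ≤ (2 * (M : ℝ) + 1) ^ d + (n : ℝ) ^ d * aM d M p := by
  classical
  obtain ⟨φ, hφ⟩ := G6_emb (d := d) hn
  obtain ⟨K, hK⟩ : ∃ K : ℝ, K = (2 * (M : ℝ) + 1) ^ d := ⟨_, rfl⟩
  have hK0 : 0 ≤ K := by rw [hK]; positivity
  rw [← hK]
  have hone : ∀ x : Fin d → ZMod n, Ex p (fun ω : (torG d n).edgeSet → Bool =>
      if K < cz (gends (torG d n)) ω x then (1 : ℝ) else 0) ≤ aM d M p := by
    intro x
    have h2 := tor_trans (d := d) (n := n) p (fun t => if K < t then (1 : ℝ) else 0) x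
    have h3 := tor_trans (d := d) (n := n) p (fun t => if K < t then (1 : ℝ) else 0) (φ (ctr d M))
    have h4 : Ex p (fun ω : (torG d n).edgeSet → Bool =>
        if K < cz (gends (torG d n)) ω x then (1 : ℝ) else 0) =
        Ex p (fun ω : (torG d n).edgeSet → Bool =>
          if K < cz (gends (torG d n)) ω (φ (ctr d M)) then (1 : ℝ) else 0) := h2.trans h3.symm
    rw [h4]
    unfold aM
    rw [← Ex_pul φ p]
    apply Ex_mono h0 h1
    intro ω
    by_cases ha : arm d M (pul φ ω)
    · rw [if_pos ha]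
      split_ifs <;> norm_num
    · rw [G6_pt hn φ hφ ω ha, if_neg ha]
      have hcard : cz (gends (boxG d (2 * M + 1))) (pul φ ω) (ctr d M) ≤ K := by
        unfold cz
        have h5 := Finset.card_le_univ (cu (gends (boxG d (2 * M + 1))) (pul φ ω) (ctr d M))
        have h6 : Fintype.card (Fin d → Fin (2 * M + 1)) = (2 * M + 1) ^ d := by simp
        rw [h6] at h5
        rw [hK]
        exact_mod_cast h5
      rw [if_neg (not_lt.mpr hcard)]
  calc Ex p (mxc (gends (torG d n)))
      ≤ Ex p (fun ω : (torG d n).edgeSet → Bool => K + ∑ x : Fin d → ZMod n,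
          (if K < cz (gends (torG d n)) ω x then (1 : ℝ) else 0)) := by
        apply Ex_mono h0 h1
        intro ω
        refine le_trans (mxc_le K hK0 ω) (le_of_eq ?_)
        congr 1
    _ = K + ∑ x : Fin d → ZMod n, Ex p (fun ω : (torG d n).edgeSet → Bool =>
          if K < cz (gends (torG d n)) ω x then (1 : ℝ) else 0) := by
        rw [Ex_add, Ex_const, Ex_sum]
    _ ≤ K + ∑ _x : Fin d → ZMod n, aM d M p := by
        gcongr with x _
        exact hone x
    _ = K + (n : ℝ) ^ d * aM d M p := by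
        rw [Finset.sum_const, Finset.card_univ, nsmul_eq_mul]
        congr 2
        simp [ZMod.card]

end box

end Pool.Agent.PERC29.AE
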