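import Pool.Agent.Lib.MP_29e17e_pr.V.Kc

set_option autoImplicit false

/-! Rows 29w-K1 .. 29w-K5: the constants (pure real numbers). Compare V/Kc.lean (finished files 29v_T2.lean, 29v_T3.lean, 29v_T4.lean). -/

namespace Pool.Agent.PERC29.AE

/-- Row K1. As `term7` (file 29v_T2.lean) with `2 n1 + k ≤ (2 C1 + 1) η N + 3`. -/
lemma term7b {κ η χ v a2 B C1 C2 : ℝ} (n1 k J : ℕ) (hκ : 0 < κ) (hη : 0 < η) (hχ : 0 < χ) (hv : 0 < v)
    (ha2 : 0 < a2) (hB : 0 < B) (hC1 : 0 < C1) (hC2 : 0 < C2)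
    (hn1 : (n1 : ℝ) ≤ C1 * η * v / χ ^ 3 + 1) (hk : (k : ℝ) ≤ η * v / χ ^ 3 + 1)
    (hJ : C2 * η * v / χ ^ 2 ≤ (J : ℝ)) (hth : a2 * κ / (2 * B ^ 2 * χ) ≤ 1) :
    2 ^ (2 * n1 + k) * (1 - a2 * χ ^ 2 * (κ * η ^ 2 * v / χ) / (4 * (B * η * χ) ^ 2 * v)) ^ J ≤
      Real.exp (Real.log 2 * ((2 * C1 + 1) * η * (v / χ ^ 3) + 3) -
        a2 * κ / (4 * B ^ 2) * C2 * η * (v / χ ^ 3)) := by
  have e1 : a2 * χ ^ 2 * (κ * η ^ 2 * v / χ) / (4 * (B * η * χ) ^ 2 * v) = a2 * κ / (4 * B ^ 2 * χ) := by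
    field_simp
  have hth0 : 0 ≤ a2 * κ / (4 * B ^ 2 * χ) := by positivity
  have hth1 : a2 * κ / (4 * B ^ 2 * χ) ≤ 1 := by
    have e2 : a2 * κ / (4 * B ^ 2 * χ) = a2 * κ / (2 * B ^ 2 * χ) / 2 := by
      field_simp
      ring
    rw [e2]
    linarith
  have hl2 : 0 < Real.log 2 := Real.log_pos (by norm_num)
  have h1 : (1 - a2 * κ / (4 * B ^ 2 * χ)) ^ J ≤
      Real.exp (-(a2 * κ / (4 * B ^ 2) * C2 * η * (v / χ ^ 3))) := by
    have h2 : (1 - a2 * κ / (4 * B ^ 2 * χ)) ^ J ≤ Real.exp (-(a2 * κ / (4 * B ^ 2 * χ))) ^ J :=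
      pow_le_pow_left₀ (by linarith) (Real.one_sub_le_exp_neg _) J
    refine h2.trans ?_
    rw [← Real.exp_nat_mul]
    apply Real.exp_le_exp.2
    have h3 : a2 * κ / (4 * B ^ 2 * χ) * (C2 * η * v / χ ^ 2) ≤ a2 * κ / (4 * B ^ 2 * χ) * J :=
      mul_le_mul_of_nonneg_left hJ hth0
    have h4 : a2 * κ / (4 * B ^ 2 * χ) * (C2 * η * v / χ ^ 2) = a2 * κ / (4 * B ^ 2) * C2 * η * (v / χ ^ 3) := by
      field_simp
    rw [h4] at h3
    linarith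
  have h5 : (2 : ℝ) ^ (2 * n1 + k) ≤ Real.exp (Real.log 2 * ((2 * C1 + 1) * η * (v / χ ^ 3) + 3)) := by
    have h6 : (2 : ℝ) ^ (2 * n1 + k) = Real.exp (Real.log 2 * (2 * (n1 : ℝ) + k)) := by
      have h7 : (2 : ℝ) ^ (2 * n1 + k) = Real.exp (Real.log 2) ^ (2 * n1 + k) := by
        rw [Real.exp_log (by norm_num)]
      rw [h7, ← Real.exp_nat_mul]
      congr 1
      push_cast
      ring
    rw [h6]
    apply Real.exp_le_exp.2
    apply mul_le_mul_of_nonneg_left _ hl2.le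
    have h8 : 2 * (C1 * η * v / χ ^ 3) + η * v / χ ^ 3 = (2 * C1 + 1) * η * (v / χ ^ 3) := by ring
    linarith
  rw [e1, sub_eq_add_neg (Real.log 2 * ((2 * C1 + 1) * η * (v / χ ^ 3) + 3)), Real.exp_add]
  exact mul_le_mul h5 h1 (pow_nonneg (by linarith) _) (Real.exp_pos _).le

private lemma K2_sq {A x y : ℝ} (h1 : 1 ≤ A) (hx : 0 ≤ x) (hy : y ≤ A * x) : y ≤ x * A ^ 2 := by
  have h2 : 0 ≤ A * x := mul_nonneg (by linarith) hx
  calc y ≤ A * x * 1 := by linarith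
    _ ≤ A * x * A := mul_le_mul_of_nonneg_left h1 h2
    _ = x * A ^ 2 := by ring

private lemma K2_exp {C1 η N l : ℝ} (hC1 : 0 < C1) (hη : 0 < η) (hN : 0 < N) (h7 : 3 - l ≤ η * N) :
    Real.log 2 * ((2 * C1 + 1) * η * N + 3) - 2 * (2 * C1 + 1) * (η * N) ≤ l := by
  have hlog : Real.log 2 ≤ 1 := by
    have := Real.log_two_lt_d9
    linarith
  have h8 : 0 ≤ (2 * C1 + 1) * η * N + 3 := by positivity
  have h9 : Real.log 2 * ((2 * C1 + 1) * η * N + 3) ≤ 1 * ((2 * C1 + 1) * η * N + 3) :=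
    mul_le_mul_of_nonneg_right hlog h8
  have h10 : 0 ≤ C1 * (η * N) := by positivity
  linarith

private lemma K2_frac {C η A : ℝ} (hC : 1 ≤ C) (hη : 0 < η) (hA : 0 < A) (h : 2 ≤ A * η) :
    2 * C ^ 4 / (η * A) ≤ C ^ 6 := by
  have hC0 : 0 < C := by linarith
  rw [div_le_iff₀ (by positivity)]
  have h3 : C ^ 4 ≤ C ^ 6 := pow_le_pow_right₀ hC (by norm_num)
  calc 2 * C ^ 4 ≤ 2 * C ^ 6 := by linarith
    _ ≤ (A * η) * C ^ 6 := mul_le_mul_of_nonneg_right h (by positivity)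
    _ = C ^ 6 * (η * A) := by ring

/-- Row K2. As `choice` (file 29v_T3.lean) with `C2 = 2 (2 C1 + 1)/(a2 κ/(4 B²))` and the exponent
`log 2 ((2 C1+1) η N + 3) - 2 (2 C1+1) η N ≤ 3 log 2 - η N ≤ log (ρ/8)`. (It also follows from `choice` itself only with other constants.) -/
lemma choice2 (C c0 a β ρ : ℝ) (hC : 1 ≤ C) (hc0 : 0 < c0) (ha : 0 < a) (hβ : 0 < β) (hρ : 0 < ρ) :
    ∃ η c B a2 C1 C2 δ A0 : ℝ, 0 < η ∧ η ≤ 1 ∧ η * a ≤ 1 ∧ 0 < c ∧ 0 < B ∧ 0 < a2 ∧ a2 ≤ a ∧ 0 < C1 ∧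
      0 < C2 ∧ 0 < δ ∧ 1 ≤ A0 ∧
      32 * C ^ 3 / (β ^ 2 * a ^ 2 * η * A0) ≤ ρ / 8 ∧
      30 * C ^ 3 * Real.sqrt (c / C) / kap c0 a β ≤ ρ / 8 ∧
      10 / (B * kap c0 a β) * (C ^ 6 + 2 * C ^ 4 / (η * A0)) ≤ ρ / 8 ∧
      C / (Real.sqrt a2 * C1) ≤ ρ / 8 ∧
      10 / kap c0 a β * ((C2 + 2) * η * C ^ 5 + 2 * C ^ 3 * δ) ≤ ρ / 8 ∧
      30 * C ^ 3 * Real.sqrt a2 / kap c0 a β ≤ ρ / 8 ∧
      (∀ N : ℝ, A0 ≤ N → Real.exp (Real.log 2 * ((2 * C1 + 1) * η * N + 3) -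
        a2 * kap c0 a β / (4 * B ^ 2) * C2 * η * N) ≤ ρ / 8) ∧
      1 ≤ a2 * A0 ^ 2 ∧ 1 ≤ c * A0 ^ 2 / C ∧ a2 * kap c0 a β / (2 * B ^ 2 * A0) ≤ 1 ∧ 1 / η ≤ A0 := by
  have hC0 : 0 < C := by linarith
  have hκ0 : 0 < kap c0 a β := by
    unfold kap; positivity
  generalize kap c0 a β = κ at hκ0 ⊢
  have hκ : 0 < κ := hκ0
  obtain ⟨r, hr⟩ : ∃ x : ℝ, x = ρ * κ / (240 * C ^ 3) := ⟨_, rfl⟩
  have hr0 : 0 < r := by rw [hr]; positivity
  obtain ⟨c, hc⟩ : ∃ x : ℝ, x = C * r ^ 2 := ⟨_, rfl⟩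
  have hc1 : 0 < c := by rw [hc]; positivity
  obtain ⟨a2, ha2⟩ : ∃ x : ℝ, x = min a (r ^ 2) := ⟨_, rfl⟩
  have ha2p : 0 < a2 := by rw [ha2]; exact lt_min ha (by positivity)
  have ha2a : a2 ≤ a := by rw [ha2]; exact min_le_left _ _
  have ha2r : a2 ≤ r ^ 2 := by rw [ha2]; exact min_le_right _ _
  have hsq : 0 < Real.sqrt a2 := Real.sqrt_pos.2 ha2p
  have hsqr : Real.sqrt a2 ≤ r := by
    calc Real.sqrt a2 ≤ Real.sqrt (r ^ 2) := Real.sqrt_le_sqrt ha2r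
      _ = r := Real.sqrt_sq hr0.le
  obtain ⟨B, hB⟩ : ∃ x : ℝ, x = 160 * C ^ 6 / (ρ * κ) := ⟨_, rfl⟩
  have hBp : 0 < B := by rw [hB]; positivity
  obtain ⟨C1, hC1⟩ : ∃ x : ℝ, x = 8 * C / (Real.sqrt a2 * ρ) := ⟨_, rfl⟩
  have hC1p : 0 < C1 := by rw [hC1]; positivity
  obtain ⟨C2, hC2⟩ : ∃ x : ℝ, x = 2 * (2 * C1 + 1) / (a2 * κ / (4 * B ^ 2)) := ⟨_, rfl⟩
  have hC2p : 0 < C2 := by rw [hC2]; positivity
  obtain ⟨q, hq⟩ : ∃ x : ℝ, x = ρ * κ / (160 * (C2 + 2) * C ^ 5) := ⟨_, rfl⟩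
  have hqp : 0 < q := by rw [hq]; positivity
  obtain ⟨η, hη⟩ : ∃ x : ℝ, x = min 1 (min (1 / a) q) := ⟨_, rfl⟩
  have hηp : 0 < η := by
    rw [hη]; exact lt_min one_pos (lt_min (by positivity) hqp)
  have hη1 : η ≤ 1 := by rw [hη]; exact min_le_left _ _
  have hηa : η ≤ 1 / a := by rw [hη]; exact le_trans (min_le_right _ _) (min_le_left _ _)
  have hηq : η ≤ q := by rw [hη]; exact le_trans (min_le_right _ _) (min_le_right _ _)
  obtain ⟨δ, hδ⟩ : ∃ x : ℝ, x = ρ * κ / (320 * C ^ 3) := ⟨_, rfl⟩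
  have hδp : 0 < δ := by rw [hδ]; positivity
  obtain ⟨T1, hT1⟩ : ∃ x : ℝ, x = 256 * C ^ 3 / (β ^ 2 * a ^ 2 * η * ρ) := ⟨_, rfl⟩
  have hT1p : 0 < T1 := by rw [hT1]; positivity
  obtain ⟨T2, hT2⟩ : ∃ x : ℝ, x = a2 * κ / (2 * B ^ 2) := ⟨_, rfl⟩
  have hT2p : 0 < T2 := by rw [hT2]; positivity
  obtain ⟨T3, hT3⟩ : ∃ x : ℝ, x = |3 - Real.log (ρ / 8)| / η := ⟨_, rfl⟩
  have hT3p : 0 ≤ T3 := by rw [hT3]; positivity
  have hT4p : 0 < 2 / η := by positivity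
  have hT5p : 0 < 1 / a2 := by positivity
  have hT6p : 0 < C / c := by positivity
  obtain ⟨A0, hA0⟩ : ∃ x : ℝ, x = 1 + 2 / η + T1 + T2 + T3 + 1 / a2 + C / c := ⟨_, rfl⟩
  have hA1 : 1 ≤ A0 := by rw [hA0]; linarith
  have hA2 : 2 / η ≤ A0 := by rw [hA0]; linarith
  have hA3 : T1 ≤ A0 := by rw [hA0]; linarith
  have hA4 : T2 ≤ A0 := by rw [hA0]; linarith
  have hA5 : T3 ≤ A0 := by rw [hA0]; linarith
  have hA6 : 1 / a2 ≤ A0 := by rw [hA0]; linarith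
  have hA7 : C / c ≤ A0 := by rw [hA0]; linarith
  have hA0p : 0 < A0 := by linarith
  refine ⟨η, c, B, a2, C1, C2, δ, A0, hηp, hη1, ?_, hc1, hBp, ha2p, ha2a, hC1p, hC2p, hδp, hA1,
    ?_, ?_, ?_, ?_, ?_, ?_, ?_, ?_, ?_, ?_, ?_⟩
  · rw [le_div_iff₀ ha] at hηa
    exact hηa
  · -- (1)
    rw [hT1, div_le_iff₀ (by positivity)] at hA3
    rw [div_le_iff₀ (by positivity)]
    linarith [hA3]
  · -- (2)
    have e1 : c / C = r ^ 2 := by rw [hc]; field_simp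
    rw [e1, Real.sqrt_sq hr0.le]
    apply le_of_eq
    rw [hr]
    field_simp
    norm_num
  · -- (3)
    have h2 : 2 * C ^ 4 / (η * A0) ≤ C ^ 6 := by
      rw [div_le_iff₀ hηp] at hA2
      exact K2_frac hC hηp hA0p hA2
    calc 10 / (B * κ) * (C ^ 6 + 2 * C ^ 4 / (η * A0)) ≤ 10 / (B * κ) * (C ^ 6 + C ^ 6) := by
          apply mul_le_mul_of_nonneg_left _ (by positivity)
          linarith
      _ = ρ / 8 := by
          rw [hB]
          field_simp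
          norm_num
      _ ≤ ρ / 8 := le_refl _
  · -- (4)
    apply le_of_eq
    rw [hC1]
    field_simp
  · -- (5)
    have h2 : (C2 + 2) * η * C ^ 5 ≤ ρ * κ / 160 := by
      calc (C2 + 2) * η * C ^ 5 ≤ (C2 + 2) * q * C ^ 5 := by gcongr
        _ = ρ * κ / 160 := by rw [hq]; field_simp
    have h3 : 2 * C ^ 3 * δ = ρ * κ / 160 := by
      rw [hδ]; field_simp; norm_num
    calc 10 / κ * ((C2 + 2) * η * C ^ 5 + 2 * C ^ 3 * δ) ≤ 10 / κ * (ρ * κ / 160 + ρ * κ / 160) := by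
          apply mul_le_mul_of_nonneg_left _ (by positivity)
          linarith
      _ = ρ / 8 := by field_simp; norm_num
      _ ≤ ρ / 8 := le_refl _
  · -- (6)
    calc 30 * C ^ 3 * Real.sqrt a2 / κ ≤ 30 * C ^ 3 * r / κ := by gcongr
      _ = ρ / 8 := by
          rw [hr]; field_simp; norm_num
      _ ≤ ρ / 8 := le_refl _
  · -- (7)
    intro N hN
    have hN0 : 0 < N := by linarith
    have e1 : a2 * κ / (4 * B ^ 2) * C2 = 2 * (2 * C1 + 1) := by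
      rw [hC2]
      field_simp
    have e2 : a2 * κ / (4 * B ^ 2) * C2 * η * N = 2 * (2 * C1 + 1) * (η * N) := by
      rw [e1]; ring
    rw [e2]
    have h5 : |3 - Real.log (ρ / 8)| ≤ η * N := by
      have h6 : T3 ≤ N := le_trans hA5 hN
      rw [hT3, div_le_iff₀ hηp] at h6
      linarith
    have h7 := le_trans (le_abs_self _) h5
    calc Real.exp (Real.log 2 * ((2 * C1 + 1) * η * N + 3) - 2 * (2 * C1 + 1) * (η * N)) ≤
          Real.exp (Real.log (ρ / 8)) := by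
          exact Real.exp_le_exp.2 (K2_exp hC1p hηp hN0 h7)
      _ = ρ / 8 := Real.exp_log (by positivity)
  · -- a2
    rw [div_le_iff₀ ha2p] at hA6
    exact K2_sq hA1 ha2p.le hA6
  · -- c
    rw [div_le_iff₀ hc1] at hA7
    rw [le_div_iff₀ hC0]
    rw [one_mul]
    exact K2_sq hA1 hc1.le hA7
  · -- T2
    rw [hT2, div_le_iff₀ (by positivity)] at hA4
    rw [div_le_iff₀ (by positivity)]
    linarith
  · refine le_trans ?_ hA2
    gcongr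
    norm_num

private lemma K3_exp {x r : ℝ} (hr : 0 < r) (h : 1 / r ≤ x) : Real.exp (-x) ≤ r := by
  have h0 : 0 < 1 / r := by positivity
  have hx : 0 < x := by linarith
  have h1 : x ≤ Real.exp x := by
    have := Real.add_one_le_exp x
    linarith
  rw [Real.exp_neg]
  have h2 : 1 / r ≤ Real.exp x := h.trans h1
  rw [one_div, inv_le_comm₀ hr (Real.exp_pos x)] at h2
  exact h2

/-- Row K3. (Compare `cut_const`, file 29v_T4.lean.) `j = ⌊ck v/(12 χ³)⌋₊`, `M' = ⌊ch χ j/L⌋₊`, `kk = ⌊M'/(3 K0)⌋₊`, `C6 = 3 C/(a2 √a2 ρ)`, `n0 = ⌈C6 v/χ³⌉₊`,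
`κ = kk / n0` (quotient of natural numbers). For `A1` large: `j ≥ ck v/(24 χ³)`, `M' ≥ ch χ j/(2L)`, `kk ≥ M'/(6 K0) ≥ κ1 v/χ²` with
`κ1 = ch ck/(288 L K0)`, `n0 ≤ 2 C6 v/χ³`, `κ ≥ kk/n0 - 1 ≥ κ1 χ/(2 C6) - 1 ≥ κ1 χ/(4 C6)`; `c3 = min (ck/24) (min κ1 (κ1/(4 C6)))`. The last two as in
`cut_const`: `v C/(a2^(3/2) χ³ n0) ≤ ρ/3`; `K0 kk/M' ≤ 1/3 ≤ exp (-1)`, `(v+1)^(2 n0) = exp (2 n0 log (v+1)) ≤ exp (4 C6 v/(A1 χ²))`, so the term is at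
most `exp (-κ1 v/(2 χ²)) ≤ exp (-κ1 A1 χ/2) ≤ ρ/3`. -/
lemma cut_const2 (C a2 ch ck K0 ρ : ℝ) (L : ℕ) (hL : 1 ≤ L) (hC : 0 < C) (ha2 : 0 < a2) (hch : 0 < ch)
    (hck : 0 < ck) (hK0 : 1 ≤ K0) (hρ : 0 < ρ) :
    ∃ c3 A1 : ℝ, 0 < c3 ∧ 1 ≤ A1 ∧ ∀ χ v : ℝ, A1 ≤ χ → A1 * χ ^ 3 ≤ v → A1 * Real.log (v + 1) ≤ χ →
      ∃ M' kk n0 κ j : ℕ, 1 ≤ j ∧ (12 * j : ℝ) ≤ ck * v / χ ^ 3 ∧ c3 * v / χ ^ 3 ≤ j ∧
        (L : ℝ) * M' ≤ ch * χ * j ∧ κ * n0 ≤ kk ∧ c3 * χ ≤ κ ∧ c3 * v / χ ^ 2 ≤ kk ∧ 1 ≤ kk ∧ kk ≤ M' ∧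
        1 ≤ n0 ∧ v * (C / (a2 * χ ^ 2 * Real.sqrt (a2 * χ ^ 2))) / n0 ≤ ρ / 3 ∧
        (v + 1) ^ (2 * n0) * (K0 * ((kk : ℝ) / M')) ^ kk ≤ ρ / 3 := by
  have hL1 : (1 : ℝ) ≤ (L : ℝ) := by exact_mod_cast hL
  have hL0 : (0 : ℝ) < (L : ℝ) := by linarith
  have hK00 : 0 < K0 := by linarith
  have hs0 : 0 < Real.sqrt a2 := Real.sqrt_pos.2 ha2
  obtain ⟨C6, hC6⟩ : ∃ C6 : ℝ, C6 = 3 * C / (a2 * Real.sqrt a2 * ρ) := ⟨_, rfl⟩
  have hC60 : 0 < C6 := by rw [hC6]; positivity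
  obtain ⟨κ1, hκ⟩ : ∃ κ1 : ℝ, κ1 = ch * ck / (288 * L * K0) := ⟨_, rfl⟩
  have hκ0 : 0 < κ1 := by rw [hκ]; positivity
  have p1 : 0 < 1 / κ1 := by positivity
  have p2 : 0 < 1 / C6 := by positivity
  have p3 : 0 < 8 * C6 / κ1 := by positivity
  have p4 : 0 < 6 / (ρ * κ1) := by positivity
  have p5 : 0 < 24 / ck := by positivity
  have hc3 : 0 < min (ck / 24) (min κ1 (κ1 / (4 * C6))) := by positivity
  refine ⟨min (ck / 24) (min κ1 (κ1 / (4 * C6))),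
    1 + 1 / κ1 + 1 / C6 + 8 * C6 / κ1 + 6 / (ρ * κ1) + 24 / ck, hc3, by linarith, ?_⟩
  obtain ⟨c3, hc3e⟩ : ∃ c3 : ℝ, c3 = min (ck / 24) (min κ1 (κ1 / (4 * C6))) := ⟨_, rfl⟩
  rw [← hc3e]
  have r1 : c3 ≤ ck / 24 := by rw [hc3e]; exact min_le_left _ _
  have r2 : c3 ≤ κ1 := by rw [hc3e]; exact (min_le_right _ _).trans (min_le_left _ _)
  have r3 : c3 ≤ κ1 / (4 * C6) := by
    rw [hc3e]; exact (min_le_right _ _).trans (min_le_right _ _)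
  intro χ v h1 h2 h3
  obtain ⟨A1, hA1⟩ : ∃ A1 : ℝ,
      A1 = 1 + 1 / κ1 + 1 / C6 + 8 * C6 / κ1 + 6 / (ρ * κ1) + 24 / ck := ⟨_, rfl⟩
  rw [← hA1] at h1 h2 h3
  have q0 : 1 ≤ A1 := by linarith
  have q1 : 1 / κ1 ≤ A1 := by linarith
  have q2 : 1 / C6 ≤ A1 := by linarith
  have q3 : 8 * C6 / κ1 ≤ A1 := by linarith
  have q4 : 6 / (ρ * κ1) ≤ A1 := by linarith
  have q5 : 24 / ck ≤ A1 := by linarith
  rw [div_le_iff₀ hκ0] at q1 q3
  rw [div_le_iff₀ hC60] at q2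
  rw [div_le_iff₀ (by positivity)] at q4 q5
  have hA0 : 0 < A1 := by linarith
  have hχ1 : 1 ≤ χ := by linarith
  have hχ0 : 0 < χ := by linarith
  have hv0 : 0 < v := lt_of_lt_of_le (by positivity) h2
  -- the two ratios
  obtain ⟨X, hX⟩ : ∃ X : ℝ, X = v / χ ^ 2 := ⟨_, rfl⟩
  obtain ⟨N, hN⟩ : ∃ N : ℝ, N = v / χ ^ 3 := ⟨_, rfl⟩
  have hXN : X = χ * N := by rw [hX, hN]; field_simp
  have hNA : A1 ≤ N := by
    rw [hN, le_div_iff₀ (by positivity)]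
    exact h2
  have hN0 : 0 < N := by linarith
  have hXA : A1 ≤ X := by
    rw [hXN]
    exact le_trans hNA (le_mul_of_one_le_left hN0.le hχ1)
  have hX0 : 0 < X := by linarith
  obtain ⟨j, hj⟩ : ∃ j : ℕ, j = ⌊ck * N / 12⌋₊ := ⟨_, rfl⟩
  obtain ⟨M', hM'⟩ : ∃ M' : ℕ, M' = ⌊ch * χ * j / L⌋₊ := ⟨_, rfl⟩
  obtain ⟨kk, hkk⟩ : ∃ kk : ℕ, kk = ⌊(M' : ℝ) / (3 * K0)⌋₊ := ⟨_, rfl⟩
  obtain ⟨n0, hn0⟩ : ∃ n0 : ℕ, n0 = ⌈C6 * N⌉₊ := ⟨_, rfl⟩
  have hjle : (j : ℝ) ≤ ck * N / 12 := by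
    rw [hj]
    exact Nat.floor_le (by positivity)
  have hjN : 1 ≤ ck * N / 24 := by
    have h4 := mul_le_mul_of_nonneg_right hNA hck.le
    linarith
  have hjge : ck * N / 24 ≤ (j : ℝ) := by
    have h4 : ck * N / 12 - 1 ≤ (j : ℝ) := by
      rw [hj]
      exact (Nat.sub_one_lt_floor _).le
    linarith
  have hj0 : (0 : ℝ) < (j : ℝ) := by linarith
  have hj1 : 1 ≤ j := by
    have : 0 < j := by exact_mod_cast hj0
    omega
  have hM'le : (M' : ℝ) ≤ ch * χ * j / L := by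
    rw [hM']
    exact Nat.floor_le (by positivity)
  have hM'ge : ch * χ * j / L - 1 ≤ (M' : ℝ) := by
    rw [hM']
    exact (Nat.sub_one_lt_floor _).le
  have hkkle : (kk : ℝ) ≤ (M' : ℝ) / (3 * K0) := by
    rw [hkk]
    exact Nat.floor_le (by positivity)
  have hkkge : (M' : ℝ) / (3 * K0) - 1 ≤ (kk : ℝ) := by
    rw [hkk]
    exact (Nat.sub_one_lt_floor _).le
  have hn0ge : C6 * N ≤ (n0 : ℝ) := by
    rw [hn0]
    exact Nat.le_ceil _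
  have hn0le : (n0 : ℝ) ≤ 2 * (C6 * N) := by
    have h4 : (n0 : ℝ) < C6 * N + 1 := by
      rw [hn0]
      exact Nat.ceil_lt_add_one (by positivity)
    have h5 : 1 ≤ C6 * N := by
      have h6 := mul_le_mul_of_nonneg_right hNA hC60.le
      linarith
    linarith
  have hkkX : κ1 * X ≤ (kk : ℝ) := by
    refine le_trans ?_ hkkge
    have h4 : ch * ck * X / (24 * L) ≤ ch * χ * j / L := by
      have h5 : ch * ck * X / (24 * L) = ch * χ * (ck * N / 24) / L := by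
        rw [hXN]
        field_simp
      rw [h5]
      exact div_le_div_of_nonneg_right (mul_le_mul_of_nonneg_left hjge (by positivity)) hL0.le
    have h4' : (ch * ck * X / (24 * L) - 1) / (3 * K0) ≤ (M' : ℝ) / (3 * K0) :=
      div_le_div_of_nonneg_right (by linarith) (by positivity)
    have h5 : (ch * ck * X / (24 * L) - 1) / (3 * K0) = 4 * (κ1 * X) - 1 / (3 * K0) := by
      rw [hκ]
      field_simp
      ring
    have h6 : 1 / (3 * K0) ≤ 1 := by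
      rw [div_le_one (by positivity)]
      linarith
    have h7 : 1 ≤ κ1 * X := by
      have h8 := mul_le_mul_of_nonneg_right hXA hκ0.le
      linarith
    linarith
  have hκX0 : 0 < κ1 * X := by positivity
  have hkk0 : (0 : ℝ) < (kk : ℝ) := lt_of_lt_of_le hκX0 hkkX
  have hkk1 : 1 ≤ kk := by
    have : 0 < kk := by exact_mod_cast hkk0
    omega
  have hkkM : (kk : ℝ) ≤ (M' : ℝ) := by
    refine hkkle.trans ?_
    rw [div_le_iff₀ (by positivity)]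
    have : (0 : ℝ) ≤ (M' : ℝ) := Nat.cast_nonneg _
    exact le_mul_of_one_le_right this (by linarith)
  have hM'0 : (0 : ℝ) < (M' : ℝ) := lt_of_lt_of_le hkk0 hkkM
  have hn00 : (0 : ℝ) < (n0 : ℝ) := lt_of_lt_of_le (by positivity) hn0ge
  have hn01 : 0 < n0 := by exact_mod_cast hn00
  -- the quotient
  have hdiv : κ1 * χ / (2 * C6) ≤ ((kk / n0 : ℕ) : ℝ) + 1 := by
    have h4 : kk < n0 * (kk / n0 + 1) := Nat.lt_mul_div_succ kk hn01
    have h5 : (kk : ℝ) < (n0 : ℝ) * (((kk / n0 : ℕ) : ℝ) + 1) := by exact_mod_cast h4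
    rw [div_le_iff₀ (by positivity)]
    have h6 : (n0 : ℝ) * (((kk / n0 : ℕ) : ℝ) + 1) ≤ 2 * (C6 * N) * (((kk / n0 : ℕ) : ℝ) + 1) :=
      mul_le_mul_of_nonneg_right hn0le (by positivity)
    have h7 : κ1 * χ * N ≤ (((kk / n0 : ℕ) : ℝ) + 1) * (2 * C6) * N := by
      have h8 : κ1 * χ * N = κ1 * X := by rw [hXN]; ring
      rw [h8]
      linarith
    exact le_of_mul_le_mul_right h7 hN0
  have hquo : κ1 / (4 * C6) * χ ≤ ((kk / n0 : ℕ) : ℝ) := by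
    have h4 : κ1 * χ / (2 * C6) = 2 * (κ1 / (4 * C6) * χ) := by
      field_simp
      ring
    have h5 : 1 ≤ κ1 / (4 * C6) * χ := by
      rw [div_mul_eq_mul_div, le_div_iff₀ (by positivity)]
      have h6 := mul_le_mul_of_nonneg_right h1 hκ0.le
      linarith
    linarith
  refine ⟨M', kk, n0, kk / n0, j, hj1, ?_, ?_, ?_, Nat.div_mul_le_self kk n0, ?_, ?_, hkk1,
    by exact_mod_cast hkkM, hn01, ?_, ?_⟩
  · have h4 : ck * v / χ ^ 3 = ck * N := by rw [hN]; ring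
    rw [h4]
    linarith
  · have h4 : c3 * v / χ ^ 3 = c3 * N := by rw [hN]; ring
    rw [h4]
    refine le_trans ?_ hjge
    have h5 := mul_le_mul_of_nonneg_right r1 hN0.le
    linarith
  · rw [le_div_iff₀ hL0] at hM'le
    linarith
  · exact (mul_le_mul_of_nonneg_right r3 hχ0.le).trans hquo
  · have h4 : c3 * v / χ ^ 2 = c3 * X := by rw [hX]; ring
    rw [h4]
    exact (mul_le_mul_of_nonneg_right r2 hX0.le).trans hkkX
  · -- the first term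
    have h4 : Real.sqrt (a2 * χ ^ 2) = Real.sqrt a2 * χ := by
      rw [Real.sqrt_mul ha2.le, Real.sqrt_sq hχ0.le]
    rw [h4]
    have h5 : v * (C / (a2 * χ ^ 2 * (Real.sqrt a2 * χ))) / n0 =
        (C / (a2 * Real.sqrt a2)) * N / n0 := by
      rw [hN]
      field_simp
    rw [h5, div_le_iff₀ hn00]
    have h6 : C / (a2 * Real.sqrt a2) = ρ / 3 * C6 := by
      rw [hC6]
      field_simp
    rw [h6]
    have h7 := mul_le_mul_of_nonneg_left hn0ge (by positivity : 0 ≤ ρ / 3)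
    linarith
  · -- the second term
    have hlog : Real.log (v + 1) ≤ χ / A1 := by
      rw [le_div_iff₀ hA0]
      linarith
    have hlog0 : 0 ≤ Real.log (v + 1) := Real.log_nonneg (by linarith)
    have e1 : (v + 1) ^ (2 * n0) = Real.exp ((2 * n0 : ℕ) * Real.log (v + 1)) := by
      rw [Real.exp_nat_mul, Real.exp_log (by linarith)]
    have e2 : ((2 * n0 : ℕ) : ℝ) * Real.log (v + 1) ≤ 4 * C6 * X / A1 := by
      push_cast
      calc 2 * (n0 : ℝ) * Real.log (v + 1) ≤ 2 * (2 * (C6 * N)) * (χ / A1) :=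
            mul_le_mul (by linarith) hlog hlog0 (by positivity)
        _ = 4 * C6 * X / A1 := by rw [hXN]; ring
    have e3 : K0 * ((kk : ℝ) / M') ≤ 1 / 3 := by
      rw [le_div_iff₀ (by positivity)] at hkkle
      rw [mul_div_assoc', div_le_iff₀ hM'0]
      linarith
    have e4 : (1 : ℝ) / 3 ≤ Real.exp (-1) := by
      rw [Real.exp_neg, one_div]
      apply inv_anti₀ (Real.exp_pos 1)
      have := Real.exp_one_lt_d9
      linarith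
    have e5 : (K0 * ((kk : ℝ) / M')) ^ kk ≤ Real.exp (-(kk : ℝ)) := by
      calc (K0 * ((kk : ℝ) / M')) ^ kk ≤ (Real.exp (-1)) ^ kk :=
            pow_le_pow_left₀ (by positivity) (e3.trans e4) _
        _ = Real.exp (-(kk : ℝ)) := by
            rw [← Real.exp_nat_mul]
            congr 1
            ring
    have e6 : 4 * C6 * X / A1 ≤ κ1 / 2 * X := by
      rw [div_le_iff₀ hA0]
      have h7 := mul_le_mul_of_nonneg_right q3 hX0.le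
      linarith
    calc (v + 1) ^ (2 * n0) * (K0 * ((kk : ℝ) / M')) ^ kk ≤
        Real.exp (κ1 / 2 * X) * Real.exp (-(κ1 * X)) := by
          apply mul_le_mul _ _ (by positivity) (Real.exp_pos _).le
          · rw [e1]
            exact Real.exp_le_exp.2 (e2.trans e6)
          · exact e5.trans (Real.exp_le_exp.2 (by linarith))
      _ = Real.exp (-(κ1 / 2 * X)) := by
          rw [← Real.exp_add]
          congr 1
          ring
      _ ≤ ρ / 3 := by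
          apply K3_exp (by positivity)
          have h8 : κ1 / 2 * A1 ≤ κ1 / 2 * X := mul_le_mul_of_nonneg_left hXA (by positivity)
          have h9 : 3 / ρ ≤ κ1 / 2 * A1 := by
            rw [div_le_iff₀ hρ]
            linarith
          have h10 : 1 / (ρ / 3) = 3 / ρ := by rw [one_div_div]
          rw [h10]
          linarith

/-- Row K4. The sprinkling terms. With `x = 1 - exp (-σ)` and `j1 = ⌊x j⌋₊`: `2^j1 (1 - x/2)^(2j) ≤ exp ((log 2) x j - x j) ≤ exp (- x j/4)` (`log 2 < 3/4`,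
`1 - x/2 ≤ exp (-x/2)`). And `(1 - s)^κ ≤ exp (-s κ) ≤ exp (-σ)`. -/
lemma two_hop_const {s σ : ℝ} (hs0 : 0 ≤ s) (hs1 : s ≤ 1) (hσ : 0 < σ) (κ j : ℕ) (hκ : σ ≤ s * κ) :
    ∃ j1 : ℕ, (1 - Real.exp (-σ)) * j - 1 ≤ (j1 : ℝ) ∧
      (2 : ℝ) ^ j1 * (1 - (1 - (1 - s) ^ κ) / 2) ^ (2 * j) ≤
        Real.exp (-((1 - Real.exp (-σ)) * j / 4)) := by
  have hj0 : (0 : ℝ) ≤ (j : ℝ) := Nat.cast_nonneg j
  have hx0 : 0 ≤ 1 - Real.exp (-σ) := by
    have h1 : Real.exp (-σ) ≤ 1 := Real.exp_le_one_iff.2 (by linarith)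
    linarith
  have hx1 : 1 - Real.exp (-σ) ≤ 1 := by
    have h1 := Real.exp_pos (-σ)
    linarith
  have hpow : (1 - s) ^ κ ≤ Real.exp (-σ) := by
    have h1 : 1 - s ≤ Real.exp (-s) := by
      have h2 := Real.add_one_le_exp (-s)
      linarith
    have h3 : (1 - s) ^ κ ≤ Real.exp (-s) ^ κ := pow_le_pow_left₀ (by linarith) h1 κ
    have h4 : Real.exp (-s) ^ κ = Real.exp (-(s * κ)) := by
      rw [← Real.exp_nat_mul]
      congr 1
      ring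
    rw [h4] at h3
    exact h3.trans (Real.exp_le_exp.2 (by linarith))
  have hpow0 : 0 ≤ (1 - s) ^ κ := pow_nonneg (by linarith) κ
  have hpow1 : (1 - s) ^ κ ≤ 1 := pow_le_one₀ (by linarith) (by linarith)
  refine ⟨⌊(1 - Real.exp (-σ)) * j⌋₊, ?_, ?_⟩
  · have h1 := Nat.lt_floor_add_one ((1 - Real.exp (-σ)) * (j : ℝ))
    linarith
  · have hb : (1 - (1 - (1 - s) ^ κ) / 2) ≤ Real.exp (-((1 - Real.exp (-σ)) / 2)) := by
      have h2 := Real.add_one_le_exp (-((1 - Real.exp (-σ)) / 2))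
      linarith
    have hb2 : (1 - (1 - (1 - s) ^ κ) / 2) ^ (2 * j) ≤ Real.exp (-((1 - Real.exp (-σ)) * j)) := by
      have h3 : (1 - (1 - (1 - s) ^ κ) / 2) ^ (2 * j) ≤
          Real.exp (-((1 - Real.exp (-σ)) / 2)) ^ (2 * j) :=
        pow_le_pow_left₀ (by linarith) hb _
      rw [← Real.exp_nat_mul] at h3
      refine h3.trans (le_of_eq ?_)
      congr 1
      push_cast
      ring
    have h2p : (2 : ℝ) ^ ⌊(1 - Real.exp (-σ)) * (j : ℝ)⌋₊ ≤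
        Real.exp (Real.log 2 * ((1 - Real.exp (-σ)) * j)) := by
      have h4 : (2 : ℝ) ^ ⌊(1 - Real.exp (-σ)) * (j : ℝ)⌋₊ =
          Real.exp (⌊(1 - Real.exp (-σ)) * (j : ℝ)⌋₊ * Real.log 2) := by
        rw [Real.exp_nat_mul, Real.exp_log (by norm_num)]
      rw [h4]
      refine Real.exp_le_exp.2 ?_
      have h5 : ((⌊(1 - Real.exp (-σ)) * (j : ℝ)⌋₊ : ℕ) : ℝ) ≤ (1 - Real.exp (-σ)) * j :=
        Nat.floor_le (mul_nonneg hx0 hj0)
      have h6 : 0 ≤ Real.log 2 := Real.log_nonneg (by norm_num)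
      rw [mul_comm]
      exact mul_le_mul_of_nonneg_left h5 h6
    have hl2 : Real.log 2 ≤ 3 / 4 := by
      have h7 := Real.log_two_lt_d9
      linarith
    have hxj : 0 ≤ (1 - Real.exp (-σ)) * (j : ℝ) := mul_nonneg hx0 hj0
    calc (2 : ℝ) ^ ⌊(1 - Real.exp (-σ)) * (j : ℝ)⌋₊ * (1 - (1 - (1 - s) ^ κ) / 2) ^ (2 * j)
        ≤ Real.exp (Real.log 2 * ((1 - Real.exp (-σ)) * j)) *
          Real.exp (-((1 - Real.exp (-σ)) * j)) := by
          refine mul_le_mul h2p hb2 (pow_nonneg (by linarith) _) (Real.exp_pos _).le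
      _ = Real.exp (Real.log 2 * ((1 - Real.exp (-σ)) * j) + -((1 - Real.exp (-σ)) * j)) :=
          (Real.exp_add _ _).symm
      _ ≤ Real.exp (-((1 - Real.exp (-σ)) * j / 4)) := by
          refine Real.exp_le_exp.2 ?_
          nlinarith

/-- Row K5. `(1 - s)^k ≤ exp (-s k)` and a linear function beats a constant: for every `c > 0`, `ρ > 0` there is `X0` with
`exp (-(c X)) ≤ ρ` for `X ≥ X0`. -/
lemma exp_small (c ρ : ℝ) (hc : 0 < c) (hρ : 0 < ρ) :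
    ∃ X0 : ℝ, 0 < X0 ∧ ∀ X : ℝ, X0 ≤ X → Real.exp (-(c * X)) ≤ ρ := by
  refine ⟨max 1 (-Real.log ρ / c), lt_of_lt_of_le one_pos (le_max_left _ _), fun X hX => ?_⟩
  have h1 : -Real.log ρ / c ≤ X := le_trans (le_max_right _ _) hX
  rw [div_le_iff₀ hc] at h1
  calc Real.exp (-(c * X)) ≤ Real.exp (Real.log ρ) := Real.exp_le_exp.mpr (by nlinarith)
    _ = ρ := Real.exp_log hρ

lemma pow_le_exp {s : ℝ} (hs0 : 0 ≤ s) (hs1 : s ≤ 1) (k : ℕ) : (1 - s) ^ k ≤ Real.exp (-(s * k)) := by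
  have h1 : 1 - s ≤ Real.exp (-s) := by
    have := Real.add_one_le_exp (-s)
    linarith
  calc (1 - s) ^ k ≤ Real.exp (-s) ^ k := pow_le_pow_left₀ (by linarith) h1 k
    _ = Real.exp (-(s * k)) := by
      rw [← Real.exp_nat_mul]
      congr 1
      ring

end Pool.Agent.PERC29.AE
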