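import Pool.Agent.Lib.MP_29e17e_pr.Pro
import Pool.Agent.Lib.MP_29e17e_pr.U.Sl
import Pool.Agent.Lib.MP_29e17e_pr.V.Hp
import Pool.Agent.Lib.MP_29e17e_pr.Y.Bx

set_option autoImplicit false
set_option linter.unusedSectionVars false

/-! Rows 29w-M1 .. 29w-M5: where the points of a large cluster are (Sections 2, 3 of the page). -/

open Finset

namespace Pool.Agent.PERC29.AE

variable {V : Type*} [Fintype V] [DecidableEq V] {E : Type*} [Fintype E] [DecidableEq E]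
  {ends : E → Sym2 V}
  {Vb : Type*} [Fintype Vb] [DecidableEq Vb] {Eb : Type*} [Fintype Eb] [DecidableEq Eb]
  {endb : Eb → Sym2 Vb}

open scoped Classical in
/-- The number of points of the cube `T` of the box with a large cluster in the box. -/
noncomputable def vt (endb : Eb → Sym2 Vb) (ω : Eb → Bool) (T : Finset Vb) (A2 : ℝ) : ℝ :=
  ((T.filter (fun v => A2 ≤ cz endb ω v)).card : ℝ)

open scoped Classical in
/-- Row M1. Deterministic. Every point of `K` outside `Sl` is `φ z v` with `z ∈ 𝒵`, `v ∈ T`. For such a pair `(z, v)` either the cluster of `v` in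
the box is small (second term), or the box is bad (third term), or the pair is counted in the number of `v ∈ T` with `φ z v ∈ K` and a
large cluster, which is less than `β` (not `bad`). Every `x ∈ K` has `t ≤ cz β x` (`hK`). -/
lemma mass_pt {ι : Type*} (𝒵 : Finset ι) (φ : ι → Vb → V) (ψ : ι → Eb → E) (T : Finset Vb)
    (Sl : Finset V) (hcov : ∀ x, x ∉ Sl → ∃ z ∈ 𝒵, ∃ v ∈ T, φ z v = x) {A2 β t : ℝ} (hβ : 0 ≤ β)
    (ω β' : E → Bool) (K : Finset V) (hK : ∀ x ∈ K, t ≤ cz ends β' x) (bad : ι → Prop)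
    (hb : ∀ z ∈ 𝒵, ¬ bad z →
      ((T.filter (fun v => φ z v ∈ K ∧ A2 ≤ cz endb (pl (ψ z) ω) v)).card : ℝ) < β) :
    (K.card : ℝ) ≤ ((Sl.filter (fun x => t ≤ cz ends β' x)).card : ℝ) +
      ∑ z ∈ 𝒵, ∑ v ∈ T, (if cz endb (pl (ψ z) ω) v < A2 ∧ t ≤ cz ends β' (φ z v)
        then (1 : ℝ) else 0) +
      ∑ z ∈ 𝒵, (if bad z then (1 : ℝ) else 0) * vt endb (pl (ψ z) ω) T A2 + β * 𝒵.card := by
  classical
  have hN : ∀ z ∈ 𝒵, ((T.filter (fun v => φ z v ∈ K)).card : ℝ) ≤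
      ∑ v ∈ T, (if cz endb (pl (ψ z) ω) v < A2 ∧ t ≤ cz ends β' (φ z v) then (1 : ℝ) else 0) +
      (if bad z then (1 : ℝ) else 0) * vt endb (pl (ψ z) ω) T A2 + β := by
    intro z hz
    have h1 : (T.filter (fun v => φ z v ∈ K)) ⊆
        (T.filter (fun v => cz endb (pl (ψ z) ω) v < A2 ∧ t ≤ cz ends β' (φ z v))) ∪
        (T.filter (fun v => φ z v ∈ K ∧ A2 ≤ cz endb (pl (ψ z) ω) v)) := by
      intro v hv
      rw [Finset.mem_filter] at hv
      rw [Finset.mem_union, Finset.mem_filter, Finset.mem_filter]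
      rcases lt_or_ge (cz endb (pl (ψ z) ω) v) A2 with h | h
      · exact Or.inl ⟨hv.1, h, hK _ hv.2⟩
      · exact Or.inr ⟨hv.1, hv.2, h⟩
    have h2 : ((T.filter (fun v => φ z v ∈ K)).card : ℝ) ≤
        ((T.filter (fun v => cz endb (pl (ψ z) ω) v < A2 ∧ t ≤ cz ends β' (φ z v))).card : ℝ) +
        ((T.filter (fun v => φ z v ∈ K ∧ A2 ≤ cz endb (pl (ψ z) ω) v)).card : ℝ) := by
      exact_mod_cast (Finset.card_le_card h1).trans (Finset.card_union_le _ _)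
    have h3 : ((T.filter (fun v => cz endb (pl (ψ z) ω) v < A2 ∧ t ≤ cz ends β' (φ z v))).card : ℝ) =
        ∑ v ∈ T, (if cz endb (pl (ψ z) ω) v < A2 ∧ t ≤ cz ends β' (φ z v) then (1 : ℝ) else 0) := by
      rw [Finset.sum_ite, Finset.sum_const_zero, add_zero, Finset.sum_const, nsmul_eq_mul, mul_one]
    have h4 : ((T.filter (fun v => φ z v ∈ K ∧ A2 ≤ cz endb (pl (ψ z) ω) v)).card : ℝ) ≤
        (if bad z then (1 : ℝ) else 0) * vt endb (pl (ψ z) ω) T A2 + β := by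
      by_cases hbz : bad z
      · rw [if_pos hbz, one_mul]
        have : ((T.filter (fun v => φ z v ∈ K ∧ A2 ≤ cz endb (pl (ψ z) ω) v)).card : ℝ) ≤
            vt endb (pl (ψ z) ω) T A2 := by
          unfold vt
          have : (T.filter (fun v => φ z v ∈ K ∧ A2 ≤ cz endb (pl (ψ z) ω) v)) ⊆
              (T.filter (fun v => A2 ≤ cz endb (pl (ψ z) ω) v)) := by
            intro v hv
            rw [Finset.mem_filter] at hv ⊢
            exact ⟨hv.1, hv.2.2⟩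
          exact_mod_cast Finset.card_le_card this
        linarith
      · rw [if_neg hbz, zero_mul, zero_add]
        exact (hb z hz hbz).le
    linarith
  have hsub : K ⊆ (Sl.filter (fun x => t ≤ cz ends β' x)) ∪
      𝒵.biUnion (fun z => (T.filter (fun v => φ z v ∈ K)).image (φ z)) := by
    intro x hx
    rw [Finset.mem_union]
    by_cases hS : x ∈ Sl
    · exact Or.inl (Finset.mem_filter.mpr ⟨hS, hK x hx⟩)
    · obtain ⟨z, hz, v, hv, hzv⟩ := hcov x hS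
      refine Or.inr (Finset.mem_biUnion.mpr ⟨z, hz, Finset.mem_image.mpr ⟨v, ?_, hzv⟩⟩)
      exact Finset.mem_filter.mpr ⟨hv, hzv.symm ▸ hx⟩
  have hc : (K.card : ℝ) ≤ ((Sl.filter (fun x => t ≤ cz ends β' x)).card : ℝ) +
      ∑ z ∈ 𝒵, ((T.filter (fun v => φ z v ∈ K)).card : ℝ) := by
    have h1 := (Finset.card_le_card hsub).trans (Finset.card_union_le _ _)
    have h2 : (𝒵.biUnion (fun z => (T.filter (fun v => φ z v ∈ K)).image (φ z))).card ≤
        ∑ z ∈ 𝒵, (T.filter (fun v => φ z v ∈ K)).card :=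
      Finset.card_biUnion_le.trans (Finset.sum_le_sum (fun z _ => Finset.card_image_le))
    exact_mod_cast h1.trans (Nat.add_le_add_left h2 _)
  have hs := Finset.sum_le_sum hN
  rw [Finset.sum_add_distrib, Finset.sum_add_distrib, Finset.sum_const, nsmul_eq_mul,
    mul_comm (𝒵.card : ℝ) β] at hs
  linarith

open scoped Classical in
/-- auxiliary for row M2 -/
private lemma M2_min {p C w : ℝ} (h0 : 0 ≤ p) (h1 : p ≤ 1) (hC : 0 ≤ C) (x : V)
    (hT : ∀ k : ℕ, 1 ≤ k → Ex p (fun ω => if (k : ℝ) ≤ cz ends ω x then (1 : ℝ) else 0) ≤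
      C * (1 / Real.sqrt k + w)) {a : ℝ} (ha : 1 ≤ a) :
    Ex p (fun ω => min (cz ends ω x) a) ≤ 3 * C * Real.sqrt a + C * w * a := by
  set m : ℕ := ⌊a⌋₊ with hm
  have ham : (m : ℝ) ≤ a := Nat.floor_le (by linarith)
  have hma : a < (m : ℝ) + 1 := Nat.lt_floor_add_one a
  have hpt : ∀ ω : E → Bool, min (cz ends ω x) a ≤
      ∑ k ∈ Finset.Icc 1 m, (if (k : ℝ) ≤ cz ends ω x then (1 : ℝ) else 0) +
        (a - m) * (if ((m + 1 : ℕ) : ℝ) ≤ cz ends ω x then (1 : ℝ) else 0) := by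
    intro ω
    unfold cz
    set c := (cu ends ω x).card with hc
    have h2 : ∑ k ∈ Finset.Icc 1 m, (if (k : ℝ) ≤ (c : ℝ) then (1 : ℝ) else 0) =
        ((min c m : ℕ) : ℝ) := by
      rw [← Finset.sum_filter, Finset.sum_const, nsmul_eq_mul, mul_one]
      congr 1
      have : (Finset.Icc 1 m).filter (fun k : ℕ => (k : ℝ) ≤ (c : ℝ)) = Finset.Icc 1 (min c m) := by
        ext k
        simp only [Finset.mem_filter, Finset.mem_Icc, Nat.cast_le, le_min_iff]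
        tauto
      rw [this, Nat.card_Icc]
      simp
    rw [h2]
    by_cases hcm : c ≤ m
    · rw [min_eq_left hcm]
      have h3 : 0 ≤ (a - m) * (if ((m + 1 : ℕ) : ℝ) ≤ (c : ℝ) then (1 : ℝ) else 0) :=
        mul_nonneg (by linarith) (by split_ifs <;> norm_num)
      exact (min_le_left _ _).trans (by linarith)
    · have hcm' : m + 1 ≤ c := by omega
      rw [min_eq_right (by omega : m ≤ c), if_pos (by exact_mod_cast hcm'), mul_one]
      exact (min_le_right _ _).trans (by linarith)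
  have hE := Ex_mono h0 h1 hpt
  rw [Ex_add, Ex_sum, Ex_mul_left] at hE
  have hs1 : ∑ k ∈ Finset.Icc 1 m, Ex p (fun ω => if (k : ℝ) ≤ cz ends ω x then (1 : ℝ) else 0) ≤
      C * (2 * Real.sqrt m) + C * w * m := by
    calc _ ≤ ∑ k ∈ Finset.Icc 1 m, C * (1 / Real.sqrt (k : ℝ) + w) :=
          Finset.sum_le_sum fun k hk => hT k (Finset.mem_Icc.1 hk).1
      _ = C * (∑ k ∈ Finset.Icc 1 m, 1 / Real.sqrt (k : ℝ)) + C * w * m := by
          rw [← Finset.mul_sum, Finset.sum_add_distrib, Finset.sum_const, Nat.card_Icc]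
          simp
          ring
      _ ≤ _ := by
          have := mul_le_mul_of_nonneg_left (sum_inv_sqrt m) hC
          linarith
  have hs2 := hT (m + 1) (by omega)
  have hs3 : (a - m) * Ex p (fun ω => if ((m + 1 : ℕ) : ℝ) ≤ cz ends ω x then (1 : ℝ) else 0) ≤
      C * Real.sqrt a + C * w * (a - m) := by
    have h4 := mul_le_mul_of_nonneg_left hs2 (by linarith : 0 ≤ a - m)
    have h5 : (1 : ℝ) ≤ Real.sqrt ((m + 1 : ℕ) : ℝ) := by
      rw [Real.one_le_sqrt]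
      push_cast
      have : (0 : ℝ) ≤ m := Nat.cast_nonneg _
      linarith
    have h6 : 1 / Real.sqrt ((m + 1 : ℕ) : ℝ) ≤ 1 := by
      rw [div_le_one (by linarith)]; exact h5
    have h7 : (1 : ℝ) ≤ Real.sqrt a := by rw [Real.one_le_sqrt]; exact ha
    have h8 : (a - m) * (C * (1 / Real.sqrt ((m + 1 : ℕ) : ℝ) + w)) =
        C * ((a - m) * (1 / Real.sqrt ((m + 1 : ℕ) : ℝ))) + C * w * (a - m) := by ring
    have h9 : (a - m) * (1 / Real.sqrt ((m + 1 : ℕ) : ℝ)) ≤ Real.sqrt a := by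
      have h10 : 0 ≤ 1 / Real.sqrt ((m + 1 : ℕ) : ℝ) := by positivity
      nlinarith
    have h11 := mul_le_mul_of_nonneg_left h9 hC
    linarith
  have hs4 : C * (2 * Real.sqrt m) ≤ C * (2 * Real.sqrt a) := by
    apply mul_le_mul_of_nonneg_left _ hC
    have := Real.sqrt_le_sqrt ham
    linarith
  have hs5 : C * w * m + C * w * (a - m) = C * w * a := by ring
  linarith

/-- auxiliary for row M2 -/
private lemma M2_half {t : ℝ} (ht : 1 ≤ t) (ω : E → Bool) (x : V) (h : t ≤ cz ends ω x) :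
    1 / 2 ≤ mg ends (1 / t) x ω := by
  have ht0 : 0 < t := by linarith
  unfold mg
  set c : ℕ := (cl ends ω Set.univ x).card with hc
  have ht1 : t ≤ (c : ℝ) := h
  have h2 : (1 - 1 / t) ^ c ≤ Real.exp (-1) := by
    have h3 : 1 - 1 / t ≤ Real.exp (-(1 / t)) := by
      have := Real.add_one_le_exp (-(1 / t))
      linarith
    have h4 : 0 ≤ 1 - 1 / t := by
      have : 1 / t ≤ 1 := by rw [div_le_one ht0]; exact ht
      linarith
    calc (1 - 1 / t) ^ c ≤ (Real.exp (-(1 / t))) ^ c := pow_le_pow_left₀ h4 h3 c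
      _ = Real.exp (c * (-(1 / t))) := by rw [← Real.exp_nat_mul]
      _ ≤ Real.exp (-1) := by
          apply Real.exp_le_exp.2
          have : 1 ≤ (c : ℝ) * (1 / t) := by
            rw [mul_one_div, le_div_iff₀ ht0]; linarith
          linarith
  have h5 : Real.exp (-1) ≤ 1 / 2 := by
    rw [Real.exp_neg, one_div]
    apply inv_anti₀ (by norm_num)
    have := Real.add_one_le_exp (1 : ℝ)
    linarith
  linarith

open scoped Classical in
/-- Row M2. Small cluster before, large cluster after sprinkling: `small_part` with `g = 1/t`, `W = D` (degree); if `t ≤ |C|` then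
`mg = 1 - (1 - 1/t)^|C| ≥ 1 - exp (-1) ≥ 1/2`. The bound `M`: `mg ≤ min 1 (g |C|)`, `E min (|C|) t ≤ ∑ k ≤ t, P(k ≤ |C|) ≤ 3 C √t + C e t`
(`min_tail2` of Pro.lean), so `M = g (3 C √t + C e t)`. And `Ex p min (cz) A2 ≤ 3 C √A2` (`min_tail`). -/
lemma small_large {p s C e t A2 D : ℝ} (h0 : 0 ≤ p) (h1 : p ≤ 1) (hs0 : 0 ≤ s) (hs1 : s ≤ 1)
    (hC : 0 ≤ C) (he : 0 ≤ e) (ht : 1 ≤ t) (hA : 1 ≤ A2) (hdeg : ∀ x, ∑ y, nb ends x y ≤ D)
    (hT : ∀ x, ∀ k : ℕ, 1 ≤ k → Ex p (fun ω => if (k : ℝ) ≤ cz ends ω x then (1 : ℝ) else 0) ≤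
      C / Real.sqrt k)
    (hT' : ∀ x, ∀ k : ℕ, 1 ≤ k → Ex (1 - (1 - p) * (1 - s)) (fun ω => if (k : ℝ) ≤ cz ends ω x
      then (1 : ℝ) else 0) ≤ C * (1 / Real.sqrt k + e)) (x : V) :
    Ex p (fun ω => Ex s (fun η => if cz ends ω x < A2 ∧ t ≤ cz ends (orc ω η) x
      then (1 : ℝ) else 0)) ≤
      2 * (1 / t + s * D * (3 * C * Real.sqrt t + C * e * t) / t) * (3 * C * Real.sqrt A2) := by
  have ht0 : 0 < t := by linarith
  have hr0 : 0 ≤ 1 - (1 - p) * (1 - s) := by nlinarith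
  have hr1 : 1 - (1 - p) * (1 - s) ≤ 1 := by nlinarith
  have hg1 : 1 / t ≤ 1 := by rw [div_le_one ht0]; exact ht
  set M : ℝ := (1 / t) * (3 * C * Real.sqrt t + C * e * t) with hM
  have hMq : ∀ y, Ex (1 - (1 - p) * (1 - s)) (mg ends (1 / t) y) ≤ M := by
    intro y
    refine (mg_min hr0 hr1 ht y).trans ?_
    exact mul_le_mul_of_nonneg_left (M2_min hr0 hr1 hC y (hT' y) ht) (by positivity)
  have h1' := small_part (ends := ends) (p := p) (s := s) (g := 1 / t) (M := M) (W := D)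
    (a := A2) h0 h1 hs0 hs1 (by positivity) hg1 hMq hdeg (by linarith) x
  have h2 : Ex p (fun ω => Ex s (fun η => if cz ends ω x < A2 ∧ t ≤ cz ends (orc ω η) x
      then (1 : ℝ) else 0)) ≤
      2 * Ex p (fun ω => Ex s (fun ω' => (if cz ends ω x < A2 then 1 else 0) *
        mg ends (1 / t) x (orc ω ω'))) := by
    rw [← Ex_mul_left]
    refine Ex_mono h0 h1 fun ω => ?_
    rw [← Ex_mul_left]
    refine Ex_mono hs0 hs1 fun ω' => ?_
    by_cases hc : cz ends ω x < A2 ∧ t ≤ cz ends (orc ω ω') x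
    · rw [if_pos hc, if_pos hc.1]
      have := M2_half (ends := ends) ht (orc ω ω') x hc.2
      linarith
    · rw [if_neg hc]
      have h3 : 0 ≤ mg ends (1 / t) x (orc ω ω') := by
        unfold mg
        have h4 : 0 ≤ 1 - 1 / t := by linarith
        have h5 : (1 - 1 / t) ^ (cl ends (orc ω ω') Set.univ x).card ≤ 1 :=
          pow_le_one₀ h4 (by have : 0 ≤ 1 / t := by positivity
                             linarith)
        linarith
      split_ifs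
      · rw [one_mul]; linarith
      · rw [zero_mul, mul_zero]
  have h3 := min_tail (ends := ends) h0 h1 hC x (hT x) hA
  have hM0 : 0 ≤ M := by positivity
  have hD0 : 0 ≤ D := le_trans (Finset.sum_nonneg fun y _ => nb_nonneg x y) (hdeg x)
  have h4 : 0 ≤ 1 / t + s * D * M := by positivity
  have h5 : s * D * (3 * C * Real.sqrt t + C * e * t) / t = s * D * M := by
    rw [hM]; ring
  rw [h5]
  calc _ ≤ 2 * Ex p (fun ω => Ex s (fun ω' => (if cz ends ω x < A2 then 1 else 0) *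
        mg ends (1 / t) x (orc ω ω'))) := h2
    _ ≤ 2 * ((1 / t + s * D * M) * Ex p (fun ω => min (cz ends ω x) A2)) :=
        mul_le_mul_of_nonneg_left h1' (by norm_num)
    _ ≤ 2 * ((1 / t + s * D * M) * (3 * C * Real.sqrt A2)) := by
        refine mul_le_mul_of_nonneg_left ?_ (by norm_num)
        exact mul_le_mul_of_nonneg_left h3 h4
    _ = _ := by ring

private lemma M3_assoc (ω ω' ω'' : E → Bool) : orc (orc ω ω') ω'' = orc ω (orc ω' ω'') := by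
  funext e
  unfold orc
  exact Bool.or_assoc _ _ _

open scoped Classical in
/-- Row M3. The same for a point of a box: if the cluster of `v` in the box meets `Bd` use `hbd` (law of `pl ψ ω`: `Ex_pull`), otherwise the
sizes agree (`cz_loc`) and `small_large` applies. The three sprinklings are one with `s = 1 - (1-s1)(1-s2)(1-s3)` (`Ex_orc`, `orc` is
associative). -/
lemma small_box {p s1 s2 s3 C e t A2 D δ1 : ℝ} (h0 : 0 ≤ p) (h1 : p ≤ 1) (h10 : 0 ≤ s1) (h11 : s1 ≤ 1)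
    (h20 : 0 ≤ s2) (h21 : s2 ≤ 1) (h30 : 0 ≤ s3) (h31 : s3 ≤ 1)
    (hC : 0 ≤ C) (he : 0 ≤ e) (ht : 1 ≤ t) (hA : 1 ≤ A2) (hD : 0 ≤ D)
    (hdeg : ∀ x, ∑ y, nb ends x y ≤ D)
    (hT : ∀ x, ∀ k : ℕ, 1 ≤ k → Ex p (fun ω => if (k : ℝ) ≤ cz ends ω x then (1 : ℝ) else 0) ≤
      C / Real.sqrt k)
    (hT' : ∀ x, ∀ k : ℕ, 1 ≤ k → Ex (1 - (1 - p) * (1 - s1) * (1 - s2) * (1 - s3)) (fun ω =>
      if (k : ℝ) ≤ cz ends ω x then (1 : ℝ) else 0) ≤ C * (1 / Real.sqrt k + e))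
    {φ : Vb → V} {ψ : Eb → E} (h : Emb ends endb φ ψ) (Bd : Finset Vb)
    (hloc : ∀ e u, u ∉ Bd → φ u ∈ ends e → ∃ e', ψ e' = e) (v : Vb)
    (hbd : Ex p (fun ω : Eb → Bool => if ¬ Disjoint (cu endb ω v) Bd then (1 : ℝ) else 0) ≤ δ1) :
    Ex p (fun ω => Ex s1 (fun η1 => Ex s2 (fun η2 => Ex s3 (fun η3 =>
      if cz endb (pl ψ ω) v < A2 ∧ t ≤ cz ends (orc (orc (orc ω η1) η2) η3) (φ v)
        then (1 : ℝ) else 0)))) ≤ δ1 +
      2 * (1 / t + (1 - (1 - s1) * (1 - s2) * (1 - s3)) * D * (3 * C * Real.sqrt t + C * e * t) / t) *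
        (3 * C * Real.sqrt A2) := by
  obtain ⟨s, hs⟩ : ∃ s : ℝ, s = 1 - (1 - s1) * (1 - s2) * (1 - s3) := ⟨_, rfl⟩
  have k1 : 0 ≤ 1 - s1 := by linarith
  have k2 : 0 ≤ 1 - s2 := by linarith
  have k3 : 0 ≤ 1 - s3 := by linarith
  have k12 : 0 ≤ (1 - s1) * (1 - s2) := mul_nonneg k1 k2
  have k12' : (1 - s1) * (1 - s2) ≤ 1 := mul_le_one₀ (by linarith) k2 (by linarith)
  have hs1 : s ≤ 1 := by rw [hs]; have := mul_nonneg k12 k3; linarith
  have hs0 : 0 ≤ s := by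
    rw [hs]
    have := mul_le_one₀ k12' k3 (by linarith)
    linarith
  -- one sprinkling
  have e1 : ∀ ω : E → Bool, Ex s1 (fun η1 => Ex s2 (fun η2 => Ex s3 (fun η3 =>
      if cz endb (pl ψ ω) v < A2 ∧ t ≤ cz ends (orc (orc (orc ω η1) η2) η3) (φ v)
        then (1 : ℝ) else 0))) = Ex s (fun η => if cz endb (pl ψ ω) v < A2 ∧
        t ≤ cz ends (orc ω η) (φ v) then (1 : ℝ) else 0) := by
    intro ω
    have e3 : s = 1 - (1 - (1 - (1 - s1) * (1 - s2))) * (1 - s3) := by rw [hs]; ring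
    rw [e3, Ex_orc, Ex_orc]
    refine Ex_congr fun η1 => Ex_congr fun η2 => Ex_congr fun η3 => ?_
    rw [M3_assoc ω η1 η2, M3_assoc ω (orc η1 η2) η3]
  rw [Ex_congr e1, ← hs]
  -- pointwise
  have e2 : ∀ ω : E → Bool, Ex s (fun η => if cz endb (pl ψ ω) v < A2 ∧
      t ≤ cz ends (orc ω η) (φ v) then (1 : ℝ) else 0) ≤
      (if ¬ Disjoint (cu endb (pl ψ ω) v) Bd then (1 : ℝ) else 0) +
      Ex s (fun η => if cz ends ω (φ v) < A2 ∧
        t ≤ cz ends (orc ω η) (φ v) then (1 : ℝ) else 0) := by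
    intro ω
    by_cases hd : Disjoint (cu endb (pl ψ ω) v) Bd
    · rw [if_neg (not_not.mpr hd), zero_add, cz_loc h Bd hloc ω v hd]
    · rw [if_pos hd]
      have g1 : Ex s (fun η : E → Bool => if cz endb (pl ψ ω) v < A2 ∧
          t ≤ cz ends (orc ω η) (φ v) then (1 : ℝ) else 0) ≤ 1 := by
        have := Ex_mono hs0 hs1 (f := fun η : E → Bool => if cz endb (pl ψ ω) v < A2 ∧
          t ≤ cz ends (orc ω η) (φ v) then (1 : ℝ) else 0) (g := fun _ => (1 : ℝ))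
          (fun η => by split_ifs <;> norm_num)
        rwa [Ex_const] at this
      have g2 : 0 ≤ Ex s (fun η : E → Bool => if cz ends ω (φ v) < A2 ∧
          t ≤ cz ends (orc ω η) (φ v) then (1 : ℝ) else 0) :=
        Ex_nonneg hs0 hs1 fun η => by split_ifs <;> norm_num
      linarith
  refine (Ex_mono h0 h1 e2).trans ?_
  rw [Ex_add]
  refine add_le_add ?_ ?_
  · refine le_trans (le_of_eq ?_) hbd
    exact Ex_pull p ψ h.injE (fun ω : Eb → Bool =>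
      if ¬ Disjoint (cu endb ω v) Bd then (1 : ℝ) else 0)
  · refine small_large h0 h1 hs0 hs1 hC he ht hA hdeg hT ?_ (φ v)
    have e4 : 1 - (1 - p) * (1 - s) = 1 - (1 - p) * (1 - s1) * (1 - s2) * (1 - s3) := by
      rw [hs]; ring
    rw [e4]
    exact hT'

/-- The indicator of a large cluster at `x`. -/
private noncomputable def M4_I {U : Type*} (A2 : ℝ) (A : Finset U) : ℝ := by
  classical
  exact if A2 ≤ (A.card : ℝ) then 1 else 0

private lemma M4_I_nonneg {U : Type*} (A2 : ℝ) (A : Finset U) : 0 ≤ M4_I A2 A := by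
  unfold M4_I
  split_ifs <;> norm_num

private lemma M4_I_le {U : Type*} (A2 : ℝ) (A : Finset U) : M4_I A2 A ≤ 1 := by
  unfold M4_I
  split_ifs <;> norm_num

private lemma M4_I_mono {U : Type*} (A2 : ℝ) (A B : Finset U) (h : A ⊆ B) : M4_I A2 A ≤ M4_I A2 B := by
  unfold M4_I
  have hc : (A.card : ℝ) ≤ (B.card : ℝ) := by exact_mod_cast Finset.card_le_card h
  split_ifs with h1 h2
  · exact le_refl _
  · exact absurd (h1.trans hc) h2
  · norm_num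
  · exact le_refl _

/-- The pairs. -/
private lemma M4_pair {p : ℝ} (h0 : 0 ≤ p) (h1 : p ≤ 1) (A2 : ℝ) (x y : Vb) :
    Ex p (fun ω => M4_I A2 (cu endb ω x) * M4_I A2 (cu endb ω y)) ≤
      ta endb p x y + Ex p (fun ω => M4_I A2 (cu endb ω x)) * Ex p (fun ω => M4_I A2 (cu endb ω y)) := by
  have h2 := two (ends := endb) h0 h1 x y (M4_I A2) (M4_I_nonneg A2) (M4_I A2) (M4_I_nonneg A2) (M4_I_mono A2)
  have h3 : Ex p (fun ω => M4_I A2 (cu endb ω x) * M4_I A2 (cu endb ω y)) ≤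
      Ex p (fun ω => (if y ∈ cu endb ω x then (1 : ℝ) else 0) +
        (if y ∈ cu endb ω x then 0 else 1) * (M4_I A2 (cu endb ω x) * M4_I A2 (cu endb ω y))) := by
    apply Ex_mono h0 h1
    intro ω
    by_cases hy : y ∈ cu endb ω x
    · rw [if_pos hy, if_pos hy, zero_mul, add_zero]
      have ha := M4_I_le A2 (cu endb ω x)
      have hb := M4_I_le A2 (cu endb ω y)
      have hc := M4_I_nonneg A2 (cu endb ω x)
      have hd := M4_I_nonneg A2 (cu endb ω y)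
      nlinarith
    · rw [if_neg hy, if_neg hy, one_mul, zero_add]
  rw [Ex_add] at h3
  refine h3.trans ?_
  unfold ta
  linarith

open scoped Classical in
/-- Row M4. Second moment of the number of points with a large cluster (compare `large_many`, file 29v_S2.lean): the pairs in one cluster
contribute at most `∑ x ∈ T, E |C(x)| ≤ |T| X`, the pairs in distinct clusters at most `(∑ x ∈ T, P(A2 ≤ |C(x)|))² ≤ (|T| q)²` (`two`). -/
lemma vt_sq {p X q A2 : ℝ} (h0 : 0 ≤ p) (h1 : p ≤ 1) (hX : ∀ x, Ex p (fun ω => cz endb ω x) ≤ X)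
    (T : Finset Vb) (hq : ∀ x ∈ T, Ex p (fun ω => if A2 ≤ cz endb ω x then (1 : ℝ) else 0) ≤ q) :
    Ex p (fun ω => vt endb ω T A2 ^ 2) ≤ (T.card * q) ^ 2 + T.card * X := by
  have hI : ∀ (ω : Eb → Bool) (x : Vb), (if A2 ≤ cz endb ω x then (1 : ℝ) else 0) =
      M4_I A2 (cu endb ω x) := by
    intro ω x
    unfold M4_I cz
    by_cases h : A2 ≤ ((cu endb ω x).card : ℝ)
    · simp only [if_pos h]
    · simp only [if_neg h]
  have hN : ∀ ω : Eb → Bool, vt endb ω T A2 = ∑ x ∈ T, M4_I A2 (cu endb ω x) := by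
    intro ω
    unfold vt
    rw [Finset.card_filter]
    push_cast
    exact Finset.sum_congr rfl fun x _ => hI ω x
  have hq' : ∀ x ∈ T, Ex p (fun ω => M4_I A2 (cu endb ω x)) ≤ q := by
    intro x hx
    refine le_trans (le_of_eq ?_) (hq x hx)
    exact Ex_congr fun ω => (hI ω x).symm
  obtain ⟨m, hm⟩ : ∃ m : ℝ, m = ∑ x ∈ T, Ex p (fun ω => M4_I A2 (cu endb ω x)) := ⟨_, rfl⟩
  have hm0 : 0 ≤ m := by
    rw [hm]
    exact Finset.sum_nonneg fun x _ => Ex_nonneg h0 h1 fun ω => M4_I_nonneg _ _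
  have hm1 : m ≤ T.card * q := by
    have h3 : ∑ x ∈ T, Ex p (fun ω => M4_I A2 (cu endb ω x)) ≤ ∑ _x ∈ T, q := Finset.sum_le_sum hq'
    rw [Finset.sum_const, nsmul_eq_mul] at h3
    rw [hm]
    exact h3
  have hta : ∑ x ∈ T, ∑ y ∈ T, ta endb p x y ≤ T.card * X := by
    have h3 : ∀ x : Vb, ∑ y ∈ T, ta endb p x y ≤ X := by
      intro x
      have h4 : ∑ y ∈ T, ta endb p x y ≤ ∑ y, ta endb p x y :=
        Finset.sum_le_sum_of_subset_of_nonneg (Finset.subset_univ _) fun y _ _ => ta_nonneg h0 h1 x y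
      rw [ta_sum] at h4
      exact h4.trans (hX x)
    have h6 : ∑ x ∈ T, ∑ y ∈ T, ta endb p x y ≤ ∑ _x ∈ T, X := Finset.sum_le_sum fun x _ => h3 x
    rw [Finset.sum_const, nsmul_eq_mul] at h6
    exact h6
  have h3 : Ex p (fun ω => vt endb ω T A2 ^ 2) =
      ∑ x ∈ T, ∑ y ∈ T, Ex p (fun ω => M4_I A2 (cu endb ω x) * M4_I A2 (cu endb ω y)) := by
    have h4 : ∀ ω : Eb → Bool, vt endb ω T A2 ^ 2 =
        ∑ x ∈ T, ∑ y ∈ T, M4_I A2 (cu endb ω x) * M4_I A2 (cu endb ω y) := by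
      intro ω
      rw [hN ω, sq, Finset.sum_mul_sum]
    rw [Ex_congr h4, Ex_sum]
    exact Finset.sum_congr rfl fun x _ => Ex_sum _ _ _
  rw [h3]
  have h5 : ∑ x ∈ T, ∑ y ∈ T, Ex p (fun ω => M4_I A2 (cu endb ω x) * M4_I A2 (cu endb ω y)) ≤
      ∑ x ∈ T, ∑ y ∈ T, (ta endb p x y + Ex p (fun ω => M4_I A2 (cu endb ω x)) *
        Ex p (fun ω => M4_I A2 (cu endb ω y))) :=
    Finset.sum_le_sum fun x _ => Finset.sum_le_sum fun y _ => M4_pair h0 h1 A2 x y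
  refine h5.trans ?_
  have h6 : ∑ x ∈ T, ∑ y ∈ T, (ta endb p x y + Ex p (fun ω => M4_I A2 (cu endb ω x)) *
        Ex p (fun ω => M4_I A2 (cu endb ω y))) = ∑ x ∈ T, ∑ y ∈ T, ta endb p x y + m * m := by
    rw [hm, Finset.sum_mul_sum, ← Finset.sum_add_distrib]
    exact Finset.sum_congr rfl fun x _ => Finset.sum_add_distrib
  rw [h6]
  nlinarith

open scoped Classical in
/-- Row M4 (second half). Cauchy-Schwarz: for fixed `ω` let `f ω = Ex s (fun η => 1[A ω η]) ≤ 1`; `Ex (v f)² ≤ Ex v² Ex f² ≤ Ex v² Ex f` (`Ex_csq`). -/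
lemma vt_bad {p s Y2 ρ : ℝ} (h0 : 0 ≤ p) (h1 : p ≤ 1) (hs0 : 0 ≤ s) (hs1 : s ≤ 1)
    (v : (E → Bool) → ℝ) (hv : ∀ ω, 0 ≤ v ω) (A : (E → Bool) → (E → Bool) → Prop)
    (hY : Ex p (fun ω => v ω ^ 2) ≤ Y2) (hA : P2 p s A ≤ ρ) :
    Ex p (fun ω => Ex s (fun η => (if A ω η then (1 : ℝ) else 0) * v ω)) ≤
      Real.sqrt Y2 * Real.sqrt ρ := by
  obtain ⟨f, hf⟩ : ∃ f : (E → Bool) → ℝ, f = fun ω => Ex s (fun η => if A ω η then (1 : ℝ) else 0) :=
    ⟨_, rfl⟩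
  have hf0 : ∀ ω, 0 ≤ f ω := by
    intro ω
    rw [hf]
    apply Ex_nonneg hs0 hs1
    intro η
    split_ifs <;> norm_num
  have hf1 : ∀ ω, f ω ≤ 1 := by
    intro ω
    have h2 : f ω ≤ Ex s (fun _ : E → Bool => (1 : ℝ)) := by
      rw [hf]
      apply Ex_mono hs0 hs1
      intro η
      split_ifs <;> norm_num
    rw [Ex_const] at h2
    exact h2
  have h3 : Ex p (fun ω => Ex s (fun η => (if A ω η then (1 : ℝ) else 0) * v ω)) =
      Ex p (fun ω => v ω * f ω) := by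
    apply Ex_congr
    intro ω
    rw [hf]
    rw [← Ex_mul_left]
    apply Ex_congr
    intro η
    ring
  rw [h3]
  have h4 := Ex_csq h0 h1 v f
  have h5 : Ex p (fun ω => f ω ^ 2) ≤ ρ := by
    refine le_trans (Ex_mono h0 h1 (g := f) ?_) ?_
    · intro ω
      have ha := hf0 ω
      have hb := hf1 ω
      nlinarith
    · rw [hf]
      exact hA
  have h6 : 0 ≤ Ex p (fun ω => v ω ^ 2) := Ex_nonneg h0 h1 fun ω => sq_nonneg _
  have h7 : 0 ≤ Ex p (fun ω => f ω ^ 2) := Ex_nonneg h0 h1 fun ω => sq_nonneg _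
  have h8 : 0 ≤ Y2 := h6.trans hY
  rw [← Real.sqrt_mul h8]
  apply Real.le_sqrt_of_sq_le
  exact h4.trans (mul_le_mul hY h5 h7 h8)

/-- The fourfold expectation. -/
noncomputable def M5_E4 (p s1 s2 s3 : ℝ)
    (f : (E → Bool) → (E → Bool) → (E → Bool) → (E → Bool) → ℝ) : ℝ :=
  Ex p (fun ω => Ex s1 (fun η1 => Ex s2 (fun η2 => Ex s3 (fun η3 => f ω η1 η2 η3))))

lemma M5_mono {p s1 s2 s3 : ℝ} (h0 : 0 ≤ p) (h1 : p ≤ 1) (h10 : 0 ≤ s1) (h11 : s1 ≤ 1)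
    (h20 : 0 ≤ s2) (h21 : s2 ≤ 1) (h30 : 0 ≤ s3) (h31 : s3 ≤ 1)
    {f g : (E → Bool) → (E → Bool) → (E → Bool) → (E → Bool) → ℝ}
    (h : ∀ ω η1 η2 η3, f ω η1 η2 η3 ≤ g ω η1 η2 η3) :
    M5_E4 p s1 s2 s3 f ≤ M5_E4 p s1 s2 s3 g :=
  Ex_mono h0 h1 fun ω => Ex_mono h10 h11 fun η1 => Ex_mono h20 h21 fun η2 =>
    Ex_mono h30 h31 fun η3 => h ω η1 η2 η3

lemma M5_add (p s1 s2 s3 : ℝ)
    (f g : (E → Bool) → (E → Bool) → (E → Bool) → (E → Bool) → ℝ) :
    M5_E4 p s1 s2 s3 (fun ω η1 η2 η3 => f ω η1 η2 η3 + g ω η1 η2 η3) =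
      M5_E4 p s1 s2 s3 f + M5_E4 p s1 s2 s3 g := by
  unfold M5_E4
  rw [← Ex_add]
  refine Ex_congr fun ω => ?_
  rw [← Ex_add]
  refine Ex_congr fun η1 => ?_
  rw [← Ex_add]
  refine Ex_congr fun η2 => ?_
  rw [← Ex_add]

lemma M5_mul (p s1 s2 s3 c : ℝ)
    (f : (E → Bool) → (E → Bool) → (E → Bool) → (E → Bool) → ℝ) :
    M5_E4 p s1 s2 s3 (fun ω η1 η2 η3 => c * f ω η1 η2 η3) = c * M5_E4 p s1 s2 s3 f := by
  unfold M5_E4
  rw [← Ex_mul_left]
  refine Ex_congr fun ω => ?_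
  rw [← Ex_mul_left]
  refine Ex_congr fun η1 => ?_
  rw [← Ex_mul_left]
  refine Ex_congr fun η2 => ?_
  rw [← Ex_mul_left]

lemma M5_sum {κ : Type*} (S : Finset κ) (p s1 s2 s3 : ℝ)
    (f : κ → (E → Bool) → (E → Bool) → (E → Bool) → (E → Bool) → ℝ) :
    M5_E4 p s1 s2 s3 (fun ω η1 η2 η3 => ∑ i ∈ S, f i ω η1 η2 η3) =
      ∑ i ∈ S, M5_E4 p s1 s2 s3 (f i) := by
  unfold M5_E4
  rw [← Ex_sum]
  refine Ex_congr fun ω => ?_
  rw [← Ex_sum]
  refine Ex_congr fun η1 => ?_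
  rw [← Ex_sum]
  refine Ex_congr fun η2 => ?_
  rw [← Ex_sum]

lemma M5_two (p s1 s2 s3 : ℝ) (f : (E → Bool) → (E → Bool) → ℝ) :
    M5_E4 p s1 s2 s3 (fun ω η1 _ _ => f ω η1) = Ex p (fun ω => Ex s1 (fun η1 => f ω η1)) := by
  unfold M5_E4
  refine Ex_congr fun ω => Ex_congr fun η1 => ?_
  rw [Ex_const, Ex_const]

lemma M5_orc (p s1 s2 s3 : ℝ) (f : (E → Bool) → ℝ) :
    M5_E4 p s1 s2 s3 (fun ω η1 η2 η3 => f (orc (orc (orc ω η1) η2) η3)) =
      Ex (1 - (1 - p) * (1 - s1) * (1 - s2) * (1 - s3)) f := by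
  have e1 : (1 - (1 - p) * (1 - s1) * (1 - s2) * (1 - s3) : ℝ) =
      1 - (1 - (1 - (1 - p) * (1 - s1) * (1 - s2))) * (1 - s3) := by ring
  have e2 : (1 - (1 - p) * (1 - s1) * (1 - s2) : ℝ) =
      1 - (1 - (1 - (1 - p) * (1 - s1))) * (1 - s2) := by ring
  rw [e1, Ex_orc, e2, Ex_orc, Ex_orc]
  rfl

open scoped Classical in
/-- The indicator is at most the Markov bound. -/
lemma M5_pt {ι : Type*}
    (𝒵 : Finset ι) (φ : ι → Vb → V) (ψ : ι → Eb → E)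
    {k2 A2 β t : ℝ} {kk κ j : ℕ} (ht : 0 < t) (hβ : 0 ≤ β) (W T : Finset Vb) (hTW : T ⊆ W)
    (Sl : Finset V) (hcov : ∀ x, x ∉ Sl → ∃ z ∈ 𝒵, ∃ v ∈ T, φ z v = x)
    (Γ : Finset V) (bad : ι → Prop) (G : Prop) (ω β' : E → Bool)
    (hgood : G → ∀ z ∈ 𝒵, ¬ bad z → ¬ BadE2 endb (pl (ψ z) ω) W k2 A2 β kk κ j ∧
      β ≤ vol endb (pl (ψ z) ω) W A2 (pre (φ z) Γ))
    (hβ2 : β * 𝒵.card < t / 2) :
    (if G ∧ ∃ x, t ≤ cz ends β' x ∧ ¬ Shb 𝒵 φ ψ endb W k2 A2 β kk κ j ω Γ (cu ends β' x)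
      then (1 : ℝ) else 0) ≤
      1 / (t / 2) * ((∑ x ∈ Sl, (if t ≤ cz ends β' x then (1 : ℝ) else 0)) +
      ((∑ z ∈ 𝒵, ∑ v ∈ T, (if cz endb (pl (ψ z) ω) v < A2 ∧ t ≤ cz ends β' (φ z v)
        then (1 : ℝ) else 0)) +
      ∑ z ∈ 𝒵, (if bad z then (1 : ℝ) else 0) * vt endb (pl (ψ z) ω) T A2)) := by
  have hn1 : (0 : ℝ) ≤ ∑ x ∈ Sl, (if t ≤ cz ends β' x then (1 : ℝ) else 0) :=
    Finset.sum_nonneg fun x _ => by split_ifs <;> norm_num
  have hn2 : (0 : ℝ) ≤ ∑ z ∈ 𝒵, ∑ v ∈ T,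
      (if cz endb (pl (ψ z) ω) v < A2 ∧ t ≤ cz ends β' (φ z v) then (1 : ℝ) else 0) :=
    Finset.sum_nonneg fun z _ => Finset.sum_nonneg fun v _ => by split_ifs <;> norm_num
  have hn3 : (0 : ℝ) ≤ ∑ z ∈ 𝒵, (if bad z then (1 : ℝ) else 0) * vt endb (pl (ψ z) ω) T A2 :=
    Finset.sum_nonneg fun z _ => mul_nonneg (by split_ifs <;> norm_num) (Nat.cast_nonneg _)
  split_ifs with hev
  swap
  · positivity
  obtain ⟨hG, x, hx, hSh⟩ := hev
  have hK : ∀ x' ∈ cu ends β' x, t ≤ cz ends β' x' := by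
    intro x' hx'
    have h1 : cu ends β' x' = cu ends β' x := cu_eq hx'
    unfold cz at hx ⊢
    rw [h1]
    exact hx
  have hb : ∀ z ∈ 𝒵, ¬ bad z →
      ((T.filter (fun v => φ z v ∈ cu ends β' x ∧ A2 ≤ cz endb (pl (ψ z) ω) v)).card : ℝ) < β := by
    intro z hz hbz
    obtain ⟨g1, g2⟩ := hgood hG z hz hbz
    by_contra hcon
    push Not at hcon
    apply hSh
    refine ⟨z, hz, g1, g2, le_trans hcon ?_⟩
    unfold vol
    have hsub : T.filter (fun v => φ z v ∈ cu ends β' x ∧ A2 ≤ cz endb (pl (ψ z) ω) v) ⊆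
        W.filter (fun v => v ∈ pre (φ z) (cu ends β' x) ∧ A2 ≤ cz endb (pl (ψ z) ω) v) := by
      intro v hv
      rw [Finset.mem_filter] at hv ⊢
      refine ⟨hTW hv.1, ?_, hv.2.2⟩
      unfold pre
      rw [Finset.mem_filter]
      exact ⟨Finset.mem_univ _, hv.2.1⟩
    exact_mod_cast Finset.card_le_card hsub
  have hm := mass_pt (ends := ends) (endb := endb) 𝒵 φ ψ T Sl hcov (A2 := A2) hβ ω β'
    (cu ends β' x) hK bad hb
  have hc : ((Sl.filter (fun x => t ≤ cz ends β' x)).card : ℝ) =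
      ∑ x ∈ Sl, (if t ≤ cz ends β' x then (1 : ℝ) else 0) := by
    rw [Finset.card_filter]
    push_cast
    rfl
  rw [hc] at hm
  have hx2 : t ≤ ((cu ends β' x).card : ℝ) := hx
  have ht2 : (0 : ℝ) < t / 2 := by linarith
  rw [one_div, inv_mul_eq_div, le_div_iff₀ ht2]
  linarith

open scoped Classical in
/-- Row M5. If the event holds then `mass_pt` with `K = cu β x` (at least `t` points, all with `t ≤ cz β`), `bad z = A z ω η1` gives
`t ≤ M1 + M2 + M3 + β |𝒵|`: if `z ∈ 𝒵` is not bad then (`hgood`) it is not `BadE2` and the volume of `Γ1` is at least `β`, so by `¬ Shb` the volume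
of `K` in `W ⊇ T` is less than `β`. As `β |𝒵| ≤ t / 2`: `t / 2 ≤ M1 + M2 + M3` (in fact `<`; `hβ2` strict). Markov, and the bounds of the expectations:
`M1` by `hT1`, `M2` by `hM2`, `M3` by `hM3`. -/
theorem mass_all {p s1 s2 s3 : ℝ} (h0 : 0 ≤ p) (h1 : p ≤ 1) (h10 : 0 ≤ s1) (h11 : s1 ≤ 1) (h20 : 0 ≤ s2)
    (h21 : s2 ≤ 1) (h30 : 0 ≤ s3) (h31 : s3 ≤ 1) {ι : Type*}
    (𝒵 : Finset ι) (φ : ι → Vb → V) (ψ : ι → Eb → E)
    {k2 A2 β t : ℝ} {kk κ j : ℕ} (ht : 0 < t) (hβ : 0 ≤ β) (W T : Finset Vb) (hTW : T ⊆ W)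
    (Sl : Finset V) (hcov : ∀ x, x ∉ Sl → ∃ z ∈ 𝒵, ∃ v ∈ T, φ z v = x)
    (y0 : (E → Bool) → (E → Bool) → V) (A : ι → (E → Bool) → (E → Bool) → Prop)
    (G : (E → Bool) → (E → Bool) → Prop)
    (hgood : ∀ ω η, G ω η → ∀ z ∈ 𝒵, ¬ A z ω η → ¬ BadE2 endb (pl (ψ z) ω) W k2 A2 β kk κ j ∧
      β ≤ vol endb (pl (ψ z) ω) W A2 (pre (φ z) (cu ends (orc ω η) (y0 ω η))))
    (hβ2 : β * 𝒵.card < t / 2) {m1 m2 m3 : ℝ}
    (hT1 : ∀ x, Ex (1 - (1 - p) * (1 - s1) * (1 - s2) * (1 - s3)) (fun ω =>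
      if t ≤ cz ends ω x then (1 : ℝ) else 0) ≤ m1)
    (hM2 : ∀ z ∈ 𝒵, ∀ v ∈ T, Ex p (fun ω => Ex s1 (fun η1 => Ex s2 (fun η2 => Ex s3 (fun η3 =>
      if cz endb (pl (ψ z) ω) v < A2 ∧ t ≤ cz ends (orc (orc (orc ω η1) η2) η3) (φ z v)
        then (1 : ℝ) else 0)))) ≤ m2)
    (hM3 : ∀ z ∈ 𝒵, Ex p (fun ω => Ex s1 (fun η => (if A z ω η then (1 : ℝ) else 0) *
      vt endb (pl (ψ z) ω) T A2)) ≤ m3) :
    Ex p (fun ω => Ex s1 (fun η1 => Ex s2 (fun η2 => Ex s3 (fun η3 =>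
      if G ω η1 ∧ ∃ x, t ≤ cz ends (orc (orc (orc ω η1) η2) η3) x ∧
        ¬ Shb 𝒵 φ ψ endb W k2 A2 β kk κ j ω (cu ends (orc ω η1) (y0 ω η1))
          (cu ends (orc (orc (orc ω η1) η2) η3) x) then (1 : ℝ) else 0)))) ≤
      (Sl.card * m1 + 𝒵.card * T.card * m2 + 𝒵.card * m3) / (t / 2) := by
  have hpt : ∀ ω η1 η2 η3 : E → Bool,
      (if G ω η1 ∧ ∃ x, t ≤ cz ends (orc (orc (orc ω η1) η2) η3) x ∧
        ¬ Shb 𝒵 φ ψ endb W k2 A2 β kk κ j ω (cu ends (orc ω η1) (y0 ω η1))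
          (cu ends (orc (orc (orc ω η1) η2) η3) x) then (1 : ℝ) else 0) ≤
      1 / (t / 2) * ((∑ x ∈ Sl, (if t ≤ cz ends (orc (orc (orc ω η1) η2) η3) x
          then (1 : ℝ) else 0)) +
      ((∑ z ∈ 𝒵, ∑ v ∈ T, (if cz endb (pl (ψ z) ω) v < A2 ∧
        t ≤ cz ends (orc (orc (orc ω η1) η2) η3) (φ z v) then (1 : ℝ) else 0)) +
      ∑ z ∈ 𝒵, (if A z ω η1 then (1 : ℝ) else 0) * vt endb (pl (ψ z) ω) T A2)) := by
    intro ω η1 η2 η3
    exact M5_pt (ends := ends) (endb := endb) 𝒵 φ ψ ht hβ W T hTW Sl hcov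
      (cu ends (orc ω η1) (y0 ω η1)) (fun z => A z ω η1) (G ω η1) ω
      (orc (orc (orc ω η1) η2) η3) (fun hG => hgood ω η1 hG) hβ2
  have hmono := M5_mono h0 h1 h10 h11 h20 h21 h30 h31 hpt
  refine le_trans hmono ?_
  rw [M5_mul, M5_add, M5_add, M5_sum, M5_sum, M5_sum]
  have ht2 : (0 : ℝ) < t / 2 := by linarith
  have b1 : ∑ x ∈ Sl, M5_E4 p s1 s2 s3 (fun ω η1 η2 η3 =>
      if t ≤ cz ends (orc (orc (orc ω η1) η2) η3) x then (1 : ℝ) else 0) ≤ Sl.card * m1 := by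
    rw [← nsmul_eq_mul, ← Finset.sum_const]
    refine Finset.sum_le_sum fun x _ => ?_
    have := M5_orc (E := E) p s1 s2 s3 (fun ω => if t ≤ cz ends ω x then (1 : ℝ) else 0)
    rw [this]
    exact hT1 x
  have b2 : ∑ z ∈ 𝒵, M5_E4 p s1 s2 s3 (fun ω η1 η2 η3 => ∑ v ∈ T,
      if cz endb (pl (ψ z) ω) v < A2 ∧ t ≤ cz ends (orc (orc (orc ω η1) η2) η3) (φ z v)
        then (1 : ℝ) else 0) ≤ 𝒵.card * T.card * m2 := by
    have h3 : (𝒵.card * T.card * m2 : ℝ) = ∑ z ∈ 𝒵, ∑ v ∈ T, m2 := by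
      rw [Finset.sum_const, Finset.sum_const, nsmul_eq_mul, nsmul_eq_mul]
      ring
    rw [h3]
    refine Finset.sum_le_sum fun z hz => ?_
    rw [M5_sum]
    exact Finset.sum_le_sum fun v hv => hM2 z hz v hv
  have b3 : ∑ z ∈ 𝒵, M5_E4 p s1 s2 s3 (fun ω η1 _ _ =>
      (if A z ω η1 then (1 : ℝ) else 0) * vt endb (pl (ψ z) ω) T A2) ≤ 𝒵.card * m3 := by
    rw [← nsmul_eq_mul, ← Finset.sum_const]
    refine Finset.sum_le_sum fun z hz => ?_
    rw [M5_two]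
    exact hM3 z hz
  rw [one_div, inv_mul_eq_div]
  apply div_le_div_of_nonneg_right _ ht2.le
  linarith

end Pool.Agent.PERC29.AE
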