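import Pool.Agent.Lib.MP_29e17e_pr.Y.Bx

set_option autoImplicit false
set_option linter.unusedSectionVars false

/-! Rows 29z-A1 .. 29z-A8: families of clusters (page 29z_helper62.md, Section 1). -/

open Finset

namespace Pool.Agent.PERC29.AE

variable {V : Type*} [Fintype V] [DecidableEq V] {E : Type*} [Fintype E] [DecidableEq E]
  {ends : E → Sym2 V}
  {Vb : Type*} [Fintype Vb] [DecidableEq Vb] {Eb : Type*} [Fintype Eb] [DecidableEq Eb]
  {endb : Eb → Sym2 Vb}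

/-- The union of the clusters inside `S` of the points of `X`. -/
noncomputable def UCl (ends : E → Sym2 V) (ω : E → Bool) (S : Set V) (X : Finset V) : Finset V :=
  X.biUnion (fun x => cl ends ω S x)

/-- The points of `X` are in `S`, in distinct clusters inside `S` with at least `h` points. -/
def Dst (ends : E → Sym2 V) (ω : E → Bool) (S : Set V) (h : ℝ) (X : Finset V) : Prop :=
  (∀ x ∈ X, x ∈ S ∧ h ≤ ((cl ends ω S x).card : ℝ)) ∧
    ∀ x ∈ X, ∀ x' ∈ X, x ≠ x' → x' ∉ cl ends ω S x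

private lemma A1_cl {ω : E → Bool} {S : Set V} {x y : V} (hyx : y ∉ cl ends ω S x) :
    cl ends ω (S \ (cl ends ω S x : Set V)) y = cl ends ω S y := by
  ext z
  rw [mem_cl, mem_cl]
  constructor
  · exact fun h => Rch.mono (fun _ h => h) Set.sdiff_subset h
  · intro h
    have key : ∀ c, Rch ends ω S y c → c ∉ cl ends ω S x := by
      intro c hc hcx
      rw [mem_cl] at hcx
      exact hyx (mem_cl.2 (hcx.trans hc.symm))
    induction h with
    | refl => exact Rch.refl _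
    | @tail b c hb hbc ih =>
      refine Relation.ReflTransGen.tail ih ?_
      obtain ⟨h1, h2, e, he1, he2⟩ := hbc
      exact ⟨⟨h1, key b hb⟩, ⟨h2, key c (Relation.ReflTransGen.tail hb ⟨h1, h2, e, he1, he2⟩)⟩, e, he1, he2⟩

open scoped Classical in
private lemma A1_list {ω : E → Bool} {h : ℝ} (l : List V) (hl : l.Nodup) : ∀ S : Set V,
    (∀ x ∈ l, x ∈ S ∧ h ≤ ((cl ends ω S x).card : ℝ)) → (∀ x ∈ l, ∀ x' ∈ l, x ≠ x' → x' ∉ cl ends ω S x) →
    JJ ends ω (l.map fun x => (x, fun A : Finset V => if h ≤ (A.card : ℝ) then (1 : ℝ) else 0)) S = 1 := by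
  induction l with
  | nil =>
    intro S _ _
    rfl
  | cons x l ih =>
    intro S h1 h2
    rw [List.nodup_cons] at hl
    have hx := h1 x List.mem_cons_self
    rw [List.map_cons, JJ]
    simp only
    rw [if_pos hx.1, if_pos hx.2, one_mul]
    have hcl : ∀ y ∈ l, y ∉ cl ends ω S x := by
      intro y hy
      refine h2 x List.mem_cons_self y (List.mem_cons_of_mem _ hy) ?_
      rintro rfl
      exact hl.1 hy
    have hcl' : ∀ y ∈ l, cl ends ω (S \ (cl ends ω S x : Set V)) y = cl ends ω S y := fun y hy =>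
      A1_cl (hcl y hy)
    refine ih hl.2 _ (fun y hy => ?_) (fun y hy y' hy' hne => ?_)
    · rw [hcl' y hy]
      have h3 := h1 y (List.mem_cons_of_mem _ hy)
      exact ⟨⟨h3.1, fun h4 => hcl y hy h4⟩, h3.2⟩
    · rw [hcl' y hy]
      exact h2 y (List.mem_cons_of_mem _ hy) y' (List.mem_cons_of_mem _ hy') hne

private lemma A1_nonneg {ω : E → Bool} (L : List (V × (Finset V → ℝ)))
    (hL : ∀ a ∈ L, ∀ A, 0 ≤ a.2 A) : ∀ S : Set V, 0 ≤ JJ ends ω L S := by
  classical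
  induction L with
  | nil => intro S; rw [JJ]; exact zero_le_one
  | cons a L ih =>
    intro S
    rw [JJ]
    split_ifs
    · exact mul_nonneg (hL a List.mem_cons_self _)
        (ih (fun b hb => hL b (List.mem_cons_of_mem _ hb)) _)
    · exact le_rfl

open scoped Classical in
/-- Row A1. `1[Dst ω S h X] ≤ JJ ends ω L S` with `L = X.toList.map (fun x => (x, fun A => if h ≤ |A| then 1 else 0))`: induction on the list, for all `S`: if `x` is
the first point then the clusters of the other points in `S \ cl S x` are their clusters in `S` (a path inside `S` which does not meet the cluster of `x`). Then `JJ_le`. -/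
lemma Dst_le {q h f : ℝ} (h0 : 0 ≤ q) (h1 : q ≤ 1) (hf : ∀ x, Ex q (fun ω =>
    if h ≤ cz ends ω x then (1 : ℝ) else 0) ≤ f) (S : Set V) (X : Finset V) :
    Ex q (fun ω => if Dst ends ω S h X then (1 : ℝ) else 0) ≤ f ^ X.card := by
  have hL : ∀ a ∈ X.toList.map (fun x => (x, fun A : Finset V => if h ≤ (A.card : ℝ) then (1 : ℝ) else 0)),
      (∀ A, 0 ≤ a.2 A) ∧ (∀ A B, A ⊆ B → a.2 A ≤ a.2 B) := by
    intro a ha
    rw [List.mem_map] at ha
    obtain ⟨x, -, rfl⟩ := ha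
    refine ⟨fun A => ?_, fun A B hAB => ?_⟩
    · simp only
      split_ifs <;> norm_num
    · simp only
      by_cases hA : h ≤ (A.card : ℝ)
      · have hB : h ≤ (B.card : ℝ) := hA.trans (by exact_mod_cast card_le_card hAB)
        rw [if_pos hA, if_pos hB]
      · rw [if_neg hA]
        split_ifs <;> norm_num
  have h2 := JJ_le (ends := ends) h0 h1 _ hL S
  refine le_trans (Ex_mono h0 h1 fun ω => ?_) (h2.trans ?_)
  · by_cases hD : Dst ends ω S h X
    · rw [if_pos hD, A1_list X.toList X.nodup_toList S (fun x hx => hD.1 x (mem_toList.1 hx))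
        (fun x hx x' hx' hne => hD.2 x (mem_toList.1 hx) x' (mem_toList.1 hx') hne)]
    · rw [if_neg hD]
      exact A1_nonneg _ (fun a ha => (hL a ha).1) S
  · rw [List.map_map]
    have h3 : (X.toList.map ((fun a : V × (Finset V → ℝ) => Ex q (fun ω => a.2 (cu ends ω a.1))) ∘
        fun x => (x, fun A : Finset V => if h ≤ (A.card : ℝ) then (1 : ℝ) else 0))).prod =
        ∏ x ∈ X, Ex q (fun ω => if h ≤ cz ends ω x then (1 : ℝ) else 0) := by
      rw [← Finset.prod_map_toList]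
      rfl
    rw [h3, ← Finset.prod_const]
    refine Finset.prod_le_prod (fun x _ => Ex_nonneg h0 h1 fun ω => ?_) (fun x _ => hf x)
    split_ifs <;> norm_num

open scoped Classical in
/-- Row A2. Explore the cluster of `y` in `ξ`: sum over its values `G`; `1[cu ξ y = G]` depends on the edges of `ξ` with an endpoint in `G` (`cl_eq_dep`),
`Ex s (fun η => 1[Dst (orc ξ η) Gᶜ h X])` on the others (`cl_dep`): `Ex_indep`, `Ex_orc`, `Dst_le` with `S = Gᶜ`. -/
lemma Dst_fresh {p s h f : ℝ} (h0 : 0 ≤ p) (h1 : p ≤ 1) (hs0 : 0 ≤ s) (hs1 : s ≤ 1)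
    (hf : ∀ x, Ex (1 - (1 - p) * (1 - s)) (fun ω => if h ≤ cz ends ω x then (1 : ℝ) else 0) ≤ f)
    (y : V) (X : Finset V) :
    Ex p (fun ξ => Ex s (fun η => if Dst ends (orc ξ η) ((cu ends ξ y : Set V)ᶜ) h X
      then (1 : ℝ) else 0)) ≤ f ^ X.card := by
  have hq0 : 0 ≤ 1 - (1 - p) * (1 - s) := by nlinarith
  have hq1 : 1 - (1 - p) * (1 - s) ≤ 1 := by nlinarith
  have hL : ∀ ξ : E → Bool, Ex s (fun η => if Dst ends (orc ξ η) ((cu ends ξ y : Set V)ᶜ) h X
      then (1 : ℝ) else 0) = ∑ G : Finset V, (if cu ends ξ y = G then (1 : ℝ) else 0) *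
        Ex s (fun η => if Dst ends (orc ξ η) ((G : Set V)ᶜ) h X then (1 : ℝ) else 0) := by
    intro ξ
    rw [Finset.sum_eq_single (cu ends ξ y)]
    · rw [if_pos rfl, one_mul]
    · intro A _ hA
      rw [if_neg (Ne.symm hA), zero_mul]
    · intro hh
      exact absurd (Finset.mem_univ _) hh
  have h1' : Ex p (fun ξ : E → Bool => ∑ G : Finset V,
      (if cu ends ξ y = G then (1 : ℝ) else 0)) = 1 := by
    have e1 : ∀ ξ : E → Bool, ∑ G : Finset V, (if cu ends ξ y = G then (1 : ℝ) else 0) = 1 := by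
      intro ξ
      rw [Finset.sum_ite_eq, if_pos (Finset.mem_univ _)]
    rw [Ex_congr e1, Ex_const]
  rw [Ex_sum] at h1'
  rw [Ex_congr hL, Ex_sum]
  have h2 : ∀ G : Finset V, Ex p (fun ξ => (if cu ends ξ y = G then (1 : ℝ) else 0) *
      Ex s (fun η => if Dst ends (orc ξ η) ((G : Set V)ᶜ) h X then (1 : ℝ) else 0)) ≤
      Ex p (fun ξ => if cu ends ξ y = G then (1 : ℝ) else 0) * f ^ X.card := by
    intro G
    have hI : 0 ≤ Ex p (fun ξ => if cu ends ξ y = G then (1 : ℝ) else 0) :=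
      Ex_nonneg h0 h1 fun ξ => by split_ifs <;> norm_num
    rw [Ex_indep p {e | ∃ a b, ends e = s(a, b) ∧ a ∈ G}]
    · refine mul_le_mul_of_nonneg_left ?_ hI
      rw [← Ex_orc p s (fun ω => if Dst ends ω ((G : Set V)ᶜ) h X then (1 : ℝ) else 0)]
      exact Dst_le hq0 hq1 hf _ X
    · intro ξ ξ' hh
      have key : ∀ ξ ξ' : E → Bool, (∀ e ∈ {e | ∃ a b, ends e = s(a, b) ∧ a ∈ G}, ξ e = ξ' e) →
          cu ends ξ y = G → cu ends ξ' y = G := by
        intro ξ ξ' hh hA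
        refine cl_eq_dep (fun e' a b h2 _ _ h5 => ?_) hA
        exact hh e' ⟨a, b, h2, h5⟩
      by_cases hc : cu ends ξ y = G
      · rw [if_pos hc, if_pos (key ξ ξ' hh hc)]
      · rw [if_neg hc, if_neg]
        intro hc'
        exact hc (key ξ' ξ (fun e he => (hh e he).symm) hc')
    · intro ξ ξ' hh
      refine Ex_congr fun η => ?_
      have hcl : ∀ x, cl ends (orc ξ η) ((G : Set V)ᶜ) x = cl ends (orc ξ' η) ((G : Set V)ᶜ) x := by
        intro x
        refine cl_dep fun e a b h3 h4 h5 => ?_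
        unfold orc
        rw [hh e]
        rintro ⟨a', b', h6, h7⟩
        rw [h3] at h6
        rcases Sym2.eq_iff.1 h6 with ⟨rfl, rfl⟩ | ⟨rfl, rfl⟩
        · exact h4 (Finset.mem_coe.2 h7)
        · exact h5 (Finset.mem_coe.2 h7)
      have hD : Dst ends (orc ξ η) ((G : Set V)ᶜ) h X ↔ Dst ends (orc ξ' η) ((G : Set V)ᶜ) h X := by
        unfold Dst
        simp only [hcl]
      exact if_congr hD rfl rfl
  refine le_trans (Finset.sum_le_sum fun G _ => h2 G) ?_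
  rw [← Finset.sum_mul, h1', one_mul]

private lemma A3_dep (ω ω1 ω2 : E → Bool) (Γ : Finset V) (x : V)
    (h : ∀ e ∈ {e : E | ∃ a b, ends e = s(a, b) ∧ a ∉ Γ ∧ b ∉ Γ}, ω1 e = ω2 e) :
    cl ends (orc ω ω1) ((Γ : Set V)ᶜ) x = cl ends (orc ω ω2) ((Γ : Set V)ᶜ) x := by
  apply cl_dep
  intro e a b h1 h2 h3
  have h4 : ω1 e = ω2 e := h e ⟨a, b, h1, by simpa using h2, by simpa using h3⟩
  simp only [orc, h4]

open scoped Classical in
private lemma A3_term {s : ℝ} (hs0 : 0 ≤ s) (hs1 : s ≤ 1) (Γ : Finset V) (k : ℕ)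
    (P : (E → Bool) → Prop) [DecidablePred P] (S : Finset V)
    (hP : ∀ η η' : E → Bool, (∀ e ∈ {e : E | ∃ a b, ends e = s(a, b) ∧ a ∉ Γ ∧ b ∉ Γ}, η e = η' e) →
      P η → P η') :
    Ex s (fun η => (if P η then (1 : ℝ) else 0) * ((if k ≤ eb ends Γ S then (1 : ℝ) else 0) *
        (if ∀ e ∈ Finset.univ.filter (fun e => ∃ u ∈ Γ, ∃ v ∈ S, ends e = s(u, v)),
          η e = false then (1 : ℝ) else 0))) ≤
      (1 - s) ^ k * Ex s (fun η => if P η then (1 : ℝ) else 0) := by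
  have hpow : 0 ≤ (1 - s) ^ k := pow_nonneg (by linarith) k
  have hI : 0 ≤ Ex s (fun η => if P η then (1 : ℝ) else 0) :=
    Ex_nonneg hs0 hs1 fun η => by split_ifs <;> norm_num
  by_cases hc : k ≤ eb ends Γ S
  · rw [if_pos hc]
    have e1 : ∀ η : E → Bool, (if P η then (1 : ℝ) else 0) *
        ((1 : ℝ) * (if ∀ e ∈ Finset.univ.filter (fun e => ∃ u ∈ Γ, ∃ v ∈ S, ends e = s(u, v)),
          η e = false then (1 : ℝ) else 0)) =
        (if P η then (1 : ℝ) else 0) *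
        (if ∀ e ∈ Finset.univ.filter (fun e => ∃ u ∈ Γ, ∃ v ∈ S, ends e = s(u, v)),
          η e = false then (1 : ℝ) else 0) := by
      intro η
      rw [one_mul]
    rw [Ex_congr e1]
    rw [Ex_indep s {e : E | ∃ a b, ends e = s(a, b) ∧ a ∉ Γ ∧ b ∉ Γ}
      (fun η => if P η then (1 : ℝ) else 0)
      (fun η => if ∀ e ∈ Finset.univ.filter (fun e => ∃ u ∈ Γ, ∃ v ∈ S, ends e = s(u, v)),
          η e = false then (1 : ℝ) else 0)]
    · rw [Ex_closed, mul_comm]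
      apply mul_le_mul_of_nonneg_right _ hI
      apply pow_le_pow_of_le_one (by linarith) (by linarith)
      exact hc
    · intro ω1 ω2 h
      exact if_congr ⟨hP ω1 ω2 h, hP ω2 ω1 (fun e he => (h e he).symm)⟩ rfl rfl
    · intro ω1 ω2 h
      have key : ∀ ω1 ω2 : E → Bool,
          (∀ e ∉ {e : E | ∃ a b, ends e = s(a, b) ∧ a ∉ Γ ∧ b ∉ Γ}, ω1 e = ω2 e) →
          (∀ e ∈ Finset.univ.filter (fun e => ∃ u ∈ Γ, ∃ v ∈ S, ends e = s(u, v)),
            ω1 e = false) →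
          (∀ e ∈ Finset.univ.filter (fun e => ∃ u ∈ Γ, ∃ v ∈ S, ends e = s(u, v)),
            ω2 e = false) := by
        intro ω1 ω2 h h1 e he
        rw [← h e, h1 e he]
        obtain ⟨-, u, hu, v, hv, huv⟩ := Finset.mem_filter.1 he
        rintro ⟨a, b, h2, h3, h4⟩
        rw [huv] at h2
        rcases Sym2.eq_iff.1 h2 with ⟨rfl, rfl⟩ | ⟨rfl, rfl⟩
        · exact h3 hu
        · exact h4 hu
      exact if_congr ⟨key ω1 ω2 h, key ω2 ω1 (fun e he => (h e he).symm)⟩ rfl rfl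
  · rw [if_neg hc]
    refine le_trans (le_of_eq (Ex_zero_of fun η => ?_)) (mul_nonneg hpow hI)
    rw [zero_mul, mul_zero]

open scoped Classical in
/-- Row A3. As `sprinkle_cut` (U/Sp.lean) with `UCl ends (orc ω η) Γᶜ X` for the cluster: sum over its values `S`; `Dst (orc ω η) Γᶜ h X` and `UCl = S` depend on
`η` at the edges with both ends in `Γᶜ` only. -/
lemma cutX {s : ℝ} (hs0 : 0 ≤ s) (hs1 : s ≤ 1) (ω : E → Bool) (Γ : Finset V) (k : ℕ) (h : ℝ)
    (X : Finset V) :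
    Ex s (fun η => if Dst ends (orc ω η) ((Γ : Set V)ᶜ) h X ∧
        k ≤ eb ends Γ (UCl ends (orc ω η) ((Γ : Set V)ᶜ) X) ∧
        (∀ e, (∃ u ∈ Γ, ∃ v ∈ UCl ends (orc ω η) ((Γ : Set V)ᶜ) X, ends e = s(u, v)) →
          η e = false) then (1 : ℝ) else 0) ≤
      (1 - s) ^ k * Ex s (fun η => if Dst ends (orc ω η) ((Γ : Set V)ᶜ) h X then (1 : ℝ) else 0) := by
  have e1 : ∀ η : E → Bool, (if Dst ends (orc ω η) ((Γ : Set V)ᶜ) h X ∧
        k ≤ eb ends Γ (UCl ends (orc ω η) ((Γ : Set V)ᶜ) X) ∧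
        (∀ e, (∃ u ∈ Γ, ∃ v ∈ UCl ends (orc ω η) ((Γ : Set V)ᶜ) X, ends e = s(u, v)) →
          η e = false) then (1 : ℝ) else 0) =
      ∑ S : Finset V, (if (UCl ends (orc ω η) ((Γ : Set V)ᶜ) X = S ∧
          Dst ends (orc ω η) ((Γ : Set V)ᶜ) h X) then (1 : ℝ) else 0) *
        ((if k ≤ eb ends Γ S then (1 : ℝ) else 0) *
        (if ∀ e ∈ Finset.univ.filter (fun e => ∃ u ∈ Γ, ∃ v ∈ S, ends e = s(u, v)),
          η e = false then (1 : ℝ) else 0)) := by
    intro η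
    rw [Finset.sum_eq_single (UCl ends (orc ω η) ((Γ : Set V)ᶜ) X)]
    · by_cases h0 : Dst ends (orc ω η) ((Γ : Set V)ᶜ) h X
      · rw [if_pos (c := (UCl ends (orc ω η) ((Γ : Set V)ᶜ) X = UCl ends (orc ω η) ((Γ : Set V)ᶜ) X ∧
          Dst ends (orc ω η) ((Γ : Set V)ᶜ) h X)) ⟨rfl, h0⟩, one_mul]
        by_cases h1 : k ≤ eb ends Γ (UCl ends (orc ω η) ((Γ : Set V)ᶜ) X)
        · by_cases h2 : ∀ e, (∃ u ∈ Γ, ∃ v ∈ UCl ends (orc ω η) ((Γ : Set V)ᶜ) X,
              ends e = s(u, v)) → η e = false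
          · rw [if_pos ⟨h0, h1, h2⟩, if_pos h1, if_pos, mul_one]
            intro e he
            exact h2 e (Finset.mem_filter.1 he).2
          · rw [if_neg (fun h => h2 h.2.2), if_pos h1, if_neg, mul_zero]
            intro h3
            exact h2 fun e he => h3 e (Finset.mem_filter.2 ⟨Finset.mem_univ _, he⟩)
        · rw [if_neg (fun h => h1 h.2.1), if_neg h1, zero_mul]
      · rw [if_neg (fun h => h0 h.1), if_neg (fun h => h0 h.2), zero_mul]
    · intro S _ hS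
      rw [if_neg (fun h => hS h.1.symm), zero_mul]
    · intro h
      exact absurd (Finset.mem_univ _) h
  have e2 : ∀ η : E → Bool, (if Dst ends (orc ω η) ((Γ : Set V)ᶜ) h X then (1 : ℝ) else 0) =
      ∑ S : Finset V, (if (UCl ends (orc ω η) ((Γ : Set V)ᶜ) X = S ∧
          Dst ends (orc ω η) ((Γ : Set V)ᶜ) h X) then (1 : ℝ) else 0) := by
    intro η
    rw [Finset.sum_eq_single (UCl ends (orc ω η) ((Γ : Set V)ᶜ) X)]
    · exact if_congr ⟨fun h => ⟨rfl, h⟩, fun h => h.2⟩ rfl rfl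
    · intro S _ hS
      rw [if_neg (fun h => hS h.1.symm)]
    · intro h
      exact absurd (Finset.mem_univ _) h
  rw [Ex_congr e1, Ex_congr e2, Ex_sum, Ex_sum, Finset.mul_sum]
  refine Finset.sum_le_sum fun S _ => A3_term (ends := ends) hs0 hs1 Γ k
    (fun η => UCl ends (orc ω η) ((Γ : Set V)ᶜ) X = S ∧ Dst ends (orc ω η) ((Γ : Set V)ᶜ) h X) S ?_
  intro η η' hh hA
  have hcl : ∀ x, cl ends (orc ω η) ((Γ : Set V)ᶜ) x = cl ends (orc ω η') ((Γ : Set V)ᶜ) x :=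
    fun x => A3_dep ω η η' Γ x hh
  unfold UCl Dst at hA ⊢
  simp only [hcl] at hA
  exact hA

private lemma A3_hop {ω η η' : E → Bool} {h : ℝ} {X S : Finset V}
    (hh : ∀ e ∈ {e : E | ∃ a b, ends e = s(a, b) ∧ a ∈ S}, η e = η' e)
    (hA : UC ends (orc ω η) X = S ∧ Dst ends (orc ω η) Set.univ h X) :
    UC ends (orc ω η') X = S ∧ Dst ends (orc ω η') Set.univ h X := by
  have key : ∀ x ∈ X, cl ends (orc ω η') Set.univ x = cl ends (orc ω η) Set.univ x := by
    intro x hx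
    have hsub : cl ends (orc ω η) Set.univ x ⊆ S := by
      rw [← hA.1]
      intro z hz
      exact Finset.mem_biUnion.2 ⟨x, hx, hz⟩
    refine cl_eq_dep (fun e a b h2 _ _ h5 => ?_) rfl
    unfold orc
    rw [hh e ⟨a, b, h2, hsub h5⟩]
  refine ⟨?_, ?_, ?_⟩
  · rw [← hA.1]
    unfold UC
    ext z
    rw [Finset.mem_biUnion, Finset.mem_biUnion]
    constructor
    · rintro ⟨x, hx, hz⟩
      refine ⟨x, hx, ?_⟩
      have := key x hx
      unfold cu at hz ⊢
      rw [this] at hz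
      exact hz
    · rintro ⟨x, hx, hz⟩
      refine ⟨x, hx, ?_⟩
      have := key x hx
      unfold cu at hz ⊢
      rw [this]
      exact hz
  · intro x hx
    rw [key x hx]
    exact hA.2.1 x hx
  · intro x hx x' hx' hne
    rw [key x hx]
    exact hA.2.2 x hx x' hx' hne

open scoped Classical in
/-- Row A3 (second half). As `two_hop` (finished file 29w_T2.lean) with `UC ends (orc ω η) X` for the cluster: `UC = S` and `Dst (orc ω η) univ h X` depend on
`η` at the edges with an endpoint in `S` only (every point of `X` is in `S`). -/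
lemma hopX {s h : ℝ} (hs0 : 0 ≤ s) (hs1 : s ≤ 1) (ω : E → Bool) (X : Finset V) (Γ : Finset V)
    (𝒟 : Finset V → Finset (Finset V)) (κ n j : ℕ) (hS : ∀ S, ∀ D ∈ 𝒟 S, Disjoint D S)
    (hΓ : ∀ S, ∀ D ∈ 𝒟 S, Disjoint D Γ) (hd : ∀ S, ∀ D ∈ 𝒟 S, ∀ D' ∈ 𝒟 S, D ≠ D' → Disjoint D D')
    (hκ : ∀ S, ∀ D ∈ 𝒟 S, κ ≤ eb ends D Γ) :
    Ex s (fun η => if Disjoint Γ (UC ends (orc ω η) X) ∧ Dst ends (orc ω η) Set.univ h X ∧
      n ≤ (𝒟 (UC ends (orc ω η) X)).card ∧
      ((𝒟 (UC ends (orc ω η) X)).filter (fun D => Opn ends η D Γ)).card < j then (1 : ℝ) else 0) ≤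
      2 ^ j * (1 - (1 - (1 - s) ^ κ) / 2) ^ n *
        Ex s (fun η => if Dst ends (orc ω η) Set.univ h X then (1 : ℝ) else 0) := by
  have hb : 0 ≤ (2 : ℝ) ^ j * (1 - (1 - (1 - s) ^ κ) / 2) ^ n := by
    have h1 : 0 ≤ (1 - s) ^ κ := pow_nonneg (by linarith) _
    have h2 : 0 ≤ 1 - (1 - (1 - s) ^ κ) / 2 := by linarith
    positivity
  set b : ℝ := 2 ^ j * (1 - (1 - (1 - s) ^ κ) / 2) ^ n with hbdef
  have hL : ∀ η : E → Bool, (if Disjoint Γ (UC ends (orc ω η) X) ∧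
      Dst ends (orc ω η) Set.univ h X ∧
      n ≤ (𝒟 (UC ends (orc ω η) X)).card ∧
      ((𝒟 (UC ends (orc ω η) X)).filter (fun D => Opn ends η D Γ)).card < j then (1 : ℝ) else 0) =
      ∑ S : Finset V, (if (UC ends (orc ω η) X = S ∧ Dst ends (orc ω η) Set.univ h X)
        then (1 : ℝ) else 0) *
        (if Disjoint Γ S ∧ n ≤ (𝒟 S).card ∧
          ((𝒟 S).filter (fun D => Opn ends η D Γ)).card < j then (1 : ℝ) else 0) := by
    intro η
    rw [Finset.sum_eq_single (UC ends (orc ω η) X)]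
    · by_cases h0 : Dst ends (orc ω η) Set.univ h X
      · rw [if_pos (c := (UC ends (orc ω η) X = UC ends (orc ω η) X ∧
          Dst ends (orc ω η) Set.univ h X)) ⟨rfl, h0⟩, one_mul]
        exact if_congr ⟨fun h => ⟨h.1, h.2.2⟩, fun h => ⟨h.1, h0, h.2⟩⟩ rfl rfl
      · rw [if_neg (fun h => h0 h.2.1), if_neg (fun h => h0 h.2), zero_mul]
    · intro A _ hA
      rw [if_neg (fun h => hA h.1.symm), zero_mul]
    · intro hh
      exact absurd (Finset.mem_univ _) hh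
  have hR : ∀ η : E → Bool, (if Dst ends (orc ω η) Set.univ h X then (1 : ℝ) else 0) =
      ∑ S : Finset V, (if (UC ends (orc ω η) X = S ∧ Dst ends (orc ω η) Set.univ h X)
        then (1 : ℝ) else 0) := by
    intro η
    rw [Finset.sum_eq_single (UC ends (orc ω η) X)]
    · exact if_congr ⟨fun h => ⟨rfl, h⟩, fun h => h.2⟩ rfl rfl
    · intro A _ hA
      rw [if_neg (fun h => hA h.1.symm)]
    · intro hh
      exact absurd (Finset.mem_univ _) hh
  rw [Ex_congr hL, Ex_sum, Ex_congr hR, Ex_sum, Finset.mul_sum]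
  refine Finset.sum_le_sum fun S _ => ?_
  have hI : 0 ≤ Ex s (fun η => if (UC ends (orc ω η) X = S ∧ Dst ends (orc ω η) Set.univ h X)
      then (1 : ℝ) else 0) :=
    Ex_nonneg hs0 hs1 fun η => by split_ifs <;> norm_num
  by_cases hc : Disjoint Γ S ∧ n ≤ (𝒟 S).card
  · obtain ⟨c1, c3⟩ := hc
    have e1 : ∀ η : E → Bool, (if (UC ends (orc ω η) X = S ∧ Dst ends (orc ω η) Set.univ h X)
        then (1 : ℝ) else 0) *
        (if Disjoint Γ S ∧ n ≤ (𝒟 S).card ∧
          ((𝒟 S).filter (fun D => Opn ends η D Γ)).card < j then (1 : ℝ) else 0) =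
        (if (UC ends (orc ω η) X = S ∧ Dst ends (orc ω η) Set.univ h X)
        then (1 : ℝ) else 0) *
        (if ((𝒟 S).filter (fun D => Opn ends η D Γ)).card < j then (1 : ℝ) else 0) := by
      intro η
      congr 1
      exact if_congr ⟨fun h => h.2.2, fun h => ⟨c1, c3, h⟩⟩ rfl rfl
    set D0 : Set E := {e | ∃ a b, ends e = s(a, b) ∧ a ∈ S} with hD0
    rw [Ex_congr e1, Ex_indep s D0]
    · rw [mul_comm]
      exact mul_le_mul_of_nonneg_right
        (bino hs0 hs1 Γ (𝒟 S) (hΓ S) (hd S) κ n j (hκ S) c3) hI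
    · intro η η' hh
      exact if_congr ⟨fun hA => A3_hop hh hA,
        fun hA => A3_hop (fun e he => (hh e he).symm) hA⟩ rfl rfl
    · intro η η' hh
      have key : ∀ η η' : E → Bool, (∀ e ∉ D0, η e = η' e) → ∀ D ∈ 𝒟 S, Opn ends η D Γ →
          Opn ends η' D Γ := by
        rintro η η' hh D hD ⟨e, he, u, hu, v, hv, huv⟩
        refine ⟨e, ?_, u, hu, v, hv, huv⟩
        rw [← hh e, he]
        rintro ⟨a, b, h5, h8⟩
        rw [huv] at h5
        rcases Sym2.eq_iff.1 h5 with ⟨rfl, rfl⟩ | ⟨rfl, rfl⟩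
        · exact Finset.disjoint_left.1 (hS S D hD) hu h8
        · exact Finset.disjoint_left.1 c1 hv h8
      have : (𝒟 S).filter (fun D => Opn ends η D Γ) =
          (𝒟 S).filter (fun D => Opn ends η' D Γ) := by
        apply Finset.filter_congr
        intro D hD
        exact ⟨key η η' hh D hD, key η' η (fun e he => (hh e he).symm) D hD⟩
      rw [this]
  · have e1 : ∀ η : E → Bool, (if (UC ends (orc ω η) X = S ∧ Dst ends (orc ω η) Set.univ h X)
        then (1 : ℝ) else 0) *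
        (if Disjoint Γ S ∧ n ≤ (𝒟 S).card ∧
          ((𝒟 S).filter (fun D => Opn ends η D Γ)).card < j then (1 : ℝ) else 0) = 0 := by
      intro η
      have hn : ¬ (Disjoint Γ S ∧ n ≤ (𝒟 S).card ∧
          ((𝒟 S).filter (fun D => Opn ends η D Γ)).card < j) :=
        fun h => hc ⟨h.1, h.2.1⟩
      rw [if_neg hn, mul_zero]
    rw [Ex_zero_of e1]
    exact mul_nonneg hb hI

open scoped Classical in
/-- Row A4. `box_pt` (finished file 29w_B3.lean) with the edges counted in the box, and the sets `D` are nonempty (`0 < k2 ≤ |D|`) and inside the box. -/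
lemma box_pt1 {φ : Vb → V} {ψ : Eb → E} (h : Emb ends endb φ ψ) {k2 A2 β : ℝ} {kk κ j : ℕ} (hk2 : 0 < k2)
    (hkA : k2 ≤ A2) (ω : E → Bool) (W : Finset Vb) (hB : ¬ BadE2 endb (pl ψ ω) W k2 A2 β kk κ j)
    (K Γ : Finset V) (hK : Ful ends ω K) (hΓ : Ful ends ω Γ) (hKΓ : Disjoint K Γ)
    (vK : β ≤ vol endb (pl ψ ω) W A2 (pre φ K)) (vΓ : β ≤ vol endb (pl ψ ω) W A2 (pre φ Γ)) :
    kk < eb endb (pre φ K) (pre φ Γ) ∨ ∃ 𝒟 : Finset (Finset V), 2 * j ≤ 𝒟.card ∧
      (∀ D ∈ 𝒟, D.Nonempty ∧ D ⊆ Finset.univ.image φ ∧ Disjoint D K ∧ Disjoint D Γ ∧ κ ≤ eb ends D K ∧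
        κ ≤ eb ends D Γ ∧ ∃ v, D ⊆ cu ends ω v) ∧ ∀ D ∈ 𝒟, ∀ D' ∈ 𝒟, D ≠ D' → Disjoint D D' := by
  set ω' := pl ψ ω with hω'
  have hcu : ∀ A ∈ GC endb ω' k2, ∀ x ∈ A, A = cu endb ω' x := by
    intro A hA x hx
    obtain ⟨⟨y, rfl⟩, -⟩ := mem_GC.1 hA
    exact (cu_eq hx).symm
  set S1 := (GC endb ω' k2).filter (fun A => A ⊆ pre φ K) with hS1
  set T1 := (GC endb ω' k2).filter (fun A => A ⊆ pre φ Γ) with hT1
  have hUn : ∀ (U : Finset V), ∀ x ∈ Un ((GC endb ω' k2).filter (fun A => A ⊆ pre φ U)), φ x ∈ U := by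
    intro U x hx
    unfold Un at hx
    obtain ⟨A, hA, hxA⟩ := Finset.mem_biUnion.1 hx
    have h1 := (Finset.mem_filter.1 hA).2 hxA
    exact (Finset.mem_filter.1 h1).2
  have hvol : ∀ (U : Finset V), Ful ends ω U → vol endb ω' W A2 (pre φ U) ≤
      vol endb ω' W A2 (Un ((GC endb ω' k2).filter (fun A => A ⊆ pre φ U))) := by
    intro U hU
    unfold vol
    have h1 : W.filter (fun x => x ∈ pre φ U ∧ A2 ≤ cz endb ω' x) ⊆
        W.filter (fun x => x ∈ Un ((GC endb ω' k2).filter (fun A => A ⊆ pre φ U)) ∧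
          A2 ≤ cz endb ω' x) := by
      intro x hx
      obtain ⟨h1, h2, h3⟩ := Finset.mem_filter.1 hx
      refine Finset.mem_filter.2 ⟨h1, ?_, h3⟩
      unfold Un
      refine Finset.mem_biUnion.2 ⟨cu endb ω' x, ?_, self_mem_cu ω' x⟩
      exact Finset.mem_filter.2 ⟨mem_GC.2 ⟨⟨x, rfl⟩, hkA.trans h3⟩, Ful_pre h hU x h2⟩
    exact_mod_cast Finset.card_le_card h1
  have hST : Disjoint S1 T1 := by
    rw [Finset.disjoint_left]
    intro A hA hA'
    obtain ⟨h1, h2⟩ := Finset.mem_filter.1 hA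
    obtain ⟨-, h3⟩ := Finset.mem_filter.1 hA'
    obtain ⟨x, hx⟩ := GC_nonempty h1
    exact Finset.disjoint_left.1 hKΓ (Finset.mem_filter.1 (h2 hx)).2 (Finset.mem_filter.1 (h3 hx)).2
  have hor : kk < eb endb (Un S1) (Un T1) ∨ 2 * j ≤ (DE endb ω' k2 κ S1 T1).card := by
    by_contra hcon
    rw [not_or, not_lt, not_le] at hcon
    exact hB ⟨S1, Finset.mem_powerset.2 (Finset.filter_subset _ _), T1,
      Finset.mem_powerset.2 (Finset.filter_subset _ _), hST, vK.trans (hvol K hK),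
      vΓ.trans (hvol Γ hΓ), hcon.1, hcon.2⟩
  have hSK : (Un S1).image φ ⊆ K := by
    intro y hy
    obtain ⟨x, hx, rfl⟩ := Finset.mem_image.1 hy
    exact hUn K x hx
  have hTG : (Un T1).image φ ⊆ Γ := by
    intro y hy
    obtain ⟨x, hx, rfl⟩ := Finset.mem_image.1 hy
    exact hUn Γ x hx
  rcases hor with h1 | h1
  · left
    refine lt_of_lt_of_le h1 (eb_mono ?_ ?_)
    · intro x hx
      exact Finset.mem_filter.2 ⟨Finset.mem_univ _, hUn K x hx⟩
    · intro x hx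
      exact Finset.mem_filter.2 ⟨Finset.mem_univ _, hUn Γ x hx⟩
  · right
    refine ⟨(DE endb ω' k2 κ S1 T1).image (fun D => D.image φ), ?_, ?_, ?_⟩
    · rw [Finset.card_image_of_injective _ (Finset.image_injective h.inj)]
      exact h1
    · intro D' hD'
      obtain ⟨D, hD, rfl⟩ := Finset.mem_image.1 hD'
      unfold DE at hD
      obtain ⟨hG, hnS, hnT, hκS, hκT⟩ := Finset.mem_filter.1 hD
      have hdis : ∀ (U : Finset V), Ful ends ω U →
          D ∉ (GC endb ω' k2).filter (fun A => A ⊆ pre φ U) → Disjoint (D.image φ) U := by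
        intro U hU hn
        rw [Finset.disjoint_left]
        intro y hy hyU
        obtain ⟨x, hx, rfl⟩ := Finset.mem_image.1 hy
        apply hn
        refine Finset.mem_filter.2 ⟨hG, ?_⟩
        rw [hcu D hG x hx]
        exact Ful_pre h hU x (Finset.mem_filter.2 ⟨Finset.mem_univ _, hyU⟩)
      refine ⟨(GC_nonempty hG).image φ, Finset.image_subset_image (Finset.subset_univ _),
        hdis K hK hnS, hdis Γ hΓ hnT, ?_, ?_, ?_⟩
      · exact hκS.trans ((eb_map h _ _).trans (eb_mono (Finset.Subset.refl _) hSK))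
      · exact hκT.trans ((eb_map h _ _).trans (eb_mono (Finset.Subset.refl _) hTG))
      · obtain ⟨⟨x0, hx0⟩, -⟩ := mem_GC.1 hG
        refine ⟨φ x0, ?_⟩
        intro y hy
        obtain ⟨x, hx, rfl⟩ := Finset.mem_image.1 hy
        rw [← hx0] at hx
        exact cu_map h hx
    · intro D1 hD1 D2 hD2 hne
      obtain ⟨A1, hA1, rfl⟩ := Finset.mem_image.1 hD1
      obtain ⟨A2', hA2, rfl⟩ := Finset.mem_image.1 hD2
      unfold DE at hA1 hA2
      have hG1 := (Finset.mem_filter.1 hA1).1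
      have hG2 := (Finset.mem_filter.1 hA2).1
      have hne' : A1 ≠ A2' := fun h0 => hne (by rw [h0])
      exact (Finset.disjoint_image h.inj).2 (GC_disj hG1 hG2 hne')

/-- The boxes of `𝒵0` are disjoint. -/
def Sep {ι : Type*} (φ : ι → Vb → V) (𝒵0 : Finset ι) : Prop :=
  ∀ z ∈ 𝒵0, ∀ z' ∈ 𝒵0, z ≠ z' → ∀ v v', φ z v ≠ φ z' v'

open scoped Classical in
private lemma A5_sum {ι : Type*} (φ : ι → Vb → V) (ψ : ι → Eb → E) (𝒵1 : Finset ι)
    (hem : ∀ z ∈ 𝒵1, Emb ends endb (φ z) (ψ z)) (hsep : Sep φ 𝒵1) (K Γ : Finset V) :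
    ∑ z ∈ 𝒵1, eb endb (pre (φ z) K) (pre (φ z) Γ) ≤ eb ends K Γ := by
  have h1 : ∀ z ∈ 𝒵1, eb endb (pre (φ z) K) (pre (φ z) Γ) =
      ((Finset.univ.filter (fun e => ∃ x ∈ pre (φ z) K, ∃ y ∈ pre (φ z) Γ, endb e = s(x, y))).image
        (ψ z)).card := by
    intro z hz
    rw [Finset.card_image_of_injective _ (hem z hz).injE]
    rfl
  rw [Finset.sum_congr rfl h1, ← Finset.card_biUnion]
  · unfold eb
    apply Finset.card_le_card
    intro e he
    obtain ⟨z, hz, hez⟩ := Finset.mem_biUnion.1 he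
    obtain ⟨e', he', rfl⟩ := Finset.mem_image.1 hez
    obtain ⟨-, x, hx, y, hy, hxy⟩ := Finset.mem_filter.1 he'
    refine Finset.mem_filter.2 ⟨Finset.mem_univ _, φ z x, (Finset.mem_filter.1 hx).2, φ z y,
      (Finset.mem_filter.1 hy).2, ?_⟩
    rw [(hem z hz).map, hxy]
    rfl
  · intro z hz z' hz' hne
    simp only [Function.onFun]
    rw [Finset.disjoint_left]
    intro e he he'
    obtain ⟨e1, he1, rfl⟩ := Finset.mem_image.1 he
    obtain ⟨e2, he2, h12⟩ := Finset.mem_image.1 he'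
    obtain ⟨-, x, hx, y, hy, hxy⟩ := Finset.mem_filter.1 he1
    have h3 : φ z x ∈ ends (ψ z e1) := by
      rw [(hem z hz).map, hxy]
      exact Sym2.mem_mk_left _ _
    rw [← h12, (hem z' hz').map] at h3
    obtain ⟨c, -, hc⟩ := Sym2.mem_map.1 h3
    exact hsep z hz z' hz' hne x c hc.symm

open scoped Classical in
/-- Row A5. Many disjoint boxes. One of the alternatives of `box_pt1` holds for at least `B` of the sites. (1) `∑ z, eb endb (pre (φ z) K) (pre (φ z) Γ) ≤ eb ends K Γ`: the sets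
of edges `ψ z e` are subsets of the edges between `K` and `Γ`, disjoint for different `z` (the ends of `ψ z e` are in the image of `φ z`), `ψ z` is injective.
(2) the union of the families: the sets are nonempty and disjoint for different `z`, so there are at least `B * (2 * j)`. -/
lemma box_many {ι : Type*} (φ : ι → Vb → V) (ψ : ι → Eb → E) (𝒵0 : Finset ι)
    (hem : ∀ z ∈ 𝒵0, Emb ends endb (φ z) (ψ z)) (hsep : Sep φ 𝒵0) {k2 A2 β : ℝ} {kk κ j B : ℕ}
    (hB : 2 * B ≤ 𝒵0.card) (hk2 : 0 < k2) (hkA : k2 ≤ A2) (ω : E → Bool) (W : Finset Vb)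
    (hbad : ∀ z ∈ 𝒵0, ¬ BadE2 endb (pl (ψ z) ω) W k2 A2 β kk κ j)
    (K Γ : Finset V) (hK : Ful ends ω K) (hΓ : Ful ends ω Γ) (hKΓ : Disjoint K Γ)
    (vK : ∀ z ∈ 𝒵0, β ≤ vol endb (pl (ψ z) ω) W A2 (pre (φ z) K))
    (vΓ : ∀ z ∈ 𝒵0, β ≤ vol endb (pl (ψ z) ω) W A2 (pre (φ z) Γ)) :
    B * (kk + 1) ≤ eb ends K Γ ∨ ∃ 𝒟 : Finset (Finset V), 2 * (B * j) ≤ 𝒟.card ∧
      (∀ D ∈ 𝒟, Disjoint D K ∧ Disjoint D Γ ∧ κ ≤ eb ends D K ∧ κ ≤ eb ends D Γ ∧
        ∃ v, D ⊆ cu ends ω v) ∧ ∀ D ∈ 𝒟, ∀ D' ∈ 𝒟, D ≠ D' → Disjoint D D' := by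
  set P : ι → Prop := fun z => kk < eb endb (pre (φ z) K) (pre (φ z) Γ) with hP
  have hcard : (𝒵0.filter P).card + (𝒵0.filter (fun z => ¬ P z)).card = 𝒵0.card :=
    Finset.card_filter_add_card_filter_not _
  by_cases h1 : B ≤ (𝒵0.filter P).card
  · left
    have hsum : ∑ z ∈ 𝒵0.filter P, (kk + 1) ≤
        ∑ z ∈ 𝒵0.filter P, eb endb (pre (φ z) K) (pre (φ z) Γ) := by
      refine Finset.sum_le_sum fun z hz => ?_
      exact (Finset.mem_filter.1 hz).2
    rw [Finset.sum_const, smul_eq_mul] at hsum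
    have hle : ∑ z ∈ 𝒵0.filter P, eb endb (pre (φ z) K) (pre (φ z) Γ) ≤ eb ends K Γ :=
      A5_sum φ ψ _ (fun z hz => hem z (Finset.mem_filter.1 hz).1)
        (fun z hz z' hz' hne => hsep z (Finset.mem_filter.1 hz).1 z' (Finset.mem_filter.1 hz').1 hne) K Γ
    exact (Nat.mul_le_mul_right _ h1).trans (hsum.trans hle)
  · right
    have h2 : B ≤ (𝒵0.filter (fun z => ¬ P z)).card := by omega
    have hex : ∀ z, z ∈ 𝒵0.filter (fun z => ¬ P z) → ∃ 𝒟 : Finset (Finset V), 2 * j ≤ 𝒟.card ∧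
      (∀ D ∈ 𝒟, D.Nonempty ∧ D ⊆ Finset.univ.image (φ z) ∧ Disjoint D K ∧ Disjoint D Γ ∧ κ ≤ eb ends D K ∧
        κ ≤ eb ends D Γ ∧ ∃ v, D ⊆ cu ends ω v) ∧ ∀ D ∈ 𝒟, ∀ D' ∈ 𝒟, D ≠ D' → Disjoint D D' := by
      intro z hz
      obtain ⟨hz0, hz1⟩ := Finset.mem_filter.1 hz
      rcases box_pt1 (hem z hz0) hk2 hkA ω W (hbad z hz0) K Γ hK hΓ hKΓ (vK z hz0) (vΓ z hz0) with h | h
      · exact (hz1 h).elim
      · exact h
    choose! F hF1 hF2 hF3 using hex
    have hdisj : ∀ z ∈ 𝒵0.filter (fun z => ¬ P z), ∀ z' ∈ 𝒵0.filter (fun z => ¬ P z), z ≠ z' →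
        ∀ D ∈ F z, ∀ D' ∈ F z', Disjoint D D' := by
      intro z hz z' hz' hne D hD D' hD'
      rw [Finset.disjoint_left]
      intro x hx hx'
      obtain ⟨v, -, hv⟩ := Finset.mem_image.1 ((hF2 z hz D hD).2.1 hx)
      obtain ⟨v', -, hv'⟩ := Finset.mem_image.1 ((hF2 z' hz' D' hD').2.1 hx')
      exact hsep z (Finset.mem_filter.1 hz).1 z' (Finset.mem_filter.1 hz').1 hne v v' (hv.trans hv'.symm)
    refine ⟨(𝒵0.filter (fun z => ¬ P z)).biUnion F, ?_, ?_, ?_⟩
    · rw [Finset.card_biUnion]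
      · calc 2 * (B * j) = B * (2 * j) := by ring
          _ ≤ (𝒵0.filter (fun z => ¬ P z)).card * (2 * j) := Nat.mul_le_mul_right _ h2
          _ = ∑ z ∈ 𝒵0.filter (fun z => ¬ P z), 2 * j := by rw [Finset.sum_const, smul_eq_mul]
          _ ≤ _ := Finset.sum_le_sum fun z hz => hF1 z hz
      · intro z hz z' hz' hne
        simp only [Function.onFun]
        rw [Finset.disjoint_left]
        intro D hD hD'
        have h3 := hdisj z hz z' hz' hne D hD D hD'
        obtain ⟨x, hx⟩ := (hF2 z hz D hD).1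
        exact Finset.disjoint_left.1 h3 hx hx
    · intro D hD
      obtain ⟨z, hz, hDz⟩ := Finset.mem_biUnion.1 hD
      exact (hF2 z hz D hDz).2.2
    · intro D hD D' hD' hne
      obtain ⟨z, hz, hDz⟩ := Finset.mem_biUnion.1 hD
      obtain ⟨z', hz', hDz'⟩ := Finset.mem_biUnion.1 hD'
      by_cases hzz : z = z'
      · subst hzz
        exact hF3 z hz D hDz D' hDz' hne
      · exact hdisj z hz z' hz' hzz D hDz D' hDz'

/-- Many disjoint boxes where `¬ BadE2` and both sets have a large volume. -/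
def ShM {ι : Type*} (𝒵 : Finset ι) (φ : ι → Vb → V) (ψ : ι → Eb → E) (endb : Eb → Sym2 Vb)
    (W : Finset Vb) (k2 A2 β : ℝ) (kk κ j B : ℕ) (ω : E → Bool) (Γ K : Finset V) : Prop :=
  ∃ 𝒵0 ⊆ 𝒵, 2 * B ≤ 𝒵0.card ∧ Sep φ 𝒵0 ∧ ∀ z ∈ 𝒵0,
    ¬ BadE2 endb (pl (ψ z) ω) W k2 A2 β kk κ j ∧
    β ≤ vol endb (pl (ψ z) ω) W A2 (pre (φ z) Γ) ∧ β ≤ vol endb (pl (ψ z) ω) W A2 (pre (φ z) K)

open scoped Classical in
/-- Row A6. As `uniq_x` (finished file 29w_B4.lean) with `K = UC β X`, `β = orc (orc (orc ω η1) η2) η3`, `box_many` for `box_pt`, `cutX` for `sprinkle_cut`, `hopX` for `two_hop`: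
`y ∉ UC β X`, so `K` is disjoint from `cu β y ⊇ Γ ⊇ Γ1`; then `UCl β Γᶜ X = UC β X` and `Dst β Γᶜ h X` follows from `Dst β univ h X` (the clusters do not meet `Γ`). -/
lemma uniq_X {s2 s3 : ℝ} (h20 : 0 ≤ s2) (h21 : s2 ≤ 1) (h30 : 0 ≤ s3) (h31 : s3 ≤ 1) {ι : Type*}
    (𝒵 : Finset ι) (φ : ι → Vb → V) (ψ : ι → Eb → E) (hem : ∀ z ∈ 𝒵, Emb ends endb (φ z) (ψ z))
    {k2 A2 β h : ℝ} {kk κ j j1 B : ℕ} (hk2 : 0 < k2) (hkA : k2 ≤ A2) (W : Finset Vb)
    (ω η1 : E → Bool) (y : V) (X : Finset V) :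
    Ex s2 (fun η2 => Ex s3 (fun η3 => if y ∉ UC ends (orc (orc (orc ω η1) η2) η3) X ∧
      Dst ends (orc (orc (orc ω η1) η2) η3) Set.univ h X ∧
      ShM 𝒵 φ ψ endb W k2 A2 β kk κ j B ω (cu ends (orc ω η1) y)
        (UC ends (orc (orc (orc ω η1) η2) η3) X) then (1 : ℝ) else 0)) ≤
      (1 - s3) ^ (min (B * (kk + 1)) (j1 * κ)) *
        Ex s2 (fun η2 => Ex s3 (fun η3 => if Dst ends (orc (orc (orc ω η1) η2) η3)
          ((cu ends (orc (orc ω η1) η2) y : Set V)ᶜ) h X then (1 : ℝ) else 0)) +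
      2 ^ j1 * (1 - (1 - (1 - s2) ^ κ) / 2) ^ (2 * (B * j)) *
        Ex s2 (fun η2 => Ex s3 (fun η3 => if Dst ends (orc (orc (orc ω η1) η2) η3) Set.univ h X
          then (1 : ℝ) else 0)) := by
  set ω1 := orc ω η1 with hω1
  set Γ1 := cu ends ω1 y with hΓ1
  set k : ℕ := min (B * (kk + 1)) (j1 * κ) with hk
  -- the condition on the value of the union of the clusters
  let P : Finset V → Prop := fun S => Ful ends ω S ∧ Disjoint S Γ1 ∧
    ShM 𝒵 φ ψ endb W k2 A2 β kk κ j B ω Γ1 S ∧ ¬ B * (kk + 1) ≤ eb ends S Γ1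
  have hG1 : Ful ends ω Γ1 := by
    intro v hv
    have h1 : cu ends ω v ⊆ cu ends ω1 v := cu_mono (orc_left ω η1)
    rw [cu_eq hv] at h1
    exact h1
  have hex : ∀ S, P S → ∃ 𝒟 : Finset (Finset V), 2 * (B * j) ≤ 𝒟.card ∧
      (∀ D ∈ 𝒟, Disjoint D S ∧ Disjoint D Γ1 ∧ κ ≤ eb ends D S ∧ κ ≤ eb ends D Γ1 ∧
        ∃ v, D ⊆ cu ends ω v) ∧ ∀ D ∈ 𝒟, ∀ D' ∈ 𝒟, D ≠ D' → Disjoint D D' := by
    intro S hS
    obtain ⟨h1, h2, ⟨𝒵0, hz, hc0, hsep, h3⟩, h6⟩ := hS
    rcases box_many φ ψ 𝒵0 (fun z hz' => hem z (hz hz')) hsep hc0 hk2 hkA ω W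
      (fun z hz' => (h3 z hz').1) S Γ1 h1 hG1 h2 (fun z hz' => (h3 z hz').2.2)
      (fun z hz' => (h3 z hz').2.1) with h7 | h7
    · exact absurd h7 h6
    · exact h7
  let 𝒟 : Finset V → Finset (Finset V) := fun S => if h : P S then (hex S h).choose else ∅
  have hDpos : ∀ S (h : P S), 𝒟 S = (hex S h).choose := fun S h => dif_pos h
  have hDneg : ∀ S, ¬ P S → 𝒟 S = ∅ := fun S h => dif_neg h
  have hDall : ∀ S, ∀ D ∈ 𝒟 S, Disjoint D S ∧ Disjoint D Γ1 ∧ κ ≤ eb ends D S ∧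
      κ ≤ eb ends D Γ1 ∧ ∃ v, D ⊆ cu ends ω v := by
    intro S D hD
    by_cases h : P S
    · rw [hDpos S h] at hD
      exact (hex S h).choose_spec.2.1 D hD
    · rw [hDneg S h] at hD
      exact absurd hD (Finset.notMem_empty D)
  have hDdis : ∀ S, ∀ D ∈ 𝒟 S, ∀ D' ∈ 𝒟 S, D ≠ D' → Disjoint D D' := by
    intro S D hD D' hD'
    by_cases h : P S
    · rw [hDpos S h] at hD hD'
      exact (hex S h).choose_spec.2.2 D hD D' hD'
    · rw [hDneg S h] at hD
      exact absurd hD (Finset.notMem_empty D)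
  have horc : ∀ η2 η3 : E → Bool, orc (orc ω1 η3) η2 = orc (orc ω1 η2) η3 := by
    intro η2 η3
    funext e
    simp only [orc]
    rw [Bool.or_assoc, Bool.or_assoc, Bool.or_comm (η3 e) (η2 e)]
  -- the two events
  let fA : (E → Bool) → (E → Bool) → ℝ := fun η2 η3 =>
    if Dst ends (orc (orc ω1 η2) η3) ((cu ends (orc ω1 η2) y : Set V)ᶜ) h X ∧
        k ≤ eb ends (cu ends (orc ω1 η2) y)
          (UCl ends (orc (orc ω1 η2) η3) ((cu ends (orc ω1 η2) y : Set V)ᶜ) X) ∧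
        (∀ e, (∃ u ∈ cu ends (orc ω1 η2) y,
          ∃ v ∈ UCl ends (orc (orc ω1 η2) η3) ((cu ends (orc ω1 η2) y : Set V)ᶜ) X,
            ends e = s(u, v)) → η3 e = false) then (1 : ℝ) else 0
  let fB : (E → Bool) → (E → Bool) → ℝ := fun η2 η3 =>
    if Disjoint Γ1 (UC ends (orc (orc ω1 η3) η2) X) ∧
      Dst ends (orc (orc ω1 η3) η2) Set.univ h X ∧
      2 * (B * j) ≤ (𝒟 (UC ends (orc (orc ω1 η3) η2) X)).card ∧
      ((𝒟 (UC ends (orc (orc ω1 η3) η2) X)).filter (fun D => Opn ends η2 D Γ1)).card < j1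
      then (1 : ℝ) else 0
  have hpt : ∀ η2 η3 : E → Bool, (if y ∉ UC ends (orc (orc ω1 η2) η3) X ∧
      Dst ends (orc (orc ω1 η2) η3) Set.univ h X ∧
      ShM 𝒵 φ ψ endb W k2 A2 β kk κ j B ω Γ1 (UC ends (orc (orc ω1 η2) η3) X)
        then (1 : ℝ) else 0) ≤ fA η2 η3 + fB η2 η3 := by
    intro η2 η3
    have hA0 : 0 ≤ fA η2 η3 := by
      simp only [fA]; split_ifs <;> norm_num
    have hB0 : 0 ≤ fB η2 η3 := by
      simp only [fB]; split_ifs <;> norm_num
    split_ifs with hc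
    swap
    · exact add_nonneg hA0 hB0
    obtain ⟨hx, hD, hSh⟩ := hc
    set bt := orc (orc ω1 η2) η3 with hbt
    set Γ := cu ends (orc ω1 η2) y with hΓ
    have hΓb : Γ ⊆ cu ends bt y := cu_mono (orc_left (orc ω1 η2) η3)
    have hΓ1Γ : Γ1 ⊆ Γ := cu_mono (orc_left ω1 η2)
    have hyx : ∀ x ∈ X, y ∉ cu ends bt x := by
      intro x hxX hyc
      exact hx (Finset.mem_biUnion.2 ⟨x, hxX, hyc⟩)
    have hdisb : Disjoint (cu ends bt y) (UC ends bt X) := by
      unfold UC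
      rw [Finset.disjoint_biUnion_right]
      intro x hxX
      exact (cu_disj (hyx x hxX)).symm
    have hdisΓ : Disjoint Γ (UC ends bt X) := Disjoint.mono_left hΓb hdisb
    have hdisΓ1 : Disjoint Γ1 (UC ends bt X) := Disjoint.mono_left hΓ1Γ hdisΓ
    have hsubX : ∀ x ∈ X, cu ends bt x ⊆ UC ends bt X := fun x hxX z hz =>
      Finset.mem_biUnion.2 ⟨x, hxX, hz⟩
    have hcl : ∀ x ∈ X, cl ends bt ((Γ : Set V)ᶜ) x = cu ends bt x := by
      intro x hxX
      have hsub : ∀ z, Rch ends bt Set.univ x z → z ∉ Γ := by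
        intro z hz hzΓ
        exact Finset.disjoint_left.1 hdisΓ hzΓ (hsubX x hxX (mem_cu.2 hz))
      apply Finset.Subset.antisymm
      · exact cl_mono (fun _ h => h) (Set.subset_univ _)
      · intro z hz
        rw [mem_cu] at hz
        rw [mem_cl]
        induction hz with
        | refl => exact Rch.refl x
        | @tail c d hxc hcd ih =>
          have hxd : Rch ends bt Set.univ x d := Relation.ReflTransGen.tail hxc hcd
          obtain ⟨-, -, e, h3, h4⟩ := hcd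
          exact Relation.ReflTransGen.tail ih ⟨hsub c hxc, hsub d hxd, e, h3, h4⟩
    have hUCl : UCl ends bt ((Γ : Set V)ᶜ) X = UC ends bt X := by
      unfold UCl UC
      exact Finset.biUnion_congr rfl hcl
    have hDst : Dst ends bt ((Γ : Set V)ᶜ) h X := by
      refine ⟨?_, ?_⟩
      · intro x hxX
        refine ⟨?_, ?_⟩
        · intro hxΓ
          exact Finset.disjoint_left.1 hdisΓ (Finset.mem_coe.1 hxΓ)
            (hsubX x hxX (self_mem_cu bt x))
        · rw [hcl x hxX]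
          exact (hD.1 x hxX).2
      · intro x hxX x' hx'X hne
        rw [hcl x hxX]
        exact hD.2 x hxX x' hx'X hne
    have hA1 : k ≤ eb ends Γ (UC ends bt X) → fA η2 η3 = 1 := by
      intro hkle
      simp only [fA]
      rw [if_pos]
      rw [← hbt, ← hΓ, hUCl]
      refine ⟨hDst, hkle, ?_⟩
      rintro e ⟨u, hu, v, hv, he⟩
      by_contra hw
      rw [Bool.not_eq_false] at hw
      have h3 : bt e = true := orc_right (orc ω1 η2) η3 e hw
      have h4 : u ∈ cu ends bt y := hΓb hu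
      obtain ⟨x, hxX, hvx⟩ := Finset.mem_biUnion.1 hv
      apply hyx x hxX
      rw [mem_cu] at h4 hvx ⊢
      have h5 : Rch ends bt Set.univ u v :=
        Relation.ReflTransGen.single ⟨Set.mem_univ _, Set.mem_univ _, e, h3, he⟩
      exact (hvx.trans h5.symm).trans h4.symm
    by_cases hkk : B * (kk + 1) ≤ eb ends (UC ends bt X) Γ1
    · have h1 : k ≤ eb ends Γ (UC ends bt X) := by
        have h2 : eb ends (UC ends bt X) Γ1 ≤ eb ends Γ (UC ends bt X) := by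
          rw [eb_symm Γ (UC ends bt X)]
          exact eb_mono (Finset.Subset.refl _) hΓ1Γ
        exact (min_le_left _ _).trans (hkk.trans h2)
      rw [hA1 h1]
      linarith
    · have hPx : P (UC ends bt X) := by
        refine ⟨?_, hdisΓ1.symm, hSh, hkk⟩
        intro v hv
        obtain ⟨x, hxX, hvx⟩ := Finset.mem_biUnion.1 hv
        have h1 : cu ends ω v ⊆ cu ends bt v :=
          cu_mono (fun e he => orc_left (orc ω1 η2) η3 e (orc_left ω1 η2 e (orc_left ω η1 e he)))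
        rw [cu_eq hvx] at h1
        exact h1.trans (hsubX x hxX)
      have hcard : 2 * (B * j) ≤ (𝒟 (UC ends bt X)).card := by
        rw [hDpos _ hPx]
        exact (hex _ hPx).choose_spec.1
      by_cases hlt : ((𝒟 (UC ends bt X)).filter (fun D => Opn ends η2 D Γ1)).card < j1
      · have h1 : fB η2 η3 = 1 := by
          simp only [fB]
          rw [horc η2 η3, ← hbt]
          rw [if_pos ⟨hdisΓ1, hD, hcard, hlt⟩]
        rw [h1]
        linarith
      · rw [not_lt] at hlt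
        have h1 : ((𝒟 (UC ends bt X)).filter (fun D => Opn ends η2 D Γ1)).card * κ ≤
            eb ends Γ (UC ends bt X) := by
          apply eb_join
          · intro D hD
            exact (hDall _ D (Finset.mem_filter.1 hD).1).1
          · intro D hD
            obtain ⟨hD1, hD2⟩ := Finset.mem_filter.1 hD
            obtain ⟨v, hv⟩ := (hDall _ D hD1).2.2.2.2
            exact joined ⟨v, hv.trans (cu_mono (orc_left ω η1))⟩ hD2
          · intro D hD D' hD'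
            exact hDdis _ D (Finset.mem_filter.1 hD).1 D' (Finset.mem_filter.1 hD').1
          · intro D hD
            exact (hDall _ D (Finset.mem_filter.1 hD).1).2.2.1
        have h2 : k ≤ eb ends Γ (UC ends bt X) :=
          (min_le_right _ _).trans ((Nat.mul_le_mul_right κ hlt).trans h1)
        rw [hA1 h2]
        linarith
  have hA : Ex s2 (fun η2 => Ex s3 (fun η3 => fA η2 η3)) ≤ (1 - s3) ^ k *
      Ex s2 (fun η2 => Ex s3 (fun η3 => if Dst ends (orc (orc ω1 η2) η3)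
          ((cu ends (orc ω1 η2) y : Set V)ᶜ) h X then (1 : ℝ) else 0)) := by
    rw [← Ex_mul_left]
    apply Ex_mono h20 h21
    intro η2
    exact cutX h30 h31 (orc ω1 η2) (cu ends (orc ω1 η2) y) k h X
  have hB : Ex s2 (fun η2 => Ex s3 (fun η3 => fB η2 η3)) ≤
      2 ^ j1 * (1 - (1 - (1 - s2) ^ κ) / 2) ^ (2 * (B * j)) *
      Ex s2 (fun η2 => Ex s3 (fun η3 => if Dst ends (orc (orc ω1 η2) η3) Set.univ h X
        then (1 : ℝ) else 0)) := by
    rw [Ex_swap s2 s3 (fun η2 η3 => fB η2 η3), Ex_swap s2 s3 (fun η2 η3 =>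
      if Dst ends (orc (orc ω1 η2) η3) Set.univ h X then (1 : ℝ) else 0), ← Ex_mul_left]
    apply Ex_mono h30 h31
    intro η3
    refine (hopX h20 h21 (orc ω1 η3) X Γ1 𝒟 κ (2 * (B * j)) j1 (fun S D hD => (hDall S D hD).1)
      (fun S D hD => (hDall S D hD).2.1) hDdis (fun S D hD => (hDall S D hD).2.2.2.1)).trans ?_
    apply le_of_eq
    congr 1
    apply Ex_congr
    intro η2
    rw [horc η2 η3]
  have hmain := Ex_mono h20 h21 (fun η2 => Ex_mono h30 h31 (fun η3 => hpt η2 η3))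
  refine hmain.trans ?_
  have hsplit : Ex s2 (fun η2 => Ex s3 (fun η3 => fA η2 η3 + fB η2 η3)) =
      Ex s2 (fun η2 => Ex s3 (fun η3 => fA η2 η3)) + Ex s2 (fun η2 => Ex s3 (fun η3 => fB η2 η3)) := by
    rw [← Ex_add]
    apply Ex_congr
    intro η2
    rw [Ex_add]
  rw [hsplit]
  exact add_le_add hA hB

open scoped Classical in
/-- Row A7. Expectation of `uniq_X` over `ω`, `η1`: the first term by `Dst_fresh` with `ξ = orc (orc ω η1) η2` (`Ex_orc` twice), the second by `Ex_orc` three times and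
`Dst_le` with `S = univ`. -/
lemma uniq_XE {p s1 s2 s3 f : ℝ} (h0 : 0 ≤ p) (h1 : p ≤ 1) (h10 : 0 ≤ s1) (h11 : s1 ≤ 1) (h20 : 0 ≤ s2)
    (h21 : s2 ≤ 1) (h30 : 0 ≤ s3) (h31 : s3 ≤ 1) {ι : Type*}
    (𝒵 : Finset ι) (φ : ι → Vb → V) (ψ : ι → Eb → E) (hem : ∀ z ∈ 𝒵, Emb ends endb (φ z) (ψ z))
    {k2 A2 β h : ℝ} {kk κ j j1 B : ℕ} (hk2 : 0 < k2) (hkA : k2 ≤ A2) (W : Finset Vb)
    (hf : ∀ x, Ex (1 - (1 - p) * (1 - s1) * (1 - s2) * (1 - s3)) (fun ω =>
      if h ≤ cz ends ω x then (1 : ℝ) else 0) ≤ f) (y : V) (X : Finset V) :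
    Ex p (fun ω => Ex s1 (fun η1 => Ex s2 (fun η2 => Ex s3 (fun η3 =>
      if y ∉ UC ends (orc (orc (orc ω η1) η2) η3) X ∧
      Dst ends (orc (orc (orc ω η1) η2) η3) Set.univ h X ∧
      ShM 𝒵 φ ψ endb W k2 A2 β kk κ j B ω (cu ends (orc ω η1) y)
        (UC ends (orc (orc (orc ω η1) η2) η3) X) then (1 : ℝ) else 0)))) ≤
      ((1 - s3) ^ (min (B * (kk + 1)) (j1 * κ)) +
        2 ^ j1 * (1 - (1 - (1 - s2) ^ κ) / 2) ^ (2 * (B * j))) * f ^ X.card := by
  obtain ⟨a, ha⟩ : ∃ a : ℝ, a = (1 - s3) ^ (min (B * (kk + 1)) (j1 * κ)) := ⟨_, rfl⟩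
  obtain ⟨b, hb⟩ : ∃ b : ℝ, b = 2 ^ j1 * (1 - (1 - (1 - s2) ^ κ) / 2) ^ (2 * (B * j)) := ⟨_, rfl⟩
  have ha0 : 0 ≤ a := by rw [ha]; exact pow_nonneg (by linarith) _
  have hb0 : 0 ≤ b := by
    rw [hb]
    have h5 : 0 ≤ (1 - s2) ^ κ := pow_nonneg (by linarith) _
    exact mul_nonneg (by positivity) (pow_nonneg (by linarith) _)
  obtain ⟨F, hF⟩ : ∃ F : (E → Bool) → ℝ, F = fun ξ => Ex s3 (fun η3 =>
      if Dst ends (orc ξ η3) ((cu ends ξ y : Set V)ᶜ) h X then (1 : ℝ) else 0) := ⟨_, rfl⟩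
  obtain ⟨G, hG⟩ : ∃ G : (E → Bool) → ℝ, G = fun ξ =>
      if Dst ends ξ Set.univ h X then (1 : ℝ) else 0 := ⟨_, rfl⟩
  have hp1 : 0 ≤ (1 - p) * (1 - s1) := mul_nonneg (by linarith) (by linarith)
  have hp1' : (1 - p) * (1 - s1) ≤ 1 := mul_le_one₀ (by linarith) (by linarith) (by linarith)
  have hp2 : 0 ≤ (1 - p) * (1 - s1) * (1 - s2) := mul_nonneg hp1 (by linarith)
  have hp2' : (1 - p) * (1 - s1) * (1 - s2) ≤ 1 := mul_le_one₀ hp1' (by linarith) (by linarith)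
  have hp3 : 0 ≤ (1 - p) * (1 - s1) * (1 - s2) * (1 - s3) := mul_nonneg hp2 (by linarith)
  have hp3' : (1 - p) * (1 - s1) * (1 - s2) * (1 - s3) ≤ 1 :=
    mul_le_one₀ hp2' (by linarith) (by linarith)
  have e1 : ∀ H : (E → Bool) → ℝ, Ex (1 - (1 - p) * (1 - s1) * (1 - s2)) H =
      Ex p (fun ω => Ex s1 (fun η1 => Ex s2 (fun η2 => H (orc (orc ω η1) η2)))) := by
    intro H
    have h5 : 1 - (1 - p) * (1 - s1) * (1 - s2) =
        1 - (1 - (1 - (1 - p) * (1 - s1))) * (1 - s2) := by ring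
    rw [h5, Ex_orc (1 - (1 - p) * (1 - s1)) s2 H, Ex_orc p s1]
  have e2 : ∀ H : (E → Bool) → ℝ, Ex (1 - (1 - p) * (1 - s1) * (1 - s2) * (1 - s3)) H =
      Ex p (fun ω => Ex s1 (fun η1 => Ex s2 (fun η2 => Ex s3 (fun η3 =>
        H (orc (orc (orc ω η1) η2) η3))))) := by
    intro H
    have h5 : 1 - (1 - p) * (1 - s1) * (1 - s2) * (1 - s3) =
        1 - (1 - (1 - (1 - p) * (1 - s1) * (1 - s2))) * (1 - s3) := by ring
    rw [h5, Ex_orc (1 - (1 - p) * (1 - s1) * (1 - s2)) s3 H, e1]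
  have b1 : Ex p (fun ω => Ex s1 (fun η1 => Ex s2 (fun η2 => F (orc (orc ω η1) η2)))) ≤
      f ^ X.card := by
    rw [← e1, hF]
    refine Dst_fresh (by linarith) (by linarith) h30 h31 (fun x => ?_) y X
    have h5 : 1 - (1 - (1 - (1 - p) * (1 - s1) * (1 - s2))) * (1 - s3) =
        1 - (1 - p) * (1 - s1) * (1 - s2) * (1 - s3) := by ring
    rw [h5]
    exact hf x
  have b2 : Ex p (fun ω => Ex s1 (fun η1 => Ex s2 (fun η2 => Ex s3 (fun η3 =>
      G (orc (orc (orc ω η1) η2) η3))))) ≤ f ^ X.card := by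
    rw [← e2, hG]
    exact Dst_le (by linarith) (by linarith) hf Set.univ X
  have key : ∀ ω η1 : E → Bool, Ex s2 (fun η2 => Ex s3 (fun η3 =>
      if y ∉ UC ends (orc (orc (orc ω η1) η2) η3) X ∧
      Dst ends (orc (orc (orc ω η1) η2) η3) Set.univ h X ∧
      ShM 𝒵 φ ψ endb W k2 A2 β kk κ j B ω (cu ends (orc ω η1) y)
        (UC ends (orc (orc (orc ω η1) η2) η3) X) then (1 : ℝ) else 0)) ≤
      a * Ex s2 (fun η2 => F (orc (orc ω η1) η2)) +
      b * Ex s2 (fun η2 => Ex s3 (fun η3 => G (orc (orc (orc ω η1) η2) η3))) := by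
    intro ω η1
    have h5 := uniq_X (ends := ends) (h := h) (β := β) (kk := kk) (κ := κ) (j := j) (j1 := j1)
      (B := B) h20 h21 h30 h31 𝒵 φ ψ hem hk2 hkA W ω η1 y X
    rw [ha, hb, hF, hG]
    exact h5
  rw [← ha, ← hb]
  calc Ex p (fun ω => Ex s1 (fun η1 => Ex s2 (fun η2 => Ex s3 (fun η3 =>
      if y ∉ UC ends (orc (orc (orc ω η1) η2) η3) X ∧
      Dst ends (orc (orc (orc ω η1) η2) η3) Set.univ h X ∧
      ShM 𝒵 φ ψ endb W k2 A2 β kk κ j B ω (cu ends (orc ω η1) y)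
        (UC ends (orc (orc (orc ω η1) η2) η3) X) then (1 : ℝ) else 0))))
      ≤ Ex p (fun ω => Ex s1 (fun η1 => a * Ex s2 (fun η2 => F (orc (orc ω η1) η2)) +
          b * Ex s2 (fun η2 => Ex s3 (fun η3 => G (orc (orc (orc ω η1) η2) η3))))) :=
        Ex_mono h0 h1 fun ω => Ex_mono h10 h11 fun η1 => key ω η1
    _ = a * Ex p (fun ω => Ex s1 (fun η1 => Ex s2 (fun η2 => F (orc (orc ω η1) η2)))) +
        b * Ex p (fun ω => Ex s1 (fun η1 => Ex s2 (fun η2 => Ex s3 (fun η3 =>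
          G (orc (orc (orc ω η1) η2) η3))))) := by
        rw [← Ex_mul_left, ← Ex_mul_left, ← Ex_add]
        refine Ex_congr fun ω => ?_
        rw [← Ex_mul_left, ← Ex_mul_left, ← Ex_add]
    _ ≤ a * f ^ X.card + b * f ^ X.card :=
        add_le_add (mul_le_mul_of_nonneg_left b1 ha0) (mul_le_mul_of_nonneg_left b2 hb0)
    _ = (a + b) * f ^ X.card := by ring

open scoped Classical in
/-- The points with a large cluster, off the cluster of `y`. -/
noncomputable def Fm (ends : E → Sym2 V) (ω : E → Bool) (h : ℝ) (y : V) : Finset V :=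
  Finset.univ.filter (fun x => h ≤ cz ends ω x ∧ x ∉ cu ends ω y)

lemma A8_cu {ω : E → Bool} {h : ℝ} {y : V} {K : Finset V}
    (hK : K ∈ (Fm ends ω h y).image (cu ends ω)) {x : V} (hx : x ∈ K) :
    cu ends ω x = K ∧ h ≤ cz ends ω x ∧ x ∈ Fm ends ω h y := by
  obtain ⟨z, hz, rfl⟩ := Finset.mem_image.1 hK
  have h1 : cu ends ω x = cu ends ω z := cu_eq hx
  rw [Fm, Finset.mem_filter] at hz
  obtain ⟨-, hz1, hz2⟩ := hz
  have h2 : h ≤ cz ends ω x := by
    unfold cz at hz1 ⊢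
    rw [h1]
    exact hz1
  refine ⟨h1, h2, ?_⟩
  rw [Fm, Finset.mem_filter]
  refine ⟨Finset.mem_univ _, h2, fun hxy => hz2 ?_⟩
  rw [← cu_eq hxy, h1]
  exact self_mem_cu ω z

open scoped Classical in
/-- Row A8. Representatives. `Fm` is the disjoint union of the clusters `K ∈ (Fm ..).image (cu ends ω)`, each with at least `h` points. The sets `X` with one point in each of
these clusters satisfy the condition; there are `∏ K, |K| ≥ h ^ (number of clusters)` of them (`Finset.prod_sum` / `Finset.pi`: `∏ K, ∑ x ∈ K, 1/h` is the sum over the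
choice functions, and different choice functions have different images), and `|X|` is the number of the clusters. -/
lemma reps (ω : E → Bool) {h : ℝ} (hh : 1 ≤ h) (y : V) :
    (1 : ℝ) ≤ ∑ X ∈ (Finset.univ : Finset V).powerset, (1 / h) ^ X.card *
      (if y ∉ UC ends ω X ∧ Dst ends ω Set.univ h X ∧ UC ends ω X = Fm ends ω h y
        then (1 : ℝ) else 0) := by
  set 𝒦 : Finset (Finset V) := (Fm ends ω h y).image (cu ends ω) with h𝒦
  have hh0 : 0 < h := by linarith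
  have hcard : ∀ K ∈ 𝒦, h ≤ (K.card : ℝ) := by
    intro K hK
    obtain ⟨z, hz, rfl⟩ := Finset.mem_image.1 hK
    exact (Finset.mem_filter.1 hz).2.1
  have h1 : (1 : ℝ) ≤ ∏ K ∈ 𝒦, ∑ x ∈ K, (1 / h) := by
    have h2 : ∏ K ∈ 𝒦, (1 : ℝ) ≤ ∏ K ∈ 𝒦, ∑ x ∈ K, (1 / h) := by
      refine Finset.prod_le_prod (fun _ _ => zero_le_one) fun K hK => ?_
      rw [Finset.sum_const, nsmul_eq_mul, mul_one_div, le_div_iff₀ hh0, one_mul]
      exact hcard K hK
    rwa [Finset.prod_const_one] at h2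
  rw [Finset.prod_sum] at h1
  let Im : (∀ K ∈ 𝒦, V) → Finset V := fun p => 𝒦.attach.image (fun K => p K.1 K.2)
  have hpm : ∀ p ∈ 𝒦.pi (fun K => K), ∀ K (hK : K ∈ 𝒦), p K hK ∈ K := by
    intro p hp K hK
    exact Finset.mem_pi.1 hp K hK
  have hcu : ∀ p ∈ 𝒦.pi (fun K => K), ∀ K (hK : K ∈ 𝒦), cu ends ω (p K hK) = K :=
    fun p hp K hK => (A8_cu hK (hpm p hp K hK)).1
  have hinj : Set.InjOn Im (𝒦.pi (fun K => K) : Finset (∀ K ∈ 𝒦, V)) := by
    intro p hp q hq hpq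
    funext K hK
    have h3 : p K hK ∈ Im q := by
      rw [← hpq]
      exact Finset.mem_image.2 ⟨⟨K, hK⟩, Finset.mem_attach _ _, rfl⟩
    obtain ⟨⟨K', hK'⟩, -, h4⟩ := Finset.mem_image.1 h3
    simp only at h4
    have h5 : K' = K := by
      rw [← hcu q hq K' hK', h4, hcu p hp K hK]
    subst h5
    exact h4.symm
  have hcd : ∀ p ∈ 𝒦.pi (fun K => K), (Im p).card = 𝒦.card := by
    intro p hp
    change (𝒦.attach.image (fun K => p K.1 K.2)).card = _
    rw [Finset.card_image_of_injective, Finset.card_attach]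
    intro K K' hKK
    simp only at hKK
    refine Subtype.ext ?_
    rw [← hcu p hp K.1 K.2, hKK, hcu p hp K'.1 K'.2]
  have hcond : ∀ p ∈ 𝒦.pi (fun K => K), y ∉ UC ends ω (Im p) ∧
      Dst ends ω Set.univ h (Im p) ∧ UC ends ω (Im p) = Fm ends ω h y := by
    intro p hp
    have h6 : UC ends ω (Im p) = Fm ends ω h y := by
      ext x
      unfold UC
      rw [Finset.mem_biUnion]
      constructor
      · rintro ⟨z, hz, hx⟩
        obtain ⟨⟨K, hK⟩, -, rfl⟩ := Finset.mem_image.1 hz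
        simp only at hx
        rw [hcu p hp K hK] at hx
        exact (A8_cu hK hx).2.2
      · intro hx
        have hK : cu ends ω x ∈ 𝒦 := Finset.mem_image_of_mem _ hx
        refine ⟨p _ hK, Finset.mem_image.2 ⟨⟨_, hK⟩, Finset.mem_attach _ _, rfl⟩, ?_⟩
        rw [hcu p hp _ hK]
        exact self_mem_cu ω x
    refine ⟨?_, ⟨?_, ?_⟩, h6⟩
    · rw [h6, Fm, Finset.mem_filter]
      rintro ⟨-, -, h7⟩
      exact h7 (self_mem_cu ω y)
    · intro x hx
      obtain ⟨⟨K, hK⟩, -, rfl⟩ := Finset.mem_image.1 hx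
      exact ⟨Set.mem_univ _, (A8_cu hK (hpm p hp K hK)).2.1⟩
    · intro x hx x' hx' hne hmem
      obtain ⟨⟨K, hK⟩, -, rfl⟩ := Finset.mem_image.1 hx
      obtain ⟨⟨K', hK'⟩, -, rfl⟩ := Finset.mem_image.1 hx'
      simp only at hmem hne
      have h8 : p K' hK' ∈ cu ends ω (p K hK) := hmem
      rw [hcu p hp K hK] at h8
      have h9 : K' = K := by
        rw [← hcu p hp K' hK']
        exact (A8_cu hK h8).1
      subst h9
      exact hne rfl
  refine h1.trans ?_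
  have h2 : ∑ p ∈ 𝒦.pi (fun K => K), ∏ K ∈ 𝒦.attach, (1 / h) =
      ∑ X ∈ (𝒦.pi (fun K => K)).image Im, (1 / h) ^ X.card *
        (if y ∉ UC ends ω X ∧ Dst ends ω Set.univ h X ∧ UC ends ω X = Fm ends ω h y
          then (1 : ℝ) else 0) := by
    rw [Finset.sum_image hinj]
    refine Finset.sum_congr rfl fun p hp => ?_
    rw [if_pos (hcond p hp), mul_one, hcd p hp, Finset.prod_const, Finset.card_attach]
  rw [h2]
  refine Finset.sum_le_sum_of_subset_of_nonneg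
    (fun X _ => Finset.mem_powerset.2 (Finset.subset_univ X)) (fun X _ _ => ?_)
  refine mul_nonneg (pow_nonneg (one_div_nonneg.2 hh0.le) _) ?_
  split_ifs
  · exact zero_le_one
  · exact le_refl _

open scoped Classical in
/-- Row A8 (second half). Sum over the value `y` of `y0 ω η1` and, by `reps`, over `X`: `∑ X, (f/h)^|X| = (1 + f/h)^|V|` (`Finset.prod_add` or
`Finset.sum_pow_mul_eq_add_pow`). -/
theorem uniq_fam {p s1 s2 s3 f : ℝ} (h0 : 0 ≤ p) (h1 : p ≤ 1) (h10 : 0 ≤ s1) (h11 : s1 ≤ 1) (h20 : 0 ≤ s2)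
    (h21 : s2 ≤ 1) (h30 : 0 ≤ s3) (h31 : s3 ≤ 1) {ι : Type*}
    (𝒵 : Finset ι) (φ : ι → Vb → V) (ψ : ι → Eb → E) (hem : ∀ z ∈ 𝒵, Emb ends endb (φ z) (ψ z))
    {k2 A2 β h : ℝ} {kk κ j j1 B : ℕ} (hk2 : 0 < k2) (hkA : k2 ≤ A2) (hh : 1 ≤ h) (W : Finset Vb)
    (hf : ∀ x, Ex (1 - (1 - p) * (1 - s1) * (1 - s2) * (1 - s3)) (fun ω =>
      if h ≤ cz ends ω x then (1 : ℝ) else 0) ≤ f) (hf0 : 0 ≤ f)
    (y0 : (E → Bool) → (E → Bool) → V) :
    Ex p (fun ω => Ex s1 (fun η1 => Ex s2 (fun η2 => Ex s3 (fun η3 =>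
      if ShM 𝒵 φ ψ endb W k2 A2 β kk κ j B ω (cu ends (orc ω η1) (y0 ω η1))
        (Fm ends (orc (orc (orc ω η1) η2) η3) h (y0 ω η1)) then (1 : ℝ) else 0)))) ≤
      Fintype.card V * (((1 - s3) ^ (min (B * (kk + 1)) (j1 * κ)) +
        2 ^ j1 * (1 - (1 - (1 - s2) ^ κ) / 2) ^ (2 * (B * j))) * (1 + f / h) ^ Fintype.card V) := by
  have hh0 : 0 < h := by linarith
  set c : ℝ := (1 - s3) ^ (min (B * (kk + 1)) (j1 * κ)) +
    2 ^ j1 * (1 - (1 - (1 - s2) ^ κ) / 2) ^ (2 * (B * j)) with hc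
  set P : V → Finset V → (E → Bool) → (E → Bool) → (E → Bool) → (E → Bool) → Prop :=
    fun y X ω η1 η2 η3 => y ∉ UC ends (orc (orc (orc ω η1) η2) η3) X ∧
      Dst ends (orc (orc (orc ω η1) η2) η3) Set.univ h X ∧
      ShM 𝒵 φ ψ endb W k2 A2 β kk κ j B ω (cu ends (orc ω η1) y)
        (UC ends (orc (orc (orc ω η1) η2) η3) X) with hP
  have hpt : ∀ ω η1 η2 η3 : E → Bool,
      (if ShM 𝒵 φ ψ endb W k2 A2 β kk κ j B ω (cu ends (orc ω η1) (y0 ω η1))
        (Fm ends (orc (orc (orc ω η1) η2) η3) h (y0 ω η1)) then (1 : ℝ) else 0) ≤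
      ∑ y : V, ∑ X ∈ (Finset.univ : Finset V).powerset, (1 / h) ^ X.card *
        (if P y X ω η1 η2 η3 then (1 : ℝ) else 0) := by
    intro ω η1 η2 η3
    have hnn : ∀ (y : V) (X : Finset V), 0 ≤ (1 / h) ^ X.card *
        (if P y X ω η1 η2 η3 then (1 : ℝ) else 0) := by
      intro y X
      refine mul_nonneg (pow_nonneg (one_div_nonneg.2 hh0.le) _) ?_
      split_ifs
      · exact zero_le_one
      · exact le_refl _
    split_ifs with hS
    · have h2 := reps (ends := ends) (orc (orc (orc ω η1) η2) η3) hh (y0 ω η1)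
      have h3 : ∑ X ∈ (Finset.univ : Finset V).powerset, (1 / h) ^ X.card *
          (if y0 ω η1 ∉ UC ends (orc (orc (orc ω η1) η2) η3) X ∧
            Dst ends (orc (orc (orc ω η1) η2) η3) Set.univ h X ∧
            UC ends (orc (orc (orc ω η1) η2) η3) X =
              Fm ends (orc (orc (orc ω η1) η2) η3) h (y0 ω η1) then (1 : ℝ) else 0) ≤
          ∑ X ∈ (Finset.univ : Finset V).powerset, (1 / h) ^ X.card *
            (if P (y0 ω η1) X ω η1 η2 η3 then (1 : ℝ) else 0) := by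
        refine Finset.sum_le_sum fun X _ => ?_
        refine mul_le_mul_of_nonneg_left ?_ (pow_nonneg (one_div_nonneg.2 hh0.le) _)
        by_cases hX : y0 ω η1 ∉ UC ends (orc (orc (orc ω η1) η2) η3) X ∧
            Dst ends (orc (orc (orc ω η1) η2) η3) Set.univ h X ∧
            UC ends (orc (orc (orc ω η1) η2) η3) X =
              Fm ends (orc (orc (orc ω η1) η2) η3) h (y0 ω η1)
        · have hX' : P (y0 ω η1) X ω η1 η2 η3 := by
            refine ⟨hX.1, hX.2.1, ?_⟩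
            rw [hX.2.2]
            exact hS
          rw [if_pos hX, if_pos hX']
        · rw [if_neg hX]
          split_ifs
          · exact zero_le_one
          · exact le_refl _
      refine h2.trans (h3.trans ?_)
      exact Finset.single_le_sum (f := fun y => ∑ X ∈ (Finset.univ : Finset V).powerset,
        (1 / h) ^ X.card * (if P y X ω η1 η2 η3 then (1 : ℝ) else 0))
        (fun y _ => Finset.sum_nonneg fun X _ => hnn y X) (Finset.mem_univ (y0 ω η1))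
    · exact Finset.sum_nonneg fun y _ => Finset.sum_nonneg fun X _ => hnn y X
  have hE : ∀ (y : V) (X : Finset V), Ex p (fun ω => Ex s1 (fun η1 => Ex s2 (fun η2 =>
      Ex s3 (fun η3 => if P y X ω η1 η2 η3 then (1 : ℝ) else 0)))) ≤ c * f ^ X.card := by
    intro y X
    exact uniq_XE h0 h1 h10 h11 h20 h21 h30 h31 𝒵 φ ψ hem hk2 hkA W hf y X
  have hlin : Ex p (fun ω => Ex s1 (fun η1 => Ex s2 (fun η2 => Ex s3 (fun η3 =>
      ∑ y : V, ∑ X ∈ (Finset.univ : Finset V).powerset, (1 / h) ^ X.card *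
        (if P y X ω η1 η2 η3 then (1 : ℝ) else 0))))) =
      ∑ y : V, ∑ X ∈ (Finset.univ : Finset V).powerset, (1 / h) ^ X.card *
        Ex p (fun ω => Ex s1 (fun η1 => Ex s2 (fun η2 =>
          Ex s3 (fun η3 => if P y X ω η1 η2 η3 then (1 : ℝ) else 0)))) := by
    simp only [Ex_sum, Ex_mul_left]
  refine (Ex_mono h0 h1 fun ω => Ex_mono h10 h11 fun η1 => Ex_mono h20 h21 fun η2 =>
    Ex_mono h30 h31 fun η3 => hpt ω η1 η2 η3).trans ?_
  rw [hlin]
  have hsum : ∑ X ∈ (Finset.univ : Finset V).powerset, (f / h) ^ X.card =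
      (1 + f / h) ^ Fintype.card V := by
    have h5 := Finset.sum_pow_mul_eq_add_pow (f / h) 1 (Finset.univ : Finset V)
    simp only [one_pow, mul_one] at h5
    rw [h5, Finset.card_univ, add_comm]
  calc ∑ y : V, ∑ X ∈ (Finset.univ : Finset V).powerset, (1 / h) ^ X.card *
        Ex p (fun ω => Ex s1 (fun η1 => Ex s2 (fun η2 =>
          Ex s3 (fun η3 => if P y X ω η1 η2 η3 then (1 : ℝ) else 0))))
      ≤ ∑ y : V, ∑ X ∈ (Finset.univ : Finset V).powerset, c * (f / h) ^ X.card := by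
        refine Finset.sum_le_sum fun y _ => Finset.sum_le_sum fun X _ => ?_
        have h6 := mul_le_mul_of_nonneg_left (hE y X)
          (pow_nonneg (one_div_nonneg.2 hh0.le) X.card)
        refine h6.trans (le_of_eq ?_)
        rw [div_pow, div_pow, one_pow]
        ring
    _ = Fintype.card V * (c * (1 + f / h) ^ Fintype.card V) := by
        rw [Finset.sum_const, Finset.card_univ, nsmul_eq_mul, ← Finset.mul_sum, hsum]

end Pool.Agent.PERC29.AE
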