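import Pool.Agent.Lib.MP_29e17e_pr.U.Sl
import Pool.Agent.Lib.MP_29e17e_pr.Y.Fa

set_option autoImplicit false
set_option linter.unusedSectionVars false

/-! Rows 29z-L1, 29z-L2: the law of large numbers (page 29z_helper62.md, Section 3). -/

open Finset

namespace Pool.Agent.PERC29.AE

variable {V : Type*} [Fintype V] [DecidableEq V] {E : Type*} [Fintype E] [DecidableEq E]
  {ends : E → Sym2 V}

/-- Chebyshev for a sum with known mean. -/
lemma cheb2 {q : ℝ} (h0 : 0 ≤ q) (h1 : q ≤ 1)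
    (Y : (E → Bool) → ℝ) (t S : ℝ) (ht : 0 < t) (hS : Ex q (fun ω => Y ω ^ 2) - (Ex q Y) ^ 2 ≤ S) :
    Ex q (fun ω => open scoped Classical in if t ≤ |Y ω - Ex q Y| then (1 : ℝ) else 0) ≤ S / t ^ 2 := by
  classical
  set μ : ℝ := Ex q Y with hμ
  have hpt : ∀ ω, (if t ≤ |Y ω - μ| then (1 : ℝ) else 0) ≤
      (1 / t ^ 2) * (Y ω ^ 2 + ((-(2 * μ)) * Y ω + μ ^ 2)) := by
    intro ω
    have e : Y ω ^ 2 + ((-(2 * μ)) * Y ω + μ ^ 2) = (Y ω - μ) ^ 2 := by ring
    rw [e]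
    split_ifs with h
    · rw [one_div, ← div_eq_inv_mul, le_div_iff₀ (by positivity), one_mul, ← sq_abs (Y ω - μ)]
      exact pow_le_pow_left₀ ht.le h 2
    · positivity
  refine (Ex_mono h0 h1 (fun ω => ?_)).trans (le_trans (le_of_eq rfl) ((Ex_mono h0 h1 hpt).trans ?_))
  · exact le_of_eq (by congr)
  rw [Ex_mul_left, Ex_add, Ex_add, Ex_mul_left, Ex_const, ← hμ]
  rw [one_div, ← div_eq_inv_mul]
  refine div_le_div_of_nonneg_right ?_ (by positivity)
  linarith

open scoped Classical in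
/-- The number of points with a cluster of size at least `h`. -/
noncomputable def Wn (ends : E → Sym2 V) (ω : E → Bool) (h : ℝ) : ℝ :=
  ∑ x, (if h ≤ cz ends ω x then (1 : ℝ) else 0)

open scoped Classical in
/-- Row L1. `Wn - mxc ≤ |Fm y|` for every `y` (`|Fm y| ≥ Wn - cz y`). -/
lemma Wn_le (ω : E → Bool) (h : ℝ) (y : V) :
    Wn ends ω h - mxc ends ω ≤ ((Fm ends ω h y).card : ℝ) := by
  have h1 : Wn ends ω h = ((Finset.univ.filter (fun x => h ≤ cz ends ω x)).card : ℝ) := by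
    unfold Wn
    rw [Finset.sum_boole]
  have hsub : Finset.univ.filter (fun x => h ≤ cz ends ω x) ⊆ Fm ends ω h y ∪ cu ends ω y := by
    intro x hx
    rw [Finset.mem_filter] at hx
    rw [Finset.mem_union]
    by_cases hc : x ∈ cu ends ω y
    · exact Or.inr hc
    · left
      unfold Fm
      rw [Finset.mem_filter]
      exact ⟨Finset.mem_univ _, hx.2, hc⟩
  have h2 := (Finset.card_le_card hsub).trans (Finset.card_union_le _ _)
  have h3 : ((Finset.univ.filter (fun x => h ≤ cz ends ω x)).card : ℝ) ≤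
      ((Fm ends ω h y).card : ℝ) + cz ends ω y := by
    unfold cz
    exact_mod_cast h2
  have h4 := cz_le_mxc (ends := ends) ω y
  rw [h1]
  linarith

open scoped Classical in
/-- Row L1. Let `Y = ∑ x, mg ends g x ω`. (1) `mxc - 1/g ≤ Y` (`mg_sum`, U/Sp.lean, at a point of the largest cluster). (2) `Y ≤ Wn + g ∑ x, min (cz x) h`
(`mg ≤ 1`, `mg ≤ g cz`). (3) `(g h/2) Wn ≤ Y`: if `h ≤ |C|` then `1 - (1-g)^|C| ≥ 1 - exp (-g h) ≥ g h/2` (`g h ≤ 1`). -/
lemma Y_bounds [Nonempty V] (ω : E → Bool) {g h : ℝ} (hg0 : 0 < g) (hg1 : g ≤ 1) (hh : 1 ≤ h) (hgh : g * h ≤ 1) :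
    mxc ends ω - 1 / g ≤ ∑ x, mg ends g x ω ∧
    ∑ x, mg ends g x ω ≤ Wn ends ω h + g * ∑ x, min (cz ends ω x) h ∧
    g * h / 2 * Wn ends ω h ≤ ∑ x, mg ends g x ω := by
  have hmg : ∀ x, mg ends g x ω = 1 - (1 - g) ^ (cu ends ω x).card := fun x => rfl
  have hcz : ∀ x, cz ends ω x = ((cu ends ω x).card : ℝ) := fun x => rfl
  refine ⟨?_, ?_, ?_⟩
  · obtain ⟨x0, -, hx0⟩ := Finset.exists_mem_eq_sup (Finset.univ : Finset V) Finset.univ_nonempty
      (fun x => (cu ends ω x).card)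
    have h1 : mxc ends ω = cz ends ω x0 := by
      unfold mxc
      rw [hx0]
      rfl
    rw [h1]
    exact (mg_sum (ends := ends) ω x0 hg0 hg1 (h' := h) (by linarith)).1
  · unfold Wn
    rw [Finset.mul_sum, ← Finset.sum_add_distrib]
    refine Finset.sum_le_sum fun x _ => ?_
    have hb : 1 + ((cu ends ω x).card : ℝ) * (-g) ≤ (1 + (-g)) ^ (cu ends ω x).card :=
      one_add_mul_le_pow (by linarith) _
    have e : (1 + (-g) : ℝ) = 1 - g := by ring
    rw [e] at hb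
    have hp : 0 ≤ (1 - g) ^ (cu ends ω x).card := pow_nonneg (by linarith) _
    by_cases hc : h ≤ cz ends ω x
    · rw [if_pos hc, min_eq_right hc, hmg]
      have : 0 ≤ g * h := by positivity
      linarith
    · rw [if_neg hc, min_eq_left (not_le.1 hc).le, hmg, hcz]
      linarith
  · unfold Wn
    rw [Finset.mul_sum]
    refine Finset.sum_le_sum fun x _ => ?_
    rw [hmg]
    by_cases hc : h ≤ cz ends ω x
    · rw [if_pos hc, mul_one]
      have h1 : (1 - g) ^ (cu ends ω x).card ≤ Real.exp (-(g * h)) := by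
        have h2 : 1 - g ≤ Real.exp (-g) := by
          have := Real.add_one_le_exp (-g)
          linarith
        calc (1 - g) ^ (cu ends ω x).card ≤ Real.exp (-g) ^ (cu ends ω x).card :=
              pow_le_pow_left₀ (by linarith) h2 _
          _ = Real.exp (-(g * ((cu ends ω x).card : ℝ))) := by
              rw [← Real.exp_nat_mul]; ring_nf
          _ ≤ Real.exp (-(g * h)) := by
              apply Real.exp_le_exp.2
              rw [hcz] at hc
              have := mul_le_mul_of_nonneg_left hc hg0.le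
              linarith
      have h3 : Real.exp (-(g * h)) ≤ 1 - g * h / 2 := by
        have hx0 : 0 ≤ g * h := by positivity
        have h4 : |Real.exp (-(g * h)) - 1 - (-(g * h))| ≤ (-(g * h)) ^ 2 := by
          apply Real.abs_exp_sub_one_sub_id_le
          rw [abs_neg, abs_of_nonneg hx0]
          exact hgh
        by_cases hs : g * h ≤ 1 / 2
        · have h5 := (abs_le.1 h4).2
          nlinarith
        · have h6 : Real.exp (-(g * h)) ≤ 1 / (1 + g * h) := by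
            rw [Real.exp_neg, ← one_div]
            apply one_div_le_one_div_of_le (by linarith)
            have := Real.add_one_le_exp (g * h)
            linarith
          refine h6.trans ?_
          rw [div_le_iff₀ (by linarith)]
          nlinarith
      linarith
    · rw [if_neg hc, mul_zero]
      have : (1 - g) ^ (cu ends ω x).card ≤ 1 := pow_le_one₀ (by linarith) (by linarith)
      linarith

open scoped Classical in
/-- Row L2. Let `Y = ∑ x, mg g x`, `Vr = |V| (m + q Wd m² M)` (`var_mg`, U/Sl.lean: `Ex Y² - (Ex Y)² ≤ Vr`), `Δ1 = 1/g + u + g |V| mh + 2/(g h) √(Vr + (|V| M)²) √η1`. (a) `|Ex Wn - Ex Y| ≤ Δ1`: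
`Ex Y ≤ Ex Wn + g |V| mh`; and `Wn ≤ mxc + u + Wn 1[u ≤ Wn - mxc] ≤ Y + 1/g + u + (2/(g h)) Y 1[bad]`, `Ex (Y 1[bad]) ≤ √(Ex Y²) √η1` (`Ex_csq`), `Ex Y² ≤ Vr + (|V| M)²`.
(b) If the box `u ≤ Wn - mxc` fails, `g ∑ min ≤ v/4` and `|Y - Ex Y| < v/4` then `|mxc - Ex Wn| ≤ v/4 + Δ1 + v/4 + Δ1 ≤ v`: `mxc ≤ Y + 1/g`, `mxc ≥ Wn - u ≥ Y - g ∑ min - u`.
(c) Union bound: `hbad`, Markov (`Ex_mkv` or directly), `cheb2`. -/
theorem lln_gen {V : Type} [Fintype V] [DecidableEq V] [Nonempty V] {E : Type} [Fintype E] [DecidableEq E]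
    {ends : E → Sym2 V} {q g h M m mh Wd u v η1 : ℝ} (h0 : 0 ≤ q) (h1 : q ≤ 1) (hg0 : 0 < g) (hg1 : g ≤ 1)
    (hh : 1 ≤ h) (hgh : g * h ≤ 1)
    (hM : ∀ y, Ex q (mg ends g y) ≤ M) (hm : ∀ y, Ex q (fun ω => min (cz ends ω y) (1 / g)) ≤ m)
    (hmh : ∀ y, Ex q (fun ω => min (cz ends ω y) h) ≤ mh)
    (hdeg : ∀ x, ∑ y, nb ends x y ≤ Wd) (hu : 0 ≤ u) (hv : 0 < v) (hη1 : 0 ≤ η1)
    (hbad : Ex q (fun ω => if u ≤ Wn ends ω h - mxc ends ω then (1 : ℝ) else 0) ≤ η1)
    (hΔ : 1 / g + u + g * (Fintype.card V * mh) + 2 / (g * h) *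
      Real.sqrt (Fintype.card V * (m + q * Wd * m ^ 2 * M) + (Fintype.card V * M) ^ 2) * Real.sqrt η1 ≤ v / 4) :
    Ex q (fun ω => if v < |mxc ends ω - Ex q (fun ω => Wn ends ω h)| then (1 : ℝ) else 0) ≤
      η1 + g * (Fintype.card V * mh) / (v / 4) +
        Fintype.card V * (m + q * Wd * m ^ 2 * M) / (v / 4) ^ 2 := by
  set N : ℝ := (Fintype.card V : ℝ) with hN
  have hN0 : 0 ≤ N := Nat.cast_nonneg _
  have hgh0 : 0 < g * h := mul_pos hg0 (by linarith)
  set Y : (E → Bool) → ℝ := fun ω => ∑ x, mg ends g x ω with hY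
  set S : (E → Bool) → ℝ := fun ω => ∑ x, min (cz ends ω x) h with hS
  set b : (E → Bool) → ℝ := fun ω => if u ≤ Wn ends ω h - mxc ends ω then (1 : ℝ) else 0 with hb
  have hyb : ∀ ω, mxc ends ω - 1 / g ≤ Y ω ∧ Y ω ≤ Wn ends ω h + g * S ω ∧
      g * h / 2 * Wn ends ω h ≤ Y ω := fun ω => Y_bounds ω hg0 hg1 hh hgh
  have hW0 : ∀ ω, 0 ≤ Wn ends ω h := fun ω =>
    Finset.sum_nonneg fun x _ => by split_ifs <;> norm_num
  have hY0 : ∀ ω, 0 ≤ Y ω := fun ω => by
    have h1 := (hyb ω).2.2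
    have h2 : 0 ≤ g * h / 2 * Wn ends ω h := mul_nonneg (by linarith) (hW0 ω)
    linarith
  have hmin0 : ∀ ω x, 0 ≤ min (cz ends ω x) h := fun ω x =>
    le_min (Nat.cast_nonneg _) (by linarith)
  have hS0 : ∀ ω, 0 ≤ S ω := fun ω => Finset.sum_nonneg fun x _ => hmin0 ω x
  have hb01 : ∀ ω, b ω = 0 ∨ b ω = 1 := by
    intro ω
    rw [hb]
    by_cases hc : u ≤ Wn ends ω h - mxc ends ω
    · right; simp [hc]
    · left; simp [hc]
  have hEY : Ex q Y = ∑ x, Ex q (mg ends g x) := by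
    rw [hY, Ex_sum]
  have hEYle : Ex q Y ≤ N * M := by
    rw [hEY]
    refine (Finset.sum_le_sum fun x _ => hM x).trans ?_
    rw [Finset.sum_const, nsmul_eq_mul, Finset.card_univ]
  have hEY0 : 0 ≤ Ex q Y := Ex_nonneg h0 h1 hY0
  have hES : Ex q S ≤ N * mh := by
    rw [hS, Ex_sum]
    refine (Finset.sum_le_sum fun x _ => hmh x).trans ?_
    rw [Finset.sum_const, nsmul_eq_mul, Finset.card_univ]
  have hES0 : 0 ≤ Ex q S := Ex_nonneg h0 h1 hS0
  have hvar : Ex q (fun ω => Y ω ^ 2) - (Ex q Y) ^ 2 ≤ N * (m + q * Wd * m ^ 2 * M) := by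
    rw [hEY]
    exact var_mg h0 h1 hg0 hg1 hM hm hdeg
  have hY2 : Ex q (fun ω => Y ω ^ 2) ≤ N * (m + q * Wd * m ^ 2 * M) + (N * M) ^ 2 := by
    have : (Ex q Y) ^ 2 ≤ (N * M) ^ 2 := pow_le_pow_left₀ hEY0 hEYle 2
    linarith
  have hYb : Ex q (fun ω => Y ω * b ω) ≤
      Real.sqrt (N * (m + q * Wd * m ^ 2 * M) + (N * M) ^ 2) * Real.sqrt η1 := by
    have hcs := Ex_csq h0 h1 Y b
    have hbb : Ex q (fun ω => b ω ^ 2) = Ex q b := Ex_congr fun ω => by
      rcases hb01 ω with e0 | e0 <;> rw [e0] <;> norm_num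
    have hY2' : 0 ≤ Ex q (fun ω => Y ω ^ 2) := Ex_nonneg h0 h1 fun ω => sq_nonneg _
    have hbe : Ex q b ≤ η1 := hbad
    rw [← Real.sqrt_mul (hY2'.trans hY2)]
    apply Real.le_sqrt_of_sq_le
    refine hcs.trans ?_
    rw [hbb]
    exact mul_le_mul hY2 hbe (Ex_nonneg h0 h1 fun ω => by
      rcases hb01 ω with e0 | e0 <;> rw [e0] <;> norm_num) (hY2'.trans hY2)
  have hWpt : ∀ ω, Wn ends ω h ≤ Y ω + (1 / g + u) + 2 / (g * h) * (Y ω * b ω) := by
    intro ω
    obtain ⟨y1, y2, y3⟩ := hyb ω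
    have hk : Wn ends ω h ≤ 2 / (g * h) * Y ω := by
      rw [div_mul_eq_mul_div, le_div_iff₀ hgh0]
      linarith
    have hx0 := mxc_nonneg (ends := ends) ω
    have hg' : 0 < 1 / g := by positivity
    by_cases hc : u ≤ Wn ends ω h - mxc ends ω
    swap
    · have e0 : b ω = 0 := if_neg hc
      push Not at hc
      rw [e0]
      linarith
    · have e0 : b ω = 1 := if_pos hc
      rw [e0, mul_one]
      have := hY0 ω
      linarith
  set D : ℝ := 2 / (g * h) *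
    (Real.sqrt (N * (m + q * Wd * m ^ 2 * M) + (N * M) ^ 2) * Real.sqrt η1) with hD
  have hD0 : 0 ≤ D := by positivity
  have hEW : Ex q (fun ω => Wn ends ω h) ≤ Ex q Y + (1 / g + u) + D := by
    refine (Ex_mono h0 h1 hWpt).trans ?_
    rw [Ex_add, Ex_add, Ex_const, Ex_mul_left, hD]
    have : 2 / (g * h) * Ex q (fun ω => Y ω * b ω) ≤ 2 / (g * h) *
      (Real.sqrt (N * (m + q * Wd * m ^ 2 * M) + (N * M) ^ 2) * Real.sqrt η1) :=
      mul_le_mul_of_nonneg_left hYb (by positivity)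
    have e : Ex q Y = Ex q (fun ω => Y ω) := rfl
    linarith
  have hEYW : Ex q Y ≤ Ex q (fun ω => Wn ends ω h) + g * (N * mh) := by
    have h1' := Ex_mono h0 h1 (fun ω => (hyb ω).2.1)
    rw [Ex_add, Ex_mul_left] at h1'
    have h2' : g * Ex q (fun ω => S ω) ≤ g * (N * mh) := mul_le_mul_of_nonneg_left hES hg0.le
    have e : Ex q Y = Ex q (fun ω => Y ω) := rfl
    linarith
  have hgN : 0 ≤ g * (N * mh) := mul_nonneg hg0.le (hES0.trans hES)
  have hg1' : 0 < 1 / g := by positivity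
  have hΔ' : 1 / g + u + g * (N * mh) + D ≤ v / 4 := by
    have e : D = 2 / (g * h) * Real.sqrt (N * (m + q * Wd * m ^ 2 * M) + (N * M) ^ 2) *
        Real.sqrt η1 := by rw [hD]; ring
    rw [e]
    exact hΔ
  set EW : ℝ := Ex q (fun ω => Wn ends ω h) with hEWd
  have hv4 : 0 < v / 4 := by linarith
  have hpt : ∀ ω, (if v < |mxc ends ω - EW| then (1 : ℝ) else 0) ≤
      b ω + ((if v / 4 < g * S ω then (1 : ℝ) else 0) +
        (if v / 4 ≤ |Y ω - Ex q Y| then (1 : ℝ) else 0)) := by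
    intro ω
    have hb0 : 0 ≤ b ω := by rcases hb01 ω with e0 | e0 <;> rw [e0] <;> norm_num
    have hi1 : (0 : ℝ) ≤ (if v / 4 < g * S ω then (1 : ℝ) else 0) := by split_ifs <;> norm_num
    have hi2 : (0 : ℝ) ≤ (if v / 4 ≤ |Y ω - Ex q Y| then (1 : ℝ) else 0) := by
      split_ifs <;> norm_num
    by_cases hmain : v < |mxc ends ω - EW|
    swap
    · rw [if_neg hmain]
      linarith
    rw [if_pos hmain]
    rcases hb01 ω with e0 | e0
    swap
    · rw [e0]; linarith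
    by_cases hs1 : v / 4 < g * S ω
    · rw [if_pos hs1]; linarith
    by_cases hs2 : v / 4 ≤ |Y ω - Ex q Y|
    · rw [if_pos hs2]; linarith
    exfalso
    push Not at hs1 hs2
    have hc : ¬ (u ≤ Wn ends ω h - mxc ends ω) := by
      intro hc
      have e1 : b ω = 1 := if_pos hc
      rw [e0] at e1
      exact zero_ne_one e1
    push Not at hc
    obtain ⟨y1, y2, y3⟩ := hyb ω
    rw [abs_lt] at hs2
    have : |mxc ends ω - EW| ≤ v := by
      rw [abs_le]
      constructor <;> linarith [hs2.1, hs2.2]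
    linarith
  refine (Ex_mono h0 h1 hpt).trans ?_
  rw [Ex_add, Ex_add]
  have c1 : Ex q (fun ω => b ω) ≤ η1 := hbad
  have c2 : Ex q (fun ω => if v / 4 < g * S ω then (1 : ℝ) else 0) ≤ g * (N * mh) / (v / 4) := by
    refine (Ex_mkv h0 h1 hv4 (fun ω => g * S ω) (fun ω => mul_nonneg hg0.le (hS0 ω))).trans ?_
    apply div_le_div_of_nonneg_right _ hv4.le
    rw [Ex_mul_left]
    exact mul_le_mul_of_nonneg_left hES hg0.le
  have c3 : Ex q (fun ω => if v / 4 ≤ |Y ω - Ex q Y| then (1 : ℝ) else 0) ≤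
      N * (m + q * Wd * m ^ 2 * M) / (v / 4) ^ 2 := by
    refine le_trans (le_of_eq ?_) (cheb2 h0 h1 Y (v / 4) _ hv4 hvar)
    exact Ex_congr fun ω => by congr
  linarith

end Pool.Agent.PERC29.AE
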