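import Pool.Agent.Lib.MP_29e17e_pr.Y.Ar

set_option autoImplicit false
set_option linter.unusedSectionVars false

/-! Rows 29y-H1 .. 29y-H4: the density of the infinite cluster and the torus (page 29y_helper62.md, Section 3). -/

open Finset

namespace Pool.Agent.PERC29.AE

/-- The percolation probability of `ℤ^d`: the infimum over `M` of the probability that the centre of the box of side `2 M + 1` is joined to its
boundary. -/
noncomputable def th (d : ℕ) [∀ l, Fintype (boxG d l).edgeSet] (p : ℝ) : ℝ := ⨅ M : ℕ, aM d M p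

open scoped Classical in
private lemma H1_nonneg {d : ℕ} [∀ l, Fintype (boxG d l).edgeSet] {p : ℝ} (h0 : 0 ≤ p) (h1 : p ≤ 1)
    (M : ℕ) : 0 ≤ aM d M p := by
  unfold aM
  exact Ex_nonneg h0 h1 fun ω => by split_ifs <;> norm_num

open scoped Classical in
private lemma H1_edeg {d n : ℕ} [NeZero n] [Fintype (torG d n).edgeSet] (v : Fin d → ZMod n) :
    (Finset.univ.filter (fun e : (torG d n).edgeSet => v ∈ gends (torG d n) e)).card ≤ 2 * d := by
  have h1 : (Finset.univ.filter (fun e : (torG d n).edgeSet => v ∈ gends (torG d n) e)).card =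
      ((Finset.univ.filter (fun e : (torG d n).edgeSet => v ∈ gends (torG d n) e)).image
        (Subtype.val : (torG d n).edgeSet → Sym2 (Fin d → ZMod n))).card :=
    (Finset.card_image_of_injective _ Subtype.val_injective).symm
  rw [h1]
  have h2 : ((Finset.univ.filter (fun e : (torG d n).edgeSet => v ∈ gends (torG d n) e)).image
        (Subtype.val : (torG d n).edgeSet → Sym2 (Fin d → ZMod n))) ⊆
      (Finset.univ : Finset (Fin d × Bool)).image
        (fun q => s(v, if q.2 = true then v + Pi.single q.1 1 else v - Pi.single q.1 1)) := by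
    intro w hw
    obtain ⟨e, he, rfl⟩ := Finset.mem_image.1 hw
    have he' : v ∈ (e : Sym2 (Fin d → ZMod n)) := (Finset.mem_filter.1 he).2
    obtain ⟨u, hu⟩ := he'
    have hadj : (torG d n).Adj v u := by
      have := e.2
      rw [hu] at this
      exact this
    obtain ⟨-, i, hi⟩ := hadj
    rcases hi with hi | hi
    · refine Finset.mem_image.2 ⟨(i, true), Finset.mem_univ _, ?_⟩
      rw [hu]
      simp [hi]
    · refine Finset.mem_image.2 ⟨(i, false), Finset.mem_univ _, ?_⟩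
      rw [hu]
      simp [hi]
  refine le_trans (Finset.card_le_card h2) (le_trans Finset.card_image_le ?_)
  rw [Finset.card_univ, Fintype.card_prod, Fintype.card_fin, Fintype.card_bool]
  omega

/-- Row H1. `0 ≤ aM ≤ 1`, so `th ≤ aM` for every `M` (`ciInf_le`) and `th ≥ a` if all `aM ≥ a` (`le_ciInf`). And `aM` is small with `M` large at level `p`:
nothing is needed. -/
lemma th_le {d : ℕ} [∀ l, Fintype (boxG d l).edgeSet] {p : ℝ} (h0 : 0 ≤ p) (h1 : p ≤ 1) (M : ℕ) :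
    th d p ≤ aM d M p := by
  unfold th
  exact ciInf_le ⟨0, by rintro _ ⟨M, rfl⟩; exact H1_nonneg h0 h1 M⟩ M

lemma le_th {d : ℕ} [∀ l, Fintype (boxG d l).edgeSet] {p a : ℝ} (h : ∀ M, a ≤ aM d M p) :
    a ≤ th d p := by
  unfold th
  exact le_ciInf h

open scoped Classical in
/-- Row H1 (second half). An arm without a large cluster: `localize` for the torus (`Dg = 2 d`: `tor_edeg` below), `x = φ (ctr d M)`, `A ω = arm (pul φ ω) ∧ |C| < N`
(`arm_local`, `emb_of`), `N = A1/ε²`: at most `T aM d M p + (η/2) ε ≤ T C/M² + (η/2) ε ≤ η ε` if `B ≤ ε M²`, `B = 2 T C/η`. -/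
theorem arm_small (d : ℕ) (C cp A1 η s0 : ℝ) (hC : 0 ≤ C) (hcp : 0 < cp) (hA1 : 1 ≤ A1) (hη : 0 < η)
    (hs0 : 0 < s0) :
    ∃ B ε0 : ℝ, 0 < B ∧ 0 < ε0 ∧ ∀ (n M : ℕ) [NeZero n] [Fintype (torG d n).edgeSet]
      [Fintype (boxG d (2 * M + 1)).edgeSet] (φ : boxG d (2 * M + 1) ↪g torG d n) (p ε : ℝ),
      cp ≤ p → cp ≤ 1 - p → 0 < ε → ε ≤ ε0 → B ≤ ε * (M : ℝ) ^ 2 →
      aM d M p ≤ C / (M : ℝ) ^ 2 →
      (∀ x, ∀ r, p ≤ r → r ≤ p + s0 → ∀ k : ℕ, 1 ≤ k → Ex r (fun ω =>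
        if (k : ℝ) ≤ cz (gends (torG d n)) ω x then (1 : ℝ) else 0) ≤
          C * (1 / Real.sqrt k + (r - p))) →
      Ex (p + ε) (fun ω : (torG d n).edgeSet → Bool =>
        if arm d M (pul φ ω) ∧ cz (gends (torG d n)) ω (φ (ctr d M)) < A1 / ε ^ 2 then (1 : ℝ)
          else 0) ≤ η * ε := by
  obtain ⟨T, ε0, hT, hε0, hloc⟩ := localize C cp A1 (η / 2) s0 (2 * d) hC hcp hA1 (by positivity) hs0
  refine ⟨2 * T * C / η + 1, ε0, by positivity, hε0, ?_⟩
  intro n M _ _ _ φ p ε hp hp1 hε hεε hB haM htail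
  have h0 : 0 ≤ p := by linarith
  have h1 : p ≤ 1 := by linarith
  obtain ⟨A, hA⟩ : ∃ A : ((torG d n).edgeSet → Bool) → Prop, A = fun ω =>
      (arm d M (pul φ ω) ∧ cz (gends (torG d n)) ω (φ (ctr d M)) < A1 / ε ^ 2) := ⟨_, rfl⟩
  have hL : Lcx (gends (torG d n)) (φ (ctr d M)) (fun ω => if A ω then (1 : ℝ) else 0) := by
    have h3 := arm_local (emb_of φ) (bdy d (2 * M + 1)) (A1 / ε ^ 2) (ctr d M)
    intro ω ω' hω
    have h4 := h3 ω ω' hω
    have e1 : ∀ ω : (torG d n).edgeSet → Bool, (if A ω then (1 : ℝ) else 0) =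
        (if ¬ Disjoint (cu (gends (boxG d (2 * M + 1))) (pl (fun e => φ.mapEdgeSet e) ω) (ctr d M))
          (bdy d (2 * M + 1)) ∧ cz (gends (torG d n)) ω (φ (ctr d M)) < A1 / ε ^ 2
          then (1 : ℝ) else 0) := by
      intro ω
      have e2 : A ω ↔ (¬ Disjoint (cu (gends (boxG d (2 * M + 1))) (pl (fun e => φ.mapEdgeSet e) ω)
          (ctr d M)) (bdy d (2 * M + 1)) ∧
          cz (gends (torG d n)) ω (φ (ctr d M)) < A1 / ε ^ 2) := by
        rw [hA]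
        exact Iff.rfl
      exact if_congr e2 rfl rfl
    show (if A ω then (1 : ℝ) else 0) = (if A ω' then (1 : ℝ) else 0)
    rw [e1 ω, e1 ω']
    exact h4
  have hkey := hloc (Fin d → ZMod n) (torG d n).edgeSet (gends (torG d n)) p ε (φ (ctr d M)) A hp hp1
    hε hεε (fun v => H1_edeg v) (htail _) hL (fun ω hω => by rw [hA] at hω; exact hω.2.le)
  have hEx : Ex p (fun ω => if A ω then (1 : ℝ) else 0) ≤ aM d M p := by
    have e3 := Ex_pul φ p (fun ω => if arm d M ω then (1 : ℝ) else 0)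
    unfold aM
    rw [← e3]
    refine Ex_mono h0 h1 fun ω => ?_
    by_cases h : arm d M (pul φ ω)
    · rw [if_pos h]
      split_ifs <;> norm_num
    · rw [if_neg h, if_neg (by rw [hA]; exact fun hh => h hh.1)]
  have hgoal : Ex (p + ε) (fun ω : (torG d n).edgeSet → Bool =>
        if arm d M (pul φ ω) ∧ cz (gends (torG d n)) ω (φ (ctr d M)) < A1 / ε ^ 2 then (1 : ℝ)
          else 0) = Ex (p + ε) (fun ω => if A ω then (1 : ℝ) else 0) := by
    refine Ex_congr fun ω => ?_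
    refine if_congr ?_ rfl rfl
    rw [hA]
  rw [hgoal]
  have hM0 : 0 < (M : ℝ) ^ 2 := by
    by_contra hcon
    have h5 : (M : ℝ) ^ 2 ≤ 0 := not_lt.1 hcon
    have h6 : ε * (M : ℝ) ^ 2 ≤ 0 := by nlinarith
    have h7 : 0 ≤ 2 * T * C / η := by positivity
    linarith
  have h8 : T * (C / (M : ℝ) ^ 2) ≤ η / 2 * ε := by
    have h9 : 2 * T * C / η ≤ ε * (M : ℝ) ^ 2 := by linarith
    rw [div_le_iff₀ hη] at h9
    rw [← mul_div_assoc, div_le_iff₀ hM0]
    nlinarith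
  have h10 : T * Ex p (fun ω => if A ω then (1 : ℝ) else 0) ≤ T * (C / (M : ℝ) ^ 2) :=
    mul_le_mul_of_nonneg_left (hEx.trans haM) (by linarith)
  linarith

open scoped Classical in
/-- Row H2. The degree of the torus (compare `box_deg`, `tor_deg`): every vertex is in at most `2 d` edges. -/
lemma tor_edeg {d n : ℕ} [NeZero n] [Fintype (torG d n).edgeSet] (v : Fin d → ZMod n) :
    (Finset.univ.filter (fun e : (torG d n).edgeSet => v ∈ gends (torG d n) e)).card ≤ 2 * d := by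
  set F : Finset (Sym2 (Fin d → ZMod n)) := (Finset.univ : Finset (Fin d × Bool)).image
    (fun q => s(v, if q.2 = true then v + Pi.single q.1 1 else v - Pi.single q.1 1)) with hF
  have hcard : F.card ≤ 2 * d := by
    refine Finset.card_image_le.trans ?_
    rw [Finset.card_univ, Fintype.card_prod, Fintype.card_fin, Fintype.card_bool]
    omega
  refine le_trans (Finset.card_le_card_of_injOn (Subtype.val) ?_ (Subtype.val_injective.injOn)) hcard
  intro e he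
  have hve : v ∈ (e : Sym2 (Fin d → ZMod n)) := (Finset.mem_filter.1 (Finset.mem_coe.1 he)).2
  obtain ⟨y, hy⟩ := Sym2.mem_iff_exists.1 hve
  have hadj : (torG d n).Adj v y := by
    have h1 := e.2
    rw [hy] at h1
    exact h1
  obtain ⟨-, i, hi⟩ := hadj
  rw [Finset.mem_coe, hF, Finset.mem_image, hy]
  rcases hi with hi | hi
  · exact ⟨(i, true), Finset.mem_univ _, by simp [hi]⟩
  · refine ⟨(i, false), Finset.mem_univ _, ?_⟩
    simp only [Bool.false_eq_true, if_false]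
    rw [hi]
    simp

/-- The hypotheses on the torus and the arms, for all sides `n`. -/
def HypT (d : ℕ) (C p s0 : ℝ) [∀ l, Fintype (boxG d l).edgeSet] : Prop :=
  (∀ M : ℕ, 1 ≤ M → aM d M p ≤ C / (M : ℝ) ^ 2) ∧
  (∀ (n : ℕ) [NeZero n] [Fintype (torG d n).edgeSet], ∀ x, ∀ r, p ≤ r → r ≤ p + s0 → ∀ k : ℕ, 1 ≤ k →
    Ex r (fun ω => open scoped Classical in
      if (k : ℝ) ≤ cz (gends (torG d n)) ω x then (1 : ℝ) else 0) ≤ C * (1 / Real.sqrt k + (r - p)))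

/-- Row H3. Comparison of tori and `θ ≤ f_T + η ε`. Let `M` be maximal with `2 M + 1 < n` (`M ≥ n/4` for `n ≥ 4`, so `ε M² ≥ ε n²/16 ≥ A/16`). (1) `th_le`, `arm_le`,
`arm_small` (`box_tor`). (2) `fT_le` for `n`, `piM_le` for `n'` with the same `M` (`2 M + 1 < n ≤ n'`), `arm_small`. -/
theorem tor_cmp (d : ℕ) (C cp A1 η s0 : ℝ) (hC : 0 ≤ C) (hcp : 0 < cp) (hA1 : 1 ≤ A1) (hη : 0 < η)
    (hs0 : 0 < s0) :
    ∃ A ε0 : ℝ, 0 < A ∧ 0 < ε0 ∧ ∀ [∀ l, Fintype (boxG d l).edgeSet] (n : ℕ) [NeZero n]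
      [Fintype (torG d n).edgeSet] (p ε : ℝ),
      cp ≤ p → cp ≤ 1 - p → 0 < ε → ε ≤ ε0 → A ≤ ε * (n : ℝ) ^ 2 → HypT d C p s0 →
      th d (p + ε) ≤ fT d n (p + ε) (A1 / ε ^ 2) + η * ε ∧
      ∀ (n' : ℕ) [NeZero n'] [Fintype (torG d n').edgeSet], n ≤ n' →
        fT d n (p + ε) (A1 / ε ^ 2) ≤ fT d n' (p + ε) (A1 / ε ^ 2) + η * ε := by
  obtain ⟨B, ε1, hB, hε1, hsmall⟩ := arm_small d C cp A1 η s0 hC hcp hA1 hη hs0
  refine ⟨25 * B + 25, min ε1 (min 1 cp), by linarith, lt_min hε1 (lt_min one_pos hcp), ?_⟩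
  intro iF n hn0 iT p ε hp0 hp1 hε hεle hA hH
  have hεa : ε ≤ ε1 := le_trans hεle (min_le_left _ _)
  have hεb : ε ≤ 1 := le_trans hεle (le_trans (min_le_right _ _) (min_le_left _ _))
  have hεc : ε ≤ cp := le_trans hεle (le_trans (min_le_right _ _) (min_le_right _ _))
  have hq0 : 0 ≤ p + ε := by linarith
  have hq1 : p + ε ≤ 1 := by linarith
  -- `n ≥ 5`
  have hn2 : (25 : ℝ) ≤ (n : ℝ) ^ 2 := by
    have h1 : ε * (n : ℝ) ^ 2 ≤ 1 * (n : ℝ) ^ 2 :=
      mul_le_mul_of_nonneg_right hεb (by positivity)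
    linarith
  have hn5 : 5 ≤ n := by
    have h2 : (5 : ℝ) ≤ (n : ℝ) := by
      have h3 : (0 : ℝ) ≤ (n : ℝ) := Nat.cast_nonneg n
      nlinarith
    exact_mod_cast h2
  -- the radius
  obtain ⟨M, hM⟩ : ∃ M : ℕ, M = (n - 2) / 2 := ⟨_, rfl⟩
  have hMn : 2 * M + 1 < n := by omega
  have hM5 : n ≤ 5 * M := by omega
  have hM1 : 1 ≤ M := by omega
  have hMB : B ≤ ε * (M : ℝ) ^ 2 := by
    have h4 : (n : ℝ) ≤ 5 * (M : ℝ) := by exact_mod_cast hM5
    have h5 : (n : ℝ) ^ 2 ≤ (5 * (M : ℝ)) ^ 2 :=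
      pow_le_pow_left₀ (Nat.cast_nonneg n) h4 2
    have h6 : ε * (n : ℝ) ^ 2 ≤ ε * (5 * (M : ℝ)) ^ 2 :=
      mul_le_mul_of_nonneg_left h5 hε.le
    have h7 : ε * (5 * (M : ℝ)) ^ 2 = 25 * (ε * (M : ℝ) ^ 2) := by ring
    linarith
  have haM : aM d M p ≤ C / (M : ℝ) ^ 2 := hH.1 M hM1
  -- an arm without a large cluster, in every torus of side at least `n`
  have key : ∀ (n' : ℕ) [NeZero n'] [Fintype (torG d n').edgeSet], n ≤ n' →
      ∀ φ : boxG d (2 * M + 1) ↪g torG d n',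
      Ex (p + ε) (fun ω : (torG d n').edgeSet → Bool =>
        open scoped Classical in
        if arm d M (pul φ ω) ∧ cz (gends (torG d n')) ω (φ (ctr d M)) < A1 / ε ^ 2 then (1 : ℝ)
          else 0) ≤ η * ε := by
    intro n' _ _ hn' φ
    exact hsmall n' M φ p ε hp0 hp1 hε hεa hMB haM (fun x r h1 h2 k hk => hH.2 n' x r h1 h2 k hk)
  have emb : ∀ (n' : ℕ) [NeZero n'], n ≤ n' →
      ∃ φ : boxG d (2 * M + 1) ↪g torG d n', ∀ x i, φ x i = (((x i : ℕ) : ℕ) : ZMod n') := by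
    intro n' _ hn'
    obtain ⟨φ, hφ⟩ := box_tor (d := d) (l := 2 * M + 1) (n := n') (fun _ => 0)
      (fun i => by omega) (by omega)
    refine ⟨φ, fun x i => ?_⟩
    rw [hφ x i]
    simp
  refine ⟨?_, ?_⟩
  · obtain ⟨φ, hφ⟩ := emb n le_rfl
    have h1 := th_le (d := d) hq0 hq1 M
    have h2 := arm_le (N := A1 / ε ^ 2) hq0 hq1 φ
    have h3 := key n le_rfl φ
    linarith
  · intro n' _ _ hnn
    obtain ⟨φ, hφ⟩ := emb n' hnn
    have h1 := fT_le (d := d) (n := n) (M := M) hMn hq0 hq1 (A1 / ε ^ 2)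
    have h2 := piM_le (N := A1 / ε ^ 2) (lt_of_lt_of_le hMn hnn) hq0 hq1 φ hφ
    have h3 := key n' hnn φ
    linarith

/-- The law of large numbers on the torus with centring `n^d f_T(A1/ε²)` (campaign 29x). -/
def LLNT (d : ℕ) (cp A1 A ε0 η : ℝ) (H : (p : ℝ) → Prop) : Prop :=
  ∀ (n : ℕ) [NeZero n] [Fintype (torG d n).edgeSet] (p ε : ℝ), cp ≤ p → cp ≤ 1 - p → 0 < ε → ε ≤ ε0 →
    A ≤ ε * (n : ℝ) ^ 2 → H p →
    Ex (p + ε) (fun ω => open scoped Classical in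
      if η * ε * (n : ℝ) ^ d < |mxc (gends (torG d n)) ω - (n : ℝ) ^ d * fT d n (p + ε) (A1 / ε ^ 2)|
      then (1 : ℝ) else 0) ≤ η

/-- Row H4. `f_T ≤ θ + η ε`. Let `η' = η/(4 + 4 C)` or smaller; `LLNT` for `n' ≥ n` gives `Ex mxc ≥ (1 - η') n'^d (fT n' - η' ε)`, `mxc_mean` gives
`Ex mxc ≤ (2M+1)^d + n'^d aM`, and `fT n' ≤ C (1/√N + ε) ≤ 2 C ε` (`N = A1/ε²`); so `fT n' ≤ aM + (1 + 2C) η' ε + (2M+1)^d/n'^d`; with `tor_cmp` and
`n' → ∞` (for fixed `M`): `fT n ≤ aM + η ε` for every `M`; `le_th`. -/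
theorem th_up (d : ℕ) (hd : 1 ≤ d) (C cp A1 η s0 : ℝ) (hC : 0 ≤ C) (hcp : 0 < cp) (hA1 : 1 ≤ A1)
    (hη : 0 < η) (hs0 : 0 < s0) :
    ∃ A ε0 : ℝ, 0 < A ∧ 0 < ε0 ∧ ∀ [∀ l, Fintype (boxG d l).edgeSet] (A' ε0' : ℝ)
      (H : ℝ → Prop), LLNT d cp A1 A' ε0' (η / (4 * (1 + 3 * C))) H →
      ∀ (n : ℕ) [NeZero n] [Fintype (torG d n).edgeSet] (p ε : ℝ),
      cp ≤ p → cp ≤ 1 - p → 0 < ε → ε ≤ ε0 → ε ≤ ε0' → A ≤ ε * (n : ℝ) ^ 2 → A' ≤ ε * (n : ℝ) ^ 2 →
      HypT d C p s0 → H p →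
      fT d n (p + ε) (A1 / ε ^ 2) ≤ th d (p + ε) + η * ε := by
  classical
  obtain ⟨A, e0, hA, he0, hcmp⟩ := tor_cmp d C cp A1 (η / 2) s0 hC hcp hA1 (by positivity) hs0
  have hc3 : 0 < 4 * (1 + 3 * C) := by positivity
  refine ⟨A, min (min e0 cp) (min s0 1), hA,
    lt_min (lt_min he0 hcp) (lt_min hs0 one_pos), ?_⟩
  intro _ A' ε0' H hL n _ _ p ε hp hp1 hε hε0 hε0' hAn hAn' hH hHp
  have hεe : ε ≤ e0 := le_trans hε0 (le_trans (min_le_left _ _) (min_le_left _ _))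
  have hεc : ε ≤ cp := le_trans hε0 (le_trans (min_le_left _ _) (min_le_right _ _))
  have hεs : ε ≤ s0 := le_trans hε0 (le_trans (min_le_right _ _) (min_le_left _ _))
  have hε1 : ε ≤ 1 := le_trans hε0 (le_trans (min_le_right _ _) (min_le_right _ _))
  have h0 : 0 ≤ p + ε := by linarith
  have h1 : p + ε ≤ 1 := by linarith
  have hcmp' := (hcmp n p ε hp hp1 hε hεe hAn hH).2
  have key : ∀ M : ℕ, fT d n (p + ε) (A1 / ε ^ 2) - η * ε ≤ aM d M (p + ε) := by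
    intro M
    obtain ⟨k, hk⟩ := exists_nat_gt ((2 * (M : ℝ) + 1) ^ d / (η / 4 * ε))
    obtain ⟨n', hn'1, hn'2, hn'3⟩ : ∃ n' : ℕ, n ≤ n' ∧ 2 * M + 1 < n' ∧ k ≤ n' :=
      ⟨max n (max (2 * M + 2) k), le_max_left _ _,
        lt_of_lt_of_le (by omega) (le_trans (le_max_left (2 * M + 2) k) (le_max_right _ _)),
        le_trans (le_max_right (2 * M + 2) k) (le_max_right _ _)⟩
    have : NeZero n' := ⟨by omega⟩
    have : Fintype (torG d n').edgeSet := Fintype.ofFinite _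
    have hnn : (n : ℝ) ≤ (n' : ℝ) := by exact_mod_cast hn'1
    have hn0 : (0 : ℝ) ≤ (n : ℝ) := Nat.cast_nonneg _
    have hn'pos : (1 : ℝ) ≤ (n' : ℝ) := by
      have : 1 ≤ n' := by omega
      exact_mod_cast this
    have hsq : (n : ℝ) ^ 2 ≤ (n' : ℝ) ^ 2 := pow_le_pow_left₀ hn0 hnn 2
    have hAn'' : A' ≤ ε * (n' : ℝ) ^ 2 :=
      le_trans hAn' (mul_le_mul_of_nonneg_left hsq hε.le)
    have hLn := hL n' p ε hp hp1 hε hε0' hAn'' hHp
    have hmean := mxc_mean (d := d) (n := n') (M := M) hn'2 h0 h1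
    have hc := hcmp' n' hn'1
    -- the size of the tail
    obtain ⟨F, hF⟩ : ∃ F : ℝ, F = fT d n' (p + ε) (A1 / ε ^ 2) := ⟨_, rfl⟩
    rw [← hF] at hLn hc
    have hF0 : 0 ≤ F := by
      rw [hF]
      unfold fT
      apply Ex_nonneg h0 h1
      intro ω
      split_ifs
      · exact zero_le_one
      · exact le_refl _
    have hF3 : F ≤ 3 * C * ε := by
      have hN1 : (1 : ℝ) ≤ A1 / ε ^ 2 := by
        rw [le_div_iff₀ (by positivity)]
        nlinarith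
      have hk1 : 1 ≤ ⌊A1 / ε ^ 2⌋₊ := Nat.le_floor (by exact_mod_cast hN1)
      have hk2 : ((⌊A1 / ε ^ 2⌋₊ : ℕ) : ℝ) ≤ A1 / ε ^ 2 := Nat.floor_le (by positivity)
      have hk3 : A1 / ε ^ 2 < (⌊A1 / ε ^ 2⌋₊ : ℝ) + 1 := Nat.lt_floor_add_one _
      have hk4 : (1 : ℝ) ≤ ((⌊A1 / ε ^ 2⌋₊ : ℕ) : ℝ) := by exact_mod_cast hk1
      have hT := hH.2 n' 0 (p + ε) (by linarith) (by linarith) ⌊A1 / ε ^ 2⌋₊ hk1
      have hs : 1 / Real.sqrt ((⌊A1 / ε ^ 2⌋₊ : ℕ) : ℝ) ≤ 2 * ε := by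
        have h2 : 1 / (2 * ε) ≤ Real.sqrt ((⌊A1 / ε ^ 2⌋₊ : ℕ) : ℝ) := by
          apply Real.le_sqrt_of_sq_le
          have h3 : (1 / (2 * ε)) ^ 2 = 1 / 4 * (1 / ε ^ 2) := by
            field_simp
            norm_num
          have h4 : 1 / ε ^ 2 ≤ A1 / ε ^ 2 := by
            apply div_le_div_of_nonneg_right hA1 (by positivity)
          have h5 : 0 ≤ 1 / ε ^ 2 := by positivity
          rw [h3]
          linarith
        have h6 : 1 / Real.sqrt ((⌊A1 / ε ^ 2⌋₊ : ℕ) : ℝ) ≤ 1 / (1 / (2 * ε)) :=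
          one_div_le_one_div_of_le (by positivity) h2
        rwa [one_div_one_div] at h6
      have hle : F ≤ C * (1 / Real.sqrt ((⌊A1 / ε ^ 2⌋₊ : ℕ) : ℝ) + (p + ε - p)) := by
        refine le_trans ?_ hT
        rw [hF]
        unfold fT
        apply Ex_mono h0 h1
        intro ω
        split_ifs with h2 h3 h3
        · exact le_refl _
        · exact absurd (le_trans hk2 h2) h3
        · exact zero_le_one
        · exact le_refl _
      have hle2 : C * (1 / Real.sqrt ((⌊A1 / ε ^ 2⌋₊ : ℕ) : ℝ) + (p + ε - p)) ≤ C * (2 * ε + ε) :=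
        mul_le_mul_of_nonneg_left (by linarith) hC
      linarith
    -- the mean of the largest cluster from below
    have hpw : (n' : ℝ) ^ d * F - η / (4 * (1 + 3 * C)) * ε * (n' : ℝ) ^ d ≤
        Ex (p + ε) (mxc (gends (torG d n'))) + (n' : ℝ) ^ d * F * (η / (4 * (1 + 3 * C))) := by
      have hmono := Ex_mono h0 h1
        (f := fun _ => (n' : ℝ) ^ d * F - η / (4 * (1 + 3 * C)) * ε * (n' : ℝ) ^ d)
        (g := fun ω => mxc (gends (torG d n')) ω + (n' : ℝ) ^ d * F *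
          (if η / (4 * (1 + 3 * C)) * ε * (n' : ℝ) ^ d <
            |mxc (gends (torG d n')) ω - (n' : ℝ) ^ d * F| then (1 : ℝ) else 0)) (by
        intro ω
        have hm0 := mxc_nonneg (ends := gends (torG d n')) ω
        have hpos : 0 ≤ η / (4 * (1 + 3 * C)) * ε * (n' : ℝ) ^ d := by positivity
        split_ifs with hb
        · linarith
        · push Not at hb
          have := (abs_le.1 hb).1
          linarith)
      rw [Ex_const, Ex_add, Ex_mul_left] at hmono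
      refine le_trans hmono ?_
      have hb2 : (n' : ℝ) ^ d * F * Ex (p + ε) (fun ω => if η / (4 * (1 + 3 * C)) * ε * (n' : ℝ) ^ d <
            |mxc (gends (torG d n')) ω - (n' : ℝ) ^ d * F| then (1 : ℝ) else 0) ≤
          (n' : ℝ) ^ d * F * (η / (4 * (1 + 3 * C))) :=
        mul_le_mul_of_nonneg_left hLn (by positivity)
      linarith
    have hnd : (0 : ℝ) < (n' : ℝ) ^ d := by positivity
    have hM : (2 * (M : ℝ) + 1) ^ d ≤ η / 4 * ε * (n' : ℝ) ^ d := by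
      have hkn : (k : ℝ) ≤ (n' : ℝ) := by exact_mod_cast hn'3
      have h2 : (2 * (M : ℝ) + 1) ^ d < k * (η / 4 * ε) := (div_lt_iff₀ (by positivity)).1 hk
      have h3 : (n' : ℝ) ≤ (n' : ℝ) ^ d := le_self_pow₀ hn'pos (by omega)
      have h4 : (k : ℝ) * (η / 4 * ε) ≤ (n' : ℝ) ^ d * (η / 4 * ε) :=
        mul_le_mul_of_nonneg_right (le_trans hkn h3) (by positivity)
      linarith
    -- divide by `n'^d`
    have h5 : (n' : ℝ) ^ d * F ≤ (n' : ℝ) ^ d * (aM d M (p + ε) + η / 2 * ε) := by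
      have h6 : F * (η / (4 * (1 + 3 * C))) ≤ 3 * C * ε * (η / (4 * (1 + 3 * C))) :=
        mul_le_mul_of_nonneg_right hF3 (by positivity)
      have h7 : 3 * C * ε * (η / (4 * (1 + 3 * C))) + η / (4 * (1 + 3 * C)) * ε = η / 4 * ε := by
        field_simp
        ring
      have h8 : (n' : ℝ) ^ d * (F * (η / (4 * (1 + 3 * C)))) ≤
          (n' : ℝ) ^ d * (3 * C * ε * (η / (4 * (1 + 3 * C)))) :=
        mul_le_mul_of_nonneg_left h6 hnd.le
      have h9 : (n' : ℝ) ^ d * (3 * C * ε * (η / (4 * (1 + 3 * C)))) +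
          η / (4 * (1 + 3 * C)) * ε * (n' : ℝ) ^ d = (n' : ℝ) ^ d * (η / 4 * ε) := by
        rw [← h7]
        ring
      nlinarith
    have h10 := le_of_mul_le_mul_left h5 hnd
    linarith
  have hfin := le_th key
  linarith

end Pool.Agent.PERC29.AE
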