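import Pool.Agent.Lib.MP_29e17e_pr.Y.Lf
import Pool.Agent.Lib.MP_29e17e_pr.Y.Lg
import Pool.Agent.Lib.MP_29e17e_pr.Y.Th

set_option autoImplicit false
set_option linter.unusedSectionVars false

/-! Assembly: the law of large numbers on the torus (page 29z_helper62.md, Section 3). -/

open Finset

namespace Pool.Agent.PERC29.AE

/-- The numbers of the law of large numbers. `x = ε³ n^d`, `N = n^d`. -/
lemma num_lln {C η A1 G ε N D : ℝ} (hC : 1 ≤ C) (hη : 0 < η) (hη1 : η ≤ 1) (hA1 : 1 ≤ A1)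
    (hG : G = 256 * C * A1 / η ^ 2) (hε : 0 < ε) (hε1 : ε ≤ 1) (hN : 0 < N) (hD : 0 ≤ D)
    (hbig : 16 * G / η + 64 * (5 * C * G + 125 * C ^ 3 * G ^ 2 * D) / η ^ 3 ≤ ε ^ 3 * N)
    {η1 : ℝ} (hη0 : 0 < η1) (h16 : η1 ≤ η / 16) (hsq : Real.sqrt η1 ≤ η ^ 3 / (65536 * C ^ 2))
    {q : ℝ} (hq0 : 0 ≤ q) (hq1 : q ≤ 1) :
    1 / (ε ^ 2 / G) + η1 * ε * N + ε ^ 2 / G * (N * (5 * C * A1 / ε)) +
      2 / (ε ^ 2 / G * (A1 / ε ^ 2)) *
      Real.sqrt (N * (5 * C * G / ε + q * D * (5 * C * G / ε) ^ 2 * (5 * C * ε)) + (N * (5 * C * ε)) ^ 2) *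
        Real.sqrt η1 ≤ η * ε * N / 4 ∧
    η1 + ε ^ 2 / G * (N * (5 * C * A1 / ε)) / (η * ε * N / 4) +
        N * (5 * C * G / ε + q * D * (5 * C * G / ε) ^ 2 * (5 * C * ε)) / (η * ε * N / 4) ^ 2 ≤ η := by
  have hC0 : 0 < C := by linarith
  have hA0 : 0 < A1 := by linarith
  have hG0 : 0 < G := by rw [hG]; positivity
  obtain ⟨c6, hc6⟩ : ∃ c6, c6 = 5 * C * G + 125 * C ^ 3 * G ^ 2 * D := ⟨_, rfl⟩
  have hc60 : 0 < c6 := by rw [hc6]; positivity
  rw [← hc6] at hbig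
  have hN0 : 0 < ε * N := by positivity
  have b1 : 16 * G / η ≤ ε ^ 3 * N := by
    have : 0 < 64 * c6 / η ^ 3 := by positivity
    linarith
  have b2 : 64 * c6 / η ^ 3 ≤ ε ^ 3 * N := by
    have : 0 < 16 * G / η := by positivity
    linarith
  rw [div_le_iff₀ hη] at b1
  rw [div_le_iff₀ (by positivity)] at b2
  -- the variance
  obtain ⟨Vr, hVr⟩ : ∃ Vr, Vr = N * (5 * C * G / ε + q * D * (5 * C * G / ε) ^ 2 * (5 * C * ε)) := ⟨_, rfl⟩
  have hVr1 : Vr = N * (5 * C * G + q * (125 * C ^ 3 * G ^ 2 * D)) / ε := by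
    rw [hVr]; field_simp; ring
  have hVr2 : Vr ≤ N * c6 / ε := by
    rw [hVr1, hc6]
    refine div_le_div_of_nonneg_right (mul_le_mul_of_nonneg_left ?_ hN.le) hε.le
    have : q * (125 * C ^ 3 * G ^ 2 * D) ≤ 1 * (125 * C ^ 3 * G ^ 2 * D) :=
      mul_le_mul_of_nonneg_right hq1 (by positivity)
    linarith
  have hVr0 : 0 ≤ Vr := by rw [hVr]; positivity
  have hη3 : η ^ 3 ≤ 1 := pow_le_one₀ hη.le hη1
  -- c6 ≤ η³ ε³ N / 64
  have hV3 : N * c6 / ε ≤ η ^ 3 * (ε * N) ^ 2 / 64 := by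
    rw [div_le_iff₀ hε]
    have : N * (64 * c6) ≤ N * (ε ^ 3 * N * η ^ 3) := mul_le_mul_of_nonneg_left b2 hN.le
    calc N * c6 = N * (64 * c6) / 64 := by ring
      _ ≤ N * (ε ^ 3 * N * η ^ 3) / 64 := by linarith
      _ = η ^ 3 * (ε * N) ^ 2 / 64 * ε := by ring
  have hV4 : Vr ≤ η ^ 3 * (ε * N) ^ 2 / 64 := hVr2.trans hV3
  rw [← hVr]
  have g1 : 1 / (ε ^ 2 / G) ≤ η * ε * N / 16 := by
    rw [one_div_div, div_le_iff₀ (by positivity)]
    calc G = 16 * G / 16 := by ring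
      _ ≤ ε ^ 3 * N * η / 16 := by linarith
      _ = η * ε * N / 16 * ε ^ 2 := by ring
  have g2 : η1 * ε * N ≤ η * ε * N / 16 := by
    have := mul_le_mul_of_nonneg_right h16 hN0.le
    calc η1 * ε * N = η1 * (ε * N) := by ring
      _ ≤ η / 16 * (ε * N) := this
      _ = _ := by ring
  have g3 : ε ^ 2 / G * (N * (5 * C * A1 / ε)) = 5 * η ^ 2 * (ε * N) / 256 := by
    rw [hG]; field_simp; try ring
  have hη2 : η ^ 2 ≤ η := pow_le_of_le_one hη.le hη1 two_ne_zero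
  have g3' : 5 * η ^ 2 * (ε * N) / 256 ≤ η * ε * N / 16 := by
    have h2 := mul_le_mul_of_nonneg_right hη2 hN0.le
    have h3 := mul_pos hη hN0
    linarith
  have g4 : 2 / (ε ^ 2 / G * (A1 / ε ^ 2)) = 512 * C / η ^ 2 := by
    rw [hG]; field_simp; norm_num
  have hs : Real.sqrt (Vr + (N * (5 * C * ε)) ^ 2) ≤ 6 * C * (ε * N) := by
    apply Real.sqrt_le_iff.2
    refine ⟨by positivity, ?_⟩
    have h1 : Vr ≤ (ε * N) ^ 2 := by
      refine hV4.trans ?_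
      have : η ^ 3 * (ε * N) ^ 2 ≤ 1 * (ε * N) ^ 2 := mul_le_mul_of_nonneg_right hη3 (by positivity)
      have : 0 ≤ (ε * N) ^ 2 := by positivity
      linarith
    have h2 : (ε * N) ^ 2 ≤ C ^ 2 * (ε * N) ^ 2 := by
      have h4 : 1 ≤ C ^ 2 := one_le_pow₀ hC
      have h3 : 0 ≤ (ε * N) ^ 2 := by positivity
      have h5 := mul_le_mul_of_nonneg_right h4 h3
      linarith
    have h3 : (N * (5 * C * ε)) ^ 2 = 25 * (C ^ 2 * (ε * N) ^ 2) := by ring
    have h4 : (6 * C * (ε * N)) ^ 2 = 36 * (C ^ 2 * (ε * N) ^ 2) := by ring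
    rw [h3, h4]
    have : 0 ≤ C ^ 2 * (ε * N) ^ 2 := by positivity
    linarith
  have g5 : 512 * C / η ^ 2 * Real.sqrt (Vr + (N * (5 * C * ε)) ^ 2) * Real.sqrt η1 ≤ η * ε * N / 16 := by
    calc 512 * C / η ^ 2 * Real.sqrt (Vr + (N * (5 * C * ε)) ^ 2) * Real.sqrt η1 ≤
        512 * C / η ^ 2 * (6 * C * (ε * N)) * (η ^ 3 / (65536 * C ^ 2)) := by
          refine mul_le_mul (mul_le_mul_of_nonneg_left hs (by positivity)) hsq (Real.sqrt_nonneg _)
            (by positivity)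
      _ = (3072 / 65536) * (η * ε * N) := by field_simp; norm_num
      _ ≤ η * ε * N / 16 := by
          have : 0 < η * ε * N := by positivity
          linarith
  constructor
  · rw [g3, g4]
    linarith
  · rw [g3]
    have e1 : 5 * η ^ 2 * (ε * N) / 256 / (η * ε * N / 4) = 5 * η / 64 := by
      field_simp; norm_num
    have e2 : Vr / (η * ε * N / 4) ^ 2 ≤ η / 4 := by
      rw [div_le_iff₀ (by positivity)]
      refine hV4.trans (le_of_eq ?_)
      ring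
    rw [e1]
    linarith

open scoped Classical in
theorem lln_ex (d : ℕ) (hd : 9 ≤ d) (C c0 cp s0 η : ℝ) (hC : 1 ≤ C) (hc0 : 0 < c0) (hcp : 0 < cp)
    (hcp1 : cp ≤ 1) (hs0 : 0 < s0) (hη : 0 < η) (hη1 : η ≤ 1) :
    ∃ A1 A ε0 : ℝ, 1 ≤ A1 ∧ 0 < A ∧ 0 < ε0 ∧ ∀ [∀ l, Fintype (boxG d l).edgeSet],
      LLNT d cp A1 A ε0 η (fun p => (∀ l : ℕ, Hyp d C c0 p l) ∧ HypT d C p s0) := by
  have hC0 : 0 < C := by linarith
  set κ1 : ℝ := η ^ 3 / (65536 * C ^ 2) with hκ1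
  have hκ0 : 0 < κ1 := by positivity
  set η1 : ℝ := min (η / 16) (κ1 ^ 2) with hη1d
  have hη10 : 0 < η1 := lt_min (by positivity) (by positivity)
  have hη16 : η1 ≤ η / 16 := min_le_left _ _
  have hηs : Real.sqrt η1 ≤ κ1 := by
    apply Real.sqrt_le_iff.2
    exact ⟨hκ0.le, min_le_right _ _⟩
  have hη11 : η1 ≤ 1 := by linarith
  obtain ⟨A1, A, ε00, hA1, hA, hε00, hfam⟩ := fam_ex d hd C c0 cp η1 hC hc0 hcp hcp1 hη10 hη11
  have hA10 : 0 < A1 := by linarith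
  set G : ℝ := 256 * C * A1 / η ^ 2 with hG
  have hG1 : 1 ≤ G := by
    rw [hG, le_div_iff₀ (by positivity)]
    have h1 : η ^ 2 ≤ 1 := pow_le_one₀ hη.le hη1
    have h2 : 1 ≤ C * A1 := one_le_mul_of_one_le_of_one_le hC hA1
    linarith
  have hG0 : 0 < G := by linarith
  set Bg : ℝ := 16 * G / η + 64 * (5 * C * G + 125 * C ^ 3 * G ^ 2 * (2 * d)) / η ^ 3 with hBg
  have hBg0 : 0 < Bg := by positivity
  refine ⟨A1, max A (Bg + 1), min ε00 (min (min s0 (cp / 2)) 1), hA1, lt_of_lt_of_le hA (le_max_left _ _),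
    lt_min hε00 (lt_min (lt_min hs0 (by positivity)) one_pos), ?_⟩
  intro _ n _ _ p ε hp hp1 hε hεle hAn' hH
  obtain ⟨hHb, hHT1, hHT2⟩ := hH
  have hAn : A ≤ ε * (n : ℝ) ^ 2 := (le_max_left _ _).trans hAn'
  have hBn : Bg + 1 ≤ ε * (n : ℝ) ^ 2 := (le_max_right _ _).trans hAn'
  have he1 : ε ≤ ε00 := hεle.trans (min_le_left _ _)
  have he2 : ε ≤ s0 := hεle.trans ((min_le_right _ _).trans ((min_le_left _ _).trans (min_le_left _ _)))
  have he4 : ε ≤ cp / 2 := hεle.trans ((min_le_right _ _).trans ((min_le_left _ _).trans (min_le_right _ _)))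
  have he3 : ε ≤ 1 := hεle.trans ((min_le_right _ _).trans (min_le_right _ _))
  have h0p : 0 ≤ p := hcp.le.trans hp
  have hp1' : p ≤ 1 := by linarith
  have hq0 : 0 ≤ p + ε := by linarith
  have hq1 : p + ε ≤ 1 := by linarith
  have hn1 : 1 ≤ n := Nat.one_le_iff_ne_zero.2 (NeZero.ne n)
  have hnR : (1 : ℝ) ≤ n := by exact_mod_cast hn1
  have hnd : (0 : ℝ) < (n : ℝ) ^ d := by positivity
  -- tails
  have hT : ∀ x, ∀ k : ℕ, 1 ≤ k → Ex p (fun ω => if (k : ℝ) ≤ cz (gends (torG d n)) ω x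
        then (1 : ℝ) else 0) ≤ C / Real.sqrt k := by
    intro x k hk
    have h := hHT2 n x p le_rfl (by linarith) k hk
    have e : C * (1 / Real.sqrt k + (p - p)) = C / Real.sqrt k := by ring
    rw [e] at h
    exact h
  have hT' : ∀ x, ∀ k : ℕ, 1 ≤ k → Ex (p + ε) (fun ω => if (k : ℝ) ≤ cz (gends (torG d n)) ω x
        then (1 : ℝ) else 0) ≤ C * (1 / Real.sqrt k + ε) := by
    intro x k hk
    have h := hHT2 n x (p + ε) (by linarith) (by linarith) k hk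
    have e : C * (1 / Real.sqrt k + (p + ε - p)) = C * (1 / Real.sqrt k + ε) := by ring
    rw [e] at h
    exact h
  have harm : ∀ m : ℕ, 1 ≤ m → ∀ x ∈ bT d m (fun _ => false),
        Ex p (fun ω : (boxG d (8 * m)).edgeSet → Bool =>
          if ¬ Disjoint (cu (gends (boxG d (8 * m))) ω x) (bdy d (8 * m)) then (1 : ℝ) else 0) ≤
          C / (m : ℝ) ^ 2 := by
    intro m hm x hx
    refine (arm_box hm h0p hp1' x hx).trans ((hHT1 (3 * m) (by omega)).trans ?_)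
    have hm0 : (0 : ℝ) < m := by exact_mod_cast hm
    push_cast
    refine div_le_div_of_nonneg_left hC0.le (by positivity) ?_
    have : (0 : ℝ) ≤ (m : ℝ) ^ 2 := by positivity
    linarith
  have hF := hfam n p ε hp hp1 hε he1 hAn hHb harm hT hT'
  -- numbers
  set h : ℝ := A1 / ε ^ 2 with hh
  set g : ℝ := ε ^ 2 / G with hg
  have hε2 : ε ^ 2 ≤ 1 := pow_le_one₀ hε.le he3
  have hε20 : 0 < ε ^ 2 := by positivity
  have hg0 : 0 < g := by positivity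
  have hg1 : g ≤ 1 := by
    rw [hg, div_le_one hG0]; linarith
  have hh1 : 1 ≤ h := by
    rw [hh, le_div_iff₀ hε20]; linarith
  have hgh : g * h ≤ 1 := by
    have e : g * h = A1 / G := by rw [hg, hh]; field_simp
    rw [e, div_le_one hG0, hG, le_div_iff₀ (by positivity)]
    have h1 : η ^ 2 ≤ 1 := pow_le_one₀ hη.le hη1
    have h3 := mul_le_mul_of_nonneg_left h1 hA10.le
    have h4 := mul_le_mul_of_nonneg_right hC hA10.le
    linarith
  have hg' : 1 / g = G / ε ^ 2 := by rw [hg, one_div_div]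
  have hGε : 1 ≤ G / ε ^ 2 := by
    rw [le_div_iff₀ hε20]; linarith
  have hmin : ∀ (a : ℝ), 1 ≤ a → ∀ y, Ex (p + ε) (fun ω => min (cz (gends (torG d n)) ω y) (a / ε ^ 2)) ≤
      3 * C * (Real.sqrt a / ε) + 2 * C * (a / ε) := by
    intro a ha y
    have h1 : 1 ≤ a / ε ^ 2 := by
      rw [le_div_iff₀ hε20]; linarith
    have h2 := min_tail2 (ends := gends (torG d n)) hq0 hq1 hC0.le hε.le y (hT' y) h1
    have e1 : Real.sqrt (a / ε ^ 2) = Real.sqrt a / ε := by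
      rw [Real.sqrt_div' a hε20.le, Real.sqrt_sq hε.le]
    have e2 : 2 * C * ε * (a / ε ^ 2) = 2 * C * (a / ε) := by field_simp
    rw [e1, e2] at h2
    exact h2
  have hmin2 : ∀ (a : ℝ), 1 ≤ a → ∀ y, Ex (p + ε) (fun ω => min (cz (gends (torG d n)) ω y) (a / ε ^ 2)) ≤
      5 * C * a / ε := by
    intro a ha y
    refine (hmin a ha y).trans ?_
    have h1 : Real.sqrt a ≤ a := by
      apply Real.sqrt_le_iff.2
      exact ⟨by linarith, le_self_pow₀ ha two_ne_zero⟩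
    have h2 : 3 * C * (Real.sqrt a / ε) ≤ 3 * C * (a / ε) :=
      mul_le_mul_of_nonneg_left (div_le_div_of_nonneg_right h1 hε.le) (by positivity)
    calc 3 * C * (Real.sqrt a / ε) + 2 * C * (a / ε) ≤ 3 * C * (a / ε) + 2 * C * (a / ε) := by linarith
      _ = 5 * C * a / ε := by ring
  have hm : ∀ y, Ex (p + ε) (fun ω => min (cz (gends (torG d n)) ω y) (1 / g)) ≤ 5 * C * G / ε := by
    intro y
    rw [hg']
    exact hmin2 G hG1 y
  have hmh : ∀ y, Ex (p + ε) (fun ω => min (cz (gends (torG d n)) ω y) h) ≤ 5 * C * A1 / ε :=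
    fun y => hmin2 A1 hA1 y
  have hM : ∀ y, Ex (p + ε) (mg (gends (torG d n)) g y) ≤ 5 * C * ε := by
    intro y
    have h1 := mg_min (ends := gends (torG d n)) hq0 hq1 hGε y
    have e1 : 1 / (G / ε ^ 2) = g := by rw [one_div_div]
    rw [e1] at h1
    refine h1.trans ((mul_le_mul_of_nonneg_left (hmin2 G hG1 y) hg0.le).trans (le_of_eq ?_))
    rw [hg]; field_simp
  have hcard : Fintype.card (Fin d → ZMod n) = n ^ d := by
    rw [Fintype.card_fun, ZMod.card, Fintype.card_fin]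
  have hcardR : ((Fintype.card (Fin d → ZMod n) : ℕ) : ℝ) = (n : ℝ) ^ d := by
    rw [hcard]; push_cast; ring
  have hbig : Bg ≤ ε ^ 3 * (n : ℝ) ^ d := by
    have h1 : 1 ≤ ε * (n : ℝ) ^ 2 := by linarith
    have h2 : (ε * (n : ℝ) ^ 2) ≤ (ε * (n : ℝ) ^ 2) ^ 3 := by
      calc (ε * (n : ℝ) ^ 2) = (ε * (n : ℝ) ^ 2) ^ 1 := (pow_one _).symm
        _ ≤ (ε * (n : ℝ) ^ 2) ^ 3 := pow_le_pow_right₀ h1 (by norm_num)
    have h3 : (ε * (n : ℝ) ^ 2) ^ 3 = ε ^ 3 * (n : ℝ) ^ 6 := by ring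
    have h4 : (n : ℝ) ^ 6 ≤ (n : ℝ) ^ d := pow_le_pow_right₀ hnR (by omega)
    have h5 : ε ^ 3 * (n : ℝ) ^ 6 ≤ ε ^ 3 * (n : ℝ) ^ d := mul_le_mul_of_nonneg_left h4 (by positivity)
    linarith
  obtain ⟨N1, N2⟩ := num_lln (C := C) (η := η) (A1 := A1) (G := G) (ε := ε) (N := (n : ℝ) ^ d)
    (D := 2 * d) hC hη hη1 hA1 hG hε he3 hnd (by positivity) hbig hη10 hη16 hηs (q := p + ε) hq0 hq1
  have hbad : Ex (p + ε) (fun ω => if η1 * ε * (n : ℝ) ^ d ≤
      Wn (gends (torG d n)) ω h - mxc (gends (torG d n)) ω then (1 : ℝ) else 0) ≤ η1 := by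
    refine le_trans (Ex_mono hq0 hq1 fun ω => ?_) hF
    by_cases hc : η1 * ε * (n : ℝ) ^ d ≤ Wn (gends (torG d n)) ω h - mxc (gends (torG d n)) ω
    · rw [if_pos hc, if_pos (fun y => hc.trans (Wn_le ω h y))]
    · rw [if_neg hc]
      split_ifs <;> norm_num
  have hL := lln_gen (V := Fin d → ZMod n) (E := (torG d n).edgeSet) (ends := gends (torG d n))
    (q := p + ε) (g := g) (h := h) (M := 5 * C * ε) (m := 5 * C * G / ε) (mh := 5 * C * A1 / ε)
    (Wd := 2 * d) (u := η1 * ε * (n : ℝ) ^ d) (v := η * ε * (n : ℝ) ^ d) (η1 := η1) hq0 hq1 hg0 hg1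
    hh1 hgh hM hm hmh (fun x => tor_deg x) (by positivity) (by positivity) hη10.le hbad
    (by rw [hcardR]; exact N1)
  rw [hcardR] at hL
  have hEW : Ex (p + ε) (fun ω => Wn (gends (torG d n)) ω h) = (n : ℝ) ^ d * fT d n (p + ε) h := by
    unfold Wn
    rw [Ex_sum]
    have e1 : ∀ x ∈ (Finset.univ : Finset (Fin d → ZMod n)),
        Ex (p + ε) (fun ω => if h ≤ cz (gends (torG d n)) ω x then (1 : ℝ) else 0) =
          fT d n (p + ε) h := by
      intro x _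
      exact tor_trans (p + ε) (fun c => if h ≤ c then (1 : ℝ) else 0) x
    rw [Finset.sum_congr rfl e1, Finset.sum_const, nsmul_eq_mul, Finset.card_univ, hcardR]
  rw [hEW] at hL
  exact hL.trans N2

end Pool.Agent.PERC29.AE
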