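import Pool.Agent.Lib.MP_29e17e_pr.V.Hp

set_option autoImplicit false
set_option linter.unusedSectionVars false

/-! Rows 29w-H1 .. 29w-H3: the hierarchy with `R ^ d` top blocks of level `k`: region `[0, R * 40 ^ k)^d`. -/

open Finset

namespace Pool.Agent.PERC29.AE

variable {E : Type*} [Fintype E] [DecidableEq E] {d : ℕ}

private lemma H1_or {p s : ℝ} (h0 : 0 ≤ p) (h1 : p ≤ 1) (g0 : 0 ≤ s) (g1 : s ≤ 1)
    (A A' : (E → Bool) → (E → Bool) → Prop) :
    P2 p s (fun ω η => A ω η ∨ A' ω η) ≤ P2 p s A + P2 p s A' := by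
  have h := P2_ex h0 h1 g0 g1 (Finset.univ : Finset Bool) (fun b => if b = true then A else A')
  rw [Fintype.sum_bool] at h
  simp only [if_true, Bool.false_eq_true, if_false] at h
  refine le_trans (P2_mono h0 h1 g0 g1 ?_) h
  intro ω η hh
  rcases hh with hh | hh
  · exact ⟨true, Finset.mem_univ _, by simpa using hh⟩
  · exact ⟨false, Finset.mem_univ _, by simpa using hh⟩

private lemma H1_inR (R k j : ℕ) (hj : j ≤ k) (x : Fin d → ℕ) (hx : ∀ i, x i < R * 40 ^ k) :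
    inR (R * 40 ^ k) j (anc j x) := by
  intro i
  have h1 : R * (40 : ℕ) ^ k = (R * 40 ^ (k - j)) * 40 ^ j := by
    rw [mul_assoc, ← pow_add, Nat.sub_add_cancel hj]
  rw [h1]
  apply Nat.mul_le_mul_right
  have h2 : x i / 40 ^ j < R * 40 ^ (k - j) := by
    rw [Nat.div_lt_iff_lt_mul (by positivity), ← h1]
    exact hx i
  exact h2

private lemma H1_inR' (R k j : ℕ) (hj : j < k) (x z1 : Fin d → ℕ) (hx : ∀ i, x i < R * 40 ^ k)
    (hz : par z1 = anc (j + 1) x) : inR (R * 40 ^ k) j z1 := by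
  intro i
  have h1 := H1_inR R k (j + 1) hj x hx i
  have h2 : z1 i / 40 = anc (j + 1) x i := congrFun hz i
  rw [← h2] at h1
  have h3 : z1 i + 1 ≤ (z1 i / 40 + 1) * 40 := by omega
  calc (z1 i + 1) * 40 ^ j ≤ ((z1 i / 40 + 1) * 40) * 40 ^ j := Nat.mul_le_mul_right _ h3
    _ = (z1 i / 40 + 1) * 40 ^ (j + 1) := by rw [pow_succ]; ring
    _ ≤ R * 40 ^ k := h1

private lemma H1_sum (c ρ : ℝ) (m : ℕ) :
    ∑ j ∈ Finset.range m, (ρ / 2 ^ (j + 1) + c * (ρ / 2 ^ j)) = (1 + 2 * c) * ρ * (1 - 1 / 2 ^ m) := by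
  induction m with
  | zero => simp
  | succ m ih =>
    rw [Finset.sum_range_succ, ih, pow_succ]
    have : (2 : ℝ) ^ m ≠ 0 := by positivity
    field_simp
    ring

open scoped Classical in
/-- The sub-blocks near `anc j x`. -/
private noncomputable def H1_N (j : ℕ) (x : Fin d → ℕ) : Finset (Fin d → ℕ) :=
  (Fintype.piFinset (fun i => Finset.Ico (anc j x i - 9) (anc j x i + 10))).filter
    (fun z => par z = anc (j + 1) x)

private lemma H1_card (j : ℕ) (x : Fin d → ℕ) : ((H1_N j x).card : ℝ) ≤ 20 ^ d := by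
  classical
  have h1 : (H1_N j x).card ≤ 20 ^ d := by
    unfold H1_N
    refine le_trans (Finset.card_filter_le _ _) ?_
    rw [Fintype.card_piFinset]
    refine le_trans (Finset.prod_le_prod' (g := fun _ => 20) ?_) ?_
    · intro i _
      rw [Nat.card_Ico]
      omega
    · simp
  exact_mod_cast h1

/-- Row H1. As `lost_prob` (file 29v_P4.lean) for a site `x` of the region `[0, R * 40 ^ k)^d` and its own block `anc k x` of level `k`
(`inR (R * 40 ^ k) k (anc k x)`, and the sub-blocks of blocks in the region are in the region). -/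
lemma lost_prob2 (hd : 2 ≤ d) {p s ρ0 : ℝ} (h0 : 0 ≤ p) (h1 : p ≤ 1) (g0 : 0 ≤ s) (g1 : s ≤ 1)
    (B : (Fin d → ℕ) → (E → Bool) → (E → Bool) → Prop) (D : (Fin d → ℕ) → Set E) (k R : ℕ)
    (hB : ∀ z ω ω' η η', (∀ e ∈ D z, ω e = ω' e) → (∀ e ∈ D z, η e = η' e) → (B z ω η ↔ B z ω' η'))
    (hD : ∀ z z', (∀ i, z i < R * 40 ^ k) → (∀ i, z' i < R * 40 ^ k) → (∃ i, z i + 8 ≤ z' i) →
      Disjoint (D z) (D z'))
    (hP : ∀ z, (∀ i, z i < R * 40 ^ k) → P2 p s (B z) ≤ ρ0) (hρ0 : 0 ≤ ρ0)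
    (hρ : 2 * (40 : ℝ) ^ (2 * d) * ρ0 ≤ 1) (x : Fin d → ℕ) (hx : ∀ i, x i < R * 40 ^ k) :
    P2 p s (fun ω η => ¬ hcore (fun z => B z ω η) k (anc k x) x) ≤ 4 * 20 ^ d * ρ0 := by
  classical
  have hbp : ∀ (j : ℕ) (Z : Fin d → ℕ), inR (R * 40 ^ k) j Z →
      P2 p s (fun ω η => hbad (fun z => B z ω η) j Z) ≤ ρ0 / 2 ^ j := fun j Z hZ =>
    bad_prob h0 h1 g0 g1 B D (R * 40 ^ k) hB hD hP hρ0 hρ j Z hZ
  have hstep : ∀ j ∈ Finset.range k,
      P2 p s (fun ω η => hbad (fun z => B z ω η) (j + 1) (anc (j + 1) x) ∨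
        ∃ z1 ∈ H1_N j x, hbad (fun z => B z ω η) j z1) ≤
        ρ0 / 2 ^ (j + 1) + 20 ^ d * (ρ0 / 2 ^ j) := by
    intro j hj
    rw [Finset.mem_range] at hj
    refine le_trans (H1_or h0 h1 g0 g1 _ _) ?_
    refine add_le_add (hbp (j + 1) _ (H1_inR R k (j + 1) hj x hx)) ?_
    refine le_trans (P2_ex h0 h1 g0 g1 (H1_N j x)
      (fun z1 ω η => hbad (fun z => B z ω η) j z1)) ?_
    refine le_trans (Finset.sum_le_card_nsmul _ _ (ρ0 / 2 ^ j) ?_) ?_
    · intro z1 hz1
      unfold H1_N at hz1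
      rw [Finset.mem_filter] at hz1
      exact hbp j z1 (H1_inR' R k j hj x z1 hx hz1.2)
    · rw [nsmul_eq_mul]
      exact mul_le_mul_of_nonneg_right (H1_card j x) (by positivity)
  have hmain : P2 p s (fun ω η => ¬ hcore (fun z => B z ω η) k (anc k x) x) ≤
      P2 p s (fun ω η => hbad (fun z => B z ω η) k (anc k x) ∨
        ∃ j ∈ Finset.range k, (hbad (fun z => B z ω η) (j + 1) (anc (j + 1) x) ∨
          ∃ z1 ∈ H1_N j x, hbad (fun z => B z ω η) j z1)) := by
    refine P2_mono h0 h1 g0 g1 ?_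
    intro ω η h
    rcases lost hd (fun z => B z ω η) k x h with h2 | ⟨j, hj, h2⟩
    · exact Or.inl h2
    · refine Or.inr ⟨j, Finset.mem_range.mpr hj, ?_⟩
      rcases h2 with h2 | ⟨z1, hz1, hb, hn⟩
      · exact Or.inl h2
      · refine Or.inr ⟨z1, ?_, hb⟩
        unfold H1_N
        rw [Finset.mem_filter, Fintype.mem_piFinset]
        refine ⟨fun i => ?_, hz1⟩
        rw [Finset.mem_Ico]
        have := hn i
        omega
  refine le_trans hmain ?_
  refine le_trans (H1_or h0 h1 g0 g1 _ _) ?_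
  have hA := hbp k _ (H1_inR R k k le_rfl x hx)
  have hB2 := P2_ex h0 h1 g0 g1 (Finset.range k)
    (fun j ω η => hbad (fun z => B z ω η) (j + 1) (anc (j + 1) x) ∨
          ∃ z1 ∈ H1_N j x, hbad (fun z => B z ω η) j z1)
  have hC := Finset.sum_le_sum hstep
  rw [H1_sum] at hC
  have hc1 : (1 : ℝ) ≤ 20 ^ d := one_le_pow₀ (by norm_num)
  have hq : (0 : ℝ) < 1 / 2 ^ k := by positivity
  have hq1 : (1 : ℝ) / 2 ^ k ≤ 1 := by
    rw [div_le_one (by positivity)]
    exact one_le_pow₀ (by norm_num)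
  have hfin : ρ0 / 2 ^ k + (1 + 2 * 20 ^ d) * ρ0 * (1 - 1 / 2 ^ k) ≤ 4 * 20 ^ d * ρ0 := by
    have e1 : ρ0 / 2 ^ k + (1 + 2 * 20 ^ d) * ρ0 * (1 - 1 / 2 ^ k) =
        ρ0 + 2 * 20 ^ d * ρ0 * (1 - 1 / 2 ^ k) := by ring
    rw [e1]
    have e2 : 2 * 20 ^ d * ρ0 * (1 - 1 / 2 ^ k) ≤ 2 * 20 ^ d * ρ0 * 1 := by
      apply mul_le_mul_of_nonneg_left (by linarith) (by positivity)
    have e3 : ρ0 ≤ 20 ^ d * ρ0 := by nlinarith
    nlinarith
  linarith

/-- Row H2. Deterministic. If all blocks `Z ∈ [0, R)^d` of level `k` are good then all sites in their cores have the same value of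
`cm`: `core_const` (both parts), `core_ne` (good blocks have nonempty cores); two blocks of `[0, R)^d` are joined by a path of adjacent
blocks in `[0, R)^d` (change one coordinate after the other in steps of one). -/
lemma core_const2 (hd : 2 ≤ d) {κ : Type*} (b : (Fin d → ℕ) → Prop) (cm : (Fin d → ℕ) → κ)
    (hcm : ∀ z z', adj z z' → ¬ b z → ¬ b z' → cm z = cm z') (k R : ℕ)
    (hg : ∀ Z : Fin d → ℕ, (∀ i, Z i < R) → ¬ hbad b k Z) (Z Z' : Fin d → ℕ) (hZ : ∀ i, Z i < R)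
    (hZ' : ∀ i, Z' i < R) (x x' : Fin d → ℕ) (hx : hcore b k Z x) (hx' : hcore b k Z' x') :
    cm x = cm x' := by
  have key : ∀ N : ℕ, ∀ Z Z' : Fin d → ℕ, (∑ i, ((Z i - Z' i) + (Z' i - Z i))) = N →
      (∀ i, Z i < R) → (∀ i, Z' i < R) → ∀ x x', hcore b k Z x → hcore b k Z' x' →
      cm x = cm x' := by
    intro N
    induction N using Nat.strong_induction_on with
    | _ N ih =>
      intro Z Z' hN hZ hZ' x x' hx hx'
      by_cases h : Z = Z'
      · subst h
        exact (core_const hd b cm hcm k).1 Z (hg Z hZ) x x' hx hx'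
      · obtain ⟨i, hi⟩ := Function.ne_iff.mp h
        obtain ⟨v, hv1, hv2, hv3⟩ : ∃ v, (v = Z i + 1 ∨ Z i = v + 1) ∧ v < R ∧
            (v - Z' i) + (Z' i - v) < (Z i - Z' i) + (Z' i - Z i) := by
          rcases lt_or_gt_of_ne hi with h1 | h1
          · exact ⟨Z i + 1, Or.inl rfl, by have := hZ' i; omega, by omega⟩
          · exact ⟨Z i - 1, Or.inr (by omega), by have := hZ i; omega, by omega⟩
        have hW : ∀ j, Function.update Z i v j < R := by
          intro j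
          by_cases hj : j = i
          · subst hj
            simpa using hv2
          · rw [Function.update_of_ne hj]
            exact hZ j
        have hadj : adj Z (Function.update Z i v) :=
          ⟨i, by simpa using hv1, fun j hj => by rw [Function.update_of_ne hj]⟩
        obtain ⟨y, hy⟩ := core_ne hd k (Function.update Z i v) (hg _ hW)
        have h1 : cm x = cm y :=
          (core_const hd b cm hcm k).2 Z _ (hg Z hZ) (hg _ hW) hadj x y hx hy
        have h2 : cm y = cm x' := by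
          refine ih _ ?_ (Function.update Z i v) Z' rfl hW hZ' y x' hy hx'
          rw [← hN]
          refine Finset.sum_lt_sum (fun j _ => ?_) ⟨i, Finset.mem_univ i, ?_⟩
          · by_cases hj : j = i
            · subst hj
              simpa using hv3.le
            · rw [Function.update_of_ne hj]
          · simpa using hv3
        exact h1.trans h2
  exact key _ Z Z' rfl hZ hZ' x x' hx hx'

/-- Row H3. With probability at least `1 - R^d ρ0` all sites of the region which are in the cores have the same value of `cm`: if not, then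
by `core_const2` some block `Z ∈ [0, R)^d` is bad (`anc k x i < R` for `x i < R * 40 ^ k`); `P2_ex` over
`Fintype.piFinset (fun _ => Finset.range R)`, `bad_prob` (`inR (R * 40 ^ k) k Z`). -/
theorem hier2 (hd : 2 ≤ d) {κ : Type*} {p s ρ0 : ℝ} (h0 : 0 ≤ p) (h1 : p ≤ 1) (g0 : 0 ≤ s) (g1 : s ≤ 1)
    (B : (Fin d → ℕ) → (E → Bool) → (E → Bool) → Prop) (D : (Fin d → ℕ) → Set E) (k R : ℕ)
    (hB : ∀ z ω ω' η η', (∀ e ∈ D z, ω e = ω' e) → (∀ e ∈ D z, η e = η' e) → (B z ω η ↔ B z ω' η'))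
    (hD : ∀ z z', (∀ i, z i < R * 40 ^ k) → (∀ i, z' i < R * 40 ^ k) → (∃ i, z i + 8 ≤ z' i) →
      Disjoint (D z) (D z'))
    (hP : ∀ z, (∀ i, z i < R * 40 ^ k) → P2 p s (B z) ≤ ρ0) (hρ0 : 0 ≤ ρ0)
    (hρ : 2 * (40 : ℝ) ^ (2 * d) * ρ0 ≤ 1)
    (cm : (E → Bool) → (E → Bool) → (Fin d → ℕ) → κ)
    (hcm : ∀ ω η z z', adj z z' → ¬ B z ω η → ¬ B z' ω η → cm ω η z = cm ω η z') :
    P2 p s (fun ω η => ∃ x x' : Fin d → ℕ, (∀ i, x i < R * 40 ^ k) ∧ (∀ i, x' i < R * 40 ^ k) ∧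
      hcore (fun z => B z ω η) k (anc k x) x ∧ hcore (fun z => B z ω η) k (anc k x') x' ∧
      cm ω η x ≠ cm ω η x') ≤ R ^ d * ρ0 := by
  have hanc : ∀ x : Fin d → ℕ, (∀ i, x i < R * 40 ^ k) → ∀ i, anc k x i < R := by
    intro x hx i
    exact (Nat.div_lt_iff_lt_mul (by positivity)).2 (hx i)
  have h2 : P2 p s (fun ω η => ∃ x x' : Fin d → ℕ, (∀ i, x i < R * 40 ^ k) ∧
      (∀ i, x' i < R * 40 ^ k) ∧
      hcore (fun z => B z ω η) k (anc k x) x ∧ hcore (fun z => B z ω η) k (anc k x') x' ∧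
      cm ω η x ≠ cm ω η x') ≤
      P2 p s (fun ω η => ∃ Z ∈ Fintype.piFinset (fun _ : Fin d => Finset.range R),
        hbad (fun z => B z ω η) k Z) := by
    apply P2_mono h0 h1 g0 g1
    rintro ω η ⟨x, x', hx, hx', hc, hc', hne⟩
    by_contra hcon
    apply hne
    refine core_const2 hd (fun z => B z ω η) (cm ω η) (fun z z' => hcm ω η z z') k R ?_
      (anc k x) (anc k x') (hanc x hx) (hanc x' hx') x x' hc hc'
    intro Z hZ hb
    exact hcon ⟨Z, Fintype.mem_piFinset.2 (fun i => Finset.mem_range.2 (hZ i)), hb⟩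
  refine h2.trans ((P2_ex h0 h1 g0 g1 _ _).trans ?_)
  have h3 : ∀ Z ∈ Fintype.piFinset (fun _ : Fin d => Finset.range R),
      P2 p s (fun ω η => hbad (fun z => B z ω η) k Z) ≤ ρ0 := by
    intro Z hZ
    have hZ' : ∀ i, Z i < R := fun i => Finset.mem_range.1 (Fintype.mem_piFinset.1 hZ i)
    have h4 := bad_prob h0 h1 g0 g1 B D (R * 40 ^ k) hB hD hP hρ0 hρ k Z
      (fun i => Nat.mul_le_mul_right _ (hZ' i))
    refine h4.trans (div_le_self hρ0 (one_le_pow₀ (by norm_num)))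
  refine (Finset.sum_le_sum h3).trans ?_
  rw [Finset.sum_const, Fintype.card_piFinset_const, Finset.card_range, nsmul_eq_mul]
  push_cast
  exact le_refl _

end Pool.Agent.PERC29.AE
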