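import Pool.Agent.Lib.MP_29e17e_pr.V.Bg
import Pool.Agent.Lib.MP_29e17e_pr.Y.H2
import Pool.Agent.Lib.MP_29e17e_pr.Y.Ms
import Pool.Agent.Lib.MP_29e17e_pr.Y.To

set_option autoImplicit false
set_option linter.unusedSectionVars false

/-! Rows 29w-A1 .. 29w-A5: assembly on the torus. -/

open Finset

namespace Pool.Agent.PERC29.AE

/-- The sites `[0, L)^d`. -/
def sts (d L : ℕ) : Finset (Fin d → ℕ) := Fintype.piFinset (fun _ : Fin d => Finset.range L)

/-- The main vertex `y` of a good box (cubes `bT d m`, threshold `A2'`). -/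
def Mv {d m : ℕ} [Fintype (boxG d (8 * m)).edgeSet] (ω η : (boxG d (8 * m)).edgeSet → Bool) (A2' b : ℝ)
    (y : Fin d → Fin (8 * m)) : Prop :=
  ∀ c : Fin d → Bool, 4 * b ≤ ((Lam (gends (boxG d (8 * m))) ω (bT d m c) A2').card : ℝ) ∧
    ((open scoped Classical in (Lam (gends (boxG d (8 * m))) ω (bT d m c) A2').filter
      (fun x => x ∉ cl (gends (boxG d (8 * m))) (orc ω η) Set.univ y)).card : ℝ) ≤ b

private lemma A1_fil {V V' : Type} [DecidableEq V] [DecidableEq V'] {G : SimpleGraph V} {G' : SimpleGraph V'}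
    (φ : G ↪g G') (S C : Finset V) (C' : Finset V') (h : C' = C.map φ.toEmbedding)
    [DecidablePred (fun x : V' => x ∉ C')] [DecidablePred (fun x : V => x ∉ C)] :
    ((S.map φ.toEmbedding).filter (fun x => x ∉ C')).card = (S.filter (fun x => x ∉ C)).card := by
  have h2 : (S.map φ.toEmbedding).filter (fun x => x ∉ C') =
      (S.filter (fun x => x ∉ C)).map φ.toEmbedding := by
    ext z
    simp only [Finset.mem_filter, Finset.mem_map]
    constructor
    · rintro ⟨⟨x, hx, rfl⟩, hz⟩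
      refine ⟨x, ⟨hx, fun hxC => hz ?_⟩, rfl⟩
      rw [h]
      exact Finset.mem_map_of_mem _ hxC
    · rintro ⟨x, ⟨hx, hz⟩, rfl⟩
      refine ⟨⟨x, hx, rfl⟩, fun hxC => hz ?_⟩
      rw [h] at hxC
      exact (Finset.mem_map' _).1 hxC
  rw [h2, Finset.card_map]

/-- Row A1. The property `Mv` seen in the torus: `lam_emb`, `cl_emb` with `S = univ` (`Set.image_univ`), `orc (pul φ ω) (pul φ η) = pul φ (orc ω η)`
(as in the proof of `good_emb`, finished file 29v_B4.lean). -/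
lemma Mv_emb {d m n : ℕ} [NeZero n] [Fintype (boxG d (8 * m)).edgeSet] [Fintype (torG d n).edgeSet]
    (φ : boxG d (8 * m) ↪g torG d n) {A2' b : ℝ} (ω η : (torG d n).edgeSet → Bool)
    (y : Fin d → Fin (8 * m)) (hy : Mv (pul φ ω) (pul φ η) A2' b y) (c : Fin d → Bool) :
    4 * b ≤ ((Lam (gends (torG d n)) ω ((bT d m c).map φ.toEmbedding) A2').card : ℝ) ∧
    ((open scoped Classical in (Lam (gends (torG d n)) ω ((bT d m c).map φ.toEmbedding) A2').filter
      (fun x => x ∉ cl (gends (torG d n)) (orc ω η) (Set.range φ) (φ y))).card : ℝ) ≤ b := by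
  classical
  have hcl : cl (gends (torG d n)) (orc ω η) (Set.range φ) (φ y) =
      (cl (gends (boxG d (8 * m))) (orc (pul φ ω) (pul φ η)) Set.univ y).map φ.toEmbedding := by
    have h := cl_emb φ (orc ω η) Set.univ y
    rw [Set.image_univ] at h
    exact h
  have h := hy c
  rw [lam_emb, Finset.card_map, A1_fil φ _ _ _ hcl]
  exact h

/-- Row A1 (second half). Adjacent boxes have the same main component: `tor_share` (common cube), `Mv_emb`, `good_adj`. -/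
lemma tor_adj {d m n : ℕ} [NeZero n] [Fintype (boxG d (8 * m)).edgeSet] [Fintype (torG d n).edgeSet]
    (z z' : Fin d → ℕ) (ha : adj z z') (hz : ∀ i, m * z i + 8 * m ≤ n)
    (hz' : ∀ i, m * z' i + 8 * m ≤ n) (φ φ' : boxG d (8 * m) ↪g torG d n)
    (hφ : ∀ x i, φ x i = ((m * z i + (x i : ℕ) : ℕ) : ZMod n))
    (hφ' : ∀ x i, φ' x i = ((m * z' i + (x i : ℕ) : ℕ) : ZMod n)) {A2' b : ℝ} (hb : 0 < b)
    (ω η : (torG d n).edgeSet → Bool) (y y' : Fin d → Fin (8 * m))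
    (hy : Mv (pul φ ω) (pul φ η) A2' b y) (hy' : Mv (pul φ' ω) (pul φ' η) A2' b y') :
    cu (gends (torG d n)) (orc ω η) (φ y) = cu (gends (torG d n)) (orc ω η) (φ' y') := by
  obtain ⟨i, hi, hj⟩ := ha
  rcases hi with hi | hi
  · exact good_adj (Set.range φ) (Set.range φ') (fun c => (bT d m c).map φ.toEmbedding)
      (fun c => (bT d m c).map φ'.toEmbedding) A2' b hb (fun j => decide (j = i)) (fun _ => false)
      (tor_share z z' i hi hj hz hz' φ φ' hφ hφ') (φ y) (φ' y') (Mv_emb φ ω η y hy)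
      (Mv_emb φ' ω η y' hy')
  · exact good_adj (Set.range φ) (Set.range φ') (fun c => (bT d m c).map φ.toEmbedding)
      (fun c => (bT d m c).map φ'.toEmbedding) A2' b hb (fun _ => false) (fun j => decide (j = i))
      (tor_share z' z i hi (fun j h => (hj j h).symm) hz' hz φ' φ hφ' hφ).symm (φ y) (φ' y')
      (Mv_emb φ ω η y hy) (Mv_emb φ' ω η y' hy')

/-- Row A2. If the main components of the boxes of `K` are all the component of `v` then it has at least `3 b |K|` points: `good_count` with the cubes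
`(bT d m (fun _ => false)).map (φ z)` (disjoint: `tor_cube`), `Mv_emb` (`Finset.map` and the classical filter as there). If `K = ∅` it is clear. -/
lemma tor_count {d m n : ℕ} [NeZero n] [Fintype (boxG d (8 * m)).edgeSet] [Fintype (torG d n).edgeSet]
    (K : Finset (Fin d → ℕ)) (hz : ∀ z ∈ K, ∀ i, m * z i + 8 * m ≤ n)
    (φ : (Fin d → ℕ) → (boxG d (8 * m) ↪g torG d n))
    (hφ : ∀ z ∈ K, ∀ x i, φ z x i = ((m * z i + (x i : ℕ) : ℕ) : ZMod n)) {A2' b : ℝ} (hb : 0 < b)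
    (ω η : (torG d n).edgeSet → Bool) (y : (Fin d → ℕ) → (Fin d → Fin (8 * m))) (v : Fin d → ZMod n)
    (hy : ∀ z ∈ K, Mv (pul (φ z) ω) (pul (φ z) η) A2' b (y z))
    (hK : ∀ z ∈ K, cu (gends (torG d n)) (orc ω η) (φ z (y z)) = cu (gends (torG d n)) (orc ω η) v) :
    3 * b * (K.card : ℝ) ≤ cz (gends (torG d n)) (orc ω η) v := by
  classical
  rcases K.eq_empty_or_nonempty with hK0 | ⟨z0, hz0⟩
  · rw [hK0, Finset.card_empty, Nat.cast_zero, mul_zero]
    exact cz_nonneg _ _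
  · have h := good_count (ends := gends (torG d n)) (ω := ω) (η := η) K
      (fun z => Set.range (φ z)) (fun z => (bT d m (fun _ => false)).map (φ z).toEmbedding)
      (fun z => φ z (y z)) A2' b
      (fun z hz1 z' hz1' hne => tor_cube z z' (hz z hz1) (hz z' hz1') (φ z) (φ z') (hφ z hz1)
        (hφ z' hz1') hne)
      (fun z hz1 => Mv_emb (φ z) ω η (y z) (hy z hz1) (fun _ => false))
      (fun z hz1 z' hz1' => (hK z hz1).trans (hK z' hz1').symm) z0 hz0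
    have e : cz (gends (torG d n)) (orc ω η) (φ z0 (y z0)) = cz (gends (torG d n)) (orc ω η) v := by
      unfold cz
      rw [hK z0 hz0]
    rw [← e]
    exact h

private lemma A3_good {d : ℕ} {b : (Fin d → ℕ) → Prop} (j : ℕ) :
    ∀ (Z x : Fin d → ℕ), hcore b j Z x → ¬ b x := by
  induction j with
  | zero =>
    intro Z x h
    obtain ⟨rfl, h⟩ := h
    exact h
  | succ j ih =>
    intro Z x h
    obtain ⟨z, -, -, h⟩ := h
    exact ih z x h

open scoped Classical in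
/-- Markov's inequality for the number of lost sites. -/
private lemma A3_markov {E : Type*} [Fintype E] [DecidableEq E] {p s c : ℝ} (h0 : 0 ≤ p) (h1 : p ≤ 1)
    (g0 : 0 ≤ s) (g1 : s ≤ 1) {κ : Type*} (T : Finset κ) {N : ℝ} (hTc : (T.card : ℝ) = N) (hN : 0 < N)
    (core : κ → (E → Bool) → (E → Bool) → Prop) (A G : (E → Bool) → (E → Bool) → Prop)
    (hc : ∀ z ∈ T, P2 p s (fun ω η => ¬ core z ω η) ≤ c)
    (hA : ∀ ω η, G ω η → N / 2 ≤ ((T.filter (fun z => core z ω η)).card : ℝ) → ¬ A ω η) :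
    P2 p s A ≤ P2 p s (fun ω η => ¬ G ω η) + 2 * c := by
  have hpt : ∀ ω η, (if A ω η then (1 : ℝ) else 0) ≤ (if ¬ G ω η then (1 : ℝ) else 0) +
      2 / N * ∑ x ∈ T, (if ¬ core x ω η then (1 : ℝ) else 0) := by
    intro ω η
    have hs0 : 0 ≤ ∑ x ∈ T, (if ¬ core x ω η then (1 : ℝ) else 0) :=
      Finset.sum_nonneg fun x _ => by split_ifs <;> norm_num
    have hs1 : 0 ≤ 2 / N * ∑ x ∈ T, (if ¬ core x ω η then (1 : ℝ) else 0) :=
      mul_nonneg (by positivity) hs0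
    by_cases hG : G ω η
    · rw [if_neg (not_not.2 hG)]
      by_cases hl : (∑ x ∈ T, (if ¬ core x ω η then (1 : ℝ) else 0)) ≤ N / 2
      · have h3 : (((T.filter (fun x => core x ω η)).card : ℕ) : ℝ) +
            (((T.filter (fun x => ¬ core x ω η)).card : ℕ) : ℝ) = N := by
          rw [← hTc]
          exact_mod_cast Finset.card_filter_add_card_filter_not (s := T) (fun x => core x ω η)
        have h4 : (∑ x ∈ T, (if ¬ core x ω η then (1 : ℝ) else 0)) =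
            (((T.filter (fun x => ¬ core x ω η)).card : ℕ) : ℝ) := by
          rw [Finset.sum_boole]
        rw [h4] at hl
        rw [if_neg (hA ω η hG (by linarith))]
        linarith
      · have h5 : N / 2 < ∑ x ∈ T, (if ¬ core x ω η then (1 : ℝ) else 0) := not_le.1 hl
        have h6 : 1 ≤ 2 / N * ∑ x ∈ T, (if ¬ core x ω η then (1 : ℝ) else 0) := by
          calc (1 : ℝ) = 2 / N * (N / 2) := by field_simp
            _ ≤ _ := mul_le_mul_of_nonneg_left h5.le (by positivity)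
        have h7 : (if A ω η then (1 : ℝ) else 0) ≤ 1 := by split_ifs <;> norm_num
        linarith
    · rw [if_pos hG]
      have h7 : (if A ω η then (1 : ℝ) else 0) ≤ 1 := by split_ifs <;> norm_num
      linarith
  have h7 : P2 p s A ≤ P2 p s (fun ω η => ¬ G ω η) +
      2 / N * ∑ x ∈ T, P2 p s (fun ω η => ¬ core x ω η) := by
    unfold P2
    refine (Ex_mono h0 h1 fun ω => Ex_mono g0 g1 fun η => hpt ω η).trans (le_of_eq ?_)
    have h9 : ∀ ω : E → Bool, Ex s (fun η => (if ¬ G ω η then (1 : ℝ) else 0) +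
        2 / N * ∑ x ∈ T, (if ¬ core x ω η then (1 : ℝ) else 0)) =
        Ex s (fun η => if ¬ G ω η then (1 : ℝ) else 0) +
          2 / N * ∑ x ∈ T, Ex s (fun η => if ¬ core x ω η then (1 : ℝ) else 0) := by
      intro ω
      rw [Ex_add, Ex_mul_left, Ex_sum]
    rw [Ex_congr h9, Ex_add, Ex_mul_left, Ex_sum]
    congr!
  have h11 : 2 / N * ∑ x ∈ T, P2 p s (fun ω η => ¬ core x ω η) ≤ 2 * c := by
    have h12 : ∑ x ∈ T, P2 p s (fun ω η => ¬ core x ω η) ≤ N * c := by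
      rw [← hTc, ← nsmul_eq_mul]
      exact Finset.sum_le_card_nsmul _ _ _ fun x hx => hc x hx
    calc _ ≤ 2 / N * (N * c) := mul_le_mul_of_nonneg_left h12 (by positivity)
      _ = 2 * c := by field_simp
  linarith

open scoped Classical in
/-- Row A3. The hierarchy in the torus. `B z ω η := (∃ i, L ≤ z i) ∨ ¬ GoodB (gends (boxG d (8 * m))) (pul (φ z) ω) (pul (φ z) η) univ (bT d m) A2' b`,
`D z = {e | ∀ v ∈ gends _ e, v ∈ Set.range (φ z)}` for `z ∈ [0, L)^d` and `∅` otherwise. `hB`: `good_emb` and `good_dep` (or directly: `pul (φ z) ω` depends only on the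
edges `(φ z).mapEdgeSet e`, which are in `D z`); `hD`: `tor_far` (an edge with both ends in two disjoint sets does not exist);
`hP`: `P2_pul`. `cm ω η z = cu (gends (torG d n)) (orc ω η) (φ z (y z))` with `y z` a choice of the main vertex (`Mv`) if the box is good. `hcm`: for adjacent
`z`, `z'` (both in `[0, L)^d`) `tor_adj`; `GoodB ↔ ∃ y, Mv y` by definition. `core z ω η := hcore (fun z => B z ω η) k (anc k z) z`; a site in
the core is not `B` (induction on the level: `hcore b j Z x → ¬ b x`). `G ω η :=` all sites in the core have the same `cm`; `hier2`, `lost_prob2`. `y0 ω η := φ z0 (y z0)` for some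
site `z0` in the core (any vertex if there is none). Last statement: if `G` holds and at most half of the sites are not in the core then
`tor_count` for the sites of the core gives `3 b L^d / 2 ≤ cz (y0)`; the number of lost sites has mean at most `L^d * 4 * 20^d ρ0`: Markov. -/
theorem tor_hier {d m n k R : ℕ} [NeZero n] [Fintype (boxG d (8 * m)).edgeSet]
    [Fintype (torG d n).edgeSet] (hd : 2 ≤ d) (hm : 1 ≤ m) (hR : 1 ≤ R) (hL : m * (R * 40 ^ k) + 7 * m ≤ n)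
    (hn : 8 * m < n) (φ : (Fin d → ℕ) → (boxG d (8 * m) ↪g torG d n))
    (hφ : ∀ z, (∀ i, z i < R * 40 ^ k) → ∀ x i, φ z x i = ((m * z i + (x i : ℕ) : ℕ) : ZMod n))
    {p s ρ0 A2' b : ℝ} (h0 : 0 ≤ p) (h1 : p ≤ 1) (g0 : 0 ≤ s) (g1 : s ≤ 1) (hb : 0 < b) (hρ0 : 0 ≤ ρ0)
    (hρ : 2 * (40 : ℝ) ^ (2 * d) * ρ0 ≤ 1)
    (hgood : P2 p s (fun ω η => ¬ GoodB (gends (boxG d (8 * m))) ω η Set.univ (bT d m) A2' b) ≤ ρ0) :
    ∃ (y0 : ((torG d n).edgeSet → Bool) → ((torG d n).edgeSet → Bool) → (Fin d → ZMod n))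
      (core : (Fin d → ℕ) → ((torG d n).edgeSet → Bool) → ((torG d n).edgeSet → Bool) → Prop)
      (G : ((torG d n).edgeSet → Bool) → ((torG d n).edgeSet → Bool) → Prop),
      P2 p s (fun ω η => ¬ G ω η) ≤ R ^ d * ρ0 ∧
      (∀ z ∈ sts d (R * 40 ^ k), P2 p s (fun ω η => ¬ core z ω η) ≤ 4 * 20 ^ d * ρ0) ∧
      (∀ ω η, G ω η → ∀ z ∈ sts d (R * 40 ^ k), core z ω η → ∃ y : Fin d → Fin (8 * m),
        Mv (pul (φ z) ω) (pul (φ z) η) A2' b y ∧
        cu (gends (torG d n)) (orc ω η) (φ z y) = cu (gends (torG d n)) (orc ω η) (y0 ω η)) ∧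
      P2 p s (fun ω η => cz (gends (torG d n)) (orc ω η) (y0 ω η) <
        3 * b * ((R : ℝ) * 40 ^ k) ^ d / 2) ≤ R ^ d * ρ0 + 8 * 20 ^ d * ρ0 := by
  obtain ⟨L, hLdef⟩ : ∃ L : ℕ, L = R * 40 ^ k := ⟨_, rfl⟩
  have hLr : ((R : ℝ) * 40 ^ k) = (L : ℝ) := by rw [hLdef]; push_cast; rfl
  have hL0 : 0 < L := by rw [hLdef]; positivity
  have hLn : m * L + 7 * m ≤ n := by rw [hLdef]; exact hL
  have hφL : ∀ z, (∀ i, z i < L) → ∀ x i, φ z x i = ((m * z i + (x i : ℕ) : ℕ) : ZMod n) := by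
    rw [hLdef]; exact hφ
  have hzn : ∀ z : Fin d → ℕ, (∀ i, z i < L) → ∀ i, m * z i + 8 * m ≤ n := by
    intro z hz i
    have h3 : m * (z i + 1) ≤ m * L := Nat.mul_le_mul_left m (hz i)
    have h4 : m * (z i + 1) = m * z i + m := by ring
    omega
  -- the good boxes and their main vertices
  set B : (Fin d → ℕ) → ((torG d n).edgeSet → Bool) → ((torG d n).edgeSet → Bool) → Prop :=
    fun z ω η => (∃ i, L ≤ z i) ∨
      ¬ GoodB (gends (boxG d (8 * m))) (pul (φ z) ω) (pul (φ z) η) Set.univ (bT d m) A2' b with hBdef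
  set D : (Fin d → ℕ) → Set (torG d n).edgeSet := fun z =>
    {e | (∀ i, z i < L) ∧ ∀ v ∈ gends (torG d n) e, v ∈ Set.range (φ z)} with hDdef
  have hGM : ∀ (z : Fin d → ℕ) (ω η : (torG d n).edgeSet → Bool),
      ¬ B z ω η → (∀ i, z i < L) ∧ ∃ y, Mv (pul (φ z) ω) (pul (φ z) η) A2' b y := by
    intro z ω η h
    rw [hBdef] at h
    simp only [not_or, not_not, not_exists, not_le] at h
    obtain ⟨h3, y, -, hy⟩ := h
    exact ⟨h3, y, hy⟩
  set yy : ((torG d n).edgeSet → Bool) → ((torG d n).edgeSet → Bool) → (Fin d → ℕ) →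
      (Fin d → Fin (8 * m)) := fun ω η z =>
    if h : ∃ y, Mv (pul (φ z) ω) (pul (φ z) η) A2' b y then h.choose else fun _ => ⟨0, by omega⟩ with hyy
  have hyyM : ∀ (z : Fin d → ℕ) (ω η : (torG d n).edgeSet → Bool), ¬ B z ω η →
      Mv (pul (φ z) ω) (pul (φ z) η) A2' b (yy ω η z) := by
    intro z ω η h
    have h3 := (hGM z ω η h).2
    simp only [hyy, dif_pos h3]
    exact h3.choose_spec
  set cm : ((torG d n).edgeSet → Bool) → ((torG d n).edgeSet → Bool) → (Fin d → ℕ) →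
      Finset (Fin d → ZMod n) := fun ω η z => cu (gends (torG d n)) (orc ω η) (φ z (yy ω η z)) with hcmdef
  -- the hypotheses of the hierarchy
  have hB : ∀ z ω ω' η η', (∀ e ∈ D z, ω e = ω' e) → (∀ e ∈ D z, η e = η' e) →
      (B z ω η ↔ B z ω' η') := by
    intro z ω ω' η η' h3 h4
    by_cases hz : ∀ i, z i < L
    · have hmem : ∀ e : (boxG d (8 * m)).edgeSet, (φ z).mapEdgeSet e ∈ D z := by
        intro e
        refine ⟨hz, ?_⟩
        intro v hv
        have hv' : v ∈ Sym2.map (φ z) e.1 := hv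
        rw [Sym2.mem_map] at hv'
        obtain ⟨a, -, rfl⟩ := hv'
        exact ⟨a, rfl⟩
      have h5 : pul (φ z) ω = pul (φ z) ω' := funext fun e => h3 _ (hmem e)
      have h6 : pul (φ z) η = pul (φ z) η' := funext fun e => h4 _ (hmem e)
      simp only [hBdef, h5, h6]
    · have hz' : ∃ i, L ≤ z i := by
        by_contra h5
        exact hz fun i => not_le.1 fun h6 => h5 ⟨i, h6⟩
      exact ⟨fun _ => Or.inl hz', fun _ => Or.inl hz'⟩
  have hD : ∀ z z', (∀ i, z i < R * 40 ^ k) → (∀ i, z' i < R * 40 ^ k) → (∃ i, z i + 8 ≤ z' i) →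
      Disjoint (D z) (D z') := by
    intro z z' hz hz' h
    rw [← hLdef] at hz hz'
    have h3 := tor_far z z' (hzn z hz) (hzn z' hz') (φ z) (φ z') (hφL z hz) (hφL z' hz') h
    rw [Set.disjoint_left]
    rintro e ⟨-, he⟩ ⟨-, he'⟩
    have h4 : ∃ v, v ∈ gends (torG d n) e := by
      obtain ⟨e, he⟩ := e
      induction e using Sym2.ind with
      | _ a a' => exact ⟨a, Sym2.mem_mk_left a a'⟩
    obtain ⟨v, hv⟩ := h4
    exact Set.disjoint_left.1 h3 (he v hv) (he' v hv)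
  have hP : ∀ z : Fin d → ℕ, (∀ i, z i < R * 40 ^ k) → P2 p s (B z) ≤ ρ0 := by
    intro z hz
    rw [← hLdef] at hz
    refine le_trans (P2_mono h0 h1 g0 g1 (A' := fun ω η => ¬ GoodB (gends (boxG d (8 * m)))
      (pul (φ z) ω) (pul (φ z) η) Set.univ (bT d m) A2' b) ?_) ?_
    · rintro ω η (⟨i, hi⟩ | h)
      · exact absurd (hz i) (not_lt.2 hi)
      · exact h
    · exact le_trans (le_of_eq (P2_pul (φ z) p s (fun ω η => ¬ GoodB (gends (boxG d (8 * m)))
        ω η Set.univ (bT d m) A2' b))) hgood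
  have hcm : ∀ ω η z z', adj z z' → ¬ B z ω η → ¬ B z' ω η → cm ω η z = cm ω η z' := by
    intro ω η z z' ha hz hz'
    have h3 := (hGM z ω η hz).1
    have h4 := (hGM z' ω η hz').1
    exact tor_adj z z' ha (hzn z h3) (hzn z' h4) (φ z) (φ z') (hφL z h3) (hφL z' h4) hb ω η _ _
      (hyyM z ω η hz) (hyyM z' ω η hz')
  set core : (Fin d → ℕ) → ((torG d n).edgeSet → Bool) → ((torG d n).edgeSet → Bool) → Prop :=
    fun z ω η => hcore (fun z => B z ω η) k (anc k z) z with hcore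
  have hcg : ∀ z ω η, core z ω η → ¬ B z ω η := fun z ω η h => A3_good k _ z h
  have hst : ∀ z : Fin d → ℕ, z ∈ sts d (R * 40 ^ k) ↔ ∀ i, z i < L := by
    intro z
    rw [← hLdef]
    simp [sts, Fintype.mem_piFinset]
  set y0 : ((torG d n).edgeSet → Bool) → ((torG d n).edgeSet → Bool) → (Fin d → ZMod n) :=
    fun ω η => if h : ∃ z, (∀ i, z i < L) ∧ core z ω η then φ h.choose (yy ω η h.choose)
      else fun _ => 0 with hy0
  set G : ((torG d n).edgeSet → Bool) → ((torG d n).edgeSet → Bool) → Prop := fun ω η =>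
    ∀ z z' : Fin d → ℕ, (∀ i, z i < L) → (∀ i, z' i < L) → core z ω η → core z' ω η →
      cm ω η z = cm ω η z' with hG
  have hG3 : ∀ ω η, G ω η → ∀ z : Fin d → ℕ, (∀ i, z i < L) → core z ω η →
      cu (gends (torG d n)) (orc ω η) (φ z (yy ω η z)) =
        cu (gends (torG d n)) (orc ω η) (y0 ω η) := by
    intro ω η hg z hz hc
    have h3 : ∃ z, (∀ i, z i < L) ∧ core z ω η := ⟨z, hz, hc⟩
    have h4 := hg z h3.choose hz h3.choose_spec.1 hc h3.choose_spec.2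
    simp only [hy0, dif_pos h3]
    exact h4
  have c1 : P2 p s (fun ω η => ¬ G ω η) ≤ R ^ d * ρ0 := by
    refine le_trans (P2_mono h0 h1 g0 g1 ?_) (hier2 hd h0 h1 g0 g1 B D k R hB hD hP hρ0 hρ cm hcm)
    intro ω η h
    rw [hG] at h
    push Not at h
    obtain ⟨z, z', hz, hz', hc, hc', hne⟩ := h
    rw [hLdef] at hz hz'
    exact ⟨z, z', hz, hz', hc, hc', hne⟩
  have c2 : ∀ z ∈ sts d (R * 40 ^ k), P2 p s (fun ω η => ¬ core z ω η) ≤ 4 * 20 ^ d * ρ0 := by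
    intro z hz
    have h3 := (hst z).1 hz
    rw [hLdef] at h3
    exact lost_prob2 hd h0 h1 g0 g1 B D k R hB hD hP hρ0 hρ z h3
  refine ⟨y0, core, G, c1, c2, ?_, ?_⟩
  · intro ω η hg z hz hc
    exact ⟨yy ω η z, hyyM z ω η (hcg z ω η hc), hG3 ω η hg z ((hst z).1 hz) hc⟩
  · have hTc : ((sts d (R * 40 ^ k)).card : ℝ) = (L : ℝ) ^ d := by
      rw [← hLdef, sts, Fintype.card_piFinset]
      simp
    have hN : (0 : ℝ) < (L : ℝ) ^ d := by
      have : (0 : ℝ) < L := by exact_mod_cast hL0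
      positivity
    have h3 := A3_markov h0 h1 g0 g1 (sts d (R * 40 ^ k)) hTc hN core
      (fun ω η => cz (gends (torG d n)) (orc ω η) (y0 ω η) < 3 * b * ((R : ℝ) * 40 ^ k) ^ d / 2) G c2 ?_
    · calc _ ≤ _ := h3
        _ ≤ _ := by linarith
    · intro ω η hg hK
      rw [not_lt]
      have h4 := tor_count ((sts d (R * 40 ^ k)).filter (fun z => core z ω η))
        (fun z hz => hzn z ((hst z).1 (Finset.mem_filter.1 hz).1)) φ
        (fun z hz => hφL z ((hst z).1 (Finset.mem_filter.1 hz).1)) hb ω η (yy ω η) (y0 ω η)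
        (fun z hz => hyyM z ω η (hcg z ω η (Finset.mem_filter.1 hz).2))
        (fun z hz => hG3 ω η hg z ((hst z).1 (Finset.mem_filter.1 hz).1) (Finset.mem_filter.1 hz).2)
      refine le_trans ?_ h4
      rw [hLr]
      calc 3 * b * (L : ℝ) ^ d / 2 = 3 * b * ((L : ℝ) ^ d / 2) := by ring
        _ ≤ _ := mul_le_mul_of_nonneg_left hK (by positivity)

private lemma A4_phi {d m n L : ℕ} [NeZero n] (hL : m * L + 7 * m ≤ n) (hn : 8 * m < n) :
    ∃ φ : (Fin d → ℕ) → (boxG d (8 * m) ↪g torG d n),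
      ∀ z, (∀ i, z i < L) → ∀ x i, φ z x i = ((m * z i + (x i : ℕ) : ℕ) : ZMod n) := by
  have h : ∀ z : Fin d → ℕ, ∃ φ : boxG d (8 * m) ↪g torG d n,
      (∀ i, z i < L) → ∀ x i, φ x i = ((m * z i + (x i : ℕ) : ℕ) : ZMod n) := by
    intro z
    by_cases hz : ∀ i, z i < L
    · have hz' : ∀ i, (fun i => m * z i) i + 8 * m ≤ n := by
        intro i
        have h1 : m * (z i + 1) ≤ m * L := Nat.mul_le_mul_left m (hz i)
        show m * z i + 8 * m ≤ n
        nlinarith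
      obtain ⟨φ, hφ⟩ := box_tor (d := d) (l := 8 * m) (n := n) (fun i => m * z i) hz' hn
      exact ⟨φ, fun _ => hφ⟩
    · obtain ⟨φ, hφ⟩ := box_tor (d := d) (l := 8 * m) (n := n) (fun _ => 0)
        (fun i => by omega) hn
      exact ⟨φ, fun h => absurd h hz⟩
  choose φ hφ using h
  exact ⟨φ, hφ⟩

private lemma A4_card (d L : ℕ) : ((sts d L).card : ℝ) = (L : ℝ) ^ d := by
  unfold sts
  rw [Fintype.card_piFinset_const, Finset.card_range]
  push_cast
  rfl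

private lemma A4_mem {d L : ℕ} {z : Fin d → ℕ} (hz : z ∈ sts d L) : ∀ i, z i < L := by
  unfold sts at hz
  intro i
  exact Finset.mem_range.1 (Fintype.mem_piFinset.1 hz i)

section A4

variable {E : Type*} [Fintype E] [DecidableEq E]

open scoped Classical in
private lemma A4_or {p s : ℝ} (h0 : 0 ≤ p) (h1 : p ≤ 1) (g0 : 0 ≤ s) (g1 : s ≤ 1)
    (A B : (E → Bool) → (E → Bool) → Prop) :
    P2 p s (fun ω η => A ω η ∨ B ω η) ≤ P2 p s A + P2 p s B := by
  unfold P2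
  rw [← Ex_add]
  refine Ex_mono h0 h1 fun ω => ?_
  rw [← Ex_add]
  refine Ex_mono g0 g1 fun η => ?_
  by_cases hA : A ω η
  · by_cases hB : B ω η <;> simp [hA, hB]
  · by_cases hB : B ω η <;> simp [hA, hB]

open scoped Classical in
private lemma A4_fst {p s : ℝ} (A : (E → Bool) → Prop) :
    P2 p s (fun ω (_ : E → Bool) => A ω) = Ex p (fun ω => if A ω then (1 : ℝ) else 0) := by
  unfold P2
  exact Ex_congr fun ω => Ex_const _ _

private lemma A4_orc3 (p s1 s2 s3 : ℝ) (f : (E → Bool) → ℝ) :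
    Ex (1 - (1 - p) * (1 - s1) * (1 - s2) * (1 - s3)) f =
      Ex p (fun ω => Ex s1 (fun η1 => Ex s2 (fun η2 => Ex s3 (fun η3 =>
        f (orc (orc (orc ω η1) η2) η3))))) := by
  have e3 : 1 - (1 - p) * (1 - s1) * (1 - s2) * (1 - s3) =
      1 - (1 - (1 - (1 - (1 - (1 - p) * (1 - s1))) * (1 - s2))) * (1 - s3) := by ring
  rw [e3, Ex_orc, Ex_orc, Ex_orc]

private lemma A4_mono {p s1 s2 s3 : ℝ} (h0 : 0 ≤ p) (h1 : p ≤ 1) (h10 : 0 ≤ s1) (h11 : s1 ≤ 1)
    (h20 : 0 ≤ s2) (h21 : s2 ≤ 1) (h30 : 0 ≤ s3) (h31 : s3 ≤ 1)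
    (f a b c : (E → Bool) → (E → Bool) → (E → Bool) → (E → Bool) → ℝ)
    (h : ∀ ω η1 η2 η3, f ω η1 η2 η3 ≤ a ω η1 η2 η3 + (b ω η1 η2 η3 + c ω η1 η2 η3)) :
    Ex p (fun ω => Ex s1 (fun η1 => Ex s2 (fun η2 => Ex s3 (fun η3 => f ω η1 η2 η3)))) ≤
      Ex p (fun ω => Ex s1 (fun η1 => Ex s2 (fun η2 => Ex s3 (fun η3 => a ω η1 η2 η3)))) +
      (Ex p (fun ω => Ex s1 (fun η1 => Ex s2 (fun η2 => Ex s3 (fun η3 => b ω η1 η2 η3)))) +
      Ex p (fun ω => Ex s1 (fun η1 => Ex s2 (fun η2 => Ex s3 (fun η3 => c ω η1 η2 η3))))) := by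
  rw [← Ex_add, ← Ex_add]
  refine Ex_mono h0 h1 fun ω => ?_
  rw [← Ex_add, ← Ex_add]
  refine Ex_mono h10 h11 fun η1 => ?_
  rw [← Ex_add, ← Ex_add]
  refine Ex_mono h20 h21 fun η2 => ?_
  rw [← Ex_add, ← Ex_add]
  exact Ex_mono h30 h31 fun η3 => h ω η1 η2 η3

open scoped Classical in
private lemma A4_G {p s1 s2 s3 : ℝ} (G : (E → Bool) → (E → Bool) → Prop) :
    Ex p (fun ω => Ex s1 (fun η1 => Ex s2 (fun (_ : E → Bool) => Ex s3 (fun (_ : E → Bool) =>
      if ¬ G ω η1 then (1 : ℝ) else 0)))) = P2 p s1 (fun ω η => ¬ G ω η) := by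
  unfold P2
  refine Ex_congr fun ω => Ex_congr fun η1 => ?_
  rw [Ex_const, Ex_const]
  by_cases h : G ω η1 <;> simp [h]

variable {V : Type*} [Fintype V] [DecidableEq V] {ends : E → Sym2 V}

open scoped Classical in
private lemma A4_ceil {P C e t : ℝ} (hC : 0 ≤ C) (ht : 1 ≤ t)
    (hT' : ∀ x, ∀ k : ℕ, 1 ≤ k → Ex P (fun ω =>
      if (k : ℝ) ≤ cz ends ω x then (1 : ℝ) else 0) ≤ C * (1 / Real.sqrt k + e)) (x : V) :
    Ex P (fun ω => if t ≤ cz ends ω x then (1 : ℝ) else 0) ≤ C * (1 / Real.sqrt t + e) := by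
  have hk1 : 1 ≤ ⌈t⌉₊ := Nat.one_le_ceil_iff.2 (by linarith)
  have hle : t ≤ (⌈t⌉₊ : ℝ) := Nat.le_ceil t
  refine le_trans (le_of_eq (Ex_congr fun ω => ?_)) (le_trans (hT' x ⌈t⌉₊ hk1) ?_)
  · have : t ≤ cz ends ω x ↔ ((⌈t⌉₊ : ℕ) : ℝ) ≤ cz ends ω x := by
      unfold cz
      rw [Nat.cast_le, Nat.ceil_le]
    exact if_congr this rfl rfl
  · have h2 : 0 < Real.sqrt t := Real.sqrt_pos.2 (by linarith)
    have h3 : Real.sqrt t ≤ Real.sqrt (⌈t⌉₊ : ℝ) := Real.sqrt_le_sqrt hle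
    have h4 : 1 / Real.sqrt (⌈t⌉₊ : ℝ) ≤ 1 / Real.sqrt t := one_div_le_one_div_of_le h2 h3
    exact mul_le_mul_of_nonneg_left (by linarith) hC

open scoped Classical in
/-- The splitting of the event. -/
private lemma A4_pt {t : ℝ} (β' : E → Bool) (y0 : V) (G : Prop) (S : Finset V → Prop) :
    (if ∃ x x', t ≤ cz ends β' x ∧ t ≤ cz ends β' x' ∧ x' ∉ cu ends β' x then (1 : ℝ) else 0) ≤
      (if ¬ G then (1 : ℝ) else 0) +
      ((if G ∧ ∃ x, t ≤ cz ends β' x ∧ ¬ S (cu ends β' x) then (1 : ℝ) else 0) +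
      (if ∃ x, x ∉ cu ends β' y0 ∧ t ≤ cz ends β' x ∧ S (cu ends β' x) then (1 : ℝ) else 0)) := by
  have n1 : (0 : ℝ) ≤ (if ¬ G then (1 : ℝ) else 0) := by split_ifs <;> norm_num
  have n2 : (0 : ℝ) ≤ (if G ∧ ∃ x, t ≤ cz ends β' x ∧ ¬ S (cu ends β' x) then (1 : ℝ) else 0) := by
    split_ifs <;> norm_num
  have n3 : (0 : ℝ) ≤ (if ∃ x, x ∉ cu ends β' y0 ∧ t ≤ cz ends β' x ∧ S (cu ends β' x)
      then (1 : ℝ) else 0) := by
    split_ifs <;> norm_num
  by_cases hE : ∃ x x', t ≤ cz ends β' x ∧ t ≤ cz ends β' x' ∧ x' ∉ cu ends β' x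
  · rw [if_pos hE]
    obtain ⟨x, x', hx, hx', hxx⟩ := hE
    have h2 : ∃ w, w ∉ cu ends β' y0 ∧ t ≤ cz ends β' w := by
      by_cases h : x ∈ cu ends β' y0
      · refine ⟨x', fun h' => hxx ?_, hx'⟩
        rw [cu_eq h]
        exact h'
      · exact ⟨x, h, hx⟩
    obtain ⟨w, hw1, hw2⟩ := h2
    by_cases hS : S (cu ends β' w)
    · have : (if ∃ x, x ∉ cu ends β' y0 ∧ t ≤ cz ends β' x ∧ S (cu ends β' x)
        then (1 : ℝ) else 0) = 1 := if_pos ⟨w, hw1, hw2, hS⟩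
      linarith
    · by_cases hG : G
      · have : (if G ∧ ∃ x, t ≤ cz ends β' x ∧ ¬ S (cu ends β' x)
          then (1 : ℝ) else 0) = 1 := if_pos ⟨hG, w, hw2, hS⟩
        linarith
      · have : (if ¬ G then (1 : ℝ) else 0) = 1 := if_pos hG
        linarith
  · rw [if_neg hE]
    linarith

end A4

open scoped Classical in
/-- Row A4. Numbers on the torus. Apply `tor_hier` with `s = s1`. `mass_all` with `𝒵 = sts d (R * 40 ^ k)`, `φ z`, `ψ z e = (φ z).mapEdgeSet e`, `endb = gends (boxG ..)`,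
`W = cor d m`, `T = bT d m (fun _ => false)` (`bT_cor`, `bT_card`), `Sl` = the complement of the union of the cubes (`slab_card`), `A z ω η := ¬ core z ω η ∨ BadE2 ..`,
`G`, `y0` from `tor_hier`; `hgood`: `vol_good`, `vol_emb` with `Mv` (`β ≤ 3 b`, `A2 ≤ A2'`; `pl (..mapEdgeSet) ω = pul (φ z) ω` by `rfl`).
`hM2`: `small_box` (`emb_of`, `tor_loc`, `Bd = bdy d (8 * m)`, `tor_deg`). `hM3`: `vt_bad` with `vt_sq` (law of `pul (φ z) ω`: `Ex_pul`), `P2` of the union at most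
`4 * 20^d ρ0 + ρ2` (`P2_pul` for `BadE2`, which does not depend on `η`). `uniq_all`. The event: if there are `x`, `x'` with large clusters and `x'` not in the
cluster of `x`, then one of them is not in the cluster of `y0`; it satisfies `Shb` (`uniq_all`) or not (`mass_all`, if `G` holds), or `G` fails. -/
theorem tor_num {d m n k R : ℕ} [NeZero n] [Fintype (boxG d (8 * m)).edgeSet]
    [Fintype (torG d n).edgeSet] (hd : 2 ≤ d) (hm : 1 ≤ m) (hR : 1 ≤ R) (hL : m * (R * 40 ^ k) + 7 * m ≤ n)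
    (hn : 8 * m < n) {p s1 s2 s3 ρ0 ρ2 A2 A2' b k2 β t C e X δ1 : ℝ} {kk κ j j1 : ℕ}
    (h0 : 0 ≤ p) (h1 : p ≤ 1) (h10 : 0 ≤ s1) (h11 : s1 ≤ 1) (h20 : 0 ≤ s2) (h21 : s2 ≤ 1)
    (h30 : 0 ≤ s3) (h31 : s3 ≤ 1) (hb : 0 < b) (hρ0 : 0 ≤ ρ0) (hρ2 : 0 ≤ ρ2)
    (hρ : 2 * (40 : ℝ) ^ (2 * d) * ρ0 ≤ 1) (hC : 0 ≤ C) (he : 0 ≤ e) (ht : 1 ≤ t) (hA2 : 1 ≤ A2)
    (hAA : A2 ≤ A2') (hk2 : 0 < k2) (hkA : k2 ≤ A2) (hβ0 : 0 ≤ β) (hβb : β ≤ 3 * b)
    (hgood : P2 p s1 (fun ω η => ¬ GoodB (gends (boxG d (8 * m))) ω η Set.univ (bT d m) A2' b) ≤ ρ0)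
    (hE2 : Ex p (fun ω => if BadE2 (gends (boxG d (8 * m))) ω (cor d m) k2 A2 β kk κ j
      then (1 : ℝ) else 0) ≤ ρ2)
    (hX : ∀ x, Ex p (fun ω => cz (gends (boxG d (8 * m))) ω x) ≤ X)
    (hTb : ∀ x ∈ bT d m (fun _ => false),
      Ex p (fun ω => if A2 ≤ cz (gends (boxG d (8 * m))) ω x then (1 : ℝ) else 0) ≤ C / Real.sqrt A2)
    (hbd : ∀ x ∈ bT d m (fun _ => false), Ex p (fun ω : (boxG d (8 * m)).edgeSet → Bool =>
      if ¬ Disjoint (cu (gends (boxG d (8 * m))) ω x) (bdy d (8 * m)) then (1 : ℝ) else 0) ≤ δ1)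
    (hT : ∀ x, ∀ k : ℕ, 1 ≤ k → Ex p (fun ω => if (k : ℝ) ≤ cz (gends (torG d n)) ω x then (1 : ℝ)
      else 0) ≤ C / Real.sqrt k)
    (hT' : ∀ x, ∀ k : ℕ, 1 ≤ k → Ex (1 - (1 - p) * (1 - s1) * (1 - s2) * (1 - s3)) (fun ω =>
      if (k : ℝ) ≤ cz (gends (torG d n)) ω x then (1 : ℝ) else 0) ≤ C * (1 / Real.sqrt k + e))
    (hβ2 : β * ((R : ℝ) * 40 ^ k) ^ d < t / 2) :
    Ex (1 - (1 - p) * (1 - s1) * (1 - s2) * (1 - s3)) (fun ω =>
      if ∃ x x', t ≤ cz (gends (torG d n)) ω x ∧ t ≤ cz (gends (torG d n)) ω x' ∧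
        x' ∉ cu (gends (torG d n)) ω x then (1 : ℝ) else 0) ≤
      R ^ d * ρ0 +
      (((n : ℝ) ^ d - ((m : ℝ) * (R * 40 ^ k)) ^ d) * (C * (1 / Real.sqrt t + e)) +
        ((R : ℝ) * 40 ^ k) ^ d * (m : ℝ) ^ d * (δ1 + 2 * (1 / t + (1 - (1 - s1) * (1 - s2) * (1 - s3)) *
          (2 * d) * (3 * C * Real.sqrt t + C * e * t) / t) * (3 * C * Real.sqrt A2)) +
        ((R : ℝ) * 40 ^ k) ^ d * (Real.sqrt (((m : ℝ) ^ d * (C / Real.sqrt A2)) ^ 2 + (m : ℝ) ^ d * X) *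
          Real.sqrt (4 * 20 ^ d * ρ0 + ρ2))) / (t / 2) +
      1 / t * (((1 - s3) ^ (min (kk + 1) (j1 * κ)) +
        2 ^ j1 * (1 - (1 - (1 - s2) ^ κ) / 2) ^ (2 * j)) * ((n : ℝ) ^ d * (C * (1 / Real.sqrt t + e)))) := by
  obtain ⟨φ, hφ⟩ := A4_phi (d := d) (m := m) (n := n) (L := R * 40 ^ k) hL hn
  obtain ⟨y0, core, G, hG, hcore, hGc, -⟩ := tor_hier hd hm hR hL hn φ hφ h0 h1 h10 h11 hb hρ0 hρ hgood
  have ht0 : 0 < t := by linarith
  have hA20 : 0 < A2 := by linarith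
  have hcast : ((R * 40 ^ k : ℕ) : ℝ) = (R : ℝ) * 40 ^ k := by push_cast; rfl
  have hem : ∀ z ∈ sts d (R * 40 ^ k), Emb (gends (torG d n)) (gends (boxG d (8 * m))) (φ z)
      (fun e => (φ z).mapEdgeSet e) := fun z _ => emb_of (φ z)
  have hT1 : ∀ x, Ex (1 - (1 - p) * (1 - s1) * (1 - s2) * (1 - s3)) (fun ω =>
      if t ≤ cz (gends (torG d n)) ω x then (1 : ℝ) else 0) ≤ C * (1 / Real.sqrt t + e) :=
    fun x => A4_ceil hC ht hT' x
  -- the set of points outside the cubes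
  set Sl : Finset (Fin d → ZMod n) := (Finset.univ : Finset (Fin d → ZMod n)) \
      (Fintype.piFinset (fun _ : Fin d => Finset.range (R * 40 ^ k))).biUnion
        (fun z => (bT d m (fun _ => false)).map (φ z).toEmbedding) with hSl
  have hSlc : (Sl.card : ℝ) = (n : ℝ) ^ d - ((m : ℝ) * (R * 40 ^ k)) ^ d := by
    have := slab_card (d := d) (m := m) (n := n) (L := R * 40 ^ k) φ hL hφ
    rw [hcast] at this
    rw [← this]
  have hcov : ∀ x, x ∉ Sl → ∃ z ∈ sts d (R * 40 ^ k), ∃ v ∈ bT d m (fun _ => false), φ z v = x := by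
    intro x hx
    have h2 : x ∈ (Fintype.piFinset (fun _ : Fin d => Finset.range (R * 40 ^ k))).biUnion
        (fun z => (bT d m (fun _ => false)).map (φ z).toEmbedding) := by
      by_contra h3
      exact hx (Finset.mem_sdiff.2 ⟨Finset.mem_univ _, h3⟩)
    obtain ⟨z, hz, hxz⟩ := Finset.mem_biUnion.1 h2
    obtain ⟨v, hv, hvx⟩ := Finset.mem_map.1 hxz
    exact ⟨z, hz, v, hv, hvx⟩
  -- the good boxes
  obtain ⟨A, hAdef⟩ : ∃ A : (Fin d → ℕ) → ((torG d n).edgeSet → Bool) → ((torG d n).edgeSet → Bool) →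
      Prop, A = fun z ω η => (¬ core z ω η ∨
        BadE2 (gends (boxG d (8 * m))) (pl (fun e => (φ z).mapEdgeSet e) ω) (cor d m)
        k2 A2 β kk κ j) := ⟨_, rfl⟩
  have hgood' : ∀ ω η, G ω η → ∀ z ∈ sts d (R * 40 ^ k), ¬ A z ω η →
      ¬ BadE2 (gends (boxG d (8 * m))) (pl (fun e => (φ z).mapEdgeSet e) ω) (cor d m)
        k2 A2 β kk κ j ∧
      β ≤ vol (gends (boxG d (8 * m))) (pl (fun e => (φ z).mapEdgeSet e) ω) (cor d m) A2
        (pre (φ z) (cu (gends (torG d n)) (orc ω η) (y0 ω η))) := by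
    intro ω η hGω z hz hA
    rw [hAdef] at hA
    push Not at hA
    refine ⟨hA.2, ?_⟩
    obtain ⟨y, hy, hyc⟩ := hGc ω η hGω z hz hA.1
    have v1 := vol_good (bT d m) (cor d m) A2 A2' b hAA (fun _ => false) (bT_cor _) y hy
    have v2 := vol_emb (φ z) ω η (cor d m) A2 y
    rw [hyc] at v2
    exact le_trans hβb (le_trans v1 v2)
  -- second term
  have hM2 : ∀ z ∈ sts d (R * 40 ^ k), ∀ v ∈ bT d m (fun _ => false),
      Ex p (fun ω => Ex s1 (fun η1 => Ex s2 (fun η2 => Ex s3 (fun η3 =>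
      if cz (gends (boxG d (8 * m))) (pl (fun e => (φ z).mapEdgeSet e) ω) v < A2 ∧
        t ≤ cz (gends (torG d n)) (orc (orc (orc ω η1) η2) η3) (φ z v)
        then (1 : ℝ) else 0)))) ≤ δ1 + 2 * (1 / t + (1 - (1 - s1) * (1 - s2) * (1 - s3)) *
          (2 * d) * (3 * C * Real.sqrt t + C * e * t) / t) * (3 * C * Real.sqrt A2) := by
    intro z hz v hv
    refine small_box h0 h1 h10 h11 h20 h21 h30 h31 hC he ht hA2 (by positivity)
      (fun x => tor_deg x) hT hT' (hem z hz) (bdy d (8 * m)) (fun e' u hu heu => ?_) v ?_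
    · exact tor_loc (fun i => m * z i) hn (φ z) (hφ z (A4_mem hz)) e' u hu heu
    · exact hbd v hv
  -- third term
  have hM3 : ∀ z ∈ sts d (R * 40 ^ k), Ex p (fun ω => Ex s1 (fun η =>
      (if A z ω η then (1 : ℝ) else 0) *
      vt (gends (boxG d (8 * m))) (pl (fun e => (φ z).mapEdgeSet e) ω) (bT d m (fun _ => false)) A2)) ≤
      Real.sqrt (((m : ℝ) ^ d * (C / Real.sqrt A2)) ^ 2 + (m : ℝ) ^ d * X) *
          Real.sqrt (4 * 20 ^ d * ρ0 + ρ2) := by
    intro z hz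
    refine vt_bad h0 h1 h10 h11 (fun ω => vt (gends (boxG d (8 * m)))
      (pl (fun e => (φ z).mapEdgeSet e) ω) (bT d m (fun _ => false)) A2) (fun ω => ?_) (A z) ?_ ?_
    · unfold vt
      positivity
    · have e1 := Ex_pul (φ z) p (fun ω => vt (gends (boxG d (8 * m))) ω
        (bT d m (fun _ => false)) A2 ^ 2)
      refine le_trans (le_of_eq e1) ?_
      have e2 := vt_sq h0 h1 hX (bT d m (fun _ => false)) hTb
      rw [bT_card] at e2
      push_cast at e2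
      exact e2
    · rw [hAdef]
      refine le_trans (A4_or h0 h1 h10 h11 _ _) (add_le_add (hcore z hz) ?_)
      rw [A4_fst]
      have e1 := Ex_pul (φ z) p (fun ω => if BadE2 (gends (boxG d (8 * m))) ω (cor d m) k2 A2 β kk κ j
        then (1 : ℝ) else 0)
      exact le_trans (le_of_eq e1) hE2
  have hcardS : ((sts d (R * 40 ^ k)).card : ℝ) = ((R : ℝ) * 40 ^ k) ^ d := by
    rw [A4_card, hcast]
  have hmass := mass_all h0 h1 h10 h11 h20 h21 h30 h31 (sts d (R * 40 ^ k)) (fun z => φ z)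
    (fun z e => (φ z).mapEdgeSet e) (ends := gends (torG d n)) (endb := gends (boxG d (8 * m)))
    (k2 := k2) (kk := kk) (κ := κ) (j := j) ht0 hβ0
    (cor d m) (bT d m (fun _ => false)) (bT_cor _) Sl hcov y0
    A G hgood' (by rw [hcardS]; exact hβ2) hT1 hM2 hM3
  have huniq := uniq_all h0 h1 h10 h11 h20 h21 h30 h31 (sts d (R * 40 ^ k)) (fun z => φ z)
    (fun z e => (φ z).mapEdgeSet e) (ends := gends (torG d n)) (endb := gends (boxG d (8 * m))) hem
    (k2 := k2) (A2 := A2) (β := β) (kk := kk) (κ := κ) (j := j) (j1 := j1) hk2 hkA ht0 (cor d m) y0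
  rw [hcardS, hSlc, bT_card] at hmass
  push_cast at hmass
  rw [A4_orc3]
  refine le_trans (A4_mono h0 h1 h10 h11 h20 h21 h30 h31 _ _ _ _ (fun ω η1 η2 η3 =>
    A4_pt (orc (orc (orc ω η1) η2) η3) (y0 ω η1) (G ω η1)
      (fun K => Shb (sts d (R * 40 ^ k)) (fun z => φ z) (fun z e => (φ z).mapEdgeSet e)
        (gends (boxG d (8 * m))) (cor d m) k2 A2 β kk κ j ω
        (cu (gends (torG d n)) (orc ω η1) (y0 ω η1)) K))) ?_
  rw [A4_G]
  have hsum : ∑ x : Fin d → ZMod n, Ex (1 - (1 - p) * (1 - s1) * (1 - s2) * (1 - s3)) (fun ω =>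
      if t ≤ cz (gends (torG d n)) ω x then (1 : ℝ) else 0) ≤
      (n : ℝ) ^ d * (C * (1 / Real.sqrt t + e)) := by
    refine le_trans (Finset.sum_le_sum fun x _ => hT1 x) ?_
    rw [Finset.sum_const, nsmul_eq_mul, Finset.card_univ, Fintype.card_fun, ZMod.card, Fintype.card_fin]
    push_cast
    exact le_rfl
  have hc0 : 0 ≤ (1 - s3) ^ (min (kk + 1) (j1 * κ)) +
        2 ^ j1 * (1 - (1 - (1 - s2) ^ κ) / 2) ^ (2 * j) := by
    have a1 : 0 ≤ (1 - s3) ^ (min (kk + 1) (j1 * κ)) := pow_nonneg (by linarith) _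
    have a2 : 0 ≤ (1 - s2) ^ κ := pow_nonneg (by linarith) _
    have a3 : 0 ≤ (1 - (1 - (1 - s2) ^ κ) / 2) ^ (2 * j) := pow_nonneg (by linarith) _
    positivity
  have huniq2 := le_trans huniq (mul_le_mul_of_nonneg_left (mul_le_mul_of_nonneg_left hsum hc0)
    (by positivity : (0 : ℝ) ≤ 1 / t))
  have hfin := add_le_add hG (add_le_add hmass huniq2)
  refine le_trans hfin (le_of_eq ?_)
  ring

open scoped Classical in
/-- Row A5. The largest cluster: from `tor_hier` (last statement) and `cz` increases when `η2`, `η3` are opened (`Ex_orc`, `cu_mono`). -/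
theorem tor_big {d m n k R : ℕ} [NeZero n] [Fintype (boxG d (8 * m)).edgeSet]
    [Fintype (torG d n).edgeSet] (hd : 2 ≤ d) (hm : 1 ≤ m) (hR : 1 ≤ R) (hL : m * (R * 40 ^ k) + 7 * m ≤ n)
    (hn : 8 * m < n) {p s1 s2 s3 ρ0 A2' b : ℝ}
    (h0 : 0 ≤ p) (h1 : p ≤ 1) (h10 : 0 ≤ s1) (h11 : s1 ≤ 1) (h20 : 0 ≤ s2) (h21 : s2 ≤ 1)
    (h30 : 0 ≤ s3) (h31 : s3 ≤ 1) (hb : 0 < b) (hρ0 : 0 ≤ ρ0)
    (hρ : 2 * (40 : ℝ) ^ (2 * d) * ρ0 ≤ 1)
    (hgood : P2 p s1 (fun ω η => ¬ GoodB (gends (boxG d (8 * m))) ω η Set.univ (bT d m) A2' b) ≤ ρ0) :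
    Ex (1 - (1 - p) * (1 - s1) * (1 - s2) * (1 - s3)) (fun ω =>
      if ∀ x, cz (gends (torG d n)) ω x < 3 * b * ((R : ℝ) * 40 ^ k) ^ d / 2 then (1 : ℝ) else 0) ≤
      R ^ d * ρ0 + 8 * 20 ^ d * ρ0 := by
  have A5_key : ∀ z : Fin d → ℕ, ∃ φ : boxG d (8 * m) ↪g torG d n,
      (∀ i, z i < R * 40 ^ k) → ∀ x i, φ x i = ((m * z i + (x i : ℕ) : ℕ) : ZMod n) := by
    intro z
    by_cases hz : ∀ i, z i < R * 40 ^ k
    · obtain ⟨φ, hφ⟩ := box_tor (d := d) (l := 8 * m) (n := n) (fun i => m * z i) (fun i => by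
        have h := hz i
        show m * z i + 8 * m ≤ n
        have h2 : m * (z i + 1) ≤ m * (R * 40 ^ k) := Nat.mul_le_mul_left m h
        have h3 : m * (z i + 1) = m * z i + m := by ring
        omega) hn
      exact ⟨φ, fun _ => hφ⟩
    · obtain ⟨φ, hφ⟩ := box_tor (d := d) (l := 8 * m) (n := n) (fun _ => 0)
        (fun i => by show 0 + 8 * m ≤ n; omega) hn
      exact ⟨φ, fun h => absurd h hz⟩
  choose φ hφ using A5_key
  obtain ⟨y0, core, G, _, _, _, hlast⟩ :=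
    tor_hier hd hm hR hL hn φ hφ h0 h1 h10 h11 hb hρ0 hρ hgood
  have e1 : 1 - (1 - p) * (1 - s1) * (1 - s2) * (1 - s3) =
      1 - (1 - (1 - (1 - (1 - (1 - p) * (1 - s1))) * (1 - s2))) * (1 - s3) := by ring
  rw [e1, Ex_orc, Ex_orc, Ex_orc]
  refine le_trans ?_ hlast
  unfold P2
  refine Ex_mono h0 h1 fun ω => Ex_mono h10 h11 fun η => ?_
  have hc : Ex s2 (fun _ : (torG d n).edgeSet → Bool => Ex s3 (fun _ : (torG d n).edgeSet → Bool =>
      if cz (gends (torG d n)) (orc ω η) (y0 ω η) < 3 * b * ((R : ℝ) * 40 ^ k) ^ d / 2 then (1 : ℝ)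
      else 0)) = if cz (gends (torG d n)) (orc ω η) (y0 ω η) < 3 * b * ((R : ℝ) * 40 ^ k) ^ d / 2
      then (1 : ℝ) else 0 := by
    rw [Ex_const, Ex_const]
  refine le_trans ?_ (le_of_eq hc)
  refine Ex_mono h20 h21 fun η2 => Ex_mono h30 h31 fun η3 => ?_
  have hmono : cz (gends (torG d n)) (orc ω η) (y0 ω η) ≤
      cz (gends (torG d n)) (orc (orc (orc ω η) η2) η3) (y0 ω η) := by
    refine cz_mono fun e he => ?_
    unfold orc at he ⊢
    rw [he]
    rfl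
  by_cases hx : ∀ x, cz (gends (torG d n)) (orc (orc (orc ω η) η2) η3) x <
      3 * b * ((R : ℝ) * 40 ^ k) ^ d / 2
  · rw [if_pos hx, if_pos (lt_of_le_of_lt hmono (hx _))]
  · rw [if_neg hx]
    split_ifs <;> norm_num

end Pool.Agent.PERC29.AE
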