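import Pool.Agent.Lib.MP_29e17e_pr.V.Co
import Pool.Agent.Lib.MP_29e17e_pr.V.Sg
import Pool.Agent.Lib.MP_29e17e_pr.Y.C2
import Pool.Agent.Lib.MP_29e17e_pr.Y.Kd

set_option autoImplicit false
set_option linter.unusedSectionVars false

/-! Rows 29w-L1, 29w-L2: the local theorem for pairs of disjoint families, with constants. Compare V/Bh.lean (`loc`, `loc_cut`; finished files
29v_G3.lean, 29v_G4.lean). -/

open Finset

namespace Pool.Agent.PERC29.AE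

open scoped Classical in
/-- Row L1. As `loc` (file 29v_G3.lean) with `choice2`, `nc2_sum`, `term1` .. `term6`, `term7b`; `ch = c η`, `ck = η`, `k = ⌈η |V|/χ³⌉₊ ≥ 12 j`, and `BadN2` is
monotone in `k`. -/
theorem loc2 (C c0 a β ρ : ℝ) (hC : 1 ≤ C) (hc0 : 0 < c0) (ha : 0 < a) (hβ : 0 < β) (hρ : 0 < ρ) :
    ∃ a2 ch ck δ A0 : ℝ, 0 < a2 ∧ a2 ≤ a ∧ 0 < ch ∧ 0 < ck ∧ 0 < δ ∧ 1 ≤ A0 ∧
      ∀ (V : Type) [Fintype V] [DecidableEq V] [Nonempty V] (E : Type) [Fintype E] [DecidableEq E]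
        (ends : E → Sym2 V) (p χ : ℝ) (sh : V → V) (W : Finset V), 0 ≤ p → p ≤ 1 → A0 ≤ χ →
        A0 * χ ^ 3 ≤ Fintype.card V →
        (∀ x, Ex p (fun ω => cz ends ω x) ≤ C * χ) →
        (∀ x, ∀ k : ℕ, 1 ≤ k → Ex p (fun ω => if (k : ℝ) ≤ cz ends ω x then (1 : ℝ) else 0) ≤
          C / Real.sqrt k) →
        (∀ x, sqd ends p x ≤ C) → Set.InjOn sh W →
        (∀ x, ∑ u ∈ W, ∑ w, ta ends p x u * (ta ends p x w * ta ends p (sh u) w) ≤ δ) →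
        (∀ u ∈ W, ∀ v ∈ W, c0 * χ / Fintype.card V ≤ ta ends p (sh u) (sh v)) →
        ∀ j : ℕ, (12 * j : ℝ) ≤ ck * Fintype.card V / χ ^ 3 →
        Ex p (fun ω => if BadN2 ends ω sh W (a2 * χ ^ 2) (a * χ ^ 2) (β * Fintype.card V / χ)
          (ch * χ) (12 * j) then (1 : ℝ) else 0) ≤ ρ := by
  obtain ⟨η, c, B, a2, C1, C2, δ, A0, hη, hη1, hηa, hc, hB, ha2, ha2a, hC1, hC2, hδ0, hA01, e1, e2, e3,
    e4, e5, e6, e7, e8, e9, e10, e11⟩ := choice2 C c0 a β ρ hC hc0 ha hβ hρ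
  have hC0 : 0 < C := by linarith
  have hA0 : 0 < A0 := by linarith
  have hκ : 0 < kap c0 a β := by
    unfold kap
    positivity
  refine ⟨a2, c * η, η, δ, A0, ha2, ha2a, by positivity, hη, hδ0, hA01, ?_⟩
  intro V _ _ _ E _ _ ends p χ sh W h0 h1 hχA hvA hX hT hQ hW hδ hτ j hj
  obtain ⟨v, hv⟩ : ∃ v : ℝ, v = (Fintype.card V : ℝ) := ⟨_, rfl⟩
  rw [← hv] at hvA hτ hj ⊢
  have hχ1 : 1 ≤ χ := by linarith
  have hχ : 0 < χ := by linarith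
  have hχ3 : 0 < χ ^ 3 := by positivity
  have hv0 : 0 < v := lt_of_lt_of_le (by positivity) hvA
  have hN : A0 ≤ v / χ ^ 3 := by
    rw [le_div_iff₀ hχ3]
    exact hvA
  have hχ2 : 1 ≤ χ ^ 2 := one_le_pow₀ hχ1
  have hAχ2 : A0 ^ 2 ≤ χ ^ 2 := by nlinarith
  obtain ⟨κ, hκd⟩ : ∃ κ : ℝ, κ = kap c0 a β := ⟨_, rfl⟩
  rw [← hκd] at e2 e3 e5 e6 e7 e10 hκ
  have hκv : κ = c0 * a ^ 2 * β ^ 2 / 16 := by rw [hκd]; rfl
  obtain ⟨n1, hn1⟩ : ∃ n : ℕ, n = ⌈C1 * η * v / χ ^ 3⌉₊ := ⟨_, rfl⟩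
  obtain ⟨k, hk⟩ : ∃ n : ℕ, n = ⌈η * v / χ ^ 3⌉₊ := ⟨_, rfl⟩
  obtain ⟨J, hJ⟩ : ∃ n : ℕ, n = ⌈C2 * η * v / χ ^ 2⌉₊ := ⟨_, rfl⟩
  have hn1l : C1 * η * v / χ ^ 3 ≤ (n1 : ℝ) := by rw [hn1]; exact Nat.le_ceil _
  have hn1u : (n1 : ℝ) ≤ C1 * η * v / χ ^ 3 + 1 := by
    rw [hn1]; exact (Nat.ceil_lt_add_one (by positivity)).le
  have hkl : η * v / χ ^ 3 ≤ (k : ℝ) := by rw [hk]; exact Nat.le_ceil _
  have hku : (k : ℝ) ≤ η * v / χ ^ 3 + 1 := by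
    rw [hk]; exact (Nat.ceil_lt_add_one (by positivity)).le
  have hJl : C2 * η * v / χ ^ 2 ≤ (J : ℝ) := by rw [hJ]; exact Nat.le_ceil _
  have hJu : (J : ℝ) ≤ C2 * η * v / χ ^ 2 + 1 := by
    rw [hJ]; exact (Nat.ceil_lt_add_one (by positivity)).le
  have hn11 : 1 ≤ n1 := by
    rw [hn1]
    exact Nat.one_le_ceil_iff.2 (by positivity)
  have hg0 : 0 < η / χ ^ 2 := by positivity
  have hg1 : η / χ ^ 2 ≤ 1 := by
    rw [div_le_one (by positivity)]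
    linarith
  have hv2 : 1 / v ≤ η / χ ^ 2 := by
    rw [div_le_div_iff₀ hv0 (by positivity)]
    have h11 : 1 ≤ A0 * η := by
      rw [div_le_iff₀ hη] at e11
      exact e11
    have h12 : χ ^ 2 ≤ χ ^ 3 := pow_le_pow_right₀ hχ1 (by norm_num)
    calc 1 * χ ^ 2 ≤ 1 * χ ^ 3 := by linarith
      _ ≤ (A0 * η) * χ ^ 3 := mul_le_mul_of_nonneg_right h11 hχ3.le
      _ = η * (A0 * χ ^ 3) := by ring
      _ ≤ η * v := mul_le_mul_of_nonneg_left hvA hη.le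
  have hk2 : 1 ≤ a2 * χ ^ 2 := le_trans e8 (mul_le_mul_of_nonneg_left hAχ2 ha2.le)
  have hhX : 1 ≤ c * η * χ / (η / χ ^ 2 * (C * χ)) := by
    have : c * η * χ / (η / χ ^ 2 * (C * χ)) = c * χ ^ 2 / C := by field_simp
    rw [this]
    refine le_trans e9 ?_
    gcongr
  have hgA : η / χ ^ 2 * (a * χ ^ 2) ≤ 1 := by
    have : η / χ ^ 2 * (a * χ ^ 2) = η * a := by field_simp
    rw [this]
    exact hηa
  have hb : β * η * a * v / (4 * χ) ≤ β * v / χ * (η / χ ^ 2 * (a * χ ^ 2)) / 4 := by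
    have : β * v / χ * (η / χ ^ 2 * (a * χ ^ 2)) / 4 = β * η * a * v / (4 * χ) := by field_simp
    rw [this]
  have hs0 : κ * η ^ 2 * v / χ ≤ c0 * χ / v * (β * η * a * v / (4 * χ)) ^ 2 := by
    have : c0 * χ / v * (β * η * a * v / (4 * χ)) ^ 2 = κ * η ^ 2 * v / χ := by
      rw [hκv]
      field_simp
      ring
    rw [this]
  have hth0 : a2 * κ / (2 * B ^ 2 * χ) ≤ 1 := by
    refine le_trans ?_ e10
    gcongr
  have hth : a2 * χ ^ 2 * (κ * η ^ 2 * v / χ) / (2 * (B * η * χ) ^ 2 * (Fintype.card V : ℝ)) ≤ 1 := by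
    rw [← hv]
    have : a2 * χ ^ 2 * (κ * η ^ 2 * v / χ) / (2 * (B * η * χ) ^ 2 * v) = a2 * κ / (2 * B ^ 2 * χ) := by
      field_simp
    rw [this]
    exact hth0
  have hmain := nc2_sum (ends := ends) (p := p) (g := η / χ ^ 2) (X := C * χ) (C := C) (δ := δ) (Qs := C)
    (c1 := c0 * χ / v) (b1 := β * η * a * v / (4 * χ)) (s0 := κ * η ^ 2 * v / χ) (k2 := a2 * χ ^ 2)
    (h := c * η * χ) (H := B * η * χ) (A2 := a * χ ^ 2) (β := β * v / χ) h0 h1 hg0 hg1 hC0.le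
    (by positivity) hk2 (by positivity) hhX (by positivity) (by positivity) (by positivity) hgA
    (by positivity) hb (by positivity) hs0 hth hX hT hQ sh W hW hδ hτ n1 k J hn11
  rw [← hv] at hmain
  have hjk : 12 * j ≤ k := by
    have h12 : ((12 * j : ℕ) : ℝ) ≤ (k : ℝ) := by
      push_cast
      exact le_trans hj hkl
    exact_mod_cast h12
  have hmono : Ex p (fun ω => if BadN2 ends ω sh W (a2 * χ ^ 2) (a * χ ^ 2) (β * v / χ)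
      (c * η * χ) (12 * j) then (1 : ℝ) else 0) ≤
      Ex p (fun ω => if BadN2 ends ω sh W (a2 * χ ^ 2) (a * χ ^ 2) (β * v / χ)
      (c * η * χ) k then (1 : ℝ) else 0) := by
    refine Ex_mono h0 h1 ?_
    intro ω
    by_cases hbad : BadN2 ends ω sh W (a2 * χ ^ 2) (a * χ ^ 2) (β * v / χ) (c * η * χ) (12 * j)
    · have hbad' : BadN2 ends ω sh W (a2 * χ ^ 2) (a * χ ^ 2) (β * v / χ) (c * η * χ) k := by
        obtain ⟨𝒮, hS, 𝒯, hT1, hd, hS1, hS2, hS3⟩ := hbad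
        exact ⟨𝒮, hS, 𝒯, hT1, hd, hS1, hS2, lt_of_lt_of_le hS3 hjk⟩
      rw [if_pos hbad, if_pos hbad']
    · rw [if_neg hbad]
      split_ifs
      · norm_num
      · norm_num
  -- the seven terms
  have q1 : 2 * (η / χ ^ 2 * (v * (C * χ) ^ 3) / (β * η * a * v / (4 * χ)) ^ 2) ≤ ρ / 8 := by
    rw [term1 hC0 ha hβ hη hχ hv0]
    refine le_trans ?_ e1
    rw [div_le_div_iff₀ (by positivity) (by positivity)]
    calc 32 * C ^ 3 * χ ^ 3 * (β ^ 2 * a ^ 2 * η * A0) = 32 * C ^ 3 * (β ^ 2 * a ^ 2 * η) * (A0 * χ ^ 3) := by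
          ring
      _ ≤ 32 * C ^ 3 * (β ^ 2 * a ^ 2 * η) * v := mul_le_mul_of_nonneg_left hvA (by positivity)
      _ = 32 * C ^ 3 * (β ^ 2 * a ^ 2 * η * v) := by ring
  have q2 : v * ((η / χ ^ 2) ^ 2 * (C * χ) ^ 2 * (3 * C * Real.sqrt (c * η * χ / (η / χ ^ 2 * (C * χ))))) /
      (κ * η ^ 2 * v / χ / 10) ≤ ρ / 8 := by
    rw [term2 hC0 hκ hη hχ hv0 hc]
    exact e2
  have q3 : v * ((η / χ ^ 2) ^ 3 * (C * χ) ^ 6 + 2 * (η / χ ^ 2) ^ 2 * (C * χ) ^ 3 * C) /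
      (B * η * χ * (κ * η ^ 2 * v / χ / 10)) ≤ ρ / 8 := by
    rw [term3 hC0 hκ hη hχ hv0 hB]
    refine le_trans ?_ e3
    gcongr
  have q4 : v * (η / χ ^ 2 * C / Real.sqrt (a2 * χ ^ 2)) / n1 ≤ ρ / 8 :=
    le_trans (term4 hC0 hη hχ hv0 ha2 hC1 hn1l) e4
  have q5 : v * ((η / χ ^ 2) ^ 2 * (η / χ ^ 2 + J / v) * (C * χ) ^ 5 + 2 * (η / χ ^ 2) ^ 2 * (C * χ) ^ 3 * δ) /
      (κ * η ^ 2 * v / χ / 10) ≤ ρ / 8 :=
    le_trans (term5 hC0 hκ hη hχ hv0 hC2 hJu hv2) e5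
  have q6 : v * ((η / χ ^ 2) ^ 2 * (C * χ) ^ 2 * (3 * C * Real.sqrt (a2 * χ ^ 2))) /
      (κ * η ^ 2 * v / χ / 10) ≤ ρ / 8 := by
    rw [term6 hC0 hκ hη hχ hv0 ha2]
    exact e6
  have q7 : 2 ^ (2 * n1 + k) * (1 - a2 * χ ^ 2 * (κ * η ^ 2 * v / χ) / (4 * (B * η * χ) ^ 2 * v)) ^ J ≤
      ρ / 8 :=
    le_trans (term7b n1 k J hκ hη hχ hv0 ha2 hB hC1 hC2 hn1u hku hJl hth0) (e7 _ hN)
  refine le_trans hmono (le_trans hmain ?_)
  linarith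

open scoped Classical in
/-- Row L2. As `loc_cut` (file 29v_G4.lean): `cut_const2` with `K0 = (2/cp)^(D(r+1)) 2^(2 qc (1 + D (r+1)))` and a suitable multiple of `ρ`, `cut_edges2`, `gc_many`
(`n0`), `surgery_all2` (Sg.lean) with this `kk`, `M'`, `n0` (its event is `Sgy`). -/
theorem loc_cut2 (C a2 ch ck cp ρ : ℝ) (r qc D L : ℕ) (hL : 1 ≤ L) (hC : 0 < C) (ha2 : 0 < a2)
    (hch : 0 < ch) (hck : 0 < ck) (hcp : 0 < cp) (hcp1 : cp ≤ 1) (hρ : 0 < ρ) :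
    ∃ c3 A1 : ℝ, 0 < c3 ∧ 1 ≤ A1 ∧
      ∀ (V : Type) [Fintype V] [DecidableEq V] [Nonempty V] (E : Type) [Fintype E] [DecidableEq E]
        (ends : E → Sym2 V) (p χ A2 β : ℝ) (sh : V → V) (W : Finset V) (π : V → ℕ → V), cp ≤ p →
        cp ≤ 1 - p → A1 ≤ χ → A1 * χ ^ 3 ≤ Fintype.card V →
        A1 * Real.log ((Fintype.card V : ℝ) + 1) ≤ χ →
        (∀ x, ∀ k : ℕ, 1 ≤ k → Ex p (fun ω => if (k : ℝ) ≤ cz ends ω x then (1 : ℝ) else 0) ≤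
          C / Real.sqrt k) →
        (∀ u ∈ W, π u 0 = u) → (∀ u ∈ W, π u r = sh u) →
        (∀ x, ∀ j < r, ∃ e, ends e = s(π x j, π x (j + 1))) →
        (∀ v, (Finset.univ.filter (fun e => v ∈ ends e)).card ≤ D) →
        (∀ x, (Finset.univ.filter (fun x' => Cft ends π r x x')).card ≤ L) →
        (∀ v, (Finset.univ.filter (fun x => ∃ j ≤ r, π x j = v)).card ≤ qc) →
        ∃ kk κ j : ℕ, (12 * j : ℝ) ≤ ck * Fintype.card V / χ ^ 3 ∧ c3 * Fintype.card V / χ ^ 3 ≤ j ∧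
          c3 * χ ≤ κ ∧ c3 * Fintype.card V / χ ^ 2 ≤ kk ∧
          Ex p (fun ω => if BadE2 ends ω W (a2 * χ ^ 2) A2 β kk κ j then (1 : ℝ) else 0) ≤
            Ex p (fun ω => if BadN2 ends ω sh W (a2 * χ ^ 2) A2 β (ch * χ) (12 * j)
              then (1 : ℝ) else 0) + ρ := by
  have hcp2 : (1 : ℝ) ≤ 2 / cp := by
    rw [le_div_iff₀ hcp]
    linarith
  have hK0 : (1 : ℝ) ≤ (2 / cp) ^ (D * (r + 1)) * 2 ^ (2 * qc * (1 + D * (r + 1))) :=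
    one_le_mul_of_one_le_of_one_le (one_le_pow₀ hcp2) (one_le_pow₀ (by norm_num))
  obtain ⟨c3, A1, hc3, hA1, hcc⟩ := cut_const2 C a2 ch ck
    ((2 / cp) ^ (D * (r + 1)) * 2 ^ (2 * qc * (1 + D * (r + 1)))) ρ L hL hC ha2 hch hck hK0 hρ
  refine ⟨c3, max A1 (1 / a2), hc3, le_max_of_le_left hA1, ?_⟩
  intro V _ _ _ E _ _ ends p χ A2 β sh W π hp hp' hχ hv hlog hT hπ0 hπr hedge hdeg hconf hcov
  have h0 : 0 ≤ p := hcp.le.trans hp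
  have h1 : p ≤ 1 := by linarith
  have hχ1 : A1 ≤ χ := (le_max_left _ _).trans hχ
  have hχa : 1 / a2 ≤ χ := (le_max_right _ _).trans hχ
  have hχ0 : (1 : ℝ) ≤ χ := hA1.trans hχ1
  have hχp : 0 < χ := lt_of_lt_of_le one_pos hχ0
  have hvn : (0 : ℝ) ≤ (Fintype.card V : ℝ) := Nat.cast_nonneg _
  have hlog0 : 0 ≤ Real.log ((Fintype.card V : ℝ) + 1) := Real.log_nonneg (by linarith)
  have hv1 : A1 * χ ^ 3 ≤ (Fintype.card V : ℝ) :=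
    (mul_le_mul_of_nonneg_right (le_max_left _ _) (by positivity)).trans hv
  have hlog1 : A1 * Real.log ((Fintype.card V : ℝ) + 1) ≤ χ :=
    (mul_le_mul_of_nonneg_right (le_max_left _ _) hlog0).trans hlog
  obtain ⟨M', kk, n0, κ, j, hj, hjk, hjc, hLM, hκn, hκ, hkkc, hkk, hkM, hn0, t1, t2⟩ :=
    hcc χ (Fintype.card V) hχ1 hv1 hlog1
  refine ⟨kk, κ, j, hjk, hjc, hκ, hkkc, ?_⟩
  have hk2 : 1 ≤ a2 * χ ^ 2 := by
    have e1 : 1 ≤ a2 * χ := by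
      rw [div_le_iff₀ ha2] at hχa
      linarith
    have e2 : a2 * χ ≤ a2 * χ ^ 2 := by
      apply mul_le_mul_of_nonneg_left _ ha2.le
      nlinarith
    linarith
  have m2 := cut_edges2 (ends := ends) (k2 := a2 * χ ^ 2) (A2 := A2) (β := β) (h := ch * χ) h0 h1
    (mul_pos hch hχp) sh W π r L M' kk n0 κ j hπ0 hπr hj hκn hLM
  have m3 := gc_many (ends := ends) (C := C) (k2 := a2 * χ ^ 2) h0 h1 hC.le hk2 hT n0 hn0
  have m4 : Ex p (fun ω => if Sgy ends ω π r L M' kk n0 then (1 : ℝ) else 0) ≤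
      ((Fintype.card V : ℝ) + 1) ^ (2 * n0) *
        ((2 / cp) ^ (D * (r + 1)) * 2 ^ (2 * qc * (1 + D * (r + 1))) * ((kk : ℝ) / M')) ^ kk := by
    refine le_trans (le_of_eq ?_)
      (surgery_all2 (ends := ends) hcp hcp1 hp hp' π r qc D L M' kk n0 hL hkk hkM hedge hdeg hconf hcov)
    exact congrArg (Ex p) (funext fun ω => if_congr Iff.rfl rfl rfl)
  linarith

end Pool.Agent.PERC29.AE
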