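import Pool.Agent.Lib.MP_29e17e_pr.V.Bh
import Pool.Agent.Lib.MP_29e17e_pr.Y.L2

set_option autoImplicit false
set_option linter.unusedSectionVars false

/-! Row 29w-E1: the local theorem for pairs of disjoint families in the box of side `8 m`. -/

open Finset

namespace Pool.Agent.PERC29.AE

lemma E1_exists_r (A δ : ℝ) (hδ : 0 < δ) : ∃ r : ℕ, A * (6 / Real.sqrt ((r : ℝ) + 1)) ≤ δ := by
  obtain ⟨r, hr⟩ := exists_nat_ge ((6 * A / δ) ^ 2)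
  refine ⟨r, ?_⟩
  have h1 : 6 * A / δ ≤ Real.sqrt ((r : ℝ) + 1) := by
    apply Real.le_sqrt_of_sq_le
    linarith
  have h2 : 0 < Real.sqrt ((r : ℝ) + 1) := Real.sqrt_pos.2 (by positivity)
  rw [mul_div_assoc', div_le_iff₀ h2]
  rw [div_le_iff₀ hδ] at h1
  linarith

lemma E1_log_bd (d : ℕ) (hd : 1 ≤ d) (A1 : ℝ) (m : ℕ) (hA : 0 ≤ A1) (hm1 : 1 ≤ m)
    (hm : 8 * d * A1 ≤ (m : ℝ)) :
    A1 * Real.log ((((8 * m) ^ d : ℕ) : ℝ) + 1) ≤ (m : ℝ) ^ 2 := by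
  have h0 : (1 : ℝ) ≤ m := by exact_mod_cast hm1
  have h1 : (((8 * m) ^ d : ℕ) : ℝ) + 1 ≤ (8 * (m : ℝ) + 1) ^ d := by
    have : (8 * m) ^ d + 1 ^ d ≤ (8 * m + 1) ^ d := pow_add_pow_le (by omega) (by omega) (by omega)
    rw [one_pow] at this
    exact_mod_cast this
  have h2 : Real.log ((((8 * m) ^ d : ℕ) : ℝ) + 1) ≤ d * (8 * (m : ℝ)) := by
    calc Real.log ((((8 * m) ^ d : ℕ) : ℝ) + 1) ≤ Real.log ((8 * (m : ℝ) + 1) ^ d) :=
          Real.log_le_log (by positivity) h1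
      _ = d * Real.log (8 * (m : ℝ) + 1) := by rw [Real.log_pow]
      _ ≤ d * (8 * (m : ℝ)) := by
        apply mul_le_mul_of_nonneg_left _ (Nat.cast_nonneg _)
        have := Real.log_le_sub_one_of_pos (by positivity : (0 : ℝ) < 8 * (m : ℝ) + 1)
        linarith
  calc A1 * Real.log ((((8 * m) ^ d : ℕ) : ℝ) + 1) ≤ A1 * (d * (8 * (m : ℝ))) :=
        mul_le_mul_of_nonneg_left h2 hA
    _ = (8 * d * A1) * (m : ℝ) := by ring
    _ ≤ (m : ℝ) * (m : ℝ) := mul_le_mul_of_nonneg_right hm (by linarith)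
    _ = (m : ℝ) ^ 2 := by ring

open scoped Classical in
/-- Row E1. `loc2` and `loc_cut2` in the box of side `8 m`: `χ = m²`, `|V| = (8 m)^d`, `W = cor d m`, `sh u = upd i0 u (u i0 + r)` with `i0 = ⟨0, _⟩`, `π = bpi i0 r`,
`β_loc = β / 8^d` (so `β_loc |V|/χ = β m^(d-2)`). Constants: `C' = max 1 (max C (max (64 C d 2^d) ((C² C4)² (d 2^d) 2)))`; `loc2 C' c0 a β_loc (ρ/2)` gives `a2, ch, ck, δ, A0`;
`r` with `C³ C4 (d 2^d) 6/√(r+1) ≤ δ`; `loc_cut2 C' a2 ch ck cp (ρ/2) r (2r+1) (2d) ((r+1)((1+2d)(2r+1)))` gives `c3, A1`; `m0` so that `r ≤ m`, `A0, A1 ≤ m²`,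
`A m⁶ ≤ (8m)^d`, `A1 log ((8m)^d + 1) ≤ m²` for `m ≥ m0`. The hypotheses: `hyp_X`, `hyp_sq`, `hyp_del` (Bh.lean), `sh_inj`, `sh_bul` (its values are in the
bulk; `c0 m²/(8m)^d ≤ c0/(8m)^(d-2)`), `bpi_zero`, `bpi_edge`, `bpi_cov`, `box_deg`, `conf_le`. `c3 |V|/χ³ ≥ c3 m^(d-6)`, `c3 |V|/χ² ≥ c3 m^(d-4)`. -/
theorem box_E2 (d : ℕ) (hd : 9 ≤ d) (C c0 cp a β ρ : ℝ) (hC : 0 < C) (hc0 : 0 < c0) (hcp : 0 < cp)
    (hcp1 : cp ≤ 1) (ha : 0 < a) (hβ : 0 < β) (hρ : 0 < ρ) :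
    ∃ (a2 c3 : ℝ) (m0 : ℕ), 0 < a2 ∧ a2 ≤ a ∧ 0 < c3 ∧ 1 ≤ m0 ∧ ∀ m : ℕ, m0 ≤ m →
      ∀ [Fintype (boxG d (8 * m)).edgeSet], ∀ p : ℝ, cp ≤ p → cp ≤ 1 - p →
      (∀ x y, ta (gends (boxG d (8 * m))) p x y ≤ C * fk (d - 2) x y) →
      (∀ x, ∀ k : ℕ, 1 ≤ k → Ex p (fun ω => if (k : ℝ) ≤ cz (gends (boxG d (8 * m))) ω x
        then (1 : ℝ) else 0) ≤ C / Real.sqrt k) →
      (∀ x y, bul x → bul y →
        c0 / ((8 * m : ℕ) : ℝ) ^ (d - 2) ≤ ta (gends (boxG d (8 * m))) p x y) →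
      ∃ kk κ j : ℕ, c3 * (m : ℝ) ^ (d - 6) ≤ j ∧ c3 * (m : ℝ) ^ 2 ≤ κ ∧ c3 * (m : ℝ) ^ (d - 4) ≤ kk ∧
        Ex p (fun ω => if BadE2 (gends (boxG d (8 * m))) ω (cor d m) (a2 * (m : ℝ) ^ 4)
          (a * (m : ℝ) ^ 4) (β * (m : ℝ) ^ (d - 2)) kk κ j then (1 : ℝ) else 0) ≤ ρ := by
  set D1 : ℝ := d * 2 ^ d with hD1
  have hD1p : 0 < D1 := by
    have : (0 : ℝ) < d := by exact_mod_cast (by omega : 0 < d)
    positivity
  have hC4 : 0 < C4 d := by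
    unfold C4
    have : (0 : ℝ) < d := by exact_mod_cast (by omega : 0 < d)
    positivity
  set CL : ℝ := max (max 1 C) (max (64 * (C * D1)) ((C ^ 2 * C4 d) ^ 2 * (D1 * 2))) with hCL
  have hCL1 : 1 ≤ CL := (le_max_left _ _).trans (le_max_left _ _)
  have hCLC : C ≤ CL := (le_max_right _ _).trans (le_max_left _ _)
  have hCLX : 64 * (C * D1) ≤ CL := (le_max_left _ _).trans (le_max_right _ _)
  have hCLQ : (C ^ 2 * C4 d) ^ 2 * (D1 * 2) ≤ CL := (le_max_right _ _).trans (le_max_right _ _)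
  obtain ⟨a2, ch, ck, δ, A0, ha2, ha2a, hch, hck, hδ, hA0, hloc⟩ := loc2 CL c0 a (β / 8 ^ d) (ρ / 2) hCL1
    hc0 ha (by positivity) (by positivity)
  obtain ⟨r, hr⟩ := E1_exists_r (C ^ 3 * C4 d * D1) δ hδ
  obtain ⟨c3, A1, hc3, hA1, hcut⟩ := loc_cut2 CL a2 ch ck cp (ρ / 2) r (2 * r + 1) (2 * d)
    ((r + 1) * ((1 + 2 * d) * (2 * r + 1))) (Nat.one_le_iff_ne_zero.2 (by positivity)) (by linarith) ha2
    hch hck hcp hcp1 (by positivity)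
  obtain ⟨m2, hm2⟩ := exists_nat_ge (max (max A0 A1) (8 * d * A1))
  refine ⟨a2, c3, max m2 (r + 1), ha2, ha2a, hc3, by omega, ?_⟩
  intro m hm _ p hp hp1 hU hV hB
  have hmm2 : (m2 : ℝ) ≤ m := by exact_mod_cast (by omega : m2 ≤ m)
  have hmr : r ≤ m := by omega
  have hm0 : 1 ≤ m := by omega
  have hmR : (1 : ℝ) ≤ m := by exact_mod_cast hm0
  have hmA0 : A0 ≤ (m : ℝ) := by
    have : A0 ≤ max (max A0 A1) (8 * d * A1) := (le_max_left _ _).trans (le_max_left _ _)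
    linarith
  have hmA1 : A1 ≤ (m : ℝ) := by
    have : A1 ≤ max (max A0 A1) (8 * d * A1) := (le_max_right _ _).trans (le_max_left _ _)
    linarith
  have hmA2 : 8 * d * A1 ≤ (m : ℝ) := by
    have : 8 * d * A1 ≤ max (max A0 A1) (8 * d * A1) := le_max_right _ _
    linarith
  have hpp0 : 0 ≤ p := hcp.le.trans hp
  have hpp1 : p ≤ 1 := by linarith
  have : Nonempty (Fin d → Fin (8 * m)) := ⟨fun _ => ⟨0, by omega⟩⟩
  have hcard : (Fintype.card (Fin d → Fin (8 * m)) : ℝ) = (8 * (m : ℝ)) ^ d := by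
    rw [Fintype.card_fun, Fintype.card_fin, Fintype.card_fin]
    push_cast
    ring
  have hm2le : (m : ℝ) ≤ (m : ℝ) ^ 2 := by nlinarith
  set i0 : Fin d := ⟨0, by omega⟩ with hi0
  set sh : (Fin d → Fin (8 * m)) → (Fin d → Fin (8 * m)) := fun x => upd i0 x ((x i0 : ℕ) + r) with hsh
  have hinj : Set.InjOn sh (cor d m) := sh_inj i0 r hmr
  have hcardlow : ∀ A : ℝ, A ≤ (m : ℝ) → A * ((m : ℝ) ^ 2) ^ 3 ≤ Fintype.card (Fin d → Fin (8 * m)) := by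
    intro A hA
    rw [hcard]
    have h1 : A * ((m : ℝ) ^ 2) ^ 3 ≤ (m : ℝ) * ((m : ℝ) ^ 2) ^ 3 :=
      mul_le_mul_of_nonneg_right hA (by positivity)
    have h2 : (m : ℝ) * ((m : ℝ) ^ 2) ^ 3 = (m : ℝ) ^ 7 := by ring
    have h3 : (m : ℝ) ^ 7 ≤ (m : ℝ) ^ d := pow_le_pow_right₀ hmR (by omega)
    have h4 : (m : ℝ) ^ d ≤ (8 * (m : ℝ)) ^ d := pow_le_pow_left₀ (by positivity) (by linarith) _
    linarith
  have hnc := hloc (Fin d → Fin (8 * m)) (boxG d (8 * m)).edgeSet (gends (boxG d (8 * m))) p ((m : ℝ) ^ 2) sh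
    (cor d m) hpp0 hpp1 (hmA0.trans hm2le) (hcardlow A0 hmA0) (by
      intro x
      have h := hyp_X (by omega : 2 ≤ d) hC.le hU x
      refine h.trans ?_
      push_cast
      calc C * (d * 2 ^ d) * (8 * (m : ℝ)) ^ 2 = 64 * (C * D1) * (m : ℝ) ^ 2 := by rw [hD1]; ring
        _ ≤ CL * (m : ℝ) ^ 2 := mul_le_mul_of_nonneg_right hCLX (by positivity)) (by
      intro x k hk
      exact (hV x k hk).trans (div_le_div_of_nonneg_right hCLC (Real.sqrt_nonneg _))) (by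
      intro x
      exact (hyp_sq hd hpp0 hpp1 hC.le hU x).trans hCLQ) hinj (by
      intro x
      refine (hyp_del hd hpp0 hpp1 hC.le hU (cor d m) sh hinj r (fun u hu => (sh_bul i0 r hmr u hu).2.1)
        x).trans ?_
      calc C ^ 3 * C4 d * (d * 2 ^ d * (6 / Real.sqrt ((r : ℝ) + 1))) =
          C ^ 3 * C4 d * D1 * (6 / Real.sqrt ((r : ℝ) + 1)) := by rw [hD1]; ring
        _ ≤ δ := hr) (by
      intro u hu v hv
      refine le_trans ?_ (hB _ _ (sh_bul i0 r hmr u hu).1 (sh_bul i0 r hmr v hv).1)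
      rw [hcard]
      push_cast
      have hd2 : (8 * (m : ℝ)) ^ d = (8 * (m : ℝ)) ^ (d - 2) * (8 * (m : ℝ)) ^ 2 := by
        rw [← pow_add]; congr 1; omega
      rw [hd2, div_le_div_iff₀ (by positivity) (by positivity)]
      have : (0 : ℝ) ≤ c0 * (8 * (m : ℝ)) ^ (d - 2) := by positivity
      nlinarith [sq_nonneg (m : ℝ), mul_nonneg this (sq_nonneg (m : ℝ))])
  have hb : β / 8 ^ d * (Fintype.card (Fin d → Fin (8 * m)) : ℝ) / (m : ℝ) ^ 2 = β * (m : ℝ) ^ (d - 2) := by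
    rw [hcard, mul_pow]
    have hd2 : (m : ℝ) ^ d = (m : ℝ) ^ (d - 2) * (m : ℝ) ^ 2 := by
      rw [← pow_add]; congr 1; omega
    rw [hd2]
    field_simp
  have hA2 : a * ((m : ℝ) ^ 2) ^ 2 = a * (m : ℝ) ^ 4 := by ring
  have hA2' : a2 * ((m : ℝ) ^ 2) ^ 2 = a2 * (m : ℝ) ^ 4 := by ring
  rw [hb, hA2, hA2'] at hnc
  obtain ⟨kk, κ, j, hj, hj2, hκ, hkk, hE⟩ := hcut (Fin d → Fin (8 * m)) (boxG d (8 * m)).edgeSet
    (gends (boxG d (8 * m))) p ((m : ℝ) ^ 2)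
    (a * (m : ℝ) ^ 4) (β * (m : ℝ) ^ (d - 2)) sh (cor d m) (bpi i0 r) hp hp1 (hmA1.trans hm2le)
    (hcardlow A1 hmA1) (by
      have := E1_log_bd d (by omega) A1 m (by linarith) hm0 hmA2
      have h2 : (Fintype.card (Fin d → Fin (8 * m)) : ℝ) = (((8 * m) ^ d : ℕ) : ℝ) := by
        rw [hcard]; push_cast; ring
      rw [h2]
      exact this) (by
      intro x k hk
      exact (hV x k hk).trans (div_le_div_of_nonneg_right hCLC (Real.sqrt_nonneg _)))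
    (fun u _ => bpi_zero i0 r u) (fun u hu => (sh_bul i0 r hmr u hu).2.2)
    (fun x j hj => bpi_edge i0 r (by omega) x j hj) (fun v => by
      have := box_deg (d := d) (l := 8 * m) v
      exact this) (fun x => by
      have := conf_le (ends := gends (boxG d (8 * m))) (bpi i0 r) r (2 * d) (2 * r + 1)
        (fun v => by
          have := box_deg (d := d) (l := 8 * m) v
          exact this) (fun v => bpi_cov i0 r (by omega) v) x
      exact this) (fun v => bpi_cov i0 r (by omega) v)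
  have hcd : (m : ℝ) ^ d ≤ Fintype.card (Fin d → Fin (8 * m)) := by
    rw [hcard]
    exact pow_le_pow_left₀ (by positivity) (by linarith) _
  refine ⟨kk, κ, j, ?_, hκ, ?_, ?_⟩
  · refine le_trans ?_ hj2
    rw [le_div_iff₀ (by positivity)]
    have h1 : (m : ℝ) ^ (d - 6) * ((m : ℝ) ^ 2) ^ 3 = (m : ℝ) ^ d := by
      rw [← pow_mul, ← pow_add]; congr 1; omega
    calc c3 * (m : ℝ) ^ (d - 6) * ((m : ℝ) ^ 2) ^ 3 = c3 * ((m : ℝ) ^ (d - 6) * ((m : ℝ) ^ 2) ^ 3) := by ring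
      _ = c3 * (m : ℝ) ^ d := by rw [h1]
      _ ≤ c3 * Fintype.card (Fin d → Fin (8 * m)) := mul_le_mul_of_nonneg_left hcd hc3.le
  · refine le_trans ?_ hkk
    rw [le_div_iff₀ (by positivity)]
    have h1 : (m : ℝ) ^ (d - 4) * ((m : ℝ) ^ 2) ^ 2 = (m : ℝ) ^ d := by
      rw [← pow_mul, ← pow_add]; congr 1; omega
    calc c3 * (m : ℝ) ^ (d - 4) * ((m : ℝ) ^ 2) ^ 2 = c3 * ((m : ℝ) ^ (d - 4) * ((m : ℝ) ^ 2) ^ 2) := by ring
      _ = c3 * (m : ℝ) ^ d := by rw [h1]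
      _ ≤ c3 * Fintype.card (Fin d → Fin (8 * m)) := mul_le_mul_of_nonneg_left hcd hc3.le
  · rw [hA2'] at hE
    have := hnc j hj
    linarith

end Pool.Agent.PERC29.AE
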