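import Pool.Agent.Lib.MP_29e17e_pr.Y.Cs

set_option autoImplicit false
set_option linter.unusedVariables false

/-! Rows 29z-C1 .. 29z-C3: the numbers for families (pure real numbers). `t = η ε n^d`, `h = A1/ε²`. -/

namespace Pool.Agent.PERC29.AE

private lemma C1_inv {t ε : ℝ} (hε : 0 < ε) (h : 1 ≤ t * ε ^ 2) :
    0 < t ∧ 1 / t ≤ ε ^ 2 ∧ Real.sqrt t / t ≤ ε := by
  have ht : 0 < t := by
    by_contra h0
    push Not at h0
    have h1 : 0 ≤ ε ^ 2 := sq_nonneg ε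
    nlinarith
  have h1 : 1 / ε ≤ Real.sqrt t := by
    rw [Real.le_sqrt' (by positivity), div_pow, one_pow, div_le_iff₀ (by positivity)]
    exact h
  have h2 : 1 / Real.sqrt t ≤ ε := by
    have h3 := one_div_le_one_div_of_le (by positivity : 0 < 1 / ε) h1
    rwa [one_div_one_div] at h3
  refine ⟨ht, ?_, ?_⟩
  · rw [div_le_iff₀ ht]
    linarith
  · have h4 : Real.sqrt t / t = 1 / Real.sqrt t := by
      have h5 : 0 < Real.sqrt t := Real.sqrt_pos.2 ht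
      rw [div_eq_div_iff ht.ne' h5.ne', Real.mul_self_sqrt ht.le, one_mul]
    rw [h4]
    exact h2

/-- Row C1. As `S1_le` (finished file 29w_F2.lean) with a threshold `h` with `1/√h ≤ ε`. -/
lemma S1f_le {d n : ℕ} {η ε C σ S h : ℝ} (hη : 0 < η) (hε : 0 < ε) (hn : 1 ≤ n) (hC : 0 ≤ C)
    (hh : 1 / Real.sqrt h ≤ ε) (hS : S ≤ σ * (n : ℝ) ^ d) (hσ : 0 ≤ σ) :
    S * (C * (1 / Real.sqrt h + ε)) / (η * ε * (n : ℝ) ^ d / 2) ≤ 4 * C * σ / η := by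
  have hn0 : (0 : ℝ) < (n : ℝ) := by exact_mod_cast hn
  obtain ⟨N, hN⟩ : ∃ N : ℝ, N = (n : ℝ) ^ d := ⟨_, rfl⟩
  have hN0 : 0 < N := by rw [hN]; positivity
  rw [← hN] at hS ⊢
  have h2 : 0 ≤ 1 / Real.sqrt h := by positivity
  have h3 : S * (C * (1 / Real.sqrt h + ε)) ≤ (σ * N) * (C * (2 * ε)) := by
    have h4 : C * (1 / Real.sqrt h + ε) ≤ C * (2 * ε) :=
      mul_le_mul_of_nonneg_left (by linarith) hC
    have h5 : 0 ≤ C * (1 / Real.sqrt h + ε) := by positivity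
    calc S * (C * (1 / Real.sqrt h + ε))
        ≤ (σ * N) * (C * (1 / Real.sqrt h + ε)) := mul_le_mul_of_nonneg_right hS h5
      _ ≤ (σ * N) * (C * (2 * ε)) := mul_le_mul_of_nonneg_left h4 (by positivity)
  calc S * (C * (1 / Real.sqrt h + ε)) / (η * ε * N / 2)
      ≤ (σ * N) * (C * (2 * ε)) / (η * ε * N / 2) :=
        div_le_div_of_nonneg_right h3 (by positivity)
    _ = 4 * C * σ / η := by
        field_simp
        ring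

/-- Row C1 (second half). As `S2_le` (finished file 29w_F2.lean) with a threshold `h`: `1/h ≤ ε²`, `(3 C √h + C ε h)/h ≤ 4 C ε`. -/
lemma S2f_le {d n m : ℕ} {η ε C K γ cp L s h : ℝ} (hη : 0 < η) (hε : 0 < ε) (hn : 1 ≤ n) (hm : 1 ≤ m)
    (hC : 0 ≤ C) (hK : 0 < K) (hγ : 0 ≤ γ) (hcp : 0 < cp) (hh : 0 < h) (hhε : 1 ≤ ε ^ 2 * h)
    (hK1 : (m : ℝ) ^ 2 * ε ≤ K) (hK2 : K ≤ 4 * ((m : ℝ) ^ 2 * ε)) (hL0 : 0 ≤ L) (hL : m * L ≤ n)
    (hs0 : 0 ≤ s) (hs : s ≤ ε / cp) :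
    L ^ d * (m : ℝ) ^ d * (C / (m : ℝ) ^ 2 + 2 * (1 / h + s * (2 * d) *
      (3 * C * Real.sqrt h + C * ε * h) / h) * (3 * C * Real.sqrt ((γ / K) ^ 2 * (m : ℝ) ^ 4))) /
        (η * ε * (n : ℝ) ^ d / 2) ≤
      8 * C / (η * K) + 12 * C * (1 + 8 * C * d / cp) * γ / η := by
  have hn0 : (0 : ℝ) < (n : ℝ) := by exact_mod_cast hn
  have hm0 : (0 : ℝ) < (m : ℝ) := by exact_mod_cast hm
  have hLm : L ^ d * (m : ℝ) ^ d ≤ (n : ℝ) ^ d := by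
    rw [← mul_pow]
    exact pow_le_pow_left₀ (by positivity) (by linarith) d
  obtain ⟨N, hN⟩ : ∃ N : ℝ, N = (n : ℝ) ^ d := ⟨_, rfl⟩
  have hN0 : 0 < N := by rw [hN]; positivity
  rw [← hN] at hLm ⊢
  obtain ⟨-, h2, h3⟩ := C1_inv (t := h) hε (by linarith)
  have hr : Real.sqrt ((γ / K) ^ 2 * (m : ℝ) ^ 4) = γ / K * (m : ℝ) ^ 2 := by
    have : (γ / K) ^ 2 * (m : ℝ) ^ 4 = (γ / K * (m : ℝ) ^ 2) ^ 2 := by ring
    rw [this, Real.sqrt_sq (by positivity)]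
  rw [hr]
  -- the single terms
  have e1 : C / (m : ℝ) ^ 2 ≤ 4 * C * ε / K := by
    rw [div_le_div_iff₀ (by positivity) hK]
    nlinarith
  have e2 : s * (2 * d) * (3 * C * Real.sqrt h + C * ε * h) / h ≤ 8 * C * d / cp * ε ^ 2 := by
    have e3 : (3 * C * Real.sqrt h + C * ε * h) / h ≤ 4 * C * ε := by
      have : (3 * C * Real.sqrt h + C * ε * h) / h = 3 * C * (Real.sqrt h / h) + C * ε := by
        field_simp
      rw [this]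
      nlinarith [mul_le_mul_of_nonneg_left h3 (by positivity : (0 : ℝ) ≤ 3 * C)]
    have e4 : 0 ≤ (3 * C * Real.sqrt h + C * ε * h) / h := by positivity
    have e5 : s * (2 * d) ≤ ε / cp * (2 * d) := mul_le_mul_of_nonneg_right hs (by positivity)
    calc s * (2 * d) * (3 * C * Real.sqrt h + C * ε * h) / h
        = s * (2 * d) * ((3 * C * Real.sqrt h + C * ε * h) / h) := by ring
      _ ≤ ε / cp * (2 * d) * ((3 * C * Real.sqrt h + C * ε * h) / h) :=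
          mul_le_mul_of_nonneg_right e5 e4
      _ ≤ ε / cp * (2 * d) * (4 * C * ε) := mul_le_mul_of_nonneg_left e3 (by positivity)
      _ = 8 * C * d / cp * ε ^ 2 := by ring
  have e6 : 2 * (1 / h + s * (2 * d) * (3 * C * Real.sqrt h + C * ε * h) / h) *
      (3 * C * (γ / K * (m : ℝ) ^ 2)) ≤ 6 * C * (1 + 8 * C * d / cp) * γ * ε := by
    have e7 : 1 / h + s * (2 * d) * (3 * C * Real.sqrt h + C * ε * h) / h ≤
        (1 + 8 * C * d / cp) * ε ^ 2 := by linarith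
    have e8 : (m : ℝ) ^ 2 * ε / K ≤ 1 := by rwa [div_le_one hK]
    calc 2 * (1 / h + s * (2 * d) * (3 * C * Real.sqrt h + C * ε * h) / h) *
          (3 * C * (γ / K * (m : ℝ) ^ 2))
        ≤ 2 * ((1 + 8 * C * d / cp) * ε ^ 2) * (3 * C * (γ / K * (m : ℝ) ^ 2)) :=
          mul_le_mul_of_nonneg_right (by linarith) (by positivity)
      _ = 6 * C * (1 + 8 * C * d / cp) * γ * ε * ((m : ℝ) ^ 2 * ε / K) := by ring
      _ ≤ 6 * C * (1 + 8 * C * d / cp) * γ * ε * 1 :=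
          mul_le_mul_of_nonneg_left e8 (by positivity)
      _ = 6 * C * (1 + 8 * C * d / cp) * γ * ε := by ring
  have e9 : 0 ≤ C / (m : ℝ) ^ 2 + 2 * (1 / h + s * (2 * d) *
      (3 * C * Real.sqrt h + C * ε * h) / h) * (3 * C * (γ / K * (m : ℝ) ^ 2)) := by positivity
  calc L ^ d * (m : ℝ) ^ d * (C / (m : ℝ) ^ 2 + 2 * (1 / h + s * (2 * d) *
        (3 * C * Real.sqrt h + C * ε * h) / h) * (3 * C * (γ / K * (m : ℝ) ^ 2))) / (η * ε * N / 2)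
      ≤ N * (C / (m : ℝ) ^ 2 + 2 * (1 / h + s * (2 * d) *
        (3 * C * Real.sqrt h + C * ε * h) / h) * (3 * C * (γ / K * (m : ℝ) ^ 2))) /
          (η * ε * N / 2) :=
        div_le_div_of_nonneg_right (mul_le_mul_of_nonneg_right hLm e9) (by positivity)
    _ ≤ N * (4 * C * ε / K + 6 * C * (1 + 8 * C * d / cp) * γ * ε) / (η * ε * N / 2) :=
        div_le_div_of_nonneg_right (mul_le_mul_of_nonneg_left (add_le_add e1 e6) hN0.le)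
          (by positivity)
    _ = 8 * C / (η * K) + 12 * C * (1 + 8 * C * d / cp) * γ / η := by
        field_simp
        ring

/-- Row C2. The new term: `√(N8 (L^d Y2)) ≤ L^d (√Y2 √b3)` if `N8 ≤ b3 L^d`; then `S3_le` with `ρ' = b3`. -/
lemma S5f_le {d n m : ℕ} {η ε C K γ L X b3 N8 : ℝ} (hη : 0 < η) (hε : 0 < ε) (hn : 1 ≤ n) (hm : 1 ≤ m)
    (hC : 0 ≤ C) (hK : 0 < K) (hγ : 0 < γ)
    (hK2 : K ≤ 4 * ((m : ℝ) ^ 2 * ε)) (hL0 : 0 ≤ L) (hL : m * L ≤ n)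
    (hX : (m : ℝ) ^ d * X ≤ ((m : ℝ) ^ d * (C / Real.sqrt ((γ / K) ^ 2 * (m : ℝ) ^ 4))) ^ 2)
    (hX0 : 0 ≤ X) (hb3 : 0 ≤ b3) (hN8 : N8 ≤ b3 * L ^ d) :
    Real.sqrt (N8 * (L ^ d * (((m : ℝ) ^ d * (C / Real.sqrt ((γ / K) ^ 2 * (m : ℝ) ^ 4))) ^ 2 +
      (m : ℝ) ^ d * X))) / (η * ε * (n : ℝ) ^ d / 2) ≤
      16 * C * Real.sqrt b3 / (η * γ) := by
  have hm0 : (0 : ℝ) < m := by exact_mod_cast hm
  have hn0 : (0 : ℝ) < n := by exact_mod_cast hn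
  have hM : (0 : ℝ) < (m : ℝ) ^ d := pow_pos hm0 d
  have hN : (0 : ℝ) < (n : ℝ) ^ d := pow_pos hn0 d
  have hLd0 : 0 ≤ L ^ d := pow_nonneg hL0 d
  refine le_trans ?_ (S3_le (ρ' := b3) hη hε hn hm hC hK hγ hK2 hL0 hL hX)
  apply div_le_div_of_nonneg_right _ (by positivity)
  set Y2 : ℝ := ((m : ℝ) ^ d * (C / Real.sqrt ((γ / K) ^ 2 * (m : ℝ) ^ 4))) ^ 2 + (m : ℝ) ^ d * X
    with hY2def
  have hY2 : 0 ≤ Y2 := add_nonneg (sq_nonneg _) (mul_nonneg hM.le hX0)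
  have h1 : N8 * (L ^ d * Y2) ≤ (L ^ d) ^ 2 * (Y2 * b3) := by
    have h2 := mul_le_mul_of_nonneg_right hN8 (mul_nonneg hLd0 hY2)
    calc N8 * (L ^ d * Y2) ≤ b3 * L ^ d * (L ^ d * Y2) := h2
      _ = (L ^ d) ^ 2 * (Y2 * b3) := by ring
  calc Real.sqrt (N8 * (L ^ d * Y2)) ≤ Real.sqrt ((L ^ d) ^ 2 * (Y2 * b3)) := Real.sqrt_le_sqrt h1
    _ = L ^ d * (Real.sqrt Y2 * Real.sqrt b3) := by
        rw [Real.sqrt_mul (sq_nonneg _), Real.sqrt_sq hLd0, Real.sqrt_mul hY2]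

/-- Row C2 (second half). The number `B` of boxes: `B = ⌊b3 L^d/(2 * 8^d)⌋₊`; `L ≥ R0` with `R0^d ≥ 4 * 8^d/b3` gives `B ≥ b3 L^d/(4 * 8^d)`, and `m L ≥ n/2` gives
`B m^d ≥ b3/(4 * 16^d) n^d`. -/
lemma B_ex {d n m : ℕ} {b3 L : ℝ} (hd : 1 ≤ d) (hm : 1 ≤ m) (hb3 : 0 < b3) (hL : 4 * 8 ^ d / b3 ≤ L) (hL1 : 1 ≤ L)
    (hmL : (n : ℝ) / 2 ≤ m * L) :
    ∃ B : ℕ, ((8 ^ d * (2 * B) : ℕ) : ℝ) ≤ b3 * L ^ d ∧ b3 / (4 * 16 ^ d) * (n : ℝ) ^ d ≤ B * (m : ℝ) ^ d := by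
  have hm0 : (0 : ℝ) < m := by exact_mod_cast hm
  have h8 : (0 : ℝ) < 8 ^ d := by positivity
  have hLd : L ≤ L ^ d := by
    have h := pow_le_pow_right₀ hL1 hd
    simpa using h
  obtain ⟨x, hx⟩ : ∃ x : ℝ, x = b3 * L ^ d / (2 * 8 ^ d) := ⟨_, rfl⟩
  have hx2 : 2 ≤ x := by
    rw [hx, le_div_iff₀ (by positivity)]
    have h1 : 4 * 8 ^ d / b3 ≤ L ^ d := hL.trans hLd
    rw [div_le_iff₀ hb3] at h1
    linarith
  refine ⟨⌊x⌋₊, ?_, ?_⟩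
  · have h1 : ((⌊x⌋₊ : ℕ) : ℝ) ≤ b3 * L ^ d / (2 * 8 ^ d) := by
      rw [← hx]
      exact Nat.floor_le (by linarith)
    rw [le_div_iff₀ (by positivity)] at h1
    push_cast
    linarith
  · have h1 : x < ((⌊x⌋₊ : ℕ) : ℝ) + 1 := Nat.lt_floor_add_one x
    have h2 : x / 2 ≤ ((⌊x⌋₊ : ℕ) : ℝ) := by linarith
    have h3 : ((n : ℝ) / 2) ^ d ≤ (m * L) ^ d := pow_le_pow_left₀ (by positivity) hmL d
    have h16 : (16 : ℝ) ^ d = 8 ^ d * 2 ^ d := by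
      rw [← mul_pow]
      norm_num
    calc b3 / (4 * 16 ^ d) * (n : ℝ) ^ d = b3 / (4 * 8 ^ d) * ((n : ℝ) / 2) ^ d := by
          rw [div_pow, h16]
          field_simp
      _ ≤ b3 / (4 * 8 ^ d) * (m * L) ^ d := mul_le_mul_of_nonneg_left h3 (by positivity)
      _ = x / 2 * (m : ℝ) ^ d := by
          rw [hx, mul_pow]
          ring
      _ ≤ _ := mul_le_mul_of_nonneg_right h2 (by positivity)

/-- the product over the vertices -/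
private lemma C3_pow {C A1 c4 ε N : ℝ} {n d : ℕ} (hC : 0 < C) (hε : 0 < ε) (hA1 : 1 ≤ A1) (hA1' : 4 * C ≤ c4 * A1)
    (hN : N = (n : ℝ) ^ d) :
    (1 + C * (1 / Real.sqrt (A1 / ε ^ 2) + ε) / (A1 / ε ^ 2)) ^ (n ^ d) ≤
      Real.exp (c4 * (ε ^ 3 * N) / 2) := by
  have hA10 : 0 < A1 := by linarith
  have hsq : 1 / Real.sqrt (A1 / ε ^ 2) ≤ ε := by
    have h1 : 1 / ε ≤ Real.sqrt (A1 / ε ^ 2) := by
      apply Real.le_sqrt_of_sq_le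
      rw [div_pow, one_pow]
      exact div_le_div_of_nonneg_right hA1 (by positivity)
    have h2 := one_div_le_one_div_of_le (by positivity) h1
    rwa [one_div_one_div] at h2
  have hbase : 1 + C * (1 / Real.sqrt (A1 / ε ^ 2) + ε) / (A1 / ε ^ 2) ≤
      Real.exp (c4 * ε ^ 3 / 2) := by
    have h1 : C * (1 / Real.sqrt (A1 / ε ^ 2) + ε) / (A1 / ε ^ 2) ≤ c4 * ε ^ 3 / 2 := by
      rw [div_le_iff₀ (by positivity)]
      have h2 : C * (1 / Real.sqrt (A1 / ε ^ 2) + ε) ≤ C * (ε + ε) :=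
        mul_le_mul_of_nonneg_left (by linarith) hC.le
      have h3 : c4 * ε ^ 3 / 2 * (A1 / ε ^ 2) = c4 * A1 * ε / 2 := by field_simp
      have h4 : 4 * C * ε ≤ c4 * A1 * ε := mul_le_mul_of_nonneg_right hA1' hε.le
      rw [h3]
      linarith
    have h2 := Real.add_one_le_exp (c4 * ε ^ 3 / 2)
    linarith
  calc (1 + C * (1 / Real.sqrt (A1 / ε ^ 2) + ε) / (A1 / ε ^ 2)) ^ (n ^ d)
      ≤ (Real.exp (c4 * ε ^ 3 / 2)) ^ (n ^ d) := by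
        apply pow_le_pow_left₀ _ hbase
        have : 0 ≤ C * (1 / Real.sqrt (A1 / ε ^ 2) + ε) / (A1 / ε ^ 2) := by positivity
        linarith
    _ = Real.exp (c4 * (ε ^ 3 * N) / 2) := by
        rw [← Real.exp_nat_mul]
        congr 1
        rw [hN]
        push_cast
        ring

/-- the exponent -/
private lemma C3_exp {A c4 ε N S σ δ Lg : ℝ} {n d : ℕ} (hd : 7 ≤ d) (hc4 : 0 < c4) (hε : 0 < ε) (hσ : 0 < σ)
    (hn1 : (1 : ℝ) ≤ (n : ℝ)) (hN : N = (n : ℝ) ^ d) (hA : A ≤ ε * (n : ℝ) ^ 2) (hA1le : 1 ≤ A)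
    (hAS : 2 / c4 * S ≤ A) (hS : S = (d : ℝ) + σ + Lg) (hLg : Lg = |Real.log (2 / δ)|) (hLg0 : 0 ≤ Lg) :
    d * (n : ℝ) + Real.log (2 / δ) + σ ≤ c4 * (ε ^ 3 * N) / 2 := by
  have h1 : A ^ 3 * (n : ℝ) ≤ ε ^ 3 * N := by
    have h2 : N = ((n : ℝ) ^ 2) ^ 3 * (n : ℝ) ^ (d - 6) := by
      rw [hN, ← pow_mul, ← pow_add]; congr 1; omega
    have h3 : (n : ℝ) ≤ (n : ℝ) ^ (d - 6) := by
      calc (n : ℝ) = (n : ℝ) ^ 1 := (pow_one _).symm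
        _ ≤ (n : ℝ) ^ (d - 6) := pow_le_pow_right₀ hn1 (by omega)
    have h4 : A ^ 3 ≤ (ε * (n : ℝ) ^ 2) ^ 3 := pow_le_pow_left₀ (by linarith) hA 3
    calc A ^ 3 * (n : ℝ) ≤ (ε * (n : ℝ) ^ 2) ^ 3 * (n : ℝ) ^ (d - 6) :=
          mul_le_mul h4 h3 (by positivity) (by positivity)
      _ = ε ^ 3 * N := by rw [h2]; ring
  have h5 : 2 / c4 * S ≤ A ^ 3 := by
    have : A ≤ A ^ 3 := by
      calc A = A ^ 1 := (pow_one _).symm
        _ ≤ A ^ 3 := pow_le_pow_right₀ hA1le (by norm_num)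
    linarith
  have h6 : S * n ≤ c4 * (ε ^ 3 * N) / 2 := by
    have h7 : (2 / c4 * S) * n ≤ ε ^ 3 * N :=
      le_trans (mul_le_mul_of_nonneg_right h5 (by linarith)) h1
    have h8 := mul_le_mul_of_nonneg_left h7 hc4.le
    have h9 : c4 * ((2 / c4 * S) * n) = 2 * (S * n) := by field_simp
    rw [h9] at h8
    linarith
  have h10 : Real.log (2 / δ) ≤ Lg := by rw [hLg]; exact le_abs_self _
  have h11 : d * (n : ℝ) + (σ + Lg) ≤ S * n := by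
    rw [hS]
    have : (σ + Lg) * 1 ≤ (σ + Lg) * n := mul_le_mul_of_nonneg_left hn1 (by linarith)
    linarith
  linarith

/-- Row C3. Let `σ = K c3/16`, `x = 1 - exp (-σ)`. As in `spr_small` (finished file 29w_F4.lean): `(ε/4) κ ≥ σ`, `two_hop_const` with `B * j` gives `j1 ≥ x B j - 1` and second term at most
`exp (-(x B j/4))`. With `B m^d ≥ b3 n^d` and `1/m² ≥ ε/K`: `B m^(d-6) = B m^d/m^6 ≥ b3 n^d (ε/K)^3`. So `(ε/4) B (kk+1) ≥ σ B m^(d-6) ≥ σ b3 ε³ n^d/K³`, `(ε/4) j1 κ ≥ σ j1 ≥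
σ x c3 b3 ε³ n^d/K³ - σ`, and the sum of the two terms is at most `2 exp (σ - c4 ε³ n^d)` with `c4 > 0` depending on `K, c3, b3` only. Choose `A1 = max 1 (4 C/c4)`:
`(1 + f/h)^(n^d) ≤ exp (n^d f/h)`, `f/h = C (ε/√A1 + ε) ε²/A1 ≤ 2 C ε³/A1 ≤ c4 ε³/2`. It remains `n^d 2 exp (σ - c4 ε³ n^d/2) ≤ δ`: `ε³ n^d ≥ (ε n²)³ n^(d-6) ≥ A³ n` and `n^d ≤ exp (d n)`,
so `A³ ≥ (2/c4)(d + σ + log (2/δ) + 1)` is enough (`n ≥ 1`). -/
lemma fam_small (d : ℕ) (hd : 7 ≤ d) (K c3 b3 C δ : ℝ) (hK : 0 < K) (hc3 : 0 < c3) (hb3 : 0 < b3)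
    (hC : 0 < C) (hδ : 0 < δ) :
    ∃ A1 A : ℝ, 1 ≤ A1 ∧ 0 < A ∧ ∀ (ε : ℝ) (n m B kk κ j : ℕ), 1 ≤ m → 1 ≤ n → 0 < ε → ε ≤ 1 →
      (m : ℝ) ^ 2 * ε ≤ K → K ≤ 4 * ((m : ℝ) ^ 2 * ε) → A ≤ ε * (n : ℝ) ^ 2 →
      b3 * (n : ℝ) ^ d ≤ B * (m : ℝ) ^ d → c3 * (m : ℝ) ^ (d - 6) ≤ j → c3 * (m : ℝ) ^ 2 ≤ κ →
      c3 * (m : ℝ) ^ (d - 4) ≤ kk →
      ∃ j1 : ℕ, (n : ℝ) ^ d * (((1 - ε / 4) ^ (min (B * (kk + 1)) (j1 * κ)) +
        2 ^ j1 * (1 - (1 - (1 - ε / 4) ^ κ) / 2) ^ (2 * (B * j))) *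
          (1 + C * (1 / Real.sqrt (A1 / ε ^ 2) + ε) / (A1 / ε ^ 2)) ^ (n ^ d)) ≤ δ := by
  obtain ⟨σ, hσd⟩ : ∃ σ : ℝ, σ = K * c3 / 16 := ⟨_, rfl⟩
  have hσ : 0 < σ := by rw [hσd]; positivity
  obtain ⟨x, hxd⟩ : ∃ x : ℝ, x = 1 - Real.exp (-σ) := ⟨_, rfl⟩
  have hx : 0 < x := by
    have : Real.exp (-σ) < 1 := by rw [Real.exp_lt_one_iff]; linarith
    rw [hxd]; linarith
  obtain ⟨c5, hc5d⟩ : ∃ c5 : ℝ, c5 = min σ (min (σ * (x * c3)) (x * c3 / 4)) := ⟨_, rfl⟩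
  have hc5 : 0 < c5 := by
    rw [hc5d]
    exact lt_min hσ (lt_min (by positivity) (by positivity))
  have hc5a : c5 ≤ σ := by rw [hc5d]; exact min_le_left _ _
  have hc5b : c5 ≤ σ * (x * c3) := by
    rw [hc5d]; exact le_trans (min_le_right _ _) (min_le_left _ _)
  have hc5c : c5 ≤ x * c3 / 4 := by
    rw [hc5d]; exact le_trans (min_le_right _ _) (min_le_right _ _)
  obtain ⟨c4, hc4d⟩ : ∃ c4 : ℝ, c4 = c5 * (b3 / K ^ 3) := ⟨_, rfl⟩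
  have hc4 : 0 < c4 := by rw [hc4d]; positivity
  obtain ⟨Lg, hLg⟩ : ∃ Lg : ℝ, Lg = |Real.log (2 / δ)| := ⟨_, rfl⟩
  have hLg0 : 0 ≤ Lg := by rw [hLg]; exact abs_nonneg _
  obtain ⟨S, hS⟩ : ∃ S : ℝ, S = (d : ℝ) + σ + Lg := ⟨_, rfl⟩
  have hd0 : (0 : ℝ) ≤ (d : ℝ) := Nat.cast_nonneg _
  have hS0 : 0 ≤ S := by rw [hS]; positivity
  refine ⟨1 + 4 * C / c4, 1 + 2 / c4 * S, by linarith [show 0 < 4 * C / c4 by positivity],
    by positivity, ?_⟩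
  intro ε n m B kk κ j hm hn hε hε1 hKu hKm hA hB hj hκ hkk
  obtain ⟨A1, hA1d⟩ : ∃ A1 : ℝ, A1 = 1 + 4 * C / c4 := ⟨_, rfl⟩
  have hA1 : 1 ≤ A1 := by rw [hA1d]; linarith [show 0 < 4 * C / c4 by positivity]
  have hA1' : 4 * C ≤ c4 * A1 := by
    have : c4 * A1 = c4 + 4 * C := by rw [hA1d]; field_simp
    linarith
  rw [← hA1d]
  obtain ⟨A, hAd⟩ : ∃ A : ℝ, A = 1 + 2 / c4 * S := ⟨_, rfl⟩
  rw [← hAd] at hA
  have hAS : 2 / c4 * S ≤ A := by rw [hAd]; linarith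
  have hA1le : 1 ≤ A := by rw [hAd]; linarith [show 0 ≤ 2 / c4 * S by positivity]
  have hm1 : (1 : ℝ) ≤ (m : ℝ) := by exact_mod_cast hm
  have hn1 : (1 : ℝ) ≤ (n : ℝ) := by exact_mod_cast hn
  obtain ⟨M, hM⟩ : ∃ M : ℝ, M = (m : ℝ) ^ (d - 6) := ⟨_, rfl⟩
  have hM0 : 0 < M := by rw [hM]; positivity
  have hsp : (m : ℝ) ^ (d - 4) = (m : ℝ) ^ 2 * M := by
    rw [hM, ← pow_add]; congr 1; omega
  have hsp2 : (m : ℝ) ^ d = ((m : ℝ) ^ 2) ^ 3 * M := by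
    rw [hM, ← pow_mul, ← pow_add]; congr 1; omega
  rw [← hM] at hj
  rw [hsp] at hkk
  obtain ⟨N, hN⟩ : ∃ N : ℝ, N = (n : ℝ) ^ d := ⟨_, rfl⟩
  have hN0 : 0 < N := by rw [hN]; positivity
  rw [hsp2, ← hN] at hB
  rw [← hN]
  obtain ⟨Y, hY⟩ : ∃ Y : ℝ, Y = b3 / K ^ 3 * (ε ^ 3 * N) := ⟨_, rfl⟩
  have hY0 : 0 ≤ Y := by rw [hY]; positivity
  have hB0 : (0 : ℝ) ≤ (B : ℝ) := Nat.cast_nonneg _
  -- B M is at least Y
  have hBM : Y ≤ B * M := by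
    have h1 : ((m : ℝ) ^ 2 * ε) ^ 3 ≤ K ^ 3 := pow_le_pow_left₀ (by positivity) hKu 3
    have h2 : b3 * (ε ^ 3 * N) ≤ K ^ 3 * (B * M) := by
      calc b3 * (ε ^ 3 * N) = ε ^ 3 * (b3 * N) := by ring
        _ ≤ ε ^ 3 * (B * (((m : ℝ) ^ 2) ^ 3 * M)) := mul_le_mul_of_nonneg_left hB (by positivity)
        _ = ((m : ℝ) ^ 2 * ε) ^ 3 * (B * M) := by ring
        _ ≤ K ^ 3 * (B * M) := mul_le_mul_of_nonneg_right h1 (by positivity)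
    rw [hY, div_mul_eq_mul_div, div_le_iff₀ (by positivity)]
    linarith
  obtain ⟨s, hs⟩ : ∃ s : ℝ, s = ε / 4 := ⟨_, rfl⟩
  rw [← hs]
  have hs0 : 0 ≤ s := by rw [hs]; positivity
  have hs1 : s ≤ 1 := by rw [hs]; linarith
  have hsm : σ ≤ s * (c3 * (m : ℝ) ^ 2) := by
    rw [hσd, hs]; nlinarith [mul_le_mul_of_nonneg_left hKm hc3.le]
  have hsκ : σ ≤ s * κ := le_trans hsm (mul_le_mul_of_nonneg_left hκ hs0)
  obtain ⟨j1, hj1, hj2⟩ := two_hop_const hs0 hs1 hσ κ (B * j) hsκ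
  rw [← hxd] at hj1 hj2
  refine ⟨j1, ?_⟩
  have hBj : c3 * Y ≤ ((B * j : ℕ) : ℝ) := by
    push_cast
    calc c3 * Y ≤ c3 * (B * M) := mul_le_mul_of_nonneg_left hBM hc3.le
      _ = B * (c3 * M) := by ring
      _ ≤ B * j := mul_le_mul_of_nonneg_left hj hB0
  have hxBj : x * (c3 * Y) ≤ x * ((B * j : ℕ) : ℝ) := mul_le_mul_of_nonneg_left hBj hx.le
  have hsecond : (2 : ℝ) ^ j1 * (1 - (1 - (1 - s) ^ κ) / 2) ^ (2 * (B * j)) ≤
      Real.exp (σ - c5 * Y) := by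
    refine le_trans hj2 (Real.exp_le_exp.mpr ?_)
    have h1 : c5 * Y ≤ x * c3 / 4 * Y := mul_le_mul_of_nonneg_right hc5c hY0
    have h2 : x * c3 / 4 * Y = x * (c3 * Y) / 4 := by ring
    linarith
  have hfirst : (1 - s) ^ (min (B * (kk + 1)) (j1 * κ)) ≤ Real.exp (σ - c5 * Y) := by
    refine le_trans (pow_le_exp hs0 hs1 _) (Real.exp_le_exp.mpr ?_)
    rcases le_total (B * (kk + 1)) (j1 * κ) with h | h
    · rw [min_eq_left h]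
      have ha : σ * (B * M) ≤ s * (c3 * (m : ℝ) ^ 2) * (B * M) :=
        mul_le_mul_of_nonneg_right hsm (by positivity)
      have hb : (s * B) * (c3 * ((m : ℝ) ^ 2 * M)) ≤ (s * B) * (kk : ℝ) :=
        mul_le_mul_of_nonneg_left hkk (by positivity)
      have hc : c5 * Y ≤ σ * (B * M) := mul_le_mul hc5a hBM hY0 hσ.le
      have he : 0 ≤ s * B := by positivity
      push_cast
      have h1 : s * ((B : ℝ) * ((kk : ℝ) + 1)) = s * B * kk + s * B := by ring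
      have h2 : s * (c3 * (m : ℝ) ^ 2) * (B * M) = (s * B) * (c3 * ((m : ℝ) ^ 2 * M)) := by ring
      rw [h1]
      linarith
    · rw [min_eq_right h]
      have hj0 : (0 : ℝ) ≤ (j1 : ℝ) := Nat.cast_nonneg _
      have ha : (j1 : ℝ) * σ ≤ (j1 : ℝ) * (s * κ) := mul_le_mul_of_nonneg_left hsκ hj0
      have hb : σ * (x * (c3 * Y) - 1) ≤ σ * (j1 : ℝ) :=
        mul_le_mul_of_nonneg_left (by linarith) hσ.le
      have hc : c5 * Y ≤ σ * (x * c3) * Y := mul_le_mul_of_nonneg_right hc5b hY0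
      have h1 : σ * (x * (c3 * Y) - 1) = σ * (x * c3) * Y - σ := by ring
      have h2 : s * (((j1 * κ : ℕ) : ℝ)) = (j1 : ℝ) * (s * κ) := by push_cast; ring
      rw [h2]
      linarith
  -- the product over the vertices
  have hYc : c5 * Y = c4 * (ε ^ 3 * N) := by rw [hY, hc4d]; ring
  have hA10 : 0 < A1 := by linarith
  have hpow := C3_pow hC hε hA1 hA1' hN
  -- the exponent
  have hexp := C3_exp hd hc4 hε hσ hn1 hN hA hA1le hAS hS hLg hLg0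
  have hNe : N ≤ Real.exp (d * (n : ℝ)) := by
    rw [hN, Real.exp_nat_mul]
    apply pow_le_pow_left₀ (by linarith)
    have := Real.add_one_le_exp (n : ℝ)
    linarith
  have hsum : (1 - s) ^ (min (B * (kk + 1)) (j1 * κ)) +
      2 ^ j1 * (1 - (1 - (1 - s) ^ κ) / 2) ^ (2 * (B * j)) ≤ 2 * Real.exp (σ - c5 * Y) := by
    linarith
  calc N * (((1 - s) ^ (min (B * (kk + 1)) (j1 * κ)) +
        2 ^ j1 * (1 - (1 - (1 - s) ^ κ) / 2) ^ (2 * (B * j))) *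
          (1 + C * (1 / Real.sqrt (A1 / ε ^ 2) + ε) / (A1 / ε ^ 2)) ^ (n ^ d))
      ≤ N * ((2 * Real.exp (σ - c5 * Y)) * Real.exp (c4 * (ε ^ 3 * N) / 2)) := by
        apply mul_le_mul_of_nonneg_left _ hN0.le
        exact mul_le_mul hsum hpow (pow_nonneg (by
          have : 0 ≤ C * (1 / Real.sqrt (A1 / ε ^ 2) + ε) / (A1 / ε ^ 2) := by positivity
          linarith) _) (by positivity)
    _ ≤ Real.exp (d * (n : ℝ)) * ((2 * Real.exp (σ - c5 * Y)) * Real.exp (c4 * (ε ^ 3 * N) / 2)) :=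
        mul_le_mul_of_nonneg_right hNe (by positivity)
    _ = 2 * Real.exp (d * (n : ℝ) + (σ - c5 * Y) + c4 * (ε ^ 3 * N) / 2) := by
        rw [Real.exp_add, Real.exp_add]; ring
    _ ≤ 2 * Real.exp (-Real.log (2 / δ)) := by
        apply mul_le_mul_of_nonneg_left _ (by norm_num)
        apply Real.exp_le_exp.mpr
        rw [hYc]
        linarith
    _ = δ := by
        rw [Real.exp_neg, Real.exp_log (by positivity)]
        field_simp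

end Pool.Agent.PERC29.AE
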