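import Pool.Agent.Lib.MP_29e17e_pr.Two

set_option autoImplicit false
set_option linter.unusedSectionVars false

/-! Rows 29y-P1 .. 29y-P6: change of the percolation parameter for events of the cluster of one vertex (page 29y_helper62.md, Section 1). -/

open Finset

namespace Pool.Agent.PERC29.AE

variable {V : Type*} [Fintype V] [DecidableEq V] {E : Type*} [Fintype E] [DecidableEq E]
  {ends : E → Sym2 V}

/-- The ratio of the weights of an edge at the levels `p + s` and `p`. -/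
noncomputable def wr (p s : ℝ) (b : Bool) : ℝ :=
  if b = true then (p + s) / p else (1 - p - s) / (1 - p)

private lemma P1_wt {p s : ℝ} (hp : 0 < p) (hp1 : p < 1) (ω : E → Bool) :
    wt (p + s) ω = wt p ω * ∏ e, wr p s (ω e) := by
  unfold wt
  rw [← Finset.prod_mul_distrib]
  refine Finset.prod_congr rfl fun e _ => ?_
  have h1 : (1 : ℝ) - p ≠ 0 := by linarith
  unfold wr
  by_cases h : ω e = true
  · rw [if_pos h, if_pos h, if_pos h]
    field_simp
  · rw [if_neg h, if_neg h, if_neg h]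
    field_simp
    ring

private lemma P1_one {p s : ℝ} (hp : 0 < p) (hp1 : p < 1) (F : Finset E) :
    Ex p (fun ω : E → Bool => ∏ e ∈ F, wr p s (ω e)) = 1 := by
  classical
  have h1 : ∀ ω : E → Bool, wt p ω * ∏ e ∈ F, wr p s (ω e) =
      ∏ e, ((if ω e = true then p else 1 - p) * (if e ∈ F then wr p s (ω e) else 1)) := by
    intro ω
    rw [Finset.prod_mul_distrib, Finset.prod_ite_mem, Finset.univ_inter]
    rfl
  unfold Ex
  rw [Finset.sum_congr rfl (fun ω _ => h1 ω)]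
  have h2 := Finset.prod_univ_sum (fun _ : E => (Finset.univ : Finset Bool))
    (fun e b => (if b = true then p else 1 - p) * (if e ∈ F then wr p s b else 1))
  rw [Fintype.piFinset_univ] at h2
  rw [← h2]
  apply Finset.prod_eq_one
  intro e _
  have h3 : (1 : ℝ) - p ≠ 0 := by linarith
  rw [Fintype.sum_bool]
  by_cases he : e ∈ F
  · simp only [he, if_true, wr, Bool.false_eq_true, if_false]
    field_simp
    ring
  · simp only [he, if_true, if_false, Bool.false_eq_true]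
    ring

/-- Row P1. Change of measure for a function of the coordinates in `D`. `wt (p+s) ω = wt p ω * ∏ e, wr p s (ω e)` (all `e`), the product over the
complement of `D` is independent of `g * ∏ e ∈ D` (`Ex_indep`) and has mean one (`Ex p (∏ e ∈ F, wr p s (ω e)) = 1` for every finset `F`: the same identity
`Ex (p+s) 1 = 1` and induction, or `Ex_indep` and `p * ((p+s)/p) + (1-p) * ((1-p-s)/(1-p)) = 1`). -/
lemma Ex_change {p s : ℝ} (hp : 0 < p) (hp1 : p < 1) (D : Finset E) (g : (E → Bool) → ℝ)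
    (hg : ∀ ω ω' : E → Bool, (∀ e ∈ D, ω e = ω' e) → g ω = g ω') :
    Ex (p + s) g = Ex p (fun ω => g ω * ∏ e ∈ D, wr p s (ω e)) := by
  classical
  have h1 : Ex (p + s) g = Ex p (fun ω => (g ω * ∏ e ∈ D, wr p s (ω e)) *
      ∏ e ∈ Dᶜ, wr p s (ω e)) := by
    unfold Ex
    refine Finset.sum_congr rfl fun ω _ => ?_
    rw [P1_wt hp hp1, ← Finset.prod_mul_prod_compl D (fun e => wr p s (ω e))]
    ring
  rw [h1, Ex_indep p (D : Set E) (fun ω => g ω * ∏ e ∈ D, wr p s (ω e))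
    (fun ω => ∏ e ∈ Dᶜ, wr p s (ω e)), P1_one hp hp1, mul_one]
  · intro ω ω' h
    have h2 : ∏ e ∈ D, wr p s (ω e) = ∏ e ∈ D, wr p s (ω' e) :=
      Finset.prod_congr rfl fun e he => by rw [h e (Finset.mem_coe.2 he)]
    show g ω * ∏ e ∈ D, wr p s (ω e) = g ω' * ∏ e ∈ D, wr p s (ω' e)
    rw [h2, hg ω ω' fun e he => h e (Finset.mem_coe.2 he)]
  · intro ω ω' h
    refine Finset.prod_congr rfl fun e he => ?_
    rw [h e (fun h3 => Finset.mem_compl.1 he (Finset.mem_coe.1 h3))]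

open scoped Classical in
/-- The edges with an endpoint in `S`. -/
noncomputable def tch (ends : E → Sym2 V) (S : Finset V) : Finset E :=
  Finset.univ.filter (fun e => ∃ v ∈ S, v ∈ ends e)

/-- `F` depends only on the edges with an endpoint in the cluster of `x`. -/
def Lcx (ends : E → Sym2 V) (x : V) (F : (E → Bool) → ℝ) : Prop :=
  ∀ ω ω' : E → Bool, (∀ e ∈ tch ends (cu ends ω x), ω e = ω' e) → F ω = F ω'

/-- The density of the law of the cluster of `x` at level `p + s` with respect to the law at level `p`. -/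
noncomputable def RN (ends : E → Sym2 V) (p s : ℝ) (x : V) (ω : E → Bool) : ℝ :=
  ∏ e ∈ tch ends (cu ends ω x), wr p s (ω e)

open scoped Classical in
/-- Row P2. Sum over the value `S` of the cluster of `x`: `1[cu ω x = S] F ω` depends only on the edges in `tch S` (`cl_eq_dep`, `hF`), `Ex_change` with
`D = tch S`. -/
lemma Ex_RN {p s : ℝ} (hp : 0 < p) (hp1 : p < 1) (x : V) (F : (E → Bool) → ℝ) (hF : Lcx ends x F) :
    Ex (p + s) F = Ex p (fun ω => F ω * RN ends p s x ω) := by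
  have hpt : ∀ ω, F ω = ∑ S : Finset V, (if cu ends ω x = S then (1 : ℝ) else 0) * F ω := by
    intro ω
    rw [← Finset.sum_mul, Finset.sum_ite_eq]
    simp
  have h1 : Ex (p + s) F = ∑ S : Finset V, Ex (p + s)
      (fun ω => (if cu ends ω x = S then (1 : ℝ) else 0) * F ω) := by
    rw [← Ex_sum]
    exact Ex_congr hpt
  rw [h1]
  have h2 : ∀ S : Finset V, Ex (p + s) (fun ω => (if cu ends ω x = S then (1 : ℝ) else 0) * F ω) =
      Ex p (fun ω => ((if cu ends ω x = S then (1 : ℝ) else 0) * F ω) *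
        ∏ e ∈ tch ends S, wr p s (ω e)) := by
    intro S
    apply Ex_change hp hp1
    intro ω ω' hh
    have key : ∀ ω ω' : E → Bool, (∀ e ∈ tch ends S, ω e = ω' e) → cu ends ω x = S →
        cu ends ω' x = S := by
      intro ω ω' hh hA
      refine cl_eq_dep (fun e' a b h2 _ _ h5 => hh e' ?_) hA
      unfold tch
      rw [Finset.mem_filter]
      refine ⟨Finset.mem_univ _, a, h5, ?_⟩
      rw [h2]
      exact Sym2.mem_mk_left a b
    by_cases hc : cu ends ω x = S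
    · have hc' : cu ends ω' x = S := key ω ω' hh hc
      have hF' : F ω = F ω' := by
        apply hF
        rw [hc]
        exact hh
      simp only [hc, hc', hF']
    · have hc' : ¬ cu ends ω' x = S := by
        intro h
        exact hc (key ω' ω (fun e he => (hh e he).symm) h)
      simp only [if_neg hc, if_neg hc', zero_mul]
  rw [Finset.sum_congr rfl (fun S _ => h2 S), ← Ex_sum]
  apply Ex_congr
  intro ω
  have h3 : ∀ S : Finset V, ((if cu ends ω x = S then (1 : ℝ) else 0) * F ω) *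
      ∏ e ∈ tch ends S, wr p s (ω e) =
      if cu ends ω x = S then F ω * ∏ e ∈ tch ends S, wr p s (ω e) else 0 := by
    intro S
    split_ifs <;> ring
  rw [Finset.sum_congr rfl (fun S _ => h3 S), Finset.sum_ite_eq]
  simp [RN]

private lemma P3_pos {z : ℝ} (hz : 0 ≤ z) : Real.exp z ≤ Real.exp (z ^ 2) * (1 + z) := by
  have h1 : (0 : ℝ) < 1 + z := by linarith
  have h2 : z - z ^ 2 ≤ Real.log (1 + z) := by
    have h3 := Real.one_sub_inv_le_log_of_pos h1
    have h4 : z - z ^ 2 ≤ 1 - (1 + z)⁻¹ := by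
      have h5 : 1 - (1 + z)⁻¹ = z / (1 + z) := by field_simp; ring
      rw [h5, le_div_iff₀ h1]
      nlinarith [pow_nonneg hz 3]
    linarith
  have h6 : Real.exp (z - z ^ 2) ≤ 1 + z := by
    calc Real.exp (z - z ^ 2) ≤ Real.exp (Real.log (1 + z)) := Real.exp_le_exp.2 h2
      _ = 1 + z := Real.exp_log h1
  calc Real.exp z = Real.exp (z ^ 2) * Real.exp (z - z ^ 2) := by
        rw [← Real.exp_add]; congr 1; ring
    _ ≤ Real.exp (z ^ 2) * (1 + z) := mul_le_mul_of_nonneg_left h6 (Real.exp_pos _).le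

private lemma P3_neg {z : ℝ} (hz : 0 ≤ z) (hz1 : z ≤ 1 / 2) :
    Real.exp (-z) ≤ Real.exp (z ^ 2) * (1 - z) := by
  have h0 : 0 ≤ z + z ^ 2 := by positivity
  have h1 := Real.quadratic_le_exp_of_nonneg h0
  have h2 : 1 ≤ (1 - z) * Real.exp (z + z ^ 2) := by
    have h3 : (1 - z) * (1 + (z + z ^ 2) + (z + z ^ 2) ^ 2 / 2) ≤
        (1 - z) * Real.exp (z + z ^ 2) := mul_le_mul_of_nonneg_left h1 (by linarith)
    have h4 : (1 - z) * (1 + (z + z ^ 2) + (z + z ^ 2) ^ 2 / 2) =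
        1 + z ^ 2 / 2 * (1 - z - z ^ 2 - z ^ 3) := by ring
    have h5 : 0 ≤ 1 - z - z ^ 2 - z ^ 3 := by
      have h6 : z ^ 2 ≤ 1 / 2 * z := by nlinarith
      have h7 : z ^ 3 ≤ 1 / 4 * z := by nlinarith
      linarith
    have h8 : 0 ≤ z ^ 2 / 2 * (1 - z - z ^ 2 - z ^ 3) := mul_nonneg (by positivity) h5
    linarith
  calc Real.exp (-z) = Real.exp (-z) * 1 := (mul_one _).symm
    _ ≤ Real.exp (-z) * ((1 - z) * Real.exp (z + z ^ 2)) :=
        mul_le_mul_of_nonneg_left h2 (Real.exp_pos _).le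
    _ = (Real.exp (-z) * Real.exp (z + z ^ 2)) * (1 - z) := by ring
    _ = Real.exp (z ^ 2) * (1 - z) := by
        rw [← Real.exp_add]; congr 2; ring

private lemma P3_exp {a cp z : ℝ} (ha : 0 ≤ a) (hcp : 0 < cp) (hz : 0 ≤ z) (h : z ≤ a / cp) :
    Real.exp (z ^ 2) ≤ Real.exp (a ^ 2 / cp ^ 2) := by
  rw [Real.exp_le_exp, ← div_pow]
  exact pow_le_pow_left₀ hz h 2

/-- Row P3. `(1 + y)^κ ≤ exp (κ y) ≤ (1 + κ y) exp ((κ y)²/2)` with `y = s/p`; `(1 - y)^κ ≤ exp (-κ y) ≤ (1 - κ y) exp ((κ y)²)` with `y = s/(1-p)`, `κ y ≤ 1/2`. -/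
lemma wr_pow {p s cp : ℝ} (κ : ℕ) (hcp : 0 < cp) (hp : cp ≤ p) (hp1 : cp ≤ 1 - p) (hs : 0 ≤ s)
    (hκ : 1 ≤ κ) (hκs : κ * s ≤ cp / 2) (b : Bool) :
    0 ≤ wr p s b ∧ wr p s b ^ κ ≤ Real.exp ((κ : ℝ) ^ 2 * s ^ 2 / cp ^ 2) * wr p (κ * s) b := by
  have hp0 : 0 < p := lt_of_lt_of_le hcp hp
  have hq0 : 0 < 1 - p := lt_of_lt_of_le hcp hp1
  have hκR : (1 : ℝ) ≤ κ := by exact_mod_cast hκ
  have hκ0 : (0 : ℝ) ≤ κ := by linarith
  have hκs0 : 0 ≤ κ * s := mul_nonneg hκ0 hs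
  have hsκ : s ≤ κ * s := le_mul_of_one_le_left hs hκR
  cases b with
  | true =>
    have e1 : wr p s true = 1 + s / p := by
      unfold wr
      rw [if_pos rfl, add_div, div_self hp0.ne']
    have e2 : wr p (κ * s) true = 1 + κ * s / p := by
      unfold wr
      rw [if_pos rfl, add_div, div_self hp0.ne']
    rw [e1, e2]
    have hy : 0 ≤ s / p := div_nonneg hs hp0.le
    have hz0 : 0 ≤ κ * s / p := div_nonneg hκs0 hp0.le
    have hz1 : κ * s / p ≤ κ * s / cp := div_le_div_of_nonneg_left hκs0 hcp hp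
    refine ⟨by linarith, ?_⟩
    have h1 : (1 + s / p) ^ κ ≤ Real.exp (κ * s / p) := by
      have h2 : 1 + s / p ≤ Real.exp (s / p) := by
        have := Real.add_one_le_exp (s / p)
        linarith
      calc (1 + s / p) ^ κ ≤ Real.exp (s / p) ^ κ := pow_le_pow_left₀ (by linarith) h2 κ
        _ = Real.exp (κ * s / p) := by rw [← Real.exp_nat_mul, mul_div_assoc]
    have h9 := P3_exp hκs0 hcp hz0 hz1
    rw [mul_pow] at h9
    exact h1.trans ((P3_pos hz0).trans (mul_le_mul_of_nonneg_right h9 (by linarith)))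
  | false =>
    have e1 : wr p s false = 1 - s / (1 - p) := by
      unfold wr
      rw [if_neg (by simp), sub_div, div_self hq0.ne']
    have e2 : wr p (κ * s) false = 1 - κ * s / (1 - p) := by
      unfold wr
      rw [if_neg (by simp), sub_div, div_self hq0.ne']
    rw [e1, e2]
    have hy : 0 ≤ s / (1 - p) := div_nonneg hs hq0.le
    have hz0 : 0 ≤ κ * s / (1 - p) := div_nonneg hκs0 hq0.le
    have hz1 : κ * s / (1 - p) ≤ κ * s / cp := div_le_div_of_nonneg_left hκs0 hcp hp1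
    have hz2 : κ * s / cp ≤ 1 / 2 := by
      rw [div_le_iff₀ hcp]; linarith
    have hyz : s / (1 - p) ≤ κ * s / (1 - p) := div_le_div_of_nonneg_right hsκ hq0.le
    refine ⟨by linarith, ?_⟩
    have h1 : (1 - s / (1 - p)) ^ κ ≤ Real.exp (-(κ * s / (1 - p))) := by
      have h2 : 1 - s / (1 - p) ≤ Real.exp (-(s / (1 - p))) := Real.one_sub_le_exp_neg _
      calc (1 - s / (1 - p)) ^ κ ≤ Real.exp (-(s / (1 - p))) ^ κ :=
            pow_le_pow_left₀ (by linarith) h2 κ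
        _ = Real.exp (-(κ * s / (1 - p))) := by
            rw [← Real.exp_nat_mul, mul_neg, mul_div_assoc]
    have h9 := P3_exp hκs0 hcp hz0 hz1
    rw [mul_pow] at h9
    exact h1.trans ((P3_neg hz0 (hz1.trans hz2)).trans (mul_le_mul_of_nonneg_right h9
      (by linarith)))

open scoped Classical in
/-- Row P3 (second half). Product over the at most `Dg |C|` edges with an endpoint in the cluster. -/
lemma RN_pow {p s cp : ℝ} (κ : ℕ) (hcp : 0 < cp) (hp : cp ≤ p) (hp1 : cp ≤ 1 - p) (hs : 0 ≤ s)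
    (hκ : 1 ≤ κ) (hκs : κ * s ≤ cp / 2) (Dg : ℕ)
    (hdeg : ∀ v, (Finset.univ.filter (fun e => v ∈ ends e)).card ≤ Dg) (x : V) (ω : E → Bool) :
    0 ≤ RN ends p s x ω ∧ RN ends p s x ω ^ κ ≤
      Real.exp (Dg * cz ends ω x * ((κ : ℝ) ^ 2 * s ^ 2 / cp ^ 2)) * RN ends p (κ * s) x ω := by
  have hw := wr_pow κ hcp hp hp1 hs hκ hκs
  set c : ℝ := (κ : ℝ) ^ 2 * s ^ 2 / cp ^ 2 with hc
  have hc0 : 0 ≤ c := by positivity
  have hRN0 : 0 ≤ RN ends p s x ω := Finset.prod_nonneg fun e _ => (hw (ω e)).1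
  have hwκ : ∀ b, 0 ≤ wr p (κ * s) b := by
    intro b
    have h1 := hw b
    have h2 : 0 ≤ Real.exp c * wr p (κ * s) b := le_trans (pow_nonneg h1.1 κ) h1.2
    exact (mul_nonneg_iff_of_pos_left (Real.exp_pos c)).1 h2
  refine ⟨hRN0, ?_⟩
  have hcard : ((tch ends (cu ends ω x)).card : ℝ) ≤ Dg * cz ends ω x := by
    have h1 : tch ends (cu ends ω x) ⊆
        (cu ends ω x).biUnion (fun v => Finset.univ.filter (fun e => v ∈ ends e)) := by
      intro e he
      unfold tch at he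
      rw [Finset.mem_filter] at he
      obtain ⟨-, v, hv, hve⟩ := he
      rw [Finset.mem_biUnion]
      exact ⟨v, hv, Finset.mem_filter.2 ⟨Finset.mem_univ _, hve⟩⟩
    have h2 : (tch ends (cu ends ω x)).card ≤ (cu ends ω x).card * Dg := by
      calc (tch ends (cu ends ω x)).card
          ≤ ((cu ends ω x).biUnion (fun v => Finset.univ.filter (fun e => v ∈ ends e))).card :=
            Finset.card_le_card h1
        _ ≤ ∑ v ∈ cu ends ω x, (Finset.univ.filter (fun e => v ∈ ends e)).card :=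
            Finset.card_biUnion_le
        _ ≤ ∑ _v ∈ cu ends ω x, Dg := Finset.sum_le_sum fun v _ => hdeg v
        _ = (cu ends ω x).card * Dg := by rw [Finset.sum_const, smul_eq_mul]
    have h3 : ((tch ends (cu ends ω x)).card : ℝ) ≤ ((cu ends ω x).card : ℝ) * Dg := by
      exact_mod_cast h2
    unfold cz
    linarith
  calc RN ends p s x ω ^ κ = ∏ e ∈ tch ends (cu ends ω x), wr p s (ω e) ^ κ := by
        unfold RN
        rw [Finset.prod_pow]
    _ ≤ ∏ e ∈ tch ends (cu ends ω x), (Real.exp c * wr p (κ * s) (ω e)) :=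
        Finset.prod_le_prod (fun e _ => pow_nonneg (hw (ω e)).1 κ) fun e _ => (hw (ω e)).2
    _ = Real.exp c ^ (tch ends (cu ends ω x)).card * RN ends p (κ * s) x ω := by
        rw [Finset.prod_mul_distrib, Finset.prod_const]
        rfl
    _ = Real.exp ((tch ends (cu ends ω x)).card * c) * RN ends p (κ * s) x ω := by
        rw [← Real.exp_nat_mul]
    _ ≤ Real.exp (Dg * cz ends ω x * c) * RN ends p (κ * s) x ω := by
        apply mul_le_mul_of_nonneg_right _ (Finset.prod_nonneg fun e _ => hwκ (ω e))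
        rw [Real.exp_le_exp]
        exact mul_le_mul_of_nonneg_right hcard hc0

open scoped Classical in
/-- Row P4. `Ex (p+s) 1_A = Ex p (1_A RN)` (`Ex_RN`), and `RN ≤ T + RN^κ / T^(κ-1)` (if `RN > T` then `RN ≤ RN (RN/T)^(κ-1)`); `RN_pow` and `Ex_RN` for `κ s`. -/
lemma piece {p s cp v T : ℝ} (κ : ℕ) (hcp : 0 < cp) (hp : cp ≤ p) (hp1 : cp ≤ 1 - p) (hs : 0 ≤ s)
    (hκ : 1 ≤ κ) (hκs : κ * s ≤ cp / 2) (hT : 1 ≤ T) (Dg : ℕ)
    (hdeg : ∀ v, (Finset.univ.filter (fun e => v ∈ ends e)).card ≤ Dg) (x : V)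
    (A : (E → Bool) → Prop) (hA : Lcx ends x (fun ω => if A ω then (1 : ℝ) else 0))
    (hv : ∀ ω, A ω → cz ends ω x ≤ v) :
    Ex (p + s) (fun ω => if A ω then (1 : ℝ) else 0) ≤
      T * Ex p (fun ω => if A ω then (1 : ℝ) else 0) +
      Real.exp (Dg * v * ((κ : ℝ) ^ 2 * s ^ 2 / cp ^ 2)) / T ^ (κ - 1) *
        Ex (p + κ * s) (fun ω => if A ω then (1 : ℝ) else 0) := by
  have hs1 : 0 ≤ (κ : ℝ) * s := mul_nonneg (Nat.cast_nonneg κ) hs
  have hp0 : 0 < p := lt_of_lt_of_le hcp hp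
  have hp1' : p < 1 := by linarith
  have hT0 : 0 < T := lt_of_lt_of_le one_pos hT
  have hTκ : 0 < T ^ (κ - 1) := pow_pos hT0 _
  have key : ∀ ω : E → Bool, (if A ω then (1 : ℝ) else 0) * RN ends p s x ω ≤
      T * (if A ω then (1 : ℝ) else 0) +
        Real.exp (Dg * v * ((κ : ℝ) ^ 2 * s ^ 2 / cp ^ 2)) / T ^ (κ - 1) *
          ((if A ω then (1 : ℝ) else 0) * RN ends p (κ * s) x ω) := by
    intro ω
    by_cases h : A ω
    · simp only [h, if_true, one_mul, mul_one]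
      obtain ⟨hR0, hR1⟩ := RN_pow (ends := ends) κ hcp hp hp1 hs hκ hκs Dg hdeg x ω
      have hk2 : ((1 : ℕ) : ℝ) * ((κ : ℝ) * s) ≤ cp / 2 := by simpa using hκs
      obtain ⟨hQ0, -⟩ := RN_pow (ends := ends) 1 hcp hp hp1 hs1 le_rfl hk2 Dg hdeg x ω
      have h1 : Real.exp (Dg * cz ends ω x * ((κ : ℝ) ^ 2 * s ^ 2 / cp ^ 2)) ≤
          Real.exp (Dg * v * ((κ : ℝ) ^ 2 * s ^ 2 / cp ^ 2)) := by
        apply Real.exp_le_exp.2
        apply mul_le_mul_of_nonneg_right _ (by positivity)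
        exact mul_le_mul_of_nonneg_left (hv ω h) (Nat.cast_nonneg Dg)
      have h2 : RN ends p s x ω ^ κ ≤
          Real.exp (Dg * v * ((κ : ℝ) ^ 2 * s ^ 2 / cp ^ 2)) * RN ends p (κ * s) x ω :=
        hR1.trans (mul_le_mul_of_nonneg_right h1 hQ0)
      have h3 : RN ends p s x ω ≤ T + RN ends p s x ω ^ κ / T ^ (κ - 1) := by
        rcases le_or_gt (RN ends p s x ω) T with hle | hgt
        · have : 0 ≤ RN ends p s x ω ^ κ / T ^ (κ - 1) := div_nonneg (pow_nonneg hR0 _) hTκ.le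
          linarith
        · have h4 : RN ends p s x ω ≤ RN ends p s x ω ^ κ / T ^ (κ - 1) := by
            rw [le_div_iff₀ hTκ]
            obtain ⟨m, rfl⟩ : ∃ m, κ = m + 1 := ⟨κ - 1, by omega⟩
            rw [Nat.add_sub_cancel, pow_succ, mul_comm (RN ends p s x ω ^ m)]
            exact mul_le_mul_of_nonneg_left (pow_le_pow_left₀ hT0.le hgt.le m) hR0
          linarith
      have h5 : RN ends p s x ω ^ κ / T ^ (κ - 1) ≤
          Real.exp (Dg * v * ((κ : ℝ) ^ 2 * s ^ 2 / cp ^ 2)) / T ^ (κ - 1) * RN ends p (κ * s) x ω := by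
        rw [div_mul_eq_mul_div]
        exact div_le_div_of_nonneg_right h2 hTκ.le
      linarith
    · simp [h]
  calc Ex (p + s) (fun ω => if A ω then (1 : ℝ) else 0)
      = Ex p (fun ω => (if A ω then (1 : ℝ) else 0) * RN ends p s x ω) := Ex_RN hp0 hp1' x _ hA
    _ ≤ Ex p (fun ω => T * (if A ω then (1 : ℝ) else 0) +
        Real.exp (Dg * v * ((κ : ℝ) ^ 2 * s ^ 2 / cp ^ 2)) / T ^ (κ - 1) *
          ((if A ω then (1 : ℝ) else 0) * RN ends p (κ * s) x ω)) :=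
        Ex_mono hp0.le hp1'.le key
    _ = _ := by
        rw [Ex_add, Ex_mul_left, Ex_mul_left, Ex_RN hp0 hp1' x _ hA]

/-- The piece `j` of the event `A`. -/
private def P5_A (ends : E → Sym2 V) (A : (E → Bool) → Prop) (N : ℝ) (x : V) (j : ℕ)
    (ω : E → Bool) : Prop :=
  A ω ∧ N / 2 ^ (j + 1) < cz ends ω x ∧ cz ends ω x ≤ N / 2 ^ j

private lemma P5_cu {ω ω' : E → Bool} {x : V}
    (h : ∀ e ∈ tch ends (cu ends ω x), ω e = ω' e) : cu ends ω' x = cu ends ω x := by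
  have hA : cl ends ω Set.univ x = cu ends ω x := rfl
  exact cl_eq_dep (A := cu ends ω x) (fun e a b he _ _ ha => h e (by
    unfold tch
    exact Finset.mem_filter.2 ⟨Finset.mem_univ _, a, ha, by rw [he]; exact Sym2.mem_mk_left a b⟩)) hA

open scoped Classical in
private lemma P5_loc {x : V} {A : (E → Bool) → Prop} (N : ℝ) (j : ℕ)
    (hA : Lcx ends x (fun ω => if A ω then (1 : ℝ) else 0)) :
    Lcx ends x (fun ω => if P5_A ends A N x j ω then (1 : ℝ) else 0) := by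
  intro ω ω' h
  have h1 := hA ω ω' h
  have h2 : A ω ↔ A ω' := by
    by_cases a1 : A ω <;> by_cases a2 : A ω' <;> simp_all
  have h3 : cz ends ω' x = cz ends ω x := by
    unfold cz
    rw [P5_cu h]
  have h4 : P5_A ends A N x j ω ↔ P5_A ends A N x j ω' := by
    unfold P5_A
    rw [h2, h3]
  simp only [h4]

private lemma P5_cover {N c : ℝ} {J : ℕ} (hJ : N < 2 ^ (J + 1)) (hc : 1 ≤ c) (hcN : c ≤ N) :
    ∃ j ∈ Finset.range (J + 1), N / 2 ^ (j + 1) < c ∧ c ≤ N / 2 ^ j := by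
  classical
  have hex : ∃ j : ℕ, N / 2 ^ (j + 1) < c := by
    refine ⟨J, lt_of_lt_of_le ?_ hc⟩
    rw [div_lt_one (by positivity)]
    exact hJ
  refine ⟨Nat.find hex, ?_, Nat.find_spec hex, ?_⟩
  · rw [Finset.mem_range, Nat.lt_succ_iff]
    apply Nat.find_min'
    refine lt_of_lt_of_le ?_ hc
    rw [div_lt_one (by positivity)]
    exact hJ
  · rcases Nat.eq_zero_or_pos (Nat.find hex) with h0 | h0
    · rw [h0, pow_zero, div_one]
      exact hcN
    · have h1 := Nat.find_min hex (Nat.sub_one_lt_of_lt h0)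
      rw [not_lt, Nat.sub_add_cancel h0] at h1
      exact h1

private lemma P5_uniq {N c : ℝ} (hN : 0 ≤ N) {i j : ℕ} (hi : N / 2 ^ (i + 1) < c)
    (hj : c ≤ N / 2 ^ j) : j ≤ i := by
  by_contra h
  have h1 : N / 2 ^ j ≤ N / 2 ^ (i + 1) := by
    apply div_le_div_of_nonneg_left hN (by positivity)
    exact pow_le_pow_right₀ (by norm_num) (by omega)
  linarith

open scoped Classical in
private lemma P5_sum {x : V} {A : (E → Bool) → Prop} {N : ℝ} {J : ℕ} (hN : 1 ≤ N)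
    (hJ : N < 2 ^ (J + 1)) (hv : ∀ ω, A ω → cz ends ω x ≤ N) (ω : E → Bool) :
    (if A ω then (1 : ℝ) else 0) = ∑ j ∈ Finset.range (J + 1),
      (if P5_A ends A N x j ω then (1 : ℝ) else 0) := by
  by_cases hA : A ω
  · rw [if_pos hA]
    obtain ⟨j, hj, h1, h2⟩ := P5_cover hJ (one_le_cz ω x) (hv ω hA)
    rw [Finset.sum_eq_single_of_mem j hj]
    · rw [if_pos ⟨hA, h1, h2⟩]
    · intro i _ hij
      rw [if_neg]
      rintro ⟨_, h3, h4⟩
      have h5 := P5_uniq (by linarith) h1 h4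
      have h6 := P5_uniq (by linarith) h3 h2
      omega
  · rw [if_neg hA]
    symm
    apply Finset.sum_eq_zero
    intro j _
    rw [if_neg (fun h => hA h.1)]

private lemma P5_sq (j : ℕ) : (((j : ℝ) + 2) ^ 2) ≤ 5 * 2 ^ j := by
  have h : (j + 2) ^ 2 ≤ 5 * 2 ^ j := by
    induction j with
    | zero => norm_num
    | succ j ih =>
      rcases Nat.eq_zero_or_pos j with h0 | h0
      · subst h0
        norm_num
      · rw [pow_succ 2 j]
        nlinarith
  exact_mod_cast h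

private lemma P5_geo2 (n : ℕ) : ∑ j ∈ Finset.range n, ((j : ℝ) + 2) / 2 ^ j ≤ 6 := by
  have h : ∑ j ∈ Finset.range n, ((j : ℝ) + 2) / 2 ^ j = 6 - (2 * n + 6) / 2 ^ n := by
    induction n with
    | zero => norm_num
    | succ n ih =>
      rw [Finset.sum_range_succ, ih]
      push_cast
      rw [pow_succ]
      field_simp
      ring
  rw [h]
  have : (0 : ℝ) ≤ (2 * n + 6) / 2 ^ n := by positivity
  linarith

private lemma P5_geo1 (n : ℕ) : ∑ j ∈ Finset.range n, Real.sqrt (2 ^ (j + 1)) / 2 ^ j ≤ 6 := by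
  have h2 : Real.sqrt 2 ≤ 3 / 2 := by
    rw [Real.sqrt_le_left (by norm_num)]
    norm_num
  have h20 : 0 < Real.sqrt 2 := by positivity
  have hsq : Real.sqrt 2 * Real.sqrt 2 = 2 := Real.mul_self_sqrt (by norm_num)
  have ht : ∀ j : ℕ, Real.sqrt (2 ^ (j + 1)) / 2 ^ j = Real.sqrt 2 * (Real.sqrt 2 / 2) ^ j := by
    intro j
    have h1 : Real.sqrt (2 ^ (j + 1)) = Real.sqrt 2 ^ (j + 1) := by
      have h3 : (2 : ℝ) ^ (j + 1) = (Real.sqrt 2 ^ (j + 1)) ^ 2 := by
        rw [← pow_mul, mul_comm (j + 1) 2, pow_mul, Real.sq_sqrt (by norm_num)]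
      rw [h3, Real.sqrt_sq (by positivity)]
    rw [h1, div_pow, pow_succ]
    ring
  have h : ∑ j ∈ Finset.range n, Real.sqrt (2 ^ (j + 1)) / 2 ^ j ≤
      6 * (1 - (Real.sqrt 2 / 2) ^ n) := by
    induction n with
    | zero => norm_num
    | succ n ih =>
      rw [Finset.sum_range_succ, ht n, pow_succ]
      have hp : 0 ≤ (Real.sqrt 2 / 2) ^ n := by positivity
      nlinarith
  have hp : 0 ≤ (Real.sqrt 2 / 2) ^ n := by positivity
  linarith

open scoped Classical in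
/-- Row P5. The pieces `A_j = A ∧ N/2^(j+1) < |C| ≤ N/2^j`, `j ≤ J`, are local (`|C|` is a function of the cluster) and cover `A` (`|C| ≥ 1 > N/2^(J+1)`). `piece` with
`κ = j + 2`, `v = N/2^j`: `Dg v κ² s² ≤ Dg A1 (j+2)²/2^j ≤ 5 Dg A1`, `T^(κ-1) = T^(j+1) ≥ T 2^j`, `Ex (p + κ s) 1_{A_j} ≤ C (√(2^(j+1)/N) + (j+2) s)` (tail at
`k = ⌊N/2^(j+1)⌋₊ + 1`). `∑ j, √(2^(j+1))/2^j ≤ 5`, `∑ j, (j+2)/2^j ≤ 6`. -/
lemma loc_sum {p s cp C N A1 T : ℝ} (hcp : 0 < cp) (hp : cp ≤ p) (hp1 : cp ≤ 1 - p) (hs : 0 < s)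
    (hC : 0 ≤ C) (hN : 1 ≤ N) (hsN : s ^ 2 * N ≤ A1) (hT : 2 ≤ T) (Dg J : ℕ) (hJ : N < 2 ^ (J + 1))
    (hJs : ((J : ℝ) + 2) * s ≤ cp / 2)
    (hdeg : ∀ v, (Finset.univ.filter (fun e => v ∈ ends e)).card ≤ Dg) (x : V)
    (hTl : ∀ r, p ≤ r → r ≤ p + ((J : ℝ) + 2) * s → ∀ k : ℕ, 1 ≤ k →
      Ex r (fun ω => if (k : ℝ) ≤ cz ends ω x then (1 : ℝ) else 0) ≤ C * (1 / Real.sqrt k + (r - p)))
    (A : (E → Bool) → Prop) (hA : Lcx ends x (fun ω => if A ω then (1 : ℝ) else 0))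
    (hv : ∀ ω, A ω → cz ends ω x ≤ N) :
    Ex (p + s) (fun ω => if A ω then (1 : ℝ) else 0) ≤
      T * Ex p (fun ω => if A ω then (1 : ℝ) else 0) +
      Real.exp (5 * Dg * A1 / cp ^ 2) * (6 * C / T) * (1 / Real.sqrt N + s) := by
  have hN0 : 0 < N := by linarith
  have hT0 : 0 < T := by linarith
  have hA10 : 0 ≤ A1 := le_trans (by positivity) hsN
  have hsN' : 0 < Real.sqrt N := Real.sqrt_pos.2 hN0
  set e5 : ℝ := Real.exp (5 * Dg * A1 / cp ^ 2) with he5
  have he50 : 0 < e5 := Real.exp_pos _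
  have key : ∀ j ∈ Finset.range (J + 1),
      Ex (p + s) (fun ω => if P5_A ends A N x j ω then (1 : ℝ) else 0) ≤
      T * Ex p (fun ω => if P5_A ends A N x j ω then (1 : ℝ) else 0) +
      e5 * (C / T) * (Real.sqrt (2 ^ (j + 1)) / 2 ^ j * (1 / Real.sqrt N) +
        ((j : ℝ) + 2) / 2 ^ j * s) := by
    intro j hj
    have hjJ : (j : ℝ) ≤ J := by
      have : j ≤ J := by
        have := Finset.mem_range.1 hj
        omega
      exact_mod_cast this
    have hκ : (((j + 2 : ℕ) : ℝ)) = (j : ℝ) + 2 := by push_cast; ring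
    have hκs : (((j + 2 : ℕ) : ℝ)) * s ≤ cp / 2 := by
      rw [hκ]
      refine le_trans ?_ hJs
      exact mul_le_mul_of_nonneg_right (by linarith) hs.le
    have h1 := piece (ends := ends) (p := p) (s := s) (cp := cp) (v := N / 2 ^ j) (T := T) (j + 2)
      hcp hp hp1 hs.le (by omega) hκs (by linarith) Dg hdeg x
      (P5_A ends A N x j)
      (P5_loc N j hA) (fun ω hω => hω.2.2)
    refine h1.trans ?_
    refine add_le_add_right ?_ _
    -- the three bounds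
    have b1 : Real.exp (Dg * (N / 2 ^ j) * ((((j + 2 : ℕ) : ℝ)) ^ 2 * s ^ 2 / cp ^ 2)) ≤ e5 := by
      apply Real.exp_le_exp.2
      rw [hκ]
      have h2 := P5_sq j
      have h3 : (Dg : ℝ) * (N / 2 ^ j) * (((j : ℝ) + 2) ^ 2 * s ^ 2 / cp ^ 2) =
          ((Dg : ℝ) / cp ^ 2) * ((s ^ 2 * N) * (((j : ℝ) + 2) ^ 2 / 2 ^ j)) := by
        field_simp
      have h4 : (5 * (Dg : ℝ) * A1 / cp ^ 2) = ((Dg : ℝ) / cp ^ 2) * (A1 * 5) := by ring
      rw [h3, h4]
      refine mul_le_mul_of_nonneg_left ?_ (by positivity)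
      refine mul_le_mul hsN ?_ (by positivity) hA10
      rw [div_le_iff₀ (by positivity)]
      exact h2
    have b2 : (1 : ℝ) / T ^ (j + 2 - 1) ≤ 1 / (T * 2 ^ j) := by
      have h2 : j + 2 - 1 = j + 1 := by omega
      rw [h2]
      apply one_div_le_one_div_of_le (by positivity)
      rw [pow_succ, mul_comm]
      exact mul_le_mul_of_nonneg_right (pow_le_pow_left₀ (by norm_num) hT j) hT0.le
    have hr0 : (0 : ℝ) ≤ p + (((j + 2 : ℕ) : ℝ)) * s := by
      have : (0 : ℝ) ≤ (((j + 2 : ℕ) : ℝ)) * s := by positivity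
      linarith
    have hr1 : p + (((j + 2 : ℕ) : ℝ)) * s ≤ 1 := by linarith
    have b3 : Ex (p + (((j + 2 : ℕ) : ℝ)) * s)
        (fun ω => if P5_A ends A N x j ω then (1 : ℝ) else 0) ≤
        C * (Real.sqrt (2 ^ (j + 1)) * (1 / Real.sqrt N) + ((j : ℝ) + 2) * s) := by
      set k : ℕ := ⌊N / 2 ^ (j + 1)⌋₊ + 1 with hk
      have hkN : N / 2 ^ (j + 1) < (k : ℝ) := by
        rw [hk]
        push_cast
        exact Nat.lt_floor_add_one _
      have hk1 : 1 ≤ k := by omega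
      have h2 := hTl (p + (((j + 2 : ℕ) : ℝ)) * s) (by
          have : (0 : ℝ) ≤ (((j + 2 : ℕ) : ℝ)) * s := by positivity
          linarith) (by
          rw [hκ]
          have := mul_le_mul_of_nonneg_right (show (j : ℝ) + 2 ≤ (J : ℝ) + 2 by linarith) hs.le
          linarith) k hk1
      have h3 : Ex (p + (((j + 2 : ℕ) : ℝ)) * s)
          (fun ω => if P5_A ends A N x j ω then (1 : ℝ) else 0) ≤
          Ex (p + (((j + 2 : ℕ) : ℝ)) * s)
            (fun ω => if (k : ℝ) ≤ cz ends ω x then (1 : ℝ) else 0) := by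
        refine Ex_mono hr0 hr1 fun ω => ?_
        by_cases hω : P5_A ends A N x j ω
        · rw [if_pos hω, if_pos]
          have h4 := hω.2.1
          unfold cz at h4 ⊢
          have h5 : ⌊N / 2 ^ (j + 1)⌋₊ < (cu ends ω x).card :=
            (Nat.floor_lt (by positivity)).2 h4
          have h6 : k ≤ (cu ends ω x).card := h5
          exact_mod_cast h6
        · rw [if_neg hω]
          split_ifs <;> norm_num
      refine h3.trans (h2.trans ?_)
      refine mul_le_mul_of_nonneg_left ?_ hC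
      have h6 : p + (((j + 2 : ℕ) : ℝ)) * s - p = ((j : ℝ) + 2) * s := by rw [hκ]; ring
      rw [h6]
      refine add_le_add_left ?_ _
      have h7 : Real.sqrt (N / 2 ^ (j + 1)) ≤ Real.sqrt k := Real.sqrt_le_sqrt hkN.le
      have h8 : 0 < Real.sqrt (N / 2 ^ (j + 1)) := Real.sqrt_pos.2 (by positivity)
      calc 1 / Real.sqrt k ≤ 1 / Real.sqrt (N / 2 ^ (j + 1)) := one_div_le_one_div_of_le h8 h7
        _ = Real.sqrt (2 ^ (j + 1)) * (1 / Real.sqrt N) := by
          rw [Real.sqrt_div hN0.le]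
          field_simp
    set Y : ℝ := Ex (p + (((j + 2 : ℕ) : ℝ)) * s)
        (fun ω => if P5_A ends A N x j ω then (1 : ℝ) else 0) with hY
    have hY0 : 0 ≤ Y := by
      rw [hY]
      have := Ex_mono (f := fun _ => (0 : ℝ)) hr0 hr1 (g := fun ω =>
        if P5_A ends A N x j ω then (1 : ℝ) else 0) (fun ω => by
            show (0 : ℝ) ≤ _
            split_ifs <;> norm_num)
      rwa [Ex_const] at this
    calc Real.exp (Dg * (N / 2 ^ j) * ((((j + 2 : ℕ) : ℝ)) ^ 2 * s ^ 2 / cp ^ 2)) /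
          T ^ (j + 2 - 1) * Y
        = Real.exp (Dg * (N / 2 ^ j) * ((((j + 2 : ℕ) : ℝ)) ^ 2 * s ^ 2 / cp ^ 2)) *
          (1 / T ^ (j + 2 - 1)) * Y := by ring
      _ ≤ e5 * (1 / (T * 2 ^ j)) *
          (C * (Real.sqrt (2 ^ (j + 1)) * (1 / Real.sqrt N) + ((j : ℝ) + 2) * s)) := by
          refine mul_le_mul ?_ b3 hY0 (by positivity)
          exact mul_le_mul b1 b2 (by positivity) he50.le
      _ = e5 * (C / T) * (Real.sqrt (2 ^ (j + 1)) / 2 ^ j * (1 / Real.sqrt N) +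
          ((j : ℝ) + 2) / 2 ^ j * s) := by
          field_simp
  have hdec : ∀ q : ℝ, Ex q (fun ω => if A ω then (1 : ℝ) else 0) =
      ∑ j ∈ Finset.range (J + 1), Ex q (fun ω =>
        if P5_A ends A N x j ω then (1 : ℝ) else 0) := by
    intro q
    rw [← Ex_sum (Finset.range (J + 1)) q (fun j ω =>
        if P5_A ends A N x j ω then (1 : ℝ) else 0)]
    exact Ex_congr fun ω => P5_sum hN hJ hv ω
  rw [hdec (p + s), hdec p]
  refine (Finset.sum_le_sum key).trans ?_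
  rw [Finset.sum_add_distrib, ← Finset.mul_sum]
  refine add_le_add_right ?_ _
  rw [← Finset.mul_sum, Finset.sum_add_distrib, ← Finset.sum_mul, ← Finset.sum_mul]
  have g1 := P5_geo1 (J + 1)
  have g2 := P5_geo2 (J + 1)
  have h9 : (∑ j ∈ Finset.range (J + 1), Real.sqrt (2 ^ (j + 1)) / 2 ^ j) * (1 / Real.sqrt N) +
      (∑ j ∈ Finset.range (J + 1), ((j : ℝ) + 2) / 2 ^ j) * s ≤
      6 * (1 / Real.sqrt N + s) := by
    have i1 := mul_le_mul_of_nonneg_right g1 (show 0 ≤ 1 / Real.sqrt N by positivity)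
    have i2 := mul_le_mul_of_nonneg_right g2 hs.le
    linarith
  calc e5 * (C / T) * ((∑ j ∈ Finset.range (J + 1), Real.sqrt (2 ^ (j + 1)) / 2 ^ j) *
        (1 / Real.sqrt N) + (∑ j ∈ Finset.range (J + 1), ((j : ℝ) + 2) / 2 ^ j) * s)
      ≤ e5 * (C / T) * (6 * (1 / Real.sqrt N + s)) :=
        mul_le_mul_of_nonneg_left h9 (by positivity)
    _ = e5 * (6 * C / T) * (1 / Real.sqrt N + s) := by ring

private lemma P6_pow (J : ℕ) : (J + 2) ^ 4 ≤ 81 * 2 ^ J := by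
  rcases Nat.lt_or_ge J 4 with h | h
  · interval_cases J <;> norm_num
  · induction J, h using Nat.le_induction with
    | base => norm_num
    | succ n hn ih =>
      have h1 : (n + 1 + 2) ^ 4 ≤ 2 * (n + 2) ^ 4 := by
        obtain ⟨m, rfl⟩ := Nat.exists_eq_add_of_le hn
        ring_nf
        nlinarith [Nat.zero_le m, Nat.zero_le (m ^ 2), Nat.zero_le (m ^ 3), Nat.zero_le (m ^ 4)]
      calc (n + 1 + 2) ^ 4 ≤ 2 * (n + 2) ^ 4 := h1
        _ ≤ 2 * (81 * 2 ^ n) := Nat.mul_le_mul_left 2 ih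
        _ = 81 * 2 ^ (n + 1) := by ring

private lemma P6_J {A1 s δ : ℝ} (hA1 : 1 ≤ A1) (hδ : 0 < δ) (hs : 0 < s) (hs1 : s ≤ 1)
    (hsd : s ≤ δ ^ 2 / (9 * A1)) :
    ∃ J : ℕ, A1 / s ^ 2 < 2 ^ (J + 1) ∧ ((J : ℝ) + 2) * s ≤ δ := by
  have hA0 : 0 < A1 := lt_of_lt_of_le one_pos hA1
  have hN1 : 1 ≤ A1 / s ^ 2 := by
    rw [le_div_iff₀ (by positivity)]
    nlinarith [pow_le_one₀ hs.le hs1 (n := 2)]
  have hfl : ⌊A1 / s ^ 2⌋₊ ≠ 0 := by
    have h1 : 1 ≤ ⌊A1 / s ^ 2⌋₊ := Nat.le_floor (by exact_mod_cast hN1)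
    omega
  refine ⟨Nat.log 2 ⌊A1 / s ^ 2⌋₊, ?_, ?_⟩
  · have h1 : ⌊A1 / s ^ 2⌋₊ < 2 ^ (Nat.log 2 ⌊A1 / s ^ 2⌋₊ + 1) :=
      Nat.lt_pow_succ_log_self (by norm_num) _
    have h2 := (Nat.floor_lt (by positivity : (0 : ℝ) ≤ A1 / s ^ 2)).1 h1
    exact_mod_cast h2
  · set J := Nat.log 2 ⌊A1 / s ^ 2⌋₊ with hJ
    have h1 : 2 ^ J ≤ ⌊A1 / s ^ 2⌋₊ := Nat.pow_log_le_self 2 hfl
    have h2 : ((2 : ℝ) ^ J) ≤ A1 / s ^ 2 := by
      have h3 : ((2 ^ J : ℕ) : ℝ) ≤ (⌊A1 / s ^ 2⌋₊ : ℝ) := by exact_mod_cast h1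
      have h4 := Nat.floor_le (by positivity : (0 : ℝ) ≤ A1 / s ^ 2)
      push_cast at h3
      linarith
    have h3 : ((J : ℝ) + 2) ^ 4 ≤ 81 * 2 ^ J := by
      exact_mod_cast P6_pow J
    have h4 : (((J : ℝ) + 2) * s) ^ 4 ≤ δ ^ 4 := by
      have h5 : (((J : ℝ) + 2) * s) ^ 4 ≤ 81 * A1 * s ^ 2 := by
        calc (((J : ℝ) + 2) * s) ^ 4 = ((J : ℝ) + 2) ^ 4 * s ^ 4 := by ring
          _ ≤ (81 * (A1 / s ^ 2)) * s ^ 4 := by
            apply mul_le_mul_of_nonneg_right _ (by positivity)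
            linarith
          _ = 81 * A1 * s ^ 2 := by
            field_simp
      have h6 : s * (9 * A1) ≤ δ ^ 2 := (le_div_iff₀ (by positivity)).1 hsd
      have h7 : (s * (9 * A1)) ^ 2 ≤ (δ ^ 2) ^ 2 := pow_le_pow_left₀ (by positivity) h6 2
      have h8 : 81 * A1 * s ^ 2 ≤ (s * (9 * A1)) ^ 2 := by
        have h9 : A1 ≤ A1 ^ 2 := by nlinarith
        have h10 : 0 ≤ s ^ 2 := by positivity
        nlinarith [mul_le_mul_of_nonneg_left h9 h10]
      calc (((J : ℝ) + 2) * s) ^ 4 ≤ 81 * A1 * s ^ 2 := h5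
        _ ≤ (s * (9 * A1)) ^ 2 := h8
        _ ≤ (δ ^ 2) ^ 2 := h7
        _ = δ ^ 4 := by ring
    exact (pow_le_pow_iff_left₀ (by positivity) hδ.le (by norm_num)).1 h4

open scoped Classical in
/-- Row P6. `loc_sum` with `N = A1/s²`, `T = max 2 (12 C exp (5 Dg A1/cp²)/η)`, `J = ⌈log2 N⌉` or so; `(J + 2) s ≤ min (cp/2) s0` for small `s` (for example
`J + 1 ≤ 2 (A1/s²)^(1/4)`-type bounds, or `log N ≤ 4 N^(1/4)`). `1/√N = s/√A1 ≤ s`. -/
theorem localize (C cp A1 η s0 : ℝ) (Dg : ℕ) (hC : 0 ≤ C) (hcp : 0 < cp) (hA1 : 1 ≤ A1) (hη : 0 < η)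
    (hs0 : 0 < s0) :
    ∃ T ε0 : ℝ, 2 ≤ T ∧ 0 < ε0 ∧ ∀ (V : Type) [Fintype V] [DecidableEq V] (E : Type) [Fintype E]
      [DecidableEq E] (ends : E → Sym2 V) (p s : ℝ) (x : V) (A : (E → Bool) → Prop), cp ≤ p →
      cp ≤ 1 - p → 0 < s → s ≤ ε0 →
      (∀ v, (Finset.univ.filter (fun e => v ∈ ends e)).card ≤ Dg) →
      (∀ r, p ≤ r → r ≤ p + s0 → ∀ k : ℕ, 1 ≤ k →
        Ex r (fun ω => if (k : ℝ) ≤ cz ends ω x then (1 : ℝ) else 0) ≤ C * (1 / Real.sqrt k + (r - p))) →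
      Lcx ends x (fun ω => if A ω then (1 : ℝ) else 0) → (∀ ω, A ω → cz ends ω x ≤ A1 / s ^ 2) →
      Ex (p + s) (fun ω => if A ω then (1 : ℝ) else 0) ≤
        T * Ex p (fun ω => if A ω then (1 : ℝ) else 0) + η * s := by
  set X : ℝ := Real.exp (5 * Dg * A1 / cp ^ 2) with hX
  have hX0 : 0 < X := Real.exp_pos _
  have hA0 : 0 < A1 := lt_of_lt_of_le one_pos hA1
  set δ : ℝ := min (cp / 2) s0 with hδ
  have hδ0 : 0 < δ := lt_min (by linarith) hs0
  refine ⟨max 2 (12 * C * X / η), min 1 (δ ^ 2 / (9 * A1)), le_max_left _ _,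
    lt_min one_pos (by positivity), ?_⟩
  intro V _ _ E _ _ ends p s x A hp hp1 hs hse hdeg hTl hA hv
  have hs1 : s ≤ 1 := hse.trans (min_le_left _ _)
  have hsd : s ≤ δ ^ 2 / (9 * A1) := hse.trans (min_le_right _ _)
  obtain ⟨J, hJ1, hJ2⟩ := P6_J hA1 hδ0 hs hs1 hsd
  set T : ℝ := max 2 (12 * C * X / η) with hT
  have hT2 : 2 ≤ T := le_max_left _ _
  have hT0 : 0 < T := by linarith
  have hT3 : 12 * C * X ≤ η * T := by
    have h1 : 12 * C * X / η ≤ T := le_max_right _ _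
    rw [div_le_iff₀ hη] at h1
    linarith
  have hN1 : 1 ≤ A1 / s ^ 2 := by
    rw [le_div_iff₀ (by positivity)]
    nlinarith [pow_le_one₀ hs.le hs1 (n := 2)]
  have hsN : s ^ 2 * (A1 / s ^ 2) ≤ A1 := by
    rw [mul_div_cancel₀ _ (by positivity)]
  have key := loc_sum (N := A1 / s ^ 2) (A1 := A1) (T := T) hcp hp hp1 hs hC hN1 hsN hT2 Dg J hJ1
    (hJ2.trans (min_le_left _ _)) hdeg x
    (fun r h1 h2 k hk => hTl r h1 (h2.trans (by linarith [hJ2.trans (min_le_right _ _)])) k hk)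
    A hA hv
  have hsq : 1 / Real.sqrt (A1 / s ^ 2) ≤ s := by
    have h1 : 1 / s ≤ Real.sqrt (A1 / s ^ 2) := by
      apply Real.le_sqrt_of_sq_le
      rw [div_pow, one_pow]
      exact div_le_div_of_nonneg_right hA1 (by positivity)
    rw [div_le_iff₀ (lt_of_lt_of_le (by positivity) h1)]
    calc (1 : ℝ) = s * (1 / s) := by field_simp
      _ ≤ s * Real.sqrt (A1 / s ^ 2) := mul_le_mul_of_nonneg_left h1 hs.le
  have hlast : X * (6 * C / T) * (1 / Real.sqrt (A1 / s ^ 2) + s) ≤ η * s := by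
    calc X * (6 * C / T) * (1 / Real.sqrt (A1 / s ^ 2) + s) ≤ X * (6 * C / T) * (2 * s) := by
          apply mul_le_mul_of_nonneg_left _ (by positivity)
          linarith
      _ = (12 * C * X) * s / T := by ring
      _ ≤ (η * T) * s / T := by
          apply div_le_div_of_nonneg_right _ hT0.le
          exact mul_le_mul_of_nonneg_right hT3 hs.le
      _ = η * s := by
          field_simp
  linarith

end Pool.Agent.PERC29.AE
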