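import Pool.Agent.Lib.MP_29e17e_pr.Y.Kd

set_option autoImplicit false
set_option linter.unusedVariables false

/-! Rows 29w-F1 .. 29w-F4: the numbers of the final theorem (pure real numbers). `t = η ε n^d`; `m` is chosen with `m² ε` between `K/4` and `K`. -/

namespace Pool.Agent.PERC29.AE

/-- Row F1. The choice of `m = ⌊√(K/ε)⌋₊`: `m ≤ √(K/ε) < m + 1 ≤ 2 m`, `ε0 = K/m0²`, `A = Q² K + 1/η + 1` (`n² ≥ A/ε ≥ Q² m²`; `ε³ n^d ≥ (ε n²)³ ≥ A³ ≥ 1/η`,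
`n ≥ 1`). -/
lemma scale_ex (d : ℕ) (hd : 6 ≤ d) (K Q η : ℝ) (m0 : ℕ) (hK : 0 < K) (hQ : 1 ≤ Q) (hη : 0 < η)
    (hm0 : 1 ≤ m0) :
    ∃ A ε0 : ℝ, 0 < A ∧ 0 < ε0 ∧ ∀ (ε : ℝ) (n : ℕ), 0 < ε → ε ≤ ε0 → A ≤ ε * (n : ℝ) ^ 2 →
      1 ≤ η * ε ^ 3 * (n : ℝ) ^ d ∧ ∃ m : ℕ, m0 ≤ m ∧ (m : ℝ) ^ 2 * ε ≤ K ∧ K ≤ 4 * ((m : ℝ) ^ 2 * ε) ∧
        Q * m ≤ n := by
  have hm0R : (1 : ℝ) ≤ (m0 : ℝ) := by exact_mod_cast hm0
  have hm0p : (0 : ℝ) < (m0 : ℝ) := by linarith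
  have hη' : 0 < 1 / η := by positivity
  have hQK : 0 < Q ^ 2 * K := by positivity
  refine ⟨Q ^ 2 * K + 1 / η + 1, K / (m0 : ℝ) ^ 2, by positivity, by positivity, ?_⟩
  intro ε n hε hε0 hA
  set A : ℝ := Q ^ 2 * K + 1 / η + 1 with hAdef
  have hA1 : 1 ≤ A := by linarith
  have hAη : 1 / η ≤ A := by linarith
  have hAQ : Q ^ 2 * K ≤ A := by linarith
  have hn1 : 1 ≤ n := by
    rcases Nat.eq_zero_or_pos n with h0 | h0
    · exfalso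
      rw [h0] at hA
      norm_num at hA
      linarith
    · exact h0
  have hnR : (1 : ℝ) ≤ (n : ℝ) := by exact_mod_cast hn1
  constructor
  · have h1 : (n : ℝ) ^ 6 ≤ (n : ℝ) ^ d := pow_le_pow_right₀ hnR hd
    have h2 : A ^ 3 ≤ (ε * (n : ℝ) ^ 2) ^ 3 := pow_le_pow_left₀ (by linarith) hA 3
    have h3 : A ≤ A ^ 3 := by
      have := pow_le_pow_right₀ hA1 (show 1 ≤ 3 by norm_num)
      simpa using this
    have h4 : 1 / η ≤ ε ^ 3 * (n : ℝ) ^ d := by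
      calc 1 / η ≤ A ^ 3 := hAη.trans h3
        _ ≤ (ε * (n : ℝ) ^ 2) ^ 3 := h2
        _ = ε ^ 3 * (n : ℝ) ^ 6 := by ring
        _ ≤ ε ^ 3 * (n : ℝ) ^ d := mul_le_mul_of_nonneg_left h1 (by positivity)
    calc (1 : ℝ) = η * (1 / η) := by field_simp
      _ ≤ η * (ε ^ 3 * (n : ℝ) ^ d) := mul_le_mul_of_nonneg_left h4 hη.le
      _ = _ := by ring
  · have hKε : 0 < K / ε := by positivity
    refine ⟨⌊Real.sqrt (K / ε)⌋₊, ?_, ?_, ?_, ?_⟩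
    · apply Nat.le_floor
      apply Real.le_sqrt_of_sq_le
      rw [le_div_iff₀ hε]
      rw [le_div_iff₀ (by positivity)] at hε0
      linarith
    · have h1 : ((⌊Real.sqrt (K / ε)⌋₊ : ℕ) : ℝ) ≤ Real.sqrt (K / ε) :=
        Nat.floor_le (Real.sqrt_nonneg _)
      have h2 : ((⌊Real.sqrt (K / ε)⌋₊ : ℕ) : ℝ) ^ 2 ≤ K / ε := by
        calc ((⌊Real.sqrt (K / ε)⌋₊ : ℕ) : ℝ) ^ 2 ≤ Real.sqrt (K / ε) ^ 2 :=
              pow_le_pow_left₀ (Nat.cast_nonneg _) h1 2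
          _ = K / ε := Real.sq_sqrt hKε.le
      rwa [le_div_iff₀ hε] at h2
    · have h0 : m0 ≤ ⌊Real.sqrt (K / ε)⌋₊ := by
        apply Nat.le_floor
        apply Real.le_sqrt_of_sq_le
        rw [le_div_iff₀ hε]
        rw [le_div_iff₀ (by positivity)] at hε0
        linarith
      have h1 : (1 : ℝ) ≤ ((⌊Real.sqrt (K / ε)⌋₊ : ℕ) : ℝ) := by
        exact_mod_cast hm0.trans h0
      have h2 : Real.sqrt (K / ε) < ((⌊Real.sqrt (K / ε)⌋₊ : ℕ) : ℝ) + 1 := Nat.lt_floor_add_one _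
      have h3 : Real.sqrt (K / ε) ≤ 2 * ((⌊Real.sqrt (K / ε)⌋₊ : ℕ) : ℝ) := by linarith
      have h4 : K / ε ≤ (2 * ((⌊Real.sqrt (K / ε)⌋₊ : ℕ) : ℝ)) ^ 2 :=
        (Real.sq_sqrt hKε.le).symm.le.trans (pow_le_pow_left₀ (Real.sqrt_nonneg _) h3 2)
      rw [div_le_iff₀ hε] at h4
      linarith
    · have h1 : ((⌊Real.sqrt (K / ε)⌋₊ : ℕ) : ℝ) ≤ Real.sqrt (K / ε) :=
        Nat.floor_le (Real.sqrt_nonneg _)
      have h2 : ((⌊Real.sqrt (K / ε)⌋₊ : ℕ) : ℝ) ^ 2 ≤ K / ε := by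
        calc ((⌊Real.sqrt (K / ε)⌋₊ : ℕ) : ℝ) ^ 2 ≤ Real.sqrt (K / ε) ^ 2 :=
              pow_le_pow_left₀ (Nat.cast_nonneg _) h1 2
          _ = K / ε := Real.sq_sqrt hKε.le
      have h3 : (Q * ((⌊Real.sqrt (K / ε)⌋₊ : ℕ) : ℝ)) ^ 2 ≤ (n : ℝ) ^ 2 := by
        have h4 : Q ^ 2 * (K / ε) ≤ (n : ℝ) ^ 2 := by
          rw [← mul_div_assoc, div_le_iff₀ hε]
          linarith
        calc (Q * ((⌊Real.sqrt (K / ε)⌋₊ : ℕ) : ℝ)) ^ 2 = Q ^ 2 * ((⌊Real.sqrt (K / ε)⌋₊ : ℕ) : ℝ) ^ 2 := by ring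
          _ ≤ Q ^ 2 * (K / ε) := mul_le_mul_of_nonneg_left h2 (by positivity)
          _ ≤ (n : ℝ) ^ 2 := h4
      exact (abs_le_of_sq_le_sq' h3 (Nat.cast_nonneg _)).2

/-- Row F1 (second half). The three sprinklings `s1`, `ε/4`, `ε/4`: `1 - s1 = (1 - p0 - ε)/((1 - p0)(1 - ε/4)²)`. -/
lemma spr3 {p0 ε : ℝ} (h0 : 0 ≤ p0) (hε : 0 < ε) (h : ε ≤ (1 - p0) / 2) :
    ∃ s1 : ℝ, ε / 2 ≤ s1 ∧ s1 ≤ 1 ∧ 1 - (1 - p0) * (1 - s1) * (1 - ε / 4) * (1 - ε / 4) = p0 + ε ∧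
      1 - (1 - s1) * (1 - ε / 4) * (1 - ε / 4) = ε / (1 - p0) := by
  obtain ⟨q, hq⟩ : ∃ q, q = 1 - p0 := ⟨_, rfl⟩
  have hp : p0 = 1 - q := by linarith
  subst hp
  have e1 : 1 - (1 - q) = q := by ring
  rw [e1] at h ⊢
  have hq1 : q ≤ 1 := by linarith
  have hqε : 2 * ε ≤ q := by linarith
  have hq0 : 0 < q := by linarith
  have hε1 : ε ≤ 1 / 2 := by linarith
  have hx : 0 < 1 - ε / 4 := by linarith
  have hden : 0 < q * (1 - ε / 4) ^ 2 := by positivity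
  refine ⟨1 - (q - ε) / (q * (1 - ε / 4) ^ 2), ?_, ?_, ?_, ?_⟩
  · have h1 : (q - ε) / (q * (1 - ε / 4) ^ 2) ≤ 1 - ε / 2 := by
      rw [div_le_iff₀ hden]
      have h2 : 1 - ε / 2 ≤ (1 - ε / 4) ^ 2 := by nlinarith [sq_nonneg ε]
      have h3 : 0 ≤ 1 - ε / 2 := by linarith
      have h4 : (1 - ε / 2) * (1 - ε / 2) ≤ (1 - ε / 2) * (1 - ε / 4) ^ 2 :=
        mul_le_mul_of_nonneg_left h2 h3
      have h5 : q * ((1 - ε / 2) * (1 - ε / 2)) ≤ q * ((1 - ε / 2) * (1 - ε / 4) ^ 2) :=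
        mul_le_mul_of_nonneg_left h4 hq0.le
      have h6 : q - ε ≤ q * ((1 - ε / 2) * (1 - ε / 2)) := by
        nlinarith [mul_nonneg hε.le (by linarith : (0:ℝ) ≤ 1 - q), mul_nonneg hq0.le (sq_nonneg ε)]
      calc q - ε ≤ q * ((1 - ε / 2) * (1 - ε / 2)) := h6
        _ ≤ q * ((1 - ε / 2) * (1 - ε / 4) ^ 2) := h5
        _ = _ := by ring
    linarith
  · have h1 : 0 ≤ (q - ε) / (q * (1 - ε / 4) ^ 2) := div_nonneg (by linarith) hden.le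
    linarith
  · have hx' : (1 - ε / 4) ≠ 0 := hx.ne'
    have hq' : q ≠ 0 := hq0.ne'
    have h1 : q * (1 - (1 - (q - ε) / (q * (1 - ε / 4) ^ 2))) * (1 - ε / 4) * (1 - ε / 4) = q - ε := by
      have h2 : (q - ε) / (q * (1 - ε / 4) ^ 2) * (q * (1 - ε / 4) ^ 2) = q - ε :=
        div_mul_cancel₀ _ hden.ne'
      linear_combination h2
    rw [h1]
    ring
  · have hq' : q ≠ 0 := hq0.ne'
    have h2 : (q - ε) / (q * (1 - ε / 4) ^ 2) * (q * (1 - ε / 4) ^ 2) = q - ε :=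
      div_mul_cancel₀ _ hden.ne'
    rw [eq_div_iff hq']
    linear_combination -h2

private lemma F2_inv {t ε : ℝ} (hε : 0 < ε) (h : 1 ≤ t * ε ^ 2) :
    0 < t ∧ 1 / Real.sqrt t ≤ ε ∧ 1 / t ≤ ε ^ 2 ∧ Real.sqrt t / t ≤ ε := by
  have ht : 0 < t := by
    by_contra h0
    push Not at h0
    have h1 : 0 ≤ ε ^ 2 := sq_nonneg ε
    nlinarith
  have h1 : 1 / ε ≤ Real.sqrt t := by
    rw [Real.le_sqrt' (by positivity), div_pow, one_pow, div_le_iff₀ (by positivity)]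
    exact h
  have h2 : 1 / Real.sqrt t ≤ ε := by
    have h3 := one_div_le_one_div_of_le (by positivity : 0 < 1 / ε) h1
    rwa [one_div_one_div] at h3
  refine ⟨ht, h2, ?_, ?_⟩
  · rw [div_le_iff₀ ht]
    linarith
  · have h4 : Real.sqrt t / t = 1 / Real.sqrt t := by
      have h5 : 0 < Real.sqrt t := Real.sqrt_pos.2 ht
      rw [div_eq_div_iff ht.ne' h5.ne', Real.mul_self_sqrt ht.le, one_mul]
    rw [h4]
    exact h2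

/-- Row F2. `t ≥ 1/ε²`, so `1/√t ≤ ε`; the term is at most `σ n^d C 2 ε / (η ε n^d/2)`. -/
lemma S1_le {d n : ℕ} {η ε C σ S : ℝ} (hη : 0 < η) (hε : 0 < ε) (hn : 1 ≤ n) (hC : 0 ≤ C)
    (ht : 1 ≤ η * ε ^ 3 * (n : ℝ) ^ d) (hS : S ≤ σ * (n : ℝ) ^ d) (hσ : 0 ≤ σ) :
    S * (C * (1 / Real.sqrt (η * ε * (n : ℝ) ^ d) + ε)) / (η * ε * (n : ℝ) ^ d / 2) ≤
      4 * C * σ / η := by
  have hn0 : (0 : ℝ) < (n : ℝ) := by exact_mod_cast hn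
  obtain ⟨N, hN⟩ : ∃ N : ℝ, N = (n : ℝ) ^ d := ⟨_, rfl⟩
  have hN0 : 0 < N := by rw [hN]; positivity
  rw [← hN] at ht hS ⊢
  obtain ⟨-, h1, -, -⟩ := F2_inv (t := η * ε * N) hε (by
    calc (1 : ℝ) ≤ η * ε ^ 3 * N := ht
      _ = η * ε * N * ε ^ 2 := by ring)
  have h2 : 0 ≤ 1 / Real.sqrt (η * ε * N) := by positivity
  have h3 : S * (C * (1 / Real.sqrt (η * ε * N) + ε)) ≤ (σ * N) * (C * (2 * ε)) := by
    have h4 : C * (1 / Real.sqrt (η * ε * N) + ε) ≤ C * (2 * ε) :=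
      mul_le_mul_of_nonneg_left (by linarith) hC
    have h5 : 0 ≤ C * (1 / Real.sqrt (η * ε * N) + ε) := by positivity
    calc S * (C * (1 / Real.sqrt (η * ε * N) + ε))
        ≤ (σ * N) * (C * (1 / Real.sqrt (η * ε * N) + ε)) := mul_le_mul_of_nonneg_right hS h5
      _ ≤ (σ * N) * (C * (2 * ε)) := mul_le_mul_of_nonneg_left h4 (by positivity)
  calc S * (C * (1 / Real.sqrt (η * ε * N) + ε)) / (η * ε * N / 2)
      ≤ (σ * N) * (C * (2 * ε)) / (η * ε * N / 2) :=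
        div_le_div_of_nonneg_right h3 (by positivity)
    _ = 4 * C * σ / η := by
        field_simp
        ring

/-- Row F2 (second half). `L^d m^d ≤ n^d`, `√((γ/K)² m⁴) = γ m²/K`, `1/m² ≤ 4 ε/K`, `1/t ≤ ε²`, `(3 C √t + C ε t)/t ≤ 4 C ε`:
`(2/(η ε)) (4 C ε/K) + (2/(η ε)) 2 ε² (1 + 8 C d/cp) 3 C γ m²/K`. -/
lemma S2_le {d n m : ℕ} {η ε C K γ cp L s : ℝ} (hη : 0 < η) (hε : 0 < ε) (hn : 1 ≤ n) (hm : 1 ≤ m)
    (hC : 0 ≤ C) (hK : 0 < K) (hγ : 0 ≤ γ) (hcp : 0 < cp) (ht : 1 ≤ η * ε ^ 3 * (n : ℝ) ^ d)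
    (hK1 : (m : ℝ) ^ 2 * ε ≤ K) (hK2 : K ≤ 4 * ((m : ℝ) ^ 2 * ε)) (hL0 : 0 ≤ L) (hL : m * L ≤ n)
    (hs0 : 0 ≤ s) (hs : s ≤ ε / cp) :
    L ^ d * (m : ℝ) ^ d * (C / (m : ℝ) ^ 2 + 2 * (1 / (η * ε * (n : ℝ) ^ d) + s * (2 * d) *
      (3 * C * Real.sqrt (η * ε * (n : ℝ) ^ d) + C * ε * (η * ε * (n : ℝ) ^ d)) /
        (η * ε * (n : ℝ) ^ d)) * (3 * C * Real.sqrt ((γ / K) ^ 2 * (m : ℝ) ^ 4))) /
        (η * ε * (n : ℝ) ^ d / 2) ≤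
      8 * C / (η * K) + 12 * C * (1 + 8 * C * d / cp) * γ / η := by
  have hn0 : (0 : ℝ) < (n : ℝ) := by exact_mod_cast hn
  have hm0 : (0 : ℝ) < (m : ℝ) := by exact_mod_cast hm
  have hLm : L ^ d * (m : ℝ) ^ d ≤ (n : ℝ) ^ d := by
    rw [← mul_pow]
    exact pow_le_pow_left₀ (by positivity) (by linarith) d
  obtain ⟨N, hN⟩ : ∃ N : ℝ, N = (n : ℝ) ^ d := ⟨_, rfl⟩
  have hN0 : 0 < N := by rw [hN]; positivity
  rw [← hN] at ht hLm ⊢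
  obtain ⟨t, htd⟩ : ∃ t : ℝ, t = η * ε * N := ⟨_, rfl⟩
  have htt : 1 ≤ t * ε ^ 2 := by
    calc (1 : ℝ) ≤ η * ε ^ 3 * N := ht
      _ = t * ε ^ 2 := by rw [htd]; ring
  rw [← htd]
  obtain ⟨ht0, -, h2, h3⟩ := F2_inv hε htt
  have hr : Real.sqrt ((γ / K) ^ 2 * (m : ℝ) ^ 4) = γ / K * (m : ℝ) ^ 2 := by
    have : (γ / K) ^ 2 * (m : ℝ) ^ 4 = (γ / K * (m : ℝ) ^ 2) ^ 2 := by ring
    rw [this, Real.sqrt_sq (by positivity)]
  rw [hr]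
  -- the single terms
  have e1 : C / (m : ℝ) ^ 2 ≤ 4 * C * ε / K := by
    rw [div_le_div_iff₀ (by positivity) hK]
    nlinarith
  have e2 : s * (2 * d) * (3 * C * Real.sqrt t + C * ε * t) / t ≤ 8 * C * d / cp * ε ^ 2 := by
    have e3 : (3 * C * Real.sqrt t + C * ε * t) / t ≤ 4 * C * ε := by
      have : (3 * C * Real.sqrt t + C * ε * t) / t = 3 * C * (Real.sqrt t / t) + C * ε := by
        field_simp
      rw [this]
      nlinarith [mul_le_mul_of_nonneg_left h3 (by positivity : (0 : ℝ) ≤ 3 * C)]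
    have e4 : 0 ≤ (3 * C * Real.sqrt t + C * ε * t) / t := by positivity
    have e5 : s * (2 * d) ≤ ε / cp * (2 * d) := mul_le_mul_of_nonneg_right hs (by positivity)
    calc s * (2 * d) * (3 * C * Real.sqrt t + C * ε * t) / t
        = s * (2 * d) * ((3 * C * Real.sqrt t + C * ε * t) / t) := by ring
      _ ≤ ε / cp * (2 * d) * ((3 * C * Real.sqrt t + C * ε * t) / t) :=
          mul_le_mul_of_nonneg_right e5 e4
      _ ≤ ε / cp * (2 * d) * (4 * C * ε) := mul_le_mul_of_nonneg_left e3 (by positivity)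
      _ = 8 * C * d / cp * ε ^ 2 := by ring
  have e6 : 2 * (1 / t + s * (2 * d) * (3 * C * Real.sqrt t + C * ε * t) / t) *
      (3 * C * (γ / K * (m : ℝ) ^ 2)) ≤ 6 * C * (1 + 8 * C * d / cp) * γ * ε := by
    have e7 : 1 / t + s * (2 * d) * (3 * C * Real.sqrt t + C * ε * t) / t ≤
        (1 + 8 * C * d / cp) * ε ^ 2 := by linarith
    have e8 : (m : ℝ) ^ 2 * ε / K ≤ 1 := by rwa [div_le_one hK]
    calc 2 * (1 / t + s * (2 * d) * (3 * C * Real.sqrt t + C * ε * t) / t) *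
          (3 * C * (γ / K * (m : ℝ) ^ 2))
        ≤ 2 * ((1 + 8 * C * d / cp) * ε ^ 2) * (3 * C * (γ / K * (m : ℝ) ^ 2)) :=
          mul_le_mul_of_nonneg_right (by linarith) (by positivity)
      _ = 6 * C * (1 + 8 * C * d / cp) * γ * ε * ((m : ℝ) ^ 2 * ε / K) := by ring
      _ ≤ 6 * C * (1 + 8 * C * d / cp) * γ * ε * 1 :=
          mul_le_mul_of_nonneg_left e8 (by positivity)
      _ = 6 * C * (1 + 8 * C * d / cp) * γ * ε := by ring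
  have e9 : 0 ≤ C / (m : ℝ) ^ 2 + 2 * (1 / t + s * (2 * d) *
      (3 * C * Real.sqrt t + C * ε * t) / t) * (3 * C * (γ / K * (m : ℝ) ^ 2)) := by positivity
  calc L ^ d * (m : ℝ) ^ d * (C / (m : ℝ) ^ 2 + 2 * (1 / t + s * (2 * d) *
        (3 * C * Real.sqrt t + C * ε * t) / t) * (3 * C * (γ / K * (m : ℝ) ^ 2))) / (t / 2)
      ≤ N * (C / (m : ℝ) ^ 2 + 2 * (1 / t + s * (2 * d) *
        (3 * C * Real.sqrt t + C * ε * t) / t) * (3 * C * (γ / K * (m : ℝ) ^ 2))) / (t / 2) :=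
        div_le_div_of_nonneg_right (mul_le_mul_of_nonneg_right hLm e9) (by positivity)
    _ ≤ N * (4 * C * ε / K + 6 * C * (1 + 8 * C * d / cp) * γ * ε) / (t / 2) :=
        div_le_div_of_nonneg_right (mul_le_mul_of_nonneg_left (add_le_add e1 e6) hN0.le)
          (by positivity)
    _ = 8 * C / (η * K) + 12 * C * (1 + 8 * C * d / cp) * γ / η := by
        rw [htd]
        field_simp
        ring

/-- Row F3. `√(2 y²) ≤ 2 y` with `y = m^d C/√A2 = m^d C K/(γ m²)`; `L^d m^d ≤ n^d`; `K/(ε m²) ≤ 4`. -/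
lemma S3_le {d n m : ℕ} {η ε C K γ L X ρ' : ℝ} (hη : 0 < η) (hε : 0 < ε) (hn : 1 ≤ n) (hm : 1 ≤ m)
    (hC : 0 ≤ C) (hK : 0 < K) (hγ : 0 < γ)
    (hK2 : K ≤ 4 * ((m : ℝ) ^ 2 * ε)) (hL0 : 0 ≤ L) (hL : m * L ≤ n)
    (hX : (m : ℝ) ^ d * X ≤ ((m : ℝ) ^ d * (C / Real.sqrt ((γ / K) ^ 2 * (m : ℝ) ^ 4))) ^ 2) :
    L ^ d * (Real.sqrt (((m : ℝ) ^ d * (C / Real.sqrt ((γ / K) ^ 2 * (m : ℝ) ^ 4))) ^ 2 +
      (m : ℝ) ^ d * X) * Real.sqrt ρ') / (η * ε * (n : ℝ) ^ d / 2) ≤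
      16 * C * Real.sqrt ρ' / (η * γ) := by
  have hm0 : (0 : ℝ) < m := by exact_mod_cast hm
  have hn0 : (0 : ℝ) < n := by exact_mod_cast hn
  have hN : (0 : ℝ) < (n : ℝ) ^ d := pow_pos hn0 d
  have hM : (0 : ℝ) < (m : ℝ) ^ d := pow_pos hm0 d
  have hm2 : (0 : ℝ) < (m : ℝ) ^ 2 := pow_pos hm0 2
  have hs : Real.sqrt ((γ / K) ^ 2 * (m : ℝ) ^ 4) = γ / K * (m : ℝ) ^ 2 := by
    have h1 : (γ / K) ^ 2 * (m : ℝ) ^ 4 = (γ / K * (m : ℝ) ^ 2) ^ 2 := by ring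
    rw [h1, Real.sqrt_sq (by positivity)]
  rw [hs] at hX ⊢
  set y : ℝ := (m : ℝ) ^ d * (C / (γ / K * (m : ℝ) ^ 2)) with hy
  have hy0 : 0 ≤ y := by positivity
  have h2 : Real.sqrt (y ^ 2 + (m : ℝ) ^ d * X) ≤ 2 * y := by
    apply Real.sqrt_le_iff.2
    exact ⟨by positivity, by nlinarith⟩
  have hLd : L ^ d * (m : ℝ) ^ d ≤ (n : ℝ) ^ d := by
    rw [← mul_pow, mul_comm L]
    exact pow_le_pow_left₀ (by positivity) hL d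
  have hρ : 0 ≤ Real.sqrt ρ' := Real.sqrt_nonneg _
  have hLd0 : 0 ≤ L ^ d := pow_nonneg hL0 d
  have hKe : K / ((m : ℝ) ^ 2 * ε) ≤ 4 := by
    rw [div_le_iff₀ (by positivity)]
    exact hK2
  calc L ^ d * (Real.sqrt (y ^ 2 + (m : ℝ) ^ d * X) * Real.sqrt ρ') / (η * ε * (n : ℝ) ^ d / 2)
      ≤ L ^ d * (2 * y * Real.sqrt ρ') / (η * ε * (n : ℝ) ^ d / 2) := by
        apply div_le_div_of_nonneg_right _ (by positivity)
        exact mul_le_mul_of_nonneg_left (mul_le_mul_of_nonneg_right h2 hρ) hLd0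
    _ = (L ^ d * (m : ℝ) ^ d) * (4 * (C / (γ / K * (m : ℝ) ^ 2)) * Real.sqrt ρ' /
        (η * ε * (n : ℝ) ^ d)) := by
        rw [hy]
        field_simp
        ring
    _ ≤ (n : ℝ) ^ d * (4 * (C / (γ / K * (m : ℝ) ^ 2)) * Real.sqrt ρ' /
        (η * ε * (n : ℝ) ^ d)) := by
        apply mul_le_mul_of_nonneg_right hLd (by positivity)
    _ = K / ((m : ℝ) ^ 2 * ε) * (4 * C * Real.sqrt ρ' / (η * γ)) := by
        field_simp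
    _ ≤ 4 * (4 * C * Real.sqrt ρ' / (η * γ)) := by
        apply mul_le_mul_of_nonneg_right hKe (by positivity)
    _ = 16 * C * Real.sqrt ρ' / (η * γ) := by ring

/-- Row F3 (second half). -/
lemma S4_le {d n : ℕ} {η ε C P : ℝ} (hη : 0 < η) (hε : 0 < ε) (hn : 1 ≤ n) (hC : 0 ≤ C) (hP : 0 ≤ P)
    (ht : 1 ≤ η * ε ^ 3 * (n : ℝ) ^ d) :
    1 / (η * ε * (n : ℝ) ^ d) * (P * ((n : ℝ) ^ d * (C * (1 / Real.sqrt (η * ε * (n : ℝ) ^ d) + ε)))) ≤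
      2 * C * P / η := by
  have hn0 : (0 : ℝ) < n := by exact_mod_cast hn
  have hN : (0 : ℝ) < (n : ℝ) ^ d := pow_pos hn0 d
  have ht0 : 0 < η * ε * (n : ℝ) ^ d := by positivity
  have h1 : 1 / ε ≤ Real.sqrt (η * ε * (n : ℝ) ^ d) := by
    apply Real.le_sqrt_of_sq_le
    rw [div_pow, one_pow, div_le_iff₀ (by positivity)]
    calc (1 : ℝ) ≤ η * ε ^ 3 * (n : ℝ) ^ d := ht
      _ = η * ε * (n : ℝ) ^ d * ε ^ 2 := by ring
  have h2 : 1 / Real.sqrt (η * ε * (n : ℝ) ^ d) ≤ ε := by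
    rw [div_le_iff₀ (Real.sqrt_pos.2 ht0)]
    calc (1 : ℝ) = ε * (1 / ε) := by field_simp
      _ ≤ ε * Real.sqrt (η * ε * (n : ℝ) ^ d) := mul_le_mul_of_nonneg_left h1 hε.le
  calc 1 / (η * ε * (n : ℝ) ^ d) *
        (P * ((n : ℝ) ^ d * (C * (1 / Real.sqrt (η * ε * (n : ℝ) ^ d) + ε))))
      ≤ 1 / (η * ε * (n : ℝ) ^ d) * (P * ((n : ℝ) ^ d * (C * (2 * ε)))) := by
        apply mul_le_mul_of_nonneg_left _ (by positivity)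
        apply mul_le_mul_of_nonneg_left _ hP
        apply mul_le_mul_of_nonneg_left _ hN.le
        apply mul_le_mul_of_nonneg_left _ hC
        linarith
    _ = 2 * C * P / η := by
        field_simp

/-- Row F4. The sprinkling terms. `σ = K c3/16`, `x = 1 - exp (-σ)`: `(ε/4) κ ≥ (K/(16 m²)) c3 m² = σ`, so `two_hop_const` gives `j1 ≥ x j - 1` with second term at
most `exp (-(x j/4)) ≤ exp (-(x c3 m^(d-6)/4))`. First term: `pow_le_exp`, and `(ε/4) (kk + 1) ≥ σ m^(d-6)`, `(ε/4) (j1 κ) ≥ σ j1 ≥ σ (x c3 m^(d-6) - 1)`. All tend to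
infinity with `m` (`d ≥ 7`, `m^(d-6) ≥ m`): `exp_small`. -/
lemma spr_small (d : ℕ) (hd : 7 ≤ d) (K c3 ρ : ℝ) (hK : 0 < K) (hc3 : 0 < c3) (hρ : 0 < ρ) :
    ∃ m1 : ℕ, 1 ≤ m1 ∧ ∀ m : ℕ, m1 ≤ m → ∀ ε : ℝ, 0 < ε → ε ≤ 1 → K ≤ 4 * ((m : ℝ) ^ 2 * ε) →
      ∀ kk κ j : ℕ, c3 * (m : ℝ) ^ (d - 6) ≤ j → c3 * (m : ℝ) ^ 2 ≤ κ → c3 * (m : ℝ) ^ (d - 4) ≤ kk →
      ∃ j1 : ℕ, (1 - ε / 4) ^ (min (kk + 1) (j1 * κ)) +
        2 ^ j1 * (1 - (1 - (1 - ε / 4) ^ κ) / 2) ^ (2 * j) ≤ ρ := by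
  obtain ⟨σ, hσd⟩ : ∃ σ : ℝ, σ = K * c3 / 16 := ⟨_, rfl⟩
  have hσ : 0 < σ := by rw [hσd]; positivity
  obtain ⟨x, hxd⟩ : ∃ x : ℝ, x = 1 - Real.exp (-σ) := ⟨_, rfl⟩
  have hx : 0 < x := by
    have : Real.exp (-σ) < 1 := by rw [Real.exp_lt_one_iff]; linarith
    rw [hxd]; linarith
  obtain ⟨X1, hX1, h1⟩ := exp_small (x * c3 / 4) (ρ / 2) (by positivity) (by positivity)
  obtain ⟨X2, hX2, h2⟩ := exp_small σ (ρ / 2) hσ (by positivity)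
  obtain ⟨X3, hX3, h3⟩ := exp_small (σ * (x * c3)) (ρ / 2 * Real.exp (-σ)) (by positivity)
    (by positivity)
  refine ⟨⌈X1 + X2 + X3⌉₊ + 1, by omega, ?_⟩
  intro m hm ε hε hε1 hKm kk κ j hj hκ hkk
  have hmX : X1 + X2 + X3 ≤ (m : ℝ) := by
    have ha := Nat.le_ceil (X1 + X2 + X3)
    have hb : ((⌈X1 + X2 + X3⌉₊ : ℕ) : ℝ) ≤ (m : ℝ) := by exact_mod_cast (by omega)
    linarith
  have hm1 : (1 : ℝ) ≤ (m : ℝ) := by exact_mod_cast (by omega)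
  obtain ⟨M, hM⟩ : ∃ M : ℝ, M = (m : ℝ) ^ (d - 6) := ⟨_, rfl⟩
  have hMm : (m : ℝ) ≤ M := by
    rw [hM]
    calc (m : ℝ) = (m : ℝ) ^ 1 := (pow_one _).symm
      _ ≤ (m : ℝ) ^ (d - 6) := pow_le_pow_right₀ hm1 (by omega)
  have hM0 : 0 ≤ M := by linarith
  have hsp : (m : ℝ) ^ (d - 4) = (m : ℝ) ^ 2 * M := by
    rw [hM, ← pow_add]; congr 1; omega
  rw [← hM] at hj
  rw [hsp] at hkk
  obtain ⟨s, hs⟩ : ∃ s : ℝ, s = ε / 4 := ⟨_, rfl⟩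
  rw [← hs]
  have hs0 : 0 ≤ s := by rw [hs]; positivity
  have hs1 : s ≤ 1 := by rw [hs]; linarith
  have hsm : σ ≤ s * (c3 * (m : ℝ) ^ 2) := by
    rw [hσd, hs]; nlinarith [mul_le_mul_of_nonneg_left hKm hc3.le]
  have hsκ : σ ≤ s * κ := le_trans hsm (mul_le_mul_of_nonneg_left hκ hs0)
  obtain ⟨j1, hj1, hj2⟩ := two_hop_const hs0 hs1 hσ κ j hsκ
  rw [← hxd] at hj1 hj2
  refine ⟨j1, ?_⟩
  have hxj : x * (c3 * M) ≤ x * (j : ℝ) := mul_le_mul_of_nonneg_left hj hx.le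
  have hsecond : (2 : ℝ) ^ j1 * (1 - (1 - (1 - s) ^ κ) / 2) ^ (2 * j) ≤ ρ / 2 := by
    refine le_trans hj2 (le_trans (Real.exp_le_exp.mpr ?_) (h1 M (by linarith)))
    have : x * c3 / 4 * M = x * (c3 * M) / 4 := by ring
    rw [this]; linarith
  have hfirst : (1 - s) ^ (min (kk + 1) (j1 * κ)) ≤ ρ / 2 := by
    refine le_trans (pow_le_exp hs0 hs1 _) ?_
    rcases le_total (kk + 1) (j1 * κ) with h | h
    · rw [min_eq_left h]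
      refine le_trans (Real.exp_le_exp.mpr ?_) (h2 M (by linarith))
      have ha : σ * M ≤ s * (c3 * (m : ℝ) ^ 2) * M := mul_le_mul_of_nonneg_right hsm hM0
      have hb : s * (c3 * ((m : ℝ) ^ 2 * M)) ≤ s * (kk : ℝ) := mul_le_mul_of_nonneg_left hkk hs0
      push_cast
      nlinarith
    · rw [min_eq_right h]
      have hj0 : (0 : ℝ) ≤ (j1 : ℝ) := Nat.cast_nonneg _
      have ha : (j1 : ℝ) * σ ≤ (j1 : ℝ) * (s * κ) := mul_le_mul_of_nonneg_left hsκ hj0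
      have hb : σ * (x * (c3 * M) - 1) ≤ σ * (j1 : ℝ) :=
        mul_le_mul_of_nonneg_left (by linarith) hσ.le
      have hc := h3 M (by linarith)
      have hkey : Real.exp (-(s * ((j1 * κ : ℕ) : ℝ))) ≤
          Real.exp (-(σ * (x * c3) * M)) * Real.exp σ := by
        rw [← Real.exp_add]
        apply Real.exp_le_exp.mpr
        push_cast
        nlinarith
      refine le_trans hkey ?_
      calc Real.exp (-(σ * (x * c3) * M)) * Real.exp σ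
          ≤ (ρ / 2 * Real.exp (-σ)) * Real.exp σ :=
            mul_le_mul_of_nonneg_right hc (Real.exp_pos _).le
        _ = ρ / 2 := by rw [mul_assoc, ← Real.exp_add]; simp
  linarith

end Pool.Agent.PERC29.AE
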