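import Pool.Agent.Lib.MP_29e17e_pr.Y.As
import Pool.Agent.Lib.MP_29e17e_pr.Y.Bb
import Pool.Agent.Lib.MP_29e17e_pr.Y.Cs

set_option autoImplicit false
set_option linter.unusedSectionVars false

/-! Assembly: uniqueness of the giant component at every scale. -/

open Finset

namespace Pool.Agent.PERC29.AE

/-- The first constant: `ρ0`. -/
lemma rho_ex (d R0 : ℕ) (ρs η : ℝ) (hρs : 0 < ρs) (hη : 0 < η) :
    ∃ ρ0 : ℝ, 0 < ρ0 ∧ 4 * 20 ^ d * ρ0 ≤ ρs / 2 ∧ 2 * (40 : ℝ) ^ (2 * d) * ρ0 ≤ 1 ∧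
      (40 * (R0 : ℝ)) ^ d * ρ0 ≤ η / 16 ∧ 8 * 20 ^ d * ρ0 ≤ η / 16 := by
  set M : ℝ := 8 * 20 ^ d + 2 * (40 : ℝ) ^ (2 * d) + (40 * (R0 : ℝ)) ^ d + 1 with hM
  have hM0 : 0 < M := by positivity
  set u : ℝ := min (min ρs η) 1 with hu
  have hu0 : 0 < u := lt_min (lt_min hρs hη) one_pos
  have hu1 : u ≤ ρs := (min_le_left _ _).trans (min_le_left _ _)
  have hu2 : u ≤ η := (min_le_left _ _).trans (min_le_right _ _)
  have hu3 : u ≤ 1 := min_le_right _ _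
  have key : ∀ y : ℝ, 0 ≤ y → y ≤ M → y * (u / (16 * M)) ≤ u / 16 := by
    intro y hy hyM
    rw [mul_div_assoc', div_le_div_iff₀ (by positivity) (by norm_num)]
    have := mul_le_mul_of_nonneg_right hyM hu0.le
    linarith
  have p1 : (0 : ℝ) ≤ 20 ^ d := by positivity
  have p2 : (0 : ℝ) ≤ (40 : ℝ) ^ (2 * d) := by positivity
  have p3 : (0 : ℝ) ≤ (40 * (R0 : ℝ)) ^ d := by positivity
  refine ⟨u / (16 * M), by positivity, ?_, ?_, ?_, ?_⟩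
  · have := key (4 * 20 ^ d) (by positivity) (by rw [hM]; linarith)
    linarith
  · have := key (2 * (40 : ℝ) ^ (2 * d)) (by positivity) (by rw [hM]; linarith)
    linarith
  · have := key ((40 * (R0 : ℝ)) ^ d) (by positivity) (by rw [hM]; linarith)
    linarith
  · have := key (8 * 20 ^ d) (by positivity) (by rw [hM]; linarith)
    linarith

/-- Large `m`. -/
lemma m_ex (d : ℕ) (hd : 7 ≤ d) (a C D1 : ℝ) (ha : 0 < a) (hC : 0 < C) :
    ∃ m4 : ℕ, ∀ m : ℕ, m4 ≤ m → 1 ≤ m → 1 ≤ a * (m : ℝ) ^ 4 ∧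
      (m : ℝ) ^ d * (C * D1 * ((8 * m : ℕ) : ℝ) ^ 2) ≤
        ((m : ℝ) ^ d * (C / Real.sqrt (a * (m : ℝ) ^ 4))) ^ 2 := by
  obtain ⟨m4, hm4⟩ := exists_nat_ge (max (1 / a) (64 * D1 * a / C))
  refine ⟨m4, fun m hm h1 => ?_⟩
  have hmR : (1 : ℝ) ≤ m := by exact_mod_cast h1
  have hm4' : (m4 : ℝ) ≤ m := by exact_mod_cast hm
  have e1 : 1 / a ≤ m := (le_max_left _ _).trans (hm4.trans hm4')
  have e2 : 64 * D1 * a / C ≤ m := (le_max_right _ _).trans (hm4.trans hm4')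
  have hm0 : (0 : ℝ) < m := by linarith
  have h4 : (m : ℝ) ≤ (m : ℝ) ^ 4 := by
    calc (m : ℝ) = (m : ℝ) ^ 1 := (pow_one _).symm
      _ ≤ (m : ℝ) ^ 4 := pow_le_pow_right₀ hmR (by norm_num)
  constructor
  · rw [div_le_iff₀ ha] at e1
    have h5 := mul_le_mul_of_nonneg_left h4 ha.le
    linarith
  · rw [div_le_iff₀ hC] at e2
    have hs : Real.sqrt (a * (m : ℝ) ^ 4) ^ 2 = a * (m : ℝ) ^ 4 := Real.sq_sqrt (by positivity)
    rw [mul_pow, div_pow, hs]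
    push_cast
    have hd1 : (m : ℝ) ^ d = (m : ℝ) ^ 7 * (m : ℝ) ^ (d - 7) := by
      rw [← pow_add]; congr 1; omega
    have hq : (1 : ℝ) ≤ (m : ℝ) ^ (d - 7) := one_le_pow₀ hmR
    have h5 : (m : ℝ) ^ 7 ≤ (m : ℝ) ^ d := by
      rw [hd1]
      have h6 : (0 : ℝ) ≤ (m : ℝ) ^ 7 := by positivity
      have h7 := mul_le_mul_of_nonneg_left hq h6
      linarith
    have e3 : C * D1 * (8 * (m : ℝ)) ^ 2 ≤ (m : ℝ) ^ d * (C ^ 2 / (a * (m : ℝ) ^ 4)) := by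
      rw [mul_div_assoc', le_div_iff₀ (by positivity)]
      calc C * D1 * (8 * (m : ℝ)) ^ 2 * (a * (m : ℝ) ^ 4) = (64 * D1 * a) * (C * (m : ℝ) ^ 6) := by ring
        _ ≤ ((m : ℝ) * C) * (C * (m : ℝ) ^ 6) := mul_le_mul_of_nonneg_right e2 (by positivity)
        _ = (m : ℝ) ^ 7 * C ^ 2 := by ring
        _ ≤ (m : ℝ) ^ d * C ^ 2 := mul_le_mul_of_nonneg_right h5 (by positivity)
    calc (m : ℝ) ^ d * (C * D1 * (8 * (m : ℝ)) ^ 2) ≤
        (m : ℝ) ^ d * ((m : ℝ) ^ d * (C ^ 2 / (a * (m : ℝ) ^ 4))) :=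
          mul_le_mul_of_nonneg_left e3 (by positivity)
      _ = ((m : ℝ) ^ d) ^ 2 * (C ^ 2 / (a * (m : ℝ) ^ 4)) := by ring

open scoped Classical in
lemma tail_real {V : Type*} [Fintype V] [DecidableEq V] {E : Type*} [Fintype E] [DecidableEq E]
    {ends : E → Sym2 V} {p C t : ℝ} (hC : 0 ≤ C) (ht : 1 ≤ t) (x : V)
    (hT : ∀ k : ℕ, 1 ≤ k → Ex p (fun ω => if (k : ℝ) ≤ cz ends ω x then (1 : ℝ) else 0) ≤
      C / Real.sqrt k) :
    Ex p (fun ω => if t ≤ cz ends ω x then (1 : ℝ) else 0) ≤ C / Real.sqrt t := by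
  have h1 : 1 ≤ ⌈t⌉₊ := Nat.one_le_ceil_iff.2 (by linarith)
  have h2 : t ≤ (⌈t⌉₊ : ℝ) := Nat.le_ceil t
  have h3 : Ex p (fun ω => if t ≤ cz ends ω x then (1 : ℝ) else 0) =
      Ex p (fun ω => if (⌈t⌉₊ : ℝ) ≤ cz ends ω x then (1 : ℝ) else 0) := by
    refine Ex_congr fun ω => ?_
    have h4 : t ≤ cz ends ω x ↔ (⌈t⌉₊ : ℝ) ≤ cz ends ω x := by
      unfold cz
      rw [Nat.cast_le, Nat.ceil_le]
    by_cases h5 : t ≤ cz ends ω x
    · rw [if_pos h5, if_pos (h4.1 h5)]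
    · rw [if_neg h5, if_neg (fun h => h5 (h4.2 h))]
  rw [h3]
  refine (hT _ h1).trans ?_
  exact div_le_div_of_nonneg_left hC (Real.sqrt_pos.2 (by linarith)) (Real.sqrt_le_sqrt h2)

lemma num_sigma {C η m n R0 Q : ℝ} (d : ℝ) (hd : 0 ≤ d) (hC : 0 < C) (hη : 0 < η) (hm : 0 < m) (hn : 0 < n)
    (hR0 : 64 * C * d / η ^ 2 + 4 ≤ R0) (hQ : 576 * C * d / η ^ 2 ≤ Q) (hQm : Q * m ≤ n) :
    d * (9 * m / n + 1 / R0) ≤ η ^ 2 / (32 * C) := by
  have h64 : 0 ≤ 64 * C * d / η ^ 2 := by positivity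
  have hR0p : (0 : ℝ) < R0 := by linarith
  have e1 : d * (1 / R0) ≤ η ^ 2 / (64 * C) := by
    rw [mul_one_div, div_le_div_iff₀ hR0p (by positivity)]
    have : 64 * C * d / η ^ 2 ≤ R0 := by linarith
    rw [div_le_iff₀ (by positivity)] at this
    linarith
  have e2 : d * (9 * m / n) ≤ η ^ 2 / (64 * C) := by
    rw [mul_div_assoc', div_le_div_iff₀ (by linarith) (by positivity)]
    have h1 : 576 * C * d / η ^ 2 * m ≤ n := (mul_le_mul_of_nonneg_right hQ hm.le).trans hQm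
    rw [div_mul_eq_mul_div, div_le_iff₀ (by positivity)] at h1
    linarith
  have : η ^ 2 / (64 * C) + η ^ 2 / (64 * C) = η ^ 2 / (32 * C) := by field_simp; norm_num
  rw [mul_add]
  linarith

lemma num_b1 {C η σ : ℝ} (hC : 0 < C) (hη : 0 < η) (h : σ ≤ η ^ 2 / (32 * C)) :
    4 * C * σ / η ≤ η / 8 := by
  rw [div_le_iff₀ hη]
  have := mul_le_mul_of_nonneg_left h (by positivity : (0 : ℝ) ≤ 4 * C)
  have h2 : 4 * C * (η ^ 2 / (32 * C)) = η / 8 * η := by field_simp; norm_num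
  linarith

lemma num_b2 {C η K γ cp d : ℝ} (hC : 0 < C) (hη : 0 < η) (hK : 0 < K) (hd : 0 ≤ d) (hcp : 0 < cp)
    (hγ : γ = η ^ 2 / (192 * C * (1 + 8 * C * d / cp))) (hK2 : 128 * C / η ^ 2 ≤ K) :
    8 * C / (η * K) + 12 * C * (1 + 8 * C * d / cp) * γ / η ≤ η / 8 := by
  have h1 : 8 * C / (η * K) ≤ η / 16 := by
    rw [div_le_div_iff₀ (by positivity) (by norm_num)]
    rw [div_le_iff₀ (by positivity)] at hK2
    calc 8 * C * 16 = 128 * C := by ring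
      _ ≤ K * η ^ 2 := hK2
      _ = η * (η * K) := by ring
  have h2 : 12 * C * (1 + 8 * C * d / cp) * γ / η = η / 16 := by
    have h3 : 0 < 1 + 8 * C * d / cp := by positivity
    rw [hγ]
    generalize 1 + 8 * C * d / cp = w at h3
    field_simp
    norm_num
  linarith

lemma num_b3 {C η γ ρs r : ℝ} (hC : 0 < C) (hη : 0 < η) (hγ : 0 < γ)
    (hρs : ρs = (η ^ 2 * γ / (128 * C)) ^ 2) (hr : r ≤ ρs) :
    16 * C * Real.sqrt r / (η * γ) ≤ η / 8 := by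
  have h1 : Real.sqrt r ≤ η ^ 2 * γ / (128 * C) := by
    apply Real.sqrt_le_iff.2
    refine ⟨by positivity, ?_⟩
    rw [← hρs]
    exact hr
  rw [div_le_iff₀ (by positivity)]
  calc 16 * C * Real.sqrt r ≤ 16 * C * (η ^ 2 * γ / (128 * C)) :=
        mul_le_mul_of_nonneg_left h1 (by positivity)
    _ = η / 8 * (η * γ) := by field_simp; norm_num

lemma num_b4 {C η P : ℝ} (hC : 0 < C) (hη : 0 < η) (hP : P ≤ η ^ 2 / (16 * C)) :
    2 * C * P / η ≤ η / 8 := by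
  rw [div_le_iff₀ hη]
  calc 2 * C * P ≤ 2 * C * (η ^ 2 / (16 * C)) := mul_le_mul_of_nonneg_left hP (by positivity)
    _ = η / 8 * η := by field_simp; norm_num

lemma num_half {m n X L R0 : ℝ} (hm : 0 < m) (hX0 : 0 ≤ X) (f1 : n - 9 * m ≤ m * X)
    (f3 : 36 * m ≤ n) (hR0 : 4 ≤ R0) (r4 : X * (1 - 1 / R0) ≤ L) : n / 2 ≤ m * L := by
  have f2 : 3 / 4 ≤ (1 : ℝ) - 1 / R0 := by
    have : (1 : ℝ) / R0 ≤ 1 / 4 := one_div_le_one_div_of_le (by norm_num) hR0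
    linarith
  have f4 : 3 / 4 * n ≤ m * X := by linarith
  have f5 : m * (X * (1 - 1 / R0)) ≤ m * L := mul_le_mul_of_nonneg_left r4 hm.le
  have f6 : m * (X * (1 - 1 / R0)) = (m * X) * (1 - 1 / R0) := by ring
  have f7 : 3 / 4 * n * (3 / 4) ≤ (m * X) * (1 - 1 / R0) :=
    mul_le_mul f4 f2 (by norm_num) (by positivity)
  have : 0 < n := by linarith
  linarith

lemma num_low {d : ℕ} {b0 K ε n m L : ℝ} (hd : 2 ≤ d) (hb0 : 0 < b0) (hK : 0 < K) (hε : 0 < ε)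
    (hn : 0 < n) (hm : 0 < m) (hL : 0 ≤ L) (e1 : n / 2 ≤ m * L) (hmK : m ^ 2 * ε ≤ K) :
    3 * b0 / (2 * 2 ^ d * K) * ε * n ^ d ≤ 3 * (b0 * m ^ (d - 2)) * L ^ d / 2 := by
  have e2 : (n / 2) ^ d ≤ (m * L) ^ d := pow_le_pow_left₀ (by positivity) e1 d
  have e3 : m ^ d = m ^ (d - 2) * m ^ 2 := by
    rw [← pow_add]; congr 1; omega
  rw [mul_pow, e3, div_pow, div_le_iff₀ (by positivity)] at e2
  have e4 : 3 * b0 / (2 * 2 ^ d * K) * ε * n ^ d ≤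
      3 * b0 / (2 * 2 ^ d * K) * ε * (m ^ (d - 2) * m ^ 2 * L ^ d * 2 ^ d) :=
    mul_le_mul_of_nonneg_left e2 (by positivity)
  refine e4.trans ?_
  have e5 : 3 * b0 / (2 * 2 ^ d * K) * ε * (m ^ (d - 2) * m ^ 2 * L ^ d * 2 ^ d) =
      3 * (b0 * m ^ (d - 2)) * L ^ d / 2 * ((m ^ 2 * ε) / K) := by
    field_simp
  rw [e5]
  have e6 : (m ^ 2 * ε) / K ≤ 1 := (div_le_one hK).2 hmK
  have e7 : 0 ≤ 3 * (b0 * m ^ (d - 2)) * L ^ d / 2 := by positivity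
  calc 3 * (b0 * m ^ (d - 2)) * L ^ d / 2 * ((m ^ 2 * ε) / K) ≤
      3 * (b0 * m ^ (d - 2)) * L ^ d / 2 * 1 := mul_le_mul_of_nonneg_left e6 e7
    _ = _ := mul_one _

lemma num_beta {d : ℕ} {η K ε n m L β : ℝ} (hd : 2 ≤ d) (hη : 0 < η) (hε : 0 < ε)
    (hn : 0 < n) (hm : 0 < m) (hL : 0 ≤ L) (hβ : 0 < β) (hβ2 : β ≤ η * K / 16) (hmL : m * L ≤ n)
    (hmK2 : K ≤ 4 * (m ^ 2 * ε)) :
    β * m ^ (d - 2) * L ^ d < η * ε * n ^ d / 2 := by
  have hnd : 0 < n ^ d := by positivity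
  have e1 : (m * L) ^ d ≤ n ^ d := pow_le_pow_left₀ (by positivity) hmL d
  have e2 : m ^ d = m ^ (d - 2) * m ^ 2 := by
    rw [← pow_add]; congr 1; omega
  rw [mul_pow, e2] at e1
  have e3 : m ^ 2 * (β * m ^ (d - 2) * L ^ d) ≤ β * n ^ d := by
    calc m ^ 2 * (β * m ^ (d - 2) * L ^ d) = β * (m ^ (d - 2) * m ^ 2 * L ^ d) := by ring
      _ ≤ β * n ^ d := mul_le_mul_of_nonneg_left e1 hβ.le
  have e4 : β * n ^ d ≤ η * K / 16 * n ^ d := mul_le_mul_of_nonneg_right hβ2 hnd.le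
  have e5 : η * K / 16 * n ^ d ≤ m ^ 2 * (η * ε * n ^ d / 4) := by
    have h : η * K * n ^ d ≤ η * (4 * (m ^ 2 * ε)) * n ^ d :=
      mul_le_mul_of_nonneg_right (mul_le_mul_of_nonneg_left hmK2 hη.le) hnd.le
    have h2 : η * K / 16 * n ^ d = η * K * n ^ d / 16 := by ring
    have h3 : m ^ 2 * (η * ε * n ^ d / 4) = η * (4 * (m ^ 2 * ε)) * n ^ d / 16 := by ring
    rw [h2, h3]
    linarith
  have e6 : m ^ 2 * (β * m ^ (d - 2) * L ^ d) ≤ m ^ 2 * (η * ε * n ^ d / 4) := e3.trans (e4.trans e5)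
  have e7 := le_of_mul_le_mul_left e6 (by positivity)
  have e8 : 0 < η * ε * n ^ d := by positivity
  linarith

lemma num_sum {η u a1 a2 a3 a4 v : ℝ} (hη : 0 < η) (hu : u ≤ η / 16) (h1 : a1 ≤ η / 8)
    (h2 : a2 ≤ η / 8) (h3 : a3 ≤ η / 8) (h4 : a4 ≤ η / 8) (hv : v ≤ η / 16) :
    u + (a1 + a2 + a3) + a4 + (u + v) ≤ η := by linarith

open scoped Classical in
theorem uniq_ex (d : ℕ) (hd : 9 ≤ d) (C c0 cp η : ℝ) (hC : 1 ≤ C) (hc0 : 0 < c0) (hcp : 0 < cp)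
    (hcp1 : cp ≤ 1) (hη : 0 < η) (hη1 : η ≤ 1) :
    ∃ A c ε0 : ℝ, 0 < A ∧ 0 < c ∧ 0 < ε0 ∧ ∀ (n : ℕ) [NeZero n] [Fintype (torG d n).edgeSet]
      [∀ l, Fintype (boxG d l).edgeSet] (p ε : ℝ), cp ≤ p → cp ≤ 1 - p → 0 < ε → ε ≤ ε0 →
      A ≤ ε * (n : ℝ) ^ 2 →
      (∀ l : ℕ, Hyp d C c0 p l) →
      (∀ m : ℕ, 1 ≤ m → ∀ x ∈ bT d m (fun _ => false),
        Ex p (fun ω : (boxG d (8 * m)).edgeSet → Bool =>
          if ¬ Disjoint (cu (gends (boxG d (8 * m))) ω x) (bdy d (8 * m)) then (1 : ℝ) else 0) ≤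
          C / (m : ℝ) ^ 2) →
      (∀ x, ∀ k : ℕ, 1 ≤ k → Ex p (fun ω => if (k : ℝ) ≤ cz (gends (torG d n)) ω x
        then (1 : ℝ) else 0) ≤ C / Real.sqrt k) →
      (∀ x, ∀ k : ℕ, 1 ≤ k → Ex (p + ε) (fun ω => if (k : ℝ) ≤ cz (gends (torG d n)) ω x
        then (1 : ℝ) else 0) ≤ C * (1 / Real.sqrt k + ε)) →
      Ex (p + ε) (fun ω => if ∃ x x', η * ε * (n : ℝ) ^ d ≤ cz (gends (torG d n)) ω x ∧
        η * ε * (n : ℝ) ^ d ≤ cz (gends (torG d n)) ω x' ∧ x' ∉ cu (gends (torG d n)) ω x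
        then (1 : ℝ) else 0) +
      Ex (p + ε) (fun ω => if ∀ x, cz (gends (torG d n)) ω x < c * ε * (n : ℝ) ^ d
        then (1 : ℝ) else 0) ≤ η := by
  have hC0 : 0 < C := by linarith
  have hdR : (9 : ℝ) ≤ d := by exact_mod_cast hd
  set D1 : ℝ := d * 2 ^ d with hD1
  have hD1p : 0 < D1 := by positivity
  set γ : ℝ := η ^ 2 / (192 * C * (1 + 8 * C * d / cp)) with hγ
  have hγ0 : 0 < γ := by positivity
  set ρs : ℝ := (η ^ 2 * γ / (128 * C)) ^ 2 with hρs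
  have hρs0 : 0 < ρs := by positivity
  set R0 : ℕ := ⌈64 * C * d / η ^ 2⌉₊ + 4 with hR0
  have hR0r : 64 * C * d / η ^ 2 + 4 ≤ (R0 : ℝ) := by
    rw [hR0]; push_cast
    have := Nat.le_ceil (64 * C * d / η ^ 2)
    linarith
  have hR01 : 1 ≤ R0 := by omega
  obtain ⟨ρ0, hρ0, q1, q2, q3, q4⟩ := rho_ex d R0 ρs η hρs0 hη
  obtain ⟨a', b0, ha', hb0, hbox⟩ := box_good d hd C c0 cp hC0 hc0 hcp hcp1
  obtain ⟨K0, m1, hK0, hm1, hbox2⟩ := hbox ρ0 hρ0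
  have hsa' : 0 < Real.sqrt a' := Real.sqrt_pos.2 ha'
  set K : ℝ := 8 * K0 + 128 * C / η ^ 2 + γ / Real.sqrt a' + 1 with hK
  have hKp : 0 < K := by positivity
  have hK1 : 8 * K0 ≤ K := by
    have : 0 < 128 * C / η ^ 2 := by positivity
    have : 0 < γ / Real.sqrt a' := by positivity
    linarith
  have hK2 : 128 * C / η ^ 2 ≤ K := by
    have : 0 < γ / Real.sqrt a' := by positivity
    linarith
  have hK3 : γ / Real.sqrt a' ≤ K := by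
    have : 0 < 128 * C / η ^ 2 := by positivity
    linarith
  set a : ℝ := (γ / K) ^ 2 with ha
  have hap : 0 < a := by positivity
  have haa : a ≤ a' := by
    have h1 : γ / K ≤ Real.sqrt a' := by
      rw [div_le_iff₀ hKp]
      rw [div_le_iff₀ hsa'] at hK3
      linarith
    have h2 : (γ / K) ^ 2 ≤ Real.sqrt a' ^ 2 := pow_le_pow_left₀ (by positivity) h1 2
    rwa [Real.sq_sqrt ha'.le] at h2
  set β : ℝ := min (3 * b0) (η * K / 16) with hβ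
  have hβp : 0 < β := lt_min (by positivity) (by positivity)
  have hβ1 : β ≤ 3 * b0 := min_le_left _ _
  have hβ2 : β ≤ η * K / 16 := min_le_right _ _
  obtain ⟨a2, c3, m2, ha2, ha2a, hc3, hm2, hE2⟩ := box_E2 d hd C c0 cp a β (ρs / 2) hC0 hc0 hcp hcp1
    hap hβp (by positivity)
  obtain ⟨m3, hm3, hspr⟩ := spr_small d (by omega) K c3 (η ^ 2 / (16 * C)) hKp hc3 (by positivity)
  obtain ⟨m4, hm4⟩ := m_ex d (by omega) a C D1 hap hC0
  set Q : ℝ := R0 + 36 + 576 * C * d / η ^ 2 with hQ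
  have hQ1 : 1 ≤ Q := by
    have : (0 : ℝ) ≤ R0 := Nat.cast_nonneg _
    have : 0 < 576 * C * d / η ^ 2 := by positivity
    linarith
  obtain ⟨A, ε00, hA, hε00, hsc⟩ := scale_ex d (by omega) K Q η (m1 + m2 + m3 + m4 + 1) hKp hQ1 hη
    (by omega)
  refine ⟨A, 3 * b0 / (2 * 2 ^ d * K), min ε00 (min (cp / 2) 1), hA, by positivity,
    lt_min hε00 (lt_min (by positivity) one_pos), ?_⟩
  intro n _ _ _ p ε hp hp1 hε hεle hAn hH harm hT hT'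
  have he1 : ε ≤ ε00 := hεle.trans (min_le_left _ _)
  have he2 : ε ≤ cp / 2 := hεle.trans ((min_le_right _ _).trans (min_le_left _ _))
  have he3 : ε ≤ 1 := hεle.trans ((min_le_right _ _).trans (min_le_right _ _))
  obtain ⟨ht, m, hmm, hmK1, hmK2, hQm⟩ := hsc ε n hε he1 hAn
  have hm1' : m1 ≤ m := by omega
  have hm2' : m2 ≤ m := by omega
  have hm3' : m3 ≤ m := by omega
  have hm4' : m4 ≤ m := by omega
  have hm : 1 ≤ m := by omega
  have hmR : (1 : ℝ) ≤ m := by exact_mod_cast hm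
  have hmp : (0 : ℝ) < m := by linarith
  have hn1 : 1 ≤ n := Nat.one_le_iff_ne_zero.2 (NeZero.ne n)
  have hnR : (1 : ℝ) ≤ n := by exact_mod_cast hn1
  have hnd : (0 : ℝ) < (n : ℝ) ^ d := by positivity
  -- the numbers of boxes
  have hQm36 : ((R0 : ℝ) + 36) * m ≤ n := by
    have h1 : ((R0 : ℝ) + 36) ≤ Q := by
      have : 0 < 576 * C * d / η ^ 2 := by positivity
      linarith
    calc ((R0 : ℝ) + 36) * m ≤ Q * m := mul_le_mul_of_nonneg_right h1 hmp.le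
      _ ≤ n := hQm
  have hN36 : (R0 + 36) * m ≤ n := by exact_mod_cast hQm36
  have hdiv : R0 + 36 ≤ n / m := (Nat.le_div_iff_mul_le (by omega)).2 hN36
  set X : ℕ := n / m - 8 with hX
  have hX8 : X + 8 = n / m := by omega
  have hXR : R0 ≤ X := by omega
  obtain ⟨k, R, r1, r2, r3, r4⟩ := top_choice R0 X hR01 hXR
  set L : ℝ := (R : ℝ) * 40 ^ k with hL
  have hLX : L ≤ X := by
    rw [hL]
    have : ((R * 40 ^ k : ℕ) : ℝ) ≤ (X : ℝ) := by exact_mod_cast r3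
    push_cast at this
    exact this
  have hLp : 0 ≤ L := by positivity
  have h9 : 9 * m ≤ n := le_trans (Nat.mul_le_mul_right m (by omega)) hN36
  have hslab := slab_small (d := d) hm h9 hX8 R0 hR01 r4 hLX
  have hmn : m * (n / m) ≤ n := Nat.mul_div_le n m
  have hmL : m * (R * 40 ^ k) + 7 * m ≤ n := by
    have h1 : m * (R * 40 ^ k) ≤ m * X := Nat.mul_le_mul_left m r3
    have h2 : m * (X + 8) = m * X + 8 * m := by ring
    rw [← hX8, h2] at hmn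
    omega
  have hmLr : (m : ℝ) * L ≤ n := by
    have h1 : m * (R * 40 ^ k) ≤ n := by omega
    have h2 : ((m * (R * 40 ^ k) : ℕ) : ℝ) ≤ (n : ℝ) := by exact_mod_cast h1
    push_cast at h2
    exact h2
  have h8n : 8 * m < n := by omega
  -- the slab
  have hσ : (d : ℝ) * (9 * m / n + 1 / R0) ≤ η ^ 2 / (32 * C) := by
    refine num_sigma (d : ℝ) (Nat.cast_nonneg _) hC0 hη hmp (by linarith) hR0r (Q := Q) ?_ hQm
    have : (0 : ℝ) ≤ R0 := Nat.cast_nonneg _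
    linarith
  have hσ0 : 0 ≤ (d : ℝ) * (9 * m / n + 1 / R0) := by positivity
  -- the sprinklings
  have h0p : 0 ≤ p := hcp.le.trans hp
  have hp1' : p ≤ 1 := by linarith
  obtain ⟨s1, z1, z2, z3, z4⟩ := spr3 (p0 := p) h0p hε (by linarith)
  have hs10 : 0 ≤ s1 := by linarith
  have hs20 : 0 ≤ ε / 4 := by linarith
  have hs21 : ε / 4 ≤ 1 := by linarith
  obtain ⟨hKm1, hgood0⟩ := hbox2 m hm1' p hp hp1 (hH m) (hH (8 * m))
  have hKs : K0 / (m : ℝ) ^ 2 ≤ s1 := by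
    refine le_trans ?_ z1
    rw [div_le_iff₀ (by positivity)]
    linarith
  have hgood := (good_anti (ends := gends (boxG d (8 * m))) h0p hp1' (by positivity) hKs z2 Set.univ
    (bT d m) (a' * (m : ℝ) ^ 4) (b0 * (m : ℝ) ^ (d - 2))).trans hgood0
  obtain ⟨kk, κ, j, w1, w2, w3, hE2'⟩ := hE2 m hm2' p hp hp1 (hH (8 * m)).1 (hH (8 * m)).2.1
    (hH (8 * m)).2.2
  obtain ⟨j1, hj1⟩ := hspr m hm3' ε hε he3 hmK2 kk κ j w1 w2 w3
  obtain ⟨hA2, hXX⟩ := hm4 m hm4' hm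
  have hRr : (R : ℝ) ≤ 40 * R0 := by
    have : ((R : ℕ) : ℝ) ≤ ((40 * R0 : ℕ) : ℝ) := by exact_mod_cast r2.le
    push_cast at this
    exact this
  have hRρ : (R : ℝ) ^ d * ρ0 ≤ η / 16 :=
    (mul_le_mul_of_nonneg_right (pow_le_pow_left₀ (Nat.cast_nonneg _) hRr d) hρ0.le).trans q3
  have ht1 : 1 ≤ η * ε * (n : ℝ) ^ d := by
    have h1 : η * ε ^ 3 * (n : ℝ) ^ d = ε ^ 2 * (η * ε * (n : ℝ) ^ d) := by ring
    rw [h1] at ht
    have h2 : ε ^ 2 ≤ 1 := pow_le_one₀ hε.le he3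
    have h3 : 0 ≤ η * ε * (n : ℝ) ^ d := by positivity
    have h4 := mul_le_mul_of_nonneg_right h2 h3
    linarith
  have hR1 : 1 ≤ R := by omega
  have hβL : β * (m : ℝ) ^ (d - 2) * L ^ d < η * ε * (n : ℝ) ^ d / 2 :=
    num_beta (by omega) hη hε (by linarith) hmp hLp hβp hβ2 hmLr hmK2
  have hs : 1 - (1 - s1) * (1 - ε / 4) * (1 - ε / 4) ≤ ε / cp := by
    rw [z4]
    exact div_le_div_of_nonneg_left hε.le hcp hp1
  have hs0 : 0 ≤ 1 - (1 - s1) * (1 - ε / 4) * (1 - ε / 4) := by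
    rw [z4]
    exact div_nonneg hε.le (by linarith)
  have hT2 : ∀ x, ∀ k : ℕ, 1 ≤ k → Ex (1 - (1 - p) * (1 - s1) * (1 - ε / 4) * (1 - ε / 4)) (fun ω =>
      if (k : ℝ) ≤ cz (gends (torG d n)) ω x then (1 : ℝ) else 0) ≤ C * (1 / Real.sqrt k + ε) := by
    rw [z3]
    exact hT'
  have hnum := tor_num (d := d) (m := m) (n := n) (k := k) (R := R) (by omega) hm hR1 hmL h8n (p := p)
    (s1 := s1) (s2 := ε / 4) (s3 := ε / 4) (ρ0 := ρ0) (ρ2 := ρs / 2) (A2 := a * (m : ℝ) ^ 4)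
    (A2' := a' * (m : ℝ) ^ 4) (b := b0 * (m : ℝ) ^ (d - 2)) (k2 := a2 * (m : ℝ) ^ 4)
    (β := β * (m : ℝ) ^ (d - 2)) (t := η * ε * (n : ℝ) ^ d) (C := C) (e := ε)
    (X := C * D1 * ((8 * m : ℕ) : ℝ) ^ 2) (δ1 := C / (m : ℝ) ^ 2) (kk := kk) (κ := κ) (j := j) (j1 := j1)
    h0p hp1' hs10 z2 hs20 hs21 hs20 hs21 (by positivity) hρ0.le (by positivity) q2 hC0.le hε.le ht1 hA2
    (mul_le_mul_of_nonneg_right haa (by positivity)) (by positivity)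
    (mul_le_mul_of_nonneg_right ha2a (by positivity)) (by positivity)
    (by
      have := mul_le_mul_of_nonneg_right hβ1 (by positivity : (0 : ℝ) ≤ (m : ℝ) ^ (d - 2))
      linarith) hgood hE2'
    (fun x => hyp_X (by omega : 2 ≤ d) hC0.le (hH (8 * m)).1 x)
    (fun x _ => tail_real hC0.le hA2 x (fun k hk => (hH (8 * m)).2.1 x k hk))
    (fun x hx => harm m hm x hx) hT hT2 hβL
  have hbig := tor_big (d := d) (m := m) (n := n) (k := k) (R := R) (by omega) hm hR1 hmL h8n (p := p)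
    (s1 := s1) (s2 := ε / 4) (s3 := ε / 4) (ρ0 := ρ0)
    (A2' := a' * (m : ℝ) ^ 4) (b := b0 * (m : ℝ) ^ (d - 2))
    h0p hp1' hs10 z2 hs20 hs21 hs20 hs21 (by positivity) hρ0.le q2 hgood
  rw [z3] at hnum hbig
  -- the four terms
  have hS1 := S1_le (d := d) (n := n) (η := η) (ε := ε) (C := C)
    (σ := (d : ℝ) * (9 * m / n + 1 / R0)) (S := (n : ℝ) ^ d - ((m : ℝ) * L) ^ d) hη hε hn1 hC0.le ht
    hslab hσ0
  have hS2 := S2_le (d := d) (n := n) (m := m) (η := η) (ε := ε) (C := C) (K := K) (γ := γ) (cp := cp)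
    (L := L) (s := 1 - (1 - s1) * (1 - ε / 4) * (1 - ε / 4)) hη hε hn1 hm hC0.le hKp hγ0.le hcp ht hmK1
    hmK2 hLp hmLr hs0 hs
  have hS3 := S3_le (d := d) (n := n) (m := m) (η := η) (ε := ε) (C := C) (K := K) (γ := γ)
    (L := L) (X := C * D1 * ((8 * m : ℕ) : ℝ) ^ 2) (ρ' := 4 * 20 ^ d * ρ0 + ρs / 2) hη hε hn1 hm hC0.le
    hKp hγ0 hmK2 hLp hmLr hXX
  have hP0 : 0 ≤ (1 - ε / 4) ^ (min (kk + 1) (j1 * κ)) +
        2 ^ j1 * (1 - (1 - (1 - ε / 4) ^ κ) / 2) ^ (2 * j) := by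
    have h1 : 0 ≤ 1 - ε / 4 := by linarith
    have h2 : (1 - ε / 4) ^ κ ≤ 1 := pow_le_one₀ h1 (by linarith)
    have h3 : 0 ≤ (1 - ε / 4) ^ κ := pow_nonneg h1 _
    have h4 : 0 ≤ 1 - (1 - (1 - ε / 4) ^ κ) / 2 := by linarith
    positivity
  have hS4 := S4_le (d := d) (n := n) (η := η) (ε := ε) (C := C) hη hε hn1 hC0.le hP0 ht
  have b1 := hS1.trans (num_b1 hC0 hη hσ)
  have b2 := hS2.trans (num_b2 (d := (d : ℝ)) hC0 hη hKp (Nat.cast_nonneg _) hcp hγ hK2)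
  have b3 := hS3.trans (num_b3 hC0 hη hγ0 hρs (by linarith))
  have b4 := hS4.trans (num_b4 hC0 hη hj1)
  -- the largest cluster
  have hbig2 : Ex (p + ε) (fun ω => if ∀ x, cz (gends (torG d n)) ω x <
      3 * b0 / (2 * 2 ^ d * K) * ε * (n : ℝ) ^ d then (1 : ℝ) else 0) ≤
      (R : ℝ) ^ d * ρ0 + 8 * 20 ^ d * ρ0 := by
    refine le_trans ?_ hbig
    refine Ex_mono (by linarith) (by linarith) fun ω => ?_
    have hlow : 3 * b0 / (2 * 2 ^ d * K) * ε * (n : ℝ) ^ d ≤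
        3 * (b0 * (m : ℝ) ^ (d - 2)) * L ^ d / 2 := by
      have hR04 : (4 : ℝ) ≤ R0 := by
        have : 0 < 64 * C * d / η ^ 2 := by positivity
        linarith
      have f1 : (n : ℝ) - 9 * m ≤ (m : ℝ) * (X : ℝ) := by
        have g1 : n < m * (n / m + 1) := Nat.lt_mul_div_succ n (by omega)
        have g2 : (n : ℝ) < (m : ℝ) * ((n / m : ℕ) + 1) := by exact_mod_cast g1
        rw [← hX8] at g2
        push_cast at g2
        linarith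
      have f3 : 36 * (m : ℝ) ≤ n := by
        have h1 : 36 * m ≤ n := le_trans (Nat.mul_le_mul_right m (by omega)) hN36
        exact_mod_cast h1
      exact num_low (by omega) hb0 hKp hε (by linarith) hmp hLp
        (num_half hmp (Nat.cast_nonneg _) f1 f3 hR04 r4) hmK1
    by_cases h : ∀ x, cz (gends (torG d n)) ω x < 3 * b0 / (2 * 2 ^ d * K) * ε * (n : ℝ) ^ d
    · rw [if_pos h, if_pos (fun x => (h x).trans_le hlow)]
    · rw [if_neg h]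
      split_ifs <;> norm_num
  have hsplit : ∀ u1 u2 u3 v : ℝ, (u1 + u2 + u3) / v = u1 / v + u2 / v + u3 / v := by
    intro u1 u2 u3 v; rw [add_div, add_div]
  rw [hsplit] at hnum
  exact (add_le_add hnum hbig2).trans (num_sum hη hRρ b1 b2 b3 b4 q4)

end Pool.Agent.PERC29.AE
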