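import Pool.Agent.Lib.MP_29e17e_pr.Y.Mf
import Pool.Agent.Lib.MP_29e17e_pr.Y.As

set_option autoImplicit false
set_option linter.unusedSectionVars false

/-! Rows 29z-T1, 29z-T2: families of clusters on the torus (page 29z_helper62.md, Section 2). -/

open Finset

namespace Pool.Agent.PERC29.AE

open scoped Classical in
/-- Row T1. Pigeonhole: one of the `8^d` residue classes of the sites modulo `8` contains at least `2 B` sites of `𝒵'`; two different sites of one class differ by at least `8` in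
some coordinate, so their boxes are disjoint (`tor_far`, with the roles exchanged if necessary; `m * z i + 8 * m ≤ n` for `z i < L`, `m * L + 7 * m ≤ n`). -/
lemma sep_tor {d m n L : ℕ} [NeZero n] (hm : 1 ≤ m) (hL : m * L + 7 * m ≤ n)
    (φ : (Fin d → ℕ) → (boxG d (8 * m) ↪g torG d n))
    (hφ : ∀ z, (∀ i, z i < L) → ∀ x i, φ z x i = ((m * z i + (x i : ℕ) : ℕ) : ZMod n)) (B : ℕ)
    (𝒵' : Finset (Fin d → ℕ)) (h𝒵 : 𝒵' ⊆ sts d L) (hc : 8 ^ d * (2 * B) ≤ 𝒵'.card) :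
    ∃ 𝒵0 ⊆ 𝒵', 2 * B ≤ 𝒵0.card ∧ Sep (fun z x => φ z x) 𝒵0 := by
  have hlt : ∀ z ∈ 𝒵', ∀ i, z i < L := by
    intro z hz i
    have h := h𝒵 hz
    unfold sts at h
    exact Finset.mem_range.1 (Fintype.mem_piFinset.1 h i)
  have hn : ∀ z ∈ 𝒵', ∀ i, m * z i + 8 * m ≤ n := by
    intro z hz i
    have h1 : m * (z i + 1) ≤ m * L := Nat.mul_le_mul_left m (hlt z hz i)
    nlinarith
  obtain ⟨y, -, hy⟩ := Finset.exists_le_card_fiber_of_mul_le_card_of_maps_to (s := 𝒵')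
    (t := (Finset.univ : Finset (Fin d → Fin 8))) (n := 2 * B)
    (f := fun z i => (⟨z i % 8, Nat.mod_lt _ (by norm_num)⟩ : Fin 8))
    (fun _ _ => Finset.mem_univ _) ⟨fun _ => 0, Finset.mem_univ _⟩ (by simpa using hc)
  refine ⟨_, Finset.filter_subset _ _, hy, ?_⟩
  intro z hz z' hz' hne v v' heq
  rw [Finset.mem_filter] at hz hz'
  have hmod : ∀ i, z i % 8 = z' i % 8 := by
    intro i
    have h1 := congrFun (hz.2.trans hz'.2.symm) i
    exact congrArg Fin.val h1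
  obtain ⟨i, hi⟩ := Function.ne_iff.1 hne
  have hi8 : z i + 8 ≤ z' i ∨ z' i + 8 ≤ z i := by
    have := hmod i
    omega
  rcases hi8 with h8 | h8
  · have hd := tor_far z z' (hn z hz.1) (hn z' hz'.1) (φ z) (φ z') (hφ z (hlt z hz.1))
      (hφ z' (hlt z' hz'.1)) ⟨i, h8⟩
    exact Set.disjoint_left.1 hd ⟨v, rfl⟩ ⟨v', heq.symm⟩
  · have hd := tor_far z' z (hn z' hz'.1) (hn z hz.1) (φ z') (φ z) (hφ z' (hlt z' hz'.1))
      (hφ z (hlt z hz.1)) ⟨i, h8⟩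
    exact Set.disjoint_left.1 hd ⟨v', rfl⟩ ⟨v, heq⟩

private lemma T2_phi {d m n L : ℕ} [NeZero n] (hL : m * L + 7 * m ≤ n) (hn : 8 * m < n) :
    ∃ φ : (Fin d → ℕ) → (boxG d (8 * m) ↪g torG d n),
      ∀ z, (∀ i, z i < L) → ∀ x i, φ z x i = ((m * z i + (x i : ℕ) : ℕ) : ZMod n) := by
  have h : ∀ z : Fin d → ℕ, ∃ φ : boxG d (8 * m) ↪g torG d n,
      (∀ i, z i < L) → ∀ x i, φ x i = ((m * z i + (x i : ℕ) : ℕ) : ZMod n) := by
    intro z
    by_cases hz : ∀ i, z i < L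
    · have hz' : ∀ i, (fun i => m * z i) i + 8 * m ≤ n := by
        intro i
        have h1 : m * (z i + 1) ≤ m * L := Nat.mul_le_mul_left m (hz i)
        show m * z i + 8 * m ≤ n
        nlinarith
      obtain ⟨φ, hφ⟩ := box_tor (d := d) (l := 8 * m) (n := n) (fun i => m * z i) hz' hn
      exact ⟨φ, fun _ => hφ⟩
    · obtain ⟨φ, hφ⟩ := box_tor (d := d) (l := 8 * m) (n := n) (fun _ => 0)
        (fun i => by omega) hn
      exact ⟨φ, fun h => absurd h hz⟩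
  choose φ hφ using h
  exact ⟨φ, hφ⟩

private lemma T2_card (d L : ℕ) : ((sts d L).card : ℝ) = (L : ℝ) ^ d := by
  unfold sts
  rw [Fintype.card_piFinset_const, Finset.card_range]
  push_cast
  rfl

private lemma T2_mem {d L : ℕ} {z : Fin d → ℕ} (hz : z ∈ sts d L) : ∀ i, z i < L := by
  unfold sts at hz
  intro i
  exact Finset.mem_range.1 (Fintype.mem_piFinset.1 hz i)

section T2

variable {E : Type*} [Fintype E] [DecidableEq E]

open scoped Classical in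
private lemma T2_or {p s : ℝ} (h0 : 0 ≤ p) (h1 : p ≤ 1) (g0 : 0 ≤ s) (g1 : s ≤ 1)
    (A B : (E → Bool) → (E → Bool) → Prop) :
    P2 p s (fun ω η => A ω η ∨ B ω η) ≤ P2 p s A + P2 p s B := by
  unfold P2
  rw [← Ex_add]
  refine Ex_mono h0 h1 fun ω => ?_
  rw [← Ex_add]
  refine Ex_mono g0 g1 fun η => ?_
  by_cases hA : A ω η
  · by_cases hB : B ω η <;> simp [hA, hB]
  · by_cases hB : B ω η <;> simp [hA, hB]

open scoped Classical in
private lemma T2_fst {p s : ℝ} (A : (E → Bool) → Prop) :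
    P2 p s (fun ω (_ : E → Bool) => A ω) = Ex p (fun ω => if A ω then (1 : ℝ) else 0) := by
  unfold P2
  exact Ex_congr fun ω => Ex_const _ _

private lemma T2_orc3 (p s1 s2 s3 : ℝ) (f : (E → Bool) → ℝ) :
    Ex (1 - (1 - p) * (1 - s1) * (1 - s2) * (1 - s3)) f =
      Ex p (fun ω => Ex s1 (fun η1 => Ex s2 (fun η2 => Ex s3 (fun η3 =>
        f (orc (orc (orc ω η1) η2) η3))))) := by
  have e3 : 1 - (1 - p) * (1 - s1) * (1 - s2) * (1 - s3) =
      1 - (1 - (1 - (1 - (1 - (1 - p) * (1 - s1))) * (1 - s2))) * (1 - s3) := by ring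
  rw [e3, Ex_orc, Ex_orc, Ex_orc]

private lemma T2_mono {p s1 s2 s3 : ℝ} (h0 : 0 ≤ p) (h1 : p ≤ 1) (h10 : 0 ≤ s1) (h11 : s1 ≤ 1)
    (h20 : 0 ≤ s2) (h21 : s2 ≤ 1) (h30 : 0 ≤ s3) (h31 : s3 ≤ 1)
    (f a b c : (E → Bool) → (E → Bool) → (E → Bool) → (E → Bool) → ℝ)
    (h : ∀ ω η1 η2 η3, f ω η1 η2 η3 ≤ a ω η1 η2 η3 + (b ω η1 η2 η3 + c ω η1 η2 η3)) :
    Ex p (fun ω => Ex s1 (fun η1 => Ex s2 (fun η2 => Ex s3 (fun η3 => f ω η1 η2 η3)))) ≤
      Ex p (fun ω => Ex s1 (fun η1 => Ex s2 (fun η2 => Ex s3 (fun η3 => a ω η1 η2 η3)))) +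
      (Ex p (fun ω => Ex s1 (fun η1 => Ex s2 (fun η2 => Ex s3 (fun η3 => b ω η1 η2 η3)))) +
      Ex p (fun ω => Ex s1 (fun η1 => Ex s2 (fun η2 => Ex s3 (fun η3 => c ω η1 η2 η3))))) := by
  rw [← Ex_add, ← Ex_add]
  refine Ex_mono h0 h1 fun ω => ?_
  rw [← Ex_add, ← Ex_add]
  refine Ex_mono h10 h11 fun η1 => ?_
  rw [← Ex_add, ← Ex_add]
  refine Ex_mono h20 h21 fun η2 => ?_
  rw [← Ex_add, ← Ex_add]
  exact Ex_mono h30 h31 fun η3 => h ω η1 η2 η3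

open scoped Classical in
private lemma T2_G {p s1 s2 s3 : ℝ} (G : (E → Bool) → (E → Bool) → Prop) :
    Ex p (fun ω => Ex s1 (fun η1 => Ex s2 (fun (_ : E → Bool) => Ex s3 (fun (_ : E → Bool) =>
      if ¬ G ω η1 then (1 : ℝ) else 0)))) = P2 p s1 (fun ω η => ¬ G ω η) := by
  unfold P2
  refine Ex_congr fun ω => Ex_congr fun η1 => ?_
  rw [Ex_const, Ex_const]
  by_cases h : G ω η1 <;> simp [h]

variable {V : Type*} [Fintype V] [DecidableEq V] {ends : E → Sym2 V}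

open scoped Classical in
private lemma T2_ceil {P C e t : ℝ} (hC : 0 ≤ C) (ht : 1 ≤ t)
    (hT' : ∀ x, ∀ k : ℕ, 1 ≤ k → Ex P (fun ω =>
      if (k : ℝ) ≤ cz ends ω x then (1 : ℝ) else 0) ≤ C * (1 / Real.sqrt k + e)) (x : V) :
    Ex P (fun ω => if t ≤ cz ends ω x then (1 : ℝ) else 0) ≤ C * (1 / Real.sqrt t + e) := by
  have hk1 : 1 ≤ ⌈t⌉₊ := Nat.one_le_ceil_iff.2 (by linarith)
  have hle : t ≤ (⌈t⌉₊ : ℝ) := Nat.le_ceil t
  refine le_trans (le_of_eq (Ex_congr fun ω => ?_)) (le_trans (hT' x ⌈t⌉₊ hk1) ?_)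
  · have : t ≤ cz ends ω x ↔ ((⌈t⌉₊ : ℕ) : ℝ) ≤ cz ends ω x := by
      unfold cz
      rw [Nat.cast_le, Nat.ceil_le]
    exact if_congr this rfl rfl
  · have h2 : 0 < Real.sqrt t := Real.sqrt_pos.2 (by linarith)
    have h3 : Real.sqrt t ≤ Real.sqrt (⌈t⌉₊ : ℝ) := Real.sqrt_le_sqrt hle
    have h4 : 1 / Real.sqrt (⌈t⌉₊ : ℝ) ≤ 1 / Real.sqrt t := one_div_le_one_div_of_le h2 h3
    exact mul_le_mul_of_nonneg_left (by linarith) hC

open scoped Classical in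
/-- The splitting of the event. -/
private lemma T2_pt {t h : ℝ} (β' : E → Bool) (y0 : V) (G : Prop) (S : Finset V → Prop) :
    (if ∀ y, t ≤ ((Fm ends β' h y).card : ℝ) then (1 : ℝ) else 0) ≤
      (if ¬ G then (1 : ℝ) else 0) +
      ((if G ∧ t ≤ ((Fm ends β' h y0).card : ℝ) ∧ ¬ S (Fm ends β' h y0) then (1 : ℝ) else 0) +
      (if S (Fm ends β' h y0) then (1 : ℝ) else 0)) := by
  have n1 : (0 : ℝ) ≤ (if ¬ G then (1 : ℝ) else 0) := by split_ifs <;> norm_num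
  have n2 : (0 : ℝ) ≤ (if G ∧ t ≤ ((Fm ends β' h y0).card : ℝ) ∧ ¬ S (Fm ends β' h y0)
      then (1 : ℝ) else 0) := by
    split_ifs <;> norm_num
  have n3 : (0 : ℝ) ≤ (if S (Fm ends β' h y0) then (1 : ℝ) else 0) := by
    split_ifs <;> norm_num
  by_cases hE : ∀ y, t ≤ ((Fm ends β' h y).card : ℝ)
  · rw [if_pos hE]
    by_cases hS : S (Fm ends β' h y0)
    · have : (if S (Fm ends β' h y0) then (1 : ℝ) else 0) = 1 := if_pos hS
      linarith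
    · by_cases hG : G
      · have : (if G ∧ t ≤ ((Fm ends β' h y0).card : ℝ) ∧ ¬ S (Fm ends β' h y0)
          then (1 : ℝ) else 0) = 1 := if_pos ⟨hG, hE y0, hS⟩
        linarith
      · have : (if ¬ G then (1 : ℝ) else 0) = 1 := if_pos hG
        linarith
  · rw [if_neg hE]
    linarith

end T2

open scoped Classical in
/-- Row T2. As `tor_num` (finished file 29w_A4.lean): `tor_hier` with `s = s1`; `mass_fam` with `N8 = 8^d * (2 * B)` (`sep_tor`), the threshold `h` instead of `t` in `small_box` and in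
the tails, `hY2` from `vt_sq` (law of `pul (φ z) ω`); `uniq_fam` with `f = C (1/√h + e)`. If `t ≤ |Fm β h y|` for all `y` then for `y = y0 ω η1`, and either `G` fails, or the
event of `mass_fam` or the event of `uniq_fam` holds. -/
theorem tor_fam {d m n k R : ℕ} [NeZero n] [Fintype (boxG d (8 * m)).edgeSet]
    [Fintype (torG d n).edgeSet] (hd : 2 ≤ d) (hm : 1 ≤ m) (hR : 1 ≤ R) (hL : m * (R * 40 ^ k) + 7 * m ≤ n)
    (hn : 8 * m < n) {p s1 s2 s3 ρ0 ρ2 A2 A2' b k2 β t h C e X δ1 : ℝ} {kk κ j j1 B : ℕ}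
    (h0 : 0 ≤ p) (h1 : p ≤ 1) (h10 : 0 ≤ s1) (h11 : s1 ≤ 1) (h20 : 0 ≤ s2) (h21 : s2 ≤ 1)
    (h30 : 0 ≤ s3) (h31 : s3 ≤ 1) (hb : 0 < b) (hρ0 : 0 ≤ ρ0) (hρ2 : 0 ≤ ρ2)
    (hρ : 2 * (40 : ℝ) ^ (2 * d) * ρ0 ≤ 1) (hC : 0 ≤ C) (he : 0 ≤ e) (ht : 0 < t) (hh : 1 ≤ h) (hA2 : 1 ≤ A2)
    (hAA : A2 ≤ A2') (hk2 : 0 < k2) (hkA : k2 ≤ A2) (hβ0 : 0 ≤ β) (hβb : β ≤ 3 * b)
    (hgood : P2 p s1 (fun ω η => ¬ GoodB (gends (boxG d (8 * m))) ω η Set.univ (bT d m) A2' b) ≤ ρ0)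
    (hE2 : Ex p (fun ω => if BadE2 (gends (boxG d (8 * m))) ω (cor d m) k2 A2 β kk κ j
      then (1 : ℝ) else 0) ≤ ρ2)
    (hX : ∀ x, Ex p (fun ω => cz (gends (boxG d (8 * m))) ω x) ≤ X)
    (hTb : ∀ x ∈ bT d m (fun _ => false),
      Ex p (fun ω => if A2 ≤ cz (gends (boxG d (8 * m))) ω x then (1 : ℝ) else 0) ≤ C / Real.sqrt A2)
    (hbd : ∀ x ∈ bT d m (fun _ => false), Ex p (fun ω : (boxG d (8 * m)).edgeSet → Bool =>
      if ¬ Disjoint (cu (gends (boxG d (8 * m))) ω x) (bdy d (8 * m)) then (1 : ℝ) else 0) ≤ δ1)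
    (hT : ∀ x, ∀ k : ℕ, 1 ≤ k → Ex p (fun ω => if (k : ℝ) ≤ cz (gends (torG d n)) ω x then (1 : ℝ)
      else 0) ≤ C / Real.sqrt k)
    (hT' : ∀ x, ∀ k : ℕ, 1 ≤ k → Ex (1 - (1 - p) * (1 - s1) * (1 - s2) * (1 - s3)) (fun ω =>
      if (k : ℝ) ≤ cz (gends (torG d n)) ω x then (1 : ℝ) else 0) ≤ C * (1 / Real.sqrt k + e))
    (hβ2 : β * ((R : ℝ) * 40 ^ k) ^ d < t / 2) :
    Ex (1 - (1 - p) * (1 - s1) * (1 - s2) * (1 - s3)) (fun ω =>
      if ∀ y, t ≤ ((Fm (gends (torG d n)) ω h y).card : ℝ) then (1 : ℝ) else 0) ≤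
      R ^ d * ρ0 +
      (((n : ℝ) ^ d - ((m : ℝ) * (R * 40 ^ k)) ^ d) * (C * (1 / Real.sqrt h + e)) +
        ((R : ℝ) * 40 ^ k) ^ d * (m : ℝ) ^ d * (δ1 + 2 * (1 / h + (1 - (1 - s1) * (1 - s2) * (1 - s3)) *
          (2 * d) * (3 * C * Real.sqrt h + C * e * h) / h) * (3 * C * Real.sqrt A2)) +
        ((R : ℝ) * 40 ^ k) ^ d * (Real.sqrt (((m : ℝ) ^ d * (C / Real.sqrt A2)) ^ 2 + (m : ℝ) ^ d * X) *
          Real.sqrt (4 * 20 ^ d * ρ0 + ρ2)) +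
        Real.sqrt (((8 ^ d * (2 * B) : ℕ) : ℝ) * (((R : ℝ) * 40 ^ k) ^ d *
          (((m : ℝ) ^ d * (C / Real.sqrt A2)) ^ 2 + (m : ℝ) ^ d * X)))) / (t / 2) +
      (n : ℝ) ^ d * (((1 - s3) ^ (min (B * (kk + 1)) (j1 * κ)) +
        2 ^ j1 * (1 - (1 - (1 - s2) ^ κ) / 2) ^ (2 * (B * j))) *
          (1 + C * (1 / Real.sqrt h + e) / h) ^ (n ^ d)) := by
  obtain ⟨φ, hφ⟩ := T2_phi (d := d) (m := m) (n := n) (L := R * 40 ^ k) hL hn
  obtain ⟨y0, core, G, hG, hcore, hGc, -⟩ := tor_hier hd hm hR hL hn φ hφ h0 h1 h10 h11 hb hρ0 hρ hgood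
  have hA20 : 0 < A2 := by linarith
  have hcast : ((R * 40 ^ k : ℕ) : ℝ) = (R : ℝ) * 40 ^ k := by push_cast; rfl
  have hem : ∀ z ∈ sts d (R * 40 ^ k), Emb (gends (torG d n)) (gends (boxG d (8 * m))) (φ z)
      (fun e => (φ z).mapEdgeSet e) := fun z _ => emb_of (φ z)
  have hT1 : ∀ x, Ex (1 - (1 - p) * (1 - s1) * (1 - s2) * (1 - s3)) (fun ω =>
      if h ≤ cz (gends (torG d n)) ω x then (1 : ℝ) else 0) ≤ C * (1 / Real.sqrt h + e) :=
    fun x => T2_ceil hC hh hT' x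
  -- the set of points outside the cubes
  set Sl : Finset (Fin d → ZMod n) := (Finset.univ : Finset (Fin d → ZMod n)) \
      (Fintype.piFinset (fun _ : Fin d => Finset.range (R * 40 ^ k))).biUnion
        (fun z => (bT d m (fun _ => false)).map (φ z).toEmbedding) with hSl
  have hSlc : (Sl.card : ℝ) = (n : ℝ) ^ d - ((m : ℝ) * (R * 40 ^ k)) ^ d := by
    have := slab_card (d := d) (m := m) (n := n) (L := R * 40 ^ k) φ hL hφ
    rw [hcast] at this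
    rw [← this]
  have hcov : ∀ x, x ∉ Sl → ∃ z ∈ sts d (R * 40 ^ k), ∃ v ∈ bT d m (fun _ => false), φ z v = x := by
    intro x hx
    have h2 : x ∈ (Fintype.piFinset (fun _ : Fin d => Finset.range (R * 40 ^ k))).biUnion
        (fun z => (bT d m (fun _ => false)).map (φ z).toEmbedding) := by
      by_contra h3
      exact hx (Finset.mem_sdiff.2 ⟨Finset.mem_univ _, h3⟩)
    obtain ⟨z, hz, hxz⟩ := Finset.mem_biUnion.1 h2
    obtain ⟨v, hv, hvx⟩ := Finset.mem_map.1 hxz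
    exact ⟨z, hz, v, hv, hvx⟩
  -- the good boxes
  obtain ⟨A, hAdef⟩ : ∃ A : (Fin d → ℕ) → ((torG d n).edgeSet → Bool) → ((torG d n).edgeSet → Bool) →
      Prop, A = fun z ω η => (¬ core z ω η ∨
        BadE2 (gends (boxG d (8 * m))) (pl (fun e => (φ z).mapEdgeSet e) ω) (cor d m)
        k2 A2 β kk κ j) := ⟨_, rfl⟩
  have hgood' : ∀ ω η, G ω η → ∀ z ∈ sts d (R * 40 ^ k), ¬ A z ω η →
      ¬ BadE2 (gends (boxG d (8 * m))) (pl (fun e => (φ z).mapEdgeSet e) ω) (cor d m)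
        k2 A2 β kk κ j ∧
      β ≤ vol (gends (boxG d (8 * m))) (pl (fun e => (φ z).mapEdgeSet e) ω) (cor d m) A2
        (pre (φ z) (cu (gends (torG d n)) (orc ω η) (y0 ω η))) := by
    intro ω η hGω z hz hA
    rw [hAdef] at hA
    push Not at hA
    refine ⟨hA.2, ?_⟩
    obtain ⟨y, hy, hyc⟩ := hGc ω η hGω z hz hA.1
    have v1 := vol_good (bT d m) (cor d m) A2 A2' b hAA (fun _ => false) (bT_cor _) y hy
    have v2 := vol_emb (φ z) ω η (cor d m) A2 y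
    rw [hyc] at v2
    exact le_trans hβb (le_trans v1 v2)
  -- second term
  have hM2 : ∀ z ∈ sts d (R * 40 ^ k), ∀ v ∈ bT d m (fun _ => false),
      Ex p (fun ω => Ex s1 (fun η1 => Ex s2 (fun η2 => Ex s3 (fun η3 =>
      if cz (gends (boxG d (8 * m))) (pl (fun e => (φ z).mapEdgeSet e) ω) v < A2 ∧
        h ≤ cz (gends (torG d n)) (orc (orc (orc ω η1) η2) η3) (φ z v)
        then (1 : ℝ) else 0)))) ≤ δ1 + 2 * (1 / h + (1 - (1 - s1) * (1 - s2) * (1 - s3)) *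
          (2 * d) * (3 * C * Real.sqrt h + C * e * h) / h) * (3 * C * Real.sqrt A2) := by
    intro z hz v hv
    refine small_box h0 h1 h10 h11 h20 h21 h30 h31 hC he hh hA2 (by positivity)
      (fun x => tor_deg x) hT hT' (hem z hz) (bdy d (8 * m)) (fun e' u hu heu => ?_) v ?_
    · exact tor_loc (fun i => m * z i) hn (φ z) (hφ z (T2_mem hz)) e' u hu heu
    · exact hbd v hv
  -- second moment
  have hY2 : ∀ z ∈ sts d (R * 40 ^ k), Ex p (fun ω => vt (gends (boxG d (8 * m)))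
      (pl (fun e => (φ z).mapEdgeSet e) ω) (bT d m (fun _ => false)) A2 ^ 2) ≤
      ((m : ℝ) ^ d * (C / Real.sqrt A2)) ^ 2 + (m : ℝ) ^ d * X := by
    intro z hz
    have e1 := Ex_pul (φ z) p (fun ω => vt (gends (boxG d (8 * m))) ω
      (bT d m (fun _ => false)) A2 ^ 2)
    refine le_trans (le_of_eq e1) ?_
    have e2 := vt_sq h0 h1 hX (bT d m (fun _ => false)) hTb
    rw [bT_card] at e2
    push_cast at e2
    exact e2
  -- third term
  have hM3 : ∀ z ∈ sts d (R * 40 ^ k), Ex p (fun ω => Ex s1 (fun η =>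
      (if A z ω η then (1 : ℝ) else 0) *
      vt (gends (boxG d (8 * m))) (pl (fun e => (φ z).mapEdgeSet e) ω) (bT d m (fun _ => false)) A2)) ≤
      Real.sqrt (((m : ℝ) ^ d * (C / Real.sqrt A2)) ^ 2 + (m : ℝ) ^ d * X) *
          Real.sqrt (4 * 20 ^ d * ρ0 + ρ2) := by
    intro z hz
    refine vt_bad h0 h1 h10 h11 (fun ω => vt (gends (boxG d (8 * m)))
      (pl (fun e => (φ z).mapEdgeSet e) ω) (bT d m (fun _ => false)) A2) (fun ω => ?_) (A z) ?_ ?_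
    · unfold vt
      positivity
    · exact hY2 z hz
    · rw [hAdef]
      refine le_trans (T2_or h0 h1 h10 h11 _ _) (add_le_add (hcore z hz) ?_)
      rw [T2_fst]
      have e1 := Ex_pul (φ z) p (fun ω => if BadE2 (gends (boxG d (8 * m))) ω (cor d m) k2 A2 β kk κ j
        then (1 : ℝ) else 0)
      exact le_trans (le_of_eq e1) hE2
  have hcardS : ((sts d (R * 40 ^ k)).card : ℝ) = ((R : ℝ) * 40 ^ k) ^ d := by
    rw [T2_card, hcast]
  have hsep : ∀ 𝒵' ⊆ sts d (R * 40 ^ k), 8 ^ d * (2 * B) ≤ 𝒵'.card → ∃ 𝒵0 ⊆ 𝒵',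
      2 * B ≤ 𝒵0.card ∧ Sep (fun z x => φ z x) 𝒵0 :=
    fun 𝒵' h𝒵 hc => sep_tor hm hL φ hφ B 𝒵' h𝒵 hc
  have hmass := mass_fam h0 h1 h10 h11 h20 h21 h30 h31 (sts d (R * 40 ^ k)) (fun z x => φ z x)
    (fun z e => (φ z).mapEdgeSet e) (ends := gends (torG d n)) (endb := gends (boxG d (8 * m)))
    (k2 := k2) (kk := kk) (κ := κ) (j := j) (B := B) (N8 := 8 ^ d * (2 * B)) ht hβ0
    (cor d m) (bT d m (fun _ => false)) (bT_cor _) Sl hcov y0
    A G hgood' hsep (by rw [hcardS]; exact hβ2) hT1 hM2 hM3 hY2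
  have hf0 : 0 ≤ C * (1 / Real.sqrt h + e) := by positivity
  have huniq := uniq_fam h0 h1 h10 h11 h20 h21 h30 h31 (sts d (R * 40 ^ k)) (fun z x => φ z x)
    (fun z e => (φ z).mapEdgeSet e) (ends := gends (torG d n)) (endb := gends (boxG d (8 * m))) hem
    (k2 := k2) (A2 := A2) (β := β) (kk := kk) (κ := κ) (j := j) (j1 := j1) (B := B) hk2 hkA hh
    (cor d m) hT1 hf0 y0
  rw [hcardS, hSlc, bT_card] at hmass
  have hcV : Fintype.card (Fin d → ZMod n) = n ^ d := by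
    rw [Fintype.card_fun, ZMod.card, Fintype.card_fin]
  rw [hcV] at huniq
  have hmd : ((m ^ d : ℕ) : ℝ) = (m : ℝ) ^ d := by push_cast; rfl
  have hnd : ((n ^ d : ℕ) : ℝ) = (n : ℝ) ^ d := by push_cast; rfl
  rw [hmd] at hmass
  rw [hnd] at huniq
  rw [T2_orc3]
  refine le_trans (T2_mono h0 h1 h10 h11 h20 h21 h30 h31 _ _ _ _ (fun ω η1 η2 η3 =>
    T2_pt (orc (orc (orc ω η1) η2) η3) (y0 ω η1) (G ω η1)
      (fun K => ShM (sts d (R * 40 ^ k)) (fun z x => φ z x) (fun z e => (φ z).mapEdgeSet e)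
        (gends (boxG d (8 * m))) (cor d m) k2 A2 β kk κ j B ω
        (cu (gends (torG d n)) (orc ω η1) (y0 ω η1)) K))) ?_
  rw [T2_G]
  have hfin := add_le_add hG (add_le_add hmass huniq)
  refine le_trans hfin (le_of_eq ?_)
  ring

end Pool.Agent.PERC29.AE
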