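import Pool.Agent.Lib.MP_29e17e_pr.Y.Fn
import Pool.Agent.Lib.MP_29e17e_pr.Y.Tf
import Pool.Agent.Lib.MP_29e17e_pr.Y.Cf

set_option autoImplicit false
set_option linter.unusedSectionVars false

/-! Assembly: the number of points in large clusters off the giant (page 29z_helper62.md). -/

open Finset

namespace Pool.Agent.PERC29.AE

lemma num_sumf {η u a1 a2 a3 a4 v : ℝ} (hη : 0 < η) (hu : u ≤ η / 16) (h1 : a1 ≤ η / 8)
    (h2 : a2 ≤ η / 8) (h3 : a3 ≤ η / 8) (h4 : a4 ≤ η / 8) (hv : v ≤ η / 8) :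
    u + (a1 + a2 + a3 + a4) + v ≤ η := by linarith

open scoped Classical in
theorem fam_ex (d : ℕ) (hd : 9 ≤ d) (C c0 cp η : ℝ) (hC : 1 ≤ C) (hc0 : 0 < c0) (hcp : 0 < cp)
    (hcp1 : cp ≤ 1) (hη : 0 < η) (hη1 : η ≤ 1) :
    ∃ A1 A ε0 : ℝ, 1 ≤ A1 ∧ 0 < A ∧ 0 < ε0 ∧ ∀ (n : ℕ) [NeZero n] [Fintype (torG d n).edgeSet]
      [∀ l, Fintype (boxG d l).edgeSet] (p ε : ℝ), cp ≤ p → cp ≤ 1 - p → 0 < ε → ε ≤ ε0 →
      A ≤ ε * (n : ℝ) ^ 2 →
      (∀ l : ℕ, Hyp d C c0 p l) →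
      (∀ m : ℕ, 1 ≤ m → ∀ x ∈ bT d m (fun _ => false),
        Ex p (fun ω : (boxG d (8 * m)).edgeSet → Bool =>
          if ¬ Disjoint (cu (gends (boxG d (8 * m))) ω x) (bdy d (8 * m)) then (1 : ℝ) else 0) ≤
          C / (m : ℝ) ^ 2) →
      (∀ x, ∀ k : ℕ, 1 ≤ k → Ex p (fun ω => if (k : ℝ) ≤ cz (gends (torG d n)) ω x
        then (1 : ℝ) else 0) ≤ C / Real.sqrt k) →
      (∀ x, ∀ k : ℕ, 1 ≤ k → Ex (p + ε) (fun ω => if (k : ℝ) ≤ cz (gends (torG d n)) ω x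
        then (1 : ℝ) else 0) ≤ C * (1 / Real.sqrt k + ε)) →
      Ex (p + ε) (fun ω => if ∀ y, η * ε * (n : ℝ) ^ d ≤
        ((Fm (gends (torG d n)) ω (A1 / ε ^ 2) y).card : ℝ) then (1 : ℝ) else 0) ≤ η := by
  have hC0 : 0 < C := by linarith
  have hdR : (9 : ℝ) ≤ d := by exact_mod_cast hd
  set D1 : ℝ := d * 2 ^ d with hD1
  have hD1p : 0 < D1 := by positivity
  set γ : ℝ := η ^ 2 / (192 * C * (1 + 8 * C * d / cp)) with hγ
  have hγ0 : 0 < γ := by positivity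
  set ρs : ℝ := (η ^ 2 * γ / (128 * C)) ^ 2 with hρs
  have hρs0 : 0 < ρs := by positivity
  set R0 : ℕ := ⌈64 * C * d / η ^ 2⌉₊ + 4 + ⌈4 * 8 ^ d / ρs⌉₊ with hR0
  have hR0r : 64 * C * d / η ^ 2 + 4 ≤ (R0 : ℝ) := by
    rw [hR0]; push_cast
    have := Nat.le_ceil (64 * C * d / η ^ 2)
    have : (0 : ℝ) ≤ (⌈4 * 8 ^ d / ρs⌉₊ : ℝ) := Nat.cast_nonneg _
    linarith
  have hR0b : 4 * 8 ^ d / ρs ≤ (R0 : ℝ) := by
    rw [hR0]; push_cast
    have := Nat.le_ceil (4 * 8 ^ d / ρs)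
    have : (0 : ℝ) ≤ (⌈64 * C * d / η ^ 2⌉₊ : ℝ) := Nat.cast_nonneg _
    linarith
  have hR01 : 1 ≤ R0 := by omega
  obtain ⟨ρ0, hρ0, q1, q2, q3, q4⟩ := rho_ex d R0 ρs η hρs0 hη
  obtain ⟨a', b0, ha', hb0, hbox⟩ := box_good d hd C c0 cp hC0 hc0 hcp hcp1
  obtain ⟨K0, m1, hK0, hm1, hbox2⟩ := hbox ρ0 hρ0
  have hsa' : 0 < Real.sqrt a' := Real.sqrt_pos.2 ha'
  set K : ℝ := 8 * K0 + 128 * C / η ^ 2 + γ / Real.sqrt a' + 1 with hK
  have hKp : 0 < K := by positivity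
  have hK1 : 8 * K0 ≤ K := by
    have : 0 < 128 * C / η ^ 2 := by positivity
    have : 0 < γ / Real.sqrt a' := by positivity
    linarith
  have hK2 : 128 * C / η ^ 2 ≤ K := by
    have : 0 < γ / Real.sqrt a' := by positivity
    linarith
  have hK3 : γ / Real.sqrt a' ≤ K := by
    have : 0 < 128 * C / η ^ 2 := by positivity
    linarith
  set a : ℝ := (γ / K) ^ 2 with ha
  have hap : 0 < a := by positivity
  have haa : a ≤ a' := by
    have h1 : γ / K ≤ Real.sqrt a' := by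
      rw [div_le_iff₀ hKp]
      rw [div_le_iff₀ hsa'] at hK3
      linarith
    have h2 : (γ / K) ^ 2 ≤ Real.sqrt a' ^ 2 := pow_le_pow_left₀ (by positivity) h1 2
    rwa [Real.sq_sqrt ha'.le] at h2
  set β : ℝ := min (3 * b0) (η * K / 16) with hβ
  have hβp : 0 < β := lt_min (by positivity) (by positivity)
  have hβ1 : β ≤ 3 * b0 := min_le_left _ _
  have hβ2 : β ≤ η * K / 16 := min_le_right _ _
  obtain ⟨a2, c3, m2, ha2, ha2a, hc3, hm2, hE2⟩ := box_E2 d hd C c0 cp a β (ρs / 2) hC0 hc0 hcp hcp1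
    hap hβp (by positivity)
  obtain ⟨A1, AA, hA11, hAA0, hfam⟩ := fam_small d (by omega) K c3 (ρs / (4 * 16 ^ d)) C (η / 8) hKp hc3
    (by positivity) hC0 (by positivity)
  obtain ⟨m4, hm4⟩ := m_ex d (by omega) a C D1 hap hC0
  set Q : ℝ := R0 + 36 + 576 * C * d / η ^ 2 with hQ
  have hQ1 : 1 ≤ Q := by
    have : (0 : ℝ) ≤ R0 := Nat.cast_nonneg _
    have : 0 < 576 * C * d / η ^ 2 := by positivity
    linarith
  obtain ⟨A, ε00, hA, hε00, hsc⟩ := scale_ex d (by omega) K Q η (m1 + m2 + m4 + 1) hKp hQ1 hη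
    (by omega)
  refine ⟨A1, max A AA, min ε00 (min (cp / 2) 1), hA11, lt_of_lt_of_le hA (le_max_left _ _),
    lt_min hε00 (lt_min (by positivity) one_pos), ?_⟩
  intro n _ _ _ p ε hp hp1 hε hεle hAn' hH harm hT hT'
  have hAn : A ≤ ε * (n : ℝ) ^ 2 := (le_max_left _ _).trans hAn'
  have hAAn : AA ≤ ε * (n : ℝ) ^ 2 := (le_max_right _ _).trans hAn'
  have he1 : ε ≤ ε00 := hεle.trans (min_le_left _ _)
  have he2 : ε ≤ cp / 2 := hεle.trans ((min_le_right _ _).trans (min_le_left _ _))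
  have he3 : ε ≤ 1 := hεle.trans ((min_le_right _ _).trans (min_le_right _ _))
  obtain ⟨ht, m, hmm, hmK1, hmK2, hQm⟩ := hsc ε n hε he1 hAn
  have hm1' : m1 ≤ m := by omega
  have hm2' : m2 ≤ m := by omega
  have hm4' : m4 ≤ m := by omega
  have hm : 1 ≤ m := by omega
  have hmR : (1 : ℝ) ≤ m := by exact_mod_cast hm
  have hmp : (0 : ℝ) < m := by linarith
  have hn1 : 1 ≤ n := Nat.one_le_iff_ne_zero.2 (NeZero.ne n)
  have hnR : (1 : ℝ) ≤ n := by exact_mod_cast hn1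
  have hnd : (0 : ℝ) < (n : ℝ) ^ d := by positivity
  -- the threshold
  have hhe : ε ^ 2 * (A1 / ε ^ 2) = A1 := by field_simp
  have hh1 : 1 ≤ A1 / ε ^ 2 := by
    rw [le_div_iff₀ (by positivity)]
    have : ε ^ 2 ≤ 1 := pow_le_one₀ hε.le he3
    linarith
  have hh0 : 0 < A1 / ε ^ 2 := by linarith
  have hhs : 1 / Real.sqrt (A1 / ε ^ 2) ≤ ε := by
    have h1 : 1 / ε ≤ Real.sqrt (A1 / ε ^ 2) := by
      apply Real.le_sqrt_of_sq_le
      rw [div_pow, one_pow]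
      exact div_le_div_of_nonneg_right hA11 (by positivity)
    rw [div_le_iff₀ (Real.sqrt_pos.2 hh0)]
    rw [div_le_iff₀ hε] at h1
    linarith
  -- the numbers of boxes
  have hQm36 : ((R0 : ℝ) + 36) * m ≤ n := by
    have h1 : ((R0 : ℝ) + 36) ≤ Q := by
      have : 0 < 576 * C * d / η ^ 2 := by positivity
      linarith
    calc ((R0 : ℝ) + 36) * m ≤ Q * m := mul_le_mul_of_nonneg_right h1 hmp.le
      _ ≤ n := hQm
  have hN36 : (R0 + 36) * m ≤ n := by exact_mod_cast hQm36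
  have hdiv : R0 + 36 ≤ n / m := (Nat.le_div_iff_mul_le (by omega)).2 hN36
  set X : ℕ := n / m - 8 with hX
  have hX8 : X + 8 = n / m := by omega
  have hXR : R0 ≤ X := by omega
  obtain ⟨k, R, r1, r2, r3, r4⟩ := top_choice R0 X hR01 hXR
  set L : ℝ := (R : ℝ) * 40 ^ k with hL
  have hLX : L ≤ X := by
    rw [hL]
    have : ((R * 40 ^ k : ℕ) : ℝ) ≤ (X : ℝ) := by exact_mod_cast r3
    push_cast at this
    exact this
  have hLp : 0 ≤ L := by positivity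
  have hLR0 : (R0 : ℝ) ≤ L := by
    have h1 : (R0 : ℝ) ≤ R := by exact_mod_cast r1
    have h2 : (1 : ℝ) ≤ 40 ^ k := one_le_pow₀ (by norm_num)
    have h3 : (0 : ℝ) ≤ R := Nat.cast_nonneg _
    rw [hL]
    have h4 := mul_le_mul_of_nonneg_left h2 h3
    linarith
  have h9 : 9 * m ≤ n := le_trans (Nat.mul_le_mul_right m (by omega)) hN36
  have hslab := slab_small (d := d) hm h9 hX8 R0 hR01 r4 hLX
  have hmn : m * (n / m) ≤ n := Nat.mul_div_le n m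
  have hmL : m * (R * 40 ^ k) + 7 * m ≤ n := by
    have h1 : m * (R * 40 ^ k) ≤ m * X := Nat.mul_le_mul_left m r3
    have h2 : m * (X + 8) = m * X + 8 * m := by ring
    rw [← hX8, h2] at hmn
    omega
  have hmLr : (m : ℝ) * L ≤ n := by
    have h1 : m * (R * 40 ^ k) ≤ n := by omega
    have h2 : ((m * (R * 40 ^ k) : ℕ) : ℝ) ≤ (n : ℝ) := by exact_mod_cast h1
    push_cast at h2
    exact h2
  have h8n : 8 * m < n := by omega
  -- the slab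
  have hσ : (d : ℝ) * (9 * m / n + 1 / R0) ≤ η ^ 2 / (32 * C) := by
    refine num_sigma (d : ℝ) (Nat.cast_nonneg _) hC0 hη hmp (by linarith) hR0r (Q := Q) ?_ hQm
    have : (0 : ℝ) ≤ R0 := Nat.cast_nonneg _
    linarith
  have hσ0 : 0 ≤ (d : ℝ) * (9 * m / n + 1 / R0) := by positivity
  -- the sprinklings
  have h0p : 0 ≤ p := hcp.le.trans hp
  have hp1' : p ≤ 1 := by linarith
  obtain ⟨s1, z1, z2, z3, z4⟩ := spr3 (p0 := p) h0p hε (by linarith)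
  have hs10 : 0 ≤ s1 := by linarith
  have hs20 : 0 ≤ ε / 4 := by linarith
  have hs21 : ε / 4 ≤ 1 := by linarith
  obtain ⟨hKm1, hgood0⟩ := hbox2 m hm1' p hp hp1 (hH m) (hH (8 * m))
  have hKs : K0 / (m : ℝ) ^ 2 ≤ s1 := by
    refine le_trans ?_ z1
    rw [div_le_iff₀ (by positivity)]
    linarith
  have hgood := (good_anti (ends := gends (boxG d (8 * m))) h0p hp1' (by positivity) hKs z2 Set.univ
    (bT d m) (a' * (m : ℝ) ^ 4) (b0 * (m : ℝ) ^ (d - 2))).trans hgood0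
  obtain ⟨kk, κ, j, w1, w2, w3, hE2'⟩ := hE2 m hm2' p hp hp1 (hH (8 * m)).1 (hH (8 * m)).2.1
    (hH (8 * m)).2.2
  obtain ⟨hA2, hXX⟩ := hm4 m hm4' hm
  have hRr : (R : ℝ) ≤ 40 * R0 := by
    have : ((R : ℕ) : ℝ) ≤ ((40 * R0 : ℕ) : ℝ) := by exact_mod_cast r2.le
    push_cast at this
    exact this
  have hRρ : (R : ℝ) ^ d * ρ0 ≤ η / 16 :=
    (mul_le_mul_of_nonneg_right (pow_le_pow_left₀ (Nat.cast_nonneg _) hRr d) hρ0.le).trans q3
  have ht0 : 0 < η * ε * (n : ℝ) ^ d := by positivity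
  have hR1 : 1 ≤ R := by omega
  have hβL : β * (m : ℝ) ^ (d - 2) * L ^ d < η * ε * (n : ℝ) ^ d / 2 :=
    num_beta (by omega) hη hε (by linarith) hmp hLp hβp hβ2 hmLr hmK2
  have hs : 1 - (1 - s1) * (1 - ε / 4) * (1 - ε / 4) ≤ ε / cp := by
    rw [z4]
    exact div_le_div_of_nonneg_left hε.le hcp hp1
  have hs0 : 0 ≤ 1 - (1 - s1) * (1 - ε / 4) * (1 - ε / 4) := by
    rw [z4]
    exact div_nonneg hε.le (by linarith)
  have hT2 : ∀ x, ∀ k : ℕ, 1 ≤ k → Ex (1 - (1 - p) * (1 - s1) * (1 - ε / 4) * (1 - ε / 4)) (fun ω =>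
      if (k : ℝ) ≤ cz (gends (torG d n)) ω x then (1 : ℝ) else 0) ≤ C * (1 / Real.sqrt k + ε) := by
    rw [z3]
    exact hT'
  -- half of the torus
  have hhalf : (n : ℝ) / 2 ≤ m * L := by
    have hR04 : (4 : ℝ) ≤ R0 := by
      have : 0 < 64 * C * d / η ^ 2 := by positivity
      linarith
    have f1 : (n : ℝ) - 9 * m ≤ (m : ℝ) * (X : ℝ) := by
      have g1 : n < m * (n / m + 1) := Nat.lt_mul_div_succ n (by omega)
      have g2 : (n : ℝ) < (m : ℝ) * ((n / m : ℕ) + 1) := by exact_mod_cast g1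
      rw [← hX8] at g2
      push_cast at g2
      linarith
    have f3 : 36 * (m : ℝ) ≤ n := by
      have h1 : 36 * m ≤ n := le_trans (Nat.mul_le_mul_right m (by omega)) hN36
      exact_mod_cast h1
    exact num_half hmp (Nat.cast_nonneg _) f1 f3 hR04 r4
  obtain ⟨B, hB1, hB2⟩ := B_ex (d := d) (n := n) (m := m) (b3 := ρs) (L := L) (by omega) hm hρs0
    (hR0b.trans hLR0) (le_trans (by exact_mod_cast hR01) hLR0) hhalf
  obtain ⟨j1, hj1⟩ := hfam ε n m B kk κ j hm hn1 hε he3 hmK1 hmK2 hAAn hB2 w1 w2 w3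
  have hnum := tor_fam (d := d) (m := m) (n := n) (k := k) (R := R) (by omega) hm hR1 hmL h8n (p := p)
    (s1 := s1) (s2 := ε / 4) (s3 := ε / 4) (ρ0 := ρ0) (ρ2 := ρs / 2) (A2 := a * (m : ℝ) ^ 4)
    (A2' := a' * (m : ℝ) ^ 4) (b := b0 * (m : ℝ) ^ (d - 2)) (k2 := a2 * (m : ℝ) ^ 4)
    (β := β * (m : ℝ) ^ (d - 2)) (t := η * ε * (n : ℝ) ^ d) (h := A1 / ε ^ 2) (C := C) (e := ε)
    (X := C * D1 * ((8 * m : ℕ) : ℝ) ^ 2) (δ1 := C / (m : ℝ) ^ 2) (kk := kk) (κ := κ) (j := j) (j1 := j1)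
    (B := B)
    h0p hp1' hs10 z2 hs20 hs21 hs20 hs21 (by positivity) hρ0.le (by positivity) q2 hC0.le hε.le ht0 hh1 hA2
    (mul_le_mul_of_nonneg_right haa (by positivity)) (by positivity)
    (mul_le_mul_of_nonneg_right ha2a (by positivity)) (by positivity)
    (by
      have := mul_le_mul_of_nonneg_right hβ1 (by positivity : (0 : ℝ) ≤ (m : ℝ) ^ (d - 2))
      linarith) hgood hE2'
    (fun x => hyp_X (by omega : 2 ≤ d) hC0.le (hH (8 * m)).1 x)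
    (fun x _ => tail_real hC0.le hA2 x (fun k hk => (hH (8 * m)).2.1 x k hk))
    (fun x hx => harm m hm x hx) hT hT2 hβL
  rw [z3] at hnum
  -- the four terms
  have hS1 := S1f_le (d := d) (n := n) (η := η) (ε := ε) (C := C)
    (σ := (d : ℝ) * (9 * m / n + 1 / R0)) (S := (n : ℝ) ^ d - ((m : ℝ) * L) ^ d) (h := A1 / ε ^ 2)
    hη hε hn1 hC0.le hhs hslab hσ0
  have hS2 := S2f_le (d := d) (n := n) (m := m) (η := η) (ε := ε) (C := C) (K := K) (γ := γ) (cp := cp)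
    (L := L) (s := 1 - (1 - s1) * (1 - ε / 4) * (1 - ε / 4)) (h := A1 / ε ^ 2) hη hε hn1 hm hC0.le hKp
    hγ0.le hcp hh0 (by rw [hhe]; exact hA11) hmK1
    hmK2 hLp hmLr hs0 hs
  have hS3 := S3_le (d := d) (n := n) (m := m) (η := η) (ε := ε) (C := C) (K := K) (γ := γ)
    (L := L) (X := C * D1 * ((8 * m : ℕ) : ℝ) ^ 2) (ρ' := 4 * 20 ^ d * ρ0 + ρs / 2) hη hε hn1 hm hC0.le
    hKp hγ0 hmK2 hLp hmLr hXX
  have hS5 := S5f_le (d := d) (n := n) (m := m) (η := η) (ε := ε) (C := C) (K := K) (γ := γ)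
    (L := L) (X := C * D1 * ((8 * m : ℕ) : ℝ) ^ 2) (b3 := ρs) (N8 := ((8 ^ d * (2 * B) : ℕ) : ℝ))
    hη hε hn1 hm hC0.le
    hKp hγ0 hmK2 hLp hmLr hXX (by positivity) hρs0.le hB1
  have b1 := hS1.trans (num_b1 hC0 hη hσ)
  have b2 := hS2.trans (num_b2 (d := (d : ℝ)) hC0 hη hKp (Nat.cast_nonneg _) hcp hγ hK2)
  have b3 := hS3.trans (num_b3 hC0 hη hγ0 hρs (by linarith))
  have b5 := hS5.trans (num_b3 hC0 hη hγ0 hρs le_rfl)
  have hsplit : ∀ u1 u2 u3 u4 v : ℝ, (u1 + u2 + u3 + u4) / v = u1 / v + u2 / v + u3 / v + u4 / v := by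
    intro u1 u2 u3 u4 v; rw [add_div, add_div, add_div]
  rw [hsplit] at hnum
  exact hnum.trans (num_sumf hη hRρ b1 b2 b3 b5 hj1)

end Pool.Agent.PERC29.AE
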