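import Pool.Agent.Lib.MP_29e17e_pr.Y.Fa
import Pool.Agent.Lib.MP_29e17e_pr.Y.Ms

set_option autoImplicit false
set_option linter.unusedSectionVars false

/-! Row 29z-M1: the mass of the family (page 29z_helper62.md, Section 2). -/

open Finset

namespace Pool.Agent.PERC29.AE

variable {V : Type*} [Fintype V] [DecidableEq V] {E : Type*} [Fintype E] [DecidableEq E]
  {ends : E → Sym2 V}
  {Vb : Type*} [Fintype Vb] [DecidableEq Vb] {Eb : Type*} [Fintype Eb] [DecidableEq Eb]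
  {endb : Eb → Sym2 Vb}

/-- The fourfold expectation. -/
noncomputable def M1_E4 (p s1 s2 s3 : ℝ)
    (f : (E → Bool) → (E → Bool) → (E → Bool) → (E → Bool) → ℝ) : ℝ :=
  Ex p (fun ω => Ex s1 (fun η1 => Ex s2 (fun η2 => Ex s3 (fun η3 => f ω η1 η2 η3))))

lemma M1_mono {p s1 s2 s3 : ℝ} (h0 : 0 ≤ p) (h1 : p ≤ 1) (h10 : 0 ≤ s1) (h11 : s1 ≤ 1)
    (h20 : 0 ≤ s2) (h21 : s2 ≤ 1) (h30 : 0 ≤ s3) (h31 : s3 ≤ 1)
    {f g : (E → Bool) → (E → Bool) → (E → Bool) → (E → Bool) → ℝ}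
    (h : ∀ ω η1 η2 η3, f ω η1 η2 η3 ≤ g ω η1 η2 η3) :
    M1_E4 p s1 s2 s3 f ≤ M1_E4 p s1 s2 s3 g :=
  Ex_mono h0 h1 fun ω => Ex_mono h10 h11 fun η1 => Ex_mono h20 h21 fun η2 =>
    Ex_mono h30 h31 fun η3 => h ω η1 η2 η3

lemma M1_add (p s1 s2 s3 : ℝ)
    (f g : (E → Bool) → (E → Bool) → (E → Bool) → (E → Bool) → ℝ) :
    M1_E4 p s1 s2 s3 (fun ω η1 η2 η3 => f ω η1 η2 η3 + g ω η1 η2 η3) =
      M1_E4 p s1 s2 s3 f + M1_E4 p s1 s2 s3 g := by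
  unfold M1_E4
  rw [← Ex_add]
  refine Ex_congr fun ω => ?_
  rw [← Ex_add]
  refine Ex_congr fun η1 => ?_
  rw [← Ex_add]
  refine Ex_congr fun η2 => ?_
  rw [← Ex_add]

lemma M1_mul (p s1 s2 s3 c : ℝ)
    (f : (E → Bool) → (E → Bool) → (E → Bool) → (E → Bool) → ℝ) :
    M1_E4 p s1 s2 s3 (fun ω η1 η2 η3 => c * f ω η1 η2 η3) = c * M1_E4 p s1 s2 s3 f := by
  unfold M1_E4
  rw [← Ex_mul_left]
  refine Ex_congr fun ω => ?_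
  rw [← Ex_mul_left]
  refine Ex_congr fun η1 => ?_
  rw [← Ex_mul_left]
  refine Ex_congr fun η2 => ?_
  rw [← Ex_mul_left]

lemma M1_sum {κ : Type*} (S : Finset κ) (p s1 s2 s3 : ℝ)
    (f : κ → (E → Bool) → (E → Bool) → (E → Bool) → (E → Bool) → ℝ) :
    M1_E4 p s1 s2 s3 (fun ω η1 η2 η3 => ∑ i ∈ S, f i ω η1 η2 η3) =
      ∑ i ∈ S, M1_E4 p s1 s2 s3 (f i) := by
  unfold M1_E4
  rw [← Ex_sum]
  refine Ex_congr fun ω => ?_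
  rw [← Ex_sum]
  refine Ex_congr fun η1 => ?_
  rw [← Ex_sum]
  refine Ex_congr fun η2 => ?_
  rw [← Ex_sum]

lemma M1_two (p s1 s2 s3 : ℝ) (f : (E → Bool) → (E → Bool) → ℝ) :
    M1_E4 p s1 s2 s3 (fun ω η1 _ _ => f ω η1) = Ex p (fun ω => Ex s1 (fun η1 => f ω η1)) := by
  unfold M1_E4
  refine Ex_congr fun ω => Ex_congr fun η1 => ?_
  rw [Ex_const, Ex_const]

lemma M1_orc (p s1 s2 s3 : ℝ) (f : (E → Bool) → ℝ) :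
    M1_E4 p s1 s2 s3 (fun ω η1 η2 η3 => f (orc (orc (orc ω η1) η2) η3)) =
      Ex (1 - (1 - p) * (1 - s1) * (1 - s2) * (1 - s3)) f := by
  have e1 : (1 - (1 - p) * (1 - s1) * (1 - s2) * (1 - s3) : ℝ) =
      1 - (1 - (1 - (1 - p) * (1 - s1) * (1 - s2))) * (1 - s3) := by ring
  have e2 : (1 - (1 - p) * (1 - s1) * (1 - s2) : ℝ) =
      1 - (1 - (1 - (1 - p) * (1 - s1))) * (1 - s2) := by ring
  rw [e1, Ex_orc, e2, Ex_orc, Ex_orc]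
  rfl

/-- `Ex √ ≤ √ Ex`. -/
lemma M1_sqrt {p : ℝ} (h0 : 0 ≤ p) (h1 : p ≤ 1) (f : (E → Bool) → ℝ) (hf : ∀ ω, 0 ≤ f ω) {b : ℝ}
    (hb : Ex p f ≤ b) : Ex p (fun ω => Real.sqrt (f ω)) ≤ Real.sqrt b := by
  apply Real.le_sqrt_of_sq_le
  have h := Ex_csq h0 h1 (fun ω => Real.sqrt (f ω)) (fun _ => 1)
  simp only [mul_one, one_pow] at h
  rw [Ex_const, mul_one] at h
  refine h.trans (le_trans (le_of_eq ?_) hb)
  exact Ex_congr fun ω => Real.sq_sqrt (hf ω)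

open scoped Classical in
/-- The indicator is at most the Markov bound. -/
lemma M1_pt {ι : Type*}
    (𝒵 : Finset ι) (φ : ι → Vb → V) (ψ : ι → Eb → E)
    {k2 A2 β t h : ℝ} {kk κ j B N8 : ℕ} (ht : 0 < t) (hβ : 0 ≤ β) (W T : Finset Vb) (hTW : T ⊆ W)
    (Sl : Finset V) (hcov : ∀ x, x ∉ Sl → ∃ z ∈ 𝒵, ∃ v ∈ T, φ z v = x)
    (Γ : Finset V) (bad : ι → Prop) (G : Prop) (ω β' : E → Bool) (y : V)
    (hgood : G → ∀ z ∈ 𝒵, ¬ bad z → ¬ BadE2 endb (pl (ψ z) ω) W k2 A2 β kk κ j ∧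
      β ≤ vol endb (pl (ψ z) ω) W A2 (pre (φ z) Γ))
    (hsep : ∀ 𝒵' ⊆ 𝒵, N8 ≤ 𝒵'.card → ∃ 𝒵0 ⊆ 𝒵', 2 * B ≤ 𝒵0.card ∧ Sep φ 𝒵0)
    (hβ2 : β * 𝒵.card < t / 2) :
    (if G ∧ t ≤ ((Fm ends β' h y).card : ℝ) ∧
        ¬ ShM 𝒵 φ ψ endb W k2 A2 β kk κ j B ω Γ (Fm ends β' h y)
      then (1 : ℝ) else 0) ≤
      1 / (t / 2) * ((∑ x ∈ Sl, (if h ≤ cz ends β' x then (1 : ℝ) else 0)) +
      ((∑ z ∈ 𝒵, ∑ v ∈ T, (if cz endb (pl (ψ z) ω) v < A2 ∧ h ≤ cz ends β' (φ z v)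
        then (1 : ℝ) else 0)) +
      ((∑ z ∈ 𝒵, (if bad z then (1 : ℝ) else 0) * vt endb (pl (ψ z) ω) T A2) +
      Real.sqrt (N8 * ∑ z ∈ 𝒵, vt endb (pl (ψ z) ω) T A2 ^ 2)))) := by
  have hn1 : (0 : ℝ) ≤ ∑ x ∈ Sl, (if h ≤ cz ends β' x then (1 : ℝ) else 0) :=
    Finset.sum_nonneg fun x _ => by split_ifs <;> norm_num
  have hn2 : (0 : ℝ) ≤ ∑ z ∈ 𝒵, ∑ v ∈ T,
      (if cz endb (pl (ψ z) ω) v < A2 ∧ h ≤ cz ends β' (φ z v) then (1 : ℝ) else 0) :=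
    Finset.sum_nonneg fun z _ => Finset.sum_nonneg fun v _ => by split_ifs <;> norm_num
  have hvt : ∀ z, 0 ≤ vt endb (pl (ψ z) ω) T A2 := fun z => Nat.cast_nonneg _
  have hn3 : (0 : ℝ) ≤ ∑ z ∈ 𝒵, (if bad z then (1 : ℝ) else 0) * vt endb (pl (ψ z) ω) T A2 :=
    Finset.sum_nonneg fun z _ => mul_nonneg (by split_ifs <;> norm_num) (hvt z)
  have hn4 := Real.sqrt_nonneg (N8 * ∑ z ∈ 𝒵, vt endb (pl (ψ z) ω) T A2 ^ 2)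
  split_ifs with hev
  swap
  · positivity
  obtain ⟨hG, hx, hSh⟩ := hev
  set K := Fm ends β' h y with hKdef
  have hK : ∀ x' ∈ K, h ≤ cz ends β' x' := by
    intro x' hx'
    rw [hKdef, Fm, Finset.mem_filter] at hx'
    exact hx'.2.1
  set 𝒵' := 𝒵.filter (fun z => ¬ bad z ∧ β ≤ vol endb (pl (ψ z) ω) W A2 (pre (φ z) K)) with h𝒵'
  have hlt : 𝒵'.card < N8 := by
    by_contra hcon
    push Not at hcon
    obtain ⟨𝒵0, hs0, hB0, hS0⟩ := hsep 𝒵' (Finset.filter_subset _ _) hcon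
    refine hSh ⟨𝒵0, hs0.trans (Finset.filter_subset _ _), hB0, hS0, ?_⟩
    intro z hz
    have hz' := hs0 hz
    rw [h𝒵', Finset.mem_filter] at hz'
    obtain ⟨g1, g2⟩ := hgood hG z hz'.1 hz'.2.1
    exact ⟨g1, g2, hz'.2.2⟩
  obtain ⟨bd, hbd⟩ : ∃ bd : ι → Prop, ∀ z, bd z ↔
      (bad z ∨ β ≤ vol endb (pl (ψ z) ω) W A2 (pre (φ z) K)) := ⟨_, fun _ => Iff.rfl⟩
  have hb : ∀ z ∈ 𝒵, ¬ bd z →
      ((T.filter (fun v => φ z v ∈ K ∧ A2 ≤ cz endb (pl (ψ z) ω) v)).card : ℝ) < β := by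
    intro z hz hbz
    rw [hbd z] at hbz
    push Not at hbz
    refine lt_of_le_of_lt ?_ hbz.2
    unfold vol
    have hsub : T.filter (fun v => φ z v ∈ K ∧ A2 ≤ cz endb (pl (ψ z) ω) v) ⊆
        W.filter (fun v => v ∈ pre (φ z) K ∧ A2 ≤ cz endb (pl (ψ z) ω) v) := by
      intro v hv
      rw [Finset.mem_filter] at hv ⊢
      refine ⟨hTW hv.1, ?_, hv.2.2⟩
      unfold pre
      rw [Finset.mem_filter]
      exact ⟨Finset.mem_univ _, hv.2.1⟩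
    exact_mod_cast Finset.card_le_card hsub
  have hm := mass_pt (ends := ends) (endb := endb) 𝒵 φ ψ T Sl hcov (A2 := A2) hβ ω β'
    K hK bd hb
  have hc : ((Sl.filter (fun x => h ≤ cz ends β' x)).card : ℝ) =
      ∑ x ∈ Sl, (if h ≤ cz ends β' x then (1 : ℝ) else 0) := by
    rw [Finset.card_filter]
    push_cast
    rfl
  rw [hc] at hm
  have hsplit : ∑ z ∈ 𝒵, (if bd z then (1 : ℝ) else 0) * vt endb (pl (ψ z) ω) T A2 ≤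
      (∑ z ∈ 𝒵, (if bad z then (1 : ℝ) else 0) * vt endb (pl (ψ z) ω) T A2) +
        ∑ z ∈ 𝒵', vt endb (pl (ψ z) ω) T A2 := by
    rw [h𝒵', Finset.sum_filter, ← Finset.sum_add_distrib]
    refine Finset.sum_le_sum fun z _ => ?_
    have := hvt z
    by_cases hbz : bad z
    · simp [hbz, hbd]
    · by_cases hbv : β ≤ vol endb (pl (ψ z) ω) W A2 (pre (φ z) K)
      · simp [hbz, hbv, hbd]
      · simp [hbz, hbv, hbd]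
  have hcs : ∑ z ∈ 𝒵', vt endb (pl (ψ z) ω) T A2 ≤
      Real.sqrt (N8 * ∑ z ∈ 𝒵, vt endb (pl (ψ z) ω) T A2 ^ 2) := by
    apply Real.le_sqrt_of_sq_le
    have h1 := Finset.sum_mul_sq_le_sq_mul_sq 𝒵' (fun _ => (1 : ℝ))
      (fun z => vt endb (pl (ψ z) ω) T A2)
    simp only [one_mul, one_pow, Finset.sum_const, nsmul_eq_mul, mul_one] at h1
    refine h1.trans ?_
    apply mul_le_mul
    · exact_mod_cast hlt.le
    · exact Finset.sum_le_sum_of_subset_of_nonneg (Finset.filter_subset _ _)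
        (fun z _ _ => sq_nonneg _)
    · exact Finset.sum_nonneg fun z _ => sq_nonneg _
    · exact Nat.cast_nonneg _
  have ht2 : (0 : ℝ) < t / 2 := by linarith
  rw [one_div, inv_mul_eq_div, le_div_iff₀ ht2]
  linarith

open scoped Classical in
/-- Row M1. As `mass_all` (finished file 29w_M5.lean). If the event holds let `F = Fm β h y0`, `β = orc (orc (orc ω η1) η2) η3`, and `𝒵' = {z ∈ 𝒵 | ¬ A z ω η1, β ≤ vol (pre (φ z) F)}`. If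
`N8 ≤ |𝒵'|` then `hsep` and `hgood` give `ShM`; so `|𝒵'| < N8`. `mass_pt` with `K = F`, threshold `h`, `bad z := A z ω η1 ∨ β ≤ vol (pre (φ z) F)` gives
`t ≤ M1 + M2 + ∑ z, 1[A z] vt + ∑ z ∈ 𝒵', vt + β |𝒵|`, and by Cauchy-Schwarz `∑ z ∈ 𝒵', vt ≤ √(N8 ∑ z ∈ 𝒵, vt²)`, whose mean is at most `√(N8 (|𝒵| Y2))`
(`Ex √ ≤ √ Ex`, from `Ex_csq`). Markov as there. -/
theorem mass_fam {p s1 s2 s3 : ℝ} (h0 : 0 ≤ p) (h1 : p ≤ 1) (h10 : 0 ≤ s1) (h11 : s1 ≤ 1) (h20 : 0 ≤ s2)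
    (h21 : s2 ≤ 1) (h30 : 0 ≤ s3) (h31 : s3 ≤ 1) {ι : Type*}
    (𝒵 : Finset ι) (φ : ι → Vb → V) (ψ : ι → Eb → E)
    {k2 A2 β t h : ℝ} {kk κ j B N8 : ℕ} (ht : 0 < t) (hβ : 0 ≤ β) (W T : Finset Vb) (hTW : T ⊆ W)
    (Sl : Finset V) (hcov : ∀ x, x ∉ Sl → ∃ z ∈ 𝒵, ∃ v ∈ T, φ z v = x)
    (y0 : (E → Bool) → (E → Bool) → V) (A : ι → (E → Bool) → (E → Bool) → Prop)
    (G : (E → Bool) → (E → Bool) → Prop)
    (hgood : ∀ ω η, G ω η → ∀ z ∈ 𝒵, ¬ A z ω η → ¬ BadE2 endb (pl (ψ z) ω) W k2 A2 β kk κ j ∧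
      β ≤ vol endb (pl (ψ z) ω) W A2 (pre (φ z) (cu ends (orc ω η) (y0 ω η))))
    (hsep : ∀ 𝒵' ⊆ 𝒵, N8 ≤ 𝒵'.card → ∃ 𝒵0 ⊆ 𝒵', 2 * B ≤ 𝒵0.card ∧ Sep φ 𝒵0)
    (hβ2 : β * 𝒵.card < t / 2) {m1 m2 m3 Y2 : ℝ}
    (hT1 : ∀ x, Ex (1 - (1 - p) * (1 - s1) * (1 - s2) * (1 - s3)) (fun ω =>
      if h ≤ cz ends ω x then (1 : ℝ) else 0) ≤ m1)
    (hM2 : ∀ z ∈ 𝒵, ∀ v ∈ T, Ex p (fun ω => Ex s1 (fun η1 => Ex s2 (fun η2 => Ex s3 (fun η3 =>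
      if cz endb (pl (ψ z) ω) v < A2 ∧ h ≤ cz ends (orc (orc (orc ω η1) η2) η3) (φ z v)
        then (1 : ℝ) else 0)))) ≤ m2)
    (hM3 : ∀ z ∈ 𝒵, Ex p (fun ω => Ex s1 (fun η => (if A z ω η then (1 : ℝ) else 0) *
      vt endb (pl (ψ z) ω) T A2)) ≤ m3)
    (hY2 : ∀ z ∈ 𝒵, Ex p (fun ω => vt endb (pl (ψ z) ω) T A2 ^ 2) ≤ Y2) :
    Ex p (fun ω => Ex s1 (fun η1 => Ex s2 (fun η2 => Ex s3 (fun η3 =>
      if G ω η1 ∧ t ≤ ((Fm ends (orc (orc (orc ω η1) η2) η3) h (y0 ω η1)).card : ℝ) ∧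
        ¬ ShM 𝒵 φ ψ endb W k2 A2 β kk κ j B ω (cu ends (orc ω η1) (y0 ω η1))
          (Fm ends (orc (orc (orc ω η1) η2) η3) h (y0 ω η1)) then (1 : ℝ) else 0)))) ≤
      (Sl.card * m1 + 𝒵.card * T.card * m2 + 𝒵.card * m3 + Real.sqrt (N8 * (𝒵.card * Y2))) /
        (t / 2) := by
  have hpt : ∀ ω η1 η2 η3 : E → Bool,
      (if G ω η1 ∧ t ≤ ((Fm ends (orc (orc (orc ω η1) η2) η3) h (y0 ω η1)).card : ℝ) ∧
        ¬ ShM 𝒵 φ ψ endb W k2 A2 β kk κ j B ω (cu ends (orc ω η1) (y0 ω η1))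
          (Fm ends (orc (orc (orc ω η1) η2) η3) h (y0 ω η1)) then (1 : ℝ) else 0) ≤
      1 / (t / 2) * ((∑ x ∈ Sl, (if h ≤ cz ends (orc (orc (orc ω η1) η2) η3) x
          then (1 : ℝ) else 0)) +
      ((∑ z ∈ 𝒵, ∑ v ∈ T, (if cz endb (pl (ψ z) ω) v < A2 ∧
        h ≤ cz ends (orc (orc (orc ω η1) η2) η3) (φ z v) then (1 : ℝ) else 0)) +
      ((∑ z ∈ 𝒵, (if A z ω η1 then (1 : ℝ) else 0) * vt endb (pl (ψ z) ω) T A2) +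
      Real.sqrt (N8 * ∑ z ∈ 𝒵, vt endb (pl (ψ z) ω) T A2 ^ 2)))) := by
    intro ω η1 η2 η3
    exact M1_pt (ends := ends) (endb := endb) 𝒵 φ ψ ht hβ W T hTW Sl hcov
      (cu ends (orc ω η1) (y0 ω η1)) (fun z => A z ω η1) (G ω η1) ω
      (orc (orc (orc ω η1) η2) η3) (y0 ω η1) (fun hG => hgood ω η1 hG) hsep hβ2
  have hmono := M1_mono h0 h1 h10 h11 h20 h21 h30 h31 hpt
  refine le_trans hmono ?_
  rw [M1_mul, M1_add, M1_add, M1_add, M1_sum, M1_sum, M1_sum]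
  have ht2 : (0 : ℝ) < t / 2 := by linarith
  have b1 : ∑ x ∈ Sl, M1_E4 p s1 s2 s3 (fun ω η1 η2 η3 =>
      if h ≤ cz ends (orc (orc (orc ω η1) η2) η3) x then (1 : ℝ) else 0) ≤ Sl.card * m1 := by
    rw [← nsmul_eq_mul, ← Finset.sum_const]
    refine Finset.sum_le_sum fun x _ => ?_
    have := M1_orc (E := E) p s1 s2 s3 (fun ω => if h ≤ cz ends ω x then (1 : ℝ) else 0)
    rw [this]
    exact hT1 x
  have b2 : ∑ z ∈ 𝒵, M1_E4 p s1 s2 s3 (fun ω η1 η2 η3 => ∑ v ∈ T,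
      if cz endb (pl (ψ z) ω) v < A2 ∧ h ≤ cz ends (orc (orc (orc ω η1) η2) η3) (φ z v)
        then (1 : ℝ) else 0) ≤ 𝒵.card * T.card * m2 := by
    have h3 : (𝒵.card * T.card * m2 : ℝ) = ∑ z ∈ 𝒵, ∑ v ∈ T, m2 := by
      rw [Finset.sum_const, Finset.sum_const, nsmul_eq_mul, nsmul_eq_mul]
      ring
    rw [h3]
    refine Finset.sum_le_sum fun z hz => ?_
    rw [M1_sum]
    exact Finset.sum_le_sum fun v hv => hM2 z hz v hv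
  have b3 : ∑ z ∈ 𝒵, M1_E4 p s1 s2 s3 (fun ω η1 _ _ =>
      (if A z ω η1 then (1 : ℝ) else 0) * vt endb (pl (ψ z) ω) T A2) ≤ 𝒵.card * m3 := by
    rw [← nsmul_eq_mul, ← Finset.sum_const]
    refine Finset.sum_le_sum fun z hz => ?_
    rw [M1_two]
    exact hM3 z hz
  have b4 : M1_E4 p s1 s2 s3 (fun ω _ _ _ =>
      Real.sqrt (N8 * ∑ z ∈ 𝒵, vt endb (pl (ψ z) ω) T A2 ^ 2)) ≤
      Real.sqrt (N8 * (𝒵.card * Y2)) := by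
    rw [M1_two p s1 s2 s3 (fun ω _ => Real.sqrt (N8 * ∑ z ∈ 𝒵, vt endb (pl (ψ z) ω) T A2 ^ 2))]
    have e1 : Ex p (fun ω => Ex s1 (fun _ : E → Bool =>
        Real.sqrt (N8 * ∑ z ∈ 𝒵, vt endb (pl (ψ z) ω) T A2 ^ 2))) =
        Ex p (fun ω => Real.sqrt (N8 * ∑ z ∈ 𝒵, vt endb (pl (ψ z) ω) T A2 ^ 2)) :=
      Ex_congr fun ω => Ex_const _ _
    rw [e1]
    apply M1_sqrt h0 h1
    · intro ω
      exact mul_nonneg (Nat.cast_nonneg _) (Finset.sum_nonneg fun z _ => sq_nonneg _)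
    · rw [Ex_mul_left, Ex_sum]
      apply mul_le_mul_of_nonneg_left _ (Nat.cast_nonneg _)
      rw [← nsmul_eq_mul, ← Finset.sum_const]
      exact Finset.sum_le_sum fun z hz => hY2 z hz
  rw [one_div, inv_mul_eq_div]
  apply div_le_div_of_nonneg_right _ ht2.le
  linarith

end Pool.Agent.PERC29.AE
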